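import Mathlib
import Pool.Agent.Helper730.Kneser

set_option autoImplicit false
set_option linter.unusedSectionVars false

open scoped Pointwise
open Finset

namespace Pool.Agent.Helper730.Atoms

open Pool.Agent.Helper730.Kneser

variable {G : Type*} [AddCommGroup G] [Fintype G] [DecidableEq G]

/-- Admissible sets for the second isoperimetric number of `S`. -/
def Valid (S F : Finset G) : Prop := 2 ≤ F.card ∧ (F + S).card + 2 ≤ Fintype.card G

/-- Atoms: admissible sets of least boundary and then of least size. -/
def IsAtom (S M : Finset G) : Prop :=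
  Valid S M ∧ ∀ F, Valid S F → (M + S).card + F.card ≤ (F + S).card + M.card ∧
    ((M + S).card + F.card = (F + S).card + M.card → M.card ≤ F.card)

theorem card_le_add (F S : Finset G) (hS : S.Nonempty) : F.card ≤ (F + S).card :=
  Finset.card_le_card_add_right hS

theorem exists_atom (S : Finset G) (hS : S.Nonempty) (F0 : Finset G) (hF0 : Valid S F0) :
    ∃ M, IsAtom S M := by
  classical
  set N := Fintype.card G with hN
  obtain ⟨M, hM, hmin⟩ := Finset.exists_min_image
    ((Finset.univ : Finset (Finset G)).filter (fun F => Valid S F))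
    (fun F => ((F + S).card - F.card) * (N + 1) + F.card)
    ⟨F0, by simp [hF0]⟩
  rw [Finset.mem_filter] at hM
  refine ⟨M, hM.2, fun F hF => ?_⟩
  have h1 := hmin F (by simp [hF])
  have a1 := card_le_add M S hS
  have a2 := card_le_add F S hS
  have b1 : M.card ≤ N := Finset.card_le_univ M
  have b2 : F.card ≤ N := Finset.card_le_univ F
  obtain ⟨x, hx⟩ := Nat.exists_eq_add_of_le a1
  obtain ⟨y, hy⟩ := Nat.exists_eq_add_of_le a2
  rw [hx, hy] at h1 ⊢
  simp only [Nat.add_sub_cancel_left] at h1
  have hxy : x ≤ y := by
    by_contra hcon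
    push Not at hcon
    have : (y + 1) * (N + 1) ≤ x * (N + 1) := Nat.mul_le_mul_right _ hcon
    nlinarith
  refine ⟨by omega, fun he => ?_⟩
  have : x = y := by omega
  subst this
  omega

/-- Translate of a set. -/
def tr (M : Finset G) (g : G) : Finset G := M.image (fun x => x + g)

theorem mem_tr {M : Finset G} {g x : G} : x ∈ tr M g ↔ x - g ∈ M := by
  unfold tr
  rw [Finset.mem_image]
  constructor
  · rintro ⟨y, hy, rfl⟩
    simpa using hy
  · intro h
    exact ⟨x - g, h, by simp⟩

theorem card_tr (M : Finset G) (g : G) : (tr M g).card = M.card :=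
  Finset.card_image_of_injective _ (add_left_injective g)

theorem tr_add (M S : Finset G) (g : G) : tr M g + S = tr (M + S) g := by
  ext x
  rw [mem_tr, Finset.mem_add, Finset.mem_add]
  constructor
  · rintro ⟨a, ha, s, hs, rfl⟩
    rw [mem_tr] at ha
    exact ⟨a - g, ha, s, hs, by abel⟩
  · rintro ⟨a, ha, s, hs, h⟩
    refine ⟨a + g, ?_, s, hs, ?_⟩
    · rw [mem_tr]; simpa using ha
    · have : a + g + s = (a + s) + g := by abel
      rw [this, h]; abel

theorem stab_of_tr_eq {M : Finset G} {g : G} (h : tr M g = M) : g ∈ stab M := by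
  apply mem_stab_of_forall
  intro x hx
  rw [← h, mem_tr]
  simpa using hx

/-- Intersection property of atoms. -/
theorem inter_le_one (S M : Finset G) (hM : IsAtom S M) (g : G)
    (hne : tr M g ≠ M) : (M ∩ tr M g).card ≤ 1 := by
  by_contra hcon
  push Not at hcon
  obtain ⟨⟨hM2, hMG⟩, hmin⟩ := hM
  set M' := tr M g with hM'
  have hcM' : M'.card = M.card := card_tr M g
  have hcMS : (M' + S).card = (M + S).card := by rw [hM', tr_add, card_tr]
  have hlt : (M ∩ M').card < M.card := by
    apply Finset.card_lt_card
    refine ⟨Finset.inter_subset_left, fun hsub => hne ?_⟩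
    symm
    apply Finset.eq_of_subset_of_card_le
    · intro x hx
      exact (Finset.mem_inter.mp (hsub hx)).2
    · rw [hcM']
  have hsub1 : (M ∩ M') + S ⊆ (M + S) ∩ (M' + S) := by
    intro x hx
    obtain ⟨a, ha, s, hs, rfl⟩ := Finset.mem_add.mp hx
    rw [Finset.mem_inter] at ha ⊢
    exact ⟨Finset.add_mem_add ha.1 hs, Finset.add_mem_add ha.2 hs⟩
  have hun : (M ∪ M') + S = (M + S) ∪ (M' + S) := Finset.union_add
  have hv1 : Valid S (M ∩ M') := by
    refine ⟨hcon, ?_⟩
    have : ((M ∩ M') + S).card ≤ (M + S).card :=
      Finset.card_le_card (hsub1.trans Finset.inter_subset_left)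
    omega
  have h1 := hmin _ hv1
  have h1' : (M + S).card + (M ∩ M').card < ((M ∩ M') + S).card + M.card := by
    rcases lt_or_eq_of_le h1.1 with h | h
    · exact h
    · have := h1.2 h
      omega
  have h2 : ((M ∩ M') + S).card ≤ ((M + S) ∩ (M' + S)).card := Finset.card_le_card hsub1
  have h3 := Finset.card_union_add_card_inter (M + S) (M' + S)
  have h4 := Finset.card_union_add_card_inter M M'
  rw [← hun] at h3
  have h5 : ¬ Valid S (M ∪ M') := by
    intro hv
    have := (hmin _ hv).1
    omega
  have h6 : Fintype.card G < ((M ∪ M') + S).card + 2 := by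
    by_contra hc
    push Not at hc
    apply h5
    refine ⟨?_, hc⟩
    omega
  -- the dual set
  set T := (Finset.univ \ (M + S)).image (fun x => -x) with hT
  have hTc : T.card = Fintype.card G - (M + S).card := by
    rw [hT, Finset.card_image_of_injective _ neg_injective, Finset.card_sdiff_of_subset
      (Finset.subset_univ _), Finset.card_univ]
  have hTS : (T + S).card + M.card ≤ Fintype.card G := by
    have hdis : Disjoint (T + S) (M.image (fun x => -x)) := by
      rw [Finset.disjoint_left]
      intro x hx hx'
      obtain ⟨t, ht, s, hs, rfl⟩ := Finset.mem_add.mp hx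
      rw [hT, Finset.mem_image] at ht
      obtain ⟨u, hu, rfl⟩ := ht
      rw [Finset.mem_image] at hx'
      obtain ⟨m, hm, hms⟩ := hx'
      rw [Finset.mem_sdiff] at hu
      apply hu.2
      have : u = m + s := by
        have h7 : -m = -u + s := hms
        have : m = u - s := by
          rw [← neg_inj, h7]; abel
        rw [this]; abel
      rw [this]
      exact Finset.add_mem_add hm hs
    have := Finset.card_le_univ ((T + S) ∪ (M.image (fun x => -x)))
    rw [Finset.card_union_of_disjoint hdis, Finset.card_image_of_injective _ neg_injective] at this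
    exact this
  have hTv : Valid S T := by
    refine ⟨?_, ?_⟩ <;> omega
  have h8 := hmin _ hTv
  have h9 := h8.2 (by omega)
  omega

/-- Sets all of whose nonzero differences occur at most once. -/
def Sid (M : Finset G) : Prop := ∀ g : G, g ≠ 0 → (M ∩ tr M g).card ≤ 1

theorem atom_cases (S M : Finset G) (hM : IsAtom S M) :
    Sid M ∨ ∃ (H : AddSubgroup G) (x : G), H ≠ ⊥ ∧ M = tr (fs H) x := by
  by_cases hst : stab M = ⊥
  · left
    intro g hg
    apply inter_le_one S M hM g
    intro h
    have := stab_of_tr_eq h
    rw [hst, AddSubgroup.mem_bot] at this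
    exact hg this
  · right
    obtain ⟨q, hq, hq0⟩ : ∃ q : G, q ∈ stab M ∧ q ≠ 0 := by
      obtain ⟨b, hb⟩ := AddSubgroup.ne_bot_iff_exists_ne_zero.mp hst
      exact ⟨b.1, b.2, fun h => hb (Subtype.ext h)⟩
    obtain ⟨m, hm⟩ : M.Nonempty := by
      rw [← Finset.card_pos]
      have := hM.1.1
      omega
    refine ⟨stab M, m, hst, ?_⟩
    ext x
    rw [mem_tr, mem_fs]
    constructor
    · intro hx
      by_contra hcon
      have hne : tr M (x - m) ≠ M := fun h => hcon (stab_of_tr_eq h)
      have h1 := inter_le_one S M hM _ hne
      have h2 : ({x, x + q} : Finset G) ⊆ M ∩ tr M (x - m) := by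
        intro y hy
        rw [Finset.mem_insert, Finset.mem_singleton] at hy
        rw [Finset.mem_inter, mem_tr]
        rcases hy with rfl | rfl
        · refine ⟨hx, ?_⟩
          have : y - (y - m) = m := by abel
          rw [this]; exact hm
        · refine ⟨stab_add hq hx, ?_⟩
          have : x + q - (x - m) = m + q := by abel
          rw [this]; exact stab_add hq hm
      have h3 := Finset.card_le_card h2
      rw [Finset.card_pair (by
        intro h
        apply hq0
        have : x + 0 = x + q := by rw [add_zero]; exact h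
        exact (add_left_cancel this).symm)] at h3
      omega
    · intro hx
      have := stab_add hx hm
      have h2 : m + (x - m) = x := by abel
      rwa [h2] at this

/-- The part of `X` in the coset of `x`. -/
noncomputable def cs (X : Finset G) (H : AddSubgroup G) (x : G) : Finset G := X ∩ tr (fs H) x

theorem mem_cs {X : Finset G} {H : AddSubgroup G} {x u : G} :
    u ∈ cs X H x ↔ u ∈ X ∧ u - x ∈ H := by
  unfold cs
  rw [Finset.mem_inter, mem_tr, mem_fs]

theorem coset_disjoint {H : AddSubgroup G} {x y : G} (h : x - y ∉ H) :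
    Disjoint (tr (fs H) x) (tr (fs H) y) := by
  rw [Finset.disjoint_left]
  intro u hu hv
  rw [mem_tr, mem_fs] at hu hv
  apply h
  have : x - y = (u - y) - (u - x) := by abel
  rw [this]
  exact H.sub_mem hv hu

theorem coset_subset {X : Finset G} {H : AddSubgroup G} {x : G} (hx : x ∈ X) :
    tr (fs H) x ⊆ X + fs H := by
  intro u hu
  rw [mem_tr] at hu
  have := Finset.add_mem_add hx hu
  have h2 : x + (u - x) = u := by abel
  rwa [h2] at this

theorem subset_add_fs (X : Finset G) (H : AddSubgroup G) : X ⊆ X + fs H := by
  intro x hx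
  have := Finset.add_mem_add hx (mem_fs.mpr H.zero_mem)
  rwa [add_zero] at this

theorem holes_two {X : Finset G} {H : AddSubgroup G} {x y : G} (hx : x ∈ X) (hy : y ∈ X)
    (hxy : x - y ∉ H) :
    2 * (fs H).card + X.card ≤ (X + fs H).card + (cs X H x).card + (cs X H y).card := by
  have hd := coset_disjoint hxy
  have hsub : X ∪ (tr (fs H) x ∪ tr (fs H) y) ⊆ X + fs H :=
    Finset.union_subset (subset_add_fs X H)
      (Finset.union_subset (coset_subset hx) (coset_subset hy))
  have h1 := Finset.card_le_card hsub
  have h2 := Finset.card_union_add_card_inter X (tr (fs H) x ∪ tr (fs H) y)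
  have h3 : (tr (fs H) x ∪ tr (fs H) y).card = 2 * (fs H).card := by
    rw [Finset.card_union_of_disjoint hd, card_tr, card_tr]; ring
  have h4 : (X ∩ (tr (fs H) x ∪ tr (fs H) y)).card ≤ (cs X H x).card + (cs X H y).card := by
    rw [Finset.inter_union_distrib_left]
    exact Finset.card_union_le _ _
  omega

theorem holes_one {X : Finset G} {H : AddSubgroup G} {x : G} (hx : x ∈ X) :
    (fs H).card + X.card ≤ (X + fs H).card + (cs X H x).card := by
  have hsub : X ∪ tr (fs H) x ⊆ X + fs H :=
    Finset.union_subset (subset_add_fs X H) (coset_subset hx)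
  have h1 := Finset.card_le_card hsub
  have h2 := Finset.card_union_add_card_inter X (tr (fs H) x)
  rw [card_tr] at h2
  unfold cs
  omega

theorem fs_card_ge_two {H : AddSubgroup G} (hH : H ≠ ⊥) : 2 ≤ (fs H).card := by
  obtain ⟨b, hb⟩ := AddSubgroup.ne_bot_iff_exists_ne_zero.mp hH
  have hb' : (b : G) ≠ 0 := fun h => hb (Subtype.ext h)
  have : ({0, (b : G)} : Finset G) ⊆ fs H := by
    intro x hx
    rw [Finset.mem_insert, Finset.mem_singleton] at hx
    rcases hx with rfl | rfl
    · exact mem_fs.mpr H.zero_mem
    · exact mem_fs.mpr b.2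
  have h := Finset.card_le_card this
  rwa [Finset.card_pair (Ne.symm hb')] at h

/-- Two parts of a coset with too many elements: translates meet often. -/
theorem self_inter (X : Finset G) (H : AddSubgroup G) (x g : G) (hg : g ∈ H) :
    2 * (cs X H x).card ≤ (fs H).card + ((cs X H x) ∩ tr (cs X H x) g).card := by
  have hsub : (cs X H x) ∪ tr (cs X H x) g ⊆ tr (fs H) x := by
    intro u hu
    rw [Finset.mem_union, mem_tr] at hu
    rw [mem_tr, mem_fs]
    rcases hu with hu | hu
    · exact (mem_cs.mp hu).2
    · have := (mem_cs.mp hu).2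
      have h2 : u - x = (u - g - x) + g := by abel
      rw [h2]
      exact H.add_mem this hg
  have h1 := Finset.card_le_card hsub
  have h2 := Finset.card_union_add_card_inter (cs X H x) (tr (cs X H x) g)
  rw [card_tr] at h1 h2
  omega

theorem sid_coset (M : Finset G) (hM : Sid M) (H : AddSubgroup G) (hH : H ≠ ⊥)
    (hc : (M + fs H).card + 1 ≤ M.card + (fs H).card) :
    ∀ x ∈ M, ∀ y ∈ M, x - y ∈ H := by
  intro x hx y hy
  by_contra hxy
  have h1 := holes_two hx hy hxy
  obtain ⟨b, hb⟩ := AddSubgroup.ne_bot_iff_exists_ne_zero.mp hH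
  have hb' : (b : G) ≠ 0 := fun h => hb (Subtype.ext h)
  have h2 := self_inter M H x b b.2
  have h3 := self_inter M H y b b.2
  have h4 := hM b hb'
  have hd := coset_disjoint hxy
  have h5 : ((cs M H x ∩ tr (cs M H x) b) ∪ (cs M H y ∩ tr (cs M H y) b)) ⊆ M ∩ tr M b := by
    intro u hu
    rw [Finset.mem_union, Finset.mem_inter, Finset.mem_inter, mem_tr, mem_tr] at hu
    rw [Finset.mem_inter, mem_tr]
    rcases hu with hu | hu
    · exact ⟨(mem_cs.mp hu.1).1, (mem_cs.mp hu.2).1⟩
    · exact ⟨(mem_cs.mp hu.1).1, (mem_cs.mp hu.2).1⟩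
  have h6 := Finset.card_le_card h5
  rw [Finset.card_union_of_disjoint] at h6
  · omega
  · apply Finset.disjoint_of_subset_left _ (Finset.disjoint_of_subset_right _ hd)
    · intro u hu
      rw [Finset.mem_inter] at hu
      exact (Finset.mem_inter.mp hu.1).2
    · intro u hu
      rw [Finset.mem_inter] at hu
      exact (Finset.mem_inter.mp hu.1).2

/-- A critical pair with a Sidon-type member is aperiodic or degenerate. -/
theorem sid_kneser (F M : Finset G) (hF : F.Nonempty) (hMne : M.Nonempty) (hM : Sid M)
    (hc : (F + M).card + 1 ≤ F.card + M.card) :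
    stab (F + M) = ⊥ ∨ ∀ x ∈ M, ∀ y ∈ M, x - y ∈ stab (F + M) := by
  by_cases hQ : stab (F + M) = ⊥
  · exact Or.inl hQ
  · right
    apply sid_coset M hM _ hQ
    have h1 := kneser' F M hF hMne
    have h2 : F.card ≤ (F + fs (stab (F + M))).card :=
      Finset.card_le_card (subset_add_fs _ _)
    omega

theorem fs_top_card : (fs (⊤ : AddSubgroup G)).card = Fintype.card G := by
  have : fs (⊤ : AddSubgroup G) = Finset.univ := by
    ext x; simp [mem_fs]
  rw [this, Finset.card_univ]

theorem coset_case (S M : Finset G) (hS : S.Nonempty) (H : AddSubgroup G) (x : G)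
    (hM : M = tr (fs H) x) (hv : Valid S M) (hc : (M + S).card + 1 ≤ M.card + S.card) :
    H ≠ ⊤ ∧ (S + fs H).card + 1 ≤ S.card + (fs H).card := by
  have h1 : (M + S).card = (S + fs H).card := by
    rw [hM, tr_add, card_tr, add_comm]
  have h2 : M.card = (fs H).card := by rw [hM, card_tr]
  constructor
  · intro htop
    have h3 := hv.2
    have h4 := card_le_add M S hS
    rw [h2, htop, fs_top_card] at h4
    omega
  · omega

theorem add_pair (S : Finset G) (u v : G) :
    (({u, v} : Finset G) + S).card = (S ∪ tr S (v - u)).card := by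
  have : ({u, v} : Finset G) + S = tr (S ∪ tr S (v - u)) u := by
    ext x
    rw [mem_tr, Finset.mem_union, mem_tr, Finset.mem_add]
    constructor
    · rintro ⟨a, ha, s, hs, rfl⟩
      rw [Finset.mem_insert, Finset.mem_singleton] at ha
      rcases ha with rfl | rfl
      · left
        have : a + s - a = s := by abel
        rwa [this]
      · right
        have : a + s - u - (a - u) = s := by abel
        rwa [this]
    · rintro (h | h)
      · exact ⟨u, by simp, x - u, h, by abel⟩
      · exact ⟨v, by simp, x - u - (v - u), h, by abel⟩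
  rw [this, card_tr]

/-- Three translates of a Sidon-type set. -/
theorem three (M N : Finset G) (hM : Sid M) (hN : 3 ≤ N.card) :
    3 * M.card ≤ (N + M).card + 3 := by
  obtain ⟨a, ha, b, hb, c, hc, hab, hac, hbc⟩ : ∃ a ∈ N, ∃ b ∈ N, ∃ c ∈ N, a ≠ b ∧ a ≠ c ∧ b ≠ c := by
    obtain ⟨T, hT, hT3⟩ := Finset.exists_subset_card_eq hN
    obtain ⟨a, b, c, hab, hac, hbc, rfl⟩ := Finset.card_eq_three.mp hT3
    exact ⟨a, hT (by simp), b, hT (by simp), c, hT (by simp), hab, hac, hbc⟩
  have hsub : ∀ a ∈ N, tr M a ⊆ N + M := by
    intro a ha x hx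
    rw [mem_tr] at hx
    have := Finset.add_mem_add ha hx
    have h2 : a + (x - a) = x := by abel
    rwa [h2] at this
  have hint : ∀ a b : G, a ≠ b → (tr M a ∩ tr M b).card ≤ 1 := by
    intro a b hab
    have h1 := hM (b - a) (sub_ne_zero.mpr (Ne.symm hab))
    have h2 : tr M a ∩ tr M b = tr (M ∩ tr M (b - a)) a := by
      ext x
      rw [Finset.mem_inter, mem_tr, mem_tr, mem_tr, Finset.mem_inter, mem_tr]
      have : x - a - (b - a) = x - b := by abel
      rw [this]
    rw [h2, card_tr]
    exact h1
  have h1 : ((tr M a ∪ tr M b) ∪ tr M c).card ≤ (N + M).card :=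
    Finset.card_le_card (Finset.union_subset (Finset.union_subset (hsub a ha) (hsub b hb))
      (hsub c hc))
  have h2 := Finset.card_union_add_card_inter (tr M a ∪ tr M b) (tr M c)
  have h3 := Finset.card_union_add_card_inter (tr M a) (tr M b)
  have h4 : ((tr M a ∪ tr M b) ∩ tr M c).card ≤ 2 := by
    rw [Finset.union_inter_distrib_right]
    calc _ ≤ (tr M a ∩ tr M c).card + (tr M b ∩ tr M c).card := Finset.card_union_le _ _
      _ ≤ 1 + 1 := Nat.add_le_add (hint a c hac) (hint b c hbc)
  have h5 := hint a b hab
  rw [card_tr, card_tr] at h3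
  rw [card_tr] at h2
  omega

/-- The subgroup generated by the differences. -/
def dsub (M : Finset G) : AddSubgroup G := AddSubgroup.closure {d | ∃ u ∈ M, ∃ v ∈ M, d = u - v}

theorem sub_mem_dsub {M : Finset G} {u v : G} (hu : u ∈ M) (hv : v ∈ M) : u - v ∈ dsub M :=
  AddSubgroup.subset_closure ⟨u, hu, v, hv, rfl⟩

theorem dsub_le {M : Finset G} {H : AddSubgroup G} (h : ∀ x ∈ M, ∀ y ∈ M, x - y ∈ H) :
    dsub M ≤ H := by
  unfold dsub
  rw [AddSubgroup.closure_le]
  rintro d ⟨u, hu, v, hv, rfl⟩
  exact h u hu v hv

/-- The case of an atom contained in a proper coset. -/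
theorem inner (S M : Finset G) (hM : Sid M) (hM2 : 2 ≤ M.card)
    (hc : (S + M).card + 1 ≤ S.card + M.card) (hQ : stab (S + M) = ⊥) :
    (S + fs (dsub M)).card + 1 ≤ S.card + (fs (dsub M)).card := by
  have hMne : M.Nonempty := by rw [← Finset.card_pos]; omega
  set H0 := dsub M with hH0
  have hH0bot : H0 ≠ ⊥ := by
    obtain ⟨u, hu, v, hv, huv⟩ := Finset.one_lt_card.mp (by omega : 1 < M.card)
    intro h
    have := sub_mem_dsub hu hv
    rw [← hH0, h, AddSubgroup.mem_bot, sub_eq_zero] at this
    exact huv this
  obtain ⟨h, hh, z, hz, hzh⟩ : ∃ h ∈ H0, ∃ z ∈ S + M, z + h ∉ S + M := by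
    by_contra hcon
    push Not at hcon
    apply hH0bot
    rw [eq_bot_iff, ← hQ]
    intro h hh
    exact mem_stab_of_forall (fun z hz => hcon h hh z hz)
  obtain ⟨s0, hs0, m0, hm0, rfl⟩ := Finset.mem_add.mp hz
  set S0 := cs S H0 s0 with hS0
  set S1 := S \ S0 with hS1
  have hs0' : s0 ∈ S0 := by
    rw [hS0, mem_cs]
    exact ⟨hs0, by rw [sub_self]; exact H0.zero_mem⟩
  have hS0S : S0 ⊆ S := fun x hx => (mem_cs.mp hx).1
  have h1 : S0.card + M.card ≤ (S0 + M).card + 1 := by
    by_contra hcon
    push Not at hcon
    have hS0ne : S0.Nonempty := ⟨s0, hs0'⟩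
    rcases sid_kneser S0 M hS0ne hMne hM (by omega) with hk | hk
    · have := kneser_aperiodic S0 M hS0ne hMne hk
      omega
    · have h2 : h ∈ stab (S0 + M) := dsub_le hk hh
      apply hzh
      have h3 := stab_add h2 (Finset.add_mem_add hs0' hm0)
      exact Finset.add_subset_add_right hS0S h3
  have hdis : Disjoint (S0 + M) (S1 + M) := by
    rw [Finset.disjoint_left]
    intro x hx hx'
    obtain ⟨a, ha, u, hu, rfl⟩ := Finset.mem_add.mp hx
    obtain ⟨b, hb, v, hv, hbv⟩ := Finset.mem_add.mp hx'
    rw [hS1, Finset.mem_sdiff] at hb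
    apply hb.2
    rw [hS0, mem_cs]
    refine ⟨hb.1, ?_⟩
    have e : b - s0 = (a - s0) + (u - v) := by
      have : b = a + u - v := by rw [← hbv]; abel
      rw [this]; abel
    rw [e]
    exact H0.add_mem (mem_cs.mp ha).2 (sub_mem_dsub hu hv)
  have hun : (S0 + M) ∪ (S1 + M) = S + M := by
    rw [← Finset.union_add, hS1, Finset.union_sdiff_of_subset hS0S]
  have h2 := Finset.card_union_of_disjoint hdis
  rw [hun] at h2
  have h3 : S1.card + S0.card = S.card := by
    rw [hS1]; exact Finset.card_sdiff_add_card_eq_card hS0S
  have h4 : (S1 + M).card ≤ S1.card := by omega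
  have h5 : H0 ≤ stab S1 := by
    apply dsub_le
    intro u hu v hv
    have key : ∀ w ∈ M, tr S1 w = S1 + M := by
      intro w hw
      apply Finset.eq_of_subset_of_card_le
      · intro x hx
        rw [mem_tr] at hx
        have := Finset.add_mem_add hx hw
        rwa [sub_add_cancel] at this
      · rw [card_tr]; exact h4
    apply mem_stab_of_forall
    intro x hx
    have h6 : x + u ∈ tr S1 u := by rw [mem_tr]; simpa using hx
    rw [key u hu, ← key v hv, mem_tr] at h6
    have : x + u - v = x + (u - v) := by abel
    rwa [this] at h6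
  have h6 : S + fs H0 ⊆ S1 ∪ tr (fs H0) s0 := by
    intro x hx
    obtain ⟨s, hs, g, hg, rfl⟩ := Finset.mem_add.mp hx
    rw [mem_fs] at hg
    rw [Finset.mem_union, mem_tr, mem_fs]
    by_cases hsS : s ∈ S0
    · right
      have : s + g - s0 = (s - s0) + g := by abel
      rw [this]
      exact H0.add_mem (mem_cs.mp hsS).2 hg
    · left
      exact stab_add (h5 hg) (by rw [hS1, Finset.mem_sdiff]; exact ⟨hs, hsS⟩)
  have h7 := (Finset.card_le_card h6).trans (Finset.card_union_le _ _)
  rw [card_tr] at h7
  have h8 : 0 < S0.card := Finset.card_pos.mpr ⟨s0, hs0'⟩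
  omega

/-- **Hamidoune's theorem** on second atoms, in the form used here: a critical set is a string up
to whole cosets or is nearly periodic. -/
theorem crit (S : Finset G) (hS : 2 ≤ S.card) (F : Finset G) (hF : Valid S F)
    (hc : (F + S).card + 1 ≤ F.card + S.card) :
    (∃ g : G, g ≠ 0 ∧ (S ∪ tr S g).card ≤ S.card + 1) ∨
      ∃ H : AddSubgroup G, H ≠ ⊥ ∧ H ≠ ⊤ ∧ (S + fs H).card + 1 ≤ S.card + (fs H).card := by
  have hSne : S.Nonempty := by rw [← Finset.card_pos]; omega
  obtain ⟨M, hM⟩ := exists_atom S hSne F hF
  have hMc : (M + S).card + 1 ≤ M.card + S.card := by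
    have := (hM.2 F hF).1
    omega
  rcases atom_cases S M hM with hsid | ⟨H, x, hH, hMH⟩
  · rcases Nat.lt_or_ge 2 M.card with hM3 | hM2
    · -- atoms of size at least three
      have hMne : M.Nonempty := by rw [← Finset.card_pos]; omega
      have hc' : (S + M).card + 1 ≤ S.card + M.card := by rw [add_comm S M]; omega
      by_cases hQ : stab (S + M) = ⊥
      · -- aperiodic
        have hv : Valid M S := ⟨hS, by rw [add_comm S M]; exact hM.1.2⟩
        obtain ⟨N, hN⟩ := exists_atom M hMne S hv
        have hNc : (N + M).card + 1 ≤ N.card + M.card := by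
          have := (hN.2 S hv).1
          omega
        rcases atom_cases M N hN with hNs | ⟨H, x, hH, hNH⟩
        · exfalso
          rcases Nat.lt_or_ge 2 N.card with hN3 | hN2
          · have h1 := three M N hsid hN3
            have h2 := three N M hNs hM3
            rw [add_comm M N] at h2
            omega
          · have hN2' : N.card = 2 := by
              have := hN.1.1
              omega
            obtain ⟨u, v, huv, rfl⟩ := Finset.card_eq_two.mp hN2'
            rw [add_pair] at hNc
            have h1 := Finset.card_union_add_card_inter M (tr M (v - u))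
            have h2 := hsid (v - u) (sub_ne_zero.mpr (Ne.symm huv))
            rw [card_tr] at h1
            omega
        · right
          obtain ⟨htop, hcos⟩ := coset_case M N hMne H x hNH hN.1 hNc
          have h1 := sid_coset M hsid H hH hcos
          refine ⟨dsub M, ?_, ?_, inner S M hsid (by omega) hc' hQ⟩
          · intro hb
            obtain ⟨u, hu, v, hv, huv⟩ := Finset.one_lt_card.mp (by omega : 1 < M.card)
            have := sub_mem_dsub hu hv
            rw [hb, AddSubgroup.mem_bot, sub_eq_zero] at this
            exact huv this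
          · intro ht
            apply htop
            rw [eq_top_iff, ← ht]
            exact dsub_le h1
      · right
        rcases sid_kneser S M hSne hMne hsid hc' with hk | hk
        · exact absurd hk hQ
        · obtain ⟨x, hx⟩ := hMne
          have h1 : (S + fs (stab (S + M))).card ≤ (S + M).card := by
            apply Finset.card_le_card_of_injOn (fun y => y + x)
            · intro y hy
              obtain ⟨s, hs, g, hg, rfl⟩ := Finset.mem_add.mp hy
              have : s + g + x = (s + x) + g := by abel
              rw [Finset.mem_coe]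
              show s + g + x ∈ S + M
              rw [this]
              exact stab_add (mem_fs.mp hg) (Finset.add_mem_add hs hx)
            · intro y _ y' _ h
              exact add_right_cancel h
          have h2 : M.card ≤ (fs (stab (S + M))).card := by
            apply Finset.card_le_card_of_injOn (fun y => y - x)
            · intro y hy
              rw [Finset.mem_coe, mem_fs]
              exact hk y hy x hx
            · intro y _ y' _ h
              exact sub_left_injective h
          refine ⟨stab (S + M), hQ, ?_, by omega⟩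
          intro ht
          have h3 : (fs (stab (S + M))).card ≤ (S + fs (stab (S + M))).card :=
            Finset.card_le_card_add_left hSne
          have h4 : (fs (stab (S + M))).card = Fintype.card G := by
            rw [ht, fs_top_card]
          have h5 := hM.1.2
          rw [add_comm M S] at h5
          omega
    · left
      have hM2' : M.card = 2 := by
        have := hM.1.1
        omega
      obtain ⟨u, v, huv, rfl⟩ := Finset.card_eq_two.mp hM2'
      rw [add_pair] at hMc
      exact ⟨v - u, sub_ne_zero.mpr (Ne.symm huv), by omega⟩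
  · right
    obtain ⟨h1, h2⟩ := coset_case S M hSne H x hMH hM.1 hMc
    exact ⟨H, hH, h1, h2⟩

/-- A set with at most one exit in the direction `g` is nearly periodic under the group
generated by `g`. -/
theorem string_case (S : Finset G) (g : G)
    (h : (S ∪ tr S g).card ≤ S.card + 1) :
    (S + fs (AddSubgroup.zmultiples g)).card + 1
      ≤ S.card + (fs (AddSubgroup.zmultiples g)).card := by
  set H := AddSubgroup.zmultiples g with hH
  by_cases hall : ∀ x ∈ S, x + g ∈ S
  · -- periodic case
    have hg : g ∈ stab S := mem_stab_of_forall hall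
    have hHS : H ≤ stab S := by
      rw [hH, AddSubgroup.zmultiples_le]
      exact hg
    rw [add_fs_stab S H hHS]
    have := fs_card_pos H
    omega
  · push Not at hall
    obtain ⟨x0, hx0, hx0g⟩ := hall
    have huniq : ∀ x ∈ S, x + g ∉ S → x = x0 := by
      intro x hx hxg
      by_contra hne
      have hsub : S ∪ {x + g, x0 + g} ⊆ S ∪ tr S g := by
        apply Finset.union_subset_union_right
        intro y hy
        rw [Finset.mem_insert, Finset.mem_singleton] at hy
        rw [mem_tr]
        rcases hy with rfl | rfl
        · simpa using hx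
        · simpa using hx0
      have h1 := Finset.card_le_card hsub
      have hdis : Disjoint S {x + g, x0 + g} := by
        rw [Finset.disjoint_right]
        intro y hy
        rw [Finset.mem_insert, Finset.mem_singleton] at hy
        rcases hy with rfl | rfl
        · exact hxg
        · exact hx0g
      rw [Finset.card_union_of_disjoint hdis, Finset.card_pair
        (fun h => hne (add_right_cancel h))] at h1
      omega
    have hsub : S + fs H ⊆ S ∪ (tr (fs H) x0).erase x0 := by
      intro y hy
      obtain ⟨s, hs, k, hk, rfl⟩ := Finset.mem_add.mp hy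
      rw [mem_fs] at hk
      rw [Finset.mem_union]
      by_cases hyS : s + k ∈ S
      · exact Or.inl hyS
      · right
        rw [Finset.mem_erase, mem_tr, mem_fs]
        refine ⟨fun h => hyS (h ▸ hx0), ?_⟩
        by_contra hcon
        have hs0 : s - x0 ∉ H := by
          intro h1
          apply hcon
          have : s + k - x0 = (s - x0) + k := by abel
          rw [this]
          exact H.add_mem h1 hk
        have hind : ∀ n : ℕ, s + n • g ∈ S := by
          intro n
          induction n with
          | zero => simpa using hs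
          | succ n ih =>
            by_contra hc
            have h2 := huniq (s + n • g) ih (by
              rw [add_assoc, ← succ_nsmul]; exact hc)
            apply hs0
            have : s - x0 = -(n • g) := by rw [← h2]; abel
            rw [this]
            exact H.neg_mem (AddSubgroup.nsmul_mem_zmultiples g n)
        apply hyS
        have hfin : k ∈ AddSubmonoid.multiples g := by
          rw [mem_multiples_iff_mem_zmultiples]
          exact hk
        obtain ⟨n, hn⟩ := hfin
        have := hind n
        simp only at hn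
        rwa [hn] at this
    have h1 := (Finset.card_le_card hsub).trans (Finset.card_union_le _ _)
    have h2 : x0 ∈ tr (fs H) x0 := by
      rw [mem_tr, sub_self]; exact mem_fs.mpr H.zero_mem
    rw [Finset.card_erase_of_mem h2, card_tr] at h1
    have := fs_card_pos H
    omega

end Pool.Agent.Helper730.Atoms
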