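import Mathlib
import Pool.Agent.Helper730.Kneser
import Pool.Agent.Helper730.Atoms

set_option autoImplicit false
set_option linter.unusedSectionVars false

open scoped Pointwise
open Finset

namespace Pool.Agent.Helper730.Signed

open Pool.Agent.Helper730.Kneser
open Pool.Agent.Helper730.Atoms

section odd

theorem odd_card (G : Type*) [AddCommGroup G] [Fintype G] (p : ℕ) (hp : p.Prime) (hp2 : p ≠ 2)
    (hexp : ∀ x : G, p • x = 0) : Odd (Fintype.card G) := by
  rw [← Nat.not_even_iff_odd, even_iff_two_dvd]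
  intro h
  obtain ⟨x, hx⟩ := exists_prime_addOrderOf_dvd_card 2 h
  have h1 : addOrderOf x ∣ p := addOrderOf_dvd_of_nsmul_eq_zero (hexp x)
  rw [hx] at h1
  exact hp2 ((Nat.prime_dvd_prime_iff_eq Nat.prime_two hp).mp h1).symm

end odd

variable {G : Type*} [AddCommGroup G] [Fintype G] [DecidableEq G]

theorem fs_card_eq (H : AddSubgroup G) : (fs H).card = Nat.card H := by
  classical
  unfold fs
  rw [Nat.card_eq_fintype_card, Fintype.card_subtype]

theorem odd_fs (p : ℕ) (hp : p.Prime) (hp2 : p ≠ 2) (hexp : ∀ x : G, p • x = 0)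
    (H : AddSubgroup G) : Odd (fs H).card := by
  classical
  rw [fs_card_eq, Nat.card_eq_fintype_card]
  apply odd_card H p hp hp2
  intro x
  apply Subtype.ext
  simpa using hexp x

theorem mem_of_coprime (p : ℕ) (hexp : ∀ x : G, p • x = 0) (H : AddSubgroup G) (k : ℕ)
    (hk : Nat.Coprime k p) (x : G) (hx : k • x ∈ H) : x ∈ H := by
  have h1 : (1 : ℤ) = k * Nat.gcdA k p + p * Nat.gcdB k p := by
    have := Nat.gcd_eq_gcd_ab k p
    rw [hk] at this
    exact_mod_cast this
  have h2 : x = Nat.gcdA k p • (k • x) + Nat.gcdB k p • (p • x) := by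
    calc x = (1 : ℤ) • x := (one_zsmul x).symm
      _ = (k * Nat.gcdA k p + p * Nat.gcdB k p : ℤ) • x := by rw [← h1]
      _ = _ := by
          rw [add_zsmul, mul_comm (k : ℤ), mul_comm (p : ℤ), mul_zsmul, mul_zsmul,
            natCast_zsmul, natCast_zsmul]
  rw [h2, hexp x, zsmul_zero, add_zero]
  exact H.zsmul_mem hx _

theorem crit_coset (p : ℕ) (hp : p.Prime) (hp2 : p ≠ 2) (hexp : ∀ x : G, p • x = 0)
    (X : Finset G) (hX : p < X.card) (hst : stab (X + X) = ⊥)
    (hc : (X + X).card + 1 = 2 * X.card) :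
    ∃ H : AddSubgroup G, H ≠ ⊥ ∧ (X + fs H).card + 1 ≤ X.card + (fs H).card ∧
      ∃ x ∈ X, ∃ y ∈ X, x - y ∉ H := by
  classical
  have hp1 := hp.two_le
  obtain ⟨x0, hx0⟩ : X.Nonempty := by rw [← Finset.card_pos]; omega
  set G1 := dsub X with hG1
  set X1 : Finset G1 := Finset.univ.filter (fun g => (g : G) + x0 ∈ X) with hX1
  have hmemX1 : ∀ g : G1, g ∈ X1 ↔ (g : G) + x0 ∈ X := by
    intro g; rw [hX1, Finset.mem_filter]; simp
  have hinj : ∀ a : G, Function.Injective (fun g : G1 => (g : G) + a) := by
    intro a g g' h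
    exact Subtype.ext (add_right_cancel h)
  have himg : ∀ B1 : Finset G1, ∀ B : Finset G, ∀ b : G, B = B1.image (fun g : G1 => (g : G) + b) →
      X + B = (X1 + B1).image (fun g : G1 => (g : G) + (x0 + b)) := by
    intro B1 B b hB
    ext y
    rw [Finset.mem_add, Finset.mem_image]
    constructor
    · rintro ⟨x, hx, v, hv, rfl⟩
      rw [hB, Finset.mem_image] at hv
      obtain ⟨v1, hv1, rfl⟩ := hv
      refine ⟨⟨x - x0, sub_mem_dsub hx hx0⟩ + v1, ?_, ?_⟩
      · apply Finset.add_mem_add _ hv1
        rw [hmemX1]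
        simpa using hx
      · simp only [AddSubgroup.coe_add]
        abel
    · rintro ⟨w, hw, rfl⟩
      obtain ⟨u, hu, v, hv, rfl⟩ := Finset.mem_add.mp hw
      rw [hmemX1] at hu
      refine ⟨(u : G) + x0, hu, (v : G) + b, ?_, ?_⟩
      · rw [hB]
        exact Finset.mem_image_of_mem _ hv
      · simp only [AddSubgroup.coe_add]
        abel
  have hXimg : X = X1.image (fun g : G1 => (g : G) + x0) := by
    ext y
    rw [Finset.mem_image]
    constructor
    · intro hy
      refine ⟨⟨y - x0, sub_mem_dsub hy hx0⟩, ?_, ?_⟩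
      · rw [hmemX1]; simpa using hy
      · simp
    · rintro ⟨g, hg, rfl⟩
      exact (hmemX1 g).mp hg
  have hcX : X1.card = X.card := by
    have := congrArg Finset.card hXimg
    rw [Finset.card_image_of_injective _ (hinj x0)] at this
    exact this.symm
  have hXX := himg X1 X x0 hXimg
  have hcXX : (X1 + X1).card = (X + X).card := by
    have := congrArg Finset.card hXX
    rw [Finset.card_image_of_injective _ (hinj _)] at this
    exact this.symm
  have hodd : Odd (Fintype.card G1) := by
    apply odd_card G1 p hp hp2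
    intro x
    apply Subtype.ext
    simpa using hexp x
  have hle : (X1 + X1).card ≤ Fintype.card G1 := Finset.card_le_univ _
  have hne : (X1 + X1).card ≠ Fintype.card G1 := by
    intro h
    have huniv : X1 + X1 = Finset.univ := Finset.eq_univ_of_card _ h
    have hle2 : G1 ≤ stab (X + X) := by
      intro g hg
      apply mem_stab_of_forall
      intro x hx
      rw [hXX, huniv, Finset.mem_image] at hx ⊢
      obtain ⟨w, -, rfl⟩ := hx
      refine ⟨w + ⟨g, hg⟩, Finset.mem_univ _, ?_⟩
      simp only [AddSubgroup.coe_add]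
      abel
    rw [hst] at hle2
    obtain ⟨u, hu, v, hv, huv⟩ := Finset.one_lt_card.mp (by omega : 1 < X.card)
    have := hle2 (sub_mem_dsub hu hv)
    rw [AddSubgroup.mem_bot, sub_eq_zero] at this
    exact huv this
  have hval : Valid X1 X1 := by
    obtain ⟨k, hk⟩ := hodd
    refine ⟨by omega, by omega⟩
  have hX1ne : X1.Nonempty := by rw [← Finset.card_pos]; omega
  have hmain : ∃ H1 : AddSubgroup G1, H1 ≠ ⊥ ∧ H1 ≠ ⊤ ∧
      (X1 + fs H1).card + 1 ≤ X1.card + (fs H1).card := by
    rcases crit X1 (by omega) X1 hval (by omega) with ⟨g, hg, hg2⟩ | h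
    · refine ⟨AddSubgroup.zmultiples g, ?_, ?_, string_case X1 g hg2⟩
      · intro h
        rw [AddSubgroup.zmultiples_eq_bot] at h
        exact hg h
      · intro h
        have h1 : Nat.card (AddSubgroup.zmultiples g) = addOrderOf g := Nat.card_zmultiples g
        rw [h] at h1
        have h2 : addOrderOf g ∣ p := by
          apply addOrderOf_dvd_of_nsmul_eq_zero
          apply Subtype.ext
          simpa using hexp g
        have h3 := Nat.le_of_dvd hp.pos h2
        have h4 : Nat.card (⊤ : AddSubgroup G1) = Fintype.card G1 := by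
          rw [AddSubgroup.card_top, Nat.card_eq_fintype_card]
        have h5 : X1.card ≤ Fintype.card G1 := Finset.card_le_univ _
        omega
    · exact h
  obtain ⟨H1, hbot, htop, hH1⟩ := hmain
  set H := H1.map G1.subtype with hH
  have hfs : fs H = (fs H1).image (fun g : G1 => (g : G) + 0) := by
    ext y
    rw [mem_fs, Finset.mem_image, hH, AddSubgroup.mem_map]
    constructor
    · rintro ⟨g, hg, rfl⟩
      exact ⟨g, mem_fs.mpr hg, by simp⟩
    · rintro ⟨g, hg, rfl⟩
      exact ⟨g, mem_fs.mp hg, by simp⟩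
  have hcH : (fs H).card = (fs H1).card := by
    rw [hfs, Finset.card_image_of_injective _ (hinj 0)]
  have hcXH : (X + fs H).card = (X1 + fs H1).card := by
    rw [himg (fs H1) (fs H) 0 hfs, Finset.card_image_of_injective _ (hinj _)]
  refine ⟨H, ?_, by omega, ?_⟩
  · intro hb
    apply hbot
    rw [eq_bot_iff]
    intro g hg
    have : (g : G) ∈ H := by
      rw [hH, AddSubgroup.mem_map]
      exact ⟨g, hg, rfl⟩
    rw [hb, AddSubgroup.mem_bot] at this
    rw [AddSubgroup.mem_bot]
    exact Subtype.ext this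
  · by_contra hcon
    push Not at hcon
    apply htop
    rw [eq_top_iff]
    intro g _
    have h1 : G1 ≤ H := dsub_le hcon
    have h2 := h1 g.2
    rw [hH, AddSubgroup.mem_map] at h2
    obtain ⟨g', hg', hgg⟩ := h2
    have : g' = g := Subtype.ext hgg
    rwa [← this]

/-- The `n`-fold sumset. -/
def hs (X : Finset G) : ℕ → Finset G
  | 0 => {0}
  | n + 1 => hs X n + X

theorem hs_zero (X : Finset G) : hs X 0 = {0} := rfl
theorem hs_succ (X : Finset G) (n : ℕ) : hs X (n + 1) = hs X n + X := rfl

theorem hs_one (X : Finset G) : hs X 1 = X := by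
  rw [hs_succ, hs_zero, Finset.singleton_zero, zero_add]

theorem hs_two (X : Finset G) : hs X 2 = X + X := by
  rw [hs_succ, hs_one]

theorem hs_add (X : Finset G) (m n : ℕ) : hs X (m + n) = hs X m + hs X n := by
  induction n with
  | zero => rw [hs_zero, add_zero, Finset.singleton_zero, add_zero]
  | succ n ih => rw [← add_assoc, hs_succ, ih, hs_succ, add_assoc]

theorem hs_nonempty {X : Finset G} (hX : X.Nonempty) (n : ℕ) : (hs X n).Nonempty := by
  induction n with
  | zero => exact ⟨0, by simp [hs_zero]⟩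
  | succ n ih => rw [hs_succ]; exact ih.add hX

theorem hs_mono {X Y : Finset G} (h : X ⊆ Y) (n : ℕ) : hs X n ⊆ hs Y n := by
  induction n with
  | zero => rfl
  | succ n ih => rw [hs_succ, hs_succ]; exact Finset.add_subset_add ih h

theorem stab_le_stab_add (A B : Finset G) : stab A ≤ stab (A + B) := by
  intro g hg
  apply mem_stab_of_forall
  intro x hx
  obtain ⟨a, ha, b, hb, rfl⟩ := Finset.mem_add.mp hx
  have : a + b + g = (a + g) + b := by abel
  rw [this]
  exact Finset.add_mem_add (stab_add hg ha) hb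

theorem stab_hs_le (X : Finset G) (m n : ℕ) : stab (hs X m) ≤ stab (hs X (m + n)) := by
  rw [hs_add]
  exact stab_le_stab_add _ _

theorem hs_lower {X : Finset G} (hX : X.Nonempty) (n : ℕ) (h : stab (hs X n) = ⊥) :
    n * X.card + 1 ≤ (hs X n).card + n := by
  induction n with
  | zero => simp [hs_zero]
  | succ n ih =>
    have h1 : stab (hs X n) = ⊥ := by
      rw [eq_bot_iff, ← h]
      exact stab_hs_le X n 1
    have h2 := ih h1
    have h3 := kneser_aperiodic (hs X n) X (hs_nonempty hX n) hX (by rw [← hs_succ]; exact h)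
    rw [← hs_succ] at h3
    have h4 : (n + 1) * X.card = n * X.card + X.card := by ring
    omega

theorem cs_eq_of_mem {X : Finset G} {H : AddSubgroup G} {a x : G} (h : a - x ∈ H) :
    cs X H a = cs X H x := by
  ext u
  rw [mem_cs, mem_cs]
  constructor
  · rintro ⟨h1, h2⟩
    refine ⟨h1, ?_⟩
    have : u - x = (u - a) + (a - x) := by abel
    rw [this]; exact H.add_mem h2 h
  · rintro ⟨h1, h2⟩
    refine ⟨h1, ?_⟩
    have : u - a = (u - x) - (a - x) := by abel
    rw [this]; exact H.sub_mem h2 h

theorem fullpair (X : Finset G) (H : AddSubgroup G) (a b g : G) (hg : g ∈ H)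
    (hc : (fs H).card + 1 ≤ (cs X H a).card + (cs X H b).card) : a + b + g ∈ X + X := by
  by_contra hcon
  have hinj : Function.Injective (fun v : G => a + b + g - v) := by
    intro v v' h
    exact sub_right_injective h
  have hdis : Disjoint (cs X H a) ((cs X H b).image (fun v => a + b + g - v)) := by
    rw [Finset.disjoint_left]
    intro u hu hu'
    rw [Finset.mem_image] at hu'
    obtain ⟨v, hv, rfl⟩ := hu'
    apply hcon
    have := Finset.add_mem_add (mem_cs.mp hu).1 (mem_cs.mp hv).1
    rwa [sub_add_cancel] at this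
  have hsub : cs X H a ∪ (cs X H b).image (fun v => a + b + g - v) ⊆ tr (fs H) a := by
    intro u hu
    rw [Finset.mem_union, Finset.mem_image] at hu
    rw [mem_tr, mem_fs]
    rcases hu with hu | ⟨v, hv, rfl⟩
    · exact (mem_cs.mp hu).2
    · have : a + b + g - v - a = g - (v - b) := by abel
      rw [this]
      exact H.sub_mem hg (mem_cs.mp hv).2
  have := Finset.card_le_card hsub
  rw [Finset.card_union_of_disjoint hdis, Finset.card_image_of_injective _ hinj, card_tr] at this
  omega

theorem hs_cs_sub (X : Finset G) (H : AddSubgroup G) (x : G) (n : ℕ) :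
    ∀ w ∈ hs (cs X H x) n, w - n • x ∈ H := by
  induction n with
  | zero =>
    intro w hw
    rw [hs_zero, Finset.mem_singleton] at hw
    rw [hw]; simp
  | succ n ih =>
    intro w hw
    rw [hs_succ] at hw
    obtain ⟨a, ha, b, hb, rfl⟩ := Finset.mem_add.mp hw
    have h1 := ih a ha
    have h2 := (mem_cs.mp hb).2
    have : a + b - (n + 1) • x = (a - n • x) + (b - x) := by
      rw [succ_nsmul]; abel
    rw [this]
    exact H.add_mem h1 h2

/-- Alternative for elements of an iterated sumset of a nearly periodic set. -/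
theorem alt (X : Finset G) (H : AddSubgroup G)
    (hH : ∀ x ∈ X, ∀ y ∈ X, x - y ∉ H →
      (fs H).card + 1 ≤ (cs X H x).card + (cs X H y).card) (n : ℕ) :
    ∀ z ∈ hs X (n + 1), (∀ g ∈ H, z + g ∈ hs X (n + 1)) ∨
      ∃ x0 ∈ X, z ∈ hs (cs X H x0) (n + 1) ∧ (1 ≤ n → 2 * (cs X H x0).card ≤ (fs H).card) := by
  induction n with
  | zero =>
    intro z hz
    right
    rw [zero_add, hs_one] at hz
    refine ⟨z, hz, ?_, by omega⟩
    rw [zero_add, hs_one, mem_cs]
    exact ⟨hz, by rw [sub_self]; exact H.zero_mem⟩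
  | succ n ih =>
    intro z hz
    rw [hs_succ] at hz
    obtain ⟨y, hy, u, hu, rfl⟩ := Finset.mem_add.mp hz
    rcases ih y hy with h1 | ⟨x0, hx0, hy0, hcard⟩
    · left
      intro g hg
      rw [hs_succ]
      have : y + u + g = (y + g) + u := by abel
      rw [this]
      exact Finset.add_mem_add (h1 g hg) hu
    · have hy' := hy0
      rw [hs_succ] at hy'
      obtain ⟨c, hcn, a, ha, rfl⟩ := Finset.mem_add.mp hy'
      have haX := (mem_cs.mp ha).1
      have hca : cs X H a = cs X H x0 := cs_eq_of_mem (mem_cs.mp ha).2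
      by_cases hbig : (fs H).card + 1 ≤ (cs X H a).card + (cs X H u).card
      · left
        intro g hg
        have h2 := fullpair X H a u g hg hbig
        have h3 : c + a + u + g = c + (a + u + g) := by abel
        rw [h3, add_assoc n 1 1, hs_add X n (1 + 1), hs_two]
        exact Finset.add_mem_add (hs_mono (fun x hx => (mem_cs.mp hx).1) n hcn) h2
      · right
        have h4 : a - u ∈ H := by
          by_contra hc
          exact hbig (hH a haX u hu hc)
        have hcu : cs X H a = cs X H u := cs_eq_of_mem h4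
        refine ⟨x0, hx0, ?_, ?_⟩
        · rw [hs_succ]
          apply Finset.add_mem_add hy0
          rw [← hca, hcu, mem_cs]
          exact ⟨hu, by rw [sub_self]; exact H.zero_mem⟩
        · intro _
          rw [← hcu, hca] at hbig
          omega

theorem fs_card_ge_three (p : ℕ) (hp : p.Prime) (hp2 : p ≠ 2) (hexp : ∀ x : G, p • x = 0)
    (H : AddSubgroup G) (hH : H ≠ ⊥) : 3 ≤ (fs H).card := by
  have h1 := fs_card_ge_two hH
  obtain ⟨k, hk⟩ := odd_fs p hp hp2 hexp H
  omega

/-- The key structural theorem. -/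
theorem keyD (p : ℕ) (hp : p.Prime) (hp2 : p ≠ 2) (hexp : ∀ x : G, p • x = 0) (h : ℕ)
    (hh : 2 ≤ h) (hhp : h < p) (X : Finset G) (hX : X.Nonempty) (hstab : stab (hs X h) = ⊥)
    (hcard : (hs X h).card + h = h * X.card + 1)
    (hneg : ∀ z ∈ hs X h, -z ∈ hs X h)
    (hsig : ∀ u ∈ X, ∀ v ∈ X, u ≠ v → ∀ w ∈ X, w ≠ u → w ≠ v →
      u - v + (h - 2) • w ∈ hs X h)
    (hsig2 : h = 2 → ∀ u ∈ X, ∀ v ∈ X, u ≠ v → u - v ∈ hs X h) : X.card ≤ p := by
  classical
  by_contra hXp
  push Not at hXp
  have hp1 := hp.two_le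
  -- the double sumset is critical
  have hst2 : stab (X + X) = ⊥ := by
    rw [eq_bot_iff, ← hstab, ← hs_two]
    obtain ⟨k, rfl⟩ := Nat.exists_eq_add_of_le hh
    exact stab_hs_le X 2 k
  have hc2 : (X + X).card + 1 = 2 * X.card := by
    have h1 := kneser_aperiodic X X hX hX hst2
    obtain ⟨k, rfl⟩ := Nat.exists_eq_add_of_le hh
    have h2 : hs X (2 + k) = (X + X) + hs X k := by rw [hs_add, hs_two]
    have h3 := kneser_aperiodic (X + X) (hs X k) (hX.add hX) (hs_nonempty hX k)
      (by rw [← h2]; exact hstab)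
    rw [← h2] at h3
    have hstk : stab (hs X k) = ⊥ := by
      rw [eq_bot_iff, ← hstab, add_comm 2 k]
      exact stab_hs_le X k 2
    have h4 := hs_lower hX k hstk
    have h5 : (2 + k) * X.card = 2 * X.card + k * X.card := by ring
    omega
  obtain ⟨H, hHbot, hHc, x1, hx1, x2, hx2, hx12⟩ :=
    crit_coset p hp hp2 hexp X hXp hst2 hc2
  have hH3 := fs_card_ge_three p hp hp2 hexp H hHbot
  have hHH : ∀ x ∈ X, ∀ y ∈ X, x - y ∉ H →
      (fs H).card + 1 ≤ (cs X H x).card + (cs X H y).card := by
    intro x hx y hy hxy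
    have := holes_two hx hy hxy
    omega
  -- a non-full coset of the `h`-fold sumset
  obtain ⟨g, hg, z, hz, hzg⟩ : ∃ g ∈ H, ∃ z ∈ hs X h, z + g ∉ hs X h := by
    by_contra hcon
    push Not at hcon
    apply hHbot
    rw [eq_bot_iff, ← hstab]
    intro g hg
    exact mem_stab_of_forall (fun z hz => hcon g hg z hz)
  obtain ⟨n, hn⟩ : ∃ n, h = n + 1 := ⟨h - 1, by omega⟩
  have halt : ∀ z ∈ hs X h, (∀ g ∈ H, z + g ∈ hs X h) ∨
      ∃ x0 ∈ X, z ∈ hs (cs X H x0) h ∧ 2 * (cs X H x0).card ≤ (fs H).card := by
    intro z hz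
    rw [hn] at hz ⊢
    rcases alt X H hHH n z hz with h1 | ⟨x0, h1, h2, h3⟩
    · exact Or.inl h1
    · exact Or.inr ⟨x0, h1, h2, h3 (by omega)⟩
  have hcop : Nat.Coprime (2 * h) p := by
    rw [Nat.coprime_comm, hp.coprime_iff_not_dvd]
    intro hd
    rcases (hp.dvd_mul).mp hd with h1 | h1
    · exact hp2 ((Nat.prime_dvd_prime_iff_eq hp Nat.prime_two).mp h1)
    · have := Nat.le_of_dvd (by omega) h1
      omega
  obtain ⟨x0, hx0, hz0, hc0⟩ := (halt z hz).resolve_left (fun h1 => hzg (h1 g hg))
  have hx0H : x0 ∈ H := by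
    have hnz := hneg z hz
    obtain ⟨y0, hy0, hz1, hc1⟩ := (halt (-z) hnz).resolve_left (fun h1 => hzg (by
      have h2 := hneg _ (h1 (-g) (H.neg_mem hg))
      have h3 : -(-z + -g) = z + g := by abel
      rwa [h3] at h2))
    have h4 := hs_cs_sub X H x0 h z hz0
    have h5 := hs_cs_sub X H y0 h (-z) hz1
    have h6 : x0 - y0 ∈ H := by
      by_contra hc
      have := hHH x0 hx0 y0 hy0 hc
      omega
    apply mem_of_coprime p hexp H (2 * h) hcop
    have h7 : (2 * h) • x0 = h • (x0 - y0) - ((z - h • x0) + (-z - h • y0)) := by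
      rw [two_mul, add_nsmul, nsmul_sub]; abel
    rw [h7]
    exact H.sub_mem (H.nsmul_mem h6 h) (H.add_mem h4 h5)
  have hzH : z ∈ H := by
    have h4 := hs_cs_sub X H x0 h z hz0
    have h5 : z = (z - h • x0) + h • x0 := by abel
    rw [h5]
    exact H.add_mem h4 (H.nsmul_mem hx0H h)
  set z1 := z + g with hz1
  have hz1H : z1 ∈ H := H.add_mem hzH hg
  have claimC : ∀ w ∈ H, w ∈ hs X h → w ∈ hs (cs X H x0) h := by
    intro w hw hwX
    rcases halt w hwX with h1 | ⟨y0, hy0, h1, h2⟩
    · exfalso
      apply hzg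
      have := h1 (z1 - w) (H.sub_mem hz1H hw)
      have h3 : w + (z1 - w) = z1 := by abel
      rwa [h3] at this
    · have h6 : y0 - x0 ∈ H := by
        by_contra hc
        have := hHH y0 hy0 x0 hx0 hc
        omega
      rwa [cs_eq_of_mem h6] at h1
  obtain ⟨y, hy, hyH⟩ : ∃ y ∈ X, y ∉ H := by
    by_contra hcon
    push Not at hcon
    exact hx12 (H.sub_mem (hcon x1 hx1) (hcon x2 hx2))
  have hcy : (fs H).card + 1 ≤ (cs X H x0).card + (cs X H y).card := by
    apply hHH x0 hx0 y hy
    intro hc
    apply hyH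
    have : y = x0 - (x0 - y) := by abel
    rw [this]
    exact H.sub_mem hx0H hc
  have claimD : ∀ w ∈ X, w ∈ H → ∀ t ∈ H, t ≠ (h - 2) • w → t ∈ hs X h := by
    intro w hw hwH t ht htw
    set k := t - (h - 2) • w with hk
    have hkH : k ∈ H := H.sub_mem ht (H.nsmul_mem hwH _)
    have hk0 : k ≠ 0 := sub_ne_zero.mpr htw
    have h1 := self_inter X H y k hkH
    have h2 : 0 < ((cs X H y) ∩ tr (cs X H y) k).card := by omega
    obtain ⟨u, hu⟩ := Finset.card_pos.mp h2
    rw [Finset.mem_inter, mem_tr] at hu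
    obtain ⟨hu1, hu2⟩ := hu
    have hunH : ∀ u, u ∈ cs X H y → u ∉ H := by
      intro u hu hc
      apply hyH
      have : y = u - (u - y) := by abel
      rw [this]
      exact H.sub_mem hc (mem_cs.mp hu).2
    have h3 := hsig u (mem_cs.mp hu1).1 (u - k) (mem_cs.mp hu2).1
      (by
        intro hc
        apply hk0
        have : k = u - (u - k) := by abel
        rw [this, ← hc, sub_self]) w hw
      (fun hc => hunH u hu1 (hc ▸ hwH)) (fun hc => hunH _ hu2 (hc ▸ hwH))
    have h4 : u - (u - k) + (h - 2) • w = t := by rw [hk]; abel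
    rwa [h4] at h3
  rcases Nat.lt_or_ge 2 h with hh3 | hh3
  · -- the case of at least three summands
    have hsingle : ∀ w ∈ X, w ∈ H → w = x0 := by
      intro w hw hwH
      have e1 : z1 = (h - 2) • w := by
        by_contra hc
        exact hzg (claimD w hw hwH z1 hz1H hc)
      have e2 : z1 = (h - 2) • x0 := by
        by_contra hc
        exact hzg (claimD x0 hx0 hx0H z1 hz1H hc)
      have e3 : (h - 2) • (w - x0) ∈ (⊥ : AddSubgroup G) := by
        rw [AddSubgroup.mem_bot, nsmul_sub, ← e1, ← e2, sub_self]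
      have e4 : Nat.Coprime (h - 2) p := by
        rw [Nat.coprime_comm, hp.coprime_iff_not_dvd]
        intro hd
        have := Nat.le_of_dvd (by omega) hd
        omega
      have e5 := mem_of_coprime p hexp ⊥ (h - 2) e4 _ e3
      rw [AddSubgroup.mem_bot, sub_eq_zero] at e5
      exact e5
    have hcsx0 : cs X H x0 = {x0} := by
      ext u
      rw [mem_cs, Finset.mem_singleton]
      constructor
      · rintro ⟨h1, h2⟩
        apply hsingle u h1
        have : u = (u - x0) + x0 := by abel
        rw [this]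
        exact H.add_mem h2 hx0H
      · rintro rfl
        exact ⟨hx0, by rw [sub_self]; exact H.zero_mem⟩
    have hone : ∀ m : ℕ, (hs ({x0} : Finset G) m).card ≤ 1 := by
      intro m
      induction m with
      | zero => simp [hs_zero]
      | succ m ih =>
        rw [hs_succ]
        calc _ ≤ (hs ({x0} : Finset G) m).card * ({x0} : Finset G).card := Finset.card_add_le
          _ ≤ 1 * 1 := Nat.mul_le_mul ih (by simp)
    obtain ⟨t1, ht1, t2, ht2, ht12⟩ : ∃ t1 ∈ (fs H).erase ((h - 2) • x0),
        ∃ t2 ∈ (fs H).erase ((h - 2) • x0), t1 ≠ t2 := by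
      apply Finset.one_lt_card.mp
      rw [Finset.card_erase_of_mem (mem_fs.mpr (H.nsmul_mem hx0H _))]
      omega
    rw [Finset.mem_erase, mem_fs] at ht1 ht2
    have k1 := claimC t1 ht1.2 (claimD x0 hx0 hx0H t1 ht1.2 ht1.1)
    have k2 := claimC t2 ht2.2 (claimD x0 hx0 hx0H t2 ht2.2 ht2.1)
    rw [hcsx0] at k1 k2
    exact ht12 (Finset.card_le_one.mp (hone h) t1 k1 t2 k2)
  · -- the case of two summands
    have hh2 : h = 2 := by omega
    subst hh2
    have hz10 : z1 = 0 := by
      by_contra hc
      apply hzg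
      apply claimD x0 hx0 hx0H z1 hz1H
      simpa using hc
    rw [hs_two] at *
    have h0 : (0 : G) ∉ X + X := by rw [← hz10]; exact hzg
    set W := insert (0 : G) (X + X) with hW
    have hWc : W.card = 2 * X.card := by
      rw [hW, Finset.card_insert_of_notMem h0]; exact hc2
    set B := X ∪ X.image (fun x => -x) with hB
    have hdis : Disjoint X (X.image (fun x => -x)) := by
      rw [Finset.disjoint_left]
      intro a ha ha'
      rw [Finset.mem_image] at ha'
      obtain ⟨b, hb, hba⟩ := ha'
      apply h0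
      have := Finset.add_mem_add ha hb
      have h1 : a + b = 0 := by rw [← hba]; abel
      rwa [h1] at this
    have hBc : B.card = 2 * X.card := by
      rw [hB, Finset.card_union_of_disjoint hdis, Finset.card_image_of_injective _ neg_injective]
      ring
    have htrB : ∀ x ∈ X, tr B x = W := by
      intro x hx
      apply Finset.eq_of_subset_of_card_le
      · intro y hy
        rw [mem_tr, hB, Finset.mem_union, Finset.mem_image] at hy
        rw [hW, Finset.mem_insert]
        rcases hy with hy | ⟨b, hb, hby⟩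
        · right
          have := Finset.add_mem_add hy hx
          rwa [sub_add_cancel] at this
        · have h1 : y = x - b := by
            have : y = (y - x) + x := by abel
            rw [this, ← hby]; abel
          by_cases hxb : x = b
          · left; rw [h1, hxb, sub_self]
          · right; rw [h1]; exact hsig2 rfl x hx b hb hxb
      · rw [card_tr, hWc, hBc]
    have hdiff : ∀ x ∈ X, ∀ x' ∈ X, x - x' ∈ stab W := by
      intro x hx x' hx'
      apply mem_stab_of_forall
      intro w hw
      rw [← htrB x' hx', mem_tr] at hw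
      rw [← htrB x hx, mem_tr]
      have : w + (x - x') - x = w - x' := by abel
      rwa [this]
    have hWQ : W = fs (stab W) := by
      apply Finset.Subset.antisymm
      · intro w hw
        rw [mem_fs]
        rw [hW, Finset.mem_insert] at hw
        rcases hw with rfl | hw
        · exact (stab W).zero_mem
        · obtain ⟨a, ha, b, hb, rfl⟩ := Finset.mem_add.mp hw
          obtain ⟨u, hu, v, hv, huv⟩ := Finset.one_lt_card.mp (by omega : 1 < X.card)
          obtain ⟨c, hc, d, hd, hcd⟩ := Finset.mem_add.mp (hsig2 rfl u hu v hv huv)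
          have : a + b = (a - c) + (b - d) + (u - v) := by rw [← hcd]; abel
          rw [this]
          exact (stab W).add_mem ((stab W).add_mem (hdiff a ha c hc) (hdiff b hb d hd))
            (hdiff u hu v hv)
      · intro q hq
        rw [mem_fs] at hq
        have := stab_add hq (by rw [hW]; exact Finset.mem_insert_self _ _ : (0 : G) ∈ W)
        rwa [zero_add] at this
    obtain ⟨k, hk⟩ := odd_fs p hp hp2 hexp (stab W)
    rw [← hWQ, hWc] at hk
    omega

end Pool.Agent.Helper730.Signed
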