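import Mathlib
import Pool.Agent.Helper730.Signed

set_option autoImplicit false
set_option linter.unusedSectionVars false

open scoped Pointwise
open Finset

namespace Pool.Agent.Helper730.Lex

open Pool.Agent.Helper730.Kneser
open Pool.Agent.Helper730.Atoms
open Pool.Agent.Helper730.Signed

variable {p : ℕ}

/-- The number with base `p` digits `x`. -/
def iota (p : ℕ) : (r : ℕ) → (Fin r → ZMod p) → ℕ
  | 0, _ => 0
  | r + 1, x => (x 0).val + p * iota p r (fun j => x j.succ)

theorem iota_lt [NeZero p] (r : ℕ) : ∀ x : Fin r → ZMod p, iota p r x < p ^ r := by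
  induction r with
  | zero => intro x; simp [iota]
  | succ r ih =>
    intro x
    have h1 := ih (fun j => x j.succ)
    have h2 := ZMod.val_lt (x 0)
    rw [iota, pow_succ]
    have h3 : p * (iota p r (fun j => x j.succ) + 1) ≤ p * p ^ r := Nat.mul_le_mul_left p h1
    nlinarith

theorem iota_div [NeZero p] (r : ℕ) (x : Fin (r + 1) → ZMod p) :
    iota p (r + 1) x / p = iota p r (fun j => x j.succ) := by
  have hp : 0 < p := Nat.pos_of_ne_zero (NeZero.ne p)
  rw [iota, Nat.add_mul_div_left _ _ hp, Nat.div_eq_of_lt (ZMod.val_lt (x 0)), zero_add]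

theorem iota_inj [NeZero p] (r : ℕ) : Function.Injective (iota p r) := by
  induction r with
  | zero => intro x y _; exact Subsingleton.elim _ _
  | succ r ih =>
    intro x y h
    have h1 : iota p r (fun j => x j.succ) = iota p r (fun j => y j.succ) := by
      rw [← iota_div, ← iota_div, h]
    have h2 := ih h1
    have h3 : (x 0).val = (y 0).val := by
      rw [iota, iota, h1] at h
      omega
    funext j
    refine Fin.cases ?_ (fun j => ?_) j
    · exact ZMod.val_injective p h3
    · exact congrFun h2 j

theorem iota_add [NeZero p] (r : ℕ) : ∀ x y : Fin r → ZMod p,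
    iota p r (x + y) ≤ iota p r x + iota p r y := by
  induction r with
  | zero => intro x y; simp [iota]
  | succ r ih =>
    intro x y
    have h1 := ih (fun j => x j.succ) (fun j => y j.succ)
    have h2 : ((x + y) 0).val ≤ (x 0).val + (y 0).val := ZMod.val_add_le _ _
    rw [iota, iota, iota]
    have h3 : (fun j : Fin r => (x + y) j.succ) = (fun j => x j.succ) + (fun j => y j.succ) := rfl
    rw [h3]
    nlinarith [Nat.mul_le_mul_left p h1]

theorem iota_add_div [NeZero p] (j : ℕ) : ∀ (r : ℕ) (x y : Fin r → ZMod p),
    iota p r (x + y) / p ^ j ≤ iota p r x / p ^ j + iota p r y / p ^ j := by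
  induction j with
  | zero => intro r x y; simpa using iota_add r x y
  | succ j ih =>
    intro r x y
    cases r with
    | zero => simp [iota]
    | succ r =>
      rw [pow_succ', ← Nat.div_div_eq_div_mul, ← Nat.div_div_eq_div_mul, ← Nat.div_div_eq_div_mul,
        iota_div, iota_div, iota_div]
      exact ih r _ _

theorem iota_zero [NeZero p] (r : ℕ) : iota p r 0 = 0 := by
  induction r with
  | zero => rfl
  | succ r ih =>
    rw [iota]
    have : (fun j : Fin r => (0 : Fin (r + 1) → ZMod p) j.succ) = 0 := rfl
    rw [this, ih]; simp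

theorem card_V (p r : ℕ) [NeZero p] : Fintype.card (Fin r → ZMod p) = p ^ r := by
  simp [ZMod.card]

/-- Initial segments. -/
def IS (p r m : ℕ) [NeZero p] : Finset (Fin r → ZMod p) :=
  Finset.univ.filter (fun x => iota p r x < m)

theorem card_IS (p r m : ℕ) [NeZero p] (hm : m ≤ p ^ r) : (IS p r m).card = m := by
  have h1 : (Finset.univ : Finset (Fin r → ZMod p)).image (iota p r) = Finset.range (p ^ r) := by
    apply Finset.eq_of_subset_of_card_le
    · intro v hv
      rw [Finset.mem_image] at hv
      obtain ⟨x, -, rfl⟩ := hv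
      exact Finset.mem_range.mpr (iota_lt r x)
    · rw [Finset.card_image_of_injective _ (iota_inj r), Finset.card_univ, card_V,
        Finset.card_range]
  have h2 : (IS p r m).image (iota p r) = Finset.range m := by
    ext v
    rw [Finset.mem_image, Finset.mem_range]
    constructor
    · rintro ⟨x, hx, rfl⟩
      rw [IS, Finset.mem_filter] at hx
      exact hx.2
    · intro hv
      have : v ∈ (Finset.univ : Finset (Fin r → ZMod p)).image (iota p r) := by
        rw [h1, Finset.mem_range]; omega
      rw [Finset.mem_image] at this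
      obtain ⟨x, -, rfl⟩ := this
      exact ⟨x, by rw [IS, Finset.mem_filter]; exact ⟨Finset.mem_univ _, hv⟩, rfl⟩
  have h3 := congrArg Finset.card h2
  rw [Finset.card_image_of_injective _ (iota_inj r), Finset.card_range] at h3
  exact h3

theorem hs_IS (p r m j h : ℕ) [NeZero p] : ∀ x ∈ hs (IS p r m) h,
    iota p r x / p ^ j ≤ h * ((m - 1) / p ^ j) := by
  induction h with
  | zero =>
    intro x hx
    rw [hs_zero, Finset.mem_singleton] at hx
    rw [hx, iota_zero]; simp
  | succ h ih =>
    intro x hx
    rw [hs_succ] at hx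
    obtain ⟨a, ha, b, hb, rfl⟩ := Finset.mem_add.mp hx
    have h1 := ih a ha
    rw [IS, Finset.mem_filter] at hb
    have h2 : iota p r b / p ^ j ≤ (m - 1) / p ^ j := Nat.div_le_div_right (by omega)
    calc iota p r (a + b) / p ^ j ≤ iota p r a / p ^ j + iota p r b / p ^ j := iota_add_div j r a b
      _ ≤ h * ((m - 1) / p ^ j) + (m - 1) / p ^ j := Nat.add_le_add h1 h2
      _ = _ := by ring

/-- Upper bound for sumsets of initial segments. -/
theorem card_hs_IS (p r m j h : ℕ) [NeZero p] :
    (hs (IS p r m) h).card ≤ (h * ((m - 1) / p ^ j) + 1) * p ^ j := by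
  have hp : 0 < p := Nat.pos_of_ne_zero (NeZero.ne p)
  rw [← Finset.card_range ((h * ((m - 1) / p ^ j) + 1) * p ^ j)]
  apply Finset.card_le_card_of_injOn (iota p r)
  · intro x hx
    have h1 := hs_IS p r m j h x hx
    rw [Finset.mem_coe, Finset.mem_range]
    have h2 : iota p r x / p ^ j < h * ((m - 1) / p ^ j) + 1 := Nat.lt_succ_of_le h1
    exact (Nat.div_lt_iff_lt_mul (pow_pos hp j)).mp h2
  · intro x _ y _ hxy
    exact iota_inj r hxy

section quotient

variable {G : Type*} [AddCommGroup G] [Fintype G] [DecidableEq G]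

open Classical in
/-- Image in the quotient. -/
noncomputable def im (K : AddSubgroup G) (C : Finset G) : Finset (G ⧸ K) :=
  C.image (QuotientAddGroup.mk : G → G ⧸ K)

theorem mem_im {K : AddSubgroup G} {C : Finset G} {y : G ⧸ K} :
    y ∈ im K C ↔ ∃ x ∈ C, (QuotientAddGroup.mk x : G ⧸ K) = y := by
  classical
  unfold im
  rw [Finset.mem_image]

theorem card_le_im (K : AddSubgroup G) (C : Finset G) :
    C.card ≤ (fs K).card * (im K C).card := by
  classical
  unfold im
  apply Finset.card_le_mul_card_image
  intro y hy
  rw [Finset.mem_image] at hy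
  obtain ⟨x, hx, rfl⟩ := hy
  rw [← card_tr (fs K) x]
  apply Finset.card_le_card
  intro u hu
  rw [Finset.mem_filter] at hu
  rw [mem_tr, mem_fs]
  have := QuotientAddGroup.eq.mp hu.2
  have h2 : u - x = -(-u + x) := by abel
  rw [h2]
  exact K.neg_mem this

theorem card_eq_im (K : AddSubgroup G) (C : Finset G) (hK : K ≤ stab C) :
    C.card = (fs K).card * (im K C).card := by
  classical
  unfold im
  rw [Finset.card_eq_sum_card_image (QuotientAddGroup.mk : G → G ⧸ K) C, mul_comm,
    ← smul_eq_mul, ← Finset.sum_const]
  apply Finset.sum_congr rfl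
  intro y hy
  rw [Finset.mem_image] at hy
  obtain ⟨x, hx, rfl⟩ := hy
  rw [← card_tr (fs K) x]
  congr 1
  ext u
  rw [Finset.mem_filter, mem_tr, mem_fs]
  constructor
  · rintro ⟨hu, hux⟩
    have := QuotientAddGroup.eq.mp hux
    have h2 : u - x = -(-u + x) := by abel
    rw [h2]
    exact K.neg_mem this
  · intro hu
    constructor
    · have := stab_add (hK hu) hx
      have h2 : x + (u - x) = u := by abel
      rwa [h2] at this
    · apply QuotientAddGroup.eq.mpr
      have h2 : -u + x = -(u - x) := by abel
      rw [h2]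
      exact K.neg_mem hu

end quotient

end Pool.Agent.Helper730.Lex
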