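import Mathlib
import Pool.Agent.Helper730.Signed

set_option autoImplicit false
set_option linter.unusedSectionVars false

open scoped Pointwise
open Finset

namespace Pool.Agent.Helper730.Rel

open Pool.Agent.Helper730.Kneser
open Pool.Agent.Helper730.Atoms
open Pool.Agent.Helper730.Signed

variable {G : Type*} [AddCommGroup G] [Fintype G] [DecidableEq G]

theorem fs_card_mono {H K : AddSubgroup G} (h : H ≤ K) : (fs H).card ≤ (fs K).card :=
  Finset.card_le_card (fs_mono h)

theorem eq_of_card {H K : AddSubgroup G} (h : H ≤ K) (hc : (fs K).card ≤ (fs H).card) : H = K := by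
  apply le_antisymm h
  intro x hx
  have := Finset.eq_of_subset_of_card_le (fs_mono h) hc
  rw [← mem_fs, this, mem_fs]
  exact hx

/-- A periodic set is a union of cosets: its size is a multiple of the order. -/
theorem per_card (C : Finset G) (K : AddSubgroup G) (hK : K ≤ stab C) :
    (fs K).card ∣ C.card := by
  induction h : C.card using Nat.strong_induction_on generalizing C with
  | _ n ih =>
    rcases Finset.eq_empty_or_nonempty C with rfl | ⟨x, hx⟩
    · simp at h
      rw [← h]; exact dvd_zero _
    · have hsub : tr (fs K) x ⊆ C := by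
        intro y hy
        rw [mem_tr, mem_fs] at hy
        have := stab_add (hK hy) hx
        have h2 : x + (y - x) = y := by abel
        rwa [h2] at this
      have hper : K ≤ stab (C \ tr (fs K) x) := by
        intro g hg
        apply mem_stab_of_forall
        intro y hy
        rw [Finset.mem_sdiff, mem_tr, mem_fs] at hy ⊢
        refine ⟨stab_add (hK hg) hy.1, fun hc => hy.2 ?_⟩
        have h2 : y - x = (y + g - x) - g := by abel
        rw [h2]
        exact K.sub_mem hc hg
      have hc := Finset.card_sdiff_of_subset hsub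
      have hle := Finset.card_le_card hsub
      rw [card_tr] at hc hle
      have hpos := fs_card_pos K
      have := ih (C \ tr (fs K) x).card (by omega) _ hper rfl
      rw [hc] at this
      rw [← h]
      have h3 : C.card = (C.card - (fs K).card) + (fs K).card := by omega
      rw [h3]
      exact Dvd.dvd.add this (dvd_refl _)

theorem fs_per {H K : AddSubgroup G} (h : K ≤ H) : K ≤ stab (fs H) := by
  intro g hg
  apply mem_stab_of_forall
  intro x hx
  rw [mem_fs] at hx ⊢
  exact H.add_mem hx (h hg)

theorem fs_dvd {H K : AddSubgroup G} (h : K ≤ H) : (fs K).card ∣ (fs H).card :=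
  per_card _ _ (fs_per h)

theorem add_fs_per (A : Finset G) (H : AddSubgroup G) : H ≤ stab (A + fs H) := by
  intro g hg
  apply mem_stab_of_forall
  intro x hx
  obtain ⟨a, ha, k, hk, rfl⟩ := Finset.mem_add.mp hx
  rw [add_assoc]
  exact Finset.add_mem_add ha (mem_fs.mpr (H.add_mem (mem_fs.mp hk) hg))

theorem mem_add_fs {A : Finset G} {H : AddSubgroup G} {y : G} :
    y ∈ A + fs H ↔ ∃ a ∈ A, y - a ∈ H := by
  constructor
  · intro hy
    obtain ⟨a, ha, k, hk, rfl⟩ := Finset.mem_add.mp hy
    exact ⟨a, ha, by simpa using mem_fs.mp hk⟩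
  · rintro ⟨a, ha, hk⟩
    have := Finset.add_mem_add ha (mem_fs.mpr hk)
    have h2 : a + (y - a) = y := by abel
    rwa [h2] at this

theorem hs_per {A : Finset G} {K : AddSubgroup G} (hK : K ≤ stab A) (n : ℕ) :
    K ≤ stab (hs A (n + 1)) := by
  refine hK.trans ?_
  rw [hs_succ, add_comm]
  exact stab_le_stab_add _ _

theorem hs_stab_mono (A : Finset G) {m n : ℕ} (h : m ≤ n) : stab (hs A m) ≤ stab (hs A n) := by
  obtain ⟨k, rfl⟩ := Nat.exists_eq_add_of_le h
  exact stab_hs_le A m k

/-- Relative form of the iterated Kneser bound. -/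
theorem hs_lower_rel {A : Finset G} (hA : A.Nonempty) (K : AddSubgroup G) (n : ℕ)
    (h : stab (hs A (n + 1)) ≤ K) :
    (n + 1) * A.card ≤ (hs A (n + 1)).card + n * (fs K).card := by
  induction n with
  | zero => rw [zero_add, hs_one]; omega
  | succ n ih =>
    have h1 : stab (hs A (n + 1)) ≤ K := (hs_stab_mono A (by omega)).trans h
    have h2 := ih h1
    have h3 := kneser (hs A (n + 1)) A (hs_nonempty hA _) hA
    rw [← hs_succ] at h3
    have h4 := fs_card_mono h
    have h5 : (n + 1 + 1) * A.card = (n + 1) * A.card + A.card := by ring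
    have h6 : (n + 1) * (fs K).card = n * (fs K).card + (fs K).card := by ring
    omega

theorem hs_add_fs (A : Finset G) (H : AddSubgroup G) (n : ℕ) :
    hs (A + fs H) (n + 1) = hs A (n + 1) + fs H := by
  have hHH : fs H + fs H = fs H := add_fs_stab _ _ (fs_per le_rfl)
  induction n with
  | zero => rw [zero_add, hs_one, hs_one]
  | succ n ih =>
    rw [hs_succ, ih, hs_succ A (n + 1), add_add_add_comm, hHH]

/-- Kneser's bound for iterated sumsets. -/
theorem kneser_h {A : Finset G} (hA : A.Nonempty) (n : ℕ) :
    (n + 1) * (A + fs (stab (hs A (n + 1)))).card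
      ≤ (hs A (n + 1)).card + n * (fs (stab (hs A (n + 1)))).card := by
  set L := stab (hs A (n + 1)) with hL
  have e : hs (A + fs L) (n + 1) = hs A (n + 1) := by
    rw [hs_add_fs]
    exact add_fs_stab _ _ le_rfl
  have := hs_lower_rel (hA.add (fs_nonempty L)) L n (by rw [e])
  rw [e] at this
  exact this

/-- The relative Scherk-Kemperman inequality. -/
theorem scherk (A B : Finset G) (K : AddSubgroup G) (a b : G) (ha : a ∈ A) (hb : b ∈ B)
    (hu : ∀ a' ∈ A, ∀ b' ∈ B, a' + b' = a + b → a' - a ∈ K) :
    A.card + B.card ≤ (A + B).card + (fs K).card := by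
  set T := stab (A + B) with hT
  have h1 := kneser' A B ⟨a, ha⟩ ⟨b, hb⟩
  rw [← hT] at h1
  have h2 := holes_one (H := T) ha
  have h3 := holes_one (H := T) hb
  have h4 : (cs A T a).card + (cs B T b).card ≤ (fs T).card + (fs K).card := by
    set P := (cs A T a).image (fun y => y - a) with hP
    set Q := (cs B T b).image (fun y => b - y) with hQ
    have hPc : P.card = (cs A T a).card := Finset.card_image_of_injective _ sub_left_injective
    have hQc : Q.card = (cs B T b).card := Finset.card_image_of_injective _ sub_right_injective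
    have hPT : P ∪ Q ⊆ fs T := by
      apply Finset.union_subset
      · intro y hy
        rw [hP, Finset.mem_image] at hy
        obtain ⟨u, hu, rfl⟩ := hy
        exact mem_fs.mpr (mem_cs.mp hu).2
      · intro y hy
        rw [hQ, Finset.mem_image] at hy
        obtain ⟨u, hu, rfl⟩ := hy
        rw [mem_fs]
        have := T.neg_mem (mem_cs.mp hu).2
        rwa [neg_sub] at this
    have hPQ : P ∩ Q ⊆ fs K := by
      intro y hy
      rw [Finset.mem_inter, hP, hQ, Finset.mem_image, Finset.mem_image] at hy
      obtain ⟨⟨u, hu', rfl⟩, ⟨v, hv, hvu⟩⟩ := hy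
      rw [mem_fs]
      apply hu u (mem_cs.mp hu').1 v (mem_cs.mp hv).1
      have : u = a + (b - v) := by rw [hvu]; abel
      rw [this]; abel
    have h5 := Finset.card_union_add_card_inter P Q
    have h6 := Finset.card_le_card hPT
    have h7 := Finset.card_le_card hPQ
    omega
  omega

/-- `h x` has only the obvious representation modulo `K`. -/
def UU (A : Finset G) (K : AddSubgroup G) (h : ℕ) (x : G) : Prop :=
  ∀ y ∈ A, ∀ w ∈ hs A (h - 1), y + w - h • x ∈ K → y - x ∈ K

theorem nsmul_mem_hs {A : Finset G} {x : G} (hx : x ∈ A) (n : ℕ) : n • x ∈ hs A n := by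
  induction n with
  | zero => simp [hs_zero]
  | succ n ih => rw [hs_succ, succ_nsmul]; exact Finset.add_mem_add ih hx

theorem UU_pred {A : Finset G} {K : AddSubgroup G} {n : ℕ} {x : G} (hx : x ∈ A)
    (h : UU A K (n + 2) x) : UU A K (n + 1) x := by
  intro y hy w hw hyw
  apply h y hy (w + x)
  · have : n + 2 - 1 = n + 1 := by omega
    rw [this, hs_succ]
    have h2 : n + 1 - 1 = n := by omega
    rw [h2] at hw
    exact Finset.add_mem_add hw hx
  · have : y + (w + x) - (n + 2) • x = y + w - (n + 1) • x := by
      rw [show n + 2 = (n + 1) + 1 from rfl, succ_nsmul]; abel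
    rwa [this]

theorem UU_le {A : Finset G} {K : AddSubgroup G} {m n : ℕ} {x : G} (hx : x ∈ A) (hmn : m ≤ n)
    (h : UU A K (n + 1) x) : UU A K (m + 1) x := by
  obtain ⟨k, rfl⟩ := Nat.exists_eq_add_of_le hmn
  induction k with
  | zero => exact h
  | succ k ih => exact ih (by omega) (UU_pred hx h)

/-- All components of a representation lie in the same coset. -/
theorem UU_all {A : Finset G} {K : AddSubgroup G} {n : ℕ} {x : G} (hx : x ∈ A)
    (h : UU A K (n + 1) x) : ∀ w ∈ hs A (n + 1), w - (n + 1) • x ∈ K → w ∈ hs (cs A K x) (n + 1) := by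
  induction n with
  | zero =>
    intro w hw hwx
    rw [zero_add, hs_one] at hw ⊢
    rw [mem_cs]
    refine ⟨hw, ?_⟩
    simpa using hwx
  | succ n ih =>
    intro w hw hwx
    rw [hs_succ] at hw
    obtain ⟨v, hv, y, hy, rfl⟩ := Finset.mem_add.mp hw
    have h1 : y - x ∈ K := by
      apply h y hy v
      · have : n + 1 + 1 - 1 = n + 1 := by omega
        rw [this]; exact hv
      · rwa [add_comm y v]
    have h2 : v - (n + 1) • x ∈ K := by
      have : v - (n + 1) • x = (v + y - (n + 1 + 1) • x) - (y - x) := by
        rw [succ_nsmul x (n + 1)]; abel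
      rw [this]
      exact K.sub_mem hwx h1
    rw [hs_succ]
    exact Finset.add_mem_add (ih (UU_pred hx h) v hv h2) (mem_cs.mpr ⟨hy, h1⟩)

theorem hU {A : Finset G} {K : AddSubgroup G} {n : ℕ} {x : G} (hx : x ∈ A)
    (h : UU A K (n + 1) x) : (n + 1) * A.card ≤ (hs A (n + 1)).card + n * (fs K).card := by
  induction n with
  | zero => rw [zero_add, hs_one]; omega
  | succ n ih =>
    have h1 := ih (UU_pred hx h)
    have h2 := scherk (hs A (n + 1)) A K ((n + 1) • x) x (nsmul_mem_hs hx _) hx (by
      intro a' ha' b' hb' hab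
      have h3 : b' - x ∈ K := by
        apply h b' hb' a'
        · have : n + 1 + 1 - 1 = n + 1 := by omega
          rw [this]; exact ha'
        · have : b' + a' - (n + 1 + 1) • x = 0 := by
            rw [add_comm b' a', hab, succ_nsmul x (n + 1)]; abel
          rw [this]; exact K.zero_mem
      have : a' - (n + 1) • x = -(b' - x) := by
        have h4 : a' = (n + 1) • x + x - b' := by rw [← hab]; abel
        rw [h4]; abel
      rw [this]
      exact K.neg_mem h3)
    rw [← hs_succ] at h2
    have h5 : (n + 1 + 1) * A.card = (n + 1) * A.card + A.card := by ring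
    have h6 : (n + 1) * (fs K).card = n * (fs K).card + (fs K).card := by ring
    omega

/-- Critical sets relative to `K`. -/
def Crit (n : ℕ) (K : AddSubgroup G) (A : Finset G) : Prop :=
  (hs A (n + 1)).card + n * (fs K).card = (n + 1) * A.card

end Pool.Agent.Helper730.Rel
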