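import Mathlib
import Pool.Agent.Helper730.Rel

set_option autoImplicit false
set_option linter.unusedSectionVars false

open scoped Pointwise
open Finset

namespace Pool.Agent.Helper730.Rel

open Pool.Agent.Helper730.Kneser
open Pool.Agent.Helper730.Atoms
open Pool.Agent.Helper730.Signed

variable {G : Type*} [AddCommGroup G] [Fintype G] [DecidableEq G]

/-- All parts of `A` in cosets of `H` other than the one of `x` are full. -/
def FullOut (A : Finset G) (H : AddSubgroup G) (x : G) : Prop :=
  ∀ y ∈ A, y - x ∉ H → ∀ g ∈ H, y + g ∈ A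

theorem count_split (S S0 : Finset G) (H : AddSubgroup G) (c : G)
    (h1 : ∀ v ∈ S, v - c ∉ H → ∀ g ∈ H, v + g ∈ S)
    (h2 : ∀ v ∈ S, v - c ∈ H → v ∈ S0)
    (h3 : S0 ⊆ S) (h4 : ∀ v ∈ S0, v - c ∈ H) (h5 : S0.Nonempty) :
    S.card + (fs H).card = (S + fs H).card + S0.card := by
  have e1 : S = ((S + fs H) \ tr (fs H) c) ∪ S0 := by
    ext v
    rw [Finset.mem_union, Finset.mem_sdiff, mem_add_fs, mem_tr, mem_fs]
    constructor
    · intro hv
      by_cases hc : v - c ∈ H
      · exact Or.inr (h2 v hv hc)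
      · left
        exact ⟨⟨v, hv, by rw [sub_self]; exact H.zero_mem⟩, hc⟩
    · rintro (⟨⟨a, ha, hav⟩, hc⟩ | hv)
      · have hac : a - c ∉ H := by
          intro h
          apply hc
          have : v - c = (v - a) + (a - c) := by abel
          rw [this]; exact H.add_mem hav h
        have := h1 a ha hac (v - a) hav
        have h6 : a + (v - a) = v := by abel
        rwa [h6] at this
      · exact h3 hv
  have hd : Disjoint ((S + fs H) \ tr (fs H) c) S0 := by
    rw [Finset.disjoint_left]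
    intro v hv hv0
    rw [Finset.mem_sdiff, mem_tr, mem_fs] at hv
    exact hv.2 (h4 v hv0)
  have hsub : tr (fs H) c ⊆ S + fs H := by
    intro v hv
    rw [mem_tr, mem_fs] at hv
    rw [mem_add_fs]
    obtain ⟨s, hs⟩ := h5
    refine ⟨s, h3 hs, ?_⟩
    have : v - s = (v - c) - (s - c) := by abel
    rw [this]
    exact H.sub_mem hv (h4 s hs)
  have hc := congrArg Finset.card e1
  rw [Finset.card_union_of_disjoint hd, Finset.card_sdiff_of_subset hsub, card_tr] at hc
  have hle := Finset.card_le_card hsub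
  rw [card_tr] at hle
  omega

theorem cs_self_mem {A : Finset G} {H : AddSubgroup G} {x : G} (hx : x ∈ A) : x ∈ cs A H x :=
  mem_cs.mpr ⟨hx, by rw [sub_self]; exact H.zero_mem⟩

theorem cs_sub (A : Finset G) (H : AddSubgroup G) (x : G) : cs A H x ⊆ A :=
  fun _ hu => (mem_cs.mp hu).1

theorem cs_per {A : Finset G} {K H : AddSubgroup G} (hKA : K ≤ stab A) (hKH : K ≤ H) (x : G) :
    K ≤ stab (cs A H x) := by
  intro g hg
  apply mem_stab_of_forall
  intro y hy
  rw [mem_cs] at hy ⊢
  refine ⟨stab_add (hKA hg) hy.1, ?_⟩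
  have : y + g - x = (y - x) + g := by abel
  rw [this]
  exact H.add_mem hy.2 (hKH hg)

theorem UU_add_fs {A : Finset G} {H : AddSubgroup G} {k : ℕ} {x : G}
    (h : UU A H (k + 2) x) : UU (A + fs H) H (k + 2) x := by
  intro y hy w hw hyw
  have e : k + 2 - 1 = k + 1 := by omega
  rw [e, hs_add_fs] at hw
  rw [mem_add_fs] at hy hw
  obtain ⟨a, ha, hya⟩ := hy
  obtain ⟨v, hv, hwv⟩ := hw
  have h1 : a - x ∈ H := by
    apply h a ha v
    · rw [e]; exact hv
    · have : a + v - (k + 2) • x = (y + w - (k + 2) • x) - (y - a) - (w - v) := by abel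
      rw [this]
      exact H.sub_mem (H.sub_mem hyw hya) hwv
  have : y - x = (y - a) + (a - x) := by abel
  rw [this]
  exact H.add_mem hya h1

theorem UU_mono {A B : Finset G} {K : AddSubgroup G} {h : ℕ} {x : G} (hAB : A ⊆ B)
    (hu : UU B K h x) : UU A K h x :=
  fun y hy w hw hyw => hu y (hAB hy) w (hs_mono hAB _ hw) hyw

theorem out_full {A : Finset G} {H : AddSubgroup G} {x : G} (hF : FullOut A H x) (n : ℕ) :
    ∀ v ∈ hs A (n + 1), v - (n + 1) • x ∉ H → ∀ g ∈ H, v + g ∈ hs A (n + 1) := by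
  induction n with
  | zero =>
    intro v hv hvx g hg
    rw [zero_add, hs_one] at hv ⊢
    rw [zero_add, one_nsmul] at hvx
    exact hF v hv hvx g hg
  | succ n ih =>
    intro v hv hvx g hg
    rw [hs_succ] at hv
    obtain ⟨v', hv', y, hy, rfl⟩ := Finset.mem_add.mp hv
    rw [hs_succ]
    by_cases hyx : y - x ∈ H
    · have h1 : v' - (n + 1) • x ∉ H := by
        intro hc
        apply hvx
        have : v' + y - (n + 1 + 1) • x = (v' - (n + 1) • x) + (y - x) := by
          rw [succ_nsmul x (n + 1)]; abel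
        rw [this]
        exact H.add_mem hc hyx
      have := ih v' hv' h1 g hg
      have e : v' + y + g = (v' + g) + y := by abel
      rw [e]
      exact Finset.add_mem_add this hy
    · rw [add_assoc]
      exact Finset.add_mem_add hv' (hF y hy hyx g hg)

theorem fullOut_card {A : Finset G} {H : AddSubgroup G} {x : G} (hx : x ∈ A)
    (hF : FullOut A H x) : A.card + (fs H).card = (A + fs H).card + (cs A H x).card := by
  apply count_split A (cs A H x) H x hF
  · intro v hv hvx
    exact mem_cs.mpr ⟨hv, hvx⟩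
  · exact cs_sub A H x
  · intro v hv
    exact (mem_cs.mp hv).2
  · exact ⟨x, cs_self_mem hx⟩

/-- Reduction of a critical set with a uniquely represented corner along a subgroup. -/
theorem reduction {A : Finset G} {K H : AddSubgroup G} {x : G} {k : ℕ} (hKH : K ≤ H)
    (hx : x ∈ A) (hF : FullOut A H x) (hUU : UU A K (k + 2) x) (hC : Crit (k + 1) K A) :
    UU A H (k + 2) x ∧ UU (cs A H x) K (k + 2) x ∧ UU (A + fs H) H (k + 2) x ∧
      Crit (k + 1) K (cs A H x) ∧ Crit (k + 1) H (A + fs H) := by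
  have hU1 : UU A H (k + 2) x := by
    intro y hy w hw hyw
    by_contra hyx
    have h1 := hF y hy hyx ((k + 2) • x - (y + w)) (by
      have := H.neg_mem hyw
      rwa [neg_sub] at this)
    have h2 := hUU _ h1 w hw (by
      have : y + ((k + 2) • x - (y + w)) + w - (k + 2) • x = 0 := by abel
      rw [this]; exact K.zero_mem)
    apply hyx
    have h3 : y - x = (y + ((k + 2) • x - (y + w)) - x) + (y + w - (k + 2) • x) := by abel
    rw [h3]
    exact H.add_mem (hKH h2) hyw
  have hU2 : UU (cs A H x) K (k + 2) x := UU_mono (cs_sub A H x) hUU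
  have hU3 := UU_add_fs hU1
  have hcnt : (hs A (k + 2)).card + (fs H).card
      = (hs A (k + 2) + fs H).card + (hs (cs A H x) (k + 2)).card := by
    apply count_split _ _ H ((k + 2) • x)
    · exact out_full hF (k + 1)
    · exact UU_all hx hU1
    · exact hs_mono (cs_sub A H x) _
    · exact hs_cs_sub A H x (k + 2)
    · exact hs_nonempty ⟨x, cs_self_mem hx⟩ _
  have h1 := hU (n := k + 1) (cs_self_mem hx) hU2
  have h2 := hU (n := k + 1) (subset_add_fs A H hx) hU3
  rw [hs_add_fs] at h2
  have h3 := fullOut_card hx hF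
  unfold Crit at hC ⊢
  rw [hs_add_fs]
  have e1 : k + 1 + 1 = k + 2 := rfl
  rw [e1] at *
  have h4 : (k + 2) * (A.card + (fs H).card)
      = (k + 2) * ((A + fs H).card + (cs A H x).card) := by rw [h3]
  rw [Nat.mul_add, Nat.mul_add] at h4
  have h5 : (k + 2) * (fs H).card = (k + 1) * (fs H).card + (fs H).card := by ring
  refine ⟨hU1, hU2, hU3, ?_, ?_⟩ <;> omega

theorem alt' {A : Finset G} {H : AddSubgroup G}
    (hH : ∀ x ∈ A, ∀ y ∈ A, x - y ∉ H →
      (fs H).card + 1 ≤ (cs A H x).card + (cs A H y).card)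
    {y : G} (hy : y ∈ A) (hy2 : (fs H).card + 1 ≤ 2 * (cs A H y).card) (k : ℕ) :
    ∀ w ∈ hs A (k + 1), ∀ g ∈ H, y + w + g ∈ hs A (k + 2) := by
  intro w hw g hg
  rw [hs_succ] at hw
  obtain ⟨w', hw', u, hu, rfl⟩ := Finset.mem_add.mp hw
  have h1 : y + u + g ∈ A + A := by
    apply fullpair A H y u g hg
    by_cases hyu : y - u ∈ H
    · rw [← cs_eq_of_mem hyu]; omega
    · exact hH y hy u hu hyu
  have e : y + (w' + u) + g = w' + (y + u + g) := by abel
  rw [e, hs_add A k 2, hs_two]
  exact Finset.add_mem_add hw' h1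

/-- Structure of a nearly periodic critical set with minimal stabiliser. -/
theorem quasi {A : Finset G} {K H : AddSubgroup G} {k : ℕ} (hKA : K ≤ stab A) (hKH : K ≤ H)
    (hne : K ≠ H) (hnear : (A + fs H).card + (fs K).card ≤ A.card + (fs H).card)
    (hst : stab (hs A (k + 2)) = K) (hC : Crit (k + 1) K A) :
    ∃ x0 ∈ A, FullOut A H x0 ∧ UU A H (k + 2) x0 ∧ Crit (k + 1) K (cs A H x0) ∧
      stab (hs (cs A H x0) (k + 2)) = K ∧ Crit (k + 1) H (A + fs H) := by
  have hKpos := fs_card_pos K
  have hpair : ∀ x ∈ A, ∀ y ∈ A, x - y ∉ H →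
      (fs H).card + (fs K).card ≤ (cs A H x).card + (cs A H y).card := by
    intro x hx y hy hxy
    have := holes_two (H := H) hx hy hxy
    omega
  have hpair' : ∀ x ∈ A, ∀ y ∈ A, x - y ∉ H →
      (fs H).card + 1 ≤ (cs A H x).card + (cs A H y).card := by
    intro x hx y hy hxy
    have := hpair x hx y hy hxy
    omega
  obtain ⟨z, hz, g, hg, hzg⟩ : ∃ z ∈ hs A (k + 2), ∃ g ∈ H, z + g ∉ hs A (k + 2) := by
    by_contra hcon
    push Not at hcon
    apply hne
    apply le_antisymm hKH
    rw [← hst]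
    intro g hg
    exact mem_stab_of_forall (fun z hz => hcon z hz g hg)
  obtain ⟨x0, hx0, hz0, hsmall⟩ : ∃ x0 ∈ A, z ∈ hs (cs A H x0) (k + 2) ∧
      2 * (cs A H x0).card ≤ (fs H).card := by
    rcases alt A H hpair' (k + 1) z hz with h | ⟨x0, hx0, h1, h2⟩
    · exact absurd (h g hg) hzg
    · exact ⟨x0, hx0, h1, h2 (by omega)⟩
  have hbig : ∀ y ∈ A, y - x0 ∉ H → (fs H).card + 1 ≤ 2 * (cs A H y).card := by
    intro y hy hyx
    have := hpair y hy x0 hx0 hyx
    omega
  have hU1 : UU A H (k + 2) x0 := by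
    intro y hy w hw hyw
    by_contra hyx
    have e : k + 2 - 1 = k + 1 := by omega
    rw [e] at hw
    apply hzg
    have h1 := hs_cs_sub A H x0 (k + 2) z hz0
    have := alt' hpair' hy (hbig y hy hyx) k w hw (z + g - (y + w)) (by
      have e2 : z + g - (y + w) = (z - (k + 2) • x0) + g - (y + w - (k + 2) • x0) := by abel
      rw [e2]
      exact H.sub_mem (H.add_mem h1 hg) hyw)
    have e3 : y + w + (z + g - (y + w)) = z + g := by abel
    rwa [e3] at this
  have hout : ∀ v ∈ hs A (k + 2), v - (k + 2) • x0 ∉ H → ∀ g ∈ H, v + g ∈ hs A (k + 2) := by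
    intro v hv hvx
    rcases alt A H hpair' (k + 1) v hv with h | ⟨x1, hx1, h1, h2⟩
    · exact h
    · exfalso
      have h3 := h2 (by omega)
      have h4 : x1 - x0 ∈ H := by
        by_contra hc
        have := hbig x1 hx1 hc
        omega
      apply hvx
      rw [cs_eq_of_mem h4] at h1
      exact hs_cs_sub A H x0 (k + 2) v h1
  have hcnt : (hs A (k + 2)).card + (fs H).card
      = (hs A (k + 2) + fs H).card + (hs (cs A H x0) (k + 2)).card := by
    apply count_split _ _ H ((k + 2) • x0)
    · exact hout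
    · exact UU_all hx0 hU1
    · exact hs_mono (cs_sub A H x0) _
    · exact hs_cs_sub A H x0 (k + 2)
    · exact hs_nonempty ⟨x0, cs_self_mem hx0⟩ _
  have hst0 : stab (hs (cs A H x0) (k + 2)) = K := by
    apply le_antisymm
    · intro g hg
      have hgH : g ∈ H := by
        have h1 := hs_cs_sub A H x0 (k + 2) _ (stab_add hg hz0)
        have h2 := hs_cs_sub A H x0 (k + 2) _ hz0
        have : g = (z + g - (k + 2) • x0) - (z - (k + 2) • x0) := by abel
        rw [this]
        exact H.sub_mem h1 h2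
      rw [← hst]
      apply mem_stab_of_forall
      intro v hv
      by_cases hvx : v - (k + 2) • x0 ∈ H
      · have h1 := UU_all (n := k + 1) hx0 hU1 v hv hvx
        exact hs_mono (cs_sub A H x0) _ (stab_add hg h1)
      · exact hout v hv hvx g hgH
    · exact hs_per (cs_per hKA hKH x0) (k + 1)
  have h1 := hs_lower_rel (A := cs A H x0) ⟨x0, cs_self_mem hx0⟩ K (k + 1) (le_of_eq hst0)
  have h2 := hU (n := k + 1) (subset_add_fs A H hx0) (UU_add_fs hU1)
  rw [hs_add_fs] at h2
  have h3 := holes_one (H := H) hx0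
  unfold Crit at hC ⊢
  rw [hs_add_fs]
  have e1 : k + 1 + 1 = k + 2 := rfl
  rw [e1] at *
  have h4 : (k + 2) * ((fs H).card + A.card)
      ≤ (k + 2) * ((A + fs H).card + (cs A H x0).card) := Nat.mul_le_mul_left _ h3
  have h6 : (k + 2) * ((A + fs H).card + (cs A H x0).card)
      ≤ (k + 2) * ((fs H).card + A.card) := by
    have h5 : (k + 2) * (fs H).card = (k + 1) * (fs H).card + (fs H).card := by ring
    rw [Nat.mul_add, Nat.mul_add]
    omega
  have h7 := Nat.le_of_mul_le_mul_left h6 (by omega)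
  have hfull : FullOut A H x0 := by
    intro y hy hyx g hg
    have h8 := holes_two (H := H) hy hx0 hyx
    have h9 : (tr (fs H) y).card ≤ (cs A H y).card := by rw [card_tr]; omega
    have h10 : cs A H y = tr (fs H) y :=
      Finset.eq_of_subset_of_card_le (fun u hu => by
        rw [mem_tr, mem_fs]; exact (mem_cs.mp hu).2) h9
    have h11 : y + g ∈ tr (fs H) y := by
      rw [mem_tr, mem_fs]
      have : y + g - y = g := by abel
      rwa [this]
    rw [← h10] at h11
    exact (mem_cs.mp h11).1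
  have h5 : (k + 2) * (fs H).card = (k + 1) * (fs H).card + (fs H).card := by ring
  rw [Nat.mul_add, Nat.mul_add] at h4 h6
  refine ⟨x0, hx0, hfull, hU1, ?_, hst0, ?_⟩ <;> omega

end Pool.Agent.Helper730.Rel
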