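import Mathlib
import Pool.Agent.Helper730.Quasi
import Pool.Agent.Helper730.Lex

set_option autoImplicit false
set_option linter.unusedSectionVars false

open scoped Pointwise
open Finset

namespace Pool.Agent.Helper730.Rel

open Pool.Agent.Helper730.Kneser
open Pool.Agent.Helper730.Atoms
open Pool.Agent.Helper730.Signed
open Pool.Agent.Helper730.Lex

section absolute

variable {G : Type*} [AddCommGroup G] [Fintype G] [DecidableEq G]

theorem crit_down {X : Finset G} (hX : X.Nonempty) {K : AddSubgroup G} {n : ℕ}
    (hst : stab (hs X (n + 2)) ≤ K) (hC : Crit (n + 1) K X) : Crit n K X := by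
  have h1 : stab (hs X (n + 1)) ≤ K := (hs_stab_mono X (by omega)).trans hst
  have h2 := hs_lower_rel hX K n h1
  have h3 := kneser (hs X (n + 1)) X (hs_nonempty hX _) hX
  rw [← hs_succ] at h3
  have h4 := fs_card_mono hst
  unfold Crit at hC ⊢
  have e1 : n + 1 + 1 = n + 2 := rfl
  rw [e1] at *
  have h5 : (n + 2) * X.card = (n + 1) * X.card + X.card := by ring
  have h6 : (n + 1) * (fs K).card = n * (fs K).card + (fs K).card := by ring
  omega

theorem fs_bot_card : (fs (⊥ : AddSubgroup G)).card = 1 := by
  rw [Finset.card_eq_one]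
  refine ⟨0, ?_⟩
  ext x
  simp [mem_fs]

/-- Hamidoune's theorem inside the subgroup generated by the differences. -/
theorem crit_sub (X F : Finset G) (f0 : G)
    (hFd : ∀ f ∈ F, f - f0 ∈ dsub X) (hX : 2 ≤ X.card) (hF : 2 ≤ F.card)
    (hv : (F + X).card + 2 ≤ (fs (dsub X)).card)
    (hc : (F + X).card + 1 ≤ F.card + X.card) :
    (∃ g : G, g ≠ 0 ∧ g ∈ dsub X ∧ (X ∪ tr X g).card ≤ X.card + 1) ∨
      ∃ H : AddSubgroup G, H ≠ ⊥ ∧ H ≤ dsub X ∧ (X + fs H).card + 1 ≤ X.card + (fs H).card ∧
        ∃ x ∈ X, ∃ y ∈ X, x - y ∉ H := by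
  classical
  obtain ⟨x0, hx0⟩ : X.Nonempty := by rw [← Finset.card_pos]; omega
  set G1 := dsub X with hG1
  set X1 : Finset G1 := Finset.univ.filter (fun g => (g : G) + x0 ∈ X) with hX1
  set F1 : Finset G1 := Finset.univ.filter (fun g => (g : G) + f0 ∈ F) with hF1
  have hmemX1 : ∀ g : G1, g ∈ X1 ↔ (g : G) + x0 ∈ X := by
    intro g; rw [hX1, Finset.mem_filter]; simp
  have hmemF1 : ∀ g : G1, g ∈ F1 ↔ (g : G) + f0 ∈ F := by
    intro g; rw [hF1, Finset.mem_filter]; simp
  have hinj : ∀ a : G, Function.Injective (fun g : G1 => (g : G) + a) := by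
    intro a g g' h
    exact Subtype.ext (add_right_cancel h)
  have himg : ∀ B1 : Finset G1, ∀ B : Finset G, ∀ b : G, B = B1.image (fun g : G1 => (g : G) + b) →
      X + B = (X1 + B1).image (fun g : G1 => (g : G) + (x0 + b)) := by
    intro B1 B b hB
    ext y
    rw [Finset.mem_add, Finset.mem_image]
    constructor
    · rintro ⟨x, hx, v, hv, rfl⟩
      rw [hB, Finset.mem_image] at hv
      obtain ⟨v1, hv1, rfl⟩ := hv
      refine ⟨⟨x - x0, sub_mem_dsub hx hx0⟩ + v1, ?_, ?_⟩
      · apply Finset.add_mem_add _ hv1
        rw [hmemX1]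
        simpa using hx
      · simp only [AddSubgroup.coe_add]
        abel
    · rintro ⟨w, hw, rfl⟩
      obtain ⟨u, hu, v, hv, rfl⟩ := Finset.mem_add.mp hw
      rw [hmemX1] at hu
      refine ⟨(u : G) + x0, hu, (v : G) + b, ?_, ?_⟩
      · rw [hB]
        exact Finset.mem_image_of_mem _ hv
      · simp only [AddSubgroup.coe_add]
        abel
  have hXimg : X = X1.image (fun g : G1 => (g : G) + x0) := by
    ext y
    rw [Finset.mem_image]
    constructor
    · intro hy
      refine ⟨⟨y - x0, sub_mem_dsub hy hx0⟩, ?_, ?_⟩
      · rw [hmemX1]; simpa using hy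
      · simp
    · rintro ⟨g, hg, rfl⟩
      exact (hmemX1 g).mp hg
  have hFimg : F = F1.image (fun g : G1 => (g : G) + f0) := by
    ext y
    rw [Finset.mem_image]
    constructor
    · intro hy
      refine ⟨⟨y - f0, hFd y hy⟩, ?_, ?_⟩
      · rw [hmemF1]; simpa using hy
      · simp
    · rintro ⟨g, hg, rfl⟩
      exact (hmemF1 g).mp hg
  have hcX : X1.card = X.card := by
    have := congrArg Finset.card hXimg
    rw [Finset.card_image_of_injective _ (hinj x0)] at this
    exact this.symm
  have hcF : F1.card = F.card := by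
    have := congrArg Finset.card hFimg
    rw [Finset.card_image_of_injective _ (hinj f0)] at this
    exact this.symm
  have hXF := himg F1 F f0 hFimg
  have hcXF : (F1 + X1).card = (F + X).card := by
    have := congrArg Finset.card hXF
    rw [Finset.card_image_of_injective _ (hinj _), add_comm X F, add_comm X1 F1] at this
    exact this.symm
  have hG1c : (fs G1).card = Fintype.card G1 := by
    rw [fs_card_eq, Nat.card_eq_fintype_card]
  have hval : Valid X1 F1 := ⟨by omega, by omega⟩
  rcases crit X1 (by omega) F1 hval (by omega) with ⟨g, hg, hg2⟩ | ⟨H1, hbot, htop, hH1⟩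
  · left
    refine ⟨(g : G), fun h => hg (Subtype.ext h), g.2, ?_⟩
    have e1 : X ∪ tr X (g : G) = (X1 ∪ tr X1 g).image (fun g : G1 => (g : G) + x0) := by
      rw [Finset.image_union, ← hXimg]
      congr 1
      ext y
      rw [mem_tr, Finset.mem_image]
      constructor
      · intro hy
        rw [hXimg, Finset.mem_image] at hy
        obtain ⟨u, hu, huy⟩ := hy
        refine ⟨u + g, ?_, ?_⟩
        · rw [mem_tr, add_sub_cancel_right]; exact hu
        · simp only [AddSubgroup.coe_add]
          have : y = (u : G) + x0 + g := by rw [huy]; abel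
          rw [this]; abel
      · rintro ⟨u, hu, rfl⟩
        rw [mem_tr, hmemX1] at hu
        have : (u : G) + x0 - g = ((u - g : G1) : G) + x0 := by
          simp only [AddSubgroup.coe_sub]; abel
        rw [this]; exact hu
    rw [e1, Finset.card_image_of_injective _ (hinj x0)]
    omega
  · right
    set H := H1.map G1.subtype with hH
    have hfs : fs H = (fs H1).image (fun g : G1 => (g : G) + 0) := by
      ext y
      rw [mem_fs, Finset.mem_image, hH, AddSubgroup.mem_map]
      constructor
      · rintro ⟨g, hg, rfl⟩
        exact ⟨g, mem_fs.mpr hg, by simp⟩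
      · rintro ⟨g, hg, rfl⟩
        exact ⟨g, mem_fs.mp hg, by simp⟩
    have hcH : (fs H).card = (fs H1).card := by
      rw [hfs, Finset.card_image_of_injective _ (hinj 0)]
    have hcXH : (X + fs H).card = (X1 + fs H1).card := by
      rw [himg (fs H1) (fs H) 0 hfs, Finset.card_image_of_injective _ (hinj _)]
    refine ⟨H, ?_, ?_, by omega, ?_⟩
    · intro hb
      apply hbot
      rw [eq_bot_iff]
      intro g hg
      have : (g : G) ∈ H := by
        rw [hH, AddSubgroup.mem_map]
        exact ⟨g, hg, rfl⟩
      rw [hb, AddSubgroup.mem_bot] at this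
      rw [AddSubgroup.mem_bot]
      exact Subtype.ext this
    · intro y hy
      rw [hH, AddSubgroup.mem_map] at hy
      obtain ⟨g, _, rfl⟩ := hy
      exact g.2
    · by_contra hcon
      push Not at hcon
      apply htop
      rw [eq_top_iff]
      intro g _
      have h1 : G1 ≤ H := dsub_le hcon
      have h2 := h1 g.2
      rw [hH, AddSubgroup.mem_map] at h2
      obtain ⟨g', hg', hgg⟩ := h2
      have : g' = g := Subtype.ext hgg
      rwa [← this]

/-- A set with one exit in the direction `g`, inside one coset of the group generated by `g`,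
is an arithmetic progression. -/
theorem ap_of_string (X : Finset G) (g : G)
    (h : (X ∪ tr X g).card ≤ X.card + 1) (hg : g ∉ stab X)
    (hcos : ∀ x ∈ X, ∀ y ∈ X, x - y ∈ AddSubgroup.zmultiples g) :
    ∃ (a : G) (l : ℕ), X = (Finset.range (l + 1)).image (fun j => a + j • g) ∧
      X.card = l + 1 := by
  classical
  -- the start: the unique element without predecessor
  have hcard := Finset.card_union_add_card_inter X (tr X g)
  rw [card_tr] at hcard
  have hstart : ∃ a ∈ X, a - g ∉ X := by
    by_contra hcon
    push Not at hcon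
    apply hg
    have : -g ∈ stab X := mem_stab_of_forall (fun x hx => by
      rw [← sub_eq_add_neg]; exact hcon x hx)
    have := (stab X).neg_mem this
    rwa [neg_neg] at this
  obtain ⟨a, ha, hag⟩ := hstart
  have huniq : ∀ y ∈ X, y - g ∉ X → y = a := by
    intro y hy hyg
    by_contra hne
    have hsub : X ∩ tr X g ⊆ (X.erase a).erase y := by
      intro u hu
      rw [Finset.mem_inter, mem_tr] at hu
      rw [Finset.mem_erase, Finset.mem_erase]
      refine ⟨?_, ?_, hu.1⟩
      · rintro rfl; exact hyg hu.2
      · rintro rfl; exact hag hu.2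
    have h1 := Finset.card_le_card hsub
    rw [Finset.card_erase_of_mem (Finset.mem_erase.mpr ⟨hne, hy⟩),
      Finset.card_erase_of_mem ha] at h1
    have h2 : 2 ≤ X.card := by
      have : ({y, a} : Finset G) ⊆ X := by
        intro u hu
        rw [Finset.mem_insert, Finset.mem_singleton] at hu
        rcases hu with rfl | rfl <;> assumption
      have := Finset.card_le_card this
      rwa [Finset.card_pair hne] at this
    omega
  -- first exit after the start
  have hexit : ∃ n : ℕ, a + n • g ∉ X := by
    by_contra hcon
    push Not at hcon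
    apply hag
    have hpos : 0 < addOrderOf g := addOrderOf_pos g
    have := hcon (addOrderOf g - 1)
    have e : a + (addOrderOf g - 1) • g = a - g := by
      have h1 : (addOrderOf g - 1) • g + g = 0 := by
        rw [← succ_nsmul, Nat.sub_add_cancel hpos, addOrderOf_nsmul_eq_zero]
      have h2 : (addOrderOf g - 1) • g = -g := eq_neg_of_add_eq_zero_left h1
      rw [h2]; abel
    rwa [e] at this
  have hex' : ∃ n : ℕ, a + (n + 1) • g ∉ X := by
    obtain ⟨n, hn⟩ := hexit
    rcases n with _ | n
    · exfalso; apply hn; simpa using ha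
    · exact ⟨n, hn⟩
  set l := Nat.find hex' with hl
  have hl1 : a + (l + 1) • g ∉ X := Nat.find_spec hex'
  have hl2 : ∀ j ≤ l, a + j • g ∈ X := by
    intro j hj
    rcases j with _ | j
    · simpa using ha
    · by_contra hc
      have := Nat.find_min' hex' hc
      omega
  have hinj : ∀ i ≤ l, ∀ j ≤ l, a + i • g = a + j • g → i < j → False := by
    intro i hi j hj hij hlt
    apply hl1
    have h1 : (j - i) • g = 0 := by
      have h2 : (j - i) • g + i • g = j • g := by
        rw [← add_nsmul]; congr 1; omega
      have h3 : i • g = j • g := add_left_cancel hij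
      rw [← h3] at h2
      exact add_eq_right.mp h2
    have h4 : a + (l + 1) • g = a + (l + 1 - (j - i)) • g := by
      congr 1
      have : l + 1 = (l + 1 - (j - i)) + (j - i) := by omega
      conv_lhs => rw [this]
      rw [add_nsmul, h1, add_zero]
    rw [h4]
    exact hl2 _ (by omega)
  have hinj' : Set.InjOn (fun j : ℕ => a + j • g) (Finset.range (l + 1) : Finset ℕ) := by
    intro i hi j hj hij
    rw [Finset.mem_coe, Finset.mem_range] at hi hj
    rcases lt_trichotomy i j with h1 | h1 | h1
    · exact (hinj i (by omega) j (by omega) hij h1).elim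
    · exact h1
    · exact (hinj j (by omega) i (by omega) hij.symm h1).elim
  have heq : X = (Finset.range (l + 1)).image (fun j => a + j • g) := by
    ext y
    rw [Finset.mem_image]
    constructor
    · intro hy
      have h1 := hcos y hy a ha
      have hfin : y - a ∈ AddSubmonoid.multiples g := by
        rw [mem_multiples_iff_mem_zmultiples]; exact h1
      have hex : ∃ t : ℕ, y = a + t • g := by
        obtain ⟨t, ht⟩ := hfin
        refine ⟨t, ?_⟩
        simp only at ht
        rw [ht]; abel
      set t := Nat.find hex with ht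
      have ht1 : y = a + t • g := Nat.find_spec hex
      have hdown : ∀ s ≤ t, y - s • g ∈ X := by
        intro s hs
        induction s with
        | zero => simpa using hy
        | succ s ih =>
          have h2 := ih (by omega)
          by_contra hc
          have h3 : y - s • g = a := by
            apply huniq _ h2
            have : y - s • g - g = y - (s + 1) • g := by rw [succ_nsmul]; abel
            rwa [this]
          have h4 : y = a + s • g := by rw [← h3]; abel
          have := Nat.find_min' hex h4
          omega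
      refine ⟨t, ?_, ht1.symm⟩
      rw [Finset.mem_range]
      by_contra hc
      apply hl1
      have := hdown (t - (l + 1)) (by omega)
      have e : y - (t - (l + 1)) • g = a + (l + 1) • g := by
        rw [ht1]
        have h5 : t • g = (l + 1) • g + (t - (l + 1)) • g := by
          rw [← add_nsmul]; congr 1; omega
        rw [h5]; abel
      rwa [e] at this
    · rintro ⟨j, hj, rfl⟩
      rw [Finset.mem_range] at hj
      exact hl2 j (by omega)
  refine ⟨a, l, heq, ?_⟩
  have := congrArg Finset.card heq
  rw [Finset.card_image_of_injOn hinj', Finset.card_range] at this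
  exact this

theorem sub_mem_dsub_hs {X : Finset G} {x0 : G} (hx0 : x0 ∈ X) (n : ℕ) :
    ∀ w ∈ hs X n, w - n • x0 ∈ dsub X := by
  induction n with
  | zero =>
    intro w hw
    rw [hs_zero, Finset.mem_singleton] at hw
    rw [hw]; simp
  | succ n ih =>
    intro w hw
    rw [hs_succ] at hw
    obtain ⟨a, ha, b, hb, rfl⟩ := Finset.mem_add.mp hw
    have h1 := ih a ha
    have h2 := sub_mem_dsub hb hx0
    have : a + b - (n + 1) • x0 = (a - n • x0) + (b - x0) := by
      rw [succ_nsmul]; abel
    rw [this]
    exact (dsub X).add_mem h1 h2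

/-- Structure of critical sets with trivial stabiliser. -/
theorem struct_abs (X : Finset G) (k : ℕ) (hX : 2 ≤ X.card)
    (hst : stab (hs X (k + 2)) = ⊥) (hC : Crit (k + 1) ⊥ X)
    (h2 : k = 0 → 2 * X.card ≠ (fs (dsub X)).card) :
    (∃ (a g : G) (l : ℕ), X = (Finset.range (l + 1)).image (fun j => a + j • g) ∧
      X.card = l + 1) ∨
    ∃ H : AddSubgroup G, H ≠ ⊥ ∧ H ≤ dsub X ∧ (X + fs H).card + 1 ≤ X.card + (fs H).card ∧
      ∃ x ∈ X, ∃ y ∈ X, x - y ∉ H := by
  classical
  have hXne : X.Nonempty := by rw [← Finset.card_pos]; omega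
  obtain ⟨x0, hx0⟩ := hXne
  have hXne : X.Nonempty := ⟨x0, hx0⟩
  have hb1 := fs_bot_card (G := G)
  have hlt : (hs X (k + 2)).card < (fs (dsub X)).card := by
    have hsub : hs X (k + 2) ⊆ tr (fs (dsub X)) ((k + 2) • x0) := by
      intro w hw
      rw [mem_tr, mem_fs]
      exact sub_mem_dsub_hs hx0 _ w hw
    have hle := Finset.card_le_card hsub
    rw [card_tr] at hle
    rcases Nat.lt_or_ge (hs X (k + 2)).card (fs (dsub X)).card with h | h
    · exact h
    · exfalso
      have heq := Finset.eq_of_subset_of_card_le hsub (by rw [card_tr]; exact h)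
      have hle2 : dsub X ≤ stab (hs X (k + 2)) := by
        intro g hg
        apply mem_stab_of_forall
        intro x hx
        rw [heq, mem_tr, mem_fs] at hx ⊢
        have : x + g - (k + 2) • x0 = (x - (k + 2) • x0) + g := by abel
        rw [this]
        exact (dsub X).add_mem hx hg
      rw [hst] at hle2
      obtain ⟨u, hu, v, hv, huv⟩ := Finset.one_lt_card.mp (by omega : 1 < X.card)
      have := hle2 (sub_mem_dsub hu hv)
      rw [AddSubgroup.mem_bot, sub_eq_zero] at this
      exact huv this
  have hC1 : Crit k ⊥ X := crit_down hXne (le_of_eq hst) hC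
  have hst1 : stab (hs X (k + 1)) ≤ ⊥ := by rw [← hst]; exact hs_stab_mono X (by omega)
  -- the set F
  obtain ⟨F, f0, hFd, hF2, hFv, hFc⟩ : ∃ (F : Finset G) (f0 : G),
      (∀ f ∈ F, f - f0 ∈ dsub X) ∧ 2 ≤ F.card ∧ (F + X).card + 2 ≤ (fs (dsub X)).card ∧
      (F + X).card + 1 ≤ F.card + X.card := by
    rcases k with _ | k
    · refine ⟨X, x0, fun f hf => sub_mem_dsub hf hx0, hX, ?_, ?_⟩
      · have := h2 rfl
        have hC' : (hs X 2).card + 1 * (fs (⊥ : AddSubgroup G)).card = 2 * X.card := hC
        have hlt' : (hs X 2).card < (fs (dsub X)).card := hlt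
        rw [← hs_two]
        omega
      · have hC' : (hs X 2).card + 1 * (fs (⊥ : AddSubgroup G)).card = 2 * X.card := hC
        rw [← hs_two]
        omega
    · refine ⟨hs X (k + 1), (k + 1) • x0, sub_mem_dsub_hs hx0 _, ?_, ?_, ?_⟩
      · exact hX.trans (by
          have : hs X (k + 1) = hs X k + X := hs_succ X k
          rw [this]
          exact Finset.card_le_card_add_left (hs_nonempty hXne k))
      · rw [← hs_succ]
        unfold Crit at hC hC1
        rw [hb1] at hC hC1
        have e1 : k + 1 + 1 = k + 2 := rfl
        have e2 : k + 1 + 1 + 1 = k + 3 := rfl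
        rw [e1] at *
        have e3 : k + 1 + 2 = k + 3 := by ring
        rw [e3] at *
        have h5 : (k + 3) * X.card = (k + 2) * X.card + X.card := by ring
        have e4 : k + 2 + 1 = k + 3 := rfl
        rw [e4] at hC
        omega
      · have hC2 : Crit k ⊥ X := crit_down hXne hst1 hC1
        rw [← hs_succ]
        unfold Crit at hC1 hC2
        rw [hb1] at hC1 hC2
        have h5 : (k + 1 + 1) * X.card = (k + 1) * X.card + X.card := by ring
        omega
  rcases crit_sub X F f0 hFd hX hF2 hFv hFc with ⟨g, hg0, hgd, hg⟩ | h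
  · by_cases hcos : ∀ x ∈ X, ∀ y ∈ X, x - y ∈ AddSubgroup.zmultiples g
    · left
      have hgs : g ∉ stab X := by
        intro hc
        have h3 : stab X ≤ stab (hs X (k + 2)) := by
          have := hs_stab_mono X (by omega : 1 ≤ k + 2)
          rwa [hs_one] at this
        have := h3 hc
        rw [hst, AddSubgroup.mem_bot] at this
        exact hg0 this
      obtain ⟨a, l, h4, h5⟩ := ap_of_string X g hg hgs hcos
      exact ⟨a, g, l, h4, h5⟩
    · right
      push Not at hcos
      refine ⟨AddSubgroup.zmultiples g, ?_, ?_, string_case X g hg, hcos⟩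
      · intro hb
        rw [AddSubgroup.zmultiples_eq_bot] at hb
        exact hg0 hb
      · rw [AddSubgroup.zmultiples_le]
        exact hgd
  · right; exact h

end absolute

end Pool.Agent.Helper730.Rel
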