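import Mathlib
import Pool.Agent.Helper730.Struct

set_option autoImplicit false
set_option linter.unusedSectionVars false

open scoped Pointwise
open Finset

namespace Pool.Agent.Helper730.Rel

open Pool.Agent.Helper730.Kneser
open Pool.Agent.Helper730.Atoms
open Pool.Agent.Helper730.Signed
open Pool.Agent.Helper730.Lex

variable {G : Type*} [AddCommGroup G] [Fintype G] [DecidableEq G]

theorem im_add (K : AddSubgroup G) [Fintype (G ⧸ K)] [DecidableEq (G ⧸ K)] (A B : Finset G) :
    im K (A + B) = im K A + im K B := by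
  ext q
  rw [mem_im, Finset.mem_add]
  constructor
  · rintro ⟨x, hx, rfl⟩
    obtain ⟨a, ha, b, hb, rfl⟩ := Finset.mem_add.mp hx
    exact ⟨_, mem_im.mpr ⟨a, ha, rfl⟩, _, mem_im.mpr ⟨b, hb, rfl⟩, rfl⟩
  · rintro ⟨u, hu, v, hv, rfl⟩
    obtain ⟨a, ha, rfl⟩ := mem_im.mp hu
    obtain ⟨b, hb, rfl⟩ := mem_im.mp hv
    exact ⟨a + b, Finset.add_mem_add ha hb, rfl⟩

theorem im_hs' (K : AddSubgroup G) [Fintype (G ⧸ K)] [DecidableEq (G ⧸ K)] (A : Finset G)
    (n : ℕ) : im K (hs A n) = hs (im K A) n := by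
  induction n with
  | zero =>
    rw [hs_zero, hs_zero]
    ext q
    rw [mem_im, Finset.mem_singleton]
    constructor
    · rintro ⟨x, hx, rfl⟩
      rw [Finset.mem_singleton] at hx
      rw [hx]; rfl
    · rintro rfl
      exact ⟨0, Finset.mem_singleton_self 0, rfl⟩
  | succ n ih => rw [hs_succ, hs_succ, im_add, ih]

theorem mk_mem_im {K : AddSubgroup G} {A : Finset G} (hK : K ≤ stab A) {y : G} :
    (QuotientAddGroup.mk y : G ⧸ K) ∈ im K A ↔ y ∈ A := by
  rw [mem_im]
  constructor
  · rintro ⟨x, hx, hxy⟩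
    have := QuotientAddGroup.eq.mp hxy
    have h2 := stab_add (hK this) hx
    have e : x + (-x + y) = y := by abel
    rwa [e] at h2
  · intro hy
    exact ⟨y, hy, rfl⟩

theorem stab_im {K : AddSubgroup G} [Fintype (G ⧸ K)] [DecidableEq (G ⧸ K)] {C : Finset G}
    (h : stab C = K) : stab (im K C) = ⊥ := by
  rw [eq_bot_iff]
  intro q hq
  obtain ⟨g, rfl⟩ := QuotientAddGroup.mk_surjective q
  rw [AddSubgroup.mem_bot]
  rw [QuotientAddGroup.eq_zero_iff]
  have : g ∈ stab C := by
    apply mem_stab_of_forall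
    intro x hx
    have h1 := stab_add hq (mem_im.mpr ⟨x, hx, rfl⟩)
    rw [← QuotientAddGroup.mk_add] at h1
    exact (mk_mem_im (le_of_eq h.symm)).mp h1
  rwa [h] at this

theorem im_fs_comap {K : AddSubgroup G} [Fintype (G ⧸ K)] [DecidableEq (G ⧸ K)]
    (H : AddSubgroup (G ⧸ K)) : im K (fs (H.comap (QuotientAddGroup.mk' K))) = fs H := by
  ext q
  rw [mem_im, mem_fs]
  constructor
  · rintro ⟨x, hx, rfl⟩
    rw [mem_fs, AddSubgroup.mem_comap] at hx
    exact hx
  · intro hq
    obtain ⟨g, rfl⟩ := QuotientAddGroup.mk_surjective q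
    exact ⟨g, by rw [mem_fs, AddSubgroup.mem_comap]; exact hq, rfl⟩

theorem le_comap_mk {K : AddSubgroup G} (H : AddSubgroup (G ⧸ K)) :
    K ≤ H.comap (QuotientAddGroup.mk' K) := by
  intro g hg
  rw [AddSubgroup.mem_comap]
  have : (QuotientAddGroup.mk' K) g = 0 := (QuotientAddGroup.eq_zero_iff g).mpr hg
  rw [this]
  exact H.zero_mem

theorem fs_comap_card {K : AddSubgroup G} [Fintype (G ⧸ K)] [DecidableEq (G ⧸ K)]
    (H : AddSubgroup (G ⧸ K)) :
    (fs (H.comap (QuotientAddGroup.mk' K))).card = (fs K).card * (fs H).card := by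
  rw [card_eq_im K _ (fs_per (le_comap_mk H)), im_fs_comap]

/-- Structure of critical sets whose sumset has stabiliser `K`. -/
theorem struct_rel {A : Finset G} {K L : AddSubgroup G} {k : ℕ} (hKL : K ≤ L)
    (hKA : K ≤ stab A) (hAL : ∀ x ∈ A, ∀ y ∈ A, x - y ∈ L) (hA2 : 2 * (fs K).card ≤ A.card)
    (hst : stab (hs A (k + 2)) = K) (hC : Crit (k + 1) K A)
    (h2 : k = 0 → ∀ M : AddSubgroup G, K ≤ M → M ≤ L → 2 * A.card ≠ (fs M).card) :
    (∃ (a d : G) (l : ℕ), (∀ y, y ∈ A ↔ ∃ j : ℕ, j ≤ l ∧ y - (a + j • d) ∈ K) ∧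
      A.card = (l + 1) * (fs K).card) ∨
    ∃ H : AddSubgroup G, K ≤ H ∧ K ≠ H ∧ H ≤ L ∧
      (A + fs H).card + (fs K).card ≤ A.card + (fs H).card ∧
      ∃ x ∈ A, ∃ y ∈ A, x - y ∉ H := by
  classical
  have hKpos := fs_card_pos K
  set X := im K A with hX
  have hAc : A.card = (fs K).card * X.card := card_eq_im K A hKA
  have hsc : (hs A (k + 2)).card = (fs K).card * (hs X (k + 2)).card := by
    rw [card_eq_im K _ (hs_per hKA (k + 1)), im_hs']
  have hXst : stab (hs X (k + 2)) = ⊥ := by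
    rw [hX, ← im_hs']
    exact stab_im hst
  have hX2 : 2 ≤ X.card := by
    by_contra hc
    have : X.card ≤ 1 := by omega
    have := Nat.mul_le_mul_left (fs K).card this
    omega
  have hb1 := fs_bot_card (G := G ⧸ K)
  have hXC : Crit (k + 1) ⊥ X := by
    unfold Crit at hC ⊢
    have e1 : k + 1 + 1 = k + 2 := rfl
    rw [e1] at *
    rw [hb1]
    apply Nat.eq_of_mul_eq_mul_left hKpos
    rw [hsc, hAc] at hC
    calc (fs K).card * ((hs X (k + 2)).card + (k + 1) * 1)
        = (fs K).card * (hs X (k + 2)).card + (k + 1) * (fs K).card := by ring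
      _ = (k + 2) * ((fs K).card * X.card) := hC
      _ = _ := by ring
  have hdL : (dsub X).comap (QuotientAddGroup.mk' K) ≤ L := by
    have h1 : dsub X ≤ L.map (QuotientAddGroup.mk' K) := by
      apply dsub_le
      intro u hu v hv
      obtain ⟨a, ha, rfl⟩ := mem_im.mp hu
      obtain ⟨b, hb, rfl⟩ := mem_im.mp hv
      exact ⟨a - b, hAL a ha b hb, rfl⟩
    intro g hg
    have h3 := h1 hg
    obtain ⟨l, hl, hlg⟩ := h3
    have h4 : -l + g ∈ K := QuotientAddGroup.eq.mp hlg
    have h5 : g = l + (-l + g) := by abel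
    rw [h5]
    exact L.add_mem hl (hKL h4)
  have hX22 : k = 0 → 2 * X.card ≠ (fs (dsub X)).card := by
    intro hk hcon
    apply h2 hk _ (le_comap_mk (dsub X)) hdL
    rw [fs_comap_card, ← hcon, hAc]
    ring
  rcases struct_abs X k hX2 hXst hXC hX22 with ⟨a, g, l, h3, h4⟩ | ⟨H, hHb, hHd, hH, x, hx, y, hy, hxy⟩
  · left
    obtain ⟨a, rfl⟩ := QuotientAddGroup.mk_surjective a
    obtain ⟨g, rfl⟩ := QuotientAddGroup.mk_surjective g
    refine ⟨a, g, l, ?_, ?_⟩
    · intro y
      rw [← mk_mem_im hKA, ← hX, h3, Finset.mem_image]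
      constructor
      · rintro ⟨j, hj, hjy⟩
        rw [Finset.mem_range] at hj
        refine ⟨j, by omega, ?_⟩
        have h5 : (QuotientAddGroup.mk (a + j • g) : G ⧸ K) = QuotientAddGroup.mk y := hjy
        have h6 := QuotientAddGroup.eq.mp h5
        have e : y - (a + j • g) = -(a + j • g) + y := by abel
        rw [e]; exact h6
      · rintro ⟨j, hj, hjy⟩
        refine ⟨j, Finset.mem_range.mpr (by omega), ?_⟩
        have h5 : (QuotientAddGroup.mk (a + j • g) : G ⧸ K) = QuotientAddGroup.mk y := by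
          apply QuotientAddGroup.eq.mpr
          have e : -(a + j • g) + y = y - (a + j • g) := by abel
          rw [e]; exact hjy
        exact h5
    · rw [hAc, h4]; ring
  · right
    refine ⟨H.comap (QuotientAddGroup.mk' K), le_comap_mk H, ?_, ?_, ?_, ?_⟩
    · intro hcon
      apply hHb
      rw [eq_bot_iff]
      intro q hq
      obtain ⟨g, rfl⟩ := QuotientAddGroup.mk_surjective q
      have : g ∈ H.comap (QuotientAddGroup.mk' K) := hq
      rw [← hcon] at this
      rw [AddSubgroup.mem_bot]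
      exact (QuotientAddGroup.eq_zero_iff g).mpr this
    · exact (AddSubgroup.comap_mono hHd).trans hdL
    · have h5 : (A + fs (H.comap (QuotientAddGroup.mk' K))).card
          = (fs K).card * (X + fs H).card := by
        rw [card_eq_im K _ ((le_comap_mk H).trans (add_fs_per A _)), im_add, im_fs_comap]
      rw [h5, hAc, fs_comap_card]
      have := Nat.mul_le_mul_left (fs K).card hH
      calc (fs K).card * (X + fs H).card + (fs K).card
          = (fs K).card * ((X + fs H).card + 1) := by ring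
        _ ≤ (fs K).card * (X.card + (fs H).card) := this
        _ = _ := by ring
    · obtain ⟨a, ha, rfl⟩ := mem_im.mp hx
      obtain ⟨b, hb, rfl⟩ := mem_im.mp hy
      exact ⟨a, ha, b, hb, fun hc => hxy hc⟩

end Pool.Agent.Helper730.Rel
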