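import Mathlib
import Pool.Agent.Helper730.StructRel

set_option autoImplicit false
set_option linter.unusedSectionVars false
set_option linter.dupNamespace false

open scoped Pointwise
open Finset

namespace Pool.Agent.Helper730.Tower

section defs

variable {G : Type*} [AddCommGroup G]

/-- `S` is the union of the cosets `j d + H` with `1 ≤ j ≤ l`, where none of
`d, 2 d, ..., h l d` lies in `H`. -/
def IsProg (h : ℕ) (H : AddSubgroup G) (S : Set G) : Prop :=
  ∃ (d : G) (l : ℕ), (∀ j : ℕ, 1 ≤ j → j ≤ h * l → j • d ∉ H) ∧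
    S = {g | ∃ j : ℕ, 1 ≤ j ∧ j ≤ l ∧ g - j • d ∈ H}

/-- `S` is a union of cosets of `H` in `H'` outside `H` and contains exactly one of `g`, `-g`
for every `g` in `H'` outside `H`. -/
def IsHalf (H H' : AddSubgroup G) (S : Set G) : Prop :=
  (∀ g ∈ S, g ∈ H' ∧ g ∉ H ∧ ∀ k ∈ H, g + k ∈ S) ∧ ∀ g ∈ H', g ∉ H → (g ∈ S ↔ -g ∉ S)

/-- Towers over `K` with corner `x`. -/
inductive Tower (h : ℕ) (x : G) (K : AddSubgroup G) : AddSubgroup G → Set G → Prop
  | base : Tower h x K K {y | y - x ∈ K}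
  | prog {H H' : AddSubgroup G} {B S : Set G} : Tower h x K H B → H ≤ H' →
      S ⊆ (H' : Set G) → IsProg h H S → Tower h x K H' (B ∪ {y | y - x ∈ S})
  | half {H H' : AddSubgroup G} {B S : Set G} : h = 2 → Tower h x K H B → H ≤ H' →
      IsHalf H H' S → Tower h x K H' (B ∪ {y | y - x ∈ S})

end defs

open Pool.Agent.Helper730.Kneser
open Pool.Agent.Helper730.Atoms
open Pool.Agent.Helper730.Signed
open Pool.Agent.Helper730.Rel

variable {G : Type*} [AddCommGroup G]

theorem Tower.le {h : ℕ} {x : G} {K H : AddSubgroup G} {B : Set G} (t : Tower h x K H B) :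
    K ≤ H := by
  induction t with
  | base => exact le_rfl
  | prog _ h1 _ _ ih => exact ih.trans h1
  | half _ _ h1 _ ih => exact ih.trans h1

theorem IsProg.notMem {h : ℕ} {H : AddSubgroup G} {S : Set G} (hh : 1 ≤ h) (hS : IsProg h H S) :
    ∀ g ∈ S, g ∉ H := by
  obtain ⟨d, l, h1, rfl⟩ := hS
  rintro g ⟨j, hj1, hj2, hj3⟩ hg
  apply h1 j hj1 (hj2.trans (Nat.le_mul_of_pos_left l hh))
  have : j • d = g - (g - j • d) := by abel
  rw [this]
  exact H.sub_mem hg hj3

theorem Tower.sub {h : ℕ} {x : G} {K H : AddSubgroup G} {B : Set G} (t : Tower h x K H B) :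
    ∀ y ∈ B, y - x ∈ H := by
  induction t with
  | base => intro y hy; exact hy
  | prog _ h1 h2 _ ih =>
    rintro y (hy | hy)
    · exact h1 (ih y hy)
    · exact h2 hy
  | half _ _ h1 h2 ih =>
    rintro y (hy | hy)
    · exact h1 (ih y hy)
    · exact (h2.1 _ hy).1

theorem Tower.comp {h : ℕ} (hh : 1 ≤ h) {x : G} {K H L : AddSubgroup G} {A B : Set G}
    (t1 : Tower h x K H A) (t2 : Tower h x H L B) :
    Tower h x K L (A ∪ {y | y ∈ B ∧ y - x ∉ H}) := by
  induction t2 with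
  | base =>
    have : A ∪ {y | y ∈ {y | y - x ∈ H} ∧ y - x ∉ H} = A := by
      ext y
      simp only [Set.mem_union, Set.mem_ofPred_eq]
      tauto
    rw [this]
    exact t1
  | @prog H1 H2 B S t h1 h2 h3 ih =>
    have h4 := Tower.prog ih h1 h2 h3
    have h5 := t.le
    have e : A ∪ {y | y ∈ B ∧ y - x ∉ H} ∪ {y | y - x ∈ S}
        = A ∪ {y | y ∈ B ∪ {y | y - x ∈ S} ∧ y - x ∉ H} := by
      ext y
      simp only [Set.mem_union, Set.mem_ofPred_eq]
      have : y - x ∈ S → y - x ∉ H := fun hy hc => h3.notMem hh _ hy (h5 hc)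
      tauto
    rwa [e] at h4
  | @half H1 H2 B S h0 t h1 h3 ih =>
    have h4 := Tower.half h0 ih h1 h3
    have h5 := t.le
    have e : A ∪ {y | y ∈ B ∧ y - x ∉ H} ∪ {y | y - x ∈ S}
        = A ∪ {y | y ∈ B ∪ {y | y - x ∈ S} ∧ y - x ∉ H} := by
      ext y
      simp only [Set.mem_union, Set.mem_ofPred_eq]
      have : y - x ∈ S → y - x ∉ H := fun hy hc => (h3.1 _ hy).2.1 (h5 hc)
      tauto
    rwa [e] at h4

theorem Tower.enlarge {h : ℕ} {x : G} {K H H' : AddSubgroup G} {B : Set G}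
    (t : Tower h x K H B) (hH : H ≤ H') : Tower h x K H' B := by
  have h1 : IsProg h H (∅ : Set G) := by
    refine ⟨0, 0, ?_, ?_⟩
    · intro j h1 h2
      rw [mul_zero] at h2
      omega
    · ext g
      simp only [Set.mem_empty_iff_false, Set.mem_ofPred_eq, false_iff]
      rintro ⟨j, h1, h2, -⟩
      omega
  have h2 := Tower.prog t hH (Set.empty_subset _) h1
  have e : B ∪ {y | y - x ∈ (∅ : Set G)} = B := by
    ext y
    simp
  rwa [e] at h2

/-- The divisibility condition. -/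
def Cond (h N α : ℕ) : Prop := ∀ d, d ∣ N → h * (α % d) + 1 ≤ d

theorem cond_low {h N0 N1 α β α0 : ℕ} (e : α = β * N0 + α0) (hC : Cond h (N1 * N0) α) :
    Cond h N0 α0 := by
  intro d hd
  have h1 := hC d (Dvd.dvd.mul_left hd N1)
  have h2 : α % d = α0 % d := by
    rw [e, Nat.add_mod, Nat.mod_eq_zero_of_dvd (Dvd.dvd.mul_left hd β), zero_add, Nat.mod_mod]
  rwa [h2] at h1

theorem cond_high {h N0 N1 α β α0 : ℕ} (e : α = β * N0 + α0) (h0 : α0 < N0)
    (hC : Cond h (N1 * N0) α) : Cond h N1 β := by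
  intro d hd
  have h1 := hC (d * N0) (Nat.mul_dvd_mul hd dvd_rfl)
  have h2 : α % (d * N0) = (β % d) * N0 + α0 := by
    rw [e, mul_comm d N0, Nat.mod_mul]
    have h3 : (β * N0 + α0) % N0 = α0 := by
      rw [Nat.add_mod, Nat.mul_mod_left, zero_add, Nat.mod_mod, Nat.mod_eq_of_lt h0]
    have h4 : (β * N0 + α0) / N0 = β := by
      rw [mul_comm, Nat.mul_add_div (by omega), Nat.div_eq_of_lt h0, add_zero]
    rw [h3, h4]; ring
  rw [h2] at h1
  by_contra hc
  push Not at hc
  have h5 : d ≤ h * (β % d) := by omega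
  have h6 := Nat.mul_le_mul_right N0 h5
  have h7 : h * (β % d * N0 + α0) = h * (β % d) * N0 + h * α0 := by ring
  omega

end Pool.Agent.Helper730.Tower
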