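import Mathlib
import Pool.Agent.Helper730.TowerDef

set_option autoImplicit false
set_option linter.unusedSectionVars false
set_option linter.dupNamespace false

open scoped Pointwise
open Finset

namespace Pool.Agent.Helper730.Tower

open Pool.Agent.Helper730.Kneser
open Pool.Agent.Helper730.Atoms
open Pool.Agent.Helper730.Signed
open Pool.Agent.Helper730.Rel

variable {G : Type*} [AddCommGroup G] [Fintype G] [DecidableEq G]

theorem ap_order {A : Finset G} {K : AddSubgroup G} {k l : ℕ} {a d : G}
    (hA : ∀ y, y ∈ A ↔ ∃ j : ℕ, j ≤ l ∧ y - (a + j • d) ∈ K)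
    (hc : A.card = (l + 1) * (fs K).card) (hC : Crit (k + 1) K A) :
    ∀ j : ℕ, 1 ≤ j → j ≤ (k + 2) * l → j • d ∉ K := by
  intro j0 hj1 hj2 hj0
  have h1 : ∀ n : ℕ, ∀ w ∈ hs A n, ∃ j : ℕ, w - (n • a + j • d) ∈ K := by
    intro n
    induction n with
    | zero =>
      intro w hw
      rw [hs_zero, Finset.mem_singleton] at hw
      refine ⟨0, ?_⟩
      rw [hw]
      simp
    | succ n ih =>
      intro w hw
      rw [hs_succ] at hw
      obtain ⟨u, hu, v, hv, rfl⟩ := Finset.mem_add.mp hw
      obtain ⟨j, hj⟩ := ih u hu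
      obtain ⟨i, -, hi⟩ := (hA v).mp hv
      refine ⟨j + i, ?_⟩
      have e : u + v - ((n + 1) • a + (j + i) • d) = (u - (n • a + j • d)) + (v - (a + i • d)) := by
        rw [succ_nsmul, add_nsmul]; abel
      rw [e]
      exact K.add_mem hj hi
  have h2 : hs A (k + 2) ⊆ (Finset.range j0).biUnion
      (fun i => tr (fs K) ((k + 2) • a + i • d)) := by
    intro w hw
    obtain ⟨j, hj⟩ := h1 _ w hw
    rw [Finset.mem_biUnion]
    refine ⟨j % j0, Finset.mem_range.mpr (Nat.mod_lt _ hj1), ?_⟩
    rw [mem_tr, mem_fs]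
    have e : j • d = (j / j0) • (j0 • d) + (j % j0) • d := by
      rw [← mul_nsmul, ← add_nsmul, Nat.div_add_mod]
    have e2 : w - ((k + 2) • a + (j % j0) • d)
        = (w - ((k + 2) • a + j • d)) + (j / j0) • (j0 • d) := by
      rw [e]; abel
    rw [e2]
    exact K.add_mem hj (K.nsmul_mem hj0 _)
  have h3 := Finset.card_le_card h2
  have h4 : ((Finset.range j0).biUnion (fun i => tr (fs K) ((k + 2) • a + i • d))).card
      ≤ j0 * (fs K).card := by
    have := Finset.card_biUnion_le_card_mul (Finset.range j0)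
      (fun i => tr (fs K) ((k + 2) • a + i • d)) (fs K).card (fun i _ => by rw [card_tr])
    rwa [Finset.card_range] at this
  unfold Crit at hC
  have e1 : k + 1 + 1 = k + 2 := rfl
  rw [e1] at *
  rw [hc] at hC
  have h5 := Nat.mul_le_mul_right (fs K).card hj2
  have h6 := fs_card_pos K
  have h7 : (k + 2) * ((l + 1) * (fs K).card)
      = (k + 2) * l * (fs K).card + (k + 1) * (fs K).card + (fs K).card := by ring
  omega

theorem ap_tower {A : Finset G} {K L : AddSubgroup G} {h l : ℕ} {x d : G} (hKL : K ≤ L)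
    (hA : ∀ y, y ∈ A ↔ ∃ j : ℕ, j ≤ l ∧ y - (x + j • d) ∈ K)
    (hd : ∀ j : ℕ, 1 ≤ j → j ≤ h * l → j • d ∉ K)
    (hAL : ∀ y ∈ A, y - x ∈ L) : Tower h x K L (A : Set G) := by
  have t := Tower.prog (h := h) (x := x) (K := K) (H := K) (H' := L)
    (S := {g | ∃ j : ℕ, 1 ≤ j ∧ j ≤ l ∧ g - j • d ∈ K}) Tower.base hKL (by
      rintro g ⟨j, hj1, hj2, hj3⟩
      have h1 : x + g ∈ A := by
        rw [hA]
        refine ⟨j, hj2, ?_⟩
        have : x + g - (x + j • d) = g - j • d := by abel
        rw [this]; exact hj3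
      have := hAL _ h1
      have e : x + g - x = g := by abel
      rwa [e] at this) ⟨d, l, hd, rfl⟩
  have e : (A : Set G) = {y | y - x ∈ K} ∪
      {y | y - x ∈ {g | ∃ j : ℕ, 1 ≤ j ∧ j ≤ l ∧ g - j • d ∈ K}} := by
    ext y
    rw [Finset.mem_coe, hA]
    simp only [Set.mem_union, Set.mem_ofPred_eq]
    constructor
    · rintro ⟨j, hj, hjy⟩
      rcases Nat.eq_zero_or_pos j with rfl | hj1
      · left
        simpa using hjy
      · right
        refine ⟨j, hj1, hj, ?_⟩
        have : y - x - j • d = y - (x + j • d) := by abel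
        rw [this]; exact hjy
    · rintro (hy | ⟨j, hj1, hj2, hj3⟩)
      · exact ⟨0, Nat.zero_le _, by simpa using hy⟩
      · refine ⟨j, hj2, ?_⟩
        have : y - (x + j • d) = y - x - j • d := by abel
        rw [this]; exact hj3
  rw [e]
  exact t

theorem ap_corner {A : Finset G} {K : AddSubgroup G} {k l : ℕ} {a d x : G} (hl : 1 ≤ l)
    (hA : ∀ y, y ∈ A ↔ ∃ j : ℕ, j ≤ l ∧ y - (a + j • d) ∈ K)
    (hd : ∀ j : ℕ, 1 ≤ j → j ≤ (k + 2) * l → j • d ∉ K) (hx : x ∈ A)
    (hUU : UU A K (k + 2) x) :
    ∃ d' : G, (∀ y, y ∈ A ↔ ∃ j : ℕ, j ≤ l ∧ y - (x + j • d') ∈ K) ∧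
      (∀ j : ℕ, 1 ≤ j → j ≤ (k + 2) * l → j • d' ∉ K) := by
  obtain ⟨j0, hj0, hxj⟩ := (hA x).mp hx
  rcases Nat.eq_zero_or_pos j0 with rfl | hpos
  · refine ⟨d, ?_, hd⟩
    intro y
    rw [hA]
    rw [zero_nsmul, add_zero] at hxj
    constructor
    · rintro ⟨j, hj, hjy⟩
      refine ⟨j, hj, ?_⟩
      have : y - (x + j • d) = (y - (a + j • d)) - (x - a) := by abel
      rw [this]; exact K.sub_mem hjy hxj
    · rintro ⟨j, hj, hjy⟩
      refine ⟨j, hj, ?_⟩
      have : y - (a + j • d) = (y - (x + j • d)) + (x - a) := by abel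
      rw [this]; exact K.add_mem hjy hxj
  · rcases Nat.lt_or_ge j0 l with hlt | hge
    · exfalso
      have h1 : x + d ∈ A := by
        rw [hA]
        refine ⟨j0 + 1, by omega, ?_⟩
        have : x + d - (a + (j0 + 1) • d) = x - (a + j0 • d) := by
          rw [succ_nsmul]; abel
        rw [this]; exact hxj
      have h2 : x - d ∈ A := by
        rw [hA]
        refine ⟨j0 - 1, by omega, ?_⟩
        have e : j0 • d = (j0 - 1) • d + d := by
          rw [← succ_nsmul]; congr 1; omega
        have : x - d - (a + (j0 - 1) • d) = x - (a + j0 • d) := by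
          rw [e]; abel
        rw [this]; exact hxj
      have h3 := hUU (x + d) h1 (k • x + (x - d)) (by
        have e : k + 2 - 1 = k + 1 := by omega
        rw [e, hs_succ]
        exact Finset.add_mem_add (nsmul_mem_hs hx k) h2) (by
        have e : x + d + (k • x + (x - d)) - (k + 2) • x = 0 := by
          rw [show k + 2 = (k + 1) + 1 from rfl, succ_nsmul, succ_nsmul]; abel
        rw [e]; exact K.zero_mem)
      have e : x + d - x = d := by abel
      rw [e] at h3
      apply hd 1 le_rfl
      · calc 1 ≤ l := hl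
          _ ≤ (k + 2) * l := Nat.le_mul_of_pos_left l (by omega)
      · rwa [one_nsmul]
    · have hjl : j0 = l := by omega
      subst hjl
      refine ⟨-d, ?_, ?_⟩
      · intro y
        rw [hA]
        constructor
        · rintro ⟨j, hj, hjy⟩
          refine ⟨j0 - j, by omega, ?_⟩
          have e : j0 • d = (j0 - j) • d + j • d := by
            rw [← add_nsmul]; congr 1; omega
          have : y - (x + (j0 - j) • -d) = (y - (a + j • d)) - (x - (a + j0 • d)) := by
            rw [e, smul_neg]; abel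
          rw [this]; exact K.sub_mem hjy hxj
        · rintro ⟨j, hj, hjy⟩
          refine ⟨j0 - j, by omega, ?_⟩
          have e : j0 • d = (j0 - j) • d + j • d := by
            rw [← add_nsmul]; congr 1; omega
          have : y - (a + (j0 - j) • d) = (y - (x + j • -d)) + (x - (a + j0 • d)) := by
            rw [e, smul_neg]; abel
          rw [this]; exact K.add_mem hjy hxj
      · intro j h1 h2 h3
        apply hd j h1 h2
        rw [smul_neg] at h3
        have := K.neg_mem h3
        rwa [neg_neg] at this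

/-- The corner lies in the special coset. -/
theorem corner_mem {A : Finset G} {K H : AddSubgroup G} {k : ℕ} {x x0 : G} (hKH : K ≤ H)
    (hne : K ≠ H) (hx : x ∈ A) (hF : FullOut A H x0) (hUU : UU A K (k + 2) x) : x - x0 ∈ H := by
  by_contra hc
  obtain ⟨g, hgH, hgK⟩ : ∃ g ∈ H, g ∉ K := by
    by_contra hcon
    push Not at hcon
    exact hne (le_antisymm hKH hcon)
  apply hgK
  have h1 := hF x hx hc g hgH
  have h2 := hF x hx hc (-g) (H.neg_mem hgH)
  have h3 := hUU (x + g) h1 (k • x + (x + -g)) (by
    have e : k + 2 - 1 = k + 1 := by omega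
    rw [e, hs_succ]
    exact Finset.add_mem_add (nsmul_mem_hs hx k) h2) (by
    have e : x + g + (k • x + (x + -g)) - (k + 2) • x = 0 := by
      rw [show k + 2 = (k + 1) + 1 from rfl, succ_nsmul, succ_nsmul]; abel
    rw [e]; exact K.zero_mem)
  have e : x + g - x = g := by abel
  rwa [e] at h3

theorem FullOut_congr {A : Finset G} {H : AddSubgroup G} {x x0 : G} (h : x - x0 ∈ H)
    (hF : FullOut A H x0) : FullOut A H x := by
  intro y hy hyx
  apply hF y hy
  intro hc
  apply hyx
  have : y - x = (y - x0) - (x - x0) := by abel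
  rw [this]; exact H.sub_mem hc h

theorem UU_congr {A : Finset G} {H : AddSubgroup G} {n : ℕ} {x x0 : G} (h : x - x0 ∈ H)
    (hU : UU A H n x0) : UU A H n x := by
  intro y hy w hw hyw
  have h1 : y - x0 ∈ H := by
    apply hU y hy w hw
    have : y + w - n • x0 = (y + w - n • x) + n • (x - x0) := by
      rw [nsmul_sub]; abel
    rw [this]; exact H.add_mem hyw (H.nsmul_mem h n)
  have : y - x = (y - x0) - (x - x0) := by abel
  rw [this]; exact H.sub_mem h1 h

/-- Size bound for sets with a corner inside a coset of `T`. -/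
theorem corner_bound {A : Finset G} {K T : AddSubgroup G} {k : ℕ} {x : G}
    (hKA : K ≤ stab A) (hx : x ∈ A) (hAT : ∀ y ∈ A, y - x ∈ T) (hUU : UU A K (k + 2) x) :
    (hs A (k + 1)).card + A.card ≤ (fs T).card + (fs K).card := by
  set D := (A \ tr (fs K) x).image (fun y => (k + 2) • x - y) with hD
  have hDc : D.card = A.card - (fs K).card := by
    rw [hD, Finset.card_image_of_injective _ sub_right_injective, Finset.card_sdiff_of_subset,
      card_tr]
    intro y hy
    rw [mem_tr, mem_fs] at hy
    have := stab_add (hKA hy) hx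
    have e : x + (y - x) = y := by abel
    rwa [e] at this
  have hdis : Disjoint (hs A (k + 1)) D := by
    rw [Finset.disjoint_left]
    intro w hw hwD
    rw [hD, Finset.mem_image] at hwD
    obtain ⟨y, hy, hyw⟩ := hwD
    rw [Finset.mem_sdiff, mem_tr, mem_fs] at hy
    apply hy.2
    apply hUU y hy.1 w
    · have e : k + 2 - 1 = k + 1 := by omega
      rw [e]; exact hw
    · have : y + w - (k + 2) • x = 0 := by rw [← hyw]; abel
      rw [this]; exact K.zero_mem
  have hsub : hs A (k + 1) ∪ D ⊆ tr (fs T) ((k + 1) • x) := by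
    apply Finset.union_subset
    · intro w hw
      rw [mem_tr, mem_fs]
      have e : cs A T x = A := by
        ext y
        rw [mem_cs]
        exact ⟨fun h => h.1, fun h => ⟨h, hAT y h⟩⟩
      have := hs_cs_sub A T x (k + 1) w
      rw [e] at this
      exact this hw
    · intro w hw
      rw [hD, Finset.mem_image] at hw
      obtain ⟨y, hy, rfl⟩ := hw
      rw [Finset.mem_sdiff] at hy
      rw [mem_tr, mem_fs]
      have : (k + 2) • x - y - (k + 1) • x = -(y - x) := by
        rw [show k + 2 = (k + 1) + 1 from rfl, succ_nsmul x (k + 1)]; abel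
      rw [this]
      exact T.neg_mem (hAT y hy.1)
  have h1 := Finset.card_le_card hsub
  rw [Finset.card_union_of_disjoint hdis, card_tr, hDc] at h1
  omega

end Pool.Agent.Helper730.Tower
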