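import Mathlib
import Pool.Agent.Helper730.Corner

set_option autoImplicit false
set_option linter.unusedSectionVars false
set_option linter.dupNamespace false

open scoped Pointwise
open Finset

namespace Pool.Agent.Helper730.Tower

open Pool.Agent.Helper730.Kneser
open Pool.Agent.Helper730.Atoms
open Pool.Agent.Helper730.Signed
open Pool.Agent.Helper730.Rel

variable {G : Type*} [AddCommGroup G] [Fintype G] [DecidableEq G]

theorem no_double {A : Finset G} {K L : AddSubgroup G} {h N a : ℕ}
    (hN : (fs L).card = N * (fs K).card) (ha : A.card = a * (fs K).card) (ha2 : 2 ≤ a)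
    (hh : 2 ≤ h) (hC : Cond h N (a - 1)) :
    ∀ M : AddSubgroup G, K ≤ M → M ≤ L → 2 * A.card ≠ (fs M).card := by
  intro M hKM hML hcon
  have hKpos := fs_card_pos K
  have h1 := fs_dvd hML
  rw [← hcon, hN, ha, ← mul_assoc] at h1
  have h2 : 2 * a ∣ N := Nat.dvd_of_mul_dvd_mul_right hKpos h1
  have h3 : a ∣ N := (Dvd.intro_left 2 rfl).trans h2
  have h4 := hC a h3
  rw [Nat.mod_eq_of_lt (by omega)] at h4
  have h5 : 2 * (a - 1) ≤ h * (a - 1) := Nat.mul_le_mul_right _ hh
  omega

theorem near_out {A : Finset G} {K L H : AddSubgroup G} {k k' : ℕ} {x : G}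
    (hKA : K ≤ stab A) (hx : x ∈ A) (hAL : ∀ u ∈ A, ∀ v ∈ A, u - v ∈ L)
    (hUU : UU A K (k + 2) x)
    (hst : stab (hs A (k' + 2)) = K) (hCr : Crit (k' + 1) K A)
    (hKH : K ≤ H) (hne : K ≠ H)
    (hnear : (A + fs H).card + (fs K).card ≤ A.card + (fs H).card)
    (hout : ∃ u ∈ A, ∃ v ∈ A, u - v ∉ H) :
    H ≠ L ∧ FullOut A H x := by
  obtain ⟨x0, hx0, hF, -, -, -, -⟩ := quasi hKA hKH hne hnear hst hCr
  constructor
  · rintro rfl
    obtain ⟨u, hu, v, hv, huv⟩ := hout
    exact huv (hAL u hu v hv)
  · exact FullOut_congr (corner_mem hKH hne hx hF hUU) hF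

theorem corner_alt {A : Finset G} {K L : AddSubgroup G} {k N a : ℕ} {x : G} (hKL : K ≤ L)
    (hN : (fs L).card = N * (fs K).card) (hKA : K ≤ stab A) (hx : x ∈ A)
    (hAx : ∀ y ∈ A, y - x ∈ L) (ha : A.card = a * (fs K).card) (ha2 : 2 ≤ a)
    (hC : Cond (k + 2) N (a - 1)) (hCr : Crit (k + 1) K A) (hUU : UU A K (k + 2) x) :
    (∃ (a0 d : G) (l : ℕ), (∀ y, y ∈ A ↔ ∃ j : ℕ, j ≤ l ∧ y - (a0 + j • d) ∈ K) ∧
      A.card = (l + 1) * (fs K).card) ∨
    (∃ H : AddSubgroup G, K ≤ H ∧ K ≠ H ∧ H ≤ L ∧ H ≠ L ∧ FullOut A H x) ∨
    (k = 0 ∧ IsHalf K L {g | x + g ∈ A ∧ g ∉ K}) := by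
  have hKpos := fs_card_pos K
  have hAL : ∀ u ∈ A, ∀ v ∈ A, u - v ∈ L := by
    intro u hu v hv
    have : u - v = (u - x) - (v - x) := by abel
    rw [this]; exact L.sub_mem (hAx u hu) (hAx v hv)
  have hA2 : 2 * (fs K).card ≤ A.card := by rw [ha]; exact Nat.mul_le_mul_right _ ha2
  set T := stab (hs A (k + 2)) with hT
  have hKT : K ≤ T := hs_per hKA (k + 1)
  have hTL : T ≤ L := by
    intro g hg
    have e : cs A L x = A := by
      ext y
      rw [mem_cs]
      exact ⟨fun h => h.1, fun h => ⟨h, hAx y h⟩⟩
    have h1 := hs_cs_sub A L x (k + 2)
    rw [e] at h1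
    have h2 := h1 _ (stab_add hg (nsmul_mem_hs hx (k + 2)))
    have e2 : (k + 2) • x + g - (k + 2) • x = g := by abel
    rwa [e2] at h2
  by_cases hTK : T = K
  · -- the sumset has stabiliser `K`
    rcases struct_rel hKL hKA hAL hA2 hTK hCr
      (fun _ => no_double hN ha ha2 (by omega) hC) with h | ⟨H, h1, h2, h3, h4, h5⟩
    · exact Or.inl h
    · right; left
      obtain ⟨h6, h7⟩ := near_out hKA hx hAL hUU hTK hCr h1 h2 h4 h5
      exact ⟨H, h1, h2, h3, h6, h7⟩
  · -- the sumset is periodic
    obtain ⟨t, ht⟩ := fs_dvd hKT
    obtain ⟨s, hs'⟩ := fs_dvd hTL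
    rw [mul_comm] at ht hs'
    have hNst : N = s * t := by
      have : N * (fs K).card = s * t * (fs K).card := by rw [← hN, hs', ht]; ring
      exact Nat.eq_of_mul_eq_mul_right hKpos this
    have htpos : 0 < t := by
      rcases Nat.eq_zero_or_pos t with h | h
      · have := fs_card_pos T
        rw [ht, h] at this; omega
      · exact h
    have hCt := hC t (by rw [hNst]; exact Dvd.intro_left s rfl)
    set r := (a - 1) % t with hr
    set q := (a - 1) / t with hq
    have hqr : a = q * t + r + 1 := by
      have := Nat.div_add_mod (a - 1) t
      rw [← hq, ← hr, mul_comm t q] at this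
      omega
    -- Kneser
    have hkn := kneser_h (A := A) ⟨x, hx⟩ (k + 1)
    have e1 : k + 1 + 1 = k + 2 := rfl
    rw [e1, ← hT] at hkn
    obtain ⟨b, hb⟩ := per_card (A + fs T) T (add_fs_per A T)
    rw [mul_comm] at hb
    have hCr' := hCr
    unfold Crit at hCr'
    rw [e1] at hCr'
    have hAle := Finset.card_le_card (subset_add_fs A T)
    have k1 : a ≤ b * t := by
      apply Nat.le_of_mul_le_mul_right _ hKpos
      calc a * (fs K).card ≤ (A + fs T).card := by rw [← ha]; exact hAle
        _ = b * t * (fs K).card := by rw [hb, ht]; ring
    have k2 : (k + 2) * (b * t) + (k + 1) ≤ (k + 2) * a + (k + 1) * t := by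
      apply Nat.le_of_mul_le_mul_right _ hKpos
      have h1 : (k + 2) * (A + fs T).card = (k + 2) * (b * t) * (fs K).card := by
        rw [hb, ht]; ring
      have h2 : (k + 1) * (fs T).card = (k + 1) * t * (fs K).card := by rw [ht]; ring
      have h3 : (k + 2) * A.card = (k + 2) * a * (fs K).card := by rw [ha]; ring
      have h4 : ((k + 2) * (b * t) + (k + 1)) * (fs K).card
          = (k + 2) * (b * t) * (fs K).card + (k + 1) * (fs K).card := by ring
      have h5 : ((k + 2) * a + (k + 1) * t) * (fs K).card
          = (k + 2) * a * (fs K).card + (k + 1) * t * (fs K).card := by ring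
      omega
    have k3 : b = q + 1 := by
      have h1 : q + 1 ≤ b := by
        by_contra hc
        have h2 : b ≤ q := by omega
        have := Nat.mul_le_mul_right t h2
        omega
      have h2 : b ≤ q + 1 := by
        by_contra hc
        have h3 : q + 2 ≤ b := by omega
        have h4 := Nat.mul_le_mul_left (k + 2) (Nat.mul_le_mul_right t h3)
        rw [hqr] at k2
        have h5 : (k + 2) * ((q + 2) * t) = (k + 2) * (q * t) + 2 * ((k + 1) * t) + 2 * t := by
          ring
        have h6 : (k + 2) * (q * t + r + 1) = (k + 2) * (q * t) + (k + 2) * r + (k + 2) := by ring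
        have h7 : k + 1 ≤ (k + 1) * t := Nat.le_mul_of_pos_right _ htpos
        omega
      omega
    have k4 : (k + 2) * r + 1 = t := by
      rw [hqr, k3] at k2
      have h5 : (k + 2) * ((q + 1) * t) = (k + 2) * (q * t) + (k + 1) * t + t := by ring
      have h6 : (k + 2) * (q * t + r + 1) = (k + 2) * (q * t) + (k + 2) * r + (k + 2) := by ring
      omega
    -- the part of `A` in the coset of the corner
    obtain ⟨c, hc⟩ := per_card (cs A T x) K (cs_per hKA hKT x)
    rw [mul_comm] at hc
    have hUx : UU (cs A T x) K (k + 2) x := UU_mono (cs_sub A T x) hUU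
    have k5 := corner_bound (T := T) (cs_per hKA hKT x) (cs_self_mem hx)
      (fun y hy => (mem_cs.mp hy).2) hUx
    have k6 := hU (n := k) (cs_self_mem hx) (UU_pred (cs_self_mem hx) hUx)
    have k7 : c ≤ r + 1 := by
      have h1 : (k + 2) * c ≤ (k + 2) * (r + 1) := by
        apply Nat.le_of_mul_le_mul_right _ hKpos
        have h2 : (k + 2) * c * (fs K).card = (k + 1) * (cs A T x).card + (cs A T x).card := by
          rw [hc]; ring
        have h3 : (k + 2) * (r + 1) * (fs K).card = (fs T).card + (k + 1) * (fs K).card := by
          rw [ht, ← k4]; ring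
        have h4 : (k + 1) * (fs K).card = k * (fs K).card + (fs K).card := by ring
        omega
      exact Nat.le_of_mul_le_mul_left h1 (by omega)
    have k8 : c = r + 1 := by
      have h1 := holes_one (H := T) hx
      have h2 : t + a ≤ b * t + c := by
        apply Nat.le_of_mul_le_mul_right _ hKpos
        calc (t + a) * (fs K).card = (fs T).card + A.card := by rw [ht, ha]; ring
          _ ≤ (A + fs T).card + (cs A T x).card := h1
          _ = (b * t + c) * (fs K).card := by rw [hb, hc, ht]; ring
      rw [hqr, k3] at h2
      have h3 : (q + 1) * t = q * t + t := by ring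
      omega
    have hfull : FullOut A T x := by
      intro y hy hyx g hg
      have h8 := holes_two (H := T) hy hx hyx
      obtain ⟨c', hc'⟩ := per_card (cs A T y) K (cs_per hKA hKT y)
      rw [mul_comm] at hc'
      have h2 : 2 * t + a ≤ b * t + c' + c := by
        apply Nat.le_of_mul_le_mul_right _ hKpos
        calc (2 * t + a) * (fs K).card = 2 * (fs T).card + A.card := by rw [ht, ha]; ring
          _ ≤ (A + fs T).card + (cs A T y).card + (cs A T x).card := h8
          _ = (b * t + c' + c) * (fs K).card := by rw [hb, hc, hc', ht]; ring
      have h3 : t ≤ c' := by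
        rw [hqr, k3] at h2
        have h3 : (q + 1) * t = q * t + t := by ring
        omega
      have h9 : (tr (fs T) y).card ≤ (cs A T y).card := by
        rw [card_tr, ht, hc']
        exact Nat.mul_le_mul_right _ h3
      have h10 : cs A T y = tr (fs T) y :=
        Finset.eq_of_subset_of_card_le (fun u hu => by
          rw [mem_tr, mem_fs]; exact (mem_cs.mp hu).2) h9
      have h11 : y + g ∈ tr (fs T) y := by
        rw [mem_tr, mem_fs]
        have : y + g - y = g := by abel
        rwa [this]
      rw [← h10] at h11
      exact (mem_cs.mp h11).1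
    by_cases hTLe : T = L
    · -- the sumset is the whole coset
      have e2 : cs A T x = A := by
        ext y
        rw [mem_cs, hTLe]
        exact ⟨fun h => h.1, fun h => ⟨h, hAx y h⟩⟩
      rw [e2] at hc k5 k6
      have hac : a = r + 1 := by
        rw [← k8]
        apply Nat.eq_of_mul_eq_mul_right hKpos
        rw [← ha, ← hc]
      rcases k with _ | k
      · -- half systems
        right; right
        refine ⟨rfl, ?_, ?_⟩
        · rintro g ⟨hg1, hg2⟩
          refine ⟨?_, hg2, ?_⟩
          · have := hAx _ hg1
            have e3 : x + g - x = g := by abel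
            rwa [e3] at this
          · intro κ hκ
            refine ⟨?_, ?_⟩
            · rw [← add_assoc]
              exact stab_add (hKA hκ) hg1
            · intro hcon
              apply hg2
              have : g = (g + κ) - κ := by abel
              rw [this]; exact K.sub_mem hcon hκ
        · intro g hgL hgK
          have hnot : x + g ∈ A → x + -g ∈ A → False := by
            intro h1 h2
            apply hgK
            have h3 := hUU (x + g) h1 (x + -g) (by
              have e : 0 + 2 - 1 = 1 := rfl
              rw [e, hs_one]; exact h2) (by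
              have e : x + g + (x + -g) - (0 + 2) • x = 0 := by
                rw [show 0 + 2 = 1 + 1 from rfl, succ_nsmul, one_nsmul]; abel
              rw [e]; exact K.zero_mem)
            have e : x + g - x = g := by abel
            rwa [e] at h3
          have hngK : -g ∉ K := fun h => hgK (by have := K.neg_mem h; rwa [neg_neg] at this)
          constructor
          · rintro ⟨h1, -⟩ ⟨h2, -⟩
            exact hnot h1 h2
          · intro hneg
            have hneg' : x + -g ∉ A := fun h => hneg ⟨h, hngK⟩
            refine ⟨?_, hgK⟩
            -- counting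
            set P := A \ tr (fs K) x with hP
            set P' := P.image (fun y => x + x - y) with hP'
            have hPc : P.card = A.card - (fs K).card := by
              rw [hP, Finset.card_sdiff_of_subset, card_tr]
              intro y hy
              rw [mem_tr, mem_fs] at hy
              have := stab_add (hKA hy) hx
              have e : x + (y - x) = y := by abel
              rwa [e] at this
            have hP'c : P'.card = P.card :=
              Finset.card_image_of_injective _ sub_right_injective
            have hdis : Disjoint P P' := by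
              rw [Finset.disjoint_left]
              intro y hy hy'
              rw [hP', Finset.mem_image] at hy'
              obtain ⟨z, hz, hzy⟩ := hy'
              rw [hP, Finset.mem_sdiff, mem_tr, mem_fs] at hy hz
              apply hy.2
              apply hUU y hy.1 z
              · have e : 0 + 2 - 1 = 1 := rfl
                rw [e, hs_one]; exact hz.1
              · have e : y + z - (0 + 2) • x = 0 := by
                  rw [show 0 + 2 = 1 + 1 from rfl, succ_nsmul, one_nsmul, ← hzy]; abel
                rw [e]; exact K.zero_mem
            have hsub : P ∪ P' ⊆ tr (fs L) x \ tr (fs K) x := by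
              intro y hy
              rw [Finset.mem_sdiff, mem_tr, mem_fs, mem_tr, mem_fs]
              rw [Finset.mem_union] at hy
              rcases hy with hy | hy
              · rw [hP, Finset.mem_sdiff, mem_tr, mem_fs] at hy
                exact ⟨hAx y hy.1, hy.2⟩
              · rw [hP', Finset.mem_image] at hy
                obtain ⟨z, hz, rfl⟩ := hy
                rw [hP, Finset.mem_sdiff, mem_tr, mem_fs] at hz
                have e : x + x - z - x = -(z - x) := by abel
                rw [e]
                refine ⟨L.neg_mem (hAx z hz.1), fun h => hz.2 ?_⟩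
                have := K.neg_mem h
                rwa [neg_neg] at this
            have hcard : (tr (fs L) x \ tr (fs K) x).card = (fs L).card - (fs K).card := by
              rw [Finset.card_sdiff_of_subset, card_tr, card_tr]
              intro y hy
              rw [mem_tr, mem_fs] at hy ⊢
              exact hKL hy
            have heq : P ∪ P' = tr (fs L) x \ tr (fs K) x := by
              apply Finset.eq_of_subset_of_card_le hsub
              rw [hcard, Finset.card_union_of_disjoint hdis, hP'c, hPc, ha, ← hTLe, ht, ← k4, hac]
              have h1 : ((0 + 2) * r + 1) * (fs K).card = 2 * (r * (fs K).card) + (fs K).card := by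
                ring
              have h2 : (r + 1) * (fs K).card = r * (fs K).card + (fs K).card := by ring
              omega
            have hmem : x + g ∈ P ∪ P' := by
              rw [heq, Finset.mem_sdiff, mem_tr, mem_fs, mem_tr, mem_fs]
              have e : x + g - x = g := by abel
              rw [e]
              exact ⟨hgL, hgK⟩
            rw [Finset.mem_union] at hmem
            rcases hmem with h | h
            · rw [hP, Finset.mem_sdiff] at h
              exact h.1
            · exfalso
              rw [hP', Finset.mem_image] at h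
              obtain ⟨z, hz, hzg⟩ := h
              rw [hP, Finset.mem_sdiff] at hz
              apply hneg'
              have : x + -g = z := by
                have h5 : x + -g = x + x - (x + g) := by abel
                rw [h5, ← hzg]; abel
              rw [this]; exact hz.1
      · -- use the sumset of one order less
        have hCr1 : Crit (k + 1) K A := by
          unfold Crit
          have e3 : k + 1 + 1 = k + 2 := rfl
          rw [e3] at *
          have h1 : (k + 2) * A.card ≤ (hs A (k + 2)).card + (k + 1) * (fs K).card := k6
          have h2 : (hs A (k + 2)).card + A.card ≤ (fs T).card + (fs K).card := k5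
          have h3 : (fs T).card = ((k + 3) * r + 1) * (fs K).card := by rw [ht, ← k4]
          rw [ha, hac] at h1 h2 ⊢
          have h4 : (k + 2) * ((r + 1) * (fs K).card)
              = (k + 2) * (r * (fs K).card) + (k + 2) * (fs K).card := by ring
          have h5 : ((k + 3) * r + 1) * (fs K).card
              = (k + 2) * (r * (fs K).card) + r * (fs K).card + (fs K).card := by ring
          have h6 : (r + 1) * (fs K).card = r * (fs K).card + (fs K).card := by ring
          have h7 : (k + 2) * (fs K).card = (k + 1) * (fs K).card + (fs K).card := by ring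
          omega
        have hst1 : stab (hs A (k + 2)) = K := by
          set L' := stab (hs A (k + 2)) with hL'
          have h1 : K ≤ L' := hs_per hKA (k + 1)
          symm
          apply eq_of_card h1
          have h2 := kneser_h (A := A) ⟨x, hx⟩ (k + 1)
          have e3 : k + 1 + 1 = k + 2 := rfl
          rw [e3, ← hL'] at h2
          have h3 := holes_one (H := L') hx
          have h4 : (cs A L' x).card ≤ (fs K).card := by
            rw [← card_tr (fs K) x]
            apply Finset.card_le_card
            intro y hy
            rw [mem_cs] at hy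
            rw [mem_tr, mem_fs]
            apply hUU y hy.1 ((k + 2) • x + -(y - x))
            · have e : k + 1 + 2 - 1 = k + 2 := by omega
              rw [e]
              exact stab_add (L'.neg_mem hy.2) (nsmul_mem_hs hx (k + 2))
            · have e0 : (k + 1 + 2) • x = (k + 2) • x + x := succ_nsmul x (k + 2)
              have e : y + ((k + 2) • x + -(y - x)) - (k + 1 + 2) • x = 0 := by
                rw [e0]; abel
              rw [e]; exact K.zero_mem
          unfold Crit at hCr1
          rw [e3] at hCr1
          have h5 : (k + 2) * ((fs L').card + A.card)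
              ≤ (k + 2) * ((A + fs L').card + (fs K).card) :=
            Nat.mul_le_mul_left _ (by omega)
          rw [Nat.mul_add, Nat.mul_add] at h5
          have h6 : (k + 2) * (fs L').card = (k + 1) * (fs L').card + (fs L').card := by ring
          have h7 : (k + 2) * (fs K).card = (k + 1) * (fs K).card + (fs K).card := by ring
          omega
        rcases struct_rel hKL hKA hAL hA2 hst1 hCr1
          (fun _ => no_double hN ha ha2 (by omega) hC) with h | ⟨H, h1, h2, h3, h4, h5⟩
        · exact Or.inl h
        · right; left
          obtain ⟨h6, h7⟩ := near_out hKA hx hAL hUU hst1 hCr1 h1 h2 h4 h5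
          exact ⟨H, h1, h2, h3, h6, h7⟩
    · right; left
      exact ⟨T, hKT, Ne.symm hTK, hTL, hTLe, hfull⟩

end Pool.Agent.Helper730.Tower
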