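import Mathlib
import Pool.Agent.Helper730.Corner2

set_option autoImplicit false
set_option linter.unusedSectionVars false
set_option linter.dupNamespace false

open scoped Pointwise
open Finset

namespace Pool.Agent.Helper730.Tower

open Pool.Agent.Helper730.Kneser
open Pool.Agent.Helper730.Atoms
open Pool.Agent.Helper730.Signed
open Pool.Agent.Helper730.Rel

variable {G : Type*} [AddCommGroup G] [Fintype G] [DecidableEq G]

theorem tower_one {A : Finset G} {K L : AddSubgroup G} {h : ℕ} {x : G} (hKL : K ≤ L)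
    (hKA : K ≤ stab A) (hx : x ∈ A) (ha : A.card = (fs K).card) :
    Tower h x K L (A : Set G) := by
  have hsub : tr (fs K) x ⊆ A := by
    intro y hy
    rw [mem_tr, mem_fs] at hy
    have := stab_add (hKA hy) hx
    have e : x + (y - x) = y := by abel
    rwa [e] at this
  have heq := Finset.eq_of_subset_of_card_le hsub (by rw [card_tr, ha])
  have e : (A : Set G) = {y | y - x ∈ K} := by
    ext y
    rw [← heq, Finset.mem_coe, mem_tr, mem_fs]
    rfl
  rw [e]
  exact Tower.base.enlarge hKL

/-- Composition of the two towers coming from a reduction. -/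
theorem tower_glue {A : Finset G} {K H L : AddSubgroup G} {h : ℕ} {x : G} (hh : 1 ≤ h)
    (hF : FullOut A H x)
    (t1 : Tower h x K H (cs A H x : Set G)) (t2 : Tower h x H L ((A + fs H : Finset G) : Set G)) :
    Tower h x K L (A : Set G) := by
  have t := Tower.comp hh t1 t2
  have e : (cs A H x : Set G) ∪ {y | y ∈ ((A + fs H : Finset G) : Set G) ∧ y - x ∉ H}
      = (A : Set G) := by
    ext y
    simp only [Set.mem_union, Finset.mem_coe, Set.mem_ofPred_eq]
    rw [mem_cs, mem_add_fs]
    constructor
    · rintro (⟨hy, -⟩ | ⟨⟨a, ha, hay⟩, hyx⟩)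
      · exact hy
      · have h1 : a - x ∉ H := by
          intro hc
          apply hyx
          have : y - x = (y - a) + (a - x) := by abel
          rw [this]; exact H.add_mem hay hc
        have h2 := hF a ha h1 _ hay
        have : a + (y - a) = y := by abel
        rwa [this] at h2
    · intro hy
      by_cases hyx : y - x ∈ H
      · exact Or.inl ⟨hy, hyx⟩
      · exact Or.inr ⟨⟨y, hy, by rw [sub_self]; exact H.zero_mem⟩, hyx⟩
  rwa [e] at t

/-- Arithmetic of a reduction. -/
theorem red_arith {A : Finset G} {K H L : AddSubgroup G} {N a h : ℕ} {x : G}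
    (hKH : K ≤ H) (hne : K ≠ H) (hHL : H ≤ L) (hne2 : H ≠ L)
    (hN : (fs L).card = N * (fs K).card) (hKA : K ≤ stab A) (hx : x ∈ A)
    (ha : A.card = a * (fs K).card) (hC : Cond h N (a - 1)) (hF : FullOut A H x) :
    ∃ N0 N1 a0 b : ℕ, (fs H).card = N0 * (fs K).card ∧ (fs L).card = N1 * (fs H).card ∧
      N0 < N ∧ N1 < N ∧ (cs A H x).card = a0 * (fs K).card ∧ (A + fs H).card = b * (fs H).card ∧
      Cond h N0 (a0 - 1) ∧ Cond h N1 (b - 1) := by
  have hKpos := fs_card_pos K
  have hHpos := fs_card_pos H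
  have hLpos := fs_card_pos L
  obtain ⟨N0, h0⟩ := fs_dvd hKH
  obtain ⟨N1, h1⟩ := fs_dvd hHL
  rw [mul_comm] at h0 h1
  have hNe : N = N1 * N0 := by
    apply Nat.eq_of_mul_eq_mul_right hKpos
    rw [← hN, h1, h0]; ring
  have hN0 : 2 ≤ N0 := by
    by_contra hc
    apply hne
    apply eq_of_card hKH
    rw [h0]
    calc N0 * (fs K).card ≤ 1 * (fs K).card := Nat.mul_le_mul_right _ (by omega)
      _ = _ := one_mul _
  have hN1 : 2 ≤ N1 := by
    by_contra hc
    apply hne2
    apply eq_of_card hHL
    rw [h1]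
    calc N1 * (fs H).card ≤ 1 * (fs H).card := Nat.mul_le_mul_right _ (by omega)
      _ = _ := one_mul _
  obtain ⟨a0, h2⟩ := per_card (cs A H x) K (cs_per hKA hKH x)
  obtain ⟨b, h3⟩ := per_card (A + fs H) H (add_fs_per A H)
  rw [mul_comm] at h2 h3
  have hx0 : 0 < (cs A H x).card := Finset.card_pos.mpr ⟨x, cs_self_mem hx⟩
  have ha0 : 1 ≤ a0 := by
    rcases Nat.eq_zero_or_pos a0 with h | h
    · rw [h2, h] at hx0; omega
    · exact h
  have hb0 : 1 ≤ b := by
    rcases Nat.eq_zero_or_pos b with h | h
    · have : 0 < (A + fs H).card := Finset.card_pos.mpr ⟨x, subset_add_fs A H hx⟩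
      rw [h3, h] at this; omega
    · exact h
  have ha0N : a0 ≤ N0 := by
    apply Nat.le_of_mul_le_mul_right _ hKpos
    rw [← h2, ← h0, ← card_tr (fs H) x]
    apply Finset.card_le_card
    intro y hy
    rw [mem_tr, mem_fs]
    exact (mem_cs.mp hy).2
  have h4 := fullOut_card hx hF
  have h5 : a + N0 = b * N0 + a0 := by
    apply Nat.eq_of_mul_eq_mul_right hKpos
    calc (a + N0) * (fs K).card = A.card + (fs H).card := by rw [ha, h0]; ring
      _ = (A + fs H).card + (cs A H x).card := h4
      _ = _ := by rw [h3, h2, h0]; ring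
  have h6 : a - 1 = (b - 1) * N0 + (a0 - 1) := by
    obtain ⟨b', rfl⟩ := Nat.exists_eq_add_of_le hb0
    have : (1 + b') * N0 = b' * N0 + N0 := by ring
    rw [this] at h5
    have e : 1 + b' - 1 = b' := by omega
    rw [e]
    omega
  rw [hNe] at hC
  refine ⟨N0, N1, a0, b, h0, h1, ?_, ?_, h2, h3, cond_low h6 hC, cond_high h6 (by omega) hC⟩
  · rw [hNe]
    calc N0 < 2 * N0 := by omega
      _ ≤ N1 * N0 := Nat.mul_le_mul_right _ hN1
  · rw [hNe]
    calc N1 < N1 * 2 := by omega
      _ ≤ N1 * N0 := Nat.mul_le_mul_left _ hN0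

/-- Critical sets with a uniquely represented corner are towers. -/
theorem corner (k : ℕ) : ∀ (N : ℕ) (K L : AddSubgroup G) (A : Finset G) (x : G) (a : ℕ),
    K ≤ L → (fs L).card = N * (fs K).card → K ≤ stab A → x ∈ A → (∀ y ∈ A, y - x ∈ L) →
    A.card = a * (fs K).card → Cond (k + 2) N (a - 1) → Crit (k + 1) K A → UU A K (k + 2) x →
    Tower (k + 2) x K L (A : Set G) := by
  intro N
  induction N using Nat.strong_induction_on with
  | _ N ih =>
    intro K L A x a hKL hN hKA hx hAx ha hC hCr hUU
    have hKpos := fs_card_pos K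
    have hapos : 1 ≤ a := by
      rcases Nat.eq_zero_or_pos a with h | h
      · have : 0 < A.card := Finset.card_pos.mpr ⟨x, hx⟩
        rw [ha, h] at this; omega
      · exact h
    rcases Nat.lt_or_ge a 2 with ha1 | ha2
    · apply tower_one hKL hKA hx
      have : a = 1 := by omega
      rw [ha, this, one_mul]
    · rcases corner_alt hKL hN hKA hx hAx ha ha2 hC hCr hUU with
        ⟨a0, d, l, h1, h2⟩ | ⟨H, h1, h2, h3, h4, h5⟩ | ⟨rfl, h1⟩
      · have h3 := ap_order h1 h2 hCr
        have hl : 1 ≤ l := by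
          have : a = l + 1 := by
            apply Nat.eq_of_mul_eq_mul_right hKpos
            rw [← ha, h2]
          omega
        obtain ⟨d', h4, h5⟩ := ap_corner hl h1 h3 hx hUU
        exact ap_tower hKL h4 h5 hAx
      · obtain ⟨N0, N1, a0, b, e1, e2, e3, e4, e5, e6, e7, e8⟩ :=
          red_arith h1 h2 h3 h4 hN hKA hx ha hC h5
        obtain ⟨f1, f2, f3, f4, f5⟩ := reduction h1 hx h5 hUU hCr
        have t1 := ih N0 e3 K H (cs A H x) x a0 h1 e1 (cs_per hKA h1 x) (cs_self_mem hx)
          (fun y hy => (mem_cs.mp hy).2) e5 e7 f4 f2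
        have t2 := ih N1 e4 H L (A + fs H) x b h3 e2 (add_fs_per A H) (subset_add_fs A H hx)
          (by
            intro y hy
            obtain ⟨u, hu, huy⟩ := mem_add_fs.mp hy
            have : y - x = (y - u) + (u - x) := by abel
            rw [this]; exact L.add_mem (h3 huy) (hAx u hu)) e6 e8 f5 f3
        exact tower_glue (by omega) h5 t1 t2
      · have t := Tower.half (h := 0 + 2) (x := x) (K := K) rfl Tower.base hKL h1
        have e : (A : Set G) = {y | y - x ∈ K} ∪ {y | y - x ∈ {g | x + g ∈ A ∧ g ∉ K}} := by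
          ext y
          simp only [Set.mem_union, Finset.mem_coe, Set.mem_ofPred_eq]
          have e2 : x + (y - x) = y := by abel
          rw [e2]
          constructor
          · intro hy
            by_cases hyx : y - x ∈ K
            · exact Or.inl hyx
            · exact Or.inr ⟨hy, hyx⟩
          · rintro (hy | ⟨hy, -⟩)
            · have := stab_add (hKA hy) hx
              rwa [e2] at this
            · exact hy
        rw [e]
        exact t

/-- Critical sets whose sumset has minimal stabiliser are towers. -/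
theorem aperiodic (k : ℕ) : ∀ (N : ℕ) (K L : AddSubgroup G) (A : Finset G) (a : ℕ),
    K ≤ L → (fs L).card = N * (fs K).card → K ≤ stab A → A.Nonempty →
    (∀ u ∈ A, ∀ v ∈ A, u - v ∈ L) →
    A.card = a * (fs K).card → Cond (k + 2) N (a - 1) → Crit (k + 1) K A →
    stab (hs A (k + 2)) = K → ∃ x ∈ A, Tower (k + 2) x K L (A : Set G) := by
  intro N
  induction N using Nat.strong_induction_on with
  | _ N ih =>
    intro K L A a hKL hN hKA hAne hAL ha hC hCr hst
    have hKpos := fs_card_pos K
    obtain ⟨x1, hx1⟩ := hAne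
    have hapos : 1 ≤ a := by
      rcases Nat.eq_zero_or_pos a with h | h
      · have : 0 < A.card := Finset.card_pos.mpr ⟨x1, hx1⟩
        rw [ha, h] at this; omega
      · exact h
    rcases Nat.lt_or_ge a 2 with ha1 | ha2
    · refine ⟨x1, hx1, tower_one hKL hKA hx1 ?_⟩
      have : a = 1 := by omega
      rw [ha, this, one_mul]
    · have hA2 : 2 * (fs K).card ≤ A.card := by rw [ha]; exact Nat.mul_le_mul_right _ ha2
      rcases struct_rel hKL hKA hAL hA2 hst hCr
        (fun _ => no_double hN ha ha2 (by omega) hC) with ⟨x, d, l, h1, h2⟩ | ⟨H, h1, h2, h3, h4, h5⟩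
      · have h3 := ap_order h1 h2 hCr
        have hx : x ∈ A := by
          rw [h1]
          exact ⟨0, Nat.zero_le _, by simp⟩
        exact ⟨x, hx, ap_tower hKL h1 h3 (fun y hy => hAL y hy x hx)⟩
      · obtain ⟨x0, hx0, hF, hU0, hC0, hst0, hCH⟩ := quasi hKA h1 h2 h4 hst hCr
        have hne2 : H ≠ L := by
          rintro rfl
          obtain ⟨u, hu, v, hv, huv⟩ := h5
          exact huv (hAL u hu v hv)
        obtain ⟨N0, N1, a0, b, e1, e2, e3, e4, e5, e6, e7, e8⟩ :=
          red_arith h1 h2 h3 hne2 hN hKA hx0 ha hC hF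
        obtain ⟨x, hxc, t1⟩ := ih N0 e3 K H (cs A H x0) a0 h1 e1 (cs_per hKA h1 x0)
          ⟨x0, cs_self_mem hx0⟩ (by
            intro u hu v hv
            have : u - v = (u - x0) - (v - x0) := by abel
            rw [this]
            exact H.sub_mem (mem_cs.mp hu).2 (mem_cs.mp hv).2) e5 e7 hC0 hst0
        obtain ⟨hx, hxx⟩ := mem_cs.mp hxc
        have hF' := FullOut_congr hxx hF
        have hU' := UU_add_fs (UU_congr hxx hU0)
        have t2 := corner k N1 H L (A + fs H) x b h3 e2 (add_fs_per A H) (subset_add_fs A H hx)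
          (by
            intro y hy
            obtain ⟨u, hu, huy⟩ := mem_add_fs.mp hy
            have : y - x = (y - u) + (u - x) := by abel
            rw [this]; exact L.add_mem (h3 huy) (hAL u hu x hx)) e6 e8 hCH hU'
        refine ⟨x, hx, tower_glue (by omega) hF' ?_ t2⟩
        rw [← cs_eq_of_mem (X := A) hxx] at t1
        exact t1

end Pool.Agent.Helper730.Tower
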