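import Mathlib
import Pool.Agent.Helper730.Corner3

set_option autoImplicit false
set_option linter.unusedSectionVars false
set_option linter.dupNamespace false

open scoped Pointwise
open Finset

namespace Pool.Agent.Helper730.Tower

open Pool.Agent.Helper730.Kneser
open Pool.Agent.Helper730.Atoms
open Pool.Agent.Helper730.Signed
open Pool.Agent.Helper730.Rel

variable {G : Type*} [AddCommGroup G] [Fintype G] [DecidableEq G]

/-- The cosets `c + (j + 1) d + H` for `j < m`. -/
noncomputable def cosets (H : AddSubgroup G) (c d : G) (m : ℕ) : Finset G :=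
  (Finset.range m).biUnion (fun j => tr (fs H) (c + (j + 1) • d))

theorem mem_cosets {H : AddSubgroup G} {c d y : G} {m : ℕ} :
    y ∈ cosets H c d m ↔ ∃ j : ℕ, j < m ∧ y - (c + (j + 1) • d) ∈ H := by
  unfold cosets
  rw [Finset.mem_biUnion]
  constructor
  · rintro ⟨j, hj, hy⟩
    rw [mem_tr, mem_fs] at hy
    exact ⟨j, Finset.mem_range.mp hj, hy⟩
  · rintro ⟨j, hj, hy⟩
    exact ⟨j, Finset.mem_range.mpr hj, by rw [mem_tr, mem_fs]; exact hy⟩

theorem cosets_le (H : AddSubgroup G) (c d : G) (m : ℕ) :
    (cosets H c d m).card ≤ m * (fs H).card := by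
  have := Finset.card_biUnion_le_card_mul (Finset.range m)
    (fun j => tr (fs H) (c + (j + 1) • d)) (fs H).card (fun i _ => by rw [card_tr])
  rwa [Finset.card_range] at this

theorem card_cosets {H : AddSubgroup G} {c d : G} {m : ℕ}
    (hd : ∀ j : ℕ, 1 ≤ j → j ≤ m → j • d ∉ H) (B : Finset G) (hB : ∀ y ∈ B, y - c ∈ H) :
    (B ∪ cosets H c d m).card = B.card + m * (fs H).card := by
  have hdis : Disjoint B (cosets H c d m) := by
    rw [Finset.disjoint_left]
    intro y hy hy'
    obtain ⟨j, hj, hyj⟩ := mem_cosets.mp hy'
    apply hd (j + 1) (by omega) (by omega)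
    have : (j + 1) • d = (y - c) - (y - (c + (j + 1) • d)) := by abel
    rw [this]
    exact H.sub_mem (hB y hy) hyj
  have hc : (cosets H c d m).card = m * (fs H).card := by
    unfold cosets
    rw [Finset.card_biUnion]
    · simp only [card_tr]
      rw [Finset.sum_const, Finset.card_range, smul_eq_mul]
    · have key : ∀ i j : ℕ, i < j → j < m → Disjoint (tr (fs H) (c + (i + 1) • d))
          (tr (fs H) (c + (j + 1) • d)) := by
        intro i j hij hjm
        apply coset_disjoint
        intro hcon
        apply hd (j - i) (by omega) (by omega)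
        have e : (j + 1) • d = (i + 1) • d + (j - i) • d := by
          rw [← add_nsmul]; congr 1; omega
        have : (j - i) • d = -(c + (i + 1) • d - (c + (j + 1) • d)) := by rw [e]; abel
        rw [this]
        exact H.neg_mem hcon
      intro i hi j hj hij
      rw [Finset.mem_coe, Finset.mem_range] at hi hj
      rcases Nat.lt_or_ge i j with h | h
      · exact key i j h hj
      · exact (key j i (by omega) hi).symm
  rw [Finset.card_union_of_disjoint hdis, hc]

theorem hs_sub_coset {B : Finset G} {H : AddSubgroup G} {c : G} (hB : ∀ y ∈ B, y - c ∈ H) (n : ℕ) :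
    ∀ w ∈ hs B n, w - n • c ∈ H := by
  have e : cs B H c = B := by
    ext y
    rw [mem_cs]
    exact ⟨fun h => h.1, fun h => ⟨h, hB y h⟩⟩
  have := hs_cs_sub B H c n
  rwa [e] at this

theorem prog_sub {B : Finset G} {H : AddSubgroup G} {c d : G} {l : ℕ}
    (hB : ∀ y ∈ B, y - c ∈ H) (n : ℕ) :
    hs (B ∪ cosets H c d l) n ⊆ hs B n ∪ cosets H (n • c) d (n * l) := by
  induction n with
  | zero =>
    rw [hs_zero, hs_zero]
    exact Finset.subset_union_left
  | succ n ih =>
    rw [hs_succ]
    intro w hw
    obtain ⟨u, hu, v, hv, rfl⟩ := Finset.mem_add.mp hw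
    have hu' := ih hu
    rw [Finset.mem_union] at hu' hv ⊢
    have hl : (n + 1) * l = n * l + l := by ring
    rcases hu' with hu' | hu'
    · have hun := hs_sub_coset hB n u hu'
      rcases hv with hv | hv
      · left
        rw [hs_succ]
        exact Finset.add_mem_add hu' hv
      · right
        obtain ⟨j, hj, hvj⟩ := mem_cosets.mp hv
        rw [mem_cosets]
        refine ⟨j, by omega, ?_⟩
        have : u + v - ((n + 1) • c + (j + 1) • d)
            = (u - n • c) + (v - (c + (j + 1) • d)) := by
          rw [succ_nsmul c n]; abel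
        rw [this]; exact H.add_mem hun hvj
    · obtain ⟨i, hi, hui⟩ := mem_cosets.mp hu'
      right
      rw [mem_cosets]
      rcases hv with hv | hv
      · refine ⟨i, by omega, ?_⟩
        have : u + v - ((n + 1) • c + (i + 1) • d)
            = (u - (n • c + (i + 1) • d)) + (v - c) := by
          rw [succ_nsmul c n]; abel
        rw [this]; exact H.add_mem hui (hB v hv)
      · obtain ⟨j, hj, hvj⟩ := mem_cosets.mp hv
        refine ⟨i + j + 1, by omega, ?_⟩
        have e : (i + j + 1 + 1) • d = (i + 1) • d + (j + 1) • d := by
          rw [← add_nsmul]; congr 1; omega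
        have : u + v - ((n + 1) • c + (i + j + 1 + 1) • d)
            = (u - (n • c + (i + 1) • d)) + (v - (c + (j + 1) • d)) := by
          rw [e, succ_nsmul c n]; abel
        rw [this]; exact H.add_mem hui hvj

theorem prog_sup {B : Finset G} {H : AddSubgroup G} {c d : G} {l : ℕ} (hc : c ∈ B) (n : ℕ) :
    hs B n ∪ cosets H (n • c) d (n * l) ⊆ hs (B ∪ cosets H c d l) n := by
  induction n with
  | zero =>
    intro w hw
    rw [Finset.mem_union] at hw
    rcases hw with hw | hw
    · exact hw
    · obtain ⟨j, hj, -⟩ := mem_cosets.mp hw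
      omega
  | succ n ih =>
    intro w hw
    rw [Finset.mem_union] at hw
    rcases hw with hw | hw
    · exact hs_mono Finset.subset_union_left _ hw
    · obtain ⟨j, hj, hwj⟩ := mem_cosets.mp hw
      have hl : (n + 1) * l = n * l + l := by ring
      rw [hs_succ]
      rcases Nat.lt_or_ge j (n * l) with h1 | h1
      · have h2 : w - c ∈ hs (B ∪ cosets H c d l) n := by
          apply ih
          rw [Finset.mem_union]
          right
          rw [mem_cosets]
          refine ⟨j, h1, ?_⟩
          have : w - c - (n • c + (j + 1) • d) = w - ((n + 1) • c + (j + 1) • d) := by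
            rw [succ_nsmul c n]; abel
          rw [this]; exact hwj
        have e : w = (w - c) + c := by abel
        rw [e]
        exact Finset.add_mem_add h2 (Finset.mem_union_left _ hc)
      · rcases Nat.eq_zero_or_pos (n * l) with h0 | hpos
        · have e : w = n • c + (w - n • c) := by abel
          rw [e]
          apply Finset.add_mem_add
          · exact hs_mono Finset.subset_union_left _ (nsmul_mem_hs hc n)
          · rw [Finset.mem_union]
            right
            rw [mem_cosets]
            refine ⟨j, by omega, ?_⟩
            have : w - n • c - (c + (j + 1) • d) = w - ((n + 1) • c + (j + 1) • d) := by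
              rw [succ_nsmul c n]; abel
            rw [this]; exact hwj
        · have e : w = (n • c + (n * l) • d) + (w - (n • c + (n * l) • d)) := by abel
          rw [e]
          apply Finset.add_mem_add
          · apply ih
            rw [Finset.mem_union]
            right
            rw [mem_cosets]
            refine ⟨n * l - 1, by omega, ?_⟩
            have e2 : n * l - 1 + 1 = n * l := by omega
            rw [e2, sub_self]; exact H.zero_mem
          · rw [Finset.mem_union]
            right
            rw [mem_cosets]
            refine ⟨j - n * l, by omega, ?_⟩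
            have e2 : (j + 1) • d = (n * l) • d + (j - n * l + 1) • d := by
              rw [← add_nsmul]; congr 1; omega
            have : w - (n • c + (n * l) • d) - (c + (j - n * l + 1) • d)
                = w - ((n + 1) • c + (j + 1) • d) := by
              rw [succ_nsmul c n, e2]; abel
            rw [this]; exact hwj

theorem prog_crit {B : Finset G} {K H : AddSubgroup G} {k l : ℕ} {x d : G} (hx : x ∈ B)
    (hB : ∀ y ∈ B, y - x ∈ H) (hd : ∀ j : ℕ, 1 ≤ j → j ≤ (k + 2) * l → j • d ∉ H)
    (hCr : Crit (k + 1) K B) : Crit (k + 1) K (B ∪ cosets H x d l) := by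
  have h1 : hs (B ∪ cosets H x d l) (k + 2) = hs B (k + 2) ∪ cosets H ((k + 2) • x) d ((k + 2) * l) :=
    Finset.Subset.antisymm (prog_sub hB _) (prog_sup hx _)
  have h2 := card_cosets (c := (k + 2) • x) hd (hs B (k + 2)) (hs_sub_coset hB (k + 2))
  have h3 := card_cosets (c := x) (m := l) (fun j h1 h2 => hd j h1
    (h2.trans (Nat.le_mul_of_pos_left l (by omega)))) B hB
  unfold Crit at hCr ⊢
  have e1 : k + 1 + 1 = k + 2 := rfl
  rw [e1] at *
  rw [h1, h2, h3]
  have h4 : (k + 2) * (B.card + l * (fs H).card)
      = (k + 2) * B.card + (k + 2) * l * (fs H).card := by ring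
  omega

theorem half_crit {B S : Finset G} {K H H' : AddSubgroup G} {x : G} (hx : x ∈ B)
    (hB : ∀ y ∈ B, y - x ∈ H) (hHH : H ≤ H') (hS : IsHalf H H' (S : Set G))
    (hCr : Crit 1 K B) : Crit 1 K (B ∪ tr S x) := by
  obtain ⟨hS1, hS2⟩ := hS
  have hHpos := fs_card_pos H
  -- size of `S`
  have hScard : 2 * S.card + (fs H).card = (fs H').card := by
    set S' := S.image (fun y => -y) with hS'
    have hc : S'.card = S.card := Finset.card_image_of_injective _ neg_injective
    have hd1 : Disjoint S S' := by
      rw [Finset.disjoint_left]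
      intro g hg hg'
      rw [hS', Finset.mem_image] at hg'
      obtain ⟨s, hs, hsg⟩ := hg'
      have h1 := hS1 g (Finset.mem_coe.mpr hg)
      have h2 := (hS2 g h1.1 h1.2.1).mp (Finset.mem_coe.mpr hg)
      apply h2
      rw [← hsg, neg_neg]
      exact Finset.mem_coe.mpr hs
    have hd2 : Disjoint (S ∪ S') (fs H) := by
      rw [Finset.disjoint_left]
      intro g hg hgH
      rw [mem_fs] at hgH
      rw [Finset.mem_union] at hg
      rcases hg with hg | hg
      · exact (hS1 g (Finset.mem_coe.mpr hg)).2.1 hgH
      · rw [hS', Finset.mem_image] at hg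
        obtain ⟨s, hs, rfl⟩ := hg
        apply (hS1 s (Finset.mem_coe.mpr hs)).2.1
        have := H.neg_mem hgH
        rwa [neg_neg] at this
    have hu : (S ∪ S') ∪ fs H = fs H' := by
      ext g
      rw [Finset.mem_union, Finset.mem_union, mem_fs, mem_fs, hS', Finset.mem_image]
      constructor
      · rintro ((hg | ⟨s, hs, rfl⟩) | hg)
        · exact (hS1 g (Finset.mem_coe.mpr hg)).1
        · exact H'.neg_mem (hS1 s (Finset.mem_coe.mpr hs)).1
        · exact hHH hg
      · intro hg
        by_cases hgH : g ∈ H
        · exact Or.inr hgH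
        · left
          by_cases hgS : g ∈ S
          · exact Or.inl hgS
          · right
            refine ⟨-g, ?_, neg_neg g⟩
            by_contra hc
            exact hgS ((hS2 g hg hgH).mpr hc)
    have := congrArg Finset.card hu
    rw [Finset.card_union_of_disjoint hd2, Finset.card_union_of_disjoint hd1, hc] at this
    omega
  have hdis : Disjoint B (tr S x) := by
    rw [Finset.disjoint_left]
    intro y hy hy'
    rw [mem_tr] at hy'
    exact (hS1 _ (Finset.mem_coe.mpr hy')).2.1 (hB y hy)
  have hcard : (B ∪ tr S x).card = B.card + S.card := by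
    rw [Finset.card_union_of_disjoint hdis, card_tr]
  -- sumset
  have hsum : hs (B ∪ tr S x) 2 = hs B 2 ∪ (tr (fs H') (2 • x) \ tr (fs H) (2 • x)) := by
    rw [hs_two, hs_two]
    apply Finset.Subset.antisymm
    · intro w hw
      obtain ⟨u, hu, v, hv, rfl⟩ := Finset.mem_add.mp hw
      rw [Finset.mem_union, mem_tr] at hu hv
      rw [Finset.mem_union, Finset.mem_sdiff, mem_tr, mem_fs, mem_tr, mem_fs]
      have e : u + v - 2 • x = (u - x) + (v - x) := by rw [two_nsmul]; abel
      rw [e]
      rcases hu with hu | hu <;> rcases hv with hv | hv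
      · left; exact Finset.add_mem_add hu hv
      · right
        have h1 := hS1 _ (Finset.mem_coe.mpr hv)
        have h2 := h1.2.2 _ (hB u hu)
        have h3 := hS1 _ h2
        rw [add_comm (u - x)]
        exact ⟨h3.1, h3.2.1⟩
      · right
        have h1 := hS1 _ (Finset.mem_coe.mpr hu)
        have h2 := h1.2.2 _ (hB v hv)
        have h3 := hS1 _ h2
        exact ⟨h3.1, h3.2.1⟩
      · right
        have h1 := hS1 _ (Finset.mem_coe.mpr hu)
        have h2 := hS1 _ (Finset.mem_coe.mpr hv)
        refine ⟨H'.add_mem h1.1 h2.1, fun hc => ?_⟩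
        have h3 := (hS2 _ h1.1 h1.2.1).mp (Finset.mem_coe.mpr hu)
        apply h3
        have h4 := h2.2.2 _ (H.neg_mem hc)
        have e2 : v - x + -(u - x + (v - x)) = -(u - x) := by abel
        rwa [e2] at h4
    · intro w hw
      rw [Finset.mem_union] at hw
      rcases hw with hw | hw
      · exact Finset.add_subset_add Finset.subset_union_left Finset.subset_union_left hw
      · rw [Finset.mem_sdiff, mem_tr, mem_fs, mem_tr, mem_fs] at hw
        set g := w - 2 • x with hg
        have hw2 : w = 2 • x + g := by rw [hg]; abel
        by_cases hgS : g ∈ S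
        · have e : w = x + (x + g) := by rw [hw2, two_nsmul]; abel
          rw [e]
          apply Finset.add_mem_add (Finset.mem_union_left _ hx)
          rw [Finset.mem_union, mem_tr]
          right
          have e2 : x + g - x = g := by abel
          rwa [e2]
        · -- pigeonhole
          set Y := S ∪ fs H with hY
          have hYc : Y.card = S.card + (fs H).card := by
            apply Finset.card_union_of_disjoint
            rw [Finset.disjoint_left]
            intro s hs hsH
            exact (hS1 s (Finset.mem_coe.mpr hs)).2.1 (mem_fs.mp hsH)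
          have hYH : Y ⊆ fs H' := by
            intro y hy
            rw [hY, Finset.mem_union] at hy
            rw [mem_fs]
            rcases hy with hy | hy
            · exact (hS1 y (Finset.mem_coe.mpr hy)).1
            · exact hHH (mem_fs.mp hy)
          have hnd : ¬ Disjoint Y (Y.image (fun y => g - y)) := by
            intro hdj
            have h1 : Y ∪ Y.image (fun y => g - y) ⊆ fs H' := by
              apply Finset.union_subset hYH
              intro y hy
              rw [Finset.mem_image] at hy
              obtain ⟨z, hz, rfl⟩ := hy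
              rw [mem_fs]
              exact H'.sub_mem hw.1 (mem_fs.mp (hYH hz))
            have h2 := Finset.card_le_card h1
            rw [Finset.card_union_of_disjoint hdj,
              Finset.card_image_of_injective _ sub_right_injective] at h2
            omega
          rw [Finset.not_disjoint_iff] at hnd
          obtain ⟨y, hy, hy'⟩ := hnd
          rw [Finset.mem_image] at hy'
          obtain ⟨z, hz, hzy⟩ := hy'
          have hgyz : g = y + z := by rw [← hzy]; abel
          rw [hY, Finset.mem_union] at hy hz
          rcases hy with hy | hy <;> rcases hz with hz | hz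
          · have e : w = (x + y) + (x + z) := by rw [hw2, hgyz, two_nsmul]; abel
            rw [e]
            apply Finset.add_mem_add <;> rw [Finset.mem_union, mem_tr] <;> right
            · have e2 : x + y - x = y := by abel
              rwa [e2]
            · have e2 : x + z - x = z := by abel
              rwa [e2]
          · exfalso
            apply hgS
            rw [hgyz]
            exact Finset.mem_coe.mp ((hS1 y (Finset.mem_coe.mpr hy)).2.2 z (mem_fs.mp hz))
          · exfalso
            apply hgS
            rw [hgyz, add_comm]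
            exact Finset.mem_coe.mp ((hS1 z (Finset.mem_coe.mpr hz)).2.2 y (mem_fs.mp hy))
          · exfalso
            apply hw.2
            rw [hgyz]
            exact H.add_mem (mem_fs.mp hy) (mem_fs.mp hz)
  have hdis2 : Disjoint (hs B 2) (tr (fs H') (2 • x) \ tr (fs H) (2 • x)) := by
    rw [Finset.disjoint_left]
    intro w hw hw'
    rw [Finset.mem_sdiff, mem_tr, mem_fs, mem_tr, mem_fs] at hw'
    exact hw'.2 (hs_sub_coset hB 2 w hw)
  have hsub : tr (fs H) (2 • x) ⊆ tr (fs H') (2 • x) := by
    intro w hw
    rw [mem_tr, mem_fs] at hw ⊢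
    exact hHH hw
  have hle := fs_card_mono hHH
  have h1 : (hs (B ∪ tr S x) 2).card = (hs B 2).card + ((fs H').card - (fs H).card) := by
    rw [hsum, Finset.card_union_of_disjoint hdis2, Finset.card_sdiff_of_subset hsub, card_tr,
      card_tr]
  have hCr' : (hs B 2).card + 1 * (fs K).card = 2 * B.card := hCr
  show (hs (B ∪ tr S x) 2).card + 1 * (fs K).card = 2 * (B ∪ tr S x).card
  rw [h1, hcard]
  omega

/-- Towers are critical. -/
theorem tower_crit {k : ℕ} {x : G} {K H : AddSubgroup G} {B : Set G}
    (t : Tower (k + 2) x K H B) :
    ∃ B' : Finset G, (B' : Set G) = B ∧ K ≤ stab B' ∧ x ∈ B' ∧ Crit (k + 1) K B' := by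
  classical
  induction t with
  | base =>
    refine ⟨tr (fs K) x, ?_, ?_, ?_, ?_⟩
    · ext y
      rw [Finset.mem_coe, mem_tr, mem_fs]
      rfl
    · intro g hg
      apply mem_stab_of_forall
      intro y hy
      rw [mem_tr, mem_fs] at hy ⊢
      have : y + g - x = (y - x) + g := by abel
      rw [this]; exact K.add_mem hy hg
    · rw [mem_tr, mem_fs, sub_self]; exact K.zero_mem
    · unfold Crit
      have h1 : ∀ n : ℕ, hs (tr (fs K) x) (n + 1) = tr (fs K) ((n + 1) • x) := by
        intro n
        induction n with
        | zero => rw [zero_add, hs_one, one_nsmul]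
        | succ n ih =>
          rw [hs_succ, ih, tr_add, add_comm (fs K), tr_add,
            add_fs_stab _ _ (fs_per le_rfl)]
          ext y
          rw [mem_tr, mem_tr, mem_tr]
          have : y - (n + 1) • x - x = y - (n + 1 + 1) • x := by
            rw [succ_nsmul x (n + 1)]; abel
          rw [this]
      rw [h1, card_tr, card_tr]
      ring
  | @prog H1 H2 B S t h1 h2 h3 ih =>
    obtain ⟨B', hB', hKB, hx, hCr⟩ := ih
    obtain ⟨d, l, hd, rfl⟩ := h3
    have hKH := t.le
    have hBH : ∀ y ∈ B', y - x ∈ H1 := by
      intro y hy
      apply t.sub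
      rw [← hB']; exact hy
    refine ⟨B' ∪ cosets H1 x d l, ?_, ?_, Finset.mem_union_left _ hx, prog_crit hx hBH hd hCr⟩
    · ext y
      rw [Finset.coe_union, Set.mem_union, hB', Set.mem_union, Finset.mem_coe, mem_cosets]
      have : (∃ j, j < l ∧ y - (x + (j + 1) • d) ∈ H1) ↔
          y ∈ {y | y - x ∈ {g | ∃ j : ℕ, 1 ≤ j ∧ j ≤ l ∧ g - j • d ∈ H1}} := by
        simp only [Set.mem_ofPred_eq]
        constructor
        · rintro ⟨j, hj, hyj⟩
          refine ⟨j + 1, by omega, by omega, ?_⟩
          have : y - x - (j + 1) • d = y - (x + (j + 1) • d) := by abel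
          rw [this]; exact hyj
        · rintro ⟨j, hj1, hj2, hyj⟩
          refine ⟨j - 1, by omega, ?_⟩
          have e : j - 1 + 1 = j := by omega
          rw [e]
          have : y - (x + j • d) = y - x - j • d := by abel
          rw [this]; exact hyj
      rw [this]
    · intro g hg
      apply mem_stab_of_forall
      intro y hy
      rw [Finset.mem_union] at hy ⊢
      rcases hy with hy | hy
      · exact Or.inl (stab_add (hKB hg) hy)
      · right
        rw [mem_cosets] at hy ⊢
        obtain ⟨j, hj, hyj⟩ := hy
        refine ⟨j, hj, ?_⟩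
        have : y + g - (x + (j + 1) • d) = (y - (x + (j + 1) • d)) + g := by abel
        rw [this]; exact H1.add_mem hyj (hKH hg)
  | @half H1 H2 B S h0 t h1 h3 ih =>
    have hk : k = 0 := by omega
    subst hk
    obtain ⟨B', hB', hKB, hx, hCr⟩ := ih
    have hKH := t.le
    have hBH : ∀ y ∈ B', y - x ∈ H1 := by
      intro y hy
      apply t.sub
      rw [← hB']; exact hy
    set S' : Finset G := Finset.univ.filter (fun g => g ∈ S) with hS'
    have hSS : (S' : Set G) = S := by
      ext g
      rw [Finset.mem_coe, hS', Finset.mem_filter]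
      simp
    rw [← hSS] at h3
    refine ⟨B' ∪ tr S' x, ?_, ?_, Finset.mem_union_left _ hx, half_crit hx hBH h1 h3 hCr⟩
    · ext y
      rw [Finset.coe_union, Set.mem_union, hB', Set.mem_union, Finset.mem_coe, mem_tr, ← hSS]
      rfl
    · intro g hg
      apply mem_stab_of_forall
      intro y hy
      rw [Finset.mem_union, mem_tr] at hy ⊢
      rcases hy with hy | hy
      · exact Or.inl (stab_add (hKB hg) hy)
      · right
        have := (h3.1 _ (Finset.mem_coe.mpr hy)).2.2 g (hKH hg)
        have e : y + g - x = y - x + g := by abel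
        rw [e]
        exact Finset.mem_coe.mp this

end Pool.Agent.Helper730.Tower
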