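import Mathlib
import Pool.Agent.Helper730.Conv

set_option autoImplicit false
set_option linter.unusedSectionVars false
set_option linter.dupNamespace false

open scoped Pointwise
open Finset

namespace Pool.Agent.Helper730.Tower

open Pool.Agent.Helper730.Kneser
open Pool.Agent.Helper730.Atoms
open Pool.Agent.Helper730.Signed
open Pool.Agent.Helper730.Rel

variable {G : Type*} [AddCommGroup G] [Fintype G] [DecidableEq G]

/-- Summing a set with few holes: either the coset is full or all summands lie in one coset. -/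
theorem holes_alt {A B : Finset G} {K : AddSubgroup G} (hKB : K ≤ stab B)
    (hw : (B \ A).card + 1 ≤ (fs K).card) (n : ℕ) :
    ∀ z ∈ hs B (n + 1), (∀ g ∈ K, z + g ∈ hs A (n + 1)) ∨
      ∃ b ∈ B, z - (n + 1) • b ∈ K := by
  have hpart : ∀ b ∈ B, (fs K).card ≤ (cs A K b).card + (B \ A).card := by
    intro b hb
    have h1 : tr (fs K) b ⊆ cs A K b ∪ (B \ A) := by
      intro y hy
      rw [mem_tr, mem_fs] at hy
      have hyB : y ∈ B := by
        have := stab_add (hKB hy) hb
        have e : b + (y - b) = y := by abel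
        rwa [e] at this
      rw [Finset.mem_union, mem_cs, Finset.mem_sdiff]
      by_cases hyA : y ∈ A
      · exact Or.inl ⟨hyA, hy⟩
      · exact Or.inr ⟨hyB, hyA⟩
    have := (Finset.card_le_card h1).trans (Finset.card_union_le _ _)
    rwa [card_tr] at this
  have hpair : ∀ b ∈ B, ∀ b' ∈ B, b - b' ∉ K →
      (fs K).card + 1 ≤ (cs A K b).card + (cs A K b').card := by
    intro b hb b' hb' hbb
    have h1 : tr (fs K) b ∪ tr (fs K) b' ⊆ (cs A K b ∪ cs A K b') ∪ (B \ A) := by
      intro y hy
      rw [Finset.mem_union, mem_tr, mem_fs, mem_tr, mem_fs] at hy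
      have hyB : y ∈ B := by
        rcases hy with hy | hy
        · have := stab_add (hKB hy) hb
          have e : b + (y - b) = y := by abel
          rwa [e] at this
        · have := stab_add (hKB hy) hb'
          have e : b' + (y - b') = y := by abel
          rwa [e] at this
      rw [Finset.mem_union, Finset.mem_union, mem_cs, mem_cs, Finset.mem_sdiff]
      by_cases hyA : y ∈ A
      · left
        rcases hy with hy | hy
        · exact Or.inl ⟨hyA, hy⟩
        · exact Or.inr ⟨hyA, hy⟩
      · exact Or.inr ⟨hyB, hyA⟩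
    have h2 := Finset.card_le_card h1
    rw [Finset.card_union_of_disjoint (coset_disjoint hbb), card_tr, card_tr] at h2
    have h3 := Finset.card_union_le (cs A K b ∪ cs A K b') (B \ A)
    have h4 := Finset.card_union_le (cs A K b) (cs A K b')
    omega
  have hne : ∀ b ∈ B, (cs A K b).Nonempty := by
    intro b hb
    have := hpart b hb
    rw [← Finset.card_pos]; omega
  induction n with
  | zero =>
    intro z hz
    right
    rw [zero_add, hs_one] at hz
    refine ⟨z, hz, ?_⟩
    simp
  | succ n ih =>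
    intro z hz
    rw [hs_succ] at hz
    obtain ⟨u, hu, b, hb, rfl⟩ := Finset.mem_add.mp hz
    rcases ih u hu with h1 | ⟨b', hb', h1⟩
    · left
      intro g hg
      obtain ⟨a, ha⟩ := hne b hb
      rw [mem_cs] at ha
      rw [hs_succ]
      have h2 := h1 (b - a + g) (K.add_mem (by
        have := K.neg_mem ha.2
        rwa [neg_sub] at this) hg)
      have e : u + b + g = (u + (b - a + g)) + a := by abel
      rw [e]
      exact Finset.add_mem_add h2 ha.1
    · by_cases hbb : b' - b ∈ K
      · right
        refine ⟨b', hb', ?_⟩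
        have : u + b - (n + 1 + 1) • b' = (u - (n + 1) • b') - (b' - b) := by
          rw [succ_nsmul b' (n + 1)]; abel
        rw [this]
        exact K.sub_mem h1 hbb
      · left
        intro g hg
        have h2 := hpair b' hb' b hb hbb
        obtain ⟨c, hc⟩ := hs_nonempty (hne b' hb') n
        have h3 := hs_cs_sub A K b' n c hc
        have h4 := fullpair A K b' b (u + g - c - b') (by
          have : u + g - c - b' = (u - (n + 1) • b') + g - (c - n • b') := by
            rw [succ_nsmul b' n]; abel
          rw [this]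
          exact K.sub_mem (K.add_mem h1 hg) h3) h2
        have e : u + b + g = c + (b' + b + (u + g - c - b')) := by abel
        rw [e, show n + 1 + 1 = n + 2 from rfl, hs_add A n 2, hs_two]
        exact Finset.add_mem_add (hs_mono (cs_sub A K b') n hc) h4

theorem hs_one_coset {A : Finset G} {K : AddSubgroup G} {k N r : ℕ} {b : G}
    (hb : ∀ y ∈ A, y - b ∈ K) (hKc : (fs K).card = (k + 2) * r + 1) (hA : r + 1 ≤ A.card)
    (hC : ∀ d, d ∣ (fs K).card → (k + 2) * (r % d) + 1 ≤ d) (hN : N = k + 2) :
    hs A N = tr (fs K) (N • b) := by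
  subst hN
  have hAne : A.Nonempty := by rw [← Finset.card_pos]; omega
  have hsub : hs A (k + 2) ⊆ tr (fs K) ((k + 2) • b) := by
    intro w hw
    rw [mem_tr, mem_fs]
    exact hs_sub_coset hb _ w hw
  apply Finset.eq_of_subset_of_card_le hsub
  rw [card_tr]
  set L := stab (hs A (k + 2)) with hL
  have hLK : L ≤ K := by
    intro g hg
    obtain ⟨z, hz⟩ := hs_nonempty hAne (k + 2)
    have h1 := hs_sub_coset hb _ z hz
    have h2 := hs_sub_coset hb _ _ (stab_add hg hz)
    have : g = (z + g - (k + 2) • b) - (z - (k + 2) • b) := by abel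
    rw [this]; exact K.sub_mem h2 h1
  have h1 := kneser_h hAne (k + 1)
  have e1 : k + 1 + 1 = k + 2 := rfl
  rw [e1, ← hL] at h1
  obtain ⟨c, hc⟩ := per_card (A + fs L) L (add_fs_per A L)
  have h2 := Finset.card_le_card (subset_add_fs A L)
  have h3 := hC _ (fs_dvd hLK)
  have hLpos := fs_card_pos L
  set D := (fs L).card with hD
  have h4 : r / D + 1 ≤ c := by
    have h5 : r < c * D := by
      rw [mul_comm]; omega
    have := (Nat.div_lt_iff_lt_mul hLpos).mpr h5
    omega
  have h5 : (k + 2) * (A + fs L).card = (k + 2) * (c * D) := by rw [hc]; ring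
  have h6 : (k + 2) * ((r / D + 1) * D) ≤ (k + 2) * (c * D) :=
    Nat.mul_le_mul_left _ (Nat.mul_le_mul_right _ h4)
  have h7 := Nat.div_add_mod r D
  have h8 : (k + 2) * ((r / D + 1) * D) = (k + 2) * (D * (r / D)) + (k + 1) * D + D := by ring
  have h9 : (k + 2) * r = (k + 2) * (D * (r / D)) + (k + 2) * (r % D) := by
    conv_lhs => rw [← h7]
    ring
  omega

/-- Arithmetic of the holes. -/
theorem holes_arith {k w t : ℕ} (ht : 1 ≤ t) (h : (k + 2) * w = (k + 1) * (t - 1)) :
    ∃ r, t = (k + 2) * r + 1 ∧ w = (k + 1) * r := by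
  have h1 : (k + 2) ∣ (k + 1) * (t - 1) := ⟨w, h.symm⟩
  have h2 : Nat.Coprime (k + 2) (k + 1) := by
    rw [show k + 2 = (k + 1) + 1 from rfl]
    simp
  obtain ⟨r, hr⟩ := h2.dvd_of_dvd_mul_left h1
  refine ⟨r, by omega, ?_⟩
  apply Nat.eq_of_mul_eq_mul_left (show 0 < k + 2 by omega)
  rw [h, hr]; ring

/-- Sets with the right number of holes have the same sumset. -/
theorem full_holes {A B : Finset G} {K : AddSubgroup G} {k m : ℕ} (hAB : A ⊆ B)
    (hA : A.Nonempty) (hKB : K ≤ stab B) (hm : A.card = m)
    (hC : ∀ d, d ∣ Fintype.card G → (k + 2) * ((m - 1) % d) + 1 ≤ d)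
    (hw : (k + 2) * (B \ A).card = (k + 1) * ((fs K).card - 1)) :
    hs A (k + 2) = hs B (k + 2) := by
  have hKpos := fs_card_pos K
  obtain ⟨r, hr1, hr2⟩ := holes_arith hKpos hw
  apply Finset.Subset.antisymm (hs_mono hAB _)
  intro z hz
  have hw1 : (B \ A).card + 1 ≤ (fs K).card := by
    rw [hr1, hr2]
    have : (k + 2) * r = (k + 1) * r + r := by ring
    omega
  rcases holes_alt hKB hw1 (k + 1) z hz with h1 | ⟨b, hb, h1⟩
  · have := h1 0 K.zero_mem
    rwa [add_zero] at this
  · have hcs : r + 1 ≤ (cs A K b).card := by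
      have h2 : tr (fs K) b ⊆ cs A K b ∪ (B \ A) := by
        intro y hy
        rw [mem_tr, mem_fs] at hy
        have hyB : y ∈ B := by
          have := stab_add (hKB hy) hb
          have e : b + (y - b) = y := by abel
          rwa [e] at this
        rw [Finset.mem_union, mem_cs, Finset.mem_sdiff]
        by_cases hyA : y ∈ A
        · exact Or.inl ⟨hyA, hy⟩
        · exact Or.inr ⟨hyB, hyA⟩
      have h3 := (Finset.card_le_card h2).trans (Finset.card_union_le _ _)
      rw [card_tr, hr1, hr2] at h3
      have : (k + 2) * r = (k + 1) * r + r := by ring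
      omega
    have hCK : ∀ d, d ∣ (fs K).card → (k + 2) * (r % d) + 1 ≤ d := by
      intro d hd
      have h2 : (fs K).card ∣ Fintype.card G := by
        have := fs_dvd (le_top : K ≤ ⊤)
        rwa [fs_top_card] at this
      have h3 := hC d (hd.trans h2)
      obtain ⟨c, hc⟩ := per_card B K hKB
      have hle := Finset.card_le_card hAB
      have hsd := Finset.card_sdiff_of_subset hAB
      have hApos := Finset.card_pos.mpr hA
      have hcpos : 1 ≤ c := by
        rcases Nat.eq_zero_or_pos c with h | h
        · rw [h, mul_zero] at hc; omega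
        · exact h
      have h4 : m - 1 = (fs K).card * (c - 1) + r := by
        have h5 : (fs K).card * c = (fs K).card * (c - 1) + (fs K).card := by
          obtain ⟨c', rfl⟩ := Nat.exists_eq_add_of_le hcpos
          have : 1 + c' - 1 = c' := by omega
          rw [this]; ring
        have h6 : (k + 2) * r = (k + 1) * r + r := by ring
        omega
      have h5 : (m - 1) % d = r % d := by
        rw [h4, Nat.add_mod, Nat.mod_eq_zero_of_dvd (Dvd.dvd.mul_right hd (c - 1)), zero_add,
          Nat.mod_mod]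
      rwa [h5] at h3
    have h2 := hs_one_coset (A := cs A K b) (b := b) (fun y hy => (mem_cs.mp hy).2) hr1 hcs hCK rfl
    have h3 : z ∈ tr (fs K) ((k + 2) • b) := by
      rw [mem_tr, mem_fs]; exact h1
    rw [← h2] at h3
    exact hs_mono (cs_sub A K b) _ h3

/-- Sufficiency. -/
theorem suff {A B : Finset G} {x : G} {K H : AddSubgroup G} {k m : ℕ}
    (t : Tower (k + 2) x K H (B : Set G)) (hAB : A ⊆ B) (hA : A.Nonempty) (hm : A.card = m)
    (hC : ∀ d, d ∣ Fintype.card G → (k + 2) * ((m - 1) % d) + 1 ≤ d)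
    (hw : (k + 2) * (B \ A).card = (k + 1) * ((fs K).card - 1)) :
    (hs A (k + 2)).card = (k + 2) * (m - 1) + 1 := by
  obtain ⟨B', hB', hKB, hx, hCr⟩ := tower_crit t
  have hBB : B' = B := Finset.coe_injective hB'
  subst hBB
  rw [full_holes hAB hA hKB hm hC hw]
  have hKpos := fs_card_pos K
  obtain ⟨r, hr1, hr2⟩ := holes_arith hKpos hw
  unfold Crit at hCr
  have e1 : k + 1 + 1 = k + 2 := rfl
  rw [e1] at hCr
  have hle := Finset.card_le_card hAB
  have hsd := Finset.card_sdiff_of_subset hAB
  have hApos := Finset.card_pos.mpr hA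
  have h1 : B'.card = (m - 1) + 1 + (k + 1) * r := by omega
  rw [h1, hr1] at hCr
  have h2 : (k + 2) * ((m - 1) + 1 + (k + 1) * r)
      = (k + 2) * (m - 1) + 1 + (k + 1) * ((k + 2) * r + 1) := by ring
  omega

/-- Necessity. -/
theorem nec {A : Finset G} {k m : ℕ} (hA : A.Nonempty) (hm : A.card = m)
    (hC : ∀ d, d ∣ Fintype.card G → (k + 2) * ((m - 1) % d) + 1 ≤ d)
    (hs' : (hs A (k + 2)).card = (k + 2) * (m - 1) + 1) :
    ∃ (x : G) (K H : AddSubgroup G) (B : Finset G), Tower (k + 2) x K H (B : Set G) ∧ A ⊆ B ∧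
      (k + 2) * (B \ A).card = (k + 1) * ((fs K).card - 1) := by
  set K := stab (hs A (k + 2)) with hK
  have hKpos := fs_card_pos K
  have hApos := Finset.card_pos.mpr hA
  set t := (fs K).card with ht
  obtain ⟨N, hN⟩ : t ∣ Fintype.card G := by
    have := fs_dvd (le_top : K ≤ ⊤)
    rwa [fs_top_card] at this
  have hCt := hC t ⟨N, hN⟩
  set r := (m - 1) % t with hr
  set q := (m - 1) / t with hq
  have hqr : m = q * t + r + 1 := by
    have := Nat.div_add_mod (m - 1) t
    rw [← hq, ← hr, mul_comm t q] at this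
    omega
  have hkn := kneser_h hA (k + 1)
  have e1 : k + 1 + 1 = k + 2 := rfl
  rw [e1, ← hK] at hkn
  obtain ⟨b, hb⟩ := per_card (A + fs K) K (add_fs_per A K)
  rw [mul_comm, ← ht] at hb
  have hAle := Finset.card_le_card (subset_add_fs A K)
  have hms : (k + 2) * (m - 1) = (k + 2) * (q * t) + (k + 2) * r := by
    rw [show m - 1 = q * t + r by omega]; ring
  rw [hb, ← ht, hs', hms] at hkn
  rw [hm, hb, hqr] at hAle
  have h1 : q + 1 ≤ b := by
    by_contra hc
    have h2 : b ≤ q := by omega
    have := Nat.mul_le_mul_right t h2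
    omega
  have h2 : b ≤ q + 1 := by
    by_contra hc
    have h3 : q + 2 ≤ b := by omega
    have h4 := Nat.mul_le_mul_left (k + 2) (Nat.mul_le_mul_right t h3)
    have h5 : (k + 2) * ((q + 2) * t) = (k + 2) * (q * t) + 2 * ((k + 1) * t) + 2 * t := by
      ring
    omega
  have h3 : b = q + 1 := by omega
  rw [h3] at hkn hb
  have h4 : (k + 2) * ((q + 1) * t) = (k + 2) * (q * t) + (k + 1) * t + t := by ring
  have h5 : (k + 2) * r + 1 = t := by omega
  have h6 : (q + 1) * t = q * t + t := by ring
  -- the periodic set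
  have hBA : (A + fs K).card = m + (k + 1) * r := by
    rw [hb, h6, hqr, ← h5]; ring
  have hsd := Finset.card_sdiff_of_subset (subset_add_fs A K)
  have hsd' : ((A + fs K) \ A).card = (k + 1) * r := by omega
  have hhs : hs (A + fs K) (k + 2) = hs A (k + 2) := by
    rw [hs_add_fs]
    exact add_fs_stab _ _ le_rfl
  have hCr : Crit (k + 1) K (A + fs K) := by
    unfold Crit
    rw [e1, hhs, hs', hb, hms, ← ht]
    omega
  have hCN : Cond (k + 2) N q := by
    have h7 : Cond (k + 2) (N * t) (m - 1) := by
      intro d hd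
      apply hC d
      rw [hN, mul_comm]; exact hd
    exact cond_high (show m - 1 = q * t + r by omega) (by omega) h7
  obtain ⟨x, hx, tw⟩ := aperiodic k N K ⊤ (A + fs K) (q + 1) le_top
    (by rw [fs_top_card, hN, mul_comm]) (add_fs_per A K) (hA.add (fs_nonempty K))
    (fun _ _ _ _ => AddSubgroup.mem_top _) hb (by simpa using hCN) hCr (by rw [hhs])
  refine ⟨x, K, ⊤, A + fs K, tw, subset_add_fs A K, ?_⟩
  rw [hsd', ← ht, ← h5]
  have : (k + 2) * r + 1 - 1 = (k + 2) * r := by omega
  rw [this]; ring

end Pool.Agent.Helper730.Tower
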