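import Mathlib
import Pool.Agent.Helper730.Holes

set_option autoImplicit false
set_option linter.unusedSectionVars false
set_option linter.dupNamespace false

open scoped Pointwise
open Finset

namespace Pool.Agent.Helper730.Tower

open Pool.Agent.Helper730.Kneser
open Pool.Agent.Helper730.Atoms
open Pool.Agent.Helper730.Signed
open Pool.Agent.Helper730.Rel

variable {G : Type*} [AddCommGroup G] [Fintype G] [DecidableEq G]

/-- Every order dividing the order of the group occurs above `K`. -/
theorem exists_sub : ∀ (e : ℕ) (K : AddSubgroup G), e * (fs K).card ∣ Fintype.card G →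
    ∃ K' : AddSubgroup G, K ≤ K' ∧ (fs K').card = e * (fs K).card := by
  classical
  intro e
  induction e using Nat.strong_induction_on with
  | _ e ih =>
    intro K hK
    have hGpos : 0 < Fintype.card G := Fintype.card_pos
    rcases Nat.lt_or_ge e 2 with he | he
    · have he1 : e = 1 := by
        rcases Nat.eq_zero_or_pos e with h | h
        · rw [h, zero_mul] at hK
          have := Nat.eq_zero_of_zero_dvd hK
          omega
        · omega
      exact ⟨K, le_rfl, by rw [he1, one_mul]⟩
    · obtain ⟨p, hp, e', rfl⟩ : ∃ p : ℕ, p.Prime ∧ ∃ e', e = p * e' := by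
        obtain ⟨p, hp, hpe⟩ := Nat.exists_prime_and_dvd (show e ≠ 1 by omega)
        exact ⟨p, hp, hpe⟩
      have hKpos := fs_card_pos K
      have hGK : Fintype.card G = (fs K).card * Fintype.card (G ⧸ K) := by
        have := fs_comap_card (K := K) (⊤ : AddSubgroup (G ⧸ K))
        rw [fs_top_card] at this
        have h2 : (⊤ : AddSubgroup (G ⧸ K)).comap (QuotientAddGroup.mk' K) = ⊤ := by
          ext g; simp
        rw [h2, fs_top_card] at this
        exact this
      have hpQ : p ∣ Fintype.card (G ⧸ K) := by
        rw [hGK, mul_comm _ (fs K).card] at hK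
        have := Nat.dvd_of_mul_dvd_mul_left hKpos hK
        exact (Dvd.intro _ rfl).trans this
      have : Fact p.Prime := ⟨hp⟩
      obtain ⟨g, hg⟩ := exists_prime_addOrderOf_dvd_card p hpQ
      have h1 : (fs (AddSubgroup.zmultiples g)).card = p := by
        rw [fs_card_eq, Nat.card_zmultiples, hg]
      have h2 := fs_comap_card (K := K) (AddSubgroup.zmultiples g)
      rw [h1] at h2
      have he'pos : e' < p * e' := by
        have h3 : 0 < e' := by
          rcases Nat.eq_zero_or_pos e' with h | h
          · rw [h] at he; omega
          · exact h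
        have h4 := hp.two_le
        calc e' < 2 * e' := by omega
          _ ≤ p * e' := Nat.mul_le_mul_right _ h4
      obtain ⟨K', h3, h4⟩ := ih e' he'pos ((AddSubgroup.zmultiples g).comap (QuotientAddGroup.mk' K))
        (by
          rw [h2]
          have : e' * ((fs K).card * p) = p * e' * (fs K).card := by ring
          rw [this]; exact hK)
      refine ⟨K', (le_comap_mk _).trans h3, ?_⟩
      rw [h4, h2]; ring

theorem hs_fs (K : AddSubgroup G) (n : ℕ) : hs (fs K) (n + 1) = fs K := by
  induction n with
  | zero => rw [zero_add, hs_one]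
  | succ n ih => rw [hs_succ, ih]; exact add_fs_stab _ _ (fs_per le_rfl)

/-- Small sumsets of periodic sets of every admissible size. -/
theorem upper (k : ℕ) : ∀ (M : ℕ) (K L : AddSubgroup G) (b : ℕ), (fs L).card = M → K ≤ L →
    1 ≤ b → b * (fs K).card ≤ (fs L).card →
    ∃ B : Finset G, K ≤ stab B ∧ (∀ y ∈ B, y ∈ L) ∧ B.card = b * (fs K).card ∧
      (hs B (k + 2)).card ≤ ((k + 2) * (b - 1) + 1) * (fs K).card := by
  classical
  intro M
  induction M using Nat.strong_induction_on with
  | _ M ih =>
    intro K L b hM hKL hb hbL
    have hKpos := fs_card_pos K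
    rcases Nat.lt_or_ge b 2 with hb1 | hb2
    · have : b = 1 := by omega
      subst this
      refine ⟨fs K, fs_per le_rfl, fun y hy => hKL (mem_fs.mp hy), by rw [one_mul], ?_⟩
      rw [hs_fs]; simp
    · have hne : K ≠ L := by
        rintro rfl
        have : 2 * (fs K).card ≤ b * (fs K).card := Nat.mul_le_mul_right _ hb2
        omega
      -- a maximal proper subgroup
      obtain ⟨H, hHmem, hHmax⟩ := Set.exists_max_image
        {H : AddSubgroup G | K ≤ H ∧ H ≤ L ∧ H ≠ L} (fun H => (fs H).card)
        (Set.toFinite _) ⟨K, le_rfl, hKL, hne⟩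
      obtain ⟨hKH, hHL, hHne⟩ := hHmem
      obtain ⟨d, hdL, hdH⟩ : ∃ d ∈ L, d ∉ H := by
        by_contra hcon
        push Not at hcon
        exact hHne (le_antisymm hHL hcon)
      have hsup : H ⊔ AddSubgroup.zmultiples d = L := by
        by_contra hcon
        have hle : H ⊔ AddSubgroup.zmultiples d ≤ L :=
          sup_le hHL (by rw [AddSubgroup.zmultiples_le]; exact hdL)
        have h1 := hHmax (H ⊔ AddSubgroup.zmultiples d)
          ⟨hKH.trans le_sup_left, hle, hcon⟩
        have h2 := eq_of_card (le_sup_left : H ≤ H ⊔ AddSubgroup.zmultiples d) h1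
        apply hdH
        rw [h2]
        exact (le_sup_right : _ ≤ H ⊔ AddSubgroup.zmultiples d) (AddSubgroup.mem_zmultiples d)
      have hex : ∃ p : ℕ, 1 ≤ p ∧ p • d ∈ H :=
        ⟨addOrderOf d, addOrderOf_pos d, by rw [addOrderOf_nsmul_eq_zero]; exact H.zero_mem⟩
      set p := Nat.find hex with hp
      obtain ⟨hp1, hp2⟩ := Nat.find_spec hex
      rw [← hp] at hp1 hp2
      have hpmin : ∀ j : ℕ, 1 ≤ j → j < p → j • d ∉ H := by
        intro j hj1 hj2 hj3
        exact Nat.find_min hex hj2 ⟨hj1, hj3⟩
      have hLp : (fs L).card ≤ p * (fs H).card := by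
        have hsub : fs L ⊆ (Finset.range p).biUnion (fun j => tr (fs H) (j • d)) := by
          intro y hy
          rw [mem_fs, ← hsup, AddSubgroup.mem_sup] at hy
          obtain ⟨u, hu, v, hv, rfl⟩ := hy
          have hfin : v ∈ AddSubmonoid.multiples d := by
            rw [mem_multiples_iff_mem_zmultiples]; exact hv
          obtain ⟨n, hn⟩ := hfin
          simp only at hn
          rw [Finset.mem_biUnion]
          refine ⟨n % p, Finset.mem_range.mpr (Nat.mod_lt _ hp1), ?_⟩
          rw [mem_tr, mem_fs, ← hn]
          have e : n • d = (n / p) • (p • d) + (n % p) • d := by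
            rw [← mul_nsmul, ← add_nsmul, Nat.div_add_mod]
          have e2 : u + n • d - (n % p) • d = u + (n / p) • (p • d) := by rw [e]; abel
          rw [e2]
          exact H.add_mem hu (H.nsmul_mem hp2 _)
        have h1 := Finset.card_le_card hsub
        have h2 := Finset.card_biUnion_le_card_mul (Finset.range p)
          (fun j => tr (fs H) (j • d)) (fs H).card (fun i _ => by rw [card_tr])
        rw [Finset.card_range] at h2
        omega
      obtain ⟨s, hs'⟩ := fs_dvd hKH
      rw [mul_comm] at hs'
      have hspos : 0 < s := by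
        rcases Nat.eq_zero_or_pos s with h | h
        · have := fs_card_pos H
          rw [hs', h] at this; omega
        · exact h
      set q := (b - 1) / s with hq
      set r := (b - 1) % s with hr
      have hrs : r < s := Nat.mod_lt _ hspos
      have hqr : b - 1 = q * s + r := by
        have := Nat.div_add_mod (b - 1) s
        rw [← hq, ← hr, mul_comm s q] at this
        omega
      have hHlt : (fs H).card < M := by
        rw [← hM]
        rcases Nat.lt_or_ge (fs H).card (fs L).card with h | h
        · exact h
        · exact absurd (eq_of_card hHL h) hHne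
      obtain ⟨B0, g1, g2, g3, g4⟩ := ih (fs H).card hHlt K H (r + 1) rfl hKH (by omega) (by
        rw [hs']; exact Nat.mul_le_mul_right _ hrs)
      have hqp : q < p := by
        have h1 : b ≤ p * s := by
          apply Nat.le_of_mul_le_mul_right _ hKpos
          calc b * (fs K).card ≤ (fs L).card := hbL
            _ ≤ p * (fs H).card := hLp
            _ = p * s * (fs K).card := by rw [hs']; ring
        by_contra hc
        have h2 : p ≤ q := by omega
        have h3 := Nat.mul_le_mul_right s h2
        omega
      have hB0 : ∀ y ∈ B0, y - 0 ∈ H := by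
        intro y hy
        rw [sub_zero]; exact g2 y hy
      refine ⟨B0 ∪ cosets H 0 d q, ?_, ?_, ?_, ?_⟩
      · intro g hg
        apply mem_stab_of_forall
        intro y hy
        rw [Finset.mem_union] at hy ⊢
        rcases hy with hy | hy
        · exact Or.inl (stab_add (g1 hg) hy)
        · right
          rw [mem_cosets] at hy ⊢
          obtain ⟨j, hj, hyj⟩ := hy
          refine ⟨j, hj, ?_⟩
          have : y + g - (0 + (j + 1) • d) = (y - (0 + (j + 1) • d)) + g := by abel
          rw [this]; exact H.add_mem hyj (hKH hg)
      · intro y hy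
        rw [Finset.mem_union] at hy
        rcases hy with hy | hy
        · exact hHL (g2 y hy)
        · rw [mem_cosets] at hy
          obtain ⟨j, hj, hyj⟩ := hy
          have : y = (y - (0 + (j + 1) • d)) + (j + 1) • d := by abel
          rw [this]
          exact L.add_mem (hHL hyj) (L.nsmul_mem hdL _)
      · rw [card_cosets (fun j h1 h2 => hpmin j h1 (by omega)) B0 hB0, g3, hs']
        have : b = q * s + r + 1 := by omega
        rw [this]; ring
      · have h1 := Finset.card_le_card (prog_sub (c := 0) (d := d) (l := q) hB0 (k + 2))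
        have h2 := h1.trans (Finset.card_union_le _ _)
        have h3 := cosets_le H ((k + 2) • (0 : G)) d ((k + 2) * q)
        have e : r + 1 - 1 = r := by omega
        rw [e] at g4
        calc (hs (B0 ∪ cosets H 0 d q) (k + 2)).card
            ≤ ((k + 2) * r + 1) * (fs K).card + (k + 2) * q * (fs H).card := by omega
          _ = ((k + 2) * (b - 1) + 1) * (fs K).card := by rw [hs', hqr]; ring

end Pool.Agent.Helper730.Tower
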