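import Pool.Agent.Helper730.LN6Defs

set_option autoImplicit false

open scoped commutatorElement

namespace Pool.Agent.Helper730.LN6

/-- iterated commutator weights -/
def HW {A : Type} [Ring A] (L : AddSubgroup A) (r : A) : ℕ → A → Prop
  | 0, x => x ∈ L ∧ x * r = 0
  | j + 1, x => x ∈ L ∧ ∀ z, z ∈ L → z * r = 0 → HW L r j (z * x - x * z)

/-- killed by all products of `k` letters -/
def Kill {A : Type} [Ring A] (L : AddSubgroup A) (r : A) (k : ℕ) (v : A) : Prop :=
  ∀ zs : List A, (∀ z ∈ zs, z ∈ L ∧ z * r = 0) → k ≤ zs.length → zs.prod * v = 0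

theorem kill_left {A : Type} [Ring A] {L : AddSubgroup A} {r : A} {k : ℕ} {v z : A}
    (hz : z ∈ L ∧ z * r = 0) (h : Kill L r (k + 1) v) : Kill L r k (z * v) := by
  intro zs hzs hk
  have := h (zs ++ [z]) (by
    intro w hw
    rcases List.mem_append.1 hw with h1 | h1
    · exact hzs w h1
    · rw [List.mem_singleton.1 h1]; exact hz) (by simp; omega)
  rw [List.prod_append, List.prod_singleton, mul_assoc] at this
  exact this

theorem kill_mono {A : Type} [Ring A] {L : AddSubgroup A} {r : A} {k k' : ℕ} {v : A}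
    (hk : k ≤ k') (h : Kill L r k v) : Kill L r k' v :=
  fun zs hzs hl => h zs hzs (le_trans hk hl)

theorem kill_mul {A : Type} [Ring A] {L : AddSubgroup A} {r : A} :
    ∀ j k : ℕ, ∀ v : A, Kill L r k v → ∀ x, HW L r j x → Kill L r (k + j) (x * v) := by
  intro j
  induction j with
  | zero =>
    intro k v hv x hx
    exact kill_left hx (kill_mono (Nat.le_succ k) hv)
  | succ j ihj =>
    intro k
    induction k with
    | zero =>
      intro v hv x hx
      have h0 : v = 0 := by simpa using hv [] (by simp) (by simp)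
      intro zs hzs hl
      rw [h0, mul_zero, mul_zero]
    | succ k ihk =>
      intro v hv x hx zs hzs hl
      rcases List.eq_nil_or_concat zs with h | ⟨zs', z, h⟩
      · subst h
        simp at hl
      · subst h
        have hz : z ∈ L ∧ z * r = 0 := hzs z (by simp)
        have hzs' : ∀ w ∈ zs', w ∈ L ∧ w * r = 0 := fun w hw => hzs w (by simp [hw])
        have hl' : k + (j + 1) ≤ zs'.length := by
          simp at hl
          omega
        have e1 := ihk (z * v) (kill_left hz hv) x hx zs' hzs' hl'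
        have e2 := ihj (k + 1) v hv (z * x - x * z) (hx.2 z hz.1 hz.2) zs' hzs' (by omega)
        have e3 : zs'.prod * z * (x * v) = zs'.prod * (x * (z * v)) +
            zs'.prod * ((z * x - x * z) * v) := by noncomm_ring
        simp only [List.concat_eq_append, List.prod_append, List.prod_singleton]
        rw [e3, e1, e2, add_zero]

theorem hw_of {A : Type} [Ring A] {L : AddSubgroup A}
    (hL : ∀ x ∈ L, ∀ y ∈ L, x * y - y * x ∈ L) {r : A} : ∀ j : ℕ, ∀ y ∈ L,
    (∀ zs : List A, (∀ z ∈ zs, z ∈ L ∧ z * r = 0) → zs.length = j → zs.prod * (y * r) = 0) →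
    HW L r j y := by
  intro j
  induction j with
  | zero =>
    intro y hy h
    exact ⟨hy, by simpa using h [] (by simp) rfl⟩
  | succ j ih =>
    intro y hy h
    refine ⟨hy, fun z hz hzr => ih _ (hL z hz y hy) ?_⟩
    intro zs hzs hl
    have := h (zs ++ [z]) (by
      intro w hw
      rcases List.mem_append.1 hw with h1 | h1
      · exact hzs w h1
      · rw [List.mem_singleton.1 h1]; exact ⟨hz, hzr⟩) (by simp [hl])
    rw [List.prod_append, List.prod_singleton] at this
    have e : zs.prod * ((z * y - y * z) * r) = zs.prod * z * (y * r) - zs.prod * (y * (z * r)) := by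
      noncomm_ring
    rw [e, this, hzr, mul_zero, mul_zero, sub_zero]

theorem word_kill {A : Type} [Ring A] (L : AddSubgroup A)
    (hL : ∀ x ∈ L, ∀ y ∈ L, x * y - y * x ∈ L) (r : A) (N : ℕ)
    (hN : ∀ z : Fin N → A, (∀ i, z i ∈ L ∧ z i * r = 0) → ∀ y ∈ L,
      (List.ofFn z).prod * (y * r) = 0)
    (zs ws : List A) (hz : ∀ z ∈ zs, z ∈ L ∧ z * r = 0) (hw : ∀ w ∈ ws, w ∈ L)
    (hlen : ws.length * N + 1 ≤ zs.length) : zs.prod * ws.prod * r = 0 := by
  have hH : ∀ y ∈ L, HW L r N y := by
    intro y hy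
    refine hw_of hL N y hy ?_
    intro zs hzs hl
    subst hl
    have := hN zs.get (fun i => hzs _ (List.get_mem _ _)) y hy
    rw [List.ofFn_get] at this
    exact this
  have hr : Kill L r 1 r := by
    intro zs hzs hl
    rcases List.eq_nil_or_concat zs with h | ⟨zs', z, h⟩
    · subst h
      simp at hl
    · subst h
      have hz : z ∈ L ∧ z * r = 0 := hzs z (by simp)
      simp only [List.concat_eq_append, List.prod_append, List.prod_singleton]
      rw [mul_assoc, hz.2, mul_zero]
  have hk : ∀ ws : List A, (∀ w ∈ ws, w ∈ L) → Kill L r (ws.length * N + 1) (ws.prod * r) := by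
    intro ws
    induction ws with
    | nil =>
      intro _
      simpa using hr
    | cons w ws ih =>
      intro hw
      have h1 := ih fun x hx => hw x (by simp [hx])
      have h2 := kill_mul N _ _ h1 w (hH w (hw w (by simp)))
      rw [List.prod_cons, mul_assoc]
      refine kill_mono (le_of_eq ?_) h2
      simp only [List.length_cons]
      ring
  rw [mul_assoc]
  exact hk ws hw zs hz hlen

/-- span of the products of fewer than `m` elements -/
def len_span_S {K A : Type} [Field K] [Ring A] [Algebra K A] (L : Submodule K A) (m : ℕ) :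
    Submodule K A :=
  Submodule.span K {b : A | ∃ l : List A, l.length + 1 ≤ m ∧ (∀ x ∈ l, x ∈ L) ∧ b = l.prod}

theorem len_span_mem {K A : Type} [Field K] [Ring A] [Algebra K A] (L : Submodule K A) (m : ℕ)
    (l : List A) (h1 : l.length + 1 ≤ m) (h2 : ∀ x ∈ l, x ∈ L) : l.prod ∈ len_span_S L m :=
  Submodule.subset_span ⟨l, h1, h2, rfl⟩

theorem len_span_mul {K A : Type} [Field K] [Ring A] [Algebra K A] (L : Submodule K A) (m : ℕ)
    (x b : A) (hx : x ∈ L) (hb : b ∈ len_span_S L m) : x * b ∈ len_span_S L (m + 1) := by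
  unfold len_span_S at hb
  induction hb using Submodule.span_induction with
  | mem y hy =>
    obtain ⟨l, h1, h2, rfl⟩ := hy
    have h3 : x * l.prod = (x :: l).prod := (List.prod_cons).symm
    rw [h3]
    apply len_span_mem
    · simp only [List.length_cons]
      omega
    · intro z hz
      rcases List.mem_cons.1 hz with h | h
      · rw [h]
        exact hx
      · exact h2 z h
  | zero =>
    rw [mul_zero]
    exact Submodule.zero_mem _
  | add y z _ _ hy hz =>
    rw [mul_add]
    exact Submodule.add_mem _ hy hz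
  | smul a y _ hy =>
    rw [mul_smul_comm]
    exact Submodule.smul_mem _ _ hy

theorem len_span_perm {K A : Type} [Field K] [Ring A] [Algebra K A] (L : Submodule K A)
    (hL : ∀ x ∈ L, ∀ y ∈ L, x * y - y * x ∈ L) (l l' : List A) (h : l.Perm l') :
    (∀ x ∈ l, x ∈ L) → l.prod - l'.prod ∈ len_span_S L l.length := by
  induction h with
  | nil =>
    intro _
    rw [sub_self]
    exact Submodule.zero_mem _
  | cons x h ih =>
    intro hx
    rw [List.prod_cons, List.prod_cons, ← mul_sub, List.length_cons]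
    exact len_span_mul L _ _ _ (hx x List.mem_cons_self)
      (ih fun z hz => hx z (List.mem_cons_of_mem _ hz))
  | swap x y l =>
    intro hx
    have h1 : (y :: x :: l).prod - (x :: y :: l).prod = ((y * x - x * y) :: l).prod := by
      simp only [List.prod_cons]
      noncomm_ring
    rw [h1]
    apply len_span_mem
    · simp only [List.length_cons]
      omega
    · intro z hz
      rcases List.mem_cons.1 hz with h | h
      · rw [h]
        exact hL y (hx y (by simp)) x (hx x (by simp))
      · exact hx z (by simp [h])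
  | trans h1 h2 ih1 ih2 =>
    rename_i l₁ l₂ l₃
    intro hx
    have h3 := ih1 hx
    have h4 := ih2 (fun z hz => hx z (h1.mem_iff.2 hz))
    rw [← h1.length_eq] at h4
    have h5 := Submodule.add_mem _ h3 h4
    rwa [sub_add_sub_cancel] at h5

theorem len_span {K A : Type} [Field K] [Ring A] [Algebra K A] (L : Submodule K A)
    (hL : ∀ x ∈ L, ∀ y ∈ L, x * y - y * x ∈ L) (c : ℕ) (f1 : Equiv.Perm (Fin c) → K)
    (hf1 : ∑ σ, f1 σ = 1) (h1 : ∀ x : Fin c → A, (∀ i, x i ∈ L) → ev f1 x = 0)
    (b : A) (hb : b ∈ Algebra.adjoin K (L : Set A)) :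
    b ∈ Submodule.span K {b : A | ∃ l : List A, l.length + 1 ≤ c ∧ (∀ x ∈ l, x ∈ L) ∧
      b = l.prod} := by
  change b ∈ len_span_S L c
  have hc : ∀ l : List A, l.length = c → (∀ x ∈ l, x ∈ L) → l.prod ∈ len_span_S L c := by
    rintro l rfl hl
    have hx : ∀ i : Fin l.length, l.get i ∈ L := fun i => hl _ (List.get_mem l i)
    have he := h1 l.get hx
    have h2 : ∑ σ : Equiv.Perm (Fin l.length), f1 σ •
        ((List.ofFn (l.get ∘ σ)).prod - l.prod) ∈ len_span_S L l.length := by
      refine Submodule.sum_mem _ fun σ _ => Submodule.smul_mem _ _ ?_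
      have hp : (List.ofFn (l.get ∘ σ)).Perm l := by
        have h3 := Equiv.Perm.ofFn_comp_perm σ l.get
        rwa [List.ofFn_get] at h3
      have h4 := len_span_perm L hL _ _ hp (fun z hz => hl z (hp.mem_iff.1 hz))
      rwa [hp.length_eq] at h4
    have h5 : ∑ σ : Equiv.Perm (Fin l.length), f1 σ •
        ((List.ofFn (l.get ∘ σ)).prod - l.prod) = ev f1 l.get - (∑ σ, f1 σ) • l.prod := by
      unfold ev
      simp only [smul_sub]
      rw [Finset.sum_sub_distrib, Finset.sum_smul]
      rfl
    rw [h5, he, hf1, one_smul, zero_sub] at h2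
    exact (Submodule.neg_mem_iff _).1 h2
  have hall : ∀ n : ℕ, ∀ l : List A, l.length = n → (∀ x ∈ l, x ∈ L) →
      l.prod ∈ len_span_S L c := by
    intro n
    induction n using Nat.strong_induction_on with
    | _ n ih =>
      rintro l rfl hl
      by_cases hlc : l.length + 1 ≤ c
      · exact len_span_mem L c l hlc hl
      · have h2 := hc (l.take c) (by rw [List.length_take]; omega)
          (fun x hx => hl x (List.mem_of_mem_take hx))
        have h3 : l.prod = (l.take c).prod * (l.drop c).prod := by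
          rw [← List.prod_append, List.take_append_drop]
        rw [h3]
        have h4 : ∀ y ∈ len_span_S L c, y * (l.drop c).prod ∈ len_span_S L c := by
          intro y hy
          unfold len_span_S at hy
          induction hy using Submodule.span_induction with
          | mem y hy =>
            obtain ⟨l', h5, h6, rfl⟩ := hy
            rw [← List.prod_append]
            apply ih (l' ++ l.drop c).length _ _ rfl
            · intro x hx
              rcases List.mem_append.1 hx with h | h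
              · exact h6 x h
              · exact hl x (List.mem_of_mem_drop h)
            · rw [List.length_append, List.length_drop]
              omega
          | zero =>
            rw [zero_mul]
            exact Submodule.zero_mem _
          | add y z _ _ hy hz =>
            rw [add_mul]
            exact Submodule.add_mem _ hy hz
          | smul a y _ hy =>
            rw [smul_mul_assoc]
            exact Submodule.smul_mem _ _ hy
        exact h4 _ h2
  have hb' : b ∈ Submodule.span K (Submonoid.closure (L : Set A) : Set A) := by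
    rw [← Algebra.adjoin_eq_span]
    exact hb
  refine (Submodule.span_le.2 ?_) hb'
  intro y hy
  obtain ⟨l, h2, rfl⟩ := Submonoid.exists_list_of_mem_closure hy
  exact hall _ l rfl h2

theorem pow_c {K A : Type} [Field K] [Ring A] [Algebra K A] (L : Submodule K A)
    (c : ℕ) (f1 : Equiv.Perm (Fin c) → K)
    (hf1 : ∑ σ, f1 σ = 1) (h1 : ∀ x : Fin c → A, (∀ i, x i ∈ L) → ev f1 x = 0)
    (x : A) (hx : x ∈ L) : x ^ c = 0 := by
  have h := h1 (fun _ => x) (fun _ => hx)
  unfold ev at h
  rw [← Finset.sum_smul, hf1, one_smul, List.ofFn_const, List.prod_replicate] at h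
  exact h

theorem kill_of_f2_prod {A : Type} [Ring A] (N : ℕ) (w : Fin (N + 1) → A) :
    (List.ofFn w).prod = (List.ofFn (fun i : Fin N => w i.castSucc)).prod * w (Fin.last N) := by
  rw [List.ofFn_succ', List.concat_eq_append, List.prod_append, List.prod_singleton]

theorem kill_of_f2 {K A : Type} [Field K] [Ring A] [Algebra K A] (L : Submodule K A)
    (N : ℕ) (f2 : Equiv.Perm (Fin (N + 1)) → K)
    (hf2 : ∀ σ, σ (Fin.last N) = Fin.last N → f2 σ = if σ = 1 then 1 else 0)
    (h2 : ∀ x : Fin (N + 1) → A, (∀ i, x i ∈ L) → ev f2 x = 0) (r : A)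
    (z : Fin N → A) (hz : ∀ i, z i ∈ L ∧ z i * r = 0) (y : A) (hy : y ∈ L) :
    (List.ofFn z).prod * (y * r) = 0 := by
  have hx : ∀ i, (Fin.snoc z y : Fin (N + 1) → A) i ∈ L := by
    intro i
    refine Fin.lastCases ?_ (fun i => ?_) i
    · rw [Fin.snoc_last]
      exact hy
    · rw [Fin.snoc_castSucc]
      exact (hz i).1
  have h := h2 (Fin.snoc z y : Fin (N + 1) → A) hx
  have h3 : ev f2 (Fin.snoc z y : Fin (N + 1) → A) * r = 0 := by rw [h, zero_mul]
  unfold ev at h3
  rw [Finset.sum_mul] at h3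
  have h4 : ∀ σ : Equiv.Perm (Fin (N + 1)),
      f2 σ • (List.ofFn (fun i => (Fin.snoc z y : Fin (N + 1) → A) (σ i))).prod * r =
      if σ = 1 then (List.ofFn z).prod * (y * r) else 0 := by
    intro σ
    rw [smul_mul_assoc, kill_of_f2_prod, mul_assoc]
    by_cases hσ : σ (Fin.last N) = Fin.last N
    · rw [hf2 σ hσ]
      by_cases h1 : σ = 1
      · rw [if_pos h1, if_pos h1, one_smul, h1]
        simp only [Equiv.Perm.coe_one, id_eq, Fin.snoc_castSucc, Fin.snoc_last]
      · rw [if_neg h1, if_neg h1, zero_smul]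
    · have h1 : σ ≠ 1 := by
        rintro rfl
        exact hσ rfl
      rw [if_neg h1]
      obtain ⟨i, hi⟩ : ∃ i : Fin N, σ (Fin.last N) = i.castSucc :=
        ⟨(σ (Fin.last N)).castPred hσ, by simp⟩
      rw [hi, Fin.snoc_castSucc, (hz i).2, mul_zero, smul_zero]
  simp only [h4] at h3
  rw [Finset.sum_ite_eq' Finset.univ (1 : Equiv.Perm (Fin (N + 1)))
    (fun _ => (List.ofFn z).prod * (y * r)), if_pos (Finset.mem_univ _)] at h3
  exact h3

/-- all `m`-fold products vanish -/
def NilP {K A : Type} [Field K] [Ring A] [Algebra K A] (h : Submodule K A) (m : ℕ) : Prop :=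
  ∀ l : List A, (∀ z ∈ l, z ∈ h) → l.length = m → l.prod = 0

theorem nilP_ann {K A : Type} [Field K] [Ring A] [Algebra K A] [Nontrivial A]
    (h : Submodule K A) (m : ℕ) (hm : NilP h m) :
    ∃ l : List A, (∀ z ∈ l, z ∈ h) ∧ l.prod ≠ 0 ∧ ∀ z ∈ h, z * l.prod = 0 := by
  classical
  have hex : ∃ m, NilP h m := ⟨m, hm⟩
  have hk := Nat.find_spec hex
  have h0 : Nat.find hex ≠ 0 := by
    intro h0
    rw [h0] at hk
    exact one_ne_zero (hk [] (by simp) rfl)
  obtain ⟨k, hk'⟩ := Nat.exists_eq_succ_of_ne_zero h0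
  have hnot : ¬ NilP h k := Nat.find_min hex (by omega)
  unfold NilP at hnot
  push Not at hnot
  obtain ⟨l, hl1, hl2, hl3⟩ := hnot
  refine ⟨l, hl1, hl3, fun z hz => ?_⟩
  have := hk (z :: l) (by
    intro w hw
    rcases List.mem_cons.mp hw with rfl | hw
    · exact hz
    · exact hl1 w hw) (by rw [List.length_cons, hl2, hk'])
  simpa using this

theorem list_prod_mem_pow' {K A : Type} [Field K] [Ring A] [Algebra K A] (h : Submodule K A)
    (l : List A) (hl : ∀ z ∈ l, z ∈ h) : l.prod ∈ h ^ l.length := by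
  induction l with
  | nil =>
    simp only [List.prod_nil, List.length_nil, pow_zero]
    exact Submodule.one_le.mp le_rfl
  | cons a l ih =>
    rw [List.prod_cons, List.length_cons, pow_succ']
    exact Submodule.mul_mem_mul (hl a (by simp)) (ih fun z hz => hl z (by simp [hz]))

theorem pow_le_span' {K A : Type} [Field K] [Ring A] [Algebra K A] (h : Submodule K A) (m : ℕ) :
    h ^ m ≤ Submodule.span K {p | ∃ l : List A, (∀ z ∈ l, z ∈ h) ∧ l.length = m ∧ l.prod = p} := by
  induction m with
  | zero =>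
    rw [pow_zero, Submodule.one_eq_span]
    refine Submodule.span_mono ?_
    intro x hx
    rw [Set.mem_singleton_iff] at hx
    exact ⟨[], by simp, rfl, by simp [hx]⟩
  | succ m ih =>
    rw [pow_succ']
    rw [Submodule.mul_le]
    intro a ha b hb
    have hb' := ih hb
    refine Submodule.span_induction (p := fun b _ => a * b ∈ Submodule.span K
      {p | ∃ l : List A, (∀ z ∈ l, z ∈ h) ∧ l.length = m + 1 ∧ l.prod = p}) ?_ ?_ ?_ ?_ hb'
    · rintro _ ⟨l, hl1, hl2, rfl⟩
      refine Submodule.subset_span ⟨a :: l, ?_, by simp [hl2], by simp⟩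
      intro z hz
      rcases List.mem_cons.mp hz with rfl | hz
      · exact ha
      · exact hl1 z hz
    · rw [mul_zero]; exact Submodule.zero_mem _
    · intro x y _ _ hx hy
      rw [mul_add]; exact Submodule.add_mem _ hx hy
    · intro c x _ hx
      rw [mul_smul_comm]; exact Submodule.smul_mem _ _ hx

theorem nilP_iff {K A : Type} [Field K] [Ring A] [Algebra K A] (h : Submodule K A) (m : ℕ) :
    NilP h m ↔ h ^ m = ⊥ := by
  constructor
  · intro hn
    refine le_bot_iff.mp ((pow_le_span' h m).trans ?_)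
    rw [Submodule.span_le]
    rintro _ ⟨l, hl1, hl2, rfl⟩
    rw [hn l hl1 hl2]
    exact Submodule.zero_mem _
  · intro hp l hl1 hl2
    have := list_prod_mem_pow' h l hl1
    rw [hl2, hp] at this
    exact (Submodule.mem_bot K).mp this

/-- adding a normalizing nilpotent element -/
theorem nil_adj {K A : Type} [Field K] [Ring A] [Algebra K A] (H : Submodule K A) (x : A)
    (c M : ℕ) (hxc : x ^ c = 0) (hHM : H ^ M = ⊥) (hb : ∀ z ∈ H, x * z - z * x ∈ H) :
    (H ⊔ Submodule.span K {x}) ^ (c * M) = ⊥ := by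
  set X := Submodule.span K {x} with hX
  let W : Submodule K A := Subalgebra.toSubmodule (Algebra.adjoin K ((H : Set A) ∪ {x}))
  have hHW : H ≤ W := fun z hz => Algebra.subset_adjoin (Or.inl hz)
  have hXW : X ≤ W := by
    rw [hX, Submodule.span_le]
    intro z hz
    exact Algebra.subset_adjoin (Or.inr hz)
  have hWW : W * W ≤ W := by
    rw [Submodule.mul_le]
    intro a ha b hb
    exact Subalgebra.mul_mem _ ha hb
  have h1W : (1 : Submodule K A) ≤ W := by
    rw [Submodule.one_eq_span, Submodule.span_le]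
    intro z hz
    rw [Set.mem_singleton_iff] at hz
    rw [hz]
    exact Subalgebra.one_mem _
  have hWH : W * H ≤ H * W := by
    rw [Submodule.mul_le]
    intro w hw
    have hw' : w ∈ Algebra.adjoin K ((H : Set A) ∪ {x}) := hw
    refine Algebra.adjoin_induction (p := fun w _ => ∀ z ∈ H, w * z ∈ H * W) ?_ ?_ ?_ ?_ hw'
    · intro y hy z hz
      rcases hy with hy | hy
      · exact Submodule.mul_mem_mul hy (hHW hz)
      · rw [Set.mem_singleton_iff] at hy
        rw [hy]
        have e1 : x * z = z * x + (x * z - z * x) * 1 := by noncomm_ring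
        rw [e1]
        refine Submodule.add_mem _ (Submodule.mul_mem_mul hz ?_)
          (Submodule.mul_mem_mul (hb z hz) ?_)
        · exact hXW (Submodule.mem_span_singleton_self x)
        · exact Subalgebra.one_mem _
    · intro r z hz
      have e1 : (algebraMap K A) r * z = (r • z) * 1 := by
        rw [Algebra.smul_def, mul_one]
      rw [e1]
      exact Submodule.mul_mem_mul (H.smul_mem r hz) (Subalgebra.one_mem _)
    · intro a b _ _ ha hb z hz
      rw [add_mul]
      exact Submodule.add_mem _ (ha z hz) (hb z hz)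
    · intro a b _ _ ha hb' z hz
      rw [mul_assoc]
      refine Submodule.mul_induction_on (hb' z hz) ?_ ?_
      · intro m hm n hn
        rw [← mul_assoc]
        have h1 : (a * m) * n ∈ (H * W) * W := Submodule.mul_mem_mul (ha m hm) hn
        have h2 : (H * W) * W ≤ H * W := by
          rw [mul_assoc]
          exact mul_le_mul' le_rfl hWW
        exact h2 h1
      · intro p q hp hq
        rw [mul_add]
        exact Submodule.add_mem _ hp hq
  have hXkW : ∀ k : ℕ, X ^ k ≤ W := by
    intro k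
    induction k with
    | zero => rw [pow_zero]; exact h1W
    | succ k ih => rw [pow_succ]; exact (mul_le_mul' ih hXW).trans hWW
  have hk : ∀ k : ℕ, (H ⊔ X) ^ k ≤ X ^ k ⊔ H * W := by
    intro k
    induction k with
    | zero => rw [pow_zero, pow_zero]; exact le_sup_left
    | succ k ih =>
      rw [pow_succ]
      refine (mul_le_mul' ih le_rfl).trans ?_
      rw [Submodule.sup_mul, Submodule.mul_sup, Submodule.mul_sup, pow_succ]
      have a1 : X ^ k * H ≤ H * W := (mul_le_mul' (hXkW k) le_rfl).trans hWH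
      have a2 : H * W * H ≤ H * W := by
        rw [mul_assoc]
        exact mul_le_mul' le_rfl ((mul_le_mul' le_rfl hHW).trans hWW)
      have a3 : H * W * X ≤ H * W := by
        rw [mul_assoc]
        exact mul_le_mul' le_rfl ((mul_le_mul' le_rfl hXW).trans hWW)
      exact sup_le (sup_le (a1.trans le_sup_right) le_sup_left)
        (sup_le (a2.trans le_sup_right) (a3.trans le_sup_right))
  have hHWm : ∀ m : ℕ, (H * W) ^ m ≤ H ^ m * W := by
    intro m
    induction m with
    | zero => rw [pow_zero, pow_zero, one_mul]; exact h1W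
    | succ m ih =>
      rw [pow_succ, pow_succ]
      refine (mul_le_mul' ih le_rfl).trans ?_
      calc H ^ m * W * (H * W) = H ^ m * (W * H) * W := by simp only [mul_assoc]
        _ ≤ H ^ m * (H * W) * W := mul_le_mul' (mul_le_mul' le_rfl hWH) le_rfl
        _ = H ^ m * H * (W * W) := by simp only [mul_assoc]
        _ ≤ H ^ m * H * W := mul_le_mul' le_rfl hWW
  have hXc : X ^ c = ⊥ := by
    rw [hX, Submodule.span_pow, Set.singleton_pow, hxc]
    simp
  have h1 : (H ⊔ X) ^ c ≤ H * W := by
    have := hk c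
    rwa [hXc, bot_sup_eq] at this
  refine le_bot_iff.mp ?_
  rw [pow_mul]
  calc ((H ⊔ X) ^ c) ^ M ≤ (H * W) ^ M := by
        have : ∀ m : ℕ, ((H ⊔ X) ^ c) ^ m ≤ (H * W) ^ m := by
          intro m
          induction m with
          | zero => simp
          | succ m ih => rw [pow_succ, pow_succ]; exact mul_le_mul' ih h1
        exact this M
    _ ≤ H ^ M * W := hHWm M
    _ = ⊥ := by rw [hHM, Submodule.bot_mul]

/-- iterated brackets -/
def ibr {A : Type} [Ring A] (zs : List A) (y : A) : A := zs.foldr (fun z w => z * w - w * z) y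

/-- Zorn + normalizer argument -/
theorem zorn_core {K A : Type} [Field K] [Ring A] [Algebra K A] [Nontrivial A]
    (hprime : ∀ a b : A, (∀ r, a * r * b = 0) → a = 0 ∨ b = 0) (L : Submodule K A)
    (hL : ∀ x ∈ L, ∀ y ∈ L, x * y - y * x ∈ L) (c N M : ℕ)
    (hc : ∀ x ∈ L, x ^ c = 0)
    (hN : ∀ (r : A) (z : Fin N → A), (∀ i, z i ∈ L ∧ z i * r = 0) → ∀ y ∈ L,
      (List.ofFn z).prod * (y * r) = 0)
    (hM : ∀ r : A, r ≠ 0 → ∀ l : List A, (∀ z ∈ l, z ∈ L ∧ z * r = 0) → l.length = M →
      l.prod = 0)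
    (hgen : Algebra.adjoin K (L : Set A) = ⊤) : L = ⊥ := by
  classical
  -- nilpotent submodules of `L` are nilpotent of class `M`
  have hAM : ∀ (h : Submodule K A) (m : ℕ), h ≤ L → NilP h m → NilP h M := by
    intro h m hhL hm l hl hlen
    obtain ⟨l0, -, hr, hr2⟩ := nilP_ann h m hm
    exact hM l0.prod hr l (fun z hz => ⟨hhL (hl z hz), hr2 z (hl z hz)⟩) hlen
  have hM1 : M ≠ 0 := by
    intro h0
    have := hM 1 one_ne_zero [] (by simp) (by rw [h0]; rfl)
    exact one_ne_zero this
  let F : Set (Submodule K A) := {h | h ≤ L ∧ (∀ x ∈ h, ∀ y ∈ h, x * y - y * x ∈ h) ∧ NilP h M}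
  have hbot : (⊥ : Submodule K A) ∈ F := by
    refine ⟨bot_le, ?_, ?_⟩
    · intro x hx y hy
      rw [Submodule.mem_bot] at hx hy
      rw [hx, hy]; simp
    · rw [nilP_iff]
      obtain ⟨k, rfl⟩ := Nat.exists_eq_succ_of_ne_zero hM1
      rw [Nat.succ_eq_add_one, pow_succ, Submodule.mul_bot]
  obtain ⟨h, -, hmax⟩ := zorn_le_nonempty₀ F (by
    intro C hCF hC y hy
    have hmem : ∀ z, z ∈ sSup C ↔ ∃ g ∈ C, z ∈ g := fun z =>
      Submodule.mem_sSup_of_directed ⟨y, hy⟩ hC.directedOn
    refine ⟨sSup C, ⟨sSup_le fun g hg => (hCF hg).1, ?_, ?_⟩, fun z hz => le_sSup hz⟩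
    · intro a ha b hb
      obtain ⟨g1, hg1, ha1⟩ := (hmem a).mp ha
      obtain ⟨g2, hg2, hb2⟩ := (hmem b).mp hb
      rcases hC.total hg1 hg2 with hle | hle
      · exact (hmem _).mpr ⟨g2, hg2, (hCF hg2).2.1 a (hle ha1) b hb2⟩
      · exact (hmem _).mpr ⟨g1, hg1, (hCF hg1).2.1 a ha1 b (hle hb2)⟩
    · intro l hl hlen
      have key : ∀ l : List A, (∀ z ∈ l, z ∈ sSup C) → ∃ g ∈ C, ∀ z ∈ l, z ∈ g := by
        intro l
        induction l with
        | nil => intro _; exact ⟨y, hy, by simp⟩
        | cons a l ih =>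
          intro hl
          obtain ⟨g1, hg1, h1⟩ := ih fun z hz => hl z (by simp [hz])
          obtain ⟨g2, hg2, h2⟩ := (hmem a).mp (hl a (by simp))
          rcases hC.total hg1 hg2 with hle | hle
          · refine ⟨g2, hg2, fun z hz => ?_⟩
            rcases List.mem_cons.mp hz with rfl | hz
            · exact h2
            · exact hle (h1 z hz)
          · refine ⟨g1, hg1, fun z hz => ?_⟩
            rcases List.mem_cons.mp hz with rfl | hz
            · exact hle h2
            · exact h1 z hz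
      obtain ⟨g, hg, hgl⟩ := key l hl
      exact (hCF hg).2.2 l hgl hlen) ⊥ hbot
  obtain ⟨hhL, hhbr, hhnil⟩ := hmax.prop
  -- the annihilated element
  obtain ⟨l0, -, hr, hr2⟩ := nilP_ann h M hhnil
  set r := l0.prod with hrdef
  -- `h = h_r`
  have hhr : ∀ z ∈ L, z * r = 0 → z ∈ h := by
    let hr' : Submodule K A := L ⊓ LinearMap.ker (LinearMap.mulRight K r)
    have hmem' : ∀ z, z ∈ hr' ↔ z ∈ L ∧ z * r = 0 := fun z => by
      show z ∈ L ∧ z ∈ LinearMap.ker (LinearMap.mulRight K r) ↔ _
      rw [LinearMap.mem_ker, LinearMap.mulRight_apply]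
    have hF : hr' ∈ F := by
      refine ⟨inf_le_left, ?_, ?_⟩
      · intro x hx y hy
        rw [hmem'] at hx hy ⊢
        refine ⟨hL x hx.1 y hy.1, ?_⟩
        rw [sub_mul, mul_assoc, mul_assoc, hx.2, hy.2]
        simp
      · intro l hl hlen
        exact hM r hr l (fun z hz => (hmem' z).mp (hl z hz)) hlen
    have hle : h ≤ hr' := fun z hz => (hmem' z).mpr ⟨hhL hz, hr2 z hz⟩
    have hge : hr' ≤ h := hmax.le_of_ge hF hle
    intro z hz1 hz2
    exact hge ((hmem' z).mpr ⟨hz1, hz2⟩)
  -- `h = L`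
  have hhLe : L ≤ h := by
    by_contra hne
    -- iterated brackets
    have hibL : ∀ zs : List A, (∀ z ∈ zs, z ∈ h) → ∀ y ∈ L, ibr zs y ∈ L := by
      intro zs
      induction zs with
      | nil => intro _ y hy; exact hy
      | cons a zs ih =>
        intro hz y hy
        show a * ibr zs y - ibr zs y * a ∈ L
        exact hL a (hhL (hz a (by simp))) _ (ih (fun z hz' => hz z (by simp [hz'])) y hy)
    have hibr : ∀ zs : List A, (∀ z ∈ zs, z ∈ h) → ∀ y ∈ L, ibr zs y * r = zs.prod * (y * r) := by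
      intro zs
      induction zs with
      | nil => intro _ y hy; show y * r = _; simp
      | cons a zs ih =>
        intro hz y hy
        have h1 := ih (fun z hz' => hz z (by simp [hz'])) y hy
        show (a * ibr zs y - ibr zs y * a) * r = _
        rw [sub_mul, mul_assoc, mul_assoc, hr2 a (hz a (by simp)), mul_zero, sub_zero, h1,
          List.prod_cons, mul_assoc]
    have hex : ∃ k : ℕ, ∀ zs : List A, (∀ z ∈ zs, z ∈ h) → zs.length = k → ∀ y ∈ L,
        ibr zs y ∈ h := by
      refine ⟨N, fun zs hz hlen y hy => ?_⟩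
      refine hhr _ (hibL zs hz y hy) ?_
      rw [hibr zs hz y hy]
      subst hlen
      have := hN r zs.get (fun i => ⟨hhL (hz _ (List.get_mem _ _)), hr2 _ (hz _ (List.get_mem _ _))⟩)
        y hy
      rwa [List.ofFn_get] at this
    have hk := Nat.find_spec hex
    have h0 : Nat.find hex ≠ 0 := by
      intro h0
      rw [h0] at hk
      exact hne fun y hy => hk [] (by simp) rfl y hy
    obtain ⟨k, hk'⟩ := Nat.exists_eq_succ_of_ne_zero h0
    have hnot := Nat.find_min hex (m := k) (by omega)
    push Not at hnot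
    obtain ⟨zs, hzs, hlen, y, hy, hx⟩ := hnot
    set x := ibr zs y with hxdef
    have hxL : x ∈ L := hibL zs hzs y hy
    have hzx : ∀ z ∈ h, z * x - x * z ∈ h := by
      intro z hz
      have := hk (z :: zs) (by
        intro w hw
        rcases List.mem_cons.mp hw with rfl | hw
        · exact hz
        · exact hzs w hw) (by rw [List.length_cons, hlen, hk']) y hy
      exact this
    have hxz : ∀ z ∈ h, x * z - z * x ∈ h := by
      intro z hz
      have := h.neg_mem (hzx z hz)
      rwa [neg_sub] at this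
    let h' : Submodule K A := h ⊔ Submodule.span K {x}
    have hh'L : h' ≤ L := sup_le hhL (by
      rw [Submodule.span_le]
      intro w hw
      rw [Set.mem_singleton_iff] at hw
      rw [hw]
      exact hxL)
    have hnil' : NilP h' M := by
      refine hAM h' (c * M) hh'L ?_
      rw [nilP_iff]
      exact nil_adj h x c M (hc x hxL) ((nilP_iff h M).mp hhnil) hxz
    have hF : h' ∈ F := by
      refine ⟨hh'L, ?_, hnil'⟩
      intro a ha b hb
      obtain ⟨a1, ha1, a2, ha2, rfl⟩ := Submodule.mem_sup.mp ha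
      obtain ⟨b1, hb1, b2, hb2, rfl⟩ := Submodule.mem_sup.mp hb
      obtain ⟨s, rfl⟩ := Submodule.mem_span_singleton.mp ha2
      obtain ⟨t, rfl⟩ := Submodule.mem_span_singleton.mp hb2
      refine Submodule.mem_sup_left ?_
      have e1 : (a1 + s • x) * (b1 + t • x) - (b1 + t • x) * (a1 + s • x) =
          (a1 * b1 - b1 * a1) + t • (a1 * x - x * a1) + s • (x * b1 - b1 * x) := by
        simp only [add_mul, mul_add, smul_mul_assoc, mul_smul_comm, smul_sub, smul_add]
        rw [smul_comm s t (x * x)]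
        abel
      rw [e1]
      exact h.add_mem (h.add_mem (hhbr a1 ha1 b1 hb1) (h.smul_mem t (hzx a1 ha1)))
        (h.smul_mem s (hxz b1 hb1))
    have hle := hmax.le_of_ge hF le_sup_left
    exact hx (hle (Submodule.mem_sup_right (Submodule.mem_span_singleton_self x)))
  have hLnil : NilP L M := by
    intro l hl hlen
    exact hhnil l (fun z hz => hhLe (hl z hz)) hlen
  -- conclusion
  by_contra hLne
  obtain ⟨l, hl, hs, hs2⟩ := nilP_ann L M hLnil
  set w := l.prod with hw
  have hlne : l ≠ [] := by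
    rintro rfl
    apply hLne
    rw [eq_bot_iff]
    intro z hz
    have := hs2 z hz
    rw [hw, List.prod_nil, mul_one] at this
    rw [this]
    exact Submodule.zero_mem _
  have hww : w * w = 0 := by
    have h1 := List.dropLast_append_getLast hlne
    have h2 : w = l.dropLast.prod * l.getLast hlne := by
      rw [hw]
      conv_lhs => rw [← h1]
      rw [List.prod_append]
      simp
    have h3 : w * w = l.dropLast.prod * (l.getLast hlne * w) := by
      conv_lhs => rw [h2]
      rw [mul_assoc, ← h2]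
    rw [h3, hs2 _ (hl _ (List.getLast_mem hlne)), mul_zero]
  have hsc : ∀ a : A, ∃ k : K, a * w = k • w := by
    intro a
    have ha : a ∈ Algebra.adjoin K (L : Set A) := by rw [hgen]; exact Algebra.mem_top
    refine Algebra.adjoin_induction (p := fun a _ => ∃ k : K, a * w = k • w) ?_ ?_ ?_ ?_ ha
    · intro z hz
      exact ⟨0, by rw [hs2 z hz, zero_smul]⟩
    · intro k
      exact ⟨k, by rw [Algebra.smul_def]⟩
    · rintro a b _ _ ⟨k1, h1⟩ ⟨k2, h2⟩
      exact ⟨k1 + k2, by rw [add_mul, h1, h2, add_smul]⟩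
    · rintro a b _ _ ⟨k1, h1⟩ ⟨k2, h2⟩
      exact ⟨k2 * k1, by rw [mul_assoc, h2, mul_smul_comm, h1, mul_smul]⟩
  rcases hprime w w (fun a => by
    obtain ⟨k, hk⟩ := hsc a
    rw [mul_assoc, hk, mul_smul_comm, hww, smul_zero]) with h1 | h1
  · exact hs h1
  · exact hs h1

theorem prime_bot {K A : Type} [Field K] [Ring A] [Algebra K A] [Nontrivial A]
    (hprime : ∀ a b : A, (∀ r, a * r * b = 0) → a = 0 ∨ b = 0) (L : Submodule K A)
    (hL : ∀ x ∈ L, ∀ y ∈ L, x * y - y * x ∈ L) (c : ℕ) (f1 : Equiv.Perm (Fin c) → K)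
    (hf1 : ∑ σ, f1 σ = 1) (h1 : ∀ x : Fin c → A, (∀ i, x i ∈ L) → ev f1 x = 0)
    (N : ℕ) (f2 : Equiv.Perm (Fin (N + 1)) → K)
    (hf2 : ∀ σ, σ (Fin.last N) = Fin.last N → f2 σ = if σ = 1 then 1 else 0)
    (h2 : ∀ x : Fin (N + 1) → A, (∀ i, x i ∈ L) → ev f2 x = 0)
    (hgen : Algebra.adjoin K (L : Set A) = ⊤) : L = ⊥ := by
  refine zorn_core hprime L hL c N ((c - 1) * N + 1) (fun x hx => pow_c L c f1 hf1 h1 x hx)
    (fun r z hz y hy => kill_of_f2 L N f2 hf2 h2 r z hz y hy) ?_ hgen
  intro r hr l hl hlen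
  have key : ∀ b : A, l.prod * b * r = 0 := by
    intro b
    have hb : b ∈ Algebra.adjoin K (L : Set A) := by rw [hgen]; trivial
    have hb' := len_span L hL c f1 hf1 h1 b hb
    refine Submodule.span_induction (p := fun b _ => l.prod * b * r = 0) ?_ ?_ ?_ ?_ hb'
    · rintro x ⟨ws, hw1, hw2, rfl⟩
      refine word_kill L.toAddSubgroup hL r N
        (fun z hz y hy => kill_of_f2 L N f2 hf2 h2 r z hz y hy) l ws hl hw2 ?_
      rw [hlen]
      exact Nat.succ_le_succ (Nat.mul_le_mul_right N (by omega))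
    · simp
    · intro x y _ _ hx hy
      rw [mul_add, add_mul, hx, hy, add_zero]
    · intro a x _ hx
      rw [mul_smul_comm, smul_mul_assoc, hx, smul_zero]
  rcases hprime l.prod r key with h | h
  · exact h
  · exact absurd h hr

theorem thmL_ev_map {K A B : Type} [Field K] [Ring A] [Algebra K A] [Ring B] [Algebra K B]
    (φ : A →ₐ[K] B) {n : ℕ} (f : Equiv.Perm (Fin n) → K) (x : Fin n → A) :
    φ (ev f x) = ev f (fun i => φ (x i)) := by
  unfold ev
  rw [map_sum]
  refine Finset.sum_congr rfl fun σ _ => ?_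
  rw [map_smul, map_list_prod, List.map_ofFn]
  rfl

/-- the value of a word -/
def thmL_W {A : Type} [Ring A] {q : ℕ} (b : Fin q → A) {D : ℕ} (w : Fin D → Fin q) : A :=
  (List.ofFn (fun j => b (w j))).prod

theorem thmL_W_add {A : Type} [Ring A] {q : ℕ} (b : Fin q → A) {D E : ℕ}
    (w : Fin (D + E) → Fin q) :
    thmL_W b w = thmL_W b (fun i => w (Fin.castAdd E i)) * thmL_W b (fun i => w (Fin.natAdd D i)) := by
  unfold thmL_W
  rw [List.ofFn_add, List.prod_append]
  rfl

/-- ideals which do not contain all the words of any given length -/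
def thmL_S {A : Type} [Ring A] {q : ℕ} (b : Fin q → A) : Set (Ideal A) :=
  {I | I.IsTwoSided ∧ ∀ D : ℕ, ∃ w : Fin D → Fin q, thmL_W b w ∉ I}

theorem thmL_fin {A : Type} [Ring A] {T : Type} (W : T → A) (c : Set (Ideal A))
    (hc : IsChain (· ≤ ·) c) (I0 : Ideal A) (hI0 : I0 ∈ c)
    (h : ∀ t, ∃ I ∈ c, W t ∈ I) (F : Finset T) : ∃ I ∈ c, ∀ t ∈ F, W t ∈ I := by
  classical
  induction F using Finset.induction_on with
  | empty => exact ⟨I0, hI0, by simp⟩
  | insert t F _ ih =>
    obtain ⟨I, hI, hIF⟩ := ih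
    obtain ⟨J, hJ, hJt⟩ := h t
    rcases hc.total hI hJ with hle | hle
    · refine ⟨J, hJ, ?_⟩
      intro s hs
      rcases Finset.mem_insert.1 hs with rfl | hs
      · exact hJt
      · exact hle (hIF s hs)
    · refine ⟨I, hI, ?_⟩
      intro s hs
      rcases Finset.mem_insert.1 hs with rfl | hs
      · exact hle hJt
      · exact hIF s hs

theorem thmL_zorn {A : Type} [Ring A] {q : ℕ} (b : Fin q → A)
    (h0 : ∀ D : ℕ, ∃ w : Fin D → Fin q, thmL_W b w ≠ 0) :
    ∃ P : Ideal A, Maximal (· ∈ thmL_S b) P := by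
  have hbot : (⊥ : Ideal A) ∈ thmL_S b := by
    refine ⟨inferInstance, ?_⟩
    intro D
    obtain ⟨w, hw⟩ := h0 D
    exact ⟨w, by rwa [Ideal.mem_bot]⟩
  obtain ⟨P, -, hP⟩ := zorn_le_nonempty₀ (thmL_S b) (by
    intro c hcS hc I0 hI0
    have hmem : ∀ z : A, z ∈ sSup c ↔ ∃ I ∈ c, z ∈ I := fun z =>
      Submodule.mem_sSup_of_directed ⟨I0, hI0⟩ hc.directedOn
    refine ⟨sSup c, ⟨⟨?_⟩, ?_⟩, fun I hI => le_sSup hI⟩
    · intro x y hx
      obtain ⟨I, hI, hxI⟩ := (hmem x).1 hx
      have := (hcS hI).1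
      exact (hmem _).2 ⟨I, hI, I.mul_mem_right y hxI⟩
    · intro D
      by_contra hcon
      push Not at hcon
      obtain ⟨I, hI, hIW⟩ := thmL_fin (fun w : Fin D → Fin q => thmL_W b w) c hc I0 hI0
        (fun w => (hmem _).1 (hcon w)) Finset.univ
      obtain ⟨w, hw⟩ := (hcS hI).2 D
      exact hw (hIW w (Finset.mem_univ _))) ⊥ hbot
  exact ⟨P, hP⟩

theorem thmL_prime {A : Type} [Ring A] {q : ℕ} (b : Fin q → A) (P : Ideal A)
    (hP : Maximal (· ∈ thmL_S b) P) (x y : A) (hxy : ∀ r, x * r * y ∈ P) : x ∈ P ∨ y ∈ P := by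
  by_contra hcon
  push Not at hcon
  obtain ⟨hx, hy⟩ := hcon
  have hts := hP.1.1
  -- first ideal
  let J1 : Ideal A :=
    { carrier := {z | ∀ r, z * r * y ∈ P}
      add_mem' := by
        intro z z' hz hz' r
        rw [add_mul, add_mul]
        exact P.add_mem (hz r) (hz' r)
      zero_mem' := by
        intro r
        rw [zero_mul, zero_mul]
        exact P.zero_mem
      smul_mem' := by
        intro s z hz r
        show s * z * r * y ∈ P
        have := P.mul_mem_left s (hz r)
        rwa [← mul_assoc, ← mul_assoc] at this }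
  have hJ1 : J1.IsTwoSided := ⟨by
    intro z s hz r
    have := hz (s * r)
    rwa [← mul_assoc] at this⟩
  have hPJ1 : P ≤ J1 := by
    intro z hz r
    exact P.mul_mem_right y (P.mul_mem_right r hz)
  have hxJ1 : x ∈ J1 := hxy
  have h1 : J1 ∉ thmL_S b := by
    intro h
    exact hx (hP.2 h hPJ1 hxJ1)
  have h1' : ∃ D1 : ℕ, ∀ w : Fin D1 → Fin q, thmL_W b w ∈ J1 := by
    by_contra hcon
    push Not at hcon
    exact h1 ⟨hJ1, hcon⟩
  obtain ⟨D1, hD1⟩ := h1'
  let J2 : Ideal A :=
    { carrier := {z | ∀ (w : Fin D1 → Fin q) (r : A), thmL_W b w * r * z ∈ P}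
      add_mem' := by
        intro z z' hz hz' w r
        rw [mul_add]
        exact P.add_mem (hz w r) (hz' w r)
      zero_mem' := by
        intro w r
        rw [mul_zero]
        exact P.zero_mem
      smul_mem' := by
        intro s z hz w r
        show thmL_W b w * r * (s * z) ∈ P
        have := hz w (r * s)
        rwa [← mul_assoc, mul_assoc (thmL_W b w * r) s z] at this }
  have hJ2 : J2.IsTwoSided := ⟨by
    intro z s hz w r
    have := P.mul_mem_right s (hz w r)
    rwa [mul_assoc] at this⟩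
  have hPJ2 : P ≤ J2 := by
    intro z hz w r
    exact P.mul_mem_left _ hz
  have hyJ2 : y ∈ J2 := fun w r => hD1 w r
  have h2 : J2 ∉ thmL_S b := by
    intro h
    exact hy (hP.2 h hPJ2 hyJ2)
  have h2' : ∃ D2 : ℕ, ∀ w : Fin D2 → Fin q, thmL_W b w ∈ J2 := by
    by_contra hcon
    push Not at hcon
    exact h2 ⟨hJ2, hcon⟩
  obtain ⟨D2, hD2⟩ := h2'
  obtain ⟨w, hw⟩ := hP.1.2 (D1 + D2)
  apply hw
  rw [thmL_W_add]
  have := hD2 (fun i => w (Fin.natAdd D1 i)) (fun i => w (Fin.castAdd D2 i)) 1
  rwa [mul_one] at this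

/-- the case of a single algebra generated by the letters -/
theorem thmL_one {K : Type} [Field K] (c : ℕ) (f1 : Equiv.Perm (Fin c) → K)
    (hf1 : ∑ σ, f1 σ = 1) (N : ℕ) (f2 : Equiv.Perm (Fin (N + 1)) → K)
    (hf2 : ∀ σ, σ (Fin.last N) = Fin.last N → f2 σ = if σ = 1 then 1 else 0) (q : ℕ)
    (A : Type) [Ring A] [Algebra K A] (L : Submodule K A)
    (hL : ∀ x ∈ L, ∀ y ∈ L, x * y - y * x ∈ L)
    (h1 : ∀ x : Fin c → A, (∀ i, x i ∈ L) → ev f1 x = 0)
    (h2 : ∀ x : Fin (N + 1) → A, (∀ i, x i ∈ L) → ev f2 x = 0)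
    (hgen : Algebra.adjoin K (L : Set A) = ⊤)
    (b : Fin q → A) (hb : ∀ i, b i ∈ L)
    (h0 : ∀ D : ℕ, ∃ w : Fin D → Fin q, thmL_W b w ≠ 0) : False := by
  obtain ⟨P, hP⟩ := thmL_zorn b h0
  have hts : P.IsTwoSided := hP.1.1
  have hpr := thmL_prime b P hP
  let φ : A →ₐ[K] A ⧸ P := Ideal.Quotient.mkₐ K P
  have hφs : Function.Surjective φ := Ideal.Quotient.mk_surjective
  have hφ0 : ∀ x, φ x = 0 ↔ x ∈ P := fun x => Ideal.Quotient.eq_zero_iff_mem
  have hone : (1 : A) ∉ P := by
    obtain ⟨w, hw⟩ := hP.1.2 0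
    have : thmL_W b w = 1 := by simp [thmL_W]
    rwa [this] at hw
  have hnt : Nontrivial (A ⧸ P) := by
    refine nontrivial_of_ne (φ 1) 0 ?_
    intro h
    exact hone ((hφ0 1).1 h)
  have hL2 : L.map φ.toLinearMap = ⊥ := by
    apply prime_bot (K := K) (A := A ⧸ P) ?_ (L.map φ.toLinearMap) ?_ c f1 hf1 ?_ N f2 hf2 ?_ ?_
    · intro x y hxy
      obtain ⟨x, rfl⟩ := hφs x
      obtain ⟨y, rfl⟩ := hφs y
      rw [hφ0, hφ0]
      apply hpr
      intro r
      rw [← hφ0, map_mul, map_mul]
      exact hxy (φ r)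
    · rintro _ ⟨x, hx, rfl⟩ _ ⟨y, hy, rfl⟩
      refine ⟨x * y - y * x, hL x hx y hy, ?_⟩
      show φ (x * y - y * x) = φ x * φ y - φ y * φ x
      rw [map_sub, map_mul, map_mul]
    · intro x hx
      choose y hy hyx using hx
      have e : x = fun i => φ (y i) := funext fun i => (hyx i).symm
      rw [e, ← thmL_ev_map, h1 y hy, map_zero]
    · intro x hx
      choose y hy hyx using hx
      have e : x = fun i => φ (y i) := funext fun i => (hyx i).symm
      rw [e, ← thmL_ev_map, h2 y hy, map_zero]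
    · have e : ((L.map φ.toLinearMap : Submodule K (A ⧸ P)) : Set (A ⧸ P)) = φ '' (L : Set A) := rfl
      rw [e, ← AlgHom.map_adjoin, hgen, Algebra.map_top]
      exact (AlgHom.range_eq_top φ).2 hφs
  obtain ⟨w, hw⟩ := hP.1.2 1
  apply hw
  have e : thmL_W b w = b (w 0) := by simp [thmL_W]
  rw [e, ← hφ0]
  have hm : φ (b (w 0)) ∈ L.map φ.toLinearMap := ⟨b (w 0), hb _, rfl⟩
  rw [hL2] at hm
  exact hm

theorem thmL {K : Type} [Field K] (c : ℕ) (f1 : Equiv.Perm (Fin c) → K)
    (hf1 : ∑ σ, f1 σ = 1) (N : ℕ) (f2 : Equiv.Perm (Fin (N + 1)) → K)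
    (hf2 : ∀ σ, σ (Fin.last N) = Fin.last N → f2 σ = if σ = 1 then 1 else 0) (q : ℕ) :
    ∃ D : ℕ, ∀ (A : Type) [Ring A] [Algebra K A] (L : Submodule K A),
      (∀ x ∈ L, ∀ y ∈ L, x * y - y * x ∈ L) →
      (∀ x : Fin c → A, (∀ i, x i ∈ L) → ev f1 x = 0) →
      (∀ x : Fin (N + 1) → A, (∀ i, x i ∈ L) → ev f2 x = 0) →
      ∀ a : Fin q → A, (∀ i, a i ∈ L) → ∀ w : Fin D → Fin q,
        (List.ofFn (fun i => a (w i))).prod = 0 := by
  by_contra hcon
  push Not at hcon
  choose A iR iA L hL h1 h2 a ha w hw using hcon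
  let a' : Fin q → ((D : ℕ) → A D) := fun i D => a D i
  let A1 : Subalgebra K ((D : ℕ) → A D) := Algebra.adjoin K (Set.range a')
  let b : Fin q → A1 := fun i => ⟨a' i, Algebra.subset_adjoin ⟨i, rfl⟩⟩
  let π : (D : ℕ) → A1 →ₐ[K] A D := fun D => (Pi.evalAlgHom K A D).comp A1.val
  have hπ : ∀ x : A1, (∀ D, π D x = 0) → x = 0 := by
    intro x hx
    apply Subtype.ext
    funext D
    exact hx D
  let L1 : Submodule K A1 :=
    { carrier := {x | ∀ D, π D x ∈ L D}
      add_mem' := by
        intro x y hx hy D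
        rw [map_add]
        exact (L D).add_mem (hx D) (hy D)
      zero_mem' := by
        intro D
        rw [map_zero]
        exact (L D).zero_mem
      smul_mem' := by
        intro r x hx D
        rw [map_smul]
        exact (L D).smul_mem r (hx D) }
  refine thmL_one c f1 hf1 N f2 hf2 q A1 L1 ?_ ?_ ?_ ?_ b ?_ ?_
  · intro x hx y hy D
    rw [map_sub, map_mul, map_mul]
    exact hL D _ (hx D) _ (hy D)
  · intro x hx
    apply hπ
    intro D
    rw [thmL_ev_map]
    exact h1 D _ fun i => hx i D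
  · intro x hx
    apply hπ
    intro D
    rw [thmL_ev_map]
    exact h2 D _ fun i => hx i D
  · rw [eq_top_iff, ← Algebra.adjoin_adjoin_coe_preimage (R := K) (s := Set.range a')]
    apply Algebra.adjoin_mono
    intro x hx
    obtain ⟨i, hi⟩ := hx
    intro D
    show x.1 D ∈ L D
    rw [← hi]
    exact ha D i
  · intro i D
    exact ha D i
  · intro D
    refine ⟨w D, ?_⟩
    intro h
    apply hw D
    have h3 : π D (thmL_W b (w D)) = 0 := by rw [h, map_zero]
    unfold thmL_W at h3
    rw [map_list_prod, List.map_ofFn] at h3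
    exact h3

end Pool.Agent.Helper730.LN6
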