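import Pool.Agent.Helper730.LN6A

set_option autoImplicit false

open scoped commutatorElement

namespace Pool.Agent.Helper730.LN6

/-- S1 -/
theorem sec_pair {C : (Γ : Type) → [Group Γ] → Prop} (hC : SecC C) {p : ℕ}
    {J : Type} [Finite J] (M : J → Type) [∀ j, AddCommGroup (M j)] [∀ j, Module (ZMod p) (M j)]
    (H : ∀ j, Subgroup (Module.End (ZMod p) (M j))ˣ) (hM : ∀ j, C (PG p (M j) (H j)))
    {F N M' : Type} [Group F] [AddCommGroup N] [Module (ZMod p) N]
    [AddCommGroup M'] [Module (ZMod p) M']
    (θ : ∀ j, F →* (Module.End (ZMod p) (M j))ˣ) (hθ : ∀ j f, θ j f ∈ H j)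
    (θN : F →* (Module.End (ZMod p) N)ˣ) (θ' : F →* (Module.End (ZMod p) M')ˣ)
    (α : ∀ j, N →ₗ[ZMod p] M j)
    (hα : ∀ j f n, α j ((θN f : Module.End (ZMod p) N) n) =
      (θ j f : Module.End (ZMod p) (M j)) (α j n))
    (β : N →ₗ[ZMod p] M') (hβ : ∀ f n, β ((θN f : Module.End (ZMod p) N) n) =
      (θ' f : Module.End (ZMod p) M') (β n)) (hβs : Function.Surjective β)
    (hk : ∀ n, (∀ j, α j n = 0) → β n = 0) :
    C (PG p M' θ'.range) := by
  have comp : ∀ (j : J) (g : F),
      (AddMonoidHom.toMultiplicative (α j).toAddMonoidHom).comp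
        (((actU p N).comp θN) g).toMonoidHom =
      (((actU p (M j)).comp (H j).subtype)
        ((θ j).codRestrict (H j) (hθ j) g)).toMonoidHom.comp
        (AddMonoidHom.toMultiplicative (α j).toAddMonoidHom) := by
    intro j g
    apply MonoidHom.ext
    intro n
    have := hα j g n.toAdd
    exact congrArg Multiplicative.ofAdd this
  have comp' : ∀ (g : F),
      (AddMonoidHom.toMultiplicative β.toAddMonoidHom).comp
        (((actU p N).comp θN) g).toMonoidHom =
      (((actU p M').comp θ'.range.subtype)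
        (θ'.rangeRestrict g)).toMonoidHom.comp
        (AddMonoidHom.toMultiplicative β.toAddMonoidHom) := by
    intro g
    apply MonoidHom.ext
    intro n
    have := hβ g n.toAdd
    exact congrArg Multiplicative.ofAdd this
  refine hC J (fun j => PG p (M j) (H j)) (PG p M' θ'.range)
    (Multiplicative N ⋊[(actU p N).comp θN] F)
    (MonoidHom.pi fun j => SemidirectProduct.map _ _ (comp j))
    (SemidirectProduct.map _ _ comp') hM ?_ ?_
  · rintro ⟨m, ⟨h, g, rfl⟩⟩
    obtain ⟨n, hn⟩ := hβs m.toAdd
    refine ⟨⟨Multiplicative.ofAdd n, g⟩, ?_⟩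
    refine SemidirectProduct.ext ?_ ?_
    · exact congrArg Multiplicative.ofAdd hn
    · rfl
  · rintro ⟨n, g⟩ hx
    rw [MonoidHom.mem_ker] at hx ⊢
    have hx1 : ∀ j, α j n.toAdd = 0 := by
      intro j
      have := congrArg (fun z => (z j).left) hx
      exact congrArg Multiplicative.toAdd this
    have hx2 : ∀ j, θ j g = 1 := by
      intro j
      have := congrArg (fun z => ((z j).right : (Module.End (ZMod p) (M j))ˣ)) hx
      exact this
    refine SemidirectProduct.ext ?_ ?_
    · exact congrArg Multiplicative.ofAdd (hk n.toAdd hx1)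
    · apply Subtype.ext
      change θ' g = 1
      apply Units.ext
      apply LinearMap.ext
      intro m'
      obtain ⟨n', rfl⟩ := hβs m'
      rw [← hβ]
      have h0 : β ((θN g : Module.End (ZMod p) N) n' - n') = 0 := by
        apply hk
        intro j
        rw [map_sub, hα, hx2 j]
        simp
      rw [map_sub, sub_eq_zero] at h0
      rw [h0]
      rfl

/-- S1' for algebras -/
theorem sec_alg {C : (Γ : Type) → [Group Γ] → Prop} (hC : SecC C) {p : ℕ} {n : ℕ}
    {J : Type} [Finite J] (M : J → Type) [∀ j, AddCommGroup (M j)] [∀ j, Module (ZMod p) (M j)]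
    (H : ∀ j, Subgroup (Module.End (ZMod p) (M j))ˣ) (hM : ∀ j, C (PG p (M j) (H j)))
    (A B : Type) [Ring A] [Algebra (ZMod p) A] [Ring B] [Algebra (ZMod p) B] (v : Fin n → Aˣ)
    (u : Fin n → Bˣ) (φ : A →ₐ[ZMod p] B) (hφ : Function.Surjective φ)
    (hv : ∀ i, φ (v i : A) = (u i : B))
    (ρ : ∀ j, A →ₐ[ZMod p] Module.End (ZMod p) (M j))
    (hρ : ∀ j i, Units.map ((ρ j : A →ₐ[ZMod p] Module.End (ZMod p) (M j)) :
      A →* Module.End (ZMod p) (M j)) (v i) ∈ H j)
    (m : ∀ j, M j) (hk : ∀ a : A, (∀ j, ρ j a (m j) = 0) → φ a = 0) :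
    C (PG p B ((regU p B).comp (FreeGroup.lift u)).range) := by
  have hlift : ∀ w : FreeGroup (Fin n), φ ((FreeGroup.lift v w : Aˣ) : A) =
      ((FreeGroup.lift u w : Bˣ) : B) := by
    have h1 : (Units.map ((φ : A →ₐ[ZMod p] B) : A →* B)).comp (FreeGroup.lift v) =
        FreeGroup.lift u := by
      refine FreeGroup.ext_hom _ _ fun i => ?_
      apply Units.ext
      simp [hv i]
    intro w
    rw [← h1]
    rfl
  refine sec_pair hC M H hM (F := FreeGroup (Fin n)) (N := A) (M' := B)
    (fun j => (Units.map ((ρ j : A →ₐ[ZMod p] Module.End (ZMod p) (M j)) :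
      A →* Module.End (ZMod p) (M j))).comp (FreeGroup.lift v)) ?_
    ((regU p A).comp (FreeGroup.lift v)) ((regU p B).comp (FreeGroup.lift u))
    (fun j => { toFun := fun a => ρ j a (m j)
                map_add' := fun a b => by rw [map_add]; rfl
                map_smul' := fun c a => by rw [map_smul]; rfl }) ?_ φ.toLinearMap ?_ hφ hk
  · intro j f
    induction f using FreeGroup.induction_on with
    | C1 => rw [map_one]; exact (H j).one_mem
    | of i => simpa using hρ j i
    | inv_of i h => rw [map_inv]; exact (H j).inv_mem h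
    | mul x y hx hy => rw [map_mul]; exact (H j).mul_mem hx hy
  · intro j f a
    show ρ j (((FreeGroup.lift v f : Aˣ) : A) * a) (m j) =
      ρ j ((FreeGroup.lift v f : Aˣ) : A) (ρ j a (m j))
    rw [map_mul]
    rfl
  · intro f a
    show φ (((FreeGroup.lift v f : Aˣ) : A) * a) = ((FreeGroup.lift u f : Bˣ) : B) * φ a
    rw [map_mul, hlift]

/-- sub-systems -/
theorem sub_sys {C : (Γ : Type) → [Group Γ] → Prop} (hC : SecC C) {p k m n : ℕ} [Fact p.Prime]
    {B : Type} [Ring B] [Algebra (ZMod p) B] {u : Fin m → Bˣ} (h : MSys C p k m B u)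
    (v : Fin n → Bˣ) (hv : ∀ i, v i ∈ (FreeGroup.lift u).range)
    (hrep : ∀ (i : Fin n) (b : B), lt v i * b * lt v i = 0) :
    ∃ (B₁ : Type) (_ : Ring B₁) (_ : Algebra (ZMod p) B₁) (u₁ : Fin n → B₁ˣ)
      (ι : B₁ →ₐ[ZMod p] B), Function.Injective ι ∧ (∀ i, ι (u₁ i : B₁) = (v i : B)) ∧
      MSys C p k n B₁ u₁ := by
  have hsq : ∀ i, lt v i * lt v i = 0 := by
    intro i
    have := hrep i 1
    rwa [mul_one] at this
  have hval : ∀ i, ((v i : Bˣ) : B) = 1 + lt v i := by
    intro i
    simp only [lt]
    abel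
  have hinv : ∀ i, (((v i)⁻¹ : Bˣ) : B) = 1 - lt v i := by
    intro i
    have h1 : ((v i : Bˣ) : B) * (1 - lt v i) = 1 := by
      rw [hval i]
      have : (1 + lt v i) * (1 - lt v i) = 1 - lt v i * lt v i := by noncomm_ring
      rw [this, hsq i, sub_zero]
    calc (((v i)⁻¹ : Bˣ) : B) = (((v i)⁻¹ : Bˣ) : B) * (((v i : Bˣ) : B) * (1 - lt v i)) := by
          rw [h1, mul_one]
      _ = 1 - lt v i := by rw [← mul_assoc, Units.inv_mul, one_mul]
  have hlt : ∀ i, lt v i ∈ Algebra.adjoin (ZMod p) (Set.range (lt v)) := fun i =>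
    Algebra.subset_adjoin ⟨i, rfl⟩
  have hmem : ∀ i, ((v i : Bˣ) : B) ∈ Algebra.adjoin (ZMod p) (Set.range (lt v)) := by
    intro i
    rw [hval i]
    exact Subalgebra.add_mem _ (Subalgebra.one_mem _) (hlt i)
  have hmem' : ∀ i, (((v i)⁻¹ : Bˣ) : B) ∈ Algebra.adjoin (ZMod p) (Set.range (lt v)) := by
    intro i
    rw [hinv i]
    exact Subalgebra.sub_mem _ (Subalgebra.one_mem _) (hlt i)
  let B₁ := Algebra.adjoin (ZMod p) (Set.range (lt v))
  let u₁ : Fin n → B₁ˣ := fun i =>
    ⟨⟨((v i : Bˣ) : B), hmem i⟩, ⟨(((v i)⁻¹ : Bˣ) : B), hmem' i⟩,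
      Subtype.ext (Units.mul_inv (v i)), Subtype.ext (Units.inv_mul (v i))⟩
  have hu₁ : ∀ i, ((u₁ i : B₁) : B) = (v i : B) := fun i => rfl
  have hltu : ∀ i, ((lt u₁ i : B₁) : B) = lt v i := fun i => rfl
  haveI := h.fin
  have hcomp : ∀ w : FreeGroup (Fin n),
      ((FreeGroup.lift u₁ w : B₁ˣ) : B₁).1 = ((FreeGroup.lift v w : Bˣ) : B) := by
    have key : (Units.map (B₁.val : B₁ →* B)).comp (FreeGroup.lift u₁) = FreeGroup.lift v := by
      apply FreeGroup.ext_hom
      intro i
      apply Units.ext
      simp [u₁]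
    intro w
    have := DFunLike.congr_fun key w
    have h2 := congrArg (fun x : Bˣ => (x : B)) this
    exact h2
  refine ⟨B₁, inferInstance, inferInstance, u₁, B₁.val, Subtype.val_injective, fun i => rfl, ?_⟩
  refine ⟨inferInstance, ?_, ?_, ?_, ?_⟩
  · intro i b
    apply Subtype.ext
    exact hrep i b.1
  · have hset : Set.range (lt u₁) = ((↑) : B₁ → B) ⁻¹' (Set.range (lt v)) := by
      ext x
      constructor
      · rintro ⟨i, rfl⟩
        exact ⟨i, rfl⟩
      · rintro ⟨i, hi⟩
        exact ⟨i, Subtype.ext hi⟩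
    rw [hset]
    exact Algebra.adjoin_adjoin_coe_preimage
  · refine sec_alg hC (J := Unit) (fun _ => B)
      (fun _ => ((regU p B).comp (FreeGroup.lift u)).range) (fun _ => h.pc) B₁ B₁ u₁ u₁
      (AlgHom.id _ _) Function.surjective_id (fun _ => rfl)
      (fun _ => (Algebra.lmul (ZMod p) B).comp B₁.val) ?_ (fun _ => 1) ?_
    · intro _ i
      obtain ⟨w, hw⟩ := hv i
      refine ⟨w, ?_⟩
      change regU p B (FreeGroup.lift u w) = _
      rw [hw]
      apply Units.ext
      rfl
    · intro a ha
      have h1 := ha ()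
      have h2 : (a : B) * 1 = 0 := h1
      rw [mul_one] at h2
      exact Subtype.ext h2
  · intro w
    have hw : FreeGroup.lift v w ∈ (FreeGroup.lift u).range := by
      have hle : (FreeGroup.lift v).range ≤ (FreeGroup.lift u).range := by
        apply FreeGroup.range_lift_le
        rintro x ⟨i, rfl⟩
        exact hv i
      exact hle ⟨w, rfl⟩
    obtain ⟨w', hw'⟩ := hw
    apply Subtype.ext
    have h3 := h.idx w'
    rw [hw'] at h3
    have h4 : (((((FreeGroup.lift u₁ w : B₁ˣ) : B₁) - 1) ^ k : B₁) : B) =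
        (((FreeGroup.lift v w : Bˣ) : B) - 1) ^ k := by
      rw [← hcomp w]
      rfl
    exact h4.trans h3

/-- quotient systems -/
theorem quot_sys {C : (Γ : Type) → [Group Γ] → Prop} (hC : SecC C) {p k n : ℕ} [Fact p.Prime]
    {B : Type} [Ring B] [Algebra (ZMod p) B] {u : Fin n → Bˣ} (h : MSys C p k n B u)
    {B' : Type} [Ring B'] [Algebra (ZMod p) B'] (u' : Fin n → B'ˣ) (φ : B →ₐ[ZMod p] B')
    (hφ : Function.Surjective φ) (hu : ∀ i, φ (u i : B) = (u' i : B')) :
    MSys C p k n B' u' := by
  have hlt : ∀ i, lt u' i = φ (lt u i) := by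
    intro i
    unfold lt
    rw [map_sub, map_one, hu]
  have hlift : ∀ w : FreeGroup (Fin n), ((FreeGroup.lift u' w : B'ˣ) : B') =
      φ ((FreeGroup.lift u w : Bˣ) : B) := by
    have h1 : (Units.map (φ : B →* B')).comp (FreeGroup.lift u) = FreeGroup.lift u' := by
      refine FreeGroup.ext_hom _ _ fun i => ?_
      apply Units.ext
      rw [MonoidHom.comp_apply, FreeGroup.lift_apply_of, FreeGroup.lift_apply_of, Units.coe_map]
      exact hu i
    intro w
    rw [← h1]
    rfl
  refine ⟨?_, ?_, ?_, ?_, ?_⟩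
  · have := h.fin
    exact Finite.of_surjective φ hφ
  · intro i b
    obtain ⟨b0, rfl⟩ := hφ b
    rw [hlt, ← map_mul, ← map_mul, h.rep, map_zero]
  · have h1 : Set.range (lt u') = φ '' Set.range (lt u) := by
      rw [← Set.range_comp]
      congr 1
      funext i
      exact hlt i
    rw [h1, ← AlgHom.map_adjoin, h.gen, Algebra.map_top]
    exact (AlgHom.range_eq_top φ).mpr hφ
  · refine sec_alg hC (J := Unit) (fun _ => B)
      (fun _ => ((regU p B).comp (FreeGroup.lift u)).range) (fun _ => h.pc) B B' u u' φ hφ hu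
      (fun _ => Algebra.lmul (ZMod p) B) ?_ (fun _ => 1) ?_
    · intro _ i
      refine ⟨FreeGroup.of i, ?_⟩
      rw [MonoidHom.comp_apply, FreeGroup.lift_apply_of]
      rfl
    · intro a ha
      have h1 : a * 1 = 0 := ha ()
      rw [mul_one] at h1
      rw [h1, map_zero]
  · intro w
    rw [hlift w, ← map_one φ, ← map_sub, ← map_pow, h.idx w, map_zero]

theorem evW_surj {K B : Type} [Field K] [Ring B] [Algebra K B] {n : ℕ} (x : Fin n → B)
    (hx : Algebra.adjoin K (Set.range x) = ⊤) (b : B) : ∃ ω : List (Fin n) →₀ K,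
      evW x ω = b := by
  classical
  have hb : b ∈ Submodule.span K (Submonoid.closure (Set.range x) : Set B) := by
    rw [← Algebra.adjoin_eq_span, hx]
    trivial
  induction hb using Submodule.span_induction with
  | mem y hy =>
    obtain ⟨l, hl, rfl⟩ := Submonoid.exists_list_of_mem_closure hy
    have hw : ∃ w : List (Fin n), w.map x = l := by
      clear hy
      induction l with
      | nil => exact ⟨[], rfl⟩
      | cons a t ih =>
        obtain ⟨w, hw⟩ := ih (fun y hy => hl y (List.mem_cons_of_mem _ hy))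
        obtain ⟨i, hi⟩ := hl a List.mem_cons_self
        exact ⟨i :: w, by simp [hw, hi]⟩
    obtain ⟨w, hw⟩ := hw
    refine ⟨Finsupp.single w 1, ?_⟩
    unfold evW
    rw [Finsupp.sum_single_index (by simp), one_smul, hw]
  | zero => exact ⟨0, by simp [evW]⟩
  | add a c _ _ ha hc =>
    obtain ⟨u, hu⟩ := ha
    obtain ⟨v, hv⟩ := hc
    refine ⟨u + v, ?_⟩
    unfold evW at *
    rw [Finsupp.sum_add_index' (by simp) (by intros; rw [add_smul]), hu, hv]
  | smul r a _ ha =>
    obtain ⟨u, hu⟩ := ha
    refine ⟨r • u, ?_⟩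
    unfold evW at *
    rw [Finsupp.sum_smul_index' (by simp), ← hu, Finsupp.smul_sum]
    refine Finsupp.sum_congr fun w _ => ?_
    rw [smul_eq_mul, mul_smul]

theorem ml_dup {R : Type} [Ring R] {n : ℕ} (x : Fin n → R)
    (hx : ∀ (i : Fin n) (b : R), x i * b * x i = 0) :
    ∀ w : List (Fin n), ¬ w.Nodup → (w.map x).prod = 0 := by
  intro w
  induction w with
  | nil => intro h; exact absurd List.nodup_nil h
  | cons a w ih =>
    intro h
    by_cases ha : a ∈ w
    · obtain ⟨s, t, rfl⟩ := List.append_of_mem ha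
      rw [List.map_cons, List.map_append, List.map_cons, List.prod_cons, List.prod_append,
        List.prod_cons]
      have := hx a ((s.map x).prod)
      calc x a * ((s.map x).prod * (x a * (t.map x).prod))
          = (x a * (s.map x).prod * x a) * (t.map x).prod := by simp only [mul_assoc]
        _ = 0 := by rw [this, zero_mul]
    · have hw : ¬ w.Nodup := fun hw => h (List.nodup_cons.2 ⟨ha, hw⟩)
      rw [List.map_cons, List.prod_cons, ih hw, mul_zero]

theorem ml_perm {n : ℕ} (w : List (Fin n)) (hw : w.Nodup) (hf : w.toFinset = Finset.univ) :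
    ∃ σ : Equiv.Perm (Fin n), List.ofFn (fun i => σ i) = w := by
  have hl : w.length = n := by
    rw [← List.toFinset_card_of_nodup hw, hf, Finset.card_univ, Fintype.card_fin]
  have hinj : Function.Injective (fun i : Fin n => w.get (Fin.cast hl.symm i)) := by
    intro i j hij
    have := List.nodup_iff_injective_get.1 hw hij
    exact Fin.cast_injective _ this
  refine ⟨Equiv.ofBijective _ (Finite.injective_iff_bijective.1 hinj), ?_⟩
  apply List.ext_getElem
  · rw [List.length_ofFn, hl]
  · intro i h1 h2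
    simp

theorem ml {C : (Γ : Type) → [Group Γ] → Prop} (hC : SecC C) {p : ℕ} [Fact p.Prime] (k n : ℕ)
    (ω : List (Fin n) →₀ ZMod p)
    (hω : ∀ (B : Type) [Ring B] [Algebra (ZMod p) B] (u : Fin n → Bˣ), MSys C p k n B u →
      evW (lt u) ω = 0) : Rel C p k n (fun σ => ω (List.ofFn (fun i => σ i))) := by
  classical
  intro B _ _ u h
  have key : ∀ T : Finset (Fin n), evW (fun i => if i ∈ T then (0:B) else lt u i) ω = 0 := by
    intro T
    obtain ⟨v, hv⟩ : ∃ v : Fin n → Bˣ, v = fun i => if i ∈ T then 1 else u i := ⟨_, rfl⟩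
    have hlt : ∀ i, lt v i = if i ∈ T then (0:B) else lt u i := by
      intro i
      unfold lt
      rw [hv]
      by_cases hi : i ∈ T
      · simp [hi]
      · simp [hi]
    have hv1 : ∀ i, v i ∈ (FreeGroup.lift u).range := by
      intro i
      rw [hv]
      by_cases hi : i ∈ T
      · simp only [hi, if_true]
        exact one_mem _
      · simp only [hi, if_false]
        exact ⟨FreeGroup.of i, by simp⟩
    have hrep : ∀ (i : Fin n) (b : B), lt v i * b * lt v i = 0 := by
      intro i b
      rw [hlt]
      by_cases hi : i ∈ T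
      · simp [hi]
      · simp only [hi, if_false]
        exact h.rep i b
    obtain ⟨B₁, _, _, u₁, ι, hι, hιu, hM⟩ := sub_sys hC h v hv1 hrep
    have h1 := hω B₁ u₁ hM
    have hιl : ∀ i, ι (lt u₁ i) = if i ∈ T then (0:B) else lt u i := by
      intro i
      rw [← hlt]
      unfold lt
      rw [map_sub, map_one, hιu]
    have h2 : ι (evW (lt u₁) ω) = evW (fun i => if i ∈ T then (0:B) else lt u i) ω := by
      unfold evW
      rw [map_finsuppSum]
      refine Finsupp.sum_congr fun w _ => ?_
      rw [map_smul, map_list_prod, List.map_map]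
      congr 3
      funext i
      exact hιl i
    rw [← h2, h1, map_zero]
  have hprod : ∀ (T : Finset (Fin n)) (w : List (Fin n)),
      (w.map (fun i => if i ∈ T then (0:B) else lt u i)).prod
        = if T ⊆ w.toFinsetᶜ then (w.map (lt u)).prod else 0 := by
    intro T w
    by_cases hT : T ⊆ w.toFinsetᶜ
    · rw [if_pos hT]
      congr 1
      apply List.map_congr_left
      intro i hi
      have : i ∉ T := fun hiT => by
        have := Finset.mem_compl.1 (hT hiT)
        exact this (List.mem_toFinset.2 hi)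
      rw [if_neg this]
    · rw [if_neg hT]
      obtain ⟨i, hiT, hiw⟩ := Finset.not_subset.1 hT
      have hiw' : i ∈ w := by
        by_contra hc
        exact hiw (Finset.mem_compl.2 (fun h => hc (List.mem_toFinset.1 h)))
      apply List.prod_eq_zero
      rw [List.mem_map]
      exact ⟨i, hiw', by rw [if_pos hiT]⟩
  have hsum : ∀ w : List (Fin n), ∑ T : Finset (Fin n), ((-1:ℤ)^T.card) •
      (w.map (fun i => if i ∈ T then (0:B) else lt u i)).prod
        = if w.toFinsetᶜ = ∅ then (w.map (lt u)).prod else 0 := by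
    intro w
    have e1 : ∑ T : Finset (Fin n), ((-1:ℤ)^T.card) •
      (w.map (fun i => if i ∈ T then (0:B) else lt u i)).prod
        = ∑ T ∈ (w.toFinsetᶜ).powerset, ((-1:ℤ)^T.card) • (w.map (lt u)).prod := by
      have hfil : (w.toFinsetᶜ).powerset = Finset.univ.filter (fun T => T ⊆ w.toFinsetᶜ) := by
        ext T
        simp only [Finset.mem_powerset, Finset.mem_filter, Finset.mem_univ, true_and]
      rw [hfil, Finset.sum_filter]
      refine Finset.sum_congr rfl fun T _ => ?_
      rw [hprod]
      by_cases hT : T ⊆ w.toFinsetᶜ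
      · rw [if_pos hT, if_pos hT]
      · rw [if_neg hT, if_neg hT, smul_zero]
    rw [e1, ← Finset.sum_smul, Finset.sum_powerset_neg_one_pow_card]
    by_cases hE : w.toFinsetᶜ = ∅
    · rw [if_pos hE, if_pos hE, one_smul]
    · rw [if_neg hE, if_neg hE, zero_smul]
  obtain ⟨g, hg⟩ : ∃ g : List (Fin n) → B, g = fun w =>
    ω w • (if w.toFinsetᶜ = ∅ then (w.map (lt u)).prod else 0) := ⟨_, rfl⟩
  have h0 : ∑ w ∈ ω.support, g w = 0 := by
    calc ∑ w ∈ ω.support, g w
        = ∑ w ∈ ω.support, ω w • ∑ T : Finset (Fin n), ((-1:ℤ)^T.card) •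
          (w.map (fun i => if i ∈ T then (0:B) else lt u i)).prod := by
          refine Finset.sum_congr rfl fun w _ => ?_
          rw [hsum, hg]
      _ = ∑ T : Finset (Fin n), ((-1:ℤ)^T.card) •
          evW (fun i => if i ∈ T then (0:B) else lt u i) ω := by
          unfold evW Finsupp.sum
          simp_rw [Finset.smul_sum]
          rw [Finset.sum_comm]
          refine Finset.sum_congr rfl fun T _ => Finset.sum_congr rfl fun w _ => ?_
          rw [smul_comm]
      _ = 0 := by
          refine Finset.sum_eq_zero fun T _ => ?_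
          rw [key, smul_zero]
  have hg1 : ∀ w, w ∉ ω.support → g w = 0 := by
    intro w hw
    rw [hg]
    simp only
    rw [Finsupp.notMem_support_iff.1 hw, zero_smul]
  have hg2 : ∀ w, (∀ σ : Equiv.Perm (Fin n), List.ofFn (fun i => σ i) ≠ w) → g w = 0 := by
    intro w hw
    rw [hg]
    simp only
    by_cases hE : w.toFinsetᶜ = ∅
    · rw [if_pos hE]
      have hE' : w.toFinset = Finset.univ := by
        rw [← compl_compl w.toFinset, hE, Finset.compl_empty]
      by_cases hn : w.Nodup
      · obtain ⟨σ, hσ⟩ := ml_perm w hn hE'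
        exact absurd hσ (hw σ)
      · rw [ml_dup (lt u) h.rep w hn, smul_zero]
    · rw [if_neg hE, smul_zero]
  have hinj : Function.Injective
      (fun σ : Equiv.Perm (Fin n) => List.ofFn (fun i => σ i)) := by
    intro σ τ hστ
    have := List.ofFn_injective hστ
    ext i
    exact congrArg Fin.val (congrFun this i)
  have hg3 : ∀ σ : Equiv.Perm (Fin n), g (List.ofFn (fun i => σ i)) =
      ω (List.ofFn (fun i => σ i)) • (List.ofFn (fun i => lt u (σ i))).prod := by
    intro σ
    rw [hg]
    simp only
    have hE : (List.ofFn (fun i => σ i)).toFinsetᶜ = ∅ := by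
      rw [Finset.compl_eq_empty_iff]
      ext i
      simp only [List.mem_toFinset, Finset.mem_univ, iff_true, List.mem_ofFn]
      exact ⟨σ.symm i, by simp⟩
    rw [if_pos hE, List.map_ofFn]
    rfl
  have hfin : ev (fun σ => ω (List.ofFn (fun i => σ i))) (lt u) = ∑ w ∈ ω.support, g w := by
    unfold ev
    have e1 : ∑ w ∈ ω.support, g w = ∑ w ∈ ω.support ∪ Finset.univ.image
        (fun σ : Equiv.Perm (Fin n) => List.ofFn (fun i => σ i)), g w := by
      apply Finset.sum_subset Finset.subset_union_left
      intro w _ hw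
      exact hg1 w hw
    have e2 : ∑ w ∈ Finset.univ.image
        (fun σ : Equiv.Perm (Fin n) => List.ofFn (fun i => σ i)), g w =
        ∑ w ∈ ω.support ∪ Finset.univ.image
        (fun σ : Equiv.Perm (Fin n) => List.ofFn (fun i => σ i)), g w := by
      apply Finset.sum_subset Finset.subset_union_right
      intro w _ hw
      apply hg2
      intro σ hσ
      exact hw (Finset.mem_image.2 ⟨σ, Finset.mem_univ _, hσ⟩)
    rw [e1, ← e2, Finset.sum_image (fun a _ b _ hab => hinj hab)]
    refine Finset.sum_congr rfl fun σ _ => ?_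
    rw [hg3]
  rw [hfin, h0]

/-- evaluation on words without repetition -/
noncomputable def usE {p : ℕ} {B : Type} [Ring B] [Algebra (ZMod p) B] {n : ℕ} (u : Fin n → Bˣ)
    (a : {w : List (Fin n) // w.Nodup} → ZMod p) : B := by
  classical exact ∑ w : {w : List (Fin n) // w.Nodup}, a w • (w.1.map (lt u)).prod

theorem us_dup {B : Type} [Ring B] {n : ℕ} (u : Fin n → Bˣ)
    (hrep : ∀ (i : Fin n) (b : B), lt u i * b * lt u i = 0) (x : Fin n) (w : List (Fin n))
    (h : List.Duplicate x w) : (w.map (lt u)).prod = 0 := by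
  induction h with
  | cons_mem hx =>
    obtain ⟨l1, l2, rfl⟩ := List.append_of_mem hx
    rw [List.map_cons, List.prod_cons, List.map_append, List.prod_append, List.map_cons,
      List.prod_cons, ← mul_assoc, ← mul_assoc, hrep, zero_mul]
  | cons_duplicate _ ih => rw [List.map_cons, List.prod_cons, ih, mul_zero]

theorem us_ev {p : ℕ} [Fact p.Prime] {B : Type} [Ring B] [Algebra (ZMod p) B] {n : ℕ}
    (u : Fin n → Bˣ) (hrep : ∀ (i : Fin n) (b : B), lt u i * b * lt u i = 0)
    (ω : List (Fin n) →₀ ZMod p) : evW (lt u) ω = usE u (fun w => ω w.1) := by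
  classical
  have h0 : ∀ w : List (Fin n), ¬ w.Nodup → (w.map (lt u)).prod = 0 := by
    intro w hw
    obtain ⟨x, hx⟩ := List.exists_duplicate_iff_not_nodup.mpr hw
    exact us_dup u hrep x w hx
  unfold evW usE Finsupp.sum
  have h1 : ∑ w : {w : List (Fin n) // w.Nodup}, ω w.1 • (w.1.map (lt u)).prod =
      ∑ w ∈ (Finset.univ : Finset {w : List (Fin n) // w.Nodup}).map
        (Function.Embedding.subtype _), ω w • (w.map (lt u)).prod := by
    rw [Finset.sum_map]
    rfl
  rw [h1]
  rw [Finset.sum_subset (Finset.subset_union_left (s₂ := (Finset.univ :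
    Finset {w : List (Fin n) // w.Nodup}).map (Function.Embedding.subtype _)))]
  · symm
    apply Finset.sum_subset Finset.subset_union_right
    intro w _ hw
    rw [h0 w, smul_zero]
    intro hn
    exact hw (Finset.mem_map.mpr ⟨⟨w, hn⟩, Finset.mem_univ _, rfl⟩)
  · intro w _ hw
    show ω w • (w.map (lt u)).prod = 0
    rw [Finsupp.notMem_support_iff.mp hw, zero_smul]

theorem univ_sys {C : (Γ : Type) → [Group Γ] → Prop} (hC : SecC C) {p : ℕ} [Fact p.Prime]
    (k n : ℕ) : ∃ (B : Type) (_ : Ring B) (_ : Algebra (ZMod p) B) (u : Fin n → Bˣ),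
      MSys C p k n B u ∧ ∀ ω : List (Fin n) →₀ ZMod p, evW (lt u) ω = 0 →
        ∀ (B' : Type) [Ring B'] [Algebra (ZMod p) B'] (u' : Fin n → B'ˣ),
          MSys C p k n B' u' → evW (lt u') ω = 0 := by
  classical
  haveI : NeZero p := ⟨(Fact.out : p.Prime).ne_zero⟩
  let T : Type := {κ : Set ({w : List (Fin n) // w.Nodup} → ZMod p) //
    ∃ (B : Type) (_ : Ring B) (_ : Algebra (ZMod p) B) (u : Fin n → Bˣ),
      MSys C p k n B u ∧ κ = {a | usE u a = 0}}
  haveI : Finite ({w : List (Fin n) // w.Nodup} → ZMod p) := inferInstance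
  haveI : Finite T := Subtype.finite
  choose Bk rk ak uk hM hker using (fun κ : T => κ.2)
  letI := rk
  letI := ak
  haveI : ∀ κ, Finite (Bk κ) := fun κ => (hM κ).fin
  have hsq : ∀ (κ : T) (i : Fin n), lt (uk κ) i * lt (uk κ) i = 0 := by
    intro κ i
    have := (hM κ).rep i 1
    rwa [mul_one] at this
  let t : Fin n → ((κ : T) → Bk κ) := fun i κ => lt (uk κ) i
  have htt : ∀ i, t i * t i = 0 := fun i => funext fun κ => hsq κ i
  let B := Algebra.adjoin (ZMod p) (Set.range t)
  have htB : ∀ i, t i ∈ B := fun i => Algebra.subset_adjoin ⟨i, rfl⟩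
  let tB : Fin n → B := fun i => ⟨t i, htB i⟩
  have htBB : ∀ i, tB i * tB i = 0 := fun i => Subtype.ext (htt i)
  let u : Fin n → Bˣ := fun i =>
    { val := 1 + tB i
      inv := 1 - tB i
      val_inv := by
        have := htBB i
        calc (1 + tB i) * (1 - tB i) = 1 - tB i * tB i := by
              rw [add_mul, one_mul, mul_sub, mul_one]; abel
          _ = 1 := by rw [this, sub_zero]
      inv_val := by
        have := htBB i
        calc (1 - tB i) * (1 + tB i) = 1 - tB i * tB i := by
              rw [sub_mul, one_mul, mul_add, mul_one]; abel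
          _ = 1 := by rw [this, sub_zero] }
  have hltu : ∀ i, lt u i = tB i := by
    intro i
    show (1 + tB i) - 1 = tB i
    abel
  let pr : ∀ κ : T, B →ₐ[ZMod p] Bk κ := fun κ => (Pi.evalAlgHom (ZMod p) Bk κ).comp B.val
  have hpr : ∀ κ i, pr κ (lt u i) = lt (uk κ) i := by
    intro κ i
    rw [hltu]
    rfl
  have hpru : ∀ κ i, pr κ (u i : B) = (uk κ i : Bk κ) := by
    intro κ i
    have h1 : (u i : B) = 1 + lt u i := by
      unfold lt
      abel
    rw [h1, map_add, map_one, hpr]
    unfold lt
    abel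
  have hext : ∀ a b : B, (∀ κ, pr κ a = pr κ b) → a = b := by
    intro a b h
    apply Subtype.ext
    funext κ
    exact h κ
  have hprlift : ∀ κ (w : FreeGroup (Fin n)), pr κ ((FreeGroup.lift u w : Bˣ) : B) =
      ((FreeGroup.lift (uk κ) w : (Bk κ)ˣ) : Bk κ) := by
    intro κ w
    have h1 : (Units.map ((pr κ : B →ₐ[ZMod p] Bk κ) : B →* Bk κ)).comp (FreeGroup.lift u) =
        FreeGroup.lift (uk κ) := by
      apply FreeGroup.ext_hom
      intro i
      apply Units.ext
      rw [MonoidHom.comp_apply, FreeGroup.lift_apply_of, FreeGroup.lift_apply_of]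
      exact hpru κ i
    have h2 := congrArg (fun f => ((f w : (Bk κ)ˣ) : Bk κ)) h1
    exact h2
  have hMB : MSys C p k n B u := by
    refine ⟨?_, ?_, ?_, ?_, ?_⟩
    · exact Subtype.finite
    · intro i b
      apply hext
      intro κ
      rw [map_mul, map_mul, hpr, map_zero]
      exact (hM κ).rep i _
    · have h1 : Set.range (lt u) = ((↑) : B → ((κ : T) → Bk κ)) ⁻¹' (Set.range t) := by
        ext b
        constructor
        · rintro ⟨i, rfl⟩
          exact ⟨i, by rw [hltu]⟩
        · rintro ⟨i, hi⟩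
          exact ⟨i, by rw [hltu]; exact Subtype.ext hi⟩
      rw [h1]
      exact Algebra.adjoin_adjoin_coe_preimage
    · refine sec_alg hC Bk (fun κ => ((regU p (Bk κ)).comp (FreeGroup.lift (uk κ))).range)
        (fun κ => (hM κ).pc) B B u u (AlgHom.id (ZMod p) B) Function.surjective_id
        (fun i => rfl) (fun κ => (Algebra.lmul (ZMod p) (Bk κ)).comp (pr κ)) ?_ (fun κ => 1) ?_
      · intro κ i
        refine ⟨FreeGroup.of i, ?_⟩
        apply Units.ext
        rw [MonoidHom.comp_apply, FreeGroup.lift_apply_of]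
        show Algebra.lmul (ZMod p) (Bk κ) (uk κ i : Bk κ) =
          Algebra.lmul (ZMod p) (Bk κ) (pr κ (u i : B))
        rw [hpru]
      · intro a ha
        apply hext
        intro κ
        have := ha κ
        change pr κ a * 1 = 0 at this
        rw [mul_one] at this
        rw [map_zero]
        exact this
    · intro w
      apply hext
      intro κ
      rw [map_pow, map_sub, map_one, hprlift, map_zero]
      exact (hM κ).idx w
  refine ⟨B, inferInstance, inferInstance, u, hMB, ?_⟩
  intro ω hω B' _ _ u' hM'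
  rw [us_ev u hMB.rep] at hω
  rw [us_ev u' hM'.rep]
  let κ : T := ⟨{a | usE u' a = 0}, B', inferInstance, inferInstance, u', hM', rfl⟩
  have hk1 : usE (uk κ) (fun w => ω w.1) = 0 := by
    have h1 := congrArg (pr κ) hω
    rw [map_zero] at h1
    unfold usE at h1 ⊢
    rw [map_sum] at h1
    rw [← h1]
    refine Finset.sum_congr rfl fun w _ => ?_
    rw [map_smul, map_list_prod, List.map_map]
    congr 3
    funext i
    exact (hpr κ i).symm
  have hk2 : (fun w : {w : List (Fin n) // w.Nodup} => ω w.1) ∈ κ.1 := by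
    rw [hker κ]
    exact hk1
  exact hk2

theorem exf_count {c : ℕ} {K : Type} [Field K] (w : List (Fin c)) :
    ∑ σ : Equiv.Perm (Fin c), (Finsupp.single w (1 : K)) (List.ofFn (fun i => σ i)) =
      (Finsupp.single (w : Multiset (Fin c)) (1 : K)) ((List.ofFn (id : Fin c → Fin c) :
        List (Fin c)) : Multiset (Fin c)) := by
  classical
  by_cases h : (w : Multiset (Fin c)) = ((List.ofFn (id : Fin c → Fin c) : List (Fin c)) :
      Multiset (Fin c))
  · rw [← h, Finsupp.single_eq_same]
    have hperm : w.Perm (List.ofFn (id : Fin c → Fin c)) := Multiset.coe_eq_coe.1 h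
    have hlen : w.length = c := by rw [hperm.length_eq, List.length_ofFn]
    have hnd : w.Nodup := hperm.nodup_iff.2 (List.nodup_ofFn.2 Function.injective_id)
    have hof : List.ofFn (fun i : Fin c => w.get (i.cast hlen.symm)) = w := by
      apply List.ext_get
      · rw [List.length_ofFn, hlen]
      · intro m h1 h2
        simp
    have hinj : Function.Injective (fun i : Fin c => w.get (i.cast hlen.symm)) := by
      intro i j hij
      have h1 := List.nodup_iff_injective_get.1 hnd hij
      exact Fin.cast_injective _ h1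
    have hbij : Function.Bijective (fun i : Fin c => w.get (i.cast hlen.symm)) :=
      Finite.injective_iff_bijective.1 hinj
    rw [Finset.sum_eq_single (Equiv.ofBijective _ hbij)]
    · have : List.ofFn (fun i => (Equiv.ofBijective _ hbij) i) = w := hof
      rw [this, Finsupp.single_eq_same]
    · intro τ _ hτ
      rw [Finsupp.single_apply, if_neg]
      intro h'
      apply hτ
      have h2 : List.ofFn (fun i => τ i) = List.ofFn (fun i : Fin c => w.get (i.cast hlen.symm)) := by
        rw [← h']
        exact hof.symm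
      have h3 := List.ofFn_injective h2
      ext i
      exact congrArg Fin.val (congrFun h3 i)
    · intro h'
      exact absurd (Finset.mem_univ _) h'
  · rw [Finsupp.single_apply, if_neg h]
    apply Finset.sum_eq_zero
    intro σ _
    rw [Finsupp.single_apply, if_neg]
    intro h'
    apply h
    rw [h', Multiset.coe_eq_coe]
    exact Equiv.Perm.ofFn_comp_perm σ id

theorem exists_f1 {C : (Γ : Type) → [Group Γ] → Prop} (hC : SecC C) {p : ℕ} [Fact p.Prime]
    (k c : ℕ)
    (hmet : ∀ (B : Type) [Ring B] [Algebra (ZMod p) B] (u : Fin c → Bˣ), MSys C p k c B u →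
      (∀ a b : B, a * b = b * a) → (List.ofFn (lt u)).prod = 0) :
    ∃ f1 : Equiv.Perm (Fin c) → ZMod p, ∑ σ, f1 σ = 1 ∧ Rel C p k c f1 := by
  classical
  obtain ⟨B, _, _, u, hu, huniv⟩ := univ_sys (C := C) hC (p := p) k c
  let E : (List (Fin c) →₀ ZMod p) →ₗ[ZMod p] B :=
    Finsupp.linearCombination (ZMod p) (fun w => (w.map (lt u)).prod)
  have hE : ∀ ω, evW (lt u) ω = E ω := fun ω => (Finsupp.linearCombination_apply _ _).symm
  have hEs : ∀ (w : List (Fin c)) (a : ZMod p), E (Finsupp.single w a) = a • (w.map (lt u)).prod :=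
    fun w a => Finsupp.linearCombination_single _ _ _
  let Ab : (List (Fin c) →₀ ZMod p) →ₗ[ZMod p] (Multiset (Fin c) →₀ ZMod p) :=
    Finsupp.lmapDomain (ZMod p) (ZMod p) (fun l : List (Fin c) => (l : Multiset (Fin c)))
  have hAbs : ∀ (w : List (Fin c)) (a : ZMod p), Ab (Finsupp.single w a) =
      Finsupp.single (w : Multiset (Fin c)) a := fun w a => Finsupp.mapDomain_single
  let J : Submodule (ZMod p) B := Submodule.map E (LinearMap.ker Ab)
  have hspan : ∀ b : B, b ∈ Submodule.span (ZMod p) (Set.range fun w : List (Fin c) =>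
      (w.map (lt u)).prod) := by
    intro b
    obtain ⟨ω, hω⟩ := evW_surj (lt u) hu.gen b
    rw [← hω, hE, ← Finsupp.range_linearCombination]
    exact ⟨ω, rfl⟩
  have hleft : ∀ b : B, ∀ j ∈ J, b * j ∈ J := by
    intro b
    induction hspan b using Submodule.span_induction with
    | mem b hb =>
      obtain ⟨w, rfl⟩ := hb
      rintro j ⟨ω, hω, rfl⟩
      refine ⟨Finsupp.mapDomain (fun l => w ++ l) ω, ?_, ?_⟩
      · have h1 : Ab (Finsupp.mapDomain (fun l => w ++ l) ω) =
            Finsupp.mapDomain (fun m : Multiset (Fin c) => (w : Multiset (Fin c)) + m) (Ab ω) := by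
          show Finsupp.mapDomain _ (Finsupp.mapDomain _ _) =
            Finsupp.mapDomain _ (Finsupp.mapDomain _ _)
          rw [← Finsupp.mapDomain_comp, ← Finsupp.mapDomain_comp]
          rfl
        have h2 : Ab ω = 0 := hω
        show Ab _ = 0
        rw [h1, h2, Finsupp.mapDomain_zero]
      · show E (Finsupp.mapDomain _ ω) = _
        have h3 : ∀ ω : List (Fin c) →₀ ZMod p, E (Finsupp.mapDomain (fun l => w ++ l) ω) =
            (w.map (lt u)).prod * E ω := by
          intro ω
          induction ω using Finsupp.induction_linear with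
          | zero => rw [Finsupp.mapDomain_zero, map_zero, mul_zero]
          | add a b ha hb => rw [Finsupp.mapDomain_add, map_add, map_add, ha, hb, mul_add]
          | single l a =>
            rw [Finsupp.mapDomain_single, hEs, hEs, List.map_append, List.prod_append,
              mul_smul_comm]
        exact h3 ω
    | zero => intro j _; rw [zero_mul]; exact J.zero_mem
    | add a b _ _ ha hb => intro j hj; rw [add_mul]; exact J.add_mem (ha j hj) (hb j hj)
    | smul a b _ hb => intro j hj; rw [smul_mul_assoc]; exact J.smul_mem a (hb j hj)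
  have hright : ∀ b : B, ∀ j ∈ J, j * b ∈ J := by
    intro b
    induction hspan b using Submodule.span_induction with
    | mem b hb =>
      obtain ⟨w, rfl⟩ := hb
      rintro j ⟨ω, hω, rfl⟩
      refine ⟨Finsupp.mapDomain (fun l => l ++ w) ω, ?_, ?_⟩
      · have h1 : Ab (Finsupp.mapDomain (fun l => l ++ w) ω) =
            Finsupp.mapDomain (fun m : Multiset (Fin c) => m + (w : Multiset (Fin c))) (Ab ω) := by
          show Finsupp.mapDomain _ (Finsupp.mapDomain _ _) =
            Finsupp.mapDomain _ (Finsupp.mapDomain _ _)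
          rw [← Finsupp.mapDomain_comp, ← Finsupp.mapDomain_comp]
          rfl
        have h2 : Ab ω = 0 := hω
        show Ab _ = 0
        rw [h1, h2, Finsupp.mapDomain_zero]
      · show E (Finsupp.mapDomain _ ω) = _
        have h3 : ∀ ω : List (Fin c) →₀ ZMod p, E (Finsupp.mapDomain (fun l => l ++ w) ω) =
            E ω * (w.map (lt u)).prod := by
          intro ω
          induction ω using Finsupp.induction_linear with
          | zero => rw [Finsupp.mapDomain_zero, map_zero, zero_mul]
          | add a b ha hb => rw [Finsupp.mapDomain_add, map_add, map_add, ha, hb, add_mul]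
          | single l a =>
            rw [Finsupp.mapDomain_single, hEs, hEs, List.map_append, List.prod_append,
              smul_mul_assoc]
        exact h3 ω
    | zero => intro j _; rw [mul_zero]; exact J.zero_mem
    | add a b _ _ ha hb => intro j hj; rw [mul_add]; exact J.add_mem (ha j hj) (hb j hj)
    | smul a b _ hb => intro j hj; rw [mul_smul_comm]; exact J.smul_mem a (hb j hj)
  have hcomm : ∀ a b : B, a * b - b * a ∈ J := by
    intro a b
    induction hspan a using Submodule.span_induction with
    | mem a ha =>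
      obtain ⟨w, rfl⟩ := ha
      induction hspan b using Submodule.span_induction with
      | mem b hb =>
        obtain ⟨v, rfl⟩ := hb
        refine ⟨Finsupp.single (w ++ v) 1 - Finsupp.single (v ++ w) 1, ?_, ?_⟩
        · show Ab _ = 0
          rw [map_sub, hAbs, hAbs, ← Multiset.coe_add, ← Multiset.coe_add, add_comm, sub_self]
        · rw [map_sub, hEs, hEs, one_smul, one_smul, List.map_append, List.map_append,
            List.prod_append, List.prod_append]
      | zero => rw [mul_zero, zero_mul, sub_self]; exact J.zero_mem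
      | add x y _ _ hx hy =>
        have := J.add_mem hx hy
        rw [mul_add, add_mul]
        convert this using 1
        abel
      | smul r x _ hx =>
        have := J.smul_mem r hx
        rw [mul_smul_comm, smul_mul_assoc, ← smul_sub]
        exact this
    | zero => rw [mul_zero, zero_mul, sub_self]; exact J.zero_mem
    | add x y _ _ hx hy =>
      have := J.add_mem hx hy
      rw [mul_add, add_mul]
      convert this using 1
      abel
    | smul r x _ hx =>
      have := J.smul_mem r hx
      rw [mul_smul_comm, smul_mul_assoc, ← smul_sub]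
      exact this
  let I : Ideal B :=
    { carrier := J
      add_mem' := fun ha hb => J.add_mem ha hb
      zero_mem' := J.zero_mem
      smul_mem' := fun b j hj => hleft b j hj }
  haveI : I.IsTwoSided := ⟨fun {a} b ha => hright b a ha⟩
  let φ : B →ₐ[ZMod p] B ⧸ I := Ideal.Quotient.mkₐ (ZMod p) I
  have hφ : Function.Surjective φ := Ideal.Quotient.mkₐ_surjective (ZMod p) I
  let u' : Fin c → (B ⧸ I)ˣ := fun i => Units.map (φ : B →* B ⧸ I) (u i)
  have hsys := quot_sys hC hu u' φ hφ (fun i => rfl)
  have hprod := hmet (B ⧸ I) u' hsys (by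
    intro a b
    obtain ⟨a, rfl⟩ := hφ a
    obtain ⟨b, rfl⟩ := hφ b
    rw [← map_mul, ← map_mul, ← sub_eq_zero, ← map_sub]
    exact Ideal.Quotient.eq_zero_iff_mem.2 (hcomm a b))
  have hlt : ∀ i, lt u' i = φ (lt u i) := by
    intro i
    unfold lt
    rw [map_sub, map_one]
    rfl
  have hmem : (List.ofFn (lt u)).prod ∈ I := by
    rw [← Ideal.Quotient.eq_zero_iff_mem]
    have e1 : List.ofFn (lt u') = (List.ofFn (lt u)).map φ := by
      have e0 : lt u' = φ ∘ lt u := funext hlt
      rw [List.map_ofFn, e0]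
    rw [e1, ← map_list_prod] at hprod
    exact hprod
  obtain ⟨ω0, hω0, hω0E⟩ := hmem
  have hω0' : Ab ω0 = 0 := hω0
  set ω : List (Fin c) →₀ ZMod p := Finsupp.single (List.ofFn (id : Fin c → Fin c)) 1 - ω0 with hω
  have hEω : E ω = 0 := by
    rw [hω, map_sub, hEs, one_smul, hω0E, List.map_ofFn]
    exact sub_self _
  refine ⟨fun σ => ω (List.ofFn (fun i => σ i)), ?_, ml hC k c ω (fun B' _ _ u'' h'' =>
    huniv ω (by rw [hE]; exact hEω) B' u'' h'')⟩
  have hΛ : ∀ ω : List (Fin c) →₀ ZMod p, ∑ σ : Equiv.Perm (Fin c),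
      ω (List.ofFn (fun i => σ i)) = (Ab ω) ((List.ofFn (id : Fin c → Fin c) :
        List (Fin c)) : Multiset (Fin c)) := by
    intro ω
    induction ω using Finsupp.induction_linear with
    | zero => simp
    | add a b ha hb =>
      simp only [Finsupp.add_apply, Finset.sum_add_distrib, map_add]
      rw [ha, hb]
    | single l a =>
      have h1 := exf_count (K := ZMod p) l
      have h2 : Finsupp.single l a = a • Finsupp.single l (1 : ZMod p) := by
        rw [Finsupp.smul_single, smul_eq_mul, mul_one]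
      rw [h2]
      simp only [Finsupp.smul_apply, map_smul, hAbs]
      rw [← Finset.smul_sum, h1]
  show ∑ σ : Equiv.Perm (Fin c), ω (List.ofFn (fun i => σ i)) = 1
  rw [hΛ, hω, map_sub, hω0', sub_zero, hAbs, Finsupp.single_eq_same]

theorem lin_part {B : Type} [Ring B] (K : Ideal B) (k : ℕ) (g : Bˣ) (t : B)
    (hg : (g : B) - 1 ∈ K) (ht : ∀ b : B, t * b * t = 0)
    (h : ((g : B) * (1 + t) - 1) ^ (k + 1) = 0) : ((g : B) - 1) ^ k * t ∈ K := by
  set a : B := (g : B) - 1 with ha
  have hga : (g : B) = a + 1 := by rw [ha]; simp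
  have hcomm : Commute a (g : B) := by
    rw [ha]
    exact (Commute.refl (g : B)).sub_left (Commute.one_left _)
  have e1 : (g : B) * (1 + t) - 1 = a + (g : B) * t := by
    rw [ha, mul_add, mul_one]
    abel
  rw [e1] at h
  have h1 : ∀ j : ℕ, (a + (g : B) * t) ^ j * ((g : B) * t) = a ^ j * ((g : B) * t) := by
    intro j
    induction j with
    | zero => simp
    | succ j ih =>
      rw [pow_succ', mul_assoc, ih, add_mul, pow_succ' a j, mul_assoc a]
      have : (g : B) * t * (a ^ j * ((g : B) * t)) = 0 := by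
        have h2 := ht (a ^ j * (g : B))
        calc (g : B) * t * (a ^ j * ((g : B) * t)) = (g : B) * (t * (a ^ j * (g : B)) * t) := by
              simp only [mul_assoc]
          _ = 0 := by rw [h2, mul_zero]
      rw [this, add_zero]
  have h3 : (a + (g : B) * t) ^ k * a + a ^ k * ((g : B) * t) = 0 := by
    rw [← h1 k, ← mul_add, ← pow_succ]
    exact h
  have h4 : a ^ k * ((g : B) * t) ∈ K := by
    have h5 : a ^ k * ((g : B) * t) = -((a + (g : B) * t) ^ k * a) := by
      rw [eq_neg_iff_add_eq_zero, add_comm]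
      exact h3
    rw [h5]
    exact K.neg_mem (K.mul_mem_left _ hg)
  have h6 : a ^ k * t = ((g⁻¹ : Bˣ) : B) * (a ^ k * ((g : B) * t)) := by
    have h7 : a ^ k * (g : B) = (g : B) * a ^ k := (hcomm.pow_left k).eq
    rw [← mul_assoc (a ^ k), h7, mul_assoc, ← mul_assoc, Units.inv_mul, one_mul]
  rw [h6]
  exact K.mul_mem_left _ h4

theorem aux6_quot {p : ℕ} (A : Type) [Ring A] [Algebra (ZMod p) A] (P : A → Prop)
    (h0 : P 0) (hadd : ∀ a b, P a → P b → P (a + b)) (hneg : ∀ a, P a → P (-a))
    (hl : ∀ a b, P b → P (a * b)) (hr : ∀ a b, P a → P (a * b)) :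
    ∃ (B : Type) (_ : Ring B) (_ : Algebra (ZMod p) B) (φ : A →ₐ[ZMod p] B),
      Function.Surjective φ ∧ ∀ a, φ a = 0 ↔ P a := by
  let c : RingCon A :=
    { r := fun a b => P (a - b)
      iseqv := ⟨fun a => by rw [sub_self]; exact h0,
        fun {a b} h => by have := hneg _ h; rwa [neg_sub] at this,
        fun {a b c} h1 h2 => by have := hadd _ _ h1 h2; rwa [sub_add_sub_cancel] at this⟩
      add' := by
        intro a b c d h1 h2
        have h3 := hadd _ _ h1 h2
        have e : a + c - (b + d) = a - b + (c - d) := by abel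
        change P (a + c - (b + d))
        rw [e]; exact h3
      mul' := by
        intro a b c d h1 h2
        have h3 := hadd _ _ (hr (a - b) c h1) (hl b (c - d) h2)
        have e : a * c - b * d = (a - b) * c + b * (c - d) := by noncomm_ring
        change P (a * c - b * d)
        rw [e]; exact h3 }
  refine ⟨c.Quotient, inferInstance, inferInstance, c.mkₐ (ZMod p), c.mkₐ_surjective, ?_⟩
  intro a
  have h1 : (c.mkₐ (ZMod p) a = 0) ↔ c a 0 := by
    have := c.eq (a := a) (b := 0)
    exact this
  rw [h1]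
  change P (a - 0) ↔ P a
  rw [sub_zero]

theorem aux6_word {B : Type} [Ring B] {N : ℕ} (u : Fin (N + 1) → Bˣ)
    (hrep : ∀ (i : Fin (N + 1)) (b : B), lt u i * b * lt u i = 0) (x : B)
    (hx : x ∈ Submonoid.closure (Set.range fun i : Fin N => lt u (Fin.castSucc i))) :
    ∃ t : B, (∃ w : FreeGroup (Fin (N + 1)), ((FreeGroup.lift u w : Bˣ) : B) = 1 + t) ∧
      (∀ b : B, t * b * t = 0) ∧
      x * lt u (Fin.last N) - t ∈
        Ideal.span (Set.range fun i : Fin N => lt u (Fin.castSucc i)) := by
  induction hx using Submonoid.closure_induction_left with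
  | one =>
    refine ⟨lt u (Fin.last N), ⟨FreeGroup.of (Fin.last N), ?_⟩, hrep _, ?_⟩
    · simp [lt]
    · simp
  | mul_left a ha b hb ih =>
    obtain ⟨i, rfl⟩ := ha
    obtain ⟨t, ⟨w, hw⟩, ht, hk⟩ := ih
    have hz := hrep (Fin.castSucc i)
    set z := lt u (Fin.castSucc i) with hzdef
    have hzz : z * z = 0 := by simpa using hz 1
    have htt : t * t = 0 := by simpa using ht 1
    refine ⟨z * t - t * z, ⟨⁅FreeGroup.of (Fin.castSucc i), w⁆, ?_⟩, ?_, ?_⟩
    · have hu : ((u (Fin.castSucc i) : Bˣ) : B) = 1 + z := by simp [hzdef, lt]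
      have hui : (((u (Fin.castSucc i))⁻¹ : Bˣ) : B) = 1 - z := by
        apply Units.inv_eq_of_mul_eq_one_right
        rw [hu]
        calc (1 + z) * (1 - z) = 1 - z * z := by noncomm_ring
          _ = 1 := by rw [hzz, sub_zero]
      have hwi : (((FreeGroup.lift u w)⁻¹ : Bˣ) : B) = 1 - t := by
        apply Units.inv_eq_of_mul_eq_one_right
        rw [hw]
        calc (1 + t) * (1 - t) = 1 - t * t := by noncomm_ring
          _ = 1 := by rw [htt, sub_zero]
      rw [commutatorElement_def]
      simp only [map_mul, map_inv, FreeGroup.lift_apply_of, Units.val_mul]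
      rw [hu, hw, hui, hwi]
      have h1 : t * z * t = 0 := ht z
      have h2 : z * t * z = 0 := hz t
      calc (1 + z) * (1 + t) * (1 - z) * (1 - t)
          = 1 + (z * t - t * z) - z * z - t * t - (z * t * z) + (t * z * t) + z * z * t
            - z * (t * t) + (z * t * z) * t := by noncomm_ring
        _ = 1 + (z * t - t * z) := by rw [h1, h2, hzz, htt]; simp
    · intro b
      calc (z * t - t * z) * b * (z * t - t * z)
          = (z * (t * b) * z) * t - z * (t * b * t) * z - t * (z * b * z) * t
            + t * (z * (b * t) * z) := by noncomm_ring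
        _ = 0 := by rw [hz (t * b), ht b, hz b, hz (b * t)]; simp
    · have e : z * b * lt u (Fin.last N) - (z * t - t * z)
          = z * (b * lt u (Fin.last N) - t) + t * z := by noncomm_ring
      rw [e]
      refine add_mem (Ideal.mul_mem_left _ _ hk) (Ideal.mul_mem_left _ _ ?_)
      exact Ideal.subset_span ⟨i, rfl⟩

theorem aux6_grp {B : Type} [Ring B] {N : ℕ} (u : Fin (N + 1) → Bˣ)
    (w : FreeGroup (Fin N)) :
    ((FreeGroup.lift u (FreeGroup.map Fin.castSucc w) : Bˣ) : B) - 1 ∈
        Ideal.span (Set.range fun i : Fin N => lt u (Fin.castSucc i)) := by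
  induction w using FreeGroup.induction_on with
  | C1 => simp
  | of i =>
    have : ((FreeGroup.lift u (FreeGroup.map Fin.castSucc (FreeGroup.of i)) : Bˣ) : B) - 1
        = lt u (Fin.castSucc i) := by simp [lt]
    rw [this]
    exact Ideal.subset_span ⟨i, rfl⟩
  | inv_of i h =>
    rw [map_inv, map_inv]
    set g := FreeGroup.lift u (FreeGroup.map Fin.castSucc (FreeGroup.of i))
    have e : ((g⁻¹ : Bˣ) : B) - 1 = -((g⁻¹ : Bˣ) : B) * ((g : B) - 1) := by
      rw [mul_sub, neg_mul, Units.inv_mul]; noncomm_ring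
    rw [e]
    exact Ideal.mul_mem_left _ _ h
  | mul x y hx hy =>
    rw [map_mul, map_mul, Units.val_mul]
    set g := FreeGroup.lift u (FreeGroup.map Fin.castSucc x)
    set h := FreeGroup.lift u (FreeGroup.map Fin.castSucc y)
    have e : (g : B) * (h : B) - 1 = (g : B) * ((h : B) - 1) + ((g : B) - 1) := by noncomm_ring
    rw [e]
    exact add_mem (Ideal.mul_mem_left _ _ hy) hx

theorem aux6_lc {K B : Type} [Field K] [Ring B] [Algebra K B] {n : ℕ} (x : Fin n → B)
    (ω : List (Fin n) →₀ K) :
    evW x ω = Finsupp.linearCombination K (fun w : List (Fin n) => (w.map x).prod) ω := rfl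

theorem aux6_ev {K B : Type} [Field K] [Ring B] [Algebra K B] {N : ℕ} (x : Fin (N + 1) → B)
    (ω : Fin N → (List (Fin (N + 1)) →₀ K)) :
    evW x (Finsupp.single (List.ofFn id) 1 -
      ∑ i : Fin N, Finsupp.mapDomain (fun w => w ++ [Fin.castSucc i]) (ω i)) =
      (List.ofFn (fun i : Fin N => x (Fin.castSucc i))).prod * x (Fin.last N)
        - ∑ i : Fin N, evW x (ω i) * x (Fin.castSucc i) := by
  rw [aux6_lc, map_sub, map_sum, Finsupp.linearCombination_single, one_smul]
  congr 1
  · rw [List.map_ofFn, List.ofFn_succ', List.concat_eq_append, List.prod_append]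
    simp [Function.comp_def]
  · refine Finset.sum_congr rfl fun i _ => ?_
    rw [Finsupp.linearCombination_mapDomain, aux6_lc, Finsupp.linearCombination_apply,
      Finsupp.linearCombination_apply, Finsupp.sum_mul]
    refine Finsupp.sum_congr fun w _ => ?_
    simp

theorem exists_f2 {C : (Γ : Type) → [Group Γ] → Prop} (hC : SecC C) {p : ℕ} [Fact p.Prime]
    (k N : ℕ)
    (hN : ∀ (B : Type) [Ring B] [Algebra (ZMod p) B] (u : Fin N → Bˣ), MSys C p k N B u →
      (List.ofFn (lt u)).prod = 0) :
    ∃ f2 : Equiv.Perm (Fin (N + 1)) → ZMod p,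
      (∀ σ, σ (Fin.last N) = Fin.last N → f2 σ = if σ = 1 then 1 else 0) ∧
        Rel C p (k + 1) (N + 1) f2 := by
  classical
  obtain ⟨B, _, _, u, hsys, huniv⟩ := univ_sys hC (p := p) (k + 1) (N + 1)
  let z : Fin N → B := fun i => lt u (Fin.castSucc i)
  let y : B := lt u (Fin.last N)
  let A0 : Subalgebra (ZMod p) B := Algebra.adjoin (ZMod p) (Set.range z)
  let KK : Ideal B := Ideal.span (Set.range z)
  haveI := hsys.fin
  obtain ⟨B2, _, _, φ, hφ, hker⟩ := aux6_quot (p := p) A0 (fun b => ∀ q : A0, (b : B) * q * y ∈ KK)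
    (by intro q; simp)
    (by
      intro a b ha hb q
      have := add_mem (ha q) (hb q)
      rw [Subalgebra.coe_add, add_mul, add_mul]; exact this)
    (by
      intro a ha q
      rw [Subalgebra.coe_neg, neg_mul, neg_mul]
      exact neg_mem (ha q))
    (by
      intro a b hb q
      rw [Subalgebra.coe_mul, mul_assoc, mul_assoc, ← mul_assoc (b : B)]
      exact Ideal.mul_mem_left _ _ (hb q))
    (by
      intro a b ha q
      have := ha (b * q)
      rw [Subalgebra.coe_mul, mul_assoc (a : B)]
      exact this)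
  let zA : Fin N → A0 := fun i => ⟨z i, Algebra.subset_adjoin ⟨i, rfl⟩⟩
  have hzA : ∀ i (b : A0), zA i * b * zA i = 0 := by
    intro i b
    apply Subtype.ext
    exact hsys.rep (Fin.castSucc i) b
  have hzA1 : ∀ i, zA i * zA i = 0 := by
    intro i; have := hzA i 1; rwa [mul_one] at this
  let v : Fin N → A0ˣ := fun i => ⟨1 + zA i, 1 - zA i,
    by
      calc (1 + zA i) * (1 - zA i) = 1 - zA i * zA i := by noncomm_ring
        _ = 1 := by rw [hzA1, sub_zero],
    by
      calc (1 - zA i) * (1 + zA i) = 1 - zA i * zA i := by noncomm_ring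
        _ = 1 := by rw [hzA1, sub_zero]⟩
  let u2 : Fin N → B2ˣ := fun i => Units.map (φ : A0 →* B2) (v i)
  have hlt : ∀ i, lt u2 i = φ (zA i) := by
    intro i
    change φ (1 + zA i) - 1 = φ (zA i)
    rw [map_add, map_one]; abel
  have hvu : (Units.map (A0.val : A0 →* B)).comp (FreeGroup.lift v) =
      (FreeGroup.lift u).comp (FreeGroup.map Fin.castSucc) := by
    ext i
    simp only [MonoidHom.comp_apply, FreeGroup.lift_apply_of, FreeGroup.map.of]
    change (1 : B) + z i = _
    simp [z, lt]
  have hsys2 : MSys C p k N B2 u2 := by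
    refine ⟨?_, ?_, ?_, ?_, ?_⟩
    · exact Finite.of_surjective φ hφ
    · intro i b
      obtain ⟨b, rfl⟩ := hφ b
      rw [hlt, ← map_mul, ← map_mul, hzA, map_zero]
    · have h1 : Set.range (lt u2) = φ '' (Set.range zA) := by
        rw [← Set.range_comp]; congr 1; funext i; exact hlt i
      have h2 : Algebra.adjoin (ZMod p) (Set.range zA) = ⊤ := by
        have h3 := Algebra.adjoin_adjoin_coe_preimage (R := ZMod p) (s := Set.range z)
        rw [← h3]
        congr 1
        ext a
        constructor
        · rintro ⟨i, rfl⟩; exact ⟨i, rfl⟩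
        · rintro ⟨i, hi⟩; exact ⟨i, Subtype.ext hi⟩
      rw [h1, ← AlgHom.map_adjoin, h2, Algebra.map_top]
      exact (AlgHom.range_eq_top φ).2 hφ
    · refine sec_alg hC (J := A0) (fun _ => B)
        (fun _ => ((regU p B).comp (FreeGroup.lift u)).range) (fun _ => hsys.pc) A0 B2 v u2 φ hφ
        (fun i => rfl) (fun _ => (Algebra.lmul (ZMod p) B).comp A0.val) ?_ (fun j => (j : B) * y) ?_
      · intro j i
        refine ⟨FreeGroup.of (Fin.castSucc i), ?_⟩
        apply Units.ext
        simp only [MonoidHom.comp_apply, FreeGroup.lift_apply_of]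
        change Algebra.lmul (ZMod p) B (u (Fin.castSucc i) : B) =
          Algebra.lmul (ZMod p) B ((1 : B) + z i)
        congr 1
        simp [z, lt]
      · intro a ha
        rw [hker]
        intro q
        have h1 : (a : B) * ((q : B) * y) = 0 := ha q
        rw [mul_assoc, h1]
        exact zero_mem _
    · intro w
      have h1 : ((FreeGroup.lift u2 w : B2ˣ) : B2) = φ ((FreeGroup.lift v w : A0ˣ) : A0) := by
        have h2 : FreeGroup.lift u2 = (Units.map (φ : A0 →* B2)).comp (FreeGroup.lift v) := by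
          ext i; simp [u2]
        rw [h2]; rfl
      rw [h1, ← map_one φ, ← map_sub, ← map_pow, hker]
      intro q
      set g := FreeGroup.lift u (FreeGroup.map Fin.castSucc w) with hg
      have hgB : (((FreeGroup.lift v w : A0ˣ) : A0) : B) = (g : B) := by
        have h3 := congrArg (fun f => ((f w : Bˣ) : B)) hvu
        exact h3
      have e1 : (((((FreeGroup.lift v w : A0ˣ) : A0) - 1) ^ k : A0) : B) = ((g : B) - 1) ^ k := by
        rw [Subalgebra.coe_pow, Subalgebra.coe_sub, hgB, Subalgebra.coe_one]
      rw [e1]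
      have hgK : (g : B) - 1 ∈ KK := aux6_grp u w
      have hq : (q : B) ∈ Submodule.span (ZMod p) (Submonoid.closure (Set.range z) : Set B) := by
        rw [← Algebra.adjoin_eq_span]; exact q.2
      generalize (q : B) = q' at hq ⊢
      induction hq using Submodule.span_induction with
      | mem x hx =>
        obtain ⟨t, ⟨w', hw'⟩, ht, hk⟩ := aux6_word u hsys.rep x hx
        have h4 : ((g : B) - 1) ^ k * t ∈ KK := by
          refine lin_part KK k g t hgK ht ?_
          have h5 := hsys.idx (FreeGroup.map Fin.castSucc w * w')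
          rw [map_mul, Units.val_mul, hw'] at h5
          exact h5
        have e2 : ((g : B) - 1) ^ k * x * y = ((g : B) - 1) ^ k * (x * y - t)
            + ((g : B) - 1) ^ k * t := by noncomm_ring
        rw [e2]
        exact add_mem (Ideal.mul_mem_left _ _ hk) h4
      | zero => simp
      | add a b _ _ ha hb =>
        rw [mul_add, add_mul]; exact add_mem ha hb
      | smul c a _ ha =>
        rw [mul_smul_comm, smul_mul_assoc, Algebra.smul_def]
        exact Ideal.mul_mem_left _ _ ha
  have h1 := hN B2 u2 hsys2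
  have h2 : φ ((List.ofFn zA).prod) = 0 := by
    rw [map_list_prod, List.map_ofFn, ← h1]
    congr 2
    funext i
    exact (hlt i).symm
  have h3 := (hker _).1 h2 1
  have h4 : (List.ofFn z).prod * y ∈ KK := by
    have h5 : (((List.ofFn zA).prod : A0) : B) = (List.ofFn z).prod := by
      have := map_list_prod A0.val (List.ofFn zA)
      rw [List.map_ofFn] at this
      exact this
    rw [h5] at h3
    simpa using h3
  obtain ⟨c, hc⟩ := (Submodule.mem_span_range_iff_exists_fun B).1 h4
  choose ω hω using fun i => evW_surj (K := ZMod p) (lt u) hsys.gen (c i)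
  have hW := aux6_ev (K := ZMod p) (lt u) ω
  have hW0 : evW (lt u) (Finsupp.single (List.ofFn id) 1 -
      ∑ i : Fin N, Finsupp.mapDomain (fun w => w ++ [Fin.castSucc i]) (ω i)) = 0 := by
    rw [hW, sub_eq_zero]
    refine Eq.trans hc.symm (Finset.sum_congr rfl fun i _ => ?_)
    rw [hω]; rfl
  refine ⟨_, ?_, ml hC (k + 1) (N + 1) _ (fun B' _ _ u' h => huniv _ hW0 B' u' h)⟩
  intro σ hσ
  rw [Finsupp.sub_apply, Finsupp.finset_sum_apply]
  have h5 : ∀ i : Fin N, (Finsupp.mapDomain (fun w => w ++ [Fin.castSucc i]) (ω i))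
      (List.ofFn fun i => σ i) = 0 := by
    intro i
    apply Finsupp.mapDomain_notin_range
    rintro ⟨w, hw⟩
    have h6 := congrArg List.getLast? hw
    rw [List.ofFn_succ'] at h6
    simp only [List.concat_eq_append, List.getLast?_append, List.getLast?_singleton,
      Option.some_or, Option.some.injEq] at h6
    rw [hσ] at h6
    exact absurd h6 (Fin.castSucc_lt_last i).ne
  rw [Finset.sum_eq_zero (fun i _ => h5 i), sub_zero, Finsupp.single_apply]
  congr 1
  rw [List.ofFn_inj]
  apply propext
  constructor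
  · intro h; ext i; rw [← congrFun h i]; rfl
  · rintro rfl; rfl

end Pool.Agent.Helper730.LN6
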