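import Pool.Agent.Helper730.LN6B

set_option autoImplicit false

open scoped commutatorElement

namespace Pool.Agent.Helper730.LN6

theorem II_facts (p : ℕ) {E : Type} [Ring E] [Algebra (ZMod p) E] (H : Subgroup Eˣ) :
    (1 : E) ∈ II p H 0 ∧ (∀ i j a b, a ∈ II p H i → b ∈ II p H j → a * b ∈ II p H (i + j)) ∧
      Antitone (II p H) ∧ (∀ h ∈ H, (h : E) ∈ II p H 0) ∧ (∀ h ∈ H, (h : E) - 1 ∈ II p H 1) := by
  have h1 : (1 : E) ∈ II p H 0 :=
    Submodule.subset_span ⟨[], by simp, by simp, by simp⟩
  have hanti : Antitone (II p H) := by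
    intro i j hij
    apply Submodule.span_mono
    rintro b ⟨l, hl, hj, rfl⟩
    exact ⟨l, hl, hij.trans hj, rfl⟩
  have hsub : ∀ h ∈ H, (h : E) - 1 ∈ II p H 1 := by
    intro h hh
    refine Submodule.subset_span ⟨[h], ?_, by simp, by simp⟩
    intro x hx
    rw [List.mem_singleton] at hx
    rwa [hx]
  refine ⟨h1, ?_, hanti, ?_, hsub⟩
  · intro i j a b ha hb
    have hmul : a * b ∈ II p H i * II p H j := Submodule.mul_mem_mul ha hb
    have hle : II p H i * II p H j ≤ II p H (i + j) := by
      unfold II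
      rw [Submodule.span_mul_span]
      apply Submodule.span_mono
      rintro x ⟨y, ⟨l, hl, hli, rfl⟩, z, ⟨m, hm, hmj, rfl⟩, rfl⟩
      refine ⟨l ++ m, ?_, ?_, ?_⟩
      · intro h hh
        rcases List.mem_append.mp hh with h' | h'
        · exact hl h h'
        · exact hm h h'
      · rw [List.length_append]; omega
      · simp
    exact hle hmul
  · intro h hh
    have h2 : (h : E) = ((h : E) - 1) + 1 := by abel
    rw [h2]
    exact Submodule.add_mem _ (hanti (Nat.zero_le 1) (hsub h hh)) h1

section cube_core_aux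

variable {p : ℕ} {E : Type} [Ring E] [Algebra (ZMod p) E] {n : ℕ}

/-- decomposition of a function on the cube -/
def cube_core_Dec (H : Finset (Fin n) → Submodule (ZMod p) E) (a : Finset (Fin n) → E) : Prop :=
  ∃ c : Finset (Fin n) → E, (∀ T, c T ∈ H T) ∧ ∀ S, a S = ∑ T ∈ S.powerset, c T

theorem cube_core_add {H : Finset (Fin n) → Submodule (ZMod p) E} {a b : Finset (Fin n) → E}
    (ha : cube_core_Dec H a) (hb : cube_core_Dec H b) : cube_core_Dec H (fun S => a S + b S) := by
  obtain ⟨c, hc, hc'⟩ := ha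
  obtain ⟨e, he, he'⟩ := hb
  refine ⟨fun T => c T + e T, fun T => (H T).add_mem (hc T) (he T), fun S => ?_⟩
  show a S + b S = ∑ T ∈ S.powerset, (c T + e T)
  rw [hc', he', Finset.sum_add_distrib]

theorem cube_core_smul {H : Finset (Fin n) → Submodule (ZMod p) E} {a : Finset (Fin n) → E}
    (r : ZMod p) (ha : cube_core_Dec H a) : cube_core_Dec H (fun S => r • a S) := by
  obtain ⟨c, hc, hc'⟩ := ha
  refine ⟨fun T => r • c T, fun T => (H T).smul_mem r (hc T), fun S => ?_⟩
  show r • a S = ∑ T ∈ S.powerset, r • c T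
  rw [hc', Finset.smul_sum]

theorem cube_core_zero (H : Finset (Fin n) → Submodule (ZMod p) E) :
    cube_core_Dec H (fun _ => 0) :=
  ⟨fun _ => 0, fun T => (H T).zero_mem, fun S => by simp⟩

theorem cube_core_mul {H H' H'' : Finset (Fin n) → Submodule (ZMod p) E}
    (hH : ∀ T T' x y, x ∈ H T → y ∈ H' T' → x * y ∈ H'' (T ∪ T'))
    {a b : Finset (Fin n) → E}
    (ha : cube_core_Dec H a) (hb : cube_core_Dec H' b) :
    cube_core_Dec H'' (fun S => a S * b S) := by
  classical
  obtain ⟨c, hc, hc'⟩ := ha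
  obtain ⟨e, he, he'⟩ := hb
  refine ⟨fun T => ∑ q ∈ (T.powerset ×ˢ T.powerset).filter (fun q => q.1 ∪ q.2 = T),
    c q.1 * e q.2, ?_, ?_⟩
  · intro T
    refine Submodule.sum_mem _ fun q hq => ?_
    rw [Finset.mem_filter] at hq
    have := hH q.1 q.2 _ _ (hc q.1) (he q.2)
    rwa [hq.2] at this
  · intro S
    show a S * b S = _
    rw [hc', he', Finset.sum_mul_sum, ← Finset.sum_product' S.powerset S.powerset
      (fun x y => c x * e y)]
    have hmaps : ∀ q ∈ S.powerset ×ˢ S.powerset, q.1 ∪ q.2 ∈ S.powerset := by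
      intro q hq
      rw [Finset.mem_product, Finset.mem_powerset, Finset.mem_powerset] at hq
      rw [Finset.mem_powerset]
      exact Finset.union_subset hq.1 hq.2
    rw [← Finset.sum_fiberwise_of_maps_to hmaps]
    refine Finset.sum_congr rfl fun T hT => ?_
    rw [Finset.mem_powerset] at hT
    refine Finset.sum_congr ?_ fun _ _ => rfl
    ext q
    simp only [Finset.mem_filter, Finset.mem_product, Finset.mem_powerset]
    constructor
    · rintro ⟨_, h⟩
      exact ⟨⟨h ▸ Finset.subset_union_left, h ▸ Finset.subset_union_right⟩, h⟩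
    · rintro ⟨⟨h1, h2⟩, h⟩
      exact ⟨⟨h1.trans hT, h2.trans hT⟩, h⟩

theorem cube_core_single (H : Finset (Fin n) → Submodule (ZMod p) E) (T0 : Finset (Fin n)) (v : E)
    (hv : v ∈ H T0) : cube_core_Dec H (fun S => if T0 ⊆ S then v else 0) := by
  classical
  refine ⟨fun T => if T = T0 then v else 0, ?_, ?_⟩
  · intro T
    by_cases h : T = T0
    · simp only [h, if_true]; exact hv
    · simp only [h, if_false]; exact (H T).zero_mem
  · intro S
    rw [Finset.sum_ite_eq']
    simp only [Finset.mem_powerset]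

variable (I : ℕ → Submodule (ZMod p) E) (d : Fin n → ℕ)

theorem cube_core_union (T T' : Finset (Fin n)) : ∑ j ∈ T ∪ T', d j ≤ ∑ j ∈ T, d j + ∑ j ∈ T', d j := by
  have := Finset.sum_union_inter (s₁ := T) (s₂ := T') (f := d)
  omega

theorem cube_core_all (h1 : (1 : E) ∈ I 0)
    (hmul : ∀ i j a b, a ∈ I i → b ∈ I j → a * b ∈ I (i + j))
    (hanti : Antitone I) (g : Fin n → Eˣ)
    (hg0 : ∀ i, ((g i)⁻¹ : Eˣ).val ∈ I 0) (hg : ∀ i, (g i : E) - 1 ∈ I (d i))
    (w : MonoidAlgebra (ZMod p) (FreeGroup (Fin n))) :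
    cube_core_Dec (fun T => I (∑ j ∈ T, d j)) (fun S => alS p g S w) := by
  classical
  have hHH : ∀ (T T' : Finset (Fin n)) (x y : E), x ∈ I (∑ j ∈ T, d j) → y ∈ I (∑ j ∈ T', d j) →
      x * y ∈ I (∑ j ∈ T ∪ T', d j) := fun T T' x y hx hy =>
    hanti (cube_core_union d T T') (hmul _ _ _ _ hx hy)
  have hc1 : cube_core_Dec (fun T => I (∑ j ∈ T, d j)) (fun _ => (1 : E)) := by
    have := cube_core_single (p := p) (fun T => I (∑ j ∈ T, d j)) (∅ : Finset (Fin n)) (1 : E)
      (by simpa using h1)
    simpa using this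
  induction w using MonoidAlgebra.induction_on with
  | of m =>
    induction m using FreeGroup.induction_on with
    | C1 =>
      simp only [map_one]
      exact hc1
    | of i =>
      have h2 := cube_core_single (p := p) (fun T => I (∑ j ∈ T, d j)) ({i} : Finset (Fin n))
        ((g i : E) - 1) (by simpa using hg i)
      have h3 := cube_core_add hc1 h2
      refine (iff_of_eq ?_).mp h3
      congr 1
      funext S
      unfold alS
      rw [MonoidAlgebra.lift_of]
      by_cases hi : i ∈ S
      · simp [hi]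
      · simp [hi]
    | inv_of i _ =>
      have h4 : ((g i)⁻¹ : Eˣ).val - 1 ∈ I (d i) := by
        have h5 := hmul 0 (d i) _ _ (hg0 i) (hg i)
        rw [zero_add] at h5
        have h6 : ((g i)⁻¹ : Eˣ).val - 1 = - (((g i)⁻¹ : Eˣ).val * ((g i : E) - 1)) := by
          rw [mul_sub, Units.inv_mul, mul_one]
          abel
        rw [h6]
        exact (I (d i)).neg_mem h5
      have h2 := cube_core_single (p := p) (fun T => I (∑ j ∈ T, d j)) ({i} : Finset (Fin n))
        (((g i)⁻¹ : Eˣ).val - 1) (by simpa using h4)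
      have h3 := cube_core_add hc1 h2
      refine (iff_of_eq ?_).mp h3
      congr 1
      funext S
      unfold alS
      rw [MonoidAlgebra.lift_of]
      by_cases hi : i ∈ S
      · simp [hi]
      · simp [hi]
    | mul x y hx hy =>
      have := cube_core_mul (H'' := fun T => I (∑ j ∈ T, d j)) hHH hx hy
      simpa only [map_mul] using this
  | add x y hx hy =>
    have := cube_core_add hx hy
    simpa only [map_add] using this
  | smul r x hx =>
    have := cube_core_smul r hx
    simpa only [map_smul] using this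

/-- the ideal -/
def cube_core_J (h1 : (1 : E) ∈ I 0)
    (hmul : ∀ i j a b, a ∈ I i → b ∈ I j → a * b ∈ I (i + j))
    (hanti : Antitone I) (g : Fin n → Eˣ)
    (hg0 : ∀ i, ((g i)⁻¹ : Eˣ).val ∈ I 0) (hg : ∀ i, (g i : E) - 1 ∈ I (d i)) :
    Ideal (MonoidAlgebra (ZMod p) (FreeGroup (Fin n))) where
  carrier := {w | cube_core_Dec (fun T => I (∑ j ∈ T, d j + 1)) (fun S => alS p g S w)}
  add_mem' := by
    intro a b ha hb
    have := cube_core_add ha hb
    simpa only [Set.mem_ofPred_eq, map_add] using this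
  zero_mem' := by
    have := cube_core_zero (p := p) (E := E) (n := n) (fun T => I (∑ j ∈ T, d j + 1))
    simpa only [Set.mem_ofPred_eq, map_zero] using this
  smul_mem' := by
    intro a b hb
    have ha := cube_core_all I d h1 hmul hanti g hg0 hg a
    have := cube_core_mul (H'' := fun T => I (∑ j ∈ T, d j + 1)) (fun T T' x y hx hy => by
      have h2 := hmul _ _ _ _ hx hy
      refine hanti ?_ h2
      have := cube_core_union d T T'
      omega) ha hb
    simpa only [Set.mem_ofPred_eq, smul_eq_mul, map_mul] using this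

end cube_core_aux

theorem cube_core (p : ℕ) [Fact p.Prime] {E : Type} [Ring E] [Algebra (ZMod p) E] (I : ℕ → Submodule (ZMod p) E)
    (h1 : (1 : E) ∈ I 0) (hmul : ∀ i j a b, a ∈ I i → b ∈ I j → a * b ∈ I (i + j))
    (hanti : Antitone I) {n : ℕ} (g : Fin n → Eˣ) (d : Fin n → ℕ) (hd : ∀ i, 1 ≤ d i)
    (hg0 : ∀ i, ((g i)⁻¹ : Eˣ).val ∈ I 0) (hg : ∀ i, (g i : E) - 1 ∈ I (d i)) :
    ∃ (B : Type) (_ : Ring B) (_ : Algebra (ZMod p) B)
      (φ : MonoidAlgebra (ZMod p) (FreeGroup (Fin n)) →ₐ[ZMod p] B),
      Function.Surjective φ ∧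
      (∀ i b, (φ (MonoidAlgebra.of (ZMod p) _ (FreeGroup.of i)) - 1) * b *
        (φ (MonoidAlgebra.of (ZMod p) _ (FreeGroup.of i)) - 1) = 0) ∧
      (∀ ω, (∀ S, alS p g S ω = 0) → φ ω = 0) ∧
      (∀ f : Equiv.Perm (Fin n) → ZMod p,
        ev f (fun i => φ (MonoidAlgebra.of (ZMod p) _ (FreeGroup.of i)) - 1) = 0 →
        ev f (fun i => (g i : E) - 1) ∈ I (∑ i, d i + 1)) := by
  classical
  let J := cube_core_J I d h1 hmul hanti g hg0 hg
  have hJ : ∀ w, w ∈ J ↔
      cube_core_Dec (fun T => I (∑ j ∈ T, d j + 1)) (fun S => alS p g S w) := fun w => Iff.rfl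
  have hts : J.IsTwoSided := ⟨by
    intro a b ha
    rw [hJ] at ha ⊢
    have hb := cube_core_all I d h1 hmul hanti g hg0 hg b
    have := cube_core_mul (H'' := fun T => I (∑ j ∈ T, d j + 1)) (fun T T' x y hx hy => by
      have h2 := hmul _ _ _ _ hx hy
      refine hanti ?_ h2
      have := cube_core_union d T T'
      omega) ha hb
    simpa only [map_mul] using this⟩
  have hφ0 : ∀ w, Ideal.Quotient.mkₐ (ZMod p) J w = 0 ↔ w ∈ J := fun w =>
    Ideal.Quotient.eq_zero_iff_mem
  have hx : ∀ (S : Finset (Fin n)) (i : Fin n),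
      alS p g S (MonoidAlgebra.of (ZMod p) _ (FreeGroup.of i)) = if i ∈ S then (g i : E) else 1 := by
    intro S i
    unfold alS
    rw [MonoidAlgebra.lift_of]
    by_cases hi : i ∈ S
    · simp [hi]
    · simp [hi]
  refine ⟨MonoidAlgebra (ZMod p) (FreeGroup (Fin n)) ⧸ J, inferInstance, inferInstance,
    Ideal.Quotient.mkₐ (ZMod p) J, Ideal.Quotient.mkₐ_surjective _ _, ?_, ?_, ?_⟩
  · intro i b
    obtain ⟨b, rfl⟩ := Ideal.Quotient.mkₐ_surjective (ZMod p) J b
    rw [← map_one (Ideal.Quotient.mkₐ (ZMod p) J), ← map_sub, ← map_mul, ← map_mul, hφ0, hJ]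
    have hxi : cube_core_Dec (fun T => if T = {i} then I (d i) else ⊥)
        (fun S => alS p g S (MonoidAlgebra.of (ZMod p) _ (FreeGroup.of i) - 1)) := by
      have h2 := cube_core_single (p := p) (fun T => if T = {i} then I (d i) else ⊥)
        ({i} : Finset (Fin n)) ((g i : E) - 1) (by simpa using hg i)
      refine (iff_of_eq ?_).mp h2
      congr 1
      funext S
      rw [map_sub, hx, map_one]
      by_cases hi : i ∈ S
      · simp [hi]
      · simp [hi]
    have hb := cube_core_all I d h1 hmul hanti g hg0 hg b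
    have h3 : cube_core_Dec (fun T => if i ∈ T then I (∑ j ∈ T, d j) else ⊥)
        (fun S => alS p g S (MonoidAlgebra.of (ZMod p) _ (FreeGroup.of i) - 1) * alS p g S b) := by
      refine cube_core_mul (fun T T' x y hx hy => ?_) hxi hb
      by_cases hT : T = {i}
      · simp only [hT, if_true] at hx
        rw [if_pos (by rw [hT]; simp)]
        have h4 := hmul _ _ _ _ hx hy
        refine hanti ?_ h4
        have := cube_core_union d {i} T'
        rw [Finset.sum_singleton] at this
        rw [hT]
        exact this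
      · simp only [hT, if_false, Submodule.mem_bot] at hx
        rw [hx, zero_mul]
        exact Submodule.zero_mem _
    have h5 : cube_core_Dec (fun T => I (∑ j ∈ T, d j + 1))
        (fun S => alS p g S (MonoidAlgebra.of (ZMod p) _ (FreeGroup.of i) - 1) * alS p g S b *
          alS p g S (MonoidAlgebra.of (ZMod p) _ (FreeGroup.of i) - 1)) := by
      refine cube_core_mul (fun T T' x y hx hy => ?_) h3 hxi
      by_cases hT' : T' = {i}
      · simp only [hT', if_true] at hy
        by_cases hT : i ∈ T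
        · simp only [hT, if_true] at hx
          have h4 := hmul _ _ _ _ hx hy
          refine hanti ?_ h4
          have h6 : T ∪ T' = T := by
            rw [hT']
            exact Finset.union_eq_left.2 (Finset.singleton_subset_iff.2 hT)
          rw [h6]
          have := hd i
          omega
        · simp only [hT, if_false, Submodule.mem_bot] at hx
          rw [hx, zero_mul]
          exact Submodule.zero_mem _
      · simp only [hT', if_false, Submodule.mem_bot] at hy
        rw [hy, mul_zero]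
        exact Submodule.zero_mem _
    simpa only [map_mul] using h5
  · intro ω hω
    rw [hφ0, hJ]
    have := cube_core_zero (p := p) (E := E) (n := n) (fun T => I (∑ j ∈ T, d j + 1))
    simpa only [hω] using this
  · intro f hf
    set y : Fin n → MonoidAlgebra (ZMod p) (FreeGroup (Fin n)) :=
      fun i => MonoidAlgebra.of (ZMod p) _ (FreeGroup.of i) - 1 with hy
    have hev : ∀ {A A' : Type} [Ring A] [Algebra (ZMod p) A] [Ring A'] [Algebra (ZMod p) A']
        (ψ : A →ₐ[ZMod p] A') (z : Fin n → A), ψ (ev f z) = ev f (fun i => ψ (z i)) := by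
      intro A A' _ _ _ _ ψ z
      unfold ev
      rw [map_sum]
      refine Finset.sum_congr rfl fun σ _ => ?_
      rw [map_smul, map_list_prod, List.map_ofFn]
      rfl
    have hmem : ev f y ∈ J := by
      rw [← hφ0, hev]
      rw [← hf]
      congr 1
    rw [hJ] at hmem
    obtain ⟨c, hc, hc'⟩ := hmem
    have hal : ∀ S, alS p g S (ev f y) = ev f (fun i => (if i ∈ S then (g i : E) else 1) - 1) := by
      intro S
      rw [hev]
      congr 1
      funext i
      rw [hy]
      simp only [map_sub, map_one, hx]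
    have hS0 : ∀ S, S ≠ Finset.univ → alS p g S (ev f y) = 0 := by
      intro S hS
      obtain ⟨j, hj⟩ : ∃ j, j ∉ S := by
        by_contra hcon
        push Not at hcon
        exact hS (Finset.eq_univ_of_forall hcon)
      rw [hal]
      unfold ev
      refine Finset.sum_eq_zero fun σ _ => ?_
      have : (List.ofFn fun i => ((if σ i ∈ S then (g (σ i) : E) else 1) - 1)).prod = 0 := by
        apply List.prod_eq_zero
        rw [List.mem_ofFn]
        refine ⟨σ.symm j, ?_⟩
        simp [hj]
      rw [this, smul_zero]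
    have hc0 : ∀ T : Finset (Fin n), T ≠ Finset.univ → c T = 0 := by
      intro T
      induction T using Finset.strongInduction with
      | H T ih =>
        intro hT
        have h2 := hc' T
        simp only at h2
        rw [hS0 T hT, Finset.sum_eq_single T] at h2
        · exact h2.symm
        · intro T' hT' hne
          rw [Finset.mem_powerset] at hT'
          refine ih T' (Finset.ssubset_iff_subset_ne.2 ⟨hT', hne⟩) ?_
          rintro rfl
          exact hT (Finset.univ_subset_iff.1 hT')
        · intro h3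
          exact absurd (Finset.mem_powerset_self T) h3
    have hcu := hc' Finset.univ
    simp only at hcu
    rw [Finset.sum_eq_single Finset.univ (fun T' _ hne => hc0 T' hne)
      (fun h3 => absurd (Finset.mem_powerset_self _) h3), hal] at hcu
    have h4 := hc Finset.univ
    rw [← hcu] at h4
    simpa using h4

theorem cube_sys_memH {G : Type} [Group G] {n : ℕ} (H : Subgroup G) (f : Fin n → G)
    (hf : ∀ i, f i ∈ H) (w : FreeGroup (Fin n)) : FreeGroup.lift f w ∈ H := by
  induction w using FreeGroup.induction_on with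
  | C1 => rw [map_one]; exact H.one_mem
  | of i => rw [FreeGroup.lift_apply_of]; exact hf i
  | inv_of i _ => rw [map_inv, FreeGroup.lift_apply_of]; exact H.inv_mem (hf i)
  | mul x y hx hy => rw [map_mul]; exact H.mul_mem hx hy

theorem cube_sys_alS (p : ℕ) {E : Type} [Ring E] [Algebra (ZMod p) E] {n : ℕ} (g : Fin n → Eˣ)
    (S : Finset (Fin n)) (w : FreeGroup (Fin n)) :
    alS p g S (MonoidAlgebra.of (ZMod p) _ w) =
      ((FreeGroup.lift (fun i => if i ∈ S then g i else 1) w : Eˣ) : E) := by
  unfold alS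
  rw [MonoidAlgebra.lift_of]
  rfl

theorem cube_sys {C : (Γ : Type) → [Group Γ] → Prop} (hC : SecC C) {p : ℕ} [Fact p.Prime]
    {k n : ℕ} (M : Type) [AddCommGroup M] [Module (ZMod p) M] [Finite M]
    (H : Subgroup (Module.End (ZMod p) M)ˣ) (hM : C (PG p M H))
    (hk : ∀ h ∈ H, ((h : Module.End (ZMod p) M) - 1) ^ k = 0)
    (g : Fin n → (Module.End (ZMod p) M)ˣ) (hgH : ∀ i, g i ∈ H) (d : Fin n → ℕ)
    (hd : ∀ i, 1 ≤ d i) (hg : ∀ i, (g i : Module.End (ZMod p) M) - 1 ∈ II p H (d i)) :
    ∃ (B : Type) (_ : Ring B) (_ : Algebra (ZMod p) B) (u : Fin n → Bˣ),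
      MSys C p k n B u ∧ ∀ f : Equiv.Perm (Fin n) → ZMod p, ev f (lt u) = 0 →
        ev f (fun i => (g i : Module.End (ZMod p) M) - 1) ∈ II p H (∑ i, d i + 1) := by
  obtain ⟨h1, hmul, hanti, h0, hI1⟩ := II_facts p H
  obtain ⟨B, iR, iA, φ, hsur, hrep, hker, hmain⟩ := cube_core p (II p H) h1 hmul hanti g d hd
    (fun i => h0 _ (H.inv_mem (hgH i))) hg
  letI := iR
  letI := iA
  set v : Fin n → (MonoidAlgebra (ZMod p) (FreeGroup (Fin n)))ˣ := fun i =>
    Units.map (MonoidAlgebra.of (ZMod p) (FreeGroup (Fin n))) (toUnits (FreeGroup.of i)) with hv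
  set u : Fin n → Bˣ := fun i =>
    Units.map ((φ : MonoidAlgebra (ZMod p) (FreeGroup (Fin n)) →ₐ[ZMod p] B) :
      MonoidAlgebra (ZMod p) (FreeGroup (Fin n)) →* B) (v i) with hu
  have hui : ∀ i, (u i : B) = φ (MonoidAlgebra.of (ZMod p) _ (FreeGroup.of i)) := fun i => rfl
  have hlt : ∀ i, lt u i = φ (MonoidAlgebra.of (ZMod p) _ (FreeGroup.of i)) - 1 := fun i => rfl
  have hlift : ∀ w : FreeGroup (Fin n), ((FreeGroup.lift u w : Bˣ) : B) =
      φ (MonoidAlgebra.of (ZMod p) _ w) := by
    intro w
    have hh : FreeGroup.lift u =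
        (Units.map ((φ : MonoidAlgebra (ZMod p) (FreeGroup (Fin n)) →ₐ[ZMod p] B) :
          MonoidAlgebra (ZMod p) (FreeGroup (Fin n)) →* B)).comp
        ((Units.map (MonoidAlgebra.of (ZMod p) (FreeGroup (Fin n)))).comp
          (toUnits (G := FreeGroup (Fin n))).toMonoidHom) := by
      apply FreeGroup.ext_hom
      intro a
      rw [FreeGroup.lift_apply_of]
      rfl
    rw [hh]
    rfl
  have hsq : ∀ i, lt u i * lt u i = 0 := by
    intro i
    have := hrep i 1
    rw [mul_one] at this
    exact this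
  refine ⟨B, iR, iA, u, ⟨?_, ?_, ?_, ?_, ?_⟩, ?_⟩
  · -- finite
    haveI : Finite (Module.End (ZMod p) M) :=
      Finite.of_injective (fun f : Module.End (ZMod p) M => (f : M → M)) DFunLike.coe_injective
    refine Finite.of_injective (fun b : B => fun S : Finset (Fin n) =>
      alS p g S (Function.surjInv hsur b)) ?_
    intro b b' hbb
    have h2 : φ (Function.surjInv hsur b - Function.surjInv hsur b') = 0 := by
      apply hker
      intro S
      rw [map_sub, sub_eq_zero]
      exact congrFun hbb S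
    rw [map_sub, sub_eq_zero, Function.surjInv_eq hsur, Function.surjInv_eq hsur] at h2
    exact h2
  · intro i b
    exact hrep i b
  · -- generation
    rw [eq_top_iff]
    rintro b -
    have hw : ∀ w : FreeGroup (Fin n), φ (MonoidAlgebra.of (ZMod p) _ w) ∈
        Algebra.adjoin (ZMod p) (Set.range (lt u)) := by
      intro w
      induction w using FreeGroup.induction_on with
      | C1 =>
        rw [map_one, map_one]
        exact one_mem _
      | of i =>
        have h3 : φ (MonoidAlgebra.of (ZMod p) _ (FreeGroup.of i)) = 1 + lt u i := by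
          rw [hlt]; abel
        have h4 : FreeGroup.of i = (pure i : FreeGroup (Fin n)) := rfl
        first
          | rw [h3]; exact add_mem (one_mem _) (Algebra.subset_adjoin ⟨i, rfl⟩)
          | rw [← h4, h3]; exact add_mem (one_mem _) (Algebra.subset_adjoin ⟨i, rfl⟩)
      | inv_of i _ =>
        have h3 : φ (MonoidAlgebra.of (ZMod p) _ (FreeGroup.of i)) = 1 + lt u i := by
          rw [hlt]; abel
        have h5 : φ (MonoidAlgebra.of (ZMod p) _ (FreeGroup.of i)) *
            φ (MonoidAlgebra.of (ZMod p) _ (FreeGroup.of i)⁻¹) = 1 := by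
          rw [← map_mul, ← map_mul, mul_inv_cancel, map_one, map_one]
        have h6 : (1 - lt u i) * (1 + lt u i) = 1 := by
          have := hsq i
          calc (1 - lt u i) * (1 + lt u i) = 1 - lt u i * lt u i := by noncomm_ring
            _ = 1 := by rw [this, sub_zero]
        have h7 : φ (MonoidAlgebra.of (ZMod p) _ (FreeGroup.of i)⁻¹) = 1 - lt u i := by
          rw [h3] at h5
          calc φ (MonoidAlgebra.of (ZMod p) _ (FreeGroup.of i)⁻¹)
              = ((1 - lt u i) * (1 + lt u i)) *
                φ (MonoidAlgebra.of (ZMod p) _ (FreeGroup.of i)⁻¹) := by rw [h6, one_mul]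
            _ = (1 - lt u i) * ((1 + lt u i) *
                φ (MonoidAlgebra.of (ZMod p) _ (FreeGroup.of i)⁻¹)) := by rw [mul_assoc]
            _ = 1 - lt u i := by rw [h5, mul_one]
        have h4 : FreeGroup.of i = (pure i : FreeGroup (Fin n)) := rfl
        first
          | rw [h7]; exact sub_mem (one_mem _) (Algebra.subset_adjoin ⟨i, rfl⟩)
          | rw [← h4, h7]; exact sub_mem (one_mem _) (Algebra.subset_adjoin ⟨i, rfl⟩)
      | mul x y hx hy =>
        rw [map_mul, map_mul]
        exact mul_mem hx hy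
    obtain ⟨a, rfl⟩ := hsur b
    induction a using MonoidAlgebra.induction_on with
    | of w => exact hw w
    | add x y hx hy => rw [map_add]; exact add_mem hx hy
    | smul r x hx => rw [map_smul]; exact Subalgebra.smul_mem _ hx r
  · -- the group
    refine sec_alg hC (J := Finset (Fin n) × M) (fun _ => M) (fun _ => H) (fun _ => hM)
      (MonoidAlgebra (ZMod p) (FreeGroup (Fin n))) B v u φ hsur (fun i => rfl)
      (fun j => alS p g j.1) ?_ (fun j => j.2) ?_
    · intro j i
      have h8 : Units.map ((alS p g j.1 : MonoidAlgebra (ZMod p) (FreeGroup (Fin n)) →ₐ[ZMod p]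
          Module.End (ZMod p) M) : MonoidAlgebra (ZMod p) (FreeGroup (Fin n)) →*
          Module.End (ZMod p) M) (v i) = if i ∈ j.1 then g i else 1 := by
        apply Units.ext
        change alS p g j.1 (MonoidAlgebra.of (ZMod p) _ (FreeGroup.of i)) = _
        rw [cube_sys_alS, FreeGroup.lift_apply_of]
      rw [h8]
      split_ifs
      · exact hgH i
      · exact H.one_mem
    · intro a ha
      apply hker
      intro S
      ext m
      exact ha (S, m)
  · intro w
    rw [hlift]
    have h9 : (φ (MonoidAlgebra.of (ZMod p) _ w) - 1) ^ k =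
        φ ((MonoidAlgebra.of (ZMod p) _ w - 1) ^ k) := by
      rw [map_pow, map_sub, map_one]
    rw [h9]
    apply hker
    intro S
    rw [map_pow, map_sub, map_one, cube_sys_alS]
    apply hk
    apply cube_sys_memH
    intro i
    split_ifs
    · exact hgH i
    · exact H.one_mem
  · intro f hf
    exact hmain f hf

/-- sequences with `j`-th entry in `I j` -/
def agW {K E : Type} [Field K] [Ring E] [Algebra K E] (I : ℕ → Submodule K E) :
    Submodule K (ℕ → E) where
  carrier := {v | ∀ j, v j ∈ I j}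
  add_mem' := fun ha hb j => (I j).add_mem (ha j) (hb j)
  zero_mem' := fun j => (I j).zero_mem
  smul_mem' := fun c _ hv j => (I j).smul_mem c (hv j)

/-- sequences with `j`-th entry in `I (j+1)` -/
def agV {K E : Type} [Field K] [Ring E] [Algebra K E] (I : ℕ → Submodule K E) :
    Submodule K (agW I) where
  carrier := {v | ∀ j, (v : ℕ → E) j ∈ I (j + 1)}
  add_mem' := fun ha hb j => (I (j + 1)).add_mem (ha j) (hb j)
  zero_mem' := fun j => (I (j + 1)).zero_mem
  smul_mem' := fun c _ hv j => (I (j + 1)).smul_mem c (hv j)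

/-- left multiplication by an element of `I d` -/
def agOp {K E : Type} [Field K] [Ring E] [Algebra K E] (I : ℕ → Submodule K E)
    (hmul : ∀ i j a b, a ∈ I i → b ∈ I j → a * b ∈ I (i + j)) (d : ℕ) (a : E) (ha : a ∈ I d) :
    agW I →ₗ[K] agW I where
  toFun v := ⟨fun k => if d ≤ k then a * (v : ℕ → E) (k - d) else 0, by
    intro k
    by_cases h : d ≤ k
    · have h1 := hmul d (k - d) a ((v : ℕ → E) (k - d)) ha (v.2 (k - d))
      rw [Nat.add_sub_cancel' h] at h1
      simpa [h] using h1
    · simp [h]⟩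
  map_add' v w := by
    apply Subtype.ext
    funext k
    by_cases h : d ≤ k
    · simp [h, mul_add]
    · simp [h]
  map_smul' c v := by
    apply Subtype.ext
    funext k
    by_cases h : d ≤ k
    · simp [h]
    · simp [h]

theorem agOp_apply {K E : Type} [Field K] [Ring E] [Algebra K E] (I : ℕ → Submodule K E)
    (hmul : ∀ i j a b, a ∈ I i → b ∈ I j → a * b ∈ I (i + j)) (d : ℕ) (a : E) (ha : a ∈ I d)
    (v : agW I) (k : ℕ) :
    ((agOp I hmul d a ha v : agW I) : ℕ → E) k =
      if d ≤ k then a * (v : ℕ → E) (k - d) else 0 := rfl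

theorem agOp_le {K E : Type} [Field K] [Ring E] [Algebra K E] (I : ℕ → Submodule K E)
    (hmul : ∀ i j a b, a ∈ I i → b ∈ I j → a * b ∈ I (i + j)) (d : ℕ) (a : E) (ha : a ∈ I d) :
    agV I ≤ (agV I).comap (agOp I hmul d a ha) := by
  intro v hv
  rw [Submodule.mem_comap]
  intro k
  rw [agOp_apply]
  by_cases h : d ≤ k
  · have h1 := hmul d (k - d + 1) a ((v : ℕ → E) (k - d)) ha (hv (k - d))
    rw [← add_assoc, Nat.add_sub_cancel' h] at h1
    simpa [h] using h1
  · simp [h]

open Classical in
/-- the symbol map of the associated graded algebra -/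
noncomputable def agCl {K E : Type} [Field K] [Ring E] [Algebra K E] (I : ℕ → Submodule K E)
    (hmul : ∀ i j a b, a ∈ I i → b ∈ I j → a * b ∈ I (i + j)) (d : ℕ) (a : E) :
    Module.End K (agW I ⧸ agV I) :=
  if ha : a ∈ I d then Submodule.mapQ (agV I) (agV I) (agOp I hmul d a ha)
    (agOp_le I hmul d a ha) else 0

theorem agCl_mk {K E : Type} [Field K] [Ring E] [Algebra K E] (I : ℕ → Submodule K E)
    (hmul : ∀ i j a b, a ∈ I i → b ∈ I j → a * b ∈ I (i + j)) (d : ℕ) (a : E) (ha : a ∈ I d)
    (v : agW I) : agCl I hmul d a (Submodule.Quotient.mk v) =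
      Submodule.Quotient.mk (agOp I hmul d a ha v) := by
  unfold agCl
  rw [dif_pos ha]
  exact Submodule.mapQ_apply _ _ _ v

theorem assoc_graded {K E : Type} [Field K] [Ring E] [Algebra K E] (I : ℕ → Submodule K E)
    (h1 : (1 : E) ∈ I 0) (hmul : ∀ i j a b, a ∈ I i → b ∈ I j → a * b ∈ I (i + j))
    (hanti : Antitone I) :
    ∃ (A : Type) (_ : Ring A) (_ : Algebra K A) (cl : ℕ → E → A),
      (∀ d a b, a ∈ I d → b ∈ I d → cl d (a + b) = cl d a + cl d b) ∧
      (∀ d (c : K) a, a ∈ I d → cl d (c • a) = c • cl d a) ∧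
      (∀ i j a b, a ∈ I i → b ∈ I j → cl i a * cl j b = cl (i + j) (a * b)) ∧
      (∀ d a, a ∈ I d → (cl d a = 0 ↔ a ∈ I (d + 1))) ∧ cl 0 1 = 1 := by
  refine ⟨Module.End K (agW I ⧸ agV I), inferInstance, inferInstance, agCl I hmul,
    ?_, ?_, ?_, ?_, ?_⟩
  · intro d a b ha hb
    refine LinearMap.ext fun q => ?_
    obtain ⟨v, rfl⟩ := Submodule.Quotient.mk_surjective _ q
    rw [LinearMap.add_apply, agCl_mk I hmul d a ha, agCl_mk I hmul d b hb,
      agCl_mk I hmul d (a + b) ((I d).add_mem ha hb), ← Submodule.Quotient.mk_add]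
    congr 1
    apply Subtype.ext
    funext k
    change _ = ((agOp I hmul d a ha v : agW I) : ℕ → E) k + ((agOp I hmul d b hb v : agW I) : ℕ → E) k
    rw [agOp_apply, agOp_apply, agOp_apply]
    by_cases h : d ≤ k
    · simp [h, add_mul]
    · simp [h]
  · intro d c a ha
    refine LinearMap.ext fun q => ?_
    obtain ⟨v, rfl⟩ := Submodule.Quotient.mk_surjective _ q
    rw [LinearMap.smul_apply, agCl_mk I hmul d a ha,
      agCl_mk I hmul d (c • a) ((I d).smul_mem c ha), ← Submodule.Quotient.mk_smul]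
    congr 1
    apply Subtype.ext
    funext k
    change _ = c • ((agOp I hmul d a ha v : agW I) : ℕ → E) k
    rw [agOp_apply, agOp_apply]
    by_cases h : d ≤ k
    · simp [h]
    · simp [h]
  · intro i j a b ha hb
    refine LinearMap.ext fun q => ?_
    obtain ⟨v, rfl⟩ := Submodule.Quotient.mk_surjective _ q
    rw [Module.End.mul_apply, agCl_mk I hmul j b hb, agCl_mk I hmul i a ha,
      agCl_mk I hmul (i + j) (a * b) (hmul i j a b ha hb)]
    congr 1
    apply Subtype.ext
    funext k
    rw [agOp_apply, agOp_apply, agOp_apply]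
    by_cases h : i ≤ k
    · by_cases h2 : j ≤ k - i
      · have h3 : i + j ≤ k := by omega
        have h4 : k - i - j = k - (i + j) := by omega
        simp [h, h2, h3, h4, mul_assoc]
      · have h3 : ¬ i + j ≤ k := by omega
        simp [h, h2, h3]
    · have h3 : ¬ i + j ≤ k := by omega
      simp [h, h3]
  · intro d a ha
    constructor
    · intro h0
      let v : agW I := ⟨fun k => if k = 0 then 1 else 0, by
        intro k
        by_cases h : k = 0
        · subst h
          simpa using h1
        · simp [h]⟩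
      have h2 := agCl_mk I hmul d a ha v
      rw [h0, LinearMap.zero_apply] at h2
      have h3 := (Submodule.Quotient.mk_eq_zero (agV I)).mp h2.symm
      have h4 := h3 d
      rw [agOp_apply] at h4
      simpa [v] using h4
    · intro h
      refine LinearMap.ext fun q => ?_
      obtain ⟨v, rfl⟩ := Submodule.Quotient.mk_surjective _ q
      rw [agCl_mk I hmul d a ha, LinearMap.zero_apply, Submodule.Quotient.mk_eq_zero]
      intro k
      rw [agOp_apply]
      by_cases hk : d ≤ k
      · have h5 := hmul (d + 1) (k - d) a ((v : ℕ → E) (k - d)) h (v.2 (k - d))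
        have h6 : d + 1 + (k - d) = k + 1 := by omega
        rw [h6] at h5
        simpa [hk] using h5
      · simp [hk]
  · refine LinearMap.ext fun q => ?_
    obtain ⟨v, rfl⟩ := Submodule.Quotient.mk_surjective _ q
    rw [agCl_mk I hmul 0 1 h1, Module.End.one_apply]
    congr 1
    apply Subtype.ext
    funext k
    rw [agOp_apply]
    simp

theorem ev_span {K A : Type} [Field K] [Ring A] [Algebra K A] {n : ℕ}
    (f : Equiv.Perm (Fin n) → K) (S : Set A)
    (h : ∀ x : Fin n → A, (∀ i, x i ∈ S) → ev f x = 0) (x : Fin n → A)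
    (hx : ∀ i, x i ∈ Submodule.span K S) : ev f x = 0 := by
  classical
  let F : MultilinearMap K (fun _ : Fin n => A) A :=
    ∑ σ : Equiv.Perm (Fin n), f σ • (MultilinearMap.mkPiAlgebraFin K n A).domDomCongr σ
  have hF : ∀ y : Fin n → A, ev f y = F y := by
    intro y
    simp only [F, MultilinearMap.sum_apply, MultilinearMap.smul_apply,
      MultilinearMap.domDomCongr_apply, MultilinearMap.mkPiAlgebraFin_apply, ev]
  have key : ∀ s : Finset (Fin n), ∀ y : Fin n → A, (∀ i ∈ s, y i ∈ Submodule.span K S) →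
      (∀ i ∉ s, y i ∈ S) → F y = 0 := by
    intro s
    induction s using Finset.induction_on with
    | empty =>
      intro y _ hy
      rw [← hF]
      exact h y (fun i => hy i (by simp))
    | insert a s ha ih =>
      intro y hy1 hy2
      have h1 : ∀ z ∈ Submodule.span K S, F (Function.update y a z) = 0 := by
        intro z hz
        induction hz using Submodule.span_induction with
        | mem z hz =>
          apply ih
          · intro i hi
            have hne : i ≠ a := fun e => ha (e ▸ hi)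
            rw [Function.update_of_ne hne]
            exact hy1 i (Finset.mem_insert_of_mem hi)
          · intro i hi
            by_cases hia : i = a
            · subst hia; rw [Function.update_self]; exact hz
            · rw [Function.update_of_ne hia]
              exact hy2 i (by simp [hia, hi])
        | zero => exact F.map_update_zero y a
        | add u v _ _ hu hv => rw [F.map_update_add, hu, hv, add_zero]
        | smul c u _ hu => rw [F.map_update_smul, hu, smul_zero]
      have h2 := h1 (y a) (hy1 a (Finset.mem_insert_self a s))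
      rwa [Function.update_eq_self] at h2
  rw [hF]
  exact key Finset.univ x (fun i _ => hx i) (fun i hi => absurd (Finset.mem_univ i) hi)

theorem words_vanish_prod {K E A : Type} [Field K] [Ring E] [Algebra K E] [Ring A] [Algebra K A]
    (I : ℕ → Submodule K E) (h1 : (1 : E) ∈ I 0)
    (hmul : ∀ i j a b, a ∈ I i → b ∈ I j → a * b ∈ I (i + j)) (cl : ℕ → E → A)
    (cmul : ∀ i j a b, a ∈ I i → b ∈ I j → cl i a * cl j b = cl (i + j) (a * b))
    (cone : cl 0 1 = 1) : ∀ (n : ℕ) (a : Fin n → E) (d : Fin n → ℕ), (∀ i, a i ∈ I (d i)) →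
      (List.ofFn a).prod ∈ I (∑ i, d i) ∧
      (List.ofFn (fun i => cl (d i) (a i))).prod = cl (∑ i, d i) (List.ofFn a).prod := by
  intro n
  induction n with
  | zero =>
    intro a d _
    refine ⟨?_, ?_⟩
    · simpa using h1
    · simpa using cone.symm
  | succ n ih =>
    intro a d ha
    obtain ⟨i1, i2⟩ := ih (fun i => a i.succ) (fun i => d i.succ) (fun i => ha i.succ)
    rw [List.ofFn_succ, List.prod_cons, Fin.sum_univ_succ]
    refine ⟨hmul _ _ _ _ (ha 0) i1, ?_⟩
    rw [List.ofFn_succ, List.prod_cons]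
    rw [i2, cmul _ _ _ _ (ha 0) i1]

theorem words_vanish_ev {K E A : Type} [Field K] [Ring E] [Algebra K E] [Ring A] [Algebra K A]
    (I : ℕ → Submodule K E) (h1 : (1 : E) ∈ I 0)
    (hmul : ∀ i j a b, a ∈ I i → b ∈ I j → a * b ∈ I (i + j)) (cl : ℕ → E → A)
    (cadd : ∀ d a b, a ∈ I d → b ∈ I d → cl d (a + b) = cl d a + cl d b)
    (csmul : ∀ d (c : K) a, a ∈ I d → cl d (c • a) = c • cl d a)
    (cmul : ∀ i j a b, a ∈ I i → b ∈ I j → cl i a * cl j b = cl (i + j) (a * b))
    (cone : cl 0 1 = 1) (n : ℕ) (f : Equiv.Perm (Fin n) → K) (a : Fin n → E) (d : Fin n → ℕ)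
    (ha : ∀ i, a i ∈ I (d i)) :
    ev f (fun i => cl (d i) (a i)) = cl (∑ i, d i) (ev f a) := by
  have hz : ∀ d, cl d 0 = 0 := by
    intro d
    have := csmul d (0 : K) 0 (Submodule.zero_mem _)
    rwa [zero_smul, zero_smul] at this
  have hb : ∀ σ : Equiv.Perm (Fin n), (List.ofFn (fun i => a (σ i))).prod ∈ I (∑ i, d i) ∧
      (List.ofFn (fun i => cl (d (σ i)) (a (σ i)))).prod
        = cl (∑ i, d i) (List.ofFn (fun i => a (σ i))).prod := by
    intro σ
    have := words_vanish_prod I h1 hmul cl cmul cone n (fun i => a (σ i)) (fun i => d (σ i))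
      (fun i => ha (σ i))
    rw [Equiv.sum_comp σ d] at this
    exact this
  have hs : ∀ s : Finset (Equiv.Perm (Fin n)),
      cl (∑ i, d i) (∑ σ ∈ s, f σ • (List.ofFn (fun i => a (σ i))).prod)
        = ∑ σ ∈ s, f σ • cl (∑ i, d i) (List.ofFn (fun i => a (σ i))).prod := by
    intro s
    classical
    induction s using Finset.induction_on with
    | empty => simp [hz]
    | insert σ s hσ ih =>
      rw [Finset.sum_insert hσ, Finset.sum_insert hσ, cadd, csmul _ _ _ (hb σ).1, ih]
      · exact Submodule.smul_mem _ _ (hb σ).1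
      · exact Submodule.sum_mem _ (fun τ _ => Submodule.smul_mem _ _ (hb τ).1)
  unfold ev
  rw [hs]
  exact Finset.sum_congr rfl (fun σ _ => by rw [(hb σ).2])

theorem words_vanish {p : ℕ} [Fact p.Prime] (c : ℕ) (f1 : Equiv.Perm (Fin c) → ZMod p)
    (hf1 : ∑ σ, f1 σ = 1) (N : ℕ) (f2 : Equiv.Perm (Fin (N + 1)) → ZMod p)
    (hf2 : ∀ σ, σ (Fin.last N) = Fin.last N → f2 σ = if σ = 1 then 1 else 0) (q : ℕ) :
    ∃ D : ℕ, ∀ (E : Type) [Ring E] [Algebra (ZMod p) E] (H : Subgroup Eˣ),
      (∀ (g : Fin c → Eˣ) (d : Fin c → ℕ), (∀ i, g i ∈ H) → (∀ i, 1 ≤ d i) →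
        (∀ i, (g i : E) - 1 ∈ II p H (d i)) →
        ev f1 (fun i => (g i : E) - 1) ∈ II p H (∑ i, d i + 1)) →
      (∀ (g : Fin (N + 1) → Eˣ) (d : Fin (N + 1) → ℕ), (∀ i, g i ∈ H) → (∀ i, 1 ≤ d i) →
        (∀ i, (g i : E) - 1 ∈ II p H (d i)) →
        ev f2 (fun i => (g i : E) - 1) ∈ II p H (∑ i, d i + 1)) →
      ∀ g : Fin q → Eˣ, (∀ i, g i ∈ H) → ∀ w : Fin D → Fin q,
        (List.ofFn (fun i => (g (w i) : E) - 1)).prod ∈ II p H (D + 1) := by
  obtain ⟨D, hD⟩ := thmL (K := ZMod p) c f1 hf1 N f2 hf2 q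
  refine ⟨D, ?_⟩
  intro E _ _ H hA hB g hg w
  obtain ⟨F1, F2, F3, F4, F5⟩ := II_facts p H
  obtain ⟨A, iR, iA, cl, cadd, csmul, cmul, ciff, cone⟩ :=
    assoc_graded (K := ZMod p) (II p H) F1 F2 F3
  have hz : ∀ d, cl d 0 = 0 := by
    intro d
    have := csmul d (0 : ZMod p) 0 (Submodule.zero_mem _)
    rwa [zero_smul, zero_smul] at this
  have hneg : ∀ d a, a ∈ II p H d → cl d (-a) = - cl d a := by
    intro d a ha
    have := cadd d a (-a) ha (Submodule.neg_mem _ ha)
    rw [add_neg_cancel, hz] at this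
    exact (neg_eq_of_add_eq_zero_right this.symm).symm
  have hsub : ∀ d a b, a ∈ II p H d → b ∈ II p H d → cl d (a - b) = cl d a - cl d b := by
    intro d a b ha hb
    rw [sub_eq_add_neg, cadd d a (-b) ha (Submodule.neg_mem _ hb), hneg d b hb, sub_eq_add_neg]
  let S : Set A := {x | ∃ (h : Eˣ) (d : ℕ), h ∈ H ∧ 1 ≤ d ∧ (h : E) - 1 ∈ II p H d ∧
    x = cl d ((h : E) - 1)}
  -- the identities
  have hid : ∀ (n : ℕ) (f : Equiv.Perm (Fin n) → ZMod p),
      (∀ (g : Fin n → Eˣ) (d : Fin n → ℕ), (∀ i, g i ∈ H) → (∀ i, 1 ≤ d i) →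
        (∀ i, (g i : E) - 1 ∈ II p H (d i)) →
        ev f (fun i => (g i : E) - 1) ∈ II p H (∑ i, d i + 1)) →
      ∀ x : Fin n → A, (∀ i, x i ∈ Submodule.span (ZMod p) S) → ev f x = 0 := by
    intro n f hf x hx
    apply ev_span f S _ x hx
    intro y hy
    choose h d h1 h2 h3 h4 using hy
    have e : y = fun i => cl (d i) ((h i : E) - 1) := funext h4
    rw [e, words_vanish_ev (II p H) F1 F2 cl cadd csmul cmul cone n f
      (fun i => (h i : E) - 1) d h3]
    rw [ciff]
    · exact hf h d h1 h2 h3
    · exact F3 (Nat.le_succ _) (hf h d h1 h2 h3)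
  -- brackets of generators
  have hbr : ∀ x ∈ S, ∀ y ∈ S, x * y - y * x ∈ S := by
    rintro x ⟨a, d, ha, hd, had, rfl⟩ y ⟨b, e, hb, he, hbe, rfl⟩
    have hab := F2 d e _ _ had hbe
    have hba := F2 e d _ _ hbe had
    rw [cmul _ _ _ _ had hbe, cmul _ _ _ _ hbe had, add_comm e d]
    rw [add_comm e d] at hba
    rw [← hsub _ _ _ hab hba]
    have hk : ⁅a, b⁆ ∈ H := by
      rw [commutatorElement_def]
      exact H.mul_mem (H.mul_mem (H.mul_mem ha hb) (H.inv_mem ha)) (H.inv_mem hb)
    have hdiff : ((a : E) - 1) * ((b : E) - 1) - ((b : E) - 1) * ((a : E) - 1) ∈ II p H (d + e) :=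
      Submodule.sub_mem _ hab hba
    have e1 : ((⁅a, b⁆ : Eˣ) : E) - 1
        = (((a : E) - 1) * ((b : E) - 1) - ((b : E) - 1) * ((a : E) - 1))
          * ((a⁻¹ * b⁻¹ : Eˣ) : E) := by
      have e2 : ((a : E) - 1) * ((b : E) - 1) - ((b : E) - 1) * ((a : E) - 1)
          = ((a * b : Eˣ) : E) - ((b * a : Eˣ) : E) := by
        push_cast; noncomm_ring
      rw [e2, sub_mul, ← Units.val_mul, ← Units.val_mul]
      congr 2
      · rw [commutatorElement_def]; group
      · symm
        have : b * a * (a⁻¹ * b⁻¹) = 1 := by group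
        rw [this, Units.val_one]
    have hk2 : ((⁅a, b⁆ : Eˣ) : E) - 1 ∈ II p H (d + e) := by
      rw [e1]
      have := F2 (d + e) 0 _ _ hdiff (F4 (a⁻¹ * b⁻¹) (H.mul_mem (H.inv_mem ha) (H.inv_mem hb)))
      rwa [add_zero] at this
    have e3 : ((a : E) - 1) * ((b : E) - 1) - ((b : E) - 1) * ((a : E) - 1)
        = (((⁅a, b⁆ : Eˣ) : E) - 1) + (((⁅a, b⁆ : Eˣ) : E) - 1) * (((b * a : Eˣ) : E) - 1) := by
      have e4 : (((⁅a, b⁆ : Eˣ) : E) - 1) + (((⁅a, b⁆ : Eˣ) : E) - 1) * (((b * a : Eˣ) : E) - 1)
          = (((⁅a, b⁆ : Eˣ) : E) - 1) * ((b * a : Eˣ) : E) := by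
        noncomm_ring
      rw [e4, e1, mul_assoc, ← Units.val_mul]
      have : a⁻¹ * b⁻¹ * (b * a) = 1 := by group
      rw [this, Units.val_one, mul_one]
    have hk3 : (((⁅a, b⁆ : Eˣ) : E) - 1) * (((b * a : Eˣ) : E) - 1) ∈ II p H (d + e + 1) :=
      F2 (d + e) 1 _ _ hk2 (F5 (b * a) (H.mul_mem hb ha))
    have hk4 := F3 (Nat.le_succ (d + e)) hk3
    refine ⟨⁅a, b⁆, d + e, hk, by omega, hk2, ?_⟩
    rw [e3, cadd _ _ _ hk2 hk4, (ciff _ _ hk4).2 hk3, add_zero]
  -- brackets on the span
  have hbr2 : ∀ x ∈ Submodule.span (ZMod p) S, ∀ y ∈ Submodule.span (ZMod p) S,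
      x * y - y * x ∈ Submodule.span (ZMod p) S := by
    intro x hx y hy
    induction hx using Submodule.span_induction with
    | mem x hx =>
      induction hy using Submodule.span_induction with
      | mem y hy => exact Submodule.subset_span (hbr x hx y hy)
      | zero => simp
      | add y z _ _ h1 h2 =>
        have : x * (y + z) - (y + z) * x = (x * y - y * x) + (x * z - z * x) := by noncomm_ring
        rw [this]; exact Submodule.add_mem _ h1 h2
      | smul r y _ h1 =>
        have : x * (r • y) - (r • y) * x = r • (x * y - y * x) := by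
          rw [mul_smul_comm, smul_mul_assoc, smul_sub]
        rw [this]; exact Submodule.smul_mem _ _ h1
    | zero => simp
    | add x z _ _ h1 h2 =>
      have : (x + z) * y - y * (x + z) = (x * y - y * x) + (z * y - y * z) := by noncomm_ring
      rw [this]; exact Submodule.add_mem _ h1 h2
    | smul r x _ h1 =>
      have : (r • x) * y - y * (r • x) = r • (x * y - y * x) := by
        rw [mul_smul_comm, smul_mul_assoc, smul_sub]
      rw [this]; exact Submodule.smul_mem _ _ h1
  have hfin := hD A (Submodule.span (ZMod p) S) hbr2 (hid c f1 hA) (hid (N + 1) f2 hB)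
    (fun i => cl 1 ((g i : E) - 1))
    (fun i => Submodule.subset_span ⟨g i, 1, hg i, le_refl 1, F5 (g i) (hg i), rfl⟩) w
  obtain ⟨m1, m2⟩ := words_vanish_prod (II p H) F1 F2 cl cmul cone D
    (fun i => (g (w i) : E) - 1) (fun _ => 1) (fun i => F5 (g (w i)) (hg (w i)))
  have hDs : ∑ _i : Fin D, 1 = D := by simp
  rw [hDs] at m1 m2
  rw [m2] at hfin
  exact (ciff D _ m1).1 hfin

/-- product of the `h - 1` -/
def pr1 {E : Type} [Ring E] (l : List Eˣ) : E := (l.map (fun h : Eˣ => (h : E) - 1)).prod

theorem pr1_aux {E : Type} [Ring E] (l : List Eˣ) :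
    List.map (fun h : E => h - 1) (List.flatMap (fun a : Eˣ => [(a : E)]) l) =
      l.map (fun h : Eˣ => (h : E) - 1) := by
  induction l with
  | nil => rfl
  | cons a t ih =>
    rw [List.flatMap_cons, List.map_append, ih]
    rfl

theorem II_eq (p : ℕ) {E : Type} [Ring E] [Algebra (ZMod p) E] (H : Subgroup Eˣ) (j : ℕ) :
    II p H j = Submodule.span (ZMod p) {b : E | ∃ l : List Eˣ, (∀ h ∈ l, h ∈ H) ∧ j ≤ l.length ∧
    b = pr1 l} := by
  unfold II pr1
  congr 1
  ext b
  constructor
  · rintro ⟨l, h1, h2, h3⟩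
    refine ⟨l, h1, h2, ?_⟩
    rw [h3]
    first
    | exact congrArg List.prod (pr1_aux l)
    | exact (congrArg List.prod (pr1_aux l)).symm
  · rintro ⟨l, h1, h2, h3⟩
    refine ⟨l, h1, h2, ?_⟩
    rw [h3]
    first
    | exact congrArg List.prod (pr1_aux l)
    | exact (congrArg List.prod (pr1_aux l)).symm

theorem II_stab (p : ℕ) {E : Type} [Ring E] [Algebra (ZMod p) E] {q : ℕ} (g : Fin q → Eˣ)
    (D : ℕ)
    (hD : ∀ w : Fin D → Fin q, (List.ofFn (fun i => (g (w i) : E) - 1)).prod ∈
      II p (Subgroup.closure (Set.range g)) (D + 1)) (m : ℕ)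
    (hm : II p (Subgroup.closure (Set.range g)) m = ⊥) :
    II p (Subgroup.closure (Set.range g)) D = ⊥ := by
  obtain ⟨h1, hmul, hanti, hmem0, hmem1⟩ := II_facts p (Subgroup.closure (Set.range g))
  set H : Subgroup Eˣ := Subgroup.closure (Set.range g) with hH
  -- words of length `n`
  let Wd : ℕ → Submodule (ZMod p) E := fun n => Submodule.span (ZMod p)
    {b : E | ∃ w : List (Fin q), w.length = n ∧ b = (w.map (fun i => (g i : E) - 1)).prod}
  have hgH : ∀ i, g i ∈ H := fun i => Subgroup.subset_closure ⟨i, rfl⟩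
  have hWI : ∀ n, Wd n ≤ II p H n := by
    intro n
    apply Submodule.span_le.2
    rintro b ⟨w, hw, rfl⟩
    rw [II_eq]
    apply Submodule.subset_span
    refine ⟨w.map g, ?_, ?_, ?_⟩
    · intro h hh
      obtain ⟨i, _, rfl⟩ := List.mem_map.1 hh
      exact hgH i
    · rw [List.length_map, hw]
    · unfold pr1
      rw [List.map_map]
      rfl
  have hW1 : ∀ n, ∀ a ∈ Wd 1, ∀ b ∈ Wd n, a * b ∈ Wd (n + 1) := by
    intro n a ha b hb
    induction ha using Submodule.span_induction with
    | mem x hx =>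
      obtain ⟨w, hw, rfl⟩ := hx
      induction hb using Submodule.span_induction with
      | mem y hy =>
        obtain ⟨v, hv, rfl⟩ := hy
        apply Submodule.subset_span
        refine ⟨w ++ v, ?_, ?_⟩
        · rw [List.length_append, hw, hv, add_comm]
        · rw [List.map_append, List.prod_append]
      | zero => rw [mul_zero]; exact Submodule.zero_mem _
      | add y z _ _ hy hz => rw [mul_add]; exact Submodule.add_mem _ hy hz
      | smul c y _ hy => rw [mul_smul_comm]; exact Submodule.smul_mem _ _ hy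
    | zero => rw [zero_mul]; exact Submodule.zero_mem _
    | add y z _ _ hy hz => rw [add_mul]; exact Submodule.add_mem _ hy hz
    | smul c y _ hy => rw [smul_mul_assoc]; exact Submodule.smul_mem _ _ hy
  have step1 : ∀ h ∈ H, (h : E) - 1 ∈ Wd 1 ⊔ II p H 2 := by
    intro h hh
    rw [hH] at hh
    induction hh using Subgroup.closure_induction with
    | mem x hx =>
      obtain ⟨i, rfl⟩ := hx
      apply Submodule.mem_sup_left
      apply Submodule.subset_span
      exact ⟨[i], rfl, by simp⟩
    | one => simp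
    | mul a b ha hb iha ihb =>
      have e : ((a * b : Eˣ) : E) - 1 = ((a : E) - 1) + ((b : E) - 1) + ((a : E) - 1) * ((b : E) - 1) := by
        push_cast
        noncomm_ring
      rw [e]
      refine Submodule.add_mem _ (Submodule.add_mem _ iha ihb) (Submodule.mem_sup_right ?_)
      exact hmul 1 1 _ _ (hmem1 a ha) (hmem1 b hb)
    | inv a ha iha =>
      have e : ((a⁻¹ : Eˣ) : E) - 1 = -((a : E) - 1) +
          ((a⁻¹ : Eˣ) : E) * (((a : E) - 1) * ((a : E) - 1)) := by
        have e1 : ((a⁻¹ : Eˣ) : E) * (a : E) = 1 := Units.inv_mul a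
        have e2 : ((a⁻¹ : Eˣ) : E) * (((a : E) - 1) * ((a : E) - 1)) =
            (((a⁻¹ : Eˣ) : E) * (a : E)) * (a : E) - (((a⁻¹ : Eˣ) : E) * (a : E)) -
              (((a⁻¹ : Eˣ) : E) * (a : E)) + ((a⁻¹ : Eˣ) : E) := by
          noncomm_ring
        rw [e2, e1]
        noncomm_ring
      rw [e]
      refine Submodule.add_mem _ (Submodule.neg_mem _ iha) (Submodule.mem_sup_right ?_)
      exact hmul 0 2 _ _ (hmem0 _ (H.inv_mem ha)) (hmul 1 1 _ _ (hmem1 a ha) (hmem1 a ha))
  have step2 : ∀ l : List Eˣ, (∀ h ∈ l, h ∈ H) →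
      pr1 l ∈ Wd l.length ⊔ II p H (l.length + 1) := by
    intro l
    induction l with
    | nil =>
      intro _
      apply Submodule.mem_sup_left
      apply Submodule.subset_span
      exact ⟨[], rfl, rfl⟩
    | cons h t ih =>
      intro hl
      have iht := ih (fun x hx => hl x (List.mem_cons_of_mem _ hx))
      have ihh := step1 h (hl h List.mem_cons_self)
      have ec : pr1 (h :: t) = ((h : E) - 1) * pr1 t := by
        unfold pr1
        rw [List.map_cons, List.prod_cons]
      rw [ec, List.length_cons]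
      obtain ⟨a, ha, a', ha', e1⟩ := Submodule.mem_sup.1 ihh
      obtain ⟨b, hb, b', hb', e2⟩ := Submodule.mem_sup.1 iht
      rw [← e1, ← e2]
      have e3 : (a + a') * (b + b') = a * b + (a * b' + a' * b + a' * b') := by noncomm_ring
      rw [e3]
      refine Submodule.add_mem _ (Submodule.mem_sup_left (hW1 _ a ha b hb))
        (Submodule.mem_sup_right (Submodule.add_mem _ (Submodule.add_mem _ ?_ ?_) ?_))
      · exact hanti (by omega) (hmul 1 (t.length + 1) _ _ (hWI 1 ha) hb')
      · exact hanti (by omega) (hmul 2 t.length _ _ ha' (hWI _ hb))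
      · exact hanti (by omega) (hmul 2 (t.length + 1) _ _ ha' hb')
  have step3 : II p H D ≤ II p H (D + 1) := by
    rw [II_eq p H D]
    apply Submodule.span_le.2
    rintro b ⟨l, hl, hlen, rfl⟩
    rcases Nat.lt_or_ge D l.length with hlt | hge
    · rw [II_eq]
      exact Submodule.subset_span ⟨l, hl, hlt, rfl⟩
    · have hDl : l.length = D := le_antisymm hge hlen
      have h2 := step2 l hl
      rw [hDl] at h2
      have hWD : Wd D ≤ II p H (D + 1) := by
        apply Submodule.span_le.2
        rintro b ⟨w, hw, rfl⟩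
        subst hw
        have h3 := hD (fun i => w.get i)
        have h4 : List.ofFn (fun i => (g (w.get i) : E) - 1) = w.map (fun i => (g i : E) - 1) := by
          rw [← List.ofFn_get (w.map (fun i => (g i : E) - 1))]
          apply List.ext_getElem
          · simp
          · intro n h1 h2
            simp
        rw [h4] at h3
        exact h3
      exact (sup_le hWD le_rfl) h2
  have step4 : ∀ j, II p H (D + j) ≤ II p H (D + j + 1) := by
    intro j
    induction j with
    | zero => exact step3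
    | succ j ih =>
      rw [II_eq p H (D + (j + 1))]
      apply Submodule.span_le.2
      rintro b ⟨l, hl, hlen, rfl⟩
      cases l with
      | nil => simp at hlen
      | cons h t =>
        have ec : pr1 (h :: t) = ((h : E) - 1) * pr1 t := by
          unfold pr1
          rw [List.map_cons, List.prod_cons]
        rw [ec]
        have ht : pr1 t ∈ II p H (D + j) := by
          rw [II_eq]
          apply Submodule.subset_span
          refine ⟨t, fun x hx => hl x (List.mem_cons_of_mem _ hx), ?_, rfl⟩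
          rw [List.length_cons] at hlen
          omega
        exact hanti (by omega) (hmul 1 (D + j + 1) _ _ (hmem1 h (hl h List.mem_cons_self)) (ih ht))
  have step5 : ∀ j, II p H D ≤ II p H (D + j) := by
    intro j
    induction j with
    | zero => exact le_rfl
    | succ j ih => exact ih.trans (step4 j)
  rw [eq_bot_iff, ← hm]
  exact (step5 m).trans (hanti (by omega))

end Pool.Agent.Helper730.LN6
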