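import Pool.Agent.Helper730.LN6C

set_option autoImplicit false

open scoped commutatorElement

namespace Pool.Agent.Helper730.LN6

theorem ucs_pair_comm (p : ℕ) (M : Type) [AddCommGroup M] [Module (ZMod p) M]
    (H : Subgroup (Module.End (ZMod p) M)ˣ) (h : H) (v : M) :
    (SemidirectProduct.inl (Multiplicative.ofAdd v) : PG p M H) * SemidirectProduct.inr h *
      (SemidirectProduct.inl (Multiplicative.ofAdd v) : PG p M H)⁻¹ *
      (SemidirectProduct.inr h : PG p M H)⁻¹ =
    SemidirectProduct.inl (Multiplicative.ofAdd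
      (v - ((h : (Module.End (ZMod p) M)ˣ) : Module.End (ZMod p) M) v)) := by
  have e1 : (SemidirectProduct.inr h : PG p M H) *
      (SemidirectProduct.inl (Multiplicative.ofAdd v) : PG p M H)⁻¹ *
      (SemidirectProduct.inr h : PG p M H)⁻¹ =
      SemidirectProduct.inl (((actU p M).comp H.subtype) h (Multiplicative.ofAdd v)⁻¹) := by
    rw [SemidirectProduct.inl_aut, map_inv, map_inv]
  rw [mul_assoc, mul_assoc, ← mul_assoc (SemidirectProduct.inr h : PG p M H), e1, ← map_mul]
  congr 1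
  have e2 : ((actU p M).comp H.subtype) h (Multiplicative.ofAdd v)⁻¹ =
      Multiplicative.ofAdd (((h : (Module.End (ZMod p) M)ˣ) : Module.End (ZMod p) M) (-v)) := rfl
  rw [e2, map_neg, ← ofAdd_add, sub_eq_add_neg]

theorem ucs_pair_aux (p : ℕ) (M : Type) [AddCommGroup M] [Module (ZMod p) M]
    (H : Subgroup (Module.End (ZMod p) M)ˣ) (l : List (Module.End (ZMod p) M)ˣ) :
    (∀ h ∈ l, h ∈ H) → ∀ v : M,
      (SemidirectProduct.inl (Multiplicative.ofAdd v) : PG p M H) ∈
        Subgroup.upperCentralSeries (PG p M H) l.length →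
      (l.map (fun h : (Module.End (ZMod p) M)ˣ => (h : Module.End (ZMod p) M) - 1)).prod v = 0 := by
  induction l using List.reverseRecOn with
  | nil =>
    intro _ v hv
    rw [List.length_nil, Subgroup.upperCentralSeries_zero, Subgroup.mem_bot] at hv
    have h1 : (Multiplicative.ofAdd v) = 1 := by
      have := congrArg SemidirectProduct.left hv
      simpa using this
    have h2 : v = 0 := by
      have := congrArg Multiplicative.toAdd h1
      simpa using this
    rw [h2, map_zero]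
  | append_singleton l h ih =>
    intro hl v hv
    have hh : h ∈ H := hl h (by simp)
    rw [List.length_append, List.length_singleton,
      Subgroup.mem_upperCentralSeries_succ_iff] at hv
    have h1 := hv (SemidirectProduct.inr (⟨h, hh⟩ : H))
    have h2 := ucs_pair_comm p M H ⟨h, hh⟩ v
    simp only [commutatorElement_def] at h1
    rw [h2] at h1
    have h3 := ih (fun x hx => hl x (by simp [hx])) _ h1
    rw [List.map_append, List.prod_append, List.map_singleton, List.prod_singleton,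
      Module.End.mul_apply]
    have h4 : ((h : Module.End (ZMod p) M) - 1) v = -(v - (h : Module.End (ZMod p) M) v) := by
      rw [LinearMap.sub_apply, Module.End.one_apply]; abel
    rw [h4, map_neg, h3, neg_zero]

theorem ucs_pair (p : ℕ) (M : Type) [AddCommGroup M] [Module (ZMod p) M]
    (H : Subgroup (Module.End (ZMod p) M)ˣ) (m : ℕ)
    (h : Subgroup.upperCentralSeries (PG p M H) m = ⊤) (l : List (Module.End (ZMod p) M)ˣ)
    (hlH : ∀ h ∈ l, h ∈ H) (hl : l.length = m) :
    (l.map (fun h => (h : Module.End (ZMod p) M) - 1)).prod = 0 := by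
  refine LinearMap.ext fun v => ?_
  rw [LinearMap.zero_apply, bind_pure_comp, List.map_eq_map, List.map_map]
  refine ucs_pair_aux p M H l hlH v ?_
  rw [hl, h]
  trivial

theorem pair_nil (p : ℕ) [Fact p.Prime] (M : Type) [AddCommGroup M] [Module (ZMod p) M]
    (H : Subgroup (Module.End (ZMod p) M)ˣ) [Finite (PG p M H)] (h : IsPGroup p (PG p M H)) :
    ∃ m : ℕ, II p H m = ⊥ := by
  have hnil : Group.IsNilpotent (PG p M H) := h.isNilpotent
  obtain ⟨m, hm⟩ := hnil.nilpotent'
  refine ⟨m, ?_⟩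
  rw [II, Submodule.span_eq_bot]
  rintro b ⟨l, hl, hml, rfl⟩
  have h1 : l = l.take m ++ l.drop m := (List.take_append_drop m l).symm
  have h2 := ucs_pair p M H m hm (l.take m) (fun x hx => hl x (List.mem_of_mem_take hx))
    (by rw [List.length_take]; omega)
  rw [h1]
  simp only [List.bind_eq_flatMap, List.pure_def, List.flatMap_append, List.map_append,
    List.prod_append] at h2 ⊢
  rw [h2, zero_mul]

theorem pair_metab (p : ℕ) (M : Type) [AddCommGroup M] [Module (ZMod p) M]
    (H : Subgroup (Module.End (ZMod p) M)ˣ) (h : ∀ a ∈ H, ∀ b ∈ H, a * b = b * a) :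
    derivedSeries (PG p M H) 2 = ⊥ := by
  have h1 : derivedSeries (PG p M H) 1 ≤
      (SemidirectProduct.rightHom : PG p M H →* H).ker := by
    rw [derivedSeries_one, commutator_def, Subgroup.commutator_le]
    intro g₁ _ g₂ _
    rw [MonoidHom.mem_ker, map_commutatorElement, commutatorElement_eq_one_iff_mul_comm]
    exact Subtype.ext (h _ (SemidirectProduct.rightHom g₁ : H).2 _
      (SemidirectProduct.rightHom g₂ : H).2)
  have h2 : ∀ a ∈ (SemidirectProduct.rightHom : PG p M H →* H).ker,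
      ∀ b ∈ (SemidirectProduct.rightHom : PG p M H →* H).ker, a * b = b * a := by
    intro a ha b hb
    rw [MonoidHom.mem_ker, SemidirectProduct.rightHom_eq_right] at ha hb
    have ha' : a.right = 1 := ha
    have hb' : b.right = 1 := hb
    refine SemidirectProduct.ext ?_ ?_
    · rw [SemidirectProduct.mul_left, SemidirectProduct.mul_left, ha', hb', map_one]
      exact mul_comm _ _
    · rw [SemidirectProduct.mul_right, SemidirectProduct.mul_right, ha', hb']
  rw [derivedSeries_succ, eq_bot_iff, Subgroup.commutator_le]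
  intro a ha b hb
  rw [Subgroup.mem_bot, commutatorElement_eq_one_iff_mul_comm]
  exact h2 a (h1 ha) b (h1 hb)

theorem pair_sub {C : (Γ : Type) → [Group Γ] → Prop} (hC : SecC C) (p : ℕ) (M : Type)
    [AddCommGroup M] [Module (ZMod p) M] (H H' : Subgroup (Module.End (ZMod p) M)ˣ)
    (hH : H' ≤ H) (hM : C (PG p M H)) : C (PG p M H') := by
  let Θ : PG p M H' →* (Unit → PG p M H) :=
    { toFun := fun x _ => ⟨x.left, ⟨x.right.1, hH x.right.2⟩⟩
      map_one' := by
        funext _
        rfl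
      map_mul' := by
        intro a b
        funext _
        rfl }
  refine hC Unit (fun _ => PG p M H) (PG p M H') (PG p M H') Θ (MonoidHom.id _) (fun _ => hM)
    (fun x => ⟨x, rfl⟩) ?_
  intro x hx
  rw [MonoidHom.mem_ker] at hx ⊢
  have h1 : (Θ x) () = 1 := by rw [hx]; rfl
  have h2 : x.left = 1 := congrArg SemidirectProduct.left h1
  have h3 : (⟨x.right.1, hH x.right.2⟩ : H) = 1 := congrArg SemidirectProduct.right h1
  have h4 : x.right = 1 := by
    apply Subtype.ext
    have := congrArg Subtype.val h3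
    exact this
  show x = 1
  exact SemidirectProduct.ext h2 h4 -- PROVE THIS

theorem comm_le_of_rot {G : Type} [Group G] (N H₁ H₂ H₃ : Subgroup G) [N.Normal]
    (h1 : ⁅⁅H₂, H₃⁆, H₁⁆ ≤ N) (h2 : ⁅⁅H₃, H₁⁆, H₂⁆ ≤ N) : ⁅⁅H₁, H₂⁆, H₃⁆ ≤ N := by
  have key : ∀ A B C : Subgroup G, ⁅⁅A, B⁆, C⁆ ≤ N ↔ ⁅⁅A.map (QuotientGroup.mk' N),
      B.map (QuotientGroup.mk' N)⁆, C.map (QuotientGroup.mk' N)⁆ = ⊥ := by
    intro A B C
    rw [← Subgroup.map_commutator, ← Subgroup.map_commutator, Subgroup.map_eq_bot_iff,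
      QuotientGroup.ker_mk']
  rw [key] at h1 h2 ⊢
  exact Subgroup.commutator_commutator_eq_bot_of_rotate h1 h2

theorem lcs_comm_le {Γ : Type} [Group Γ] : ∀ j i : ℕ,
    ⁅(⊤ : Subgroup Γ).lowerCentralSeries i, (⊤ : Subgroup Γ).lowerCentralSeries j⁆ ≤
      (⊤ : Subgroup Γ).lowerCentralSeries (i + j + 1) := by
  intro j
  induction j with
  | zero => intro i; exact le_refl _
  | succ j ih =>
    intro i
    rw [Subgroup.commutator_comm]
    change ⁅⁅(⊤ : Subgroup Γ).lowerCentralSeries j, (⊤ : Subgroup Γ)⁆,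
      (⊤ : Subgroup Γ).lowerCentralSeries i⁆ ≤ _
    apply comm_le_of_rot
    · rw [Subgroup.commutator_comm (⊤ : Subgroup Γ)]
      have := ih (i + 1)
      have e : i + 1 + j + 1 = i + (j + 1) + 1 := by omega
      rw [e] at this
      exact this
    · have h1 := Subgroup.commutator_mono (ih i) (le_refl (⊤ : Subgroup Γ))
      exact h1

/-- filtrations -/
structure Filt {G : Type} [Group G] (Q : ℕ → Subgroup G) : Prop where
  anti : ∀ i j, i ≤ j → Q j ≤ Q i
  comm : ∀ i j, ∀ a ∈ Q i, ∀ b ∈ Q j, ⁅a, b⁆ ∈ Q (i + j)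

theorem Filt.conj {G : Type} [Group G] {Q : ℕ → Subgroup G} (h : Filt Q) {k : ℕ} {a x : G}
    (ha : a ∈ Q 0) (hx : x ∈ Q k) : a * x * a⁻¹ ∈ Q k := by
  have h1 := h.comm 0 k a ha x hx
  rw [Nat.zero_add] at h1
  have h2 := (Q k).mul_mem h1 hx
  rw [commutatorElement_def] at h2
  simpa [mul_assoc] using h2

theorem Filt.conj' {G : Type} [Group G] {Q : ℕ → Subgroup G} (h : Filt Q) {k : ℕ} {a x : G}
    (ha : a ∈ Q 0) (hx : x ∈ Q k) : a⁻¹ * x * a ∈ Q k := by
  have := h.conj ((Q 0).inv_mem ha) hx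
  simpa using this

/-- the cube step -/
def stepQ {G G' : Type} [Group G] [Group G'] (A B : G' →* G) (Q : ℕ → Subgroup G) (h : Filt Q)
    (j : ℕ) : Subgroup G' where
  carrier := {y | A y ∈ Q j ∧ (A y)⁻¹ * B y ∈ Q (j + 1)}
  one_mem' := by
    constructor
    · rw [map_one]; exact (Q j).one_mem
    · rw [map_one, map_one, inv_one, one_mul]; exact (Q (j + 1)).one_mem
  mul_mem' := by
    rintro y y' ⟨h1, h2⟩ ⟨h3, h4⟩
    constructor
    · rw [map_mul]; exact (Q j).mul_mem h1 h3
    · have h5 := h.conj' (h.anti 0 j (Nat.zero_le _) h3) h2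
      have h6 := (Q (j + 1)).mul_mem h5 h4
      rw [map_mul, map_mul]
      have e : (A y * A y')⁻¹ * (B y * B y') =
          (A y')⁻¹ * ((A y)⁻¹ * B y) * A y' * ((A y')⁻¹ * B y') := by group
      rw [e]
      exact h6
  inv_mem' := by
    rintro y ⟨h1, h2⟩
    constructor
    · rw [map_inv]; exact (Q j).inv_mem h1
    · have h5 := h.conj (h.anti 0 j (Nat.zero_le _) h1) ((Q (j + 1)).inv_mem h2)
      rw [map_inv, map_inv]
      have e : (A y)⁻¹⁻¹ * (B y)⁻¹ = A y * ((A y)⁻¹ * B y)⁻¹ * (A y)⁻¹ := by group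
      rw [e]
      exact h5

theorem mem_stepQ {G G' : Type} [Group G] [Group G'] (A B : G' →* G) (Q : ℕ → Subgroup G)
    (h : Filt Q) (j : ℕ) (y : G') :
    y ∈ stepQ A B Q h j ↔ A y ∈ Q j ∧ (A y)⁻¹ * B y ∈ Q (j + 1) := Iff.rfl

theorem stepQ_filt {G G' : Type} [Group G] [Group G'] (A B : G' →* G) (Q : ℕ → Subgroup G)
    (h : Filt Q) : Filt (stepQ A B Q h) := by
  constructor
  · intro i j hij y hy
    exact ⟨h.anti i j hij hy.1, h.anti (i + 1) (j + 1) (by omega) hy.2⟩
  · intro i j y hy y' hy'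
    rw [mem_stepQ] at hy hy' ⊢
    obtain ⟨h1, h2⟩ := hy
    obtain ⟨h3, h4⟩ := hy'
    rw [map_commutatorElement, map_commutatorElement]
    refine ⟨h.comm i j _ h1 _ h3, ?_⟩
    set a := A y
    set b := B y
    set a' := A y'
    set b' := B y'
    set x := a⁻¹ * b with hx
    set x' := a'⁻¹ * b' with hx'
    have hb : b = a * x := by rw [hx]; group
    have hb' : b' = a' * x' := by rw [hx']; group
    have hbi : b ∈ Q i := by
      rw [hb]
      exact (Q i).mul_mem h1 (h.anti i (i + 1) (by omega) h2)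
    have a0 : a ∈ Q 0 := h.anti 0 i (Nat.zero_le _) h1
    have a0' : a' ∈ Q 0 := h.anti 0 j (Nat.zero_le _) h3
    have c1 : ⁅x, a'⁆ ∈ Q (i + j + 1) := by
      have := h.comm (i + 1) j x h2 a' h3
      have e : i + 1 + j = i + j + 1 := by omega
      rwa [e] at this
    have c2 : ⁅b, x'⁆ ∈ Q (i + j + 1) := h.comm i (j + 1) b hbi x' h4
    have c3 : ⁅a, a'⁆ ∈ Q 0 := h.comm 0 0 a a0 a' a0'
    have e : ⁅a, a'⁆⁻¹ * ⁅b, b'⁆ =
        (⁅a, a'⁆⁻¹ * (a * ⁅x, a'⁆ * a⁻¹) * ⁅a, a'⁆) * (a' * ⁅b, x'⁆ * a'⁻¹) := by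
      rw [hb']
      simp only [commutatorElement_def]
      rw [hb]
      group
    rw [e]
    exact (Q (i + j + 1)).mul_mem (h.conj' c3 (h.conj a0 c1)) (h.conj a0' c2)

theorem main_aux {Γ Z : Type} [Group Γ] [Group Z] (Q : ℕ → Subgroup Γ) (hQ : Filt Q) (k : ℕ)
    (δ : Q k →* Z) (hδ : ∀ y : Q k, (y : Γ) ∈ Q (k + 1) → δ y = 1) : ∀ (n m : ℕ), 1 ≤ m →
    n + m = k → ∀ g : Fin n → Γ, (∀ i, g i ∈ Q 1) →
    ∃ (ι : Type) (_ : Finite ι) (ω : ι) (R : ℕ → Subgroup (ι → Γ)) (_ : Filt R)
      (δ' : R m →* Z) (τ : Fin n → (ι → Γ)),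
      (∀ y : R m, (y : ι → Γ) ∈ R (m + 1) → δ' y = 1) ∧ (∀ i, τ i ∈ R 0) ∧
      (∀ i, τ i ω = g i) ∧ (∀ c, c ≠ ω → ∃ i, τ i c = 1) ∧
      (∀ j, ∀ s ∈ Q j, (fun _ : ι => s) ∈ R j) ∧
      (∀ y : ι → Γ, (∀ c, c ≠ ω → y c = 1) → ∀ h : y ω ∈ Q k,
        ∃ h' : y ∈ R m, δ' ⟨y, h'⟩ = δ ⟨y ω, h⟩) := by
  intro n
  induction n with
  | zero =>
    intro m hm hmk g hg
    have hmk' : m = k := by omega
    subst hmk'
    let ev : ((Unit → Γ) →* Γ) := Pi.evalMonoidHom (fun _ : Unit => Γ) ()
    refine ⟨Unit, inferInstance, (), fun j => (Q j).comap ev, ?_, ?_⟩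
    · constructor
      · intro i j hij y hy
        exact hQ.anti i j hij hy
      · intro i j a ha b hb
        rw [Subgroup.mem_comap, map_commutatorElement]
        exact hQ.comm i j _ ha _ hb
    · refine ⟨δ.comp (ev.subgroupComap (Q m)), fun i => i.elim0, ?_, ?_, ?_, ?_, ?_, ?_⟩
      · intro y hy
        exact hδ _ hy
      · intro i; exact i.elim0
      · intro i; exact i.elim0
      · intro c hc; exact absurd rfl hc
      · intro j s hs; exact hs
      · intro y _ h
        exact ⟨h, rfl⟩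
  | succ n ih =>
    intro m hm hmk g hg
    obtain ⟨ι, hι, ω, R, hR, δ1, τ, k1, k2, k3, k4, k5, k6⟩ := ih (m + 1) (by omega) (by omega)
      (fun i => g i.succ) (fun i => hg _)
    let A : ((ι ⊕ ι → Γ) →* (ι → Γ)) :=
      { toFun := fun y c => y (Sum.inl c), map_one' := rfl, map_mul' := fun _ _ => rfl }
    let B : ((ι ⊕ ι → Γ) →* (ι → Γ)) :=
      { toFun := fun y c => y (Sum.inr c), map_one' := rfl, map_mul' := fun _ _ => rfl }
    have hA : ∀ y c, A y c = y (Sum.inl c) := fun _ _ => rfl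
    have hB : ∀ y c, B y c = y (Sum.inr c) := fun _ _ => rfl
    refine ⟨ι ⊕ ι, inferInstance, Sum.inr ω, stepQ A B R hR, stepQ_filt A B R hR, ?_⟩
    let δ' : (stepQ A B R hR m) →* Z :=
      MonoidHom.mk' (fun y => δ1 ⟨(A y.1)⁻¹ * B y.1, y.2.2⟩) (by
        intro y y'
        have hx : (A y.1)⁻¹ * B y.1 ∈ R (m + 1) := y.2.2
        have hx' : (A y'.1)⁻¹ * B y'.1 ∈ R (m + 1) := y'.2.2
        have ha' : A y'.1 ∈ R m := y'.2.1
        have hc : ⁅(A y'.1)⁻¹, (A y.1)⁻¹ * B y.1⁆ ∈ R (m + 1 + 1) := by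
          have := hR.comm m (m + 1) _ ((R m).inv_mem ha') _ hx
          exact hR.anti (m + 1 + 1) (m + (m + 1)) (by omega) this
        have hc' : ⁅(A y'.1)⁻¹, (A y.1)⁻¹ * B y.1⁆ ∈ R (m + 1) :=
          hR.anti (m + 1) (m + 1 + 1) (by omega) hc
        have h1 : δ1 ⟨_, hc'⟩ = 1 := k1 _ hc
        have h2 : (⟨(A (y * y').1)⁻¹ * B (y * y').1, (y * y').2.2⟩ : R (m + 1)) =
            ⟨_, hc'⟩ * ⟨_, hx⟩ * ⟨_, hx'⟩ := by
          apply Subtype.ext
          change (A (y.1 * y'.1))⁻¹ * B (y.1 * y'.1) =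
            ⁅(A y'.1)⁻¹, (A y.1)⁻¹ * B y.1⁆ * ((A y.1)⁻¹ * B y.1) * ((A y'.1)⁻¹ * B y'.1)
          rw [map_mul, map_mul, commutatorElement_def]
          group
        rw [h2, map_mul, map_mul, h1, one_mul])
    have hδ' : ∀ y, δ' y = δ1 ⟨(A y.1)⁻¹ * B y.1, y.2.2⟩ := fun _ => rfl
    refine ⟨δ', Fin.cons (Sum.elim (fun _ => 1) (fun _ => g 0)) (fun i => Sum.elim (τ i) (τ i)),
      ?_, ?_, ?_, ?_, ?_, ?_⟩
    · intro y hy
      rw [hδ']
      exact k1 _ hy.2
    · intro i
      refine Fin.cases ?_ (fun i => ?_) i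
      · rw [Fin.cons_zero, mem_stepQ]
        have e1 : A (Sum.elim (fun _ => 1) (fun _ => g 0)) = 1 := rfl
        have e2 : B (Sum.elim (fun _ => 1) (fun _ => g 0)) = fun _ => g 0 := rfl
        rw [e1, e2, inv_one, one_mul]
        exact ⟨(R 0).one_mem, k5 1 _ (hg 0)⟩
      · rw [Fin.cons_succ, mem_stepQ]
        have e1 : A (Sum.elim (τ i) (τ i)) = τ i := rfl
        have e2 : B (Sum.elim (τ i) (τ i)) = τ i := rfl
        rw [e1, e2, inv_mul_cancel]
        exact ⟨k2 i, (R (0 + 1)).one_mem⟩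
    · intro i
      refine Fin.cases ?_ (fun i => ?_) i
      · rw [Fin.cons_zero]; rfl
      · rw [Fin.cons_succ]; exact k3 i
    · intro c hc
      rcases c with c | c
      · exact ⟨0, by rw [Fin.cons_zero]; rfl⟩
      · have hc' : c ≠ ω := fun h => hc (by rw [h])
        obtain ⟨i, hi⟩ := k4 c hc'
        exact ⟨i.succ, by rw [Fin.cons_succ]; exact hi⟩
    · intro j s hs
      rw [mem_stepQ]
      have e1 : A (fun _ : ι ⊕ ι => s) = fun _ => s := rfl
      have e2 : B (fun _ : ι ⊕ ι => s) = fun _ => s := rfl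
      rw [e1, e2, inv_mul_cancel]
      exact ⟨k5 j s hs, (R (j + 1)).one_mem⟩
    · intro y hy h
      have hAy : A y = 1 := by
        funext c
        exact hy _ (by intro hh; cases hh)
      have hBy : ∀ c, c ≠ ω → B y c = 1 := by
        intro c hc
        exact hy _ (by intro hh; exact hc (Sum.inr.inj hh))
      obtain ⟨h1, h2⟩ := k6 (B y) hBy h
      have hmem : y ∈ stepQ A B R hR m := by
        rw [mem_stepQ, hAy, inv_one, one_mul]
        exact ⟨(R m).one_mem, h1⟩
      refine ⟨hmem, ?_⟩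
      rw [hδ']
      have e : (⟨(A y)⁻¹ * B y, hmem.2⟩ : R (m + 1)) = ⟨B y, h1⟩ := by
        apply Subtype.ext
        change (A y)⁻¹ * B y = B y
        rw [hAy, inv_one, one_mul]
      rw [e]
      exact h2

theorem rn_succ {G : Type} [Group G] {n : ℕ} (g : Fin (n + 1) → G) (s : G) :
    rn g s = ⁅g 0, rn (fun i => g i.succ) s⁆ := by
  unfold rn
  rw [List.ofFn_succ, List.foldr_cons]

theorem rn_apply {ι G : Type} [Group G] : ∀ {n : ℕ} (τ : Fin n → (ι → G)) (x : ι → G) (c : ι),
    rn τ x c = rn (fun i => τ i c) (x c) := by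
  intro n
  induction n with
  | zero => intro τ x c; simp [rn]
  | succ n ih =>
    intro τ x c
    rw [rn_succ, rn_succ]
    change ⁅τ 0 c, rn (fun i => τ i.succ) x c⁆ = _
    rw [ih]

theorem rn_one {G : Type} [Group G] : ∀ {n : ℕ} (g : Fin n → G) (s : G), (∃ i, g i = 1) →
    rn g s = 1 := by
  intro n
  induction n with
  | zero => rintro g s ⟨i, _⟩; exact i.elim0
  | succ n ih =>
    rintro g s ⟨i, hi⟩
    rw [rn_succ]
    revert hi
    refine Fin.cases ?_ (fun i => ?_) i
    · intro hi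
      rw [hi, commutatorElement_one_left]
    · intro hi
      rw [ih _ s ⟨i, hi⟩, commutatorElement_one_right]

theorem rn_mem_lcs {Γ : Type} [Group Γ] : ∀ {n : ℕ} (g : Fin n → Γ) (s : Γ),
    rn g s ∈ (⊤ : Subgroup Γ).lowerCentralSeries n := by
  intro n
  induction n with
  | zero => intro g s; exact Subgroup.mem_top _
  | succ n ih =>
    intro g s
    rw [rn_succ]
    have h1 : ⁅g 0, rn (fun i => g i.succ) s⁆ ∈
        ⁅(⊤ : Subgroup Γ), (⊤ : Subgroup Γ).lowerCentralSeries n⁆ :=
      Subgroup.commutator_mem_commutator (Subgroup.mem_top _) (ih _ _)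
    rw [Subgroup.commutator_comm] at h1
    exact h1

theorem cube_detect (Γ : Type) [Group Γ] (n : ℕ) (hn : (⊤ : Subgroup Γ).lowerCentralSeries (n + 1) = ⊥)
    (g : Fin n → Γ) (s : Γ) :
    ∃ (ι : Type) (_ : Finite ι) (τ : Fin n → (ι → Γ)) (x : ι → Γ) (P : Subgroup (ι → Γ))
      (δ : P →* Γ), (∀ i, ∀ y ∈ P, τ i * y * (τ i)⁻¹ ∈ P ∧ (τ i)⁻¹ * y * τ i ∈ P) ∧
      (∀ y, δ y ∈ (⊤ : Subgroup Γ).lowerCentralSeries n) ∧ x ∈ P ∧
      ∃ h : rn τ x ∈ P, δ ⟨rn τ x, h⟩ = rn g s := by
  let Q : ℕ → Subgroup Γ := fun j => Nat.casesOn j ⊤ (fun j => (⊤ : Subgroup Γ).lowerCentralSeries j)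
  have Q0 : Q 0 = ⊤ := rfl
  have Qs : ∀ j, Q (j + 1) = (⊤ : Subgroup Γ).lowerCentralSeries j := fun _ => rfl
  have hQ : Filt Q := by
    constructor
    · intro i j hij
      rcases i with _ | i
      · exact le_top
      · rcases j with _ | j
        · omega
        · exact Subgroup.lowerCentralSeries_antitone _ (by omega)
    · intro i j a ha b hb
      rcases i with _ | i
      · rcases j with _ | j
        · exact Subgroup.mem_top _
        · rw [Nat.zero_add]
          have : (Q (j + 1)).Normal := by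
            rw [Qs]; infer_instance
          rw [commutatorElement_def]
          exact (Q (j + 1)).mul_mem (this.conj_mem b hb a) ((Q (j + 1)).inv_mem hb)
      · rcases j with _ | j
        · have : (Q (i + 1)).Normal := by
            rw [Qs]; infer_instance
          rw [Nat.add_zero, commutatorElement_def]
          have h1 := this.conj_mem a⁻¹ ((Q (i + 1)).inv_mem ha) b
          have h2 := (Q (i + 1)).mul_mem ha h1
          simpa [mul_assoc] using h2
        · have h1 := lcs_comm_le (Γ := Γ) j i (Subgroup.commutator_mem_commutator ha hb)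
          have e : i + 1 + (j + 1) = (i + j + 1) + 1 := by omega
          rw [e, Qs]
          exact h1
  obtain ⟨ι, hι, ω, R, hR, δ', τ, k1, k2, k3, k4, k5, k6⟩ := main_aux Q hQ (n + 1)
    (MonoidHom.id (Q (n + 1))) (by
      intro y hy
      apply Subtype.ext
      have h1 : (y : Γ) ∈ (⊤ : Subgroup Γ).lowerCentralSeries (n + 1) := hy
      rw [hn, Subgroup.mem_bot] at h1
      exact h1) n 1 (le_refl _) rfl g (fun i => Subgroup.mem_top _)
  have hsupp : ∀ c, c ≠ ω → rn τ (fun _ => s) c = 1 := by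
    intro c hc
    rw [rn_apply]
    exact rn_one _ _ (k4 c hc)
  have hω : rn τ (fun _ => s) ω = rn g s := by
    rw [rn_apply]
    congr 1
    funext i
    exact k3 i
  have hmem : rn τ (fun _ => s) ω ∈ Q (n + 1) := by
    rw [hω]
    exact rn_mem_lcs g s
  obtain ⟨h1, h2⟩ := k6 _ hsupp hmem
  refine ⟨ι, hι, τ, fun _ => s, R 1, (Q (n + 1)).subtype.comp δ', ?_, ?_, ?_, h1, ?_⟩
  · intro i y hy
    exact ⟨hR.conj (k2 i) hy, hR.conj' (k2 i) hy⟩
  · intro y
    exact (δ' y).2
  · exact k5 1 s (Subgroup.mem_top _)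
  · rw [MonoidHom.comp_apply, h2]
    exact hω

/-- the universal homomorphism to powers of `Z` -/
def h396_e (P Z : Type) [Group P] [CommGroup Z] : P →* ((P →* Z) → Z) where
  toFun y := fun φ => φ y
  map_one' := by funext φ; exact map_one φ
  map_mul' a b := by funext φ; exact map_mul φ a b

/-- the quotient -/
abbrev h396_Q (P Z : Type) [Group P] [CommGroup Z] : Type := P ⧸ (h396_e P Z).ker

theorem h396_Q_comm (P Z : Type) [Group P] [CommGroup Z] (a b : h396_Q P Z) : a * b = b * a := by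
  apply QuotientGroup.kerLift_injective (h396_e P Z)
  rw [map_mul, map_mul, mul_comm]

theorem h396_Q_pow (p : ℕ) (P Z : Type) [Group P] [CommGroup Z] (hZ : ∀ z : Z, z ^ p = 1)
    (a : h396_Q P Z) : a ^ p = 1 := by
  apply QuotientGroup.kerLift_injective (h396_e P Z)
  rw [map_pow, map_one]
  funext φ
  exact hZ _

theorem h396_le (P Z : Type) [Group P] [CommGroup Z] (α : MulAut P) :
    (h396_e P Z).ker ≤ Subgroup.comap (α : P →* P) (h396_e P Z).ker := by
  intro y hy
  rw [Subgroup.mem_comap, MonoidHom.mem_ker]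
  rw [MonoidHom.mem_ker] at hy
  funext φ
  exact congrFun hy (φ.comp (α : P →* P))

theorem h396_lift (p : ℕ) (P M : Type) [Group P] [AddCommGroup M] [Module (ZMod p) M] (cls : P → M)
    (hs : Function.Surjective cls) (D : MulAut P → (M →+ M)) (hD : ∀ α y, D α (cls y) = cls (α y)) :
    ∃ E : MulAut P →* (Module.End (ZMod p) M)ˣ, ∀ (α : MulAut P) (y : P),
      ((E α : (Module.End (ZMod p) M)ˣ) : Module.End (ZMod p) M) (cls y) = cls (α y) := by
  let E₀ : MulAut P →* Module.End (ZMod p) M :=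
    { toFun := fun α => AddMonoidHom.toZModLinearMap p (D α)
      map_one' := by
        refine LinearMap.ext fun x => ?_
        obtain ⟨y, rfl⟩ := hs x
        exact hD 1 y
      map_mul' := by
        intro α β
        refine LinearMap.ext fun x => ?_
        obtain ⟨y, rfl⟩ := hs x
        show D (α * β) (cls y) = D α (D β (cls y))
        rw [hD, hD, hD]
        rfl }
  refine ⟨MonoidHom.toHomUnits E₀, fun α y => ?_⟩
  exact hD α y

theorem h396_descent (p : ℕ) (P Z : Type) [Group P] [CommGroup Z] (hZ : ∀ z : Z, z ^ p = 1) :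
    ∃ (M : Type) (_ : AddCommGroup M) (_ : Module (ZMod p) M) (cls : P → M)
      (E : MulAut P →* (Module.End (ZMod p) M)ˣ), Function.Surjective cls ∧
      (∀ a b, cls (a * b) = cls a + cls b) ∧
      (∀ (α : MulAut P) (y : P),
        ((E α : (Module.End (ZMod p) M)ˣ) : Module.End (ZMod p) M) (cls y) = cls (α y)) ∧
      (∀ (δ : P →* Z) (y : P), cls y = 0 → δ y = 1) := by
  let iC : CommGroup (h396_Q P Z) :=
    { (inferInstance : Group (h396_Q P Z)) with mul_comm := h396_Q_comm P Z }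
  let iM : Module (ZMod p) (Additive (h396_Q P Z)) := AddCommGroup.zmodModule (fun x => by
    have h1 := h396_Q_pow p P Z hZ x.toMul
    exact h1)
  have hs : Function.Surjective (fun y : P => Additive.ofMul ((y : P) : h396_Q P Z)) := by
    intro x
    obtain ⟨y, hy⟩ := QuotientGroup.mk_surjective x.toMul
    exact ⟨y, by simp only [hy]; rfl⟩
  obtain ⟨E, hE⟩ := h396_lift p P (Additive (h396_Q P Z))
    (fun y => Additive.ofMul ((y : P) : h396_Q P Z)) hs
    (fun α => MonoidHom.toAdditive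
        (QuotientGroup.map (h396_e P Z).ker (h396_e P Z).ker (α : P →* P) (h396_le P Z α)))
    (fun α y => rfl)
  refine ⟨Additive (h396_Q P Z), inferInstance, iM,
    fun y => Additive.ofMul ((y : P) : h396_Q P Z), E, hs, ?_, hE, ?_⟩
  · intro a b
    rfl
  · intro δ y hy
    have h1 : ((y : P) : h396_Q P Z) = 1 := hy
    have h2 := (QuotientGroup.eq_one_iff y).1 h1
    rw [MonoidHom.mem_ker] at h2
    exact congrFun h2 δ

theorem pair_of_cube {C : (Γ : Type) → [Group Γ] → Prop} (hC : SecC C) (p : ℕ) [Fact p.Prime]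
    (Γ : Type) [Group Γ] (hΓ : C Γ) (n : ℕ) (ι : Type) [Finite ι] (τ : Fin n → (ι → Γ))
    (x : ι → Γ) (P : Subgroup (ι → Γ))
    (hP : ∀ i, ∀ y ∈ P, τ i * y * (τ i)⁻¹ ∈ P ∧ (τ i)⁻¹ * y * τ i ∈ P) (hx : x ∈ P)
    (Z : Type) [CommGroup Z] (hZ : ∀ z : Z, z ^ p = 1) (δ : P →* Z)
    (h : rn τ x ∈ P) (hδ : δ ⟨rn τ x, h⟩ ≠ 1) :
    ∃ (M : Type) (_ : AddCommGroup M) (_ : Module (ZMod p) M)
      (g : Fin n → (Module.End (ZMod p) M)ˣ),
      C (PG p M (Subgroup.closure (Set.range g))) ∧
      (List.ofFn (fun i => (g i : Module.End (ZMod p) M) - 1)).prod ≠ 0 := by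
  obtain ⟨M, iM1, iM2, cls, E, hsurj, hmul, hE, hδ0⟩ := h396_descent p P Z hZ
  have hcls1 : cls 1 = 0 := by
    have h1 := hmul 1 1
    rw [mul_one] at h1
    exact left_eq_add.1 h1
  have hnorm : ∀ i, τ i ∈ Subgroup.normalizer (P : Set (ι → Γ)) := by
    intro i
    rw [Subgroup.mem_normalizer_iff]
    intro y
    constructor
    · intro hy
      exact (hP i y hy).1
    · intro hy
      have h1 := (hP i _ hy).2
      have e : (τ i)⁻¹ * (τ i * y * (τ i)⁻¹) * τ i = y := by group
      rwa [e] at h1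
  let τh : FreeGroup (Fin n) →* Subgroup.normalizer (P : Set (ι → Γ)) :=
    FreeGroup.lift (fun i => ⟨τ i, hnorm i⟩)
  have hτh : ∀ i, ((τh (FreeGroup.of i) : Subgroup.normalizer (P : Set (ι → Γ))) : ι → Γ) = τ i := by
    intro i
    simp only [τh, FreeGroup.lift_apply_of]
  let φ : FreeGroup (Fin n) →* MulAut P := (P.normalizerMonoidHom).comp τh
  have hφ : ∀ (w : FreeGroup (Fin n)) (y : P), ((φ w y : P) : ι → Γ) =
      (τh w : ι → Γ) * (y : ι → Γ) * ((τh w : ι → Γ))⁻¹ := fun w y => rfl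
  let θ : FreeGroup (Fin n) →* (Module.End (ZMod p) M)ˣ := E.comp φ
  let g : Fin n → (Module.End (ZMod p) M)ˣ := fun i => θ (FreeGroup.of i)
  have hrange : θ.range = Subgroup.closure (Set.range g) := by
    rw [MonoidHom.range_eq_map, ← FreeGroup.closure_range_of, MonoidHom.map_closure,
      ← Set.range_comp]
    rfl
  have hθmem : ∀ w, θ w ∈ Subgroup.closure (Set.range g) := by
    intro w
    rw [← hrange]
    exact ⟨w, rfl⟩
  refine ⟨M, iM1, iM2, g, ?_, ?_⟩
  · -- section property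
    let fn : P →* Multiplicative M :=
      { toFun := fun y => Multiplicative.ofAdd (cls y)
        map_one' := by rw [hcls1]; rfl
        map_mul' := fun a b => by rw [hmul]; rfl }
    let fg : FreeGroup (Fin n) →* Subgroup.closure (Set.range g) :=
      θ.codRestrict (Subgroup.closure (Set.range g)) hθmem
    let f : P ⋊[φ] FreeGroup (Fin n) →* PG p M (Subgroup.closure (Set.range g)) :=
      SemidirectProduct.map fn fg (by
        intro w
        ext y
        have h1 := hE (φ w) y
        have h2 : (((actU p M).comp (Subgroup.closure (Set.range g)).subtype) (fg w))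
            (Multiplicative.ofAdd (cls y)) = Multiplicative.ofAdd (cls (φ w y)) := by
          rw [← h1]
          rfl
        exact h2.symm)
    let Θ : P ⋊[φ] FreeGroup (Fin n) →* ((j : ι ⊕ ι) → Γ) :=
      { toFun := fun k => fun j => Sum.elim
          (fun i => ((k.left : ι → Γ) * (τh k.right : ι → Γ)) i)
          (fun i => (τh k.right : ι → Γ) i) j
        map_one' := by
          funext j
          cases j with
          | inl i => simp
          | inr i => simp
        map_mul' := by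
          intro a b
          funext j
          cases j with
          | inl i =>
            simp only [Sum.elim_inl, Pi.mul_apply, SemidirectProduct.mul_left,
              SemidirectProduct.mul_right, map_mul, Subgroup.coe_mul]
            have h1 := congrFun (hφ a.right b.left) i
            rw [h1]
            simp only [Pi.mul_apply, Pi.inv_apply]
            group
          | inr i =>
            simp only [Sum.elim_inr, Pi.mul_apply, SemidirectProduct.mul_right, map_mul,
              Subgroup.coe_mul] }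
    refine hC (ι ⊕ ι) (fun _ => Γ) (PG p M (Subgroup.closure (Set.range g)))
      (P ⋊[φ] FreeGroup (Fin n)) Θ f (fun _ => hΓ) ?_ ?_
    · rintro ⟨m, ⟨u, hu⟩⟩
      obtain ⟨y, hy⟩ := hsurj m.toAdd
      rw [← hrange] at hu
      obtain ⟨w, hw⟩ := hu
      refine ⟨⟨y, w⟩, ?_⟩
      apply SemidirectProduct.ext
      · show Multiplicative.ofAdd (cls y) = m
        rw [hy]
        rfl
      · apply Subtype.ext
        exact hw
    · intro k hk
      rw [MonoidHom.mem_ker] at hk ⊢
      have h1 : (τh k.right : ι → Γ) = 1 := by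
        funext i
        exact congrFun hk (Sum.inr i)
      have h2 : (k.left : ι → Γ) = 1 := by
        funext i
        have h3 := congrFun hk (Sum.inl i)
        have h4 : ((k.left : ι → Γ) * (τh k.right : ι → Γ)) i = 1 := h3
        rw [h1, mul_one] at h4
        exact h4
      have h5 : k.left = 1 := Subtype.ext h2
      have h6 : τh k.right = 1 := Subtype.ext h1
      have h7 : θ k.right = 1 := by
        show E ((P.normalizerMonoidHom) (τh k.right)) = 1
        rw [h6, map_one, map_one]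
      apply SemidirectProduct.ext
      · show Multiplicative.ofAdd (cls k.left) = 1
        rw [h5, hcls1]
        rfl
      · apply Subtype.ext
        exact h7
  · -- the product
    have hg : ∀ (i : Fin n) (y : P), ((g i : (Module.End (ZMod p) M)ˣ) : Module.End (ZMod p) M)
        (cls y) = cls ⟨τ i * y * (τ i)⁻¹, (hP i y y.2).1⟩ := by
      intro i y
      have h1 := hE (φ (FreeGroup.of i)) y
      have h2 : (φ (FreeGroup.of i)) y = ⟨τ i * y * (τ i)⁻¹, (hP i y y.2).1⟩ := by
        apply Subtype.ext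
        rw [hφ, hτh]
      rw [h2] at h1
      exact h1
    have key : ∀ l : List (Fin n), ∃ hy : ((l.map τ).foldr (fun a b => ⁅a, b⁆) x) ∈ P,
        ((l.map (fun i => ((g i : (Module.End (ZMod p) M)ˣ) : Module.End (ZMod p) M) - 1)).prod :
          Module.End (ZMod p) M) (cls ⟨x, hx⟩) =
          cls ⟨(l.map τ).foldr (fun a b => ⁅a, b⁆) x, hy⟩ := by
      intro l
      induction l with
      | nil => exact ⟨hx, rfl⟩
      | cons i l ih =>
        obtain ⟨hy, ih⟩ := ih
        have hmem : ⁅τ i, (l.map τ).foldr (fun a b => ⁅a, b⁆) x⁆ ∈ P := by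
          rw [commutatorElement_def]
          exact P.mul_mem (hP i _ hy).1 (P.inv_mem hy)
        refine ⟨hmem, ?_⟩
        rw [List.map_cons, List.prod_cons, Module.End.mul_apply, ih, LinearMap.sub_apply, hg,
          Module.End.one_apply, sub_eq_iff_eq_add, ← hmul]
        congr 1
        apply Subtype.ext
        show τ i * (l.map τ).foldr (fun a b => ⁅a, b⁆) x * (τ i)⁻¹ =
          ⁅τ i, (l.map τ).foldr (fun a b => ⁅a, b⁆) x⁆ * (l.map τ).foldr (fun a b => ⁅a, b⁆) x
        rw [commutatorElement_def, inv_mul_cancel_right]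
    obtain ⟨hy, hk⟩ := key (List.finRange n)
    intro h0
    rw [List.ofFn_eq_map] at h0
    rw [h0, LinearMap.zero_apply] at hk
    have h1 := hδ0 δ _ hk.symm
    apply hδ
    have h2 : (⟨rn τ x, h⟩ : P) = ⟨((List.finRange n).map τ).foldr (fun a b => ⁅a, b⁆) x, hy⟩ := by
      apply Subtype.ext
      show rn τ x = _
      unfold rn
      rw [List.ofFn_eq_map]
    rw [h2]
    exact h1

theorem exact_class_rn {G : Type} [Group G] : ∀ (k : ℕ) (s : G),
    (∀ g : Fin k → G, rn g s = 1) → s ∈ Subgroup.upperCentralSeries G k := by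
  intro k
  induction k with
  | zero =>
    intro s h
    have h1 := h Fin.elim0
    simpa [rn] using h1
  | succ k ih =>
    intro s h
    rw [Subgroup.mem_upperCentralSeries_succ_iff]
    intro y
    have h2 : ⁅y, s⁆ ∈ Subgroup.upperCentralSeries G k := by
      refine ih _ ?_
      intro g
      have h3 := h (Fin.snoc (α := fun _ => G) g y)
      unfold rn at h3 ⊢
      rw [List.ofFn_succ'] at h3
      simpa [List.concat_eq_append, Fin.snoc_castSucc, Fin.snoc_last] using h3
    have h4 := (Subgroup.upperCentralSeries G k).inv_mem h2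
    rw [commutatorElement_inv, commutatorElement_def] at h4
    exact h4

theorem exact_class_lcs {G H : Type} [Group G] [Group H] (f : G →* H)
    (hf : Function.Surjective f) (k : ℕ) :
    (⊤ : Subgroup H).lowerCentralSeries k = ((⊤ : Subgroup G).lowerCentralSeries k).map f := by
  rw [Subgroup.map_lowerCentralSeries, Subgroup.map_top_of_surjective f hf]

theorem exact_class_central {G : Type} [Group G] (n : ℕ)
    (h : (⊤ : Subgroup G).lowerCentralSeries (n + 1) = ⊥) :
    ∀ z ∈ (⊤ : Subgroup G).lowerCentralSeries n, ∀ y : G, z * y = y * z := by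
  intro z hz y
  have h1 : ⁅z, y⁆ ∈ (⊤ : Subgroup G).lowerCentralSeries (n + 1) := by
    rw [Subgroup.lowerCentralSeries_succ]
    exact Subgroup.commutator_mem_commutator hz (Subgroup.mem_top y)
  rw [h, Subgroup.mem_bot] at h1
  exact commutatorElement_eq_one_iff_mul_comm.mp h1

theorem exact_class_stat {G : Type} [Group G] (hG : Group.IsNilpotent G) (n : ℕ)
    (h : (⊤ : Subgroup G).lowerCentralSeries n ≤ (⊤ : Subgroup G).lowerCentralSeries (n + 1)) :
    (⊤ : Subgroup G).lowerCentralSeries n = ⊥ := by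
  obtain ⟨m, hm⟩ := Subgroup.nilpotent_iff_lowerCentralSeries.mp hG
  have h1 : ∀ k, (⊤ : Subgroup G).lowerCentralSeries n ≤
      (⊤ : Subgroup G).lowerCentralSeries (n + k) := by
    intro k
    induction k with
    | zero => exact le_rfl
    | succ k ih =>
      refine h.trans ?_
      rw [← add_assoc, Subgroup.lowerCentralSeries_succ, Subgroup.lowerCentralSeries_succ]
      exact Subgroup.commutator_mono ih le_rfl
  rw [eq_bot_iff, ← hm]
  exact (h1 m).trans (Subgroup.lowerCentralSeries_antitone _ (Nat.le_add_left m n))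

/-- the `p`-th powers of a central subgroup -/
def exact_class_pow {G : Type} [Group G] (A : Subgroup G) (p : ℕ)
    (hA : ∀ z ∈ A, ∀ y : G, z * y = y * z) : Subgroup G where
  carrier := {x | ∃ z ∈ A, z ^ p = x}
  one_mem' := ⟨1, A.one_mem, one_pow p⟩
  mul_mem' := by
    rintro _ _ ⟨z, hz, rfl⟩ ⟨w, hw, rfl⟩
    exact ⟨z * w, A.mul_mem hz hw, Commute.mul_pow (hA z hz w) p⟩
  inv_mem' := by
    rintro _ ⟨z, hz, rfl⟩
    exact ⟨z⁻¹, A.inv_mem hz, inv_pow z p⟩

theorem exact_class_pow_normal {G : Type} [Group G] (A : Subgroup G) (p : ℕ)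
    (hA : ∀ z ∈ A, ∀ y : G, z * y = y * z) : (exact_class_pow A p hA).Normal := by
  constructor
  rintro _ ⟨z, hz, rfl⟩ g
  refine ⟨z, hz, ?_⟩
  have h1 := hA (z ^ p) (A.pow_mem hz p) g
  rw [← h1, mul_inv_cancel_right]

theorem exact_class_pow_ne {G : Type} [Group G] [Finite G] (p : ℕ) [Fact p.Prime]
    (hG : IsPGroup p G) (A : Subgroup G) (hA : ∀ z ∈ A, ∀ y : G, z * y = y * z)
    (h : A ≤ exact_class_pow A p hA) : A = ⊥ := by
  have h1 : ∀ k : ℕ, ∀ z ∈ A, ∃ w ∈ A, w ^ (p ^ k) = z := by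
    intro k
    induction k with
    | zero =>
      intro z hz
      exact ⟨z, hz, by simp⟩
    | succ k ih =>
      intro z hz
      obtain ⟨w, hw, hwz⟩ := ih z hz
      obtain ⟨v, hv, hvw⟩ := h hw
      refine ⟨v, hv, ?_⟩
      rw [pow_succ', pow_mul, hvw, hwz]
  obtain ⟨m, hm⟩ := IsPGroup.iff_card.mp hG
  rw [eq_bot_iff]
  intro z hz
  obtain ⟨w, hw, hwz⟩ := h1 m z hz
  rw [← hm, pow_card_eq_one'] at hwz
  exact Subgroup.mem_bot.mpr hwz.symm

theorem exact_class {C : (Γ : Type) → [Group Γ] → Prop}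
    (hq : ∀ (Γ Δ : Type) [Group Γ] [Group Δ] (f : Γ →* Δ), Function.Surjective f → C Γ → C Δ)
    (p : ℕ) [Fact p.Prime] (hfin : ∀ (Γ : Type) [Group Γ], C Γ → Finite Γ ∧ IsPGroup p Γ)
    (n : ℕ) (Γ : Type) [Group Γ] (hΓ : C Γ) (hn : Subgroup.upperCentralSeries Γ n ≠ ⊤) :
    ∃ (Δ : Type) (_ : Group Δ), C Δ ∧ (⊤ : Subgroup Δ).lowerCentralSeries (n + 1) = ⊥ ∧
      (∀ z ∈ (⊤ : Subgroup Δ).lowerCentralSeries n, z ^ p = 1) ∧
      (∀ z ∈ (⊤ : Subgroup Δ).lowerCentralSeries n, ∀ y : Δ, z * y = y * z) ∧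
      ∃ (g : Fin n → Δ) (s : Δ), rn g s ≠ 1 := by
  obtain ⟨hF, hP⟩ := hfin Γ hΓ
  haveI := hF
  have hnil : Group.IsNilpotent Γ := hP.isNilpotent
  have hne : (⊤ : Subgroup Γ).lowerCentralSeries n ≠ ⊥ := fun h =>
    hn (Subgroup.lowerCentralSeries_eq_bot_iff_upperCentralSeries_eq_top.mp h)
  -- first quotient
  set L' := (⊤ : Subgroup Γ).lowerCentralSeries (n + 1) with hL'
  let Γ₁ := Γ ⧸ L'
  have hs1 : Function.Surjective (QuotientGroup.mk' L') := QuotientGroup.mk'_surjective L'
  have hC1 : C Γ₁ := hq Γ Γ₁ (QuotientGroup.mk' L') hs1 hΓ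
  have hb1 : (⊤ : Subgroup Γ₁).lowerCentralSeries (n + 1) = ⊥ := by
    rw [exact_class_lcs (QuotientGroup.mk' L') hs1, Subgroup.map_eq_bot_iff, QuotientGroup.ker_mk']
  have hne1 : (⊤ : Subgroup Γ₁).lowerCentralSeries n ≠ ⊥ := by
    intro h
    rw [exact_class_lcs (QuotientGroup.mk' L') hs1, Subgroup.map_eq_bot_iff,
      QuotientGroup.ker_mk'] at h
    exact hne (exact_class_stat hnil n h)
  have hcen1 := exact_class_central n hb1
  obtain ⟨hF1, hP1⟩ := hfin Γ₁ hC1
  haveI := hF1
  -- second quotient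
  set A := (⊤ : Subgroup Γ₁).lowerCentralSeries n with hAdef
  set P := exact_class_pow A p hcen1 with hPdef
  haveI : P.Normal := exact_class_pow_normal A p hcen1
  have hs2 : Function.Surjective (QuotientGroup.mk' P) := QuotientGroup.mk'_surjective P
  have hb2 : (⊤ : Subgroup (Γ₁ ⧸ P)).lowerCentralSeries (n + 1) = ⊥ := by
    rw [exact_class_lcs (QuotientGroup.mk' P) hs2, hb1, Subgroup.map_bot]
  have hne2 : (⊤ : Subgroup (Γ₁ ⧸ P)).lowerCentralSeries n ≠ ⊥ := by
    intro h
    rw [exact_class_lcs (QuotientGroup.mk' P) hs2, Subgroup.map_eq_bot_iff,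
      QuotientGroup.ker_mk'] at h
    exact hne1 (exact_class_pow_ne p hP1 A hcen1 h)
  refine ⟨Γ₁ ⧸ P, inferInstance, hq Γ₁ (Γ₁ ⧸ P) (QuotientGroup.mk' P) hs2 hC1, hb2, ?_,
    exact_class_central n hb2, ?_⟩
  · intro z hz
    rw [exact_class_lcs (QuotientGroup.mk' P) hs2] at hz
    obtain ⟨a, ha, rfl⟩ := hz
    rw [← map_pow]
    exact (QuotientGroup.eq_one_iff _).mpr ⟨a, ha, rfl⟩
  · by_contra hcon
    push Not at hcon
    apply hne2
    rw [Subgroup.lowerCentralSeries_eq_bot_iff_upperCentralSeries_eq_top, eq_top_iff]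
    intro s _
    exact exact_class_rn n s (fun g => hcon g s)

theorem nn_do {E : Type} [Ring E] (l : List Eˣ) :
    (l.map (fun h => (h : E) - 1)) = List.map (fun h : Eˣ => (h : E) - 1) l := by
  induction l with
  | nil => rfl
  | cons a l ih =>
    rw [List.map_cons, ← ih]
    rfl

theorem nonnil_of_pairs {C : (Γ : Type) → [Group Γ] → Prop} (hC : SecC C) {p : ℕ} [Fact p.Prime]
    (k : ℕ) (hfin : ∀ (Γ : Type) [Group Γ], C Γ → Finite Γ ∧ IsPGroup p Γ)
    (hidx : ∀ (M : Type) [AddCommGroup M] [Module (ZMod p) M]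
      (H : Subgroup (Module.End (ZMod p) M)ˣ), C (PG p M H) →
      ∀ h ∈ H, ((h : Module.End (ZMod p) M) - 1) ^ k = 0)
    (h : ∀ n : ℕ, ∃ (M : Type) (_ : AddCommGroup M) (_ : Module (ZMod p) M)
      (g : Fin n → (Module.End (ZMod p) M)ˣ),
      C (PG p M (Subgroup.closure (Set.range g))) ∧
      (List.ofFn (fun i => (g i : Module.End (ZMod p) M) - 1)).prod ≠ 0) :
    NonNil C p k := by
  classical
  intro n
  obtain ⟨M, iM1, iM2, g, hCg, hprod⟩ := h n
  set H : Subgroup (Module.End (ZMod p) M)ˣ := Subgroup.closure (Set.range g) with hH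
  obtain ⟨hF, hPG⟩ := hfin (PG p M H) hCg
  have hMf : Finite M := by
    have h1 : Function.Injective (SemidirectProduct.inl :
        Multiplicative M →* PG p M H) := SemidirectProduct.inl_injective
    have h2 : Finite (Multiplicative M) := Finite.of_injective _ h1
    exact Finite.of_injective (Multiplicative.ofAdd : M → Multiplicative M)
      Multiplicative.ofAdd.injective
  obtain ⟨-, -, hanti, -, -⟩ := II_facts p (E := Module.End (ZMod p) M) H
  have hex : ∃ m : ℕ, II p H m = ⊥ := pair_nil p M H hPG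
  obtain ⟨m, hm, hmin⟩ : ∃ m : ℕ, II p H m = ⊥ ∧ ∀ j, j < m → II p H j ≠ ⊥ :=
    ⟨Nat.find hex, Nat.find_spec hex, fun j hj => Nat.find_min hex hj⟩
  have hnm : n < m := by
    by_contra hc
    push Not at hc
    apply hprod
    have h1 : (List.ofFn (fun i => (g i : Module.End (ZMod p) M) - 1)).prod ∈ II p H n := by
      apply Submodule.subset_span
      refine ⟨List.ofFn g, ?_, ?_, ?_⟩
      · intro x hx
        rw [List.mem_ofFn'] at hx
        exact Subgroup.subset_closure hx
      · rw [List.length_ofFn]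
      · rw [nn_do, List.map_ofFn]
        rfl
    have h2 := hanti hc h1
    rw [hm] at h2
    exact (Submodule.mem_bot _).mp h2
  have hne := hmin (m - 1) (by omega)
  obtain ⟨l, hlH, hlen, hl0⟩ : ∃ l : List (Module.End (ZMod p) M)ˣ, (∀ x ∈ l, x ∈ H) ∧
      m - 1 ≤ l.length ∧ (l.map (fun x => (x : Module.End (ZMod p) M) - 1)).prod ≠ 0 := by
    by_contra hc
    push Not at hc
    apply hne
    rw [eq_bot_iff]
    unfold II
    rw [Submodule.span_le]
    rintro b ⟨l, hl1, hl2, rfl⟩
    rw [hc l hl1 hl2]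
    exact Submodule.zero_mem _
  have hlen' : l.length + 1 = m := by
    have h1 : l.length < m := by
      by_contra hc
      push Not at hc
      apply hl0
      have h2 : (l.map (fun x => (x : Module.End (ZMod p) M) - 1)).prod ∈ II p H m :=
        Submodule.subset_span ⟨l, hlH, hc, rfl⟩
      rw [hm] at h2
      exact (Submodule.mem_bot _).mp h2
    omega
  have hk := hidx M H hCg
  obtain ⟨B, iB1, iB2, u, hu, hev⟩ := cube_sys hC M H hCg hk (fun i => l.get i)
    (fun i => hlH _ (List.get_mem l i)) (fun _ => 1) (fun _ => le_refl _)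
    (fun i => (II_facts p (E := Module.End (ZMod p) M) H).2.2.2.2 _
      (hlH _ (List.get_mem l i)))
  have hevf : ∀ {A : Type} [Ring A] [Algebra (ZMod p) A] (x : Fin l.length → A),
      ev (fun σ : Equiv.Perm (Fin l.length) => if σ = 1 then (1 : ZMod p) else 0) x =
        (List.ofFn x).prod := by
    intro A _ _ x
    unfold ev
    rw [Finset.sum_eq_single (1 : Equiv.Perm (Fin l.length))]
    · show (if (1 : Equiv.Perm (Fin l.length)) = 1 then (1 : ZMod p) else 0) • _ = _
      rw [if_pos rfl, one_smul]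
      rfl
    · intro σ _ hσ
      show (if σ = 1 then (1 : ZMod p) else 0) • _ = _
      rw [if_neg hσ, zero_smul]
    · intro hc
      exact absurd (Finset.mem_univ _) hc
  have hunz : (List.ofFn (lt u)).prod ≠ 0 := by
    intro h0
    apply hl0
    have h1 := hev (fun σ : Equiv.Perm (Fin l.length) => if σ = 1 then (1 : ZMod p) else 0)
      (by rw [hevf]; exact h0)
    rw [hevf] at h1
    have h2 : (∑ _i : Fin l.length, 1) + 1 = m := by
      rw [Finset.sum_const, Finset.card_univ, Fintype.card_fin, smul_eq_mul, mul_one, hlen']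
    rw [h2, hm] at h1
    have h3 := (Submodule.mem_bot _).mp h1
    have h4 : List.ofFn (fun i : Fin l.length => ((l.get i : (Module.End (ZMod p) M)ˣ) :
        Module.End (ZMod p) M) - 1) = l.map (fun x => (x : Module.End (ZMod p) M) - 1) := by
      rw [nn_do]
      conv_rhs => rw [← List.ofFn_get l]
      rw [List.map_ofFn]
      rfl
    rw [h4] at h3
    exact h3
  have hle : n ≤ l.length := by omega
  obtain ⟨B₁, iC1, iC2, u₁, ι, hι, hιu, hu₁⟩ := sub_sys hC hu
    (fun i : Fin n => u (Fin.castLE hle i))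
    (fun i => ⟨FreeGroup.of (Fin.castLE hle i), FreeGroup.lift_apply_of⟩)
    (fun i b => hu.rep (Fin.castLE hle i) b)
  refine ⟨B₁, iC1, iC2, u₁, hu₁, ?_⟩
  intro h0
  apply hunz
  have h1 : (List.ofFn (lt u)).take n = List.ofFn (fun i : Fin n => lt u (Fin.castLE hle i)) := by
    apply List.ext_getElem
    · rw [List.length_take, List.length_ofFn, List.length_ofFn, min_eq_left hle]
    · intro i h1 h2
      rw [List.getElem_take, List.getElem_ofFn, List.getElem_ofFn]
      rfl
  have h2 : (List.ofFn (fun i : Fin n => lt u (Fin.castLE hle i))).prod = 0 := by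
    have h3 : ι ((List.ofFn (lt u₁)).prod) =
        (List.ofFn (fun i : Fin n => lt u (Fin.castLE hle i))).prod := by
      rw [map_list_prod, List.map_ofFn]
      congr 2
      funext i
      show ι ((u₁ i : B₁) - 1) = (u (Fin.castLE hle i) : B) - 1
      rw [map_sub, map_one, hιu]
    rw [← h3, h0, map_zero]
  rw [← List.prod_take_mul_prod_drop (List.ofFn (lt u)) n, h1, h2, zero_mul]

theorem cm_append_29347 {G : Type*} [Group G] (x : G) (l1 l2 : List G) :
    cm x (l1 ++ l2) = cm (cm x l1) l2 := by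
  unfold cm
  rw [List.foldl_append]

theorem comm_step_29347 (p : ℕ) {E : Type} [Ring E] [Algebra (ZMod p) E] (H1 : Subgroup Eˣ)
    (i : ℕ) (a b : Eˣ) (ha : a ∈ H1) (hb : b ∈ H1) (h : (a : E) - 1 ∈ II p H1 i) :
    ((⁅a, b⁆ : Eˣ) : E) - 1 ∈ II p H1 (i + 1) := by
  obtain ⟨_, hmul, _, h0, h1⟩ := II_facts p H1
  have e : ((⁅a, b⁆ : Eˣ) : E) - 1 =
      (((a : E) - 1) * ((b : E) - 1) - ((b : E) - 1) * ((a : E) - 1)) *
        ((a⁻¹ * b⁻¹ : Eˣ) : E) := by
    have e1 : ((a : E) - 1) * ((b : E) - 1) - ((b : E) - 1) * ((a : E) - 1) =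
        (a : E) * b - b * a := by noncomm_ring
    rw [e1, sub_mul]
    have e2 : (a : E) * b * ((a⁻¹ * b⁻¹ : Eˣ) : E) = ((⁅a, b⁆ : Eˣ) : E) := by
      rw [← Units.val_mul, ← Units.val_mul, commutatorElement_def, ← mul_assoc]
    have e3 : (b : E) * a * ((a⁻¹ * b⁻¹ : Eˣ) : E) = 1 := by
      rw [← Units.val_mul, ← Units.val_mul, ← Units.val_one]
      congr 1
      group
    rw [e2, e3]
  rw [e]
  have k1 : ((a : E) - 1) * ((b : E) - 1) ∈ II p H1 (i + 1) := hmul _ _ _ _ h (h1 b hb)
  have k2 : ((b : E) - 1) * ((a : E) - 1) ∈ II p H1 (i + 1) := by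
    have := hmul _ _ _ _ (h1 b hb) h
    rwa [add_comm] at this
  have k3 := hmul _ _ _ _ (Submodule.sub_mem _ k1 k2)
    (h0 _ (H1.mul_mem (H1.inv_mem ha) (H1.inv_mem hb)))
  exact k3

theorem comm_inl_29347 (p : ℕ) (M : Type) [AddCommGroup M] [Module (ZMod p) M]
    (H : Subgroup (Module.End (ZMod p) M)ˣ) (m : M) (y : PG p M H) :
    ⁅(SemidirectProduct.inl (Multiplicative.ofAdd m) : PG p M H), y⁆ =
      SemidirectProduct.inl (Multiplicative.ofAdd
        (m - (((y.right : H) : (Module.End (ZMod p) M)ˣ) : Module.End (ZMod p) M) m)) := by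
  have hc : ∀ m' : Multiplicative M, y * (SemidirectProduct.inl m' : PG p M H) * y⁻¹ =
      SemidirectProduct.inl (((actU p M).comp H.subtype) y.right m') := by
    intro m'
    have e1 := SemidirectProduct.inl_left_mul_inr_right y
    have e2 := SemidirectProduct.inl_aut (φ := (actU p M).comp H.subtype) y.right m'
    have e3 : y * (SemidirectProduct.inl m' : PG p M H) * y⁻¹ =
        SemidirectProduct.inl y.left * (SemidirectProduct.inr y.right *
          SemidirectProduct.inl m' * SemidirectProduct.inr y.right⁻¹) *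
          (SemidirectProduct.inl y.left)⁻¹ := by
      conv_lhs => rw [← e1]
      rw [mul_inv_rev, map_inv]
      group
    rw [e3, ← e2, ← map_mul, ← map_inv, ← map_mul, mul_comm y.left, mul_assoc, mul_inv_cancel,
      mul_one]
  have e4 : ⁅(SemidirectProduct.inl (Multiplicative.ofAdd m) : PG p M H), y⁆ =
      SemidirectProduct.inl (Multiplicative.ofAdd m) *
        (y * (SemidirectProduct.inl (Multiplicative.ofAdd m))⁻¹ * y⁻¹) := by
    rw [commutatorElement_def]
    group
  rw [e4, ← map_inv, hc, ← map_mul]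
  congr 1
  have e5 : ((actU p M).comp H.subtype) y.right (Multiplicative.ofAdd m)⁻¹ =
      Multiplicative.ofAdd (-((((y.right : H) : (Module.End (ZMod p) M)ˣ) :
        Module.End (ZMod p) M) m)) := by
    rw [← ofAdd_neg]
    show actU p M (y.right : (Module.End (ZMod p) M)ˣ) (Multiplicative.ofAdd (-m)) = _
    rw [actU_apply, map_neg]
  rw [e5, ← ofAdd_add, sub_eq_add_neg]

theorem cm_right_29347 (p : ℕ) (M : Type) [AddCommGroup M] [Module (ZMod p) M]
    (H : Subgroup (Module.End (ZMod p) M)ˣ) (H1 : Subgroup (Module.End (ZMod p) M)ˣ)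
    (K : Subgroup (PG p M H))
    (hK : ∀ y ∈ K, ((y.right : H) : (Module.End (ZMod p) M)ˣ) ∈ H1) (l : List (PG p M H)) :
    ∀ (x : PG p M H) (i : ℕ), x ∈ K →
      (((x.right : H) : (Module.End (ZMod p) M)ˣ) : Module.End (ZMod p) M) - 1 ∈ II p H1 i →
      (∀ y ∈ l, y ∈ K) →
      ((((cm x l).right : H) : (Module.End (ZMod p) M)ˣ) : Module.End (ZMod p) M) - 1 ∈
        II p H1 (i + l.length) := by
  induction l with
  | nil =>
    intro x i _ h _
    exact h
  | cons y l ih =>
    intro x i hx h hl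
    have hy := hl y (List.mem_cons_self ..)
    have e : cm x (y :: l) = cm ⁅x, y⁆ l := rfl
    rw [e, List.length_cons, add_comm l.length 1, ← add_assoc]
    apply ih ⁅x, y⁆ (i + 1)
    · rw [commutatorElement_def]
      exact K.mul_mem (K.mul_mem (K.mul_mem hx hy) (K.inv_mem hx)) (K.inv_mem hy)
    · have e2 : ((((⁅x, y⁆ : PG p M H).right : H) : (Module.End (ZMod p) M)ˣ)) =
          ⁅((x.right : H) : (Module.End (ZMod p) M)ˣ), ((y.right : H) : (Module.End (ZMod p) M)ˣ)⁆ := by
        have e3 : (⁅x, y⁆ : PG p M H).right = ⁅x.right, y.right⁆ :=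
          map_commutatorElement (SemidirectProduct.rightHom : PG p M H →* H) x y
        rw [e3]
        exact map_commutatorElement H.subtype x.right y.right
      rw [e2]
      exact comm_step_29347 p H1 i _ _ (hK x hx) (hK y hy) h
    · intro z hz
      exact hl z (List.mem_cons_of_mem _ hz)

theorem cm_left_29347 (p : ℕ) (M : Type) [AddCommGroup M] [Module (ZMod p) M]
    (H : Subgroup (Module.End (ZMod p) M)ˣ) (H1 : Subgroup (Module.End (ZMod p) M)ˣ)
    (K : Subgroup (PG p M H))
    (hK : ∀ y ∈ K, ((y.right : H) : (Module.End (ZMod p) M)ˣ) ∈ H1) (l : List (PG p M H)) :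
    (∀ y ∈ l, y ∈ K) → ∃ T ∈ II p H1 l.length, ∀ m : M,
      cm (SemidirectProduct.inl (Multiplicative.ofAdd m) : PG p M H) l =
        SemidirectProduct.inl (Multiplicative.ofAdd (T m)) := by
  obtain ⟨hone, hmul, _, h0, h1⟩ := II_facts p H1
  induction l with
  | nil =>
    intro _
    exact ⟨1, hone, fun m => rfl⟩
  | cons y l ih =>
    intro hl
    have hy := hl y (List.mem_cons_self ..)
    obtain ⟨T, hT, hTm⟩ := ih fun z hz => hl z (List.mem_cons_of_mem _ hz)
    refine ⟨T * (1 - (((y.right : H) : (Module.End (ZMod p) M)ˣ) : Module.End (ZMod p) M)), ?_, ?_⟩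
    · rw [List.length_cons]
      apply hmul _ _ _ _ hT
      rw [← neg_sub]
      exact Submodule.neg_mem _ (h1 _ (hK y hy))
    · intro m
      have e : cm (SemidirectProduct.inl (Multiplicative.ofAdd m) : PG p M H) (y :: l) =
        cm ⁅(SemidirectProduct.inl (Multiplicative.ofAdd m) : PG p M H), y⁆ l := rfl
      rw [e, comm_inl_29347, hTm]
      rfl

theorem pg_bound (p : ℕ) (M : Type) [AddCommGroup M] [Module (ZMod p) M]
    (H : Subgroup (Module.End (ZMod p) M)ˣ) (q D : ℕ)
    (hD : ∀ g : Fin q → (Module.End (ZMod p) M)ˣ, (∀ i, g i ∈ H) →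
      II p (Subgroup.closure (Set.range g)) D = ⊥) (s : Fin q → PG p M H)
    (x : PG p M H) (hx : x ∈ Subgroup.closure (Set.range s)) (l : List (PG p M H))
    (hl : ∀ y ∈ l, y ∈ Subgroup.closure (Set.range s)) (hlen : l.length = 2 * D) :
    cm x l = 1 := by
  obtain ⟨g, hg⟩ : ∃ g : Fin q → (Module.End (ZMod p) M)ˣ,
    ∀ i, g i = (((s i).right : H) : (Module.End (ZMod p) M)ˣ) := ⟨_, fun _ => rfl⟩
  have hgH : ∀ i, g i ∈ H := by
    intro i
    rw [hg]
    exact (s i).right.2
  have hbot := hD g hgH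
  obtain ⟨H1, hH1⟩ : ∃ H1, H1 = Subgroup.closure (Set.range g) := ⟨_, rfl⟩
  rw [← hH1] at hbot
  have hK : ∀ y ∈ Subgroup.closure (Set.range s),
      ((y.right : H) : (Module.End (ZMod p) M)ˣ) ∈ H1 := by
    intro y hy
    have h1 : Subgroup.closure (Set.range s) ≤
        H1.comap (H.subtype.comp (SemidirectProduct.rightHom : PG p M H →* H)) := by
      rw [Subgroup.closure_le]
      rintro _ ⟨i, rfl⟩
      show (((s i).right : H) : (Module.End (ZMod p) M)ˣ) ∈ H1
      rw [← hg, hH1]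
      exact Subgroup.subset_closure ⟨i, rfl⟩
    exact h1 hy
  have hsplit : l = l.take D ++ l.drop D := (List.take_append_drop D l).symm
  rw [hsplit, cm_append_29347]
  have h2 := cm_right_29347 p M H H1 _ hK (l.take D) x 0 hx
    ((II_facts p H1).2.2.1 (Nat.zero_le 1) ((II_facts p H1).2.2.2.2 _ (hK x hx)))
    (fun y hy => hl y (List.mem_of_mem_take hy))
  have hlen1 : (l.take D).length = D := by
    rw [List.length_take]
    omega
  have hlen2 : (l.drop D).length = D := by
    rw [List.length_drop]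
    omega
  rw [hlen1, zero_add, hbot, Submodule.mem_bot, sub_eq_zero] at h2
  generalize cm x (l.take D) = z at h2
  have hz : z.right = 1 := by
    apply Subtype.ext
    apply Units.ext
    exact h2
  have hz2 : z = SemidirectProduct.inl (Multiplicative.ofAdd z.left.toAdd) := by
    apply SemidirectProduct.ext
    · rfl
    · rw [hz]
      rfl
  obtain ⟨T, hT, hTm⟩ := cm_left_29347 p M H H1 _ hK (l.drop D)
    (fun y hy => hl y (List.mem_of_mem_drop hy))
  rw [hlen2, hbot, Submodule.mem_bot] at hT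
  rw [hz2, hTm, hT]
  rfl

end Pool.Agent.Helper730.LN6
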