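import Mathlib

set_option autoImplicit false

open scoped commutatorElement

namespace Pool.Agent.Helper730.LN6

/-- multilinear evaluation -/
def ev {K A : Type} [Field K] [Ring A] [Algebra K A] {n : ℕ} (f : Equiv.Perm (Fin n) → K)
    (x : Fin n → A) : A := ∑ σ : Equiv.Perm (Fin n), f σ • (List.ofFn (fun i => x (σ i))).prod

/-- closed under sections of finite products -/
def SecC (C : (Γ : Type) → [Group Γ] → Prop) : Prop :=
  ∀ (ι : Type) (Γ : ι → Type) (Δ K : Type) [∀ i, Group (Γ i)] [Group Δ] [Group K] [Finite ι]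
    (Θ : K →* ((i : ι) → Γ i)) (f : K →* Δ),
    (∀ i, C (Γ i)) → Function.Surjective f → Θ.ker ≤ f.ker → C Δ

/-- linear automorphisms acting on the multiplicative copy of the module -/
def actU (p : ℕ) (M : Type) [AddCommGroup M] [Module (ZMod p) M] :
    (Module.End (ZMod p) M)ˣ →* MulAut (Multiplicative M) where
  toFun u :=
    { toFun := fun m => Multiplicative.ofAdd ((u : Module.End (ZMod p) M) m.toAdd)
      invFun := fun m => Multiplicative.ofAdd (((u⁻¹ : (Module.End (ZMod p) M)ˣ) :
        Module.End (ZMod p) M) m.toAdd)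
      left_inv := fun m => by
        change Multiplicative.ofAdd ((((u⁻¹ : (Module.End (ZMod p) M)ˣ) :
          Module.End (ZMod p) M) * (u : Module.End (ZMod p) M)) m.toAdd) = m
        rw [Units.inv_mul]
        rfl
      right_inv := fun m => by
        change Multiplicative.ofAdd (((u : Module.End (ZMod p) M) *
          ((u⁻¹ : (Module.End (ZMod p) M)ˣ) : Module.End (ZMod p) M)) m.toAdd) = m
        rw [Units.mul_inv]
        rfl
      map_mul' := fun a b => by
        change Multiplicative.ofAdd ((u : Module.End (ZMod p) M) (a.toAdd + b.toAdd)) = _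
        rw [map_add]
        rfl }
  map_one' := by
    ext x
    rfl
  map_mul' a b := by
    ext x
    rfl

theorem actU_apply (p : ℕ) (M : Type) [AddCommGroup M] [Module (ZMod p) M]
    (u : (Module.End (ZMod p) M)ˣ) (m : M) :
    actU p M u (Multiplicative.ofAdd m) =
      Multiplicative.ofAdd ((u : Module.End (ZMod p) M) m) := rfl

/-- the split extension of a module by a group of linear automorphisms -/
abbrev PG (p : ℕ) (M : Type) [AddCommGroup M] [Module (ZMod p) M]
    (H : Subgroup (Module.End (ZMod p) M)ˣ) : Type :=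
  Multiplicative M ⋊[(actU p M).comp H.subtype] H

/-- units of an algebra acting by left multiplication -/
def regU (p : ℕ) (B : Type) [Ring B] [Algebra (ZMod p) B] :
    Bˣ →* (Module.End (ZMod p) B)ˣ :=
  Units.map ((Algebra.lmul (ZMod p) B : B →ₐ[ZMod p] Module.End (ZMod p) B) :
    B →* Module.End (ZMod p) B)

/-- `u i - 1` -/
def lt {B : Type} [Ring B] {n : ℕ} (u : Fin n → Bˣ) (i : Fin n) : B := (u i : B) - 1

/-- a multilinear system of `n` letters with unipotency index at most `k` -/
structure MSys (C : (Γ : Type) → [Group Γ] → Prop) (p k n : ℕ) (B : Type) [Ring B]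
    [Algebra (ZMod p) B] (u : Fin n → Bˣ) : Prop where
  fin : Finite B
  rep : ∀ (i : Fin n) (b : B), lt u i * b * lt u i = 0
  gen : Algebra.adjoin (ZMod p) (Set.range (lt u)) = ⊤
  pc : C (PG p B ((regU p B).comp (FreeGroup.lift u)).range)
  idx : ∀ w : FreeGroup (Fin n), (((FreeGroup.lift u w : Bˣ) : B) - 1) ^ k = 0

/-- multilinear relations valid in all systems -/
def Rel (C : (Γ : Type) → [Group Γ] → Prop) (p k n : ℕ) [Fact p.Prime]
    (f : Equiv.Perm (Fin n) → ZMod p) : Prop :=
  ∀ (B : Type) [Ring B] [Algebra (ZMod p) B] (u : Fin n → Bˣ), MSys C p k n B u →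
    ev f (lt u) = 0

/-- there are systems with arbitrarily long nonzero products -/
def NonNil (C : (Γ : Type) → [Group Γ] → Prop) (p k : ℕ) : Prop :=
  ∀ n : ℕ, ∃ (B : Type) (_ : Ring B) (_ : Algebra (ZMod p) B) (u : Fin n → Bˣ),
    MSys C p k n B u ∧ (List.ofFn (lt u)).prod ≠ 0

/-- evaluation of a noncommutative polynomial, given by its coefficients on words -/
noncomputable def evW {K B : Type} [Field K] [Ring B] [Algebra K B] {n : ℕ} (x : Fin n → B)
    (ω : List (Fin n) →₀ K) : B := ω.sum (fun w a => a • (w.map x).prod)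

/-- the span of the products of at least `j` elements `h - 1`, `h ∈ H` -/
def II (p : ℕ) {E : Type} [Ring E] [Algebra (ZMod p) E] (H : Subgroup Eˣ) (j : ℕ) :
    Submodule (ZMod p) E :=
  Submodule.span (ZMod p) {b : E | ∃ l : List Eˣ, (∀ h ∈ l, h ∈ H) ∧ j ≤ l.length ∧
    b = (l.map (fun h => (h : E) - 1)).prod}

/-- the evaluations of the free group algebra at a subset of the letters -/
noncomputable def alS (p : ℕ) {E : Type} [Ring E] [Algebra (ZMod p) E] {n : ℕ} (g : Fin n → Eˣ)
    (S : Finset (Fin n)) : MonoidAlgebra (ZMod p) (FreeGroup (Fin n)) →ₐ[ZMod p] E :=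
  MonoidAlgebra.lift (ZMod p) E (FreeGroup (Fin n))
    ((Units.coeHom E).comp (FreeGroup.lift (fun i => if i ∈ S then g i else 1)))

/-- right-normed iterated commutator -/
def rn {G : Type} [Group G] {n : ℕ} (g : Fin n → G) (s : G) : G :=
  (List.ofFn g).foldr (fun a b => ⁅a, b⁆) s

/-- iterated commutator `⁅…⁅⁅x, l₁⁆, l₂⁆, …⁆` -/
def cm {G : Type*} [Group G] (x : G) (l : List G) : G := l.foldl (fun a b => ⁅a, b⁆) x

end Pool.Agent.Helper730.LN6
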