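import Pool.Agent.Helper730.LNV5
import Pool.Agent.Helper730.LN6D

set_option autoImplicit false

open scoped commutatorElement

namespace Pool.Agent.Helper730.LN6

open Pool.Agent.Helper730.LNV (IsVar VF)

theorem secC_VF {p : ℕ}
    {V : (G : Type) → [TopologicalSpace G] → [Group G] → [IsTopologicalGroup G] → Prop}
    (hV : IsVar p V) : SecC (fun Γ [Group Γ] => VF V Γ) := by
  intro ι Γ Δ K _ _ _ _ Θ f hΓ hf hker
  letI tΓ : ∀ i, TopologicalSpace (Γ i) := fun i => (hΓ i).choose
  haveI dΓ : ∀ i, DiscreteTopology (Γ i) := fun i => (hΓ i).choose_spec.choose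
  haveI gΓ : ∀ i, IsTopologicalGroup (Γ i) := fun i => (hΓ i).choose_spec.choose_spec.choose
  have hVΓ : ∀ i, V (Γ i) := fun i => (hΓ i).choose_spec.choose_spec.choose_spec
  have hfin : ∀ i, Finite (Γ i) := by
    intro i
    obtain ⟨cpt, t2, td, _⟩ := hV.proP (Γ i) (hVΓ i)
    exact finite_of_compact_of_discrete
  have hVP : V ((i : ι) → Γ i) := hV.prod ι Γ hVΓ
  have hdP : DiscreteTopology ((i : ι) → Γ i) := inferInstance
  have hVR : V (↥Θ.range) := hV.sub ((i : ι) → Γ i) hVP Θ.range (isClosed_discrete _)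
  have hfinR : Finite Θ.range := inferInstance
  have hsurj : Function.Surjective Θ.rangeRestrict := Θ.rangeRestrict_surjective
  let g : Θ.range →* Δ := Θ.rangeRestrict.liftOfSurjective hsurj
    ⟨f, by rw [MonoidHom.ker_rangeRestrict]; exact hker⟩
  have hg : ∀ k, g (Θ.rangeRestrict k) = f k := fun k =>
    MonoidHom.liftOfRightInverse_comp_apply _ _ _ _ _
  have hgs : Function.Surjective g := by
    intro d
    obtain ⟨k, rfl⟩ := hf d
    exact ⟨_, hg k⟩
  let tΔ : TopologicalSpace Δ := ⊥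
  have dΔ : DiscreteTopology Δ := ⟨rfl⟩
  have gΔ : IsTopologicalGroup Δ :=
    { continuous_mul := continuous_of_discreteTopology
      continuous_inv := continuous_of_discreteTopology }
  refine ⟨tΔ, dΔ, gΔ, ?_⟩
  have hfinΔ : Finite Δ := Finite.of_surjective g hgs
  refine hV.quot (↥Θ.range) Δ hVR ⟨inferInstance, inferInstance, inferInstance, ?_⟩ g
    continuous_of_discreteTopology hgs
  intro N hN _
  obtain ⟨k, hk⟩ := (hV.proP _ hVR).2.2.2 (N.comap g) (hN.comap g) (isOpen_discrete _)
  refine ⟨k, ?_⟩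
  rw [← hk, Subgroup.index_comap_of_surjective _ hgs]

/-- every `q`-generated subgroup satisfies the iterated commutator law with `D' q` entries -/
def LawP (D' : ℕ → ℕ) (G : Type) [Group G] : Prop :=
  ∀ (q : ℕ) (s : Fin q → G) (x : G), x ∈ Subgroup.closure (Set.range s) →
    ∀ l : List G, (∀ y ∈ l, y ∈ Subgroup.closure (Set.range s)) → l.length = D' q → cm x l = 1

theorem map_cm' {G H : Type} [Group G] [Group H] (f : G →* H) (l : List G) (x : G) :
    f (cm x l) = cm (f x) (l.map f) := by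
  induction l generalizing x with
  | nil => rfl
  | cons y l ih =>
    change f (cm ⁅x, y⁆ l) = cm ⁅f x, f y⁆ (l.map f)
    rw [ih, map_commutatorElement]

theorem map_cl {G H : Type} [Group G] [Group H] (f : G →* H) {q : ℕ} (s : Fin q → G) :
    (Subgroup.closure (Set.range s)).map f = Subgroup.closure (Set.range (fun i => f (s i))) := by
  rw [MonoidHom.map_closure, ← Set.range_comp]
  rfl

theorem lawP_hom {D' : ℕ → ℕ} {G H : Type} [Group G] [Group H] (f : G →* H) (h : LawP D' H)
    (q : ℕ) (s : Fin q → G) (x : G) (hx : x ∈ Subgroup.closure (Set.range s)) (l : List G)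
    (hl : ∀ y ∈ l, y ∈ Subgroup.closure (Set.range s)) (hlen : l.length = D' q) :
    f (cm x l) = 1 := by
  rw [map_cm']
  refine h q (fun i => f (s i)) (f x) ?_ (l.map f) ?_ (by rw [List.length_map, hlen])
  · rw [← map_cl]
    exact Subgroup.mem_map_of_mem f hx
  · intro y hy
    rw [List.mem_map] at hy
    obtain ⟨z, hz, rfl⟩ := hy
    rw [← map_cl]
    exact Subgroup.mem_map_of_mem f (hl z hz)

theorem list_lift {G H : Type} [Group G] [Group H] (f : G →* H) (A : Subgroup G) (l : List H)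
    (hl : ∀ y ∈ l, y ∈ A.map f) : ∃ l' : List G, l'.map f = l ∧ ∀ y ∈ l', y ∈ A := by
  induction l with
  | nil => exact ⟨[], rfl, by simp⟩
  | cons y l ih =>
    obtain ⟨l', h1, h2⟩ := ih (fun z hz => hl z (List.mem_cons_of_mem _ hz))
    obtain ⟨z, hz, hzy⟩ := hl y List.mem_cons_self
    refine ⟨z :: l', by rw [List.map_cons, h1, hzy], ?_⟩
    intro w hw
    rcases List.mem_cons.1 hw with rfl | hw
    · exact hz
    · exact h2 w hw

theorem lawP_surj {D' : ℕ → ℕ} {G H : Type} [Group G] [Group H] (f : G →* H)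
    (hf : Function.Surjective f) (h : LawP D' G) : LawP D' H := by
  intro q s x hx l hl hlen
  choose s' hs' using fun i => hf (s i)
  have hcl : Subgroup.closure (Set.range s) = (Subgroup.closure (Set.range s')).map f := by
    rw [map_cl]
    congr 2
    funext i
    exact (hs' i).symm
  rw [hcl] at hx
  obtain ⟨x', hx', rfl⟩ := hx
  obtain ⟨l', hl1, hl2⟩ := list_lift f _ l (fun y hy => by rw [← hcl]; exact hl y hy)
  have := h q s' x' hx' l' hl2 (by rw [← hlen, ← hl1, List.length_map])
  rw [← hl1, ← map_cm', this, map_one]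

theorem isVar_WW {p : ℕ}
    {V : (G : Type) → [TopologicalSpace G] → [Group G] → [IsTopologicalGroup G] → Prop}
    (hV : IsVar p V) (D' : ℕ → ℕ) :
    IsVar p (fun G [TopologicalSpace G] [Group G] [IsTopologicalGroup G] => V G ∧ LawP D' G) := by
  refine ⟨?_, ?_, ?_, ?_⟩
  · intro G _ _ _ h
    exact hV.proP G h.1
  · intro G _ _ _ h H hH
    refine ⟨hV.sub G h.1 H hH, ?_⟩
    intro q s x hx l hl hlen
    exact Subgroup.subtype_injective H ((lawP_hom H.subtype h.2 q s x hx l hl hlen).trans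
      (map_one _).symm)
  · intro G H _ _ _ _ _ _ h hP f hfc hfs
    exact ⟨hV.quot G H h.1 hP f hfc hfs, lawP_surj f hfs h.2⟩
  · intro ι G _ _ _ h
    refine ⟨hV.prod ι G (fun i => (h i).1), ?_⟩
    intro q s x hx l hl hlen
    funext i
    exact lawP_hom (Pi.evalMonoidHom G i) (h i).2 q s x hx l hl hlen

theorem lawP_nilp {p : ℕ}
    {V : (G : Type) → [TopologicalSpace G] → [Group G] → [IsTopologicalGroup G] → Prop}
    (hV : IsVar p V) (D' : ℕ → ℕ) (G : Type) [TopologicalSpace G] [Group G]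
    [IsTopologicalGroup G] (hG : V G) (hL : LawP D' G) (S : Finset G)
    (hS : closure ((Subgroup.closure (S : Set G) : Subgroup G) : Set G) = Set.univ) :
    Group.IsNilpotent G := by
  haveI : T2Space G := (hV.proP G hG).2.1
  let s : Fin S.card → G := fun i => ((S.equivFin.symm i : S) : G)
  have hs : Set.range s = (S : Set G) := by
    ext y
    constructor
    · rintro ⟨i, rfl⟩
      exact (S.equivFin.symm i).2
    · intro hy
      exact ⟨S.equivFin ⟨y, hy⟩, by simp [s]⟩
  have h1 := LNV.dense_nilp (Subgroup.closure (S : Set G)) (dense_iff_closure_eq.2 hS)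
    (D' S.card) (by
      intro x hx l hl hlen
      refine hL S.card s x ?_ l ?_ hlen
      · rw [hs]; exact hx
      · rw [hs]; exact hl)
  exact ⟨D' S.card, h1⟩

theorem prod_of_ucs {p n : ℕ} {B : Type} [Ring B] [Algebra (ZMod p) B] (u : Fin n → Bˣ) (m : ℕ)
    (h : Subgroup.upperCentralSeries (PG p B ((regU p B).comp (FreeGroup.lift u)).range) m = ⊤)
    (hm : m = n) : (List.ofFn (lt u)).prod = 0 := by
  have h3 := ucs_pair p B _ m h (List.ofFn (fun i => regU p B (u i))) (by
    intro x hx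
    rw [List.mem_ofFn'] at hx
    obtain ⟨i, rfl⟩ := hx
    exact ⟨FreeGroup.of i, by simp⟩) ((List.length_ofFn ..).trans hm.symm)
  have h4 : (List.map (fun h : (Module.End (ZMod p) B)ˣ => (h : Module.End (ZMod p) B) - 1)
        (List.ofFn (fun i => regU p B (u i)))) =
      (List.ofFn (lt u)).map (Algebra.lmul (ZMod p) B) := by
    rw [List.map_ofFn, List.map_ofFn]
    congr 1
    funext i
    change (Algebra.lmul (ZMod p) B (u i : B)) - 1 = Algebra.lmul (ZMod p) B ((u i : B) - 1)
    rw [map_sub, map_one]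
  rw [nn_do, h4, ← map_list_prod] at h3
  have h5 := LinearMap.congr_fun h3 1
  simpa using h5

theorem core_bound {C : (Γ : Type) → [Group Γ] → Prop} (hC : SecC C) {p : ℕ} [Fact p.Prime]
    (hfin : ∀ (Γ : Type) [Group Γ], C Γ → Finite Γ ∧ IsPGroup p Γ) (c : ℕ)
    (hmet : ∀ (Γ : Type) [Group Γ], C Γ → derivedSeries Γ 2 = ⊥ →
      Subgroup.upperCentralSeries Γ c = ⊤)
    (hunb : ∀ n : ℕ, ∃ (Γ : Type) (_ : Group Γ), C Γ ∧ Subgroup.upperCentralSeries Γ n ≠ ⊤) :
    ∃ D' : ℕ → ℕ, ∀ n : ℕ, ∃ (Γ : Type) (_ : Group Γ), C Γ ∧ LawP D' Γ ∧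
      Subgroup.upperCentralSeries Γ n ≠ ⊤ := by
  have hidx : ∀ (M : Type) [AddCommGroup M] [Module (ZMod p) M]
      (H : Subgroup (Module.End (ZMod p) M)ˣ), C (PG p M H) →
      ∀ h ∈ H, ((h : Module.End (ZMod p) M) - 1) ^ c = 0 := by
    intro M _ _ H hM h hh
    have h1 : Subgroup.zpowers h ≤ H := by rwa [Subgroup.zpowers_le]
    have h2 := pair_sub hC p M H (Subgroup.zpowers h) h1 hM
    have h3 := hmet _ h2 (pair_metab p M _ (by
      intro a ha b hb
      obtain ⟨i, rfl⟩ := Subgroup.mem_zpowers_iff.1 ha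
      obtain ⟨j, rfl⟩ := Subgroup.mem_zpowers_iff.1 hb
      rw [← zpow_add, ← zpow_add, add_comm]))
    have h4 := ucs_pair p M _ c h3 (List.replicate c h) (by
      intro x hx
      rw [List.eq_of_mem_replicate hx]
      exact Subgroup.mem_zpowers h) (List.length_replicate ..)
    rwa [nn_do, List.map_replicate, List.prod_replicate] at h4
  have hNN : NonNil C p c := by
    refine nonnil_of_pairs hC c hfin hidx ?_
    intro n
    obtain ⟨Γ, _, hΓ, hn⟩ := hunb n
    obtain ⟨Δ, _, hΔ, h1, h2, h3, g, s, hgs⟩ := exact_class (C := C)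
      (fun Γ Δ _ _ f hf hΓ => hC Unit (fun _ => Γ) Δ Γ (MonoidHom.pi (fun _ => MonoidHom.id Γ)) f
        (fun _ => hΓ) hf (by
          intro x hx
          have h1 : x = 1 := congrFun (MonoidHom.mem_ker.1 hx) ()
          rw [h1, MonoidHom.mem_ker, map_one])) p hfin n Γ hΓ hn
    obtain ⟨ι, _, τ, x, P, δ, hP, hδ, hx, hr, hrn⟩ := cube_detect Δ n h1 g s
    let _ : CommGroup ((⊤ : Subgroup Δ).lowerCentralSeries n) :=
      { (inferInstance : Group ((⊤ : Subgroup Δ).lowerCentralSeries n)) with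
        mul_comm := fun a b => Subtype.ext (h3 a a.2 b) }
    refine pair_of_cube hC p Δ hΔ n ι τ x P hP hx ((⊤ : Subgroup Δ).lowerCentralSeries n)
      (fun z => Subtype.ext (h2 z z.2))
      (MonoidHom.codRestrict δ ((⊤ : Subgroup Δ).lowerCentralSeries n) hδ) hr ?_
    intro h
    have h4 : δ ⟨rn τ x, hr⟩ = 1 := congrArg Subtype.val h
    rw [hrn] at h4
    exact hgs h4
  classical
  have hex : ∃ k, NonNil C p k := ⟨c, hNN⟩
  obtain ⟨k, hk, hmin⟩ : ∃ k, NonNil C p k ∧ ∀ m < k, ¬ NonNil C p m :=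
    ⟨Nat.find hex, Nat.find_spec hex, fun m hm => Nat.find_min hex hm⟩
  cases k with
  | zero =>
    exfalso
    obtain ⟨B, _, _, u, hB, hne⟩ := hk 0
    have h1 := hB.idx 1
    rw [pow_zero] at h1
    apply hne
    rw [List.ofFn_zero, List.prod_nil, h1]
  | succ k =>
    have h1 := hmin k (Nat.lt_succ_self k)
    unfold NonNil at h1
    push Not at h1
    obtain ⟨N, hN⟩ := h1
    obtain ⟨f2, hf2, hR2⟩ := exists_f2 hC k N (fun B _ _ u hB => hN B _ _ u hB)
    obtain ⟨f1, hf1, hR1⟩ := exists_f1 hC (k + 1) c (by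
      intro B _ _ u hB hcomm
      have h2 := hmet _ hB.pc (pair_metab p B _ (by
        rintro _ ⟨a, rfl⟩ _ ⟨b, rfl⟩
        rw [← map_mul, ← map_mul]
        apply Units.ext
        apply LinearMap.ext
        intro y
        change ((FreeGroup.lift u (a * b) : Bˣ) : B) * y = ((FreeGroup.lift u (b * a) : Bˣ) : B) * y
        rw [map_mul, map_mul, Units.val_mul, Units.val_mul,
          hcomm (FreeGroup.lift u a : B) (FreeGroup.lift u b : B)]))
      exact prod_of_ucs u c h2 rfl)
    have hD : ∀ q, ∃ D, ∀ (M : Type) [AddCommGroup M] [Module (ZMod p) M]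
        (H : Subgroup (Module.End (ZMod p) M)ˣ), C (PG p M H) →
        (∀ h ∈ H, ((h : Module.End (ZMod p) M) - 1) ^ (k + 1) = 0) →
        ∀ g : Fin q → (Module.End (ZMod p) M)ˣ, (∀ i, g i ∈ H) →
        II p (Subgroup.closure (Set.range g)) D = ⊥ := by
      intro q
      obtain ⟨D, hD⟩ := words_vanish c f1 hf1 N f2 hf2 q
      refine ⟨D, ?_⟩
      intro M _ _ H hM hk g hg
      have hle : Subgroup.closure (Set.range g) ≤ H := by
        rw [Subgroup.closure_le]
        rintro _ ⟨i, rfl⟩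
        exact hg i
      have hM' := pair_sub hC p M H _ hle hM
      obtain ⟨hf, hpg⟩ := hfin _ hM'
      have hMf : Finite M := by
        have hi : Function.Injective (fun m : Multiplicative M => (SemidirectProduct.inl m :
          PG p M (Subgroup.closure (Set.range g)))) := SemidirectProduct.inl_injective
        exact Finite.of_injective _ hi
      obtain ⟨m, hm⟩ := pair_nil p M (Subgroup.closure (Set.range g)) hpg
      refine II_stab p g D ?_ m hm
      refine hD (Module.End (ZMod p) M) (Subgroup.closure (Set.range g)) ?_ ?_ g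
        (fun i => Subgroup.subset_closure ⟨i, rfl⟩)
      · intro g' d' hg' hd' hgd'
        obtain ⟨B, _, _, u, hB, hf⟩ := cube_sys hC M _ hM'
          (fun h hh => hk h (hle hh)) g' hg' d' hd' hgd'
        exact hf f1 (hR1 B u hB)
      · intro g' d' hg' hd' hgd'
        obtain ⟨B, _, _, u, hB, hf⟩ := cube_sys hC M _ hM'
          (fun h hh => hk h (hle hh)) g' hg' d' hd' hgd'
        exact hf f2 (hR2 B u hB)
    choose D hD using hD
    refine ⟨fun q => 2 * D q, fun n => ?_⟩
    obtain ⟨B, _, _, u, hB, hne⟩ := hk n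
    refine ⟨PG p B ((regU p B).comp (FreeGroup.lift u)).range, inferInstance, hB.pc, ?_, ?_⟩
    · intro q s x hx l hl hlen
      refine pg_bound p B _ q (D q) ?_ s x hx l hl hlen
      intro g hg
      refine hD q B _ hB.pc ?_ g hg
      rintro _ ⟨w, rfl⟩
      have h5 : (((regU p B).comp (FreeGroup.lift u) w : (Module.End (ZMod p) B)ˣ) :
          Module.End (ZMod p) B) - 1 =
          Algebra.lmul (ZMod p) B (((FreeGroup.lift u w : Bˣ) : B) - 1) := by
        rw [map_sub, map_one]
        rfl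
      rw [h5, ← map_pow, hB.idx, map_zero]
    · intro htop
      exact hne (prod_of_ucs u n htop rfl)

theorem case2 {p : ℕ} (hp : p.Prime)
    {V : (G : Type) → [TopologicalSpace G] → [Group G] → [IsTopologicalGroup G] → Prop}
    (hV : IsVar p V) (c : ℕ)
    (hc : ∀ (G : Type) [TopologicalSpace G] [Group G] [IsTopologicalGroup G],
      V G → derivedSeries G 2 = ⊥ → Subgroup.upperCentralSeries G c = ⊤)
    (h : ¬ ∃ c : ℕ, ∀ (G : Type) [TopologicalSpace G] [Group G] [IsTopologicalGroup G],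
      V G → Subgroup.upperCentralSeries G c = ⊤) :
    ∃ W : (G : Type) → [TopologicalSpace G] → [Group G] → [IsTopologicalGroup G] → Prop,
      IsVar p W ∧
      (∀ (G : Type) [TopologicalSpace G] [Group G] [IsTopologicalGroup G], W G → V G) ∧
      (¬ ∃ c : ℕ, ∀ (G : Type) [TopologicalSpace G] [Group G] [IsTopologicalGroup G],
          W G → Subgroup.upperCentralSeries G c = ⊤) ∧
      (∀ (G : Type) [TopologicalSpace G] [Group G] [IsTopologicalGroup G], W G →
          ∀ S : Finset G, closure ((Subgroup.closure (S : Set G) : Subgroup G) : Set G) = Set.univ →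
          Group.IsNilpotent G) := by
  haveI : Fact p.Prime := ⟨hp⟩
  obtain ⟨D', hD'⟩ := core_bound (C := fun Γ [Group Γ] => VF V Γ) (secC_VF hV) (p := p)
    (fun Γ _ hΓ => LNV.VF_fin hV Γ hΓ) c
    (by
      intro Γ _ hΓ hd
      obtain ⟨_, _, _, hv⟩ := hΓ
      exact hc Γ hv hd)
    (by
      intro n
      by_contra hcon
      push Not at hcon
      apply h
      refine ⟨n, fun G _ _ _ hG => ?_⟩
      rw [Subgroup.eq_top_iff']
      intro x
      rw [LNV.mem_ucs_iff]
      intro l hl
      by_contra hne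
      obtain ⟨Γ, _, _, _, hVF, f, hf, hfy⟩ := LNV.exists_finite_quot hp hV G hG (LNV.cm x l) hne
      have h1 := hcon Γ _ hVF
      apply hfy
      rw [LNV.map_cm]
      refine (LNV.mem_ucs_iff n (f x)).1 ?_ (l.map f) (by rw [List.length_map, hl])
      rw [h1]
      trivial)
  refine ⟨fun G [TopologicalSpace G] [Group G] [IsTopologicalGroup G] => V G ∧ LawP D' G,
    isVar_WW hV D', fun G _ _ _ hG => hG.1, ?_, ?_⟩
  · rintro ⟨n, hn⟩
    obtain ⟨Γ, _, ⟨_, _, _, hv⟩, hL, hucs⟩ := hD' n
    exact hucs (hn Γ ⟨hv, hL⟩)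
  · intro G _ _ _ hG S hS
    exact lawP_nilp hV D' G hG.1 hG.2 S hS

theorem main_all {p : ℕ} (hp : p.Prime)
    {V : (G : Type) → [TopologicalSpace G] → [Group G] → [IsTopologicalGroup G] → Prop}
    (hV : IsVar p V)
    (h : ¬ ∃ c : ℕ, ∀ (G : Type) [TopologicalSpace G] [Group G] [IsTopologicalGroup G],
      V G → Subgroup.upperCentralSeries G c = ⊤) :
    ∃ W : (G : Type) → [TopologicalSpace G] → [Group G] → [IsTopologicalGroup G] → Prop,
      IsVar p W ∧
      (∀ (G : Type) [TopologicalSpace G] [Group G] [IsTopologicalGroup G], W G → V G) ∧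
      (¬ ∃ c : ℕ, ∀ (G : Type) [TopologicalSpace G] [Group G] [IsTopologicalGroup G],
          W G → Subgroup.upperCentralSeries G c = ⊤) ∧
      (∀ (G : Type) [TopologicalSpace G] [Group G] [IsTopologicalGroup G], W G →
          ∀ S : Finset G, closure ((Subgroup.closure (S : Set G) : Subgroup G) : Set G) = Set.univ →
          Group.IsNilpotent G) := by
  by_cases hmet : ∃ c : ℕ, ∀ (G : Type) [TopologicalSpace G] [Group G] [IsTopologicalGroup G],
      V G → derivedSeries G 2 = ⊥ → Subgroup.upperCentralSeries G c = ⊤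
  · obtain ⟨c, hc⟩ := hmet
    exact case2 hp hV c hc h
  · obtain ⟨W, h1, h2, h3, h4⟩ := LNV.main hp hV 2 hmet
    exact ⟨W, h1, fun G _ _ _ hG => (h2 G hG).1, h3, h4⟩

end Pool.Agent.Helper730.LN6
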