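import Mathlib

set_option autoImplicit false

open scoped commutatorElement

namespace Pool.Agent.Helper730.LNV

/-- iterated commutator `⁅…⁅⁅x, l₁⁆, l₂⁆, …⁆` -/
def cm {G : Type*} [Group G] (x : G) (l : List G) : G := l.foldl (fun a b => ⁅a, b⁆) x

/-- The conditions on a topological group that say it is a pro-`p` group. -/
def ProP (p : ℕ) (G : Type) [TopologicalSpace G] [Group G] : Prop :=
  CompactSpace G ∧ T2Space G ∧ TotallyDisconnectedSpace G ∧
    ∀ N : Subgroup G, N.Normal → IsOpen (N : Set G) → ∃ k : ℕ, N.index = p ^ k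

/-- `V` is a variety of pro-`p` groups: a class of pro-`p` groups closed under closed subgroups,
continuous images that are pro-`p` groups, and arbitrary Cartesian products. -/
structure IsVar (p : ℕ)
    (V : (G : Type) → [TopologicalSpace G] → [Group G] → [IsTopologicalGroup G] → Prop) :
    Prop where
  proP : ∀ (G : Type) [TopologicalSpace G] [Group G] [IsTopologicalGroup G], V G → ProP p G
  sub : ∀ (G : Type) [TopologicalSpace G] [Group G] [IsTopologicalGroup G], V G →
    ∀ H : Subgroup G, IsClosed (H : Set G) → V (↥H)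
  quot : ∀ (G H : Type) [TopologicalSpace G] [Group G] [IsTopologicalGroup G]
    [TopologicalSpace H] [Group H] [IsTopologicalGroup H], V G → ProP p H →
    ∀ f : G →* H, Continuous f → Function.Surjective f → V H
  prod : ∀ (ι : Type) (G : ι → Type) [∀ i, TopologicalSpace (G i)] [∀ i, Group (G i)]
    [∀ i, IsTopologicalGroup (G i)], (∀ i, V (G i)) → V ((i : ι) → G i)

/-- `Γ` with the discrete topology belongs to `V`. -/
def VF (V : (G : Type) → [TopologicalSpace G] → [Group G] → [IsTopologicalGroup G] → Prop)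
    (Γ : Type) [Group Γ] : Prop :=
  ∃ (_ : TopologicalSpace Γ) (_ : DiscreteTopology Γ) (_ : IsTopologicalGroup Γ), V Γ

/-- A class of groups closed under sections of finite direct powers. -/
def SecClosed (C : (Γ : Type) → [Group Γ] → Prop) : Prop :=
  ∀ (Γ Δ K ι : Type) [Group Γ] [Group Δ] [Group K] [Finite ι] (Θ : K →* (ι → Γ)) (f : K →* Δ),
    C Γ → Function.Surjective f → Θ.ker ≤ f.ker → C Δ

/-- The laws `⁅⁅a, b⁆, ⁅c, d⁆⁆ = 1`, `⁅x, y⁆ ^ p = 1`, `⁅⁅x, y⁆, z ^ p⁆ = 1`. -/
structure Laws (p : ℕ) (G : Type*) [Group G] : Prop where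
  metab : ∀ a b c d : G, ⁅⁅a, b⁆, ⁅c, d⁆⁆ = 1
  exp : ∀ x y : G, ⁅x, y⁆ ^ p = 1
  cent : ∀ x y z : G, ⁅⁅x, y⁆, z ^ p⁆ = 1

theorem mem_ucs_iff {G : Type*} [Group G] (n : ℕ) (x : G) :
    x ∈ Subgroup.upperCentralSeries G n ↔ ∀ l : List G, l.length = n → cm x l = 1 := by
  induction n generalizing x with
  | zero =>
    rw [Subgroup.upperCentralSeries_zero, Subgroup.mem_bot]
    constructor
    · rintro rfl l hl
      rw [List.length_eq_zero_iff] at hl
      subst hl
      rfl
    · intro h
      exact h [] rfl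
  | succ n ih =>
    rw [Subgroup.mem_upperCentralSeries_succ_iff]
    constructor
    · intro h l hl
      cases l with
      | nil => simp at hl
      | cons y l =>
        have h1 := (ih _).1 (h y) l (by simpa using hl)
        exact h1
    · intro h y
      rw [ih]
      intro l hl
      exact h (y :: l) (by simpa using hl)

theorem dn_cont {G : Type*} [TopologicalSpace G] [Group G] [IsTopologicalGroup G] (l : List G) :
    Continuous (fun x : G => cm x l) := by
  induction l with
  | nil => exact continuous_id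
  | cons y l ih =>
    have h1 : Continuous (fun x : G => ⁅x, y⁆) := by
      simp only [commutatorElement_def]
      fun_prop
    exact ih.comp h1

theorem dn_main {G : Type*} [TopologicalSpace G] [Group G] [IsTopologicalGroup G] [T2Space G]
    (D : Subgroup G) (hD : Dense (D : Set G)) (k : ℕ) :
    IsClosed (Subgroup.upperCentralSeries G k : Set G) ∧ ∀ x : G,
      x ∈ Subgroup.upperCentralSeries G k ↔
        ∀ l : List G, (∀ y ∈ l, y ∈ D) → l.length = k → cm x l = 1 := by
  have hcl : ∀ k, (∀ x : G, x ∈ Subgroup.upperCentralSeries G k ↔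
      ∀ l : List G, (∀ y ∈ l, y ∈ D) → l.length = k → cm x l = 1) →
      IsClosed (Subgroup.upperCentralSeries G k : Set G) := by
    intro k hk
    have : (Subgroup.upperCentralSeries G k : Set G)
        = ⋂ l : {l : List G // (∀ y ∈ l, y ∈ D) ∧ l.length = k}, {x : G | cm x l.1 = 1} := by
      ext x
      rw [Set.mem_iInter]
      constructor
      · intro hx l
        exact (hk x).1 hx l.1 l.2.1 l.2.2
      · intro h
        exact (hk x).2 fun l h1 h2 => h ⟨l, h1, h2⟩
    rw [this]
    exact isClosed_iInter fun l => isClosed_eq (dn_cont l.1) continuous_const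
  have hmain : ∀ k, ∀ x : G, x ∈ Subgroup.upperCentralSeries G k ↔
      ∀ l : List G, (∀ y ∈ l, y ∈ D) → l.length = k → cm x l = 1 := by
    intro k
    induction k with
    | zero =>
      intro x
      rw [Subgroup.upperCentralSeries_zero, Subgroup.mem_bot]
      constructor
      · rintro rfl l - hl
        rw [List.length_eq_zero_iff] at hl
        subst hl
        rfl
      · intro h
        exact h [] (by simp) rfl
    | succ k ih =>
      intro x
      have hc := hcl k ih
      rw [Subgroup.mem_upperCentralSeries_succ_iff]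
      constructor
      · intro h l hlD hl
        cases l with
        | nil => simp at hl
        | cons y l =>
          exact (ih _).1 (h y) l (fun z hz => hlD z (List.mem_cons_of_mem _ hz))
            (by simpa using hl)
      · intro h
        have h1 : IsClosed {y : G | x * y * x⁻¹ * y⁻¹ ∈ Subgroup.upperCentralSeries G k} :=
          hc.preimage (by fun_prop : Continuous fun y : G => x * y * x⁻¹ * y⁻¹)
        have h2 : (D : Set G) ⊆ {y : G | x * y * x⁻¹ * y⁻¹ ∈ Subgroup.upperCentralSeries G k} := by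
          intro y hy
          change x * y * x⁻¹ * y⁻¹ ∈ Subgroup.upperCentralSeries G k
          rw [ih]
          intro l hlD hl
          refine h (y :: l) ?_ (by simpa using hl)
          intro z hz
          rcases List.mem_cons.1 hz with rfl | hz
          · exact hy
          · exact hlD z hz
        intro y
        exact (h1.closure_subset_iff.2 h2) (hD y)
  exact ⟨hcl k (hmain k), hmain k⟩

theorem dense_nilp {G : Type*} [TopologicalSpace G] [Group G] [IsTopologicalGroup G] [T2Space G]
    (D : Subgroup G) (hD : Dense (D : Set G)) (n : ℕ)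
    (h : ∀ x ∈ D, ∀ l : List G, (∀ y ∈ l, y ∈ D) → l.length = n → cm x l = 1) :
    Subgroup.upperCentralSeries G n = ⊤ := by
  obtain ⟨h1, h2⟩ := dn_main D hD n
  rw [eq_top_iff]
  intro x _
  have h3 : (D : Set G) ⊆ (Subgroup.upperCentralSeries G n : Set G) := fun y hy =>
    (h2 y).2 (h y hy)
  exact (h1.closure_subset_iff.2 h3) (hD x)

theorem nil_ideal {R : Type*} [CommRing R] (J : Ideal R) {p : ℕ} (hp : p.Prime) {ι : Type*}
    [Finite ι] (t : ι → R) (k m : ℕ) (hk : (p : R) ^ k ∈ J) (ht : ∀ i, t i ^ (p ^ m) - 1 ∈ J) :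
    ∃ N : ℕ, (Ideal.span ({(p : R)} ∪ Set.range (fun i => 1 - t i))) ^ N ≤ J := by
  have hprad : (p : R) ∈ J.radical := ⟨k, hk⟩
  refine Ideal.exists_pow_le_of_le_radical_of_fg ?_ ?_
  · rw [Ideal.span_le]
    rintro x (hx | ⟨i, rfl⟩)
    · rw [Set.mem_singleton_iff] at hx
      rw [hx]
      exact hprad
    · obtain ⟨r, hr⟩ := exists_add_pow_prime_pow_eq hp (1 - t i) (t i) m
      rw [sub_add_cancel, one_pow] at hr
      have h1 : (1 - t i) ^ p ^ m = -(t i ^ p ^ m - 1) - p * ((1 - t i) * t i * r) := by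
        linear_combination -hr
      have h2 : (1 - t i) ^ p ^ m ∈ J.radical := by
        rw [h1]
        refine Ideal.sub_mem _ ?_ (Ideal.mul_mem_right _ _ hprad)
        exact Ideal.le_radical (J.neg_mem (ht i))
      exact Ideal.mem_radical_of_pow_mem h2
  · have hfin : (({(p : R)} ∪ Set.range (fun i => 1 - t i)) : Set R).Finite :=
      (Set.finite_singleton _).union (Set.finite_range _)
    exact Submodule.fg_span hfin

theorem nilp_core {D Q A : Type*} [Group D] [CommGroup Q] [AddCommGroup A] (q : D →* Q)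
    (ρ : Q →* AddMonoid.End A) {p : ℕ} (hp : p.Prime) (S : Finset D)
    (hS : Subgroup.closure (S : Set D) = ⊤) (hpA : ∀ a : A, p • a = 0)
    (hρ : ∀ x : D, ρ (q x) ^ p = 1) :
    ∃ N : ℕ, ∀ l : List D, l.length = N → ∀ a : A,
      l.foldl (fun a x => a - ρ (q x) a) a = 0 := by
  let Φ : MonoidAlgebra ℤ Q →ₐ[ℤ] AddMonoid.End A := MonoidAlgebra.lift ℤ (AddMonoid.End A) Q ρ
  have hΦ : ∀ g : Q, Φ (MonoidAlgebra.of ℤ Q g) = ρ g := fun g => MonoidAlgebra.lift_of _ _
  let t : S → MonoidAlgebra ℤ Q := fun s => MonoidAlgebra.of ℤ Q (q s)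
  obtain ⟨N, hN⟩ := nil_ideal (RingHom.ker (Φ : MonoidAlgebra ℤ Q →+* AddMonoid.End A)) hp t 1 1
    (by
      rw [pow_one, RingHom.mem_ker, map_natCast]
      ext a
      have := hpA a
      simpa using this)
    (by
      intro i
      rw [pow_one, RingHom.mem_ker, map_sub, map_pow, map_one]
      have : (Φ : MonoidAlgebra ℤ Q →+* AddMonoid.End A) (t i) = ρ (q i) := hΦ _
      rw [this, hρ, sub_self])
  set I := Ideal.span ({(p : MonoidAlgebra ℤ Q)} ∪ Set.range (fun i => 1 - t i)) with hI
  have hmem : ∀ x : D, 1 - MonoidAlgebra.of ℤ Q (q x) ∈ I := by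
    intro x
    have hx : x ∈ Subgroup.closure (S : Set D) := by rw [hS]; trivial
    induction hx using Subgroup.closure_induction with
    | mem x hx =>
      apply Ideal.subset_span
      right
      exact ⟨⟨x, hx⟩, rfl⟩
    | one => rw [map_one, map_one, sub_self]; exact I.zero_mem
    | mul x y _ _ hx hy =>
      rw [map_mul, map_mul]
      have : 1 - MonoidAlgebra.of ℤ Q (q x) * MonoidAlgebra.of ℤ Q (q y) =
        (1 - MonoidAlgebra.of ℤ Q (q x)) +
          MonoidAlgebra.of ℤ Q (q x) * (1 - MonoidAlgebra.of ℤ Q (q y)) := by ring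
      rw [this]
      exact I.add_mem hx (I.mul_mem_left _ hy)
    | inv x _ hx =>
      have h1 : MonoidAlgebra.of ℤ Q (q x⁻¹) * MonoidAlgebra.of ℤ Q (q x) = 1 := by
        rw [← map_mul, ← map_mul, inv_mul_cancel, map_one, map_one]
      have : 1 - MonoidAlgebra.of ℤ Q (q x⁻¹) =
        (-MonoidAlgebra.of ℤ Q (q x⁻¹)) * (1 - MonoidAlgebra.of ℤ Q (q x)) := by
        rw [mul_sub, neg_mul, neg_mul, h1]; ring
      rw [this]
      exact I.mul_mem_left _ hx
  have hprod : ∀ l : List D,
      (l.map (fun x => 1 - MonoidAlgebra.of ℤ Q (q x))).prod ∈ I ^ l.length := by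
    intro l
    induction l with
    | nil => simp
    | cons x l ih =>
      rw [List.map_cons, List.prod_cons, List.length_cons, pow_succ']
      exact Ideal.mul_mem_mul (hmem x) ih
  have hfold : ∀ (l : List D) (a : A), l.foldl (fun a x => a - ρ (q x) a) a =
      Φ ((l.map (fun x => 1 - MonoidAlgebra.of ℤ Q (q x))).prod) a := by
    intro l
    induction l with
    | nil => intro a; simp
    | cons x l ih =>
      intro a
      have h9 : Φ (1 - MonoidAlgebra.of ℤ Q (q x)) = 1 - ρ (q x) := by
        rw [map_sub, map_one, hΦ]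
      rw [List.foldl_cons, ih, List.map_cons, List.prod_cons, mul_comm, map_mul, h9]
      rfl
  refine ⟨N, fun l hl a => ?_⟩
  have h1 : (l.map (fun x => 1 - MonoidAlgebra.of ℤ Q (q x))).prod ∈
      RingHom.ker (Φ : MonoidAlgebra ℤ Q →+* AddMonoid.End A) := hN (hl ▸ hprod l)
  rw [RingHom.mem_ker] at h1
  rw [hfold]
  have h2 : Φ ((l.map (fun x => 1 - MonoidAlgebra.of ℤ Q (q x))).prod) = 0 := h1
  rw [h2]
  rfl

theorem fg_laws_nilp {D : Type*} [Group D] {p : ℕ} (hp : p.Prime)
    (h1 : ∀ a b c d : D, ⁅⁅a, b⁆, ⁅c, d⁆⁆ = 1) (h2 : ∀ x y : D, ⁅x, y⁆ ^ p = 1)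
    (h3 : ∀ x y z : D, ⁅⁅x, y⁆, z ^ p⁆ = 1) (S : Finset D)
    (hS : Subgroup.closure (S : Set D) = ⊤) :
    ∃ N : ℕ, ∀ (x : D) (l : List D), l.length = N → cm x l = 1 := by
  have hcl : commutator D = Subgroup.closure (commutatorSet D) := commutator_eq_closure D
  have hA1 : ∀ z : D, (∀ x y : D, ⁅x, y⁆ * z = z * ⁅x, y⁆) → ∀ a ∈ commutator D, a * z = z * a := by
    intro z hz a ha
    have : commutator D ≤ Subgroup.centralizer {z} := by
      rw [hcl, Subgroup.closure_le]
      rintro _ ⟨x, y, rfl⟩
      rw [SetLike.mem_coe, Subgroup.mem_centralizer_iff]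
      intro w hw
      rw [Set.mem_singleton_iff] at hw
      rw [hw]
      exact (hz x y).symm
    have h4 := Subgroup.mem_centralizer_iff.1 (this ha) z rfl
    exact h4.symm
  have hA2 : ∀ a ∈ commutator D, ∀ b ∈ commutator D, a * b = b * a := by
    intro a ha b hb
    refine (hA1 a (fun x y => ?_) b hb).symm
    refine (hA1 ⁅x, y⁆ (fun u v => ?_) a ha).symm
    exact commutatorElement_eq_one_iff_mul_comm.1 (h1 u v x y)
  have hA3 : ∀ z : D, ∀ a ∈ commutator D, a * z ^ p = z ^ p * a := by
    intro z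
    apply hA1
    intro x y
    exact commutatorElement_eq_one_iff_mul_comm.1 (h3 x y z)
  have hA4 : ∀ a ∈ commutator D, a ^ p = 1 := by
    intro a ha
    rw [hcl] at ha
    induction ha using Subgroup.closure_induction with
    | mem x hx =>
      obtain ⟨u, v, rfl⟩ := hx
      exact h2 u v
    | one => exact one_pow p
    | mul x y hx hy ihx ihy =>
      rw [← hcl] at hx hy
      have : Commute x y := hA2 x hx y hy
      rw [this.mul_pow, ihx, ihy, one_mul]
    | inv x _ ih => rw [inv_pow, ih, inv_one]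
  letI : CommGroup (commutator D) :=
    { (inferInstance : Group (commutator D)) with
      mul_comm := fun a b => Subtype.ext (hA2 a a.2 b b.2) }
  let r : D →* AddMonoid.End (Additive (commutator D)) :=
    { toFun := fun x => MonoidHom.toAdditive
        ((MulAut.conjNormal x : MulAut (commutator D)).toMonoidHom)
      map_one' := by
        ext a
        simp
        rfl
      map_mul' := by
        intro x y
        ext a
        simp
        rfl }
  have hr : ∀ (x : D) (a : commutator D),
      (((r x (Additive.ofMul a)).toMul : commutator D) : D) = x * a * x⁻¹ := by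
    intro x a
    exact MulAut.conjNormal_apply x a
  have hr1 : ∀ x : D, (∀ a ∈ commutator D, a * x = x * a) → r x = 1 := by
    intro x hx
    apply AddMonoidHom.ext
    intro a
    apply Additive.toMul.injective
    apply Subtype.ext
    have := hr x a.toMul
    refine this.trans ?_
    have h5 := hx a.toMul a.toMul.2
    rw [← h5, mul_inv_cancel_right]
    rfl
  let ρ : Abelianization D →* AddMonoid.End (Additive (commutator D)) :=
    QuotientGroup.lift (commutator D) r (fun x hx => hr1 x (fun a ha => hA2 a ha x hx))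
  have hρr : ∀ x : D, ρ (Abelianization.of x) = r x := fun x => rfl
  obtain ⟨N, hN⟩ := nilp_core (Abelianization.of : D →* Abelianization D) ρ hp S hS
    (by
      intro a
      apply Additive.toMul.injective
      apply Subtype.ext
      exact hA4 a.toMul a.toMul.2)
    (by
      intro x
      rw [hρr, ← map_pow]
      exact hr1 (x ^ p) (hA3 x))
  have hcm : ∀ (l : List D) (a : commutator D), cm (a : D) l =
      ((l.foldl (fun a x => a - ρ (Abelianization.of x) a) (Additive.ofMul a)).toMul :
        commutator D) := by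
    intro l
    induction l with
    | nil => intro a; rfl
    | cons x l ih =>
      intro a
      have h6 : ⁅(a : D), x⁆ = (((Additive.ofMul a - r x (Additive.ofMul a)).toMul :
          commutator D) : D) := by
        have h7 : (((Additive.ofMul a - r x (Additive.ofMul a)).toMul : commutator D) : D) =
          (a : D) / ((r x (Additive.ofMul a)).toMul : commutator D) := rfl
        rw [h7, hr, commutatorElement_def, div_eq_mul_inv]
        group
      show cm ⁅(a : D), x⁆ l = _
      rw [h6, ih]
      rfl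
  refine ⟨N + 1, fun x l hl => ?_⟩
  cases l with
  | nil => simp at hl
  | cons y l =>
    have hl' : l.length = N := by simpa using hl
    show cm ⁅x, y⁆ l = 1
    have hxy : ⁅x, y⁆ ∈ commutator D := Subgroup.commutator_mem_commutator trivial trivial
    have h8 := hcm l ⟨⁅x, y⁆, hxy⟩
    refine h8.trans ?_
    rw [hN l hl']
    rfl

theorem core_step {R : Type*} [CommRing R] {ι : Type*} [DecidableEq ι] (X : ι → R)
    (ε : ι → R →+* R) (e1 : ∀ i, ε i (X i) = 0) (e2 : ∀ i j, i ≠ j → ε i (X j) = X j)
    (e3 : ∀ i f, ∃ g, f - ε i f = X i * g) (p : ℕ) (T : Finset ι) (k : ι) (hk : k ∉ T) (x : R)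
    (hx : x ∈ Ideal.span ({(p : R)} ∪ {u | ∃ i ∈ T, u = X i} ∪ {u | ∃ j, j ∉ T ∧ u = X j ^ 2})) :
    ε k x ∈ Ideal.span ({(p : R)} ∪ {u | ∃ i ∈ insert k T, u = X i} ∪
        {u | ∃ j, j ∉ insert k T ∧ u = X j ^ 2}) ∧
      ∃ h ∈ Ideal.span ({(p : R)} ∪ {u | ∃ i ∈ insert k T, u = X i} ∪
        {u | ∃ j, j ∉ insert k T ∧ u = X j ^ 2}), x - ε k x = X k * h := by
  induction hx using Submodule.span_induction with
  | mem u hu =>
    rcases hu with (hu | ⟨i, hi, rfl⟩) | ⟨j, hj, rfl⟩
    · rw [Set.mem_singleton_iff] at hu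
      subst hu
      rw [map_natCast]
      exact ⟨Ideal.subset_span (Or.inl (Or.inl rfl)), 0, Ideal.zero_mem _, by simp⟩
    · have hik : k ≠ i := fun h => hk (h ▸ hi)
      rw [e2 k i hik]
      exact ⟨Ideal.subset_span (Or.inl (Or.inr ⟨i, Finset.mem_insert_of_mem hi, rfl⟩)), 0,
        Ideal.zero_mem _, by simp⟩
    · by_cases hjk : k = j
      · subst hjk
        rw [map_pow, e1, zero_pow two_ne_zero]
        exact ⟨Ideal.zero_mem _, X k,
          Ideal.subset_span (Or.inl (Or.inr ⟨k, Finset.mem_insert_self _ _, rfl⟩)), by ring⟩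
      · rw [map_pow, e2 k j hjk]
        refine ⟨Ideal.subset_span (Or.inr ⟨j, ?_, rfl⟩), 0, Ideal.zero_mem _, by simp⟩
        rw [Finset.mem_insert]
        rintro (h | h)
        · exact hjk h.symm
        · exact hj h
  | zero => exact ⟨by simp, 0, Ideal.zero_mem _, by simp⟩
  | add x y _ _ ihx ihy =>
    obtain ⟨hx1, a, ha, hx2⟩ := ihx
    obtain ⟨hy1, b, hb, hy2⟩ := ihy
    refine ⟨by rw [map_add]; exact Ideal.add_mem _ hx1 hy1, a + b, Ideal.add_mem _ ha hb, ?_⟩
    rw [map_add, mul_add, ← hx2, ← hy2]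
    ring
  | smul r x _ ihx =>
    obtain ⟨hx1, a, ha, hx2⟩ := ihx
    obtain ⟨g, hg⟩ := e3 k r
    refine ⟨?_, r * a + g * ε k x, Ideal.add_mem _ (Ideal.mul_mem_left _ _ ha)
      (Ideal.mul_mem_left _ _ hx1), ?_⟩
    · rw [smul_eq_mul, map_mul]
      exact Ideal.mul_mem_left _ _ hx1
    · rw [smul_eq_mul, map_mul]
      linear_combination r * hx2 + ε k x * hg

theorem core {R : Type*} [CommRing R] {ι : Type*} [Fintype ι] [DecidableEq ι] (X : ι → R)
    (ε : ι → R →+* R) (e1 : ∀ i, ε i (X i) = 0) (e2 : ∀ i j, i ≠ j → ε i (X j) = X j)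
    (e3 : ∀ i f, ∃ g, f - ε i f = X i * g) (Z : AddSubgroup R)
    (hZ : ∀ i, ∀ f ∈ Z, ε i f ∈ Z) (p : ℕ) (f : R)
    (hf : f ∈ Ideal.span ({(p : R)} ∪ Set.range (fun j => X j ^ 2)))
    (h : (∏ i, X i) - f ∈ Z) :
    ∃ c ∈ Ideal.span ({(p : R)} ∪ Set.range X), (∏ i, X i) * (1 - c) ∈ Z := by
  have key : ∀ T : Finset ι, ∃ g ∈ Ideal.span ({(p : R)} ∪ {u | ∃ i ∈ T, u = X i} ∪
      {u | ∃ j, j ∉ T ∧ u = X j ^ 2}), (∏ i, X i) - (∏ i ∈ T, X i) * g ∈ Z := by
    intro T
    induction T using Finset.induction_on with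
    | empty =>
      refine ⟨f, ?_, by simpa using h⟩
      refine Ideal.span_mono ?_ hf
      rintro u (hu | ⟨j, rfl⟩)
      · exact Or.inl (Or.inl hu)
      · exact Or.inr ⟨j, by simp, rfl⟩
    | insert k T hk ih =>
      obtain ⟨g, hg, hgZ⟩ := ih
      obtain ⟨-, a, ha, ha2⟩ := core_step X ε e1 e2 e3 p T k hk g hg
      refine ⟨a, ha, ?_⟩
      have h1 := Z.sub_mem hgZ (hZ k _ hgZ)
      have h2 : ε k (∏ i, X i) = 0 := by
        rw [map_prod]
        exact Finset.prod_eq_zero (Finset.mem_univ k) (e1 k)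
      have h3 : ε k (∏ i ∈ T, X i) = ∏ i ∈ T, X i := by
        rw [map_prod]
        apply Finset.prod_congr rfl
        intro i hi
        exact e2 k i (fun h => hk (h ▸ hi))
      rw [map_sub, map_mul, h2, h3] at h1
      rw [Finset.prod_insert hk]
      convert h1 using 1
      linear_combination (∏ i ∈ T, X i) * ha2
  obtain ⟨c, hc, hcZ⟩ := key Finset.univ
  refine ⟨c, ?_, ?_⟩
  · refine Ideal.span_mono ?_ hc
    rintro u ((hu | ⟨i, -, rfl⟩) | ⟨j, hj, -⟩)
    · exact Or.inl hu
    · exact Or.inr ⟨i, rfl⟩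
    · exact absurd (Finset.mem_univ j) hj
  · rw [mul_sub, mul_one]
    exact hcZ

theorem ring_part {R A : Type*} [CommRing R] [AddCommGroup A] {n : ℕ} (t : Fin n → R)
    (ε : Fin n → R →+* R) (e1 : ∀ i, ε i (t i) = 1) (e2 : ∀ i j, i ≠ j → ε i (t j) = t j)
    (e3 : ∀ i f, ∃ g, f - ε i f = (1 - t i) * g) (Ψ : Finset (Fin n) → R →+* AddMonoid.End A)
    (hΨ : ∀ S i f, Ψ S (ε i f) = Ψ (S.erase i) f) (a : A) {p : ℕ} (hp : p.Prime) (k m : ℕ)
    (hk : ∀ y : A, p ^ k • y = 0) (hm : ∀ i, Ψ Finset.univ (t i) ^ (p ^ m) = 1)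
    (f : R) (hf : f ∈ Ideal.span ({(p : R)} ∪ Set.range (fun j => (1 - t j) ^ 2)))
    (h : ∀ S, Ψ S (∏ i, (1 - t i) - f) a = 0) : Ψ Finset.univ (∏ i, (1 - t i)) a = 0 := by
  let Z : AddSubgroup R :=
    { carrier := {f | ∀ S, Ψ S f a = 0}
      add_mem' := by
        intro x y hx hy S
        rw [map_add]; change Ψ S x a + Ψ S y a = 0; rw [hx S, hy S, add_zero]
      zero_mem' := by
        intro S
        rw [map_zero]
        rfl
      neg_mem' := by
        intro x hx S
        rw [map_neg]; change -(Ψ S x a) = 0; rw [hx S, neg_zero] }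
  obtain ⟨c, hc, hcZ⟩ := core (fun i => 1 - t i) ε
    (fun i => by rw [map_sub, map_one, e1, sub_self])
    (fun i j hij => by rw [map_sub, map_one, e2 i j hij]) e3 Z
    (fun i g hg S => by rw [hΨ]; exact hg _) p f hf h
  have h1 := hcZ Finset.univ
  set P := ∏ i, (1 - t i) with hP
  have h2 : Ψ Finset.univ c (Ψ Finset.univ P a) = Ψ Finset.univ P a := by
    have h3 : P * (1 - c) = P - c * P := by ring
    rw [h3, map_sub, map_mul] at h1; replace h1 : Ψ Finset.univ P a - Ψ Finset.univ c (Ψ Finset.univ P a) = 0 := h1; rw [sub_eq_zero] at h1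
    exact h1.symm
  have h4 : ∀ N : ℕ, Ψ Finset.univ (c ^ N) (Ψ Finset.univ P a) = Ψ Finset.univ P a := by
    intro N
    induction N with
    | zero => rw [pow_zero, map_one]; rfl
    | succ N ih =>
      rw [pow_succ, map_mul]; change Ψ Finset.univ (c ^ N) (Ψ Finset.univ c (Ψ Finset.univ P a)) = _; rw [h2, ih]
  obtain ⟨N, hN⟩ := nil_ideal (RingHom.ker (Ψ Finset.univ)) hp t k m
    (by
      rw [RingHom.mem_ker, map_pow, map_natCast]
      ext y
      rw [← Nat.cast_pow, AddMonoid.End.natCast_apply, hk]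
      rfl)
    (by
      intro i
      rw [RingHom.mem_ker, map_sub, map_pow, map_one, hm, sub_self])
  have h5 : c ^ N ∈ RingHom.ker (Ψ Finset.univ) := hN (Ideal.pow_mem_pow hc N)
  rw [← h4 N, RingHom.mem_ker.1 h5]
  rfl

/-- the action of `H` on the additive group of `R` through a homomorphism to the units -/
def act {R H : Type*} [CommRing R] [Group H] (u : H →* Rˣ) : H →* MulAut (Multiplicative R) where
  toFun h := AddEquiv.toMultiplicative (AddAut.mulLeft (u h))
  map_one' := by
    ext x
    simp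
    rfl
  map_mul' a b := by
    ext x
    simp
    rfl

theorem act_apply {R H : Type*} [CommRing R] [Group H] (u : H →* Rˣ) (h : H) (f : R) :
    act u h (Multiplicative.ofAdd f) = Multiplicative.ofAdd ((u h : R) * f) := rfl

theorem semi_conj {R H : Type*} [CommRing R] [Group H] (u : H →* Rˣ)
    (z : Multiplicative R ⋊[act u] H) (f : R) :
    z * SemidirectProduct.inl (Multiplicative.ofAdd f) * z⁻¹ =
      SemidirectProduct.inl (Multiplicative.ofAdd ((u z.right : R) * f)) := by
  ext
  · change z.left * act u z.right _ * act u (z.right * 1) (act u (z.right⁻¹) (z.left⁻¹)) = _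
    rw [mul_one, ← MulAut.mul_apply, ← map_mul, mul_inv_cancel, map_one, MulAut.one_apply]
    rw [SemidirectProduct.left_inl, SemidirectProduct.left_inl, act_apply, mul_comm z.left,
      mul_inv_cancel_right]
    rfl
  · change z.right * 1 * z.right⁻¹ = 1
    rw [mul_one, mul_inv_cancel]

theorem semi_comm {R H : Type*} [CommRing R] [Group H] (u : H →* Rˣ)
    (z : Multiplicative R ⋊[act u] H) (f : R) :
    ⁅(SemidirectProduct.inl (Multiplicative.ofAdd f) : Multiplicative R ⋊[act u] H), z⁆ =
      SemidirectProduct.inl (Multiplicative.ofAdd ((1 - (u z.right : R)) * f)) := by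
  have h : ⁅(SemidirectProduct.inl (Multiplicative.ofAdd f) : Multiplicative R ⋊[act u] H), z⁆ =
      SemidirectProduct.inl (Multiplicative.ofAdd f) *
        (z * SemidirectProduct.inl (Multiplicative.ofAdd (-f)) * z⁻¹) := by
    rw [commutatorElement_def, ofAdd_neg, map_inv]
    group
  rw [h, semi_conj, ← map_mul, ← ofAdd_add]
  congr 2
  ring

theorem laws_semi {R H : Type*} [CommRing R] [CommGroup H] (u : H →* Rˣ) {p : ℕ}
    (hp0 : (p : R) = 0) (hu : ∀ h, u h ^ p = 1) : Laws p (Multiplicative R ⋊[act u] H) := by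
  have key : ∀ x y : Multiplicative R ⋊[act u] H, ∃ f : R,
      ⁅x, y⁆ = SemidirectProduct.inl (Multiplicative.ofAdd f) := by
    intro x y
    refine ⟨Multiplicative.toAdd (⁅x, y⁆.left), ?_⟩
    ext
    · rfl
    · change x.right * y.right * x.right⁻¹ * y.right⁻¹ = 1
      rw [mul_comm x.right, mul_inv_cancel_right, mul_inv_cancel]
  refine ⟨?_, ?_, ?_⟩
  · intro a b c d
    obtain ⟨f, hf⟩ := key a b
    obtain ⟨g, hg⟩ := key c d
    rw [hf, hg, semi_comm, SemidirectProduct.right_inl, map_one, Units.val_one, sub_self, zero_mul,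
      ofAdd_zero, map_one]
  · intro x y
    obtain ⟨f, hf⟩ := key x y
    rw [hf, ← map_pow, ← ofAdd_nsmul, nsmul_eq_mul, hp0, zero_mul, ofAdd_zero, map_one]
  · intro x y z
    obtain ⟨f, hf⟩ := key x y
    have h1 : (z ^ p).right = z.right ^ p := by
      have := map_pow (SemidirectProduct.rightHom : Multiplicative R ⋊[act u] H →* H) z p
      exact this
    rw [hf, semi_comm, h1, map_pow, hu, Units.val_one, sub_self, zero_mul, ofAdd_zero, map_one]

theorem semi_cm {R H : Type*} [CommRing R] [Group H] (u : H →* Rˣ) (l : List H) (f : R) :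
    cm (SemidirectProduct.inl (Multiplicative.ofAdd f) : Multiplicative R ⋊[act u] H)
      (l.map SemidirectProduct.inr) =
      SemidirectProduct.inl (Multiplicative.ofAdd ((l.map (fun h => 1 - (u h : R))).prod * f)) := by
  induction l generalizing f with
  | nil => simp [cm]
  | cons h l ih =>
    change cm ⁅(SemidirectProduct.inl (Multiplicative.ofAdd f) : Multiplicative R ⋊[act u] H),
      SemidirectProduct.inr h⁆ (l.map SemidirectProduct.inr) = _
    rw [semi_comm, ih, SemidirectProduct.right_inr, List.map_cons, List.prod_cons]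
    congr 2
    ring

theorem laws_quot {K K' : Type*} [Group K] [Group K'] {p : ℕ} (h : Laws p K') (π : K →* K')
    (N : Subgroup K) [N.Normal] (hN : π.ker ≤ N) : Laws p (K ⧸ N) := by
  have key : ∀ z : K, π z = 1 → (QuotientGroup.mk' N z) = 1 := by
    intro z hz
    rw [← MonoidHom.mem_ker, QuotientGroup.ker_mk']
    exact hN hz
  refine ⟨?_, ?_, ?_⟩
  · intro a b c d
    obtain ⟨a, rfl⟩ := QuotientGroup.mk'_surjective N a
    obtain ⟨b, rfl⟩ := QuotientGroup.mk'_surjective N b
    obtain ⟨c, rfl⟩ := QuotientGroup.mk'_surjective N c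
    obtain ⟨d, rfl⟩ := QuotientGroup.mk'_surjective N d
    rw [← map_commutatorElement, ← map_commutatorElement, ← map_commutatorElement]
    apply key
    rw [map_commutatorElement, map_commutatorElement, map_commutatorElement]
    exact h.metab _ _ _ _
  · intro a b
    obtain ⟨a, rfl⟩ := QuotientGroup.mk'_surjective N a
    obtain ⟨b, rfl⟩ := QuotientGroup.mk'_surjective N b
    rw [← map_commutatorElement, ← map_pow]
    apply key
    rw [map_pow, map_commutatorElement]
    exact h.exp _ _
  · intro a b c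
    obtain ⟨a, rfl⟩ := QuotientGroup.mk'_surjective N a
    obtain ⟨b, rfl⟩ := QuotientGroup.mk'_surjective N b
    obtain ⟨c, rfl⟩ := QuotientGroup.mk'_surjective N c
    rw [← map_commutatorElement, ← map_pow, ← map_commutatorElement]
    apply key
    rw [map_commutatorElement, map_commutatorElement, map_pow]
    exact h.cent _ _ _

/-- the free abelian group of rank `n`, multiplicatively -/
abbrev Fab (n : ℕ) : Type := Abelianization (FreeGroup (Fin n))

/-- its integral group ring -/
abbrev RR (n : ℕ) : Type := MonoidAlgebra ℤ (Fab n)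

/-- group elements as units of the group ring -/
noncomputable def uab (n : ℕ) : Fab n →* (RR n)ˣ := (MonoidAlgebra.of ℤ (Fab n)).toHomUnits

/-- the generators -/
noncomputable def tt (n : ℕ) (i : Fin n) : RR n :=
  MonoidAlgebra.of ℤ (Fab n) (Abelianization.of (FreeGroup.of i))

/-- the endomorphism killing the `i`-th generator -/
noncomputable def ee (n : ℕ) (i : Fin n) : Fab n →* Fab n :=
  Abelianization.lift (FreeGroup.lift
    (fun j => if j = i then 1 else Abelianization.of (FreeGroup.of j)))

/-- the ring endomorphism sending the `i`-th generator to `1` -/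
noncomputable def eps (n : ℕ) (i : Fin n) : RR n →+* RR n :=
  MonoidAlgebra.mapDomainRingHom ℤ (ee n i)

theorem uab_of (n : ℕ) (i : Fin n) :
    ((uab n (Abelianization.of (FreeGroup.of i)) : (RR n)ˣ) : RR n) = tt n i := rfl

theorem eps_of (n : ℕ) (i : Fin n) (g : Fab n) :
    eps n i (MonoidAlgebra.of ℤ (Fab n) g) = MonoidAlgebra.of ℤ (Fab n) (ee n i g) := by
  simp [eps]

theorem eps_self (n : ℕ) (i : Fin n) : eps n i (tt n i) = 1 := by
  rw [tt, eps_of, ee, Abelianization.lift_apply_of, FreeGroup.lift_apply_of, if_pos rfl, map_one]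

theorem eps_ne (n : ℕ) (i j : Fin n) (h : i ≠ j) : eps n i (tt n j) = tt n j := by
  rw [tt, eps_of, ee, Abelianization.lift_apply_of, FreeGroup.lift_apply_of, if_neg (Ne.symm h)]

theorem hom_ext_aux (n : ℕ) {B : Type*} [Ring B] (f g : RR n →+* B)
    (h : ∀ i, f (tt n i) = g (tt n i)) : f = g := by
  apply MonoidAlgebra.ringHom_ext'
  · exact RingHom.ext_int _ _
  · have h2 : (((f : RR n →* B).comp (MonoidAlgebra.of ℤ (Fab n))).comp
        Abelianization.of).toHomUnits = (((g : RR n →* B).comp (MonoidAlgebra.of ℤ (Fab n))).comp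
        Abelianization.of).toHomUnits := by
      apply FreeGroup.ext_hom
      intro i
      apply Units.ext
      exact h i
    apply MonoidHom.ext
    intro x
    obtain ⟨y, rfl⟩ := QuotientGroup.mk_surjective x
    exact congrArg Units.val (DFunLike.congr_fun h2 y)

theorem eps_e3 (n : ℕ) (i : Fin n) (f : RR n) : ∃ g, f - eps n i f = (1 - tt n i) * g := by
  have h : (Ideal.Quotient.mk (Ideal.span {1 - tt n i})).comp (RingHom.id _) =
      (Ideal.Quotient.mk (Ideal.span {1 - tt n i})).comp (eps n i) := by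
    apply hom_ext_aux
    intro j
    by_cases hj : i = j
    · subst hj
      simp only [RingHom.comp_apply, eps_self, RingHom.id_apply]
      rw [Ideal.Quotient.eq]
      rw [← Ideal.neg_mem_iff, neg_sub]
      exact Ideal.mem_span_singleton_self _
    · simp only [RingHom.comp_apply, eps_ne n i j hj, RingHom.id_apply]
  have h2 := RingHom.congr_fun h f
  simp only [RingHom.comp_apply, RingHom.id_apply] at h2
  rw [Ideal.Quotient.eq, Ideal.mem_span_singleton] at h2
  exact h2

/-- specialisation of the generators -/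
noncomputable def sS {n : ℕ} {Q : Type*} [CommGroup Q] (g : Fin n → Q) (S : Finset (Fin n)) :
    Fab n →* Q :=
  Abelianization.lift (FreeGroup.lift (fun i => if i ∈ S then g i else 1))

/-- the induced ring homomorphism -/
noncomputable def Psi {n : ℕ} {Q A : Type*} [CommGroup Q] [AddCommGroup A]
    (ρ : Q →* AddMonoid.End A) (g : Fin n → Q) (S : Finset (Fin n)) : RR n →+* AddMonoid.End A :=
  (MonoidAlgebra.lift ℤ (AddMonoid.End A) (Fab n) (ρ.comp (sS g S)) : RR n →+* AddMonoid.End A)

theorem Psi_of {n : ℕ} {Q A : Type*} [CommGroup Q] [AddCommGroup A]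
    (ρ : Q →* AddMonoid.End A) (g : Fin n → Q) (S : Finset (Fin n)) (v : Fab n) :
    Psi ρ g S (MonoidAlgebra.of ℤ (Fab n) v) = ρ (sS g S v) :=
  MonoidAlgebra.lift_of _ _

theorem Psi_eps {n : ℕ} {Q A : Type*} [CommGroup Q] [AddCommGroup A]
    (ρ : Q →* AddMonoid.End A) (g : Fin n → Q) (S : Finset (Fin n)) (i : Fin n) (f : RR n) :
    Psi ρ g S (eps n i f) = Psi ρ g (S.erase i) f := by
  have h : (Psi ρ g S).comp (eps n i) = Psi ρ g (S.erase i) := by
    apply hom_ext_aux
    intro j
    by_cases hj : i = j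
    · subst hj
      rw [RingHom.comp_apply, eps_self, map_one, tt, Psi_of, sS, Abelianization.lift_apply_of,
        FreeGroup.lift_apply_of, if_neg (Finset.notMem_erase _ _), map_one]
    · rw [RingHom.comp_apply, eps_ne n i j hj, tt, Psi_of, Psi_of, sS, sS,
        Abelianization.lift_apply_of, Abelianization.lift_apply_of, FreeGroup.lift_apply_of,
        FreeGroup.lift_apply_of]
      congr 1
      simp [Finset.mem_erase, Ne.symm hj]
  exact RingHom.congr_fun h f

end Pool.Agent.Helper730.LNV
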