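import Pool.Agent.Helper730.LNV1

set_option autoImplicit false

open scoped commutatorElement

namespace Pool.Agent.Helper730.LNV

theorem secClosed_VF {p : ℕ}
    {V : (G : Type) → [TopologicalSpace G] → [Group G] → [IsTopologicalGroup G] → Prop}
    (hV : IsVar p V) : SecClosed (fun Γ [Group Γ] => VF V Γ) := by
  intro Γ Δ K ι _ _ _ _ Θ f hΓ hf hker
  obtain ⟨tΓ, dΓ, gΓ, hVΓ⟩ := hΓ
  obtain ⟨cpt, t2, td, _⟩ := hV.proP Γ hVΓ
  have hfin : Finite Γ := finite_of_compact_of_discrete
  have hVP : V (ι → Γ) := hV.prod ι (fun _ => Γ) (fun _ => hVΓ)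
  have hdP : DiscreteTopology (ι → Γ) := inferInstance
  have hVR : V (↥Θ.range) := hV.sub (ι → Γ) hVP Θ.range (isClosed_discrete _)
  have hfinR : Finite Θ.range := inferInstance
  have hsurj : Function.Surjective Θ.rangeRestrict := Θ.rangeRestrict_surjective
  let g : Θ.range →* Δ := Θ.rangeRestrict.liftOfSurjective hsurj
    ⟨f, by rw [MonoidHom.ker_rangeRestrict]; exact hker⟩
  have hg : ∀ k, g (Θ.rangeRestrict k) = f k := fun k =>
    MonoidHom.liftOfRightInverse_comp_apply _ _ _ _ _
  have hgs : Function.Surjective g := by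
    intro d
    obtain ⟨k, rfl⟩ := hf d
    exact ⟨_, hg k⟩
  let tΔ : TopologicalSpace Δ := ⊥
  have dΔ : DiscreteTopology Δ := ⟨rfl⟩
  have gΔ : IsTopologicalGroup Δ :=
    { continuous_mul := continuous_of_discreteTopology
      continuous_inv := continuous_of_discreteTopology }
  refine ⟨tΔ, dΔ, gΔ, ?_⟩
  have hfinΔ : Finite Δ := Finite.of_surjective g hgs
  refine hV.quot (↥Θ.range) Δ hVR ⟨inferInstance, inferInstance, inferInstance, ?_⟩ g
    continuous_of_discreteTopology hgs
  intro N hN _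
  obtain ⟨k, hk⟩ := (hV.proP _ hVR).2.2.2 (N.comap g) (hN.comap g) (isOpen_discrete _)
  refine ⟨k, ?_⟩
  rw [← hk, Subgroup.index_comap_of_surjective _ hgs]

theorem exists_finite_quot {p : ℕ} (hp : p.Prime)
    {V : (G : Type) → [TopologicalSpace G] → [Group G] → [IsTopologicalGroup G] → Prop}
    (hV : IsVar p V) (G : Type) [TopologicalSpace G] [Group G] [IsTopologicalGroup G] (hG : V G)
    (y : G) (hy : y ≠ 1) :
    ∃ (Γ : Type) (_ : Group Γ) (_ : Finite Γ), IsPGroup p Γ ∧ VF V Γ ∧
      ∃ f : G →* Γ, Function.Surjective f ∧ f y ≠ 1 := by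
  obtain ⟨hc, ht2, htd, hidx⟩ := hV.proP G hG
  obtain ⟨N, hN⟩ := ProfiniteGrp.exist_openNormalSubgroup_sub_open_nhds_of_one (G := G)
    (U := {y}ᶜ) isOpen_compl_singleton (by simpa using hy.symm)
  have hNo : IsOpen ((N.toSubgroup : Subgroup G) : Set G) := N.isOpen'
  haveI hNn : (N.toSubgroup).Normal := N.isNormal'
  haveI hfin : Finite (G ⧸ N.toSubgroup) := Subgroup.quotient_finite_of_isOpen _ hNo
  haveI hdis : DiscreteTopology (G ⧸ N.toSubgroup) := QuotientGroup.discreteTopology hNo
  obtain ⟨k, hk⟩ := hidx N.toSubgroup hNn hNo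
  refine ⟨G ⧸ N.toSubgroup, inferInstance, hfin, IsPGroup.of_card (n := k) (by rw [← hk]; rfl),
    ⟨inferInstance, hdis, inferInstance, ?_⟩, QuotientGroup.mk' _,
    QuotientGroup.mk'_surjective _, ?_⟩
  · refine hV.quot G (G ⧸ N.toSubgroup) hG ?_ (QuotientGroup.mk' _)
      QuotientGroup.continuous_mk (QuotientGroup.mk'_surjective _)
    refine ⟨inferInstance, inferInstance, inferInstance, ?_⟩
    intro M hM hMo
    obtain ⟨j, hj⟩ := hidx (M.comap (QuotientGroup.mk' N.toSubgroup)) (hM.comap _)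
      (hMo.preimage QuotientGroup.continuous_mk)
    refine ⟨j, ?_⟩
    rw [← hj, Subgroup.index_comap_of_surjective _ (QuotientGroup.mk'_surjective _)]
  · intro h
    rw [QuotientGroup.mk'_apply, QuotientGroup.eq_one_iff] at h
    exact (hN h) rfl

theorem isVar_laws_inj {p : ℕ} {G H : Type*} [Group G] [Group H] (f : G →* H)
    (hf : Function.Injective f) (h : Laws p H) : Laws p G := by
  constructor
  · intro a b c d
    apply hf
    rw [map_commutatorElement, map_commutatorElement, map_commutatorElement, map_one]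
    exact h.metab _ _ _ _
  · intro x y
    apply hf
    rw [map_pow, map_commutatorElement, map_one]
    exact h.exp _ _
  · intro x y z
    apply hf
    rw [map_commutatorElement, map_commutatorElement, map_pow, map_one]
    exact h.cent _ _ _

theorem isVar_laws_surj {p : ℕ} {G H : Type*} [Group G] [Group H] (f : G →* H)
    (hf : Function.Surjective f) (h : Laws p G) : Laws p H := by
  constructor
  · intro a b c d
    obtain ⟨a, rfl⟩ := hf a
    obtain ⟨b, rfl⟩ := hf b
    obtain ⟨c, rfl⟩ := hf c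
    obtain ⟨d, rfl⟩ := hf d
    rw [← map_commutatorElement, ← map_commutatorElement, ← map_commutatorElement,
      h.metab, map_one]
  · intro x y
    obtain ⟨x, rfl⟩ := hf x
    obtain ⟨y, rfl⟩ := hf y
    rw [← map_commutatorElement, ← map_pow, h.exp, map_one]
  · intro x y z
    obtain ⟨x, rfl⟩ := hf x
    obtain ⟨y, rfl⟩ := hf y
    obtain ⟨z, rfl⟩ := hf z
    rw [← map_commutatorElement, ← map_pow, ← map_commutatorElement, h.cent, map_one]

theorem isVar_laws {p : ℕ}
    {V : (G : Type) → [TopologicalSpace G] → [Group G] → [IsTopologicalGroup G] → Prop}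
    (hV : IsVar p V) : IsVar p (fun G [TopologicalSpace G] [Group G] [IsTopologicalGroup G] =>
      V G ∧ Laws p G) := by
  refine ⟨?_, ?_, ?_, ?_⟩
  · intro G _ _ _ h
    exact hV.proP G h.1
  · intro G _ _ _ h H hH
    exact ⟨hV.sub G h.1 H hH, isVar_laws_inj H.subtype (Subgroup.subtype_injective H) h.2⟩
  · intro G H _ _ _ _ _ _ h hP f hfc hfs
    exact ⟨hV.quot G H h.1 hP f hfc hfs, isVar_laws_surj f hfs h.2⟩
  · intro ι G _ _ _ h
    refine ⟨hV.prod ι G (fun i => (h i).1), ?_⟩
    constructor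
    · intro a b c d
      funext i
      exact (h i).2.metab (a i) (b i) (c i) (d i)
    · intro x y
      funext i
      exact (h i).2.exp (x i) (y i)
    · intro x y z
      funext i
      exact (h i).2.cent (x i) (y i) (z i)

/-- a discrete member of a variety of pro-`p` groups is a finite `p`-group -/
theorem VF_fin {p : ℕ}
    {V : (G : Type) → [TopologicalSpace G] → [Group G] → [IsTopologicalGroup G] → Prop}
    (hV : IsVar p V) (Γ : Type) [Group Γ] (h : VF V Γ) : Finite Γ ∧ IsPGroup p Γ := by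
  obtain ⟨top, disc, tg, hv⟩ := h
  obtain ⟨hc, _, _, hN⟩ := hV.proP Γ hv
  have hfin : Finite Γ := finite_of_compact_of_discrete
  refine ⟨hfin, ?_⟩
  obtain ⟨k, hk⟩ := hN ⊥ inferInstance (isOpen_discrete _)
  rw [Subgroup.index_bot] at hk
  exact IsPGroup.of_card hk

theorem hall_three {G : Type} [Group G] {A B C K : Subgroup G} [K.Normal]
    (h1 : ⁅⁅B, C⁆, A⁆ ≤ K) (h2 : ⁅⁅C, A⁆, B⁆ ≤ K) : ⁅⁅A, B⁆, C⁆ ≤ K := by
  have e : ∀ H : Subgroup G, H ≤ K ↔ H.map (QuotientGroup.mk' K) = ⊥ := by
    intro H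
    rw [Subgroup.map_eq_bot_iff, QuotientGroup.ker_mk']
  rw [e] at h1 h2 ⊢
  simp only [Subgroup.map_commutator] at h1 h2 ⊢
  exact Subgroup.commutator_commutator_eq_bot_of_rotate h1 h2

/-- iterated commutator with the whole group -/
def hall_L {G : Type} [Group G] (A : Subgroup G) : ℕ → Subgroup G
  | 0 => A
  | n + 1 => ⁅hall_L A n, ⊤⁆

instance hall_L_normal {G : Type} [Group G] (A : Subgroup G) [A.Normal] (n : ℕ) :
    (hall_L A n).Normal := by
  induction n with
  | zero => unfold hall_L; infer_instance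
  | succ n ih => unfold hall_L; infer_instance

theorem hall_L_mono {G : Type} [Group G] {A B : Subgroup G} (h : A ≤ B) (n : ℕ) :
    hall_L A n ≤ hall_L B n := by
  induction n with
  | zero => exact h
  | succ n ih => exact Subgroup.commutator_mono ih le_rfl

theorem hall_L_succ' {G : Type} [Group G] (A : Subgroup G) (n : ℕ) :
    hall_L A (n + 1) = hall_L ⁅A, ⊤⁆ n := by
  induction n with
  | zero => rfl
  | succ n ih =>
    change ⁅hall_L A (n + 1), ⊤⁆ = ⁅hall_L ⁅A, ⊤⁆ n, ⊤⁆
    rw [ih]

theorem hall_L_add {G : Type} [Group G] (A : Subgroup G) (m n : ℕ) :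
    hall_L A (m + n) = hall_L (hall_L A m) n := by
  induction n with
  | zero => rfl
  | succ n ih =>
    change ⁅hall_L A (m + n), ⊤⁆ = ⁅hall_L (hall_L A m) n, ⊤⁆
    rw [ih]

theorem hall_L_le {G : Type} [Group G] (A : Subgroup G) [A.Normal] (n : ℕ) :
    hall_L A n ≤ A := by
  induction n with
  | zero => exact le_rfl
  | succ n ih => exact (Subgroup.commutator_le_left _ _).trans ih

theorem hall_L_anti {G : Type} [Group G] (A : Subgroup G) [A.Normal] {m n : ℕ} (h : m ≤ n) :
    hall_L A n ≤ hall_L A m := by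
  obtain ⟨k, rfl⟩ := Nat.exists_eq_add_of_le h
  rw [hall_L_add]
  exact hall_L_le _ _

theorem hall_comm_sup {G : Type} [Group G] (X Y : Subgroup G) [X.Normal] [Y.Normal] :
    ⁅X ⊔ Y, (⊤ : Subgroup G)⁆ ≤ ⁅X, ⊤⁆ ⊔ ⁅Y, ⊤⁆ := by
  rw [Subgroup.commutator_le]
  intro g hg t _
  obtain ⟨x, hx, y, hy, rfl⟩ := Subgroup.mem_sup_of_normal_left.1 hg
  have e : ⁅x * y, t⁆ = (x * ⁅y, t⁆ * x⁻¹) * ⁅x, t⁆ := by
    simp only [commutatorElement_def]; group
  rw [e]
  have hn : (⁅Y, (⊤ : Subgroup G)⁆).Normal := inferInstance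
  refine Subgroup.mul_mem _ ?_ ?_
  · exact Subgroup.mem_sup_right (hn.conj_mem _
      (Subgroup.commutator_mem_commutator hy (Subgroup.mem_top t)) x)
  · exact Subgroup.mem_sup_left (Subgroup.commutator_mem_commutator hx (Subgroup.mem_top t))

theorem hall_L_sup {G : Type} [Group G] (X Y : Subgroup G) [X.Normal] [Y.Normal] (n : ℕ) :
    hall_L (X ⊔ Y) n ≤ hall_L X n ⊔ hall_L Y n := by
  induction n with
  | zero => exact le_rfl
  | succ n ih =>
    exact (Subgroup.commutator_mono ih le_rfl).trans (hall_comm_sup _ _)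

theorem hall_leib1 {G : Type} [Group G] (A B : Subgroup G) [A.Normal] [B.Normal] :
    ⁅⁅A, B⁆, (⊤ : Subgroup G)⁆ ≤ ⁅⁅A, (⊤ : Subgroup G)⁆, B⁆ ⊔ ⁅A, ⁅B, (⊤ : Subgroup G)⁆⁆ := by
  have hn : (⁅⁅A, (⊤ : Subgroup G)⁆, B⁆ ⊔ ⁅A, ⁅B, (⊤ : Subgroup G)⁆⁆).Normal := inferInstance
  apply hall_three
  · rw [Subgroup.commutator_comm ⁅B, (⊤ : Subgroup G)⁆ A]
    exact le_sup_right
  · rw [Subgroup.commutator_comm (⊤ : Subgroup G) A]
    exact le_sup_left

theorem hall_leib {G : Type} [Group G] (K : Subgroup G) (s : ℕ) :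
    ∀ (A B : Subgroup G) [A.Normal] [B.Normal],
    (∀ a b, a + b = s → ⁅hall_L A a, hall_L B b⁆ ≤ K) → hall_L ⁅A, B⁆ s ≤ K := by
  induction s with
  | zero =>
    intro A B _ _ h
    exact h 0 0 rfl
  | succ s ih =>
    intro A B _ _ h
    rw [hall_L_succ']
    refine (hall_L_mono (hall_leib1 A B) s).trans ((hall_L_sup _ _ s).trans (sup_le ?_ ?_))
    · apply ih
      intro a b hab
      rw [← hall_L_succ']
      exact h (a + 1) b (by omega)
    · apply ih
      intro a b hab
      rw [← hall_L_succ']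
      exact h a (b + 1) (by omega)

theorem hall_lcs_normal {G : Type} [Group G] (N : Subgroup G) [N.Normal] (i : ℕ) :
    (N.lowerCentralSeries i).Normal := by
  induction i with
  | zero => rw [Subgroup.lowerCentralSeries_zero]; infer_instance
  | succ i ih => rw [Subgroup.lowerCentralSeries_succ]; infer_instance

theorem hall_L_top {G : Type} [Group G] (n : ℕ) :
    hall_L (⊤ : Subgroup G) n = (⊤ : Subgroup G).lowerCentralSeries n := by
  induction n with
  | zero => rfl
  | succ n ih =>
    rw [Subgroup.lowerCentralSeries_succ, ← ih]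
    rfl

theorem hall_step {G : Type} [Group G] (N : Subgroup G) [N.Normal] (c : ℕ)
    (hc : (⊤ : Subgroup G).lowerCentralSeries c ≤ ⁅N, N⁆) (i : ℕ) :
    hall_L (N.lowerCentralSeries i) ((i + 1) * c) ≤ N.lowerCentralSeries (i + 1) := by
  have hN : hall_L N c ≤ ⁅N, N⁆ := by
    refine (hall_L_mono le_top c).trans ?_
    rw [hall_L_top]
    exact hc
  induction i with
  | zero =>
    rw [Subgroup.lowerCentralSeries_zero, Subgroup.lowerCentralSeries_succ,
      Subgroup.lowerCentralSeries_zero, zero_add, one_mul]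
    exact hN
  | succ i ih =>
    have hn1 := hall_lcs_normal N i
    have hn2 := hall_lcs_normal N (i + 1)
    have hn3 := hall_lcs_normal N (i + 2)
    change hall_L ⁅N.lowerCentralSeries i, N⁆ _ ≤ _
    apply hall_leib
    intro a b hab
    have hab' : a + b = (i + 1) * c + c := by rw [hab]; ring
    rcases le_or_gt ((i + 1) * c) a with ha | ha
    · change _ ≤ ⁅N.lowerCentralSeries (i + 1), N⁆
      exact Subgroup.commutator_mono ((hall_L_anti _ ha).trans ih) (hall_L_le _ _)
    · have hb : c ≤ b := by omega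
      refine (Subgroup.commutator_mono (hall_L_le _ _) ((hall_L_anti _ hb).trans hN)).trans ?_
      rw [Subgroup.commutator_comm]
      apply hall_three
      · rw [Subgroup.commutator_comm N (N.lowerCentralSeries i)]
        exact le_rfl
      · exact le_rfl

/-- P. Hall's criterion, with a bound depending only on `k` and `c`. -/
theorem hall (k c : ℕ) : ∃ m : ℕ, ∀ (G : Type) [Group G] (N : Subgroup G) [N.Normal],
    N.lowerCentralSeries k = ⊥ → (⊤ : Subgroup G).lowerCentralSeries c ≤ ⁅N, N⁆ →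
    (⊤ : Subgroup G).lowerCentralSeries m = ⊥ := by
  refine ⟨c + ∑ i ∈ Finset.range k, (i + 1) * c, ?_⟩
  intro G _ N _ hk hc
  have h1 : ∀ j : ℕ, hall_L N (∑ i ∈ Finset.range j, (i + 1) * c) ≤ N.lowerCentralSeries j := by
    intro j
    induction j with
    | zero => exact le_rfl
    | succ j ih =>
      rw [Finset.sum_range_succ, hall_L_add]
      exact (hall_L_mono ih _).trans (hall_step N c hc j)
  rw [← hall_L_top, hall_L_add, eq_bot_iff, ← hk]
  refine (hall_L_mono ?_ _).trans (h1 k)
  rw [hall_L_top]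
  exact hc.trans (Subgroup.commutator_le_left _ _)

theorem hall_ind_derived (Γ : Type) [Group Γ] (d : ℕ) :
    (derivedSeries (commutator Γ) d).map (commutator Γ).subtype = derivedSeries Γ (d + 1) := by
  induction d with
  | zero =>
    rw [derivedSeries_zero, derivedSeries_one, ← MonoidHom.range_eq_map, Subgroup.range_subtype]
  | succ d ih =>
    rw [derivedSeries_succ, Subgroup.map_commutator, ih, derivedSeries_succ Γ (d + 1)]

theorem hall_ind (C : (Γ : Type) → [Group Γ] → Prop)
    (hsub : ∀ (Γ : Type) [Group Γ] (H : Subgroup Γ), C Γ → C H)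
    (hquot : ∀ (Γ Δ : Type) [Group Γ] [Group Δ] (f : Γ →* Δ), Function.Surjective f → C Γ → C Δ)
    (c : ℕ) (h : ∀ (Γ : Type) [Group Γ], C Γ → derivedSeries Γ 2 = ⊥ →
      Subgroup.upperCentralSeries Γ c = ⊤) (d : ℕ) :
    ∃ m : ℕ, ∀ (Γ : Type) [Group Γ], C Γ → derivedSeries Γ d = ⊥ →
      Subgroup.upperCentralSeries Γ m = ⊤ := by
  induction d with
  | zero =>
    refine ⟨0, fun Γ _ _ h0 => ?_⟩
    rw [derivedSeries_zero] at h0
    rw [Subgroup.upperCentralSeries_zero]
    exact h0.symm
  | succ d ih =>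
    obtain ⟨k, hk⟩ := ih
    obtain ⟨m, hm⟩ := hall k c
    refine ⟨m, fun Γ _ hC hd => ?_⟩
    rw [← Subgroup.lowerCentralSeries_eq_bot_iff_upperCentralSeries_eq_top]
    refine hm Γ (commutator Γ) ?_ ?_
    · -- the commutator subgroup is nilpotent of class at most `k`
      have h1 : derivedSeries (commutator Γ) d = ⊥ := by
        have h2 := hall_ind_derived Γ d
        rw [hd] at h2
        exact (Subgroup.map_eq_bot_iff_of_injective _
          (Subgroup.subtype_injective _)).1 h2
      have h2 := hk (commutator Γ) (hsub Γ (commutator Γ) hC) h1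
      rw [← Subgroup.lowerCentralSeries_eq_bot_iff_upperCentralSeries_eq_top] at h2
      rw [← Subgroup.top_subtype_lowerCentralSeries, h2, Subgroup.map_bot]
    · -- the quotient by the second derived subgroup
      set f : Γ →* Γ ⧸ ⁅commutator Γ, commutator Γ⁆ := QuotientGroup.mk' _ with hf
      have hfs : Function.Surjective f := QuotientGroup.mk'_surjective _
      have hker : f.ker = ⁅commutator Γ, commutator Γ⁆ := QuotientGroup.ker_mk' _
      have hCq := hquot Γ _ f hfs hC
      have hd2 : derivedSeries (Γ ⧸ ⁅commutator Γ, commutator Γ⁆) 2 = ⊥ := by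
        rw [← map_derivedSeries_eq hfs 2, Subgroup.map_eq_bot_iff, hker]
        exact le_of_eq rfl
      have h3 := h _ hCq hd2
      rw [← Subgroup.lowerCentralSeries_eq_bot_iff_upperCentralSeries_eq_top] at h3
      rw [← hker, ← Subgroup.map_eq_bot_iff, Subgroup.map_lowerCentralSeries,
        Subgroup.map_top_of_surjective f hfs]
      exact h3

end Pool.Agent.Helper730.LNV
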