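import Pool.Agent.Helper730.LNV2

set_option autoImplicit false

open scoped commutatorElement

namespace Pool.Agent.Helper730.LNV

theorem map_cm {G H : Type*} [Group G] [Group H] (f : G →* H) (l : List G) (x : G) :
    f (cm x l) = cm (f x) (l.map f) := by
  induction l generalizing x with
  | nil => rfl
  | cons y l ih =>
    change f (cm ⁅x, y⁆ l) = cm ⁅f x, f y⁆ (l.map f)
    rw [ih, map_commutatorElement]

/-- evaluation of words at the generators in `S` -/
noncomputable def wS {n : ℕ} {G : Type*} [Group G] (g : Fin n → G) (S : Finset (Fin n)) :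
    FreeGroup (Fin n) →* G := FreeGroup.lift (fun i => if i ∈ S then g i else 1)

theorem q_wS {n : ℕ} {G Q : Type*} [Group G] [CommGroup Q] (q : G →* Q) (g : Fin n → G)
    (S : Finset (Fin n)) (w : FreeGroup (Fin n)) :
    sS (fun i => q (g i)) S (Abelianization.of w) = q (wS g S w) := by
  have h : (sS (fun i => q (g i)) S).comp Abelianization.of = q.comp (wS g S) := by
    apply FreeGroup.ext_hom
    intro i
    rw [MonoidHom.comp_apply, MonoidHom.comp_apply, sS, wS, Abelianization.lift_apply_of,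
      FreeGroup.lift_apply_of, FreeGroup.lift_apply_of]
    split_ifs <;> simp
  exact DFunLike.congr_fun h w

/-- The ideal generated by `p` and the squares `(1 - t_i)²`. -/
noncomputable def JJ (n p : ℕ) : Ideal (RR n) :=
  Ideal.span ({(p : RR n)} ∪ Set.range (fun j => (1 - tt n j) ^ 2))

/-- units of the quotient ring -/
noncomputable def uq (n p : ℕ) : Fab n →* (RR n ⧸ JJ n p)ˣ :=
  (Units.map ((Ideal.Quotient.mk (JJ n p) : RR n →+* RR n ⧸ JJ n p) :
    RR n →* RR n ⧸ JJ n p)).comp (uab n)

theorem pow_aux {n : ℕ} {B : Type*} [CommRing B] (u : Fab n →* Bˣ) (p : ℕ)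
    (h : ∀ i, u (Abelianization.of (FreeGroup.of i)) ^ p = 1) (v : Fab n) : u v ^ p = 1 := by
  have h1 : (powMonoidHom p : Bˣ →* Bˣ).comp u = 1 := by
    apply Abelianization.hom_ext
    apply FreeGroup.ext_hom
    intro i
    exact h i
  exact DFunLike.congr_fun h1 v

theorem uq_pow {n p : ℕ} (hp : p.Prime) (v : Fab n) : uq n p v ^ p = 1 := by
  have h : ∀ i, uq n p (Abelianization.of (FreeGroup.of i)) ^ p = 1 := by
    intro i
    apply Units.ext
    change (Ideal.Quotient.mk (JJ n p) (tt n i)) ^ p = 1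
    obtain ⟨r, hr⟩ := exists_add_pow_prime_eq hp (1 : RR n) (tt n i - 1)
    have h1 : (1 : RR n) + (tt n i - 1) = tt n i := by ring
    rw [h1, one_pow] at hr
    rw [← map_pow, ← map_one (Ideal.Quotient.mk (JJ n p)), Ideal.Quotient.eq, hr]
    have h2 : (tt n i - 1) ^ p ∈ JJ n p := by
      have h3 : (1 - tt n i) ^ 2 ∈ JJ n p := Ideal.subset_span (Or.inr ⟨i, rfl⟩)
      have h4 : (tt n i - 1) ^ p = (1 - tt n i) ^ 2 * (tt n i - 1) ^ (p - 2) := by
        have h5 : (1 - tt n i) ^ 2 = (tt n i - 1) ^ 2 := by ring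
        rw [h5, ← pow_add, Nat.add_sub_cancel' hp.two_le]
      rw [h4]
      exact Ideal.mul_mem_right _ _ h3
    have h6 : (p : RR n) * ((tt n i - 1) * r) ∈ JJ n p :=
      Ideal.mul_mem_right _ _ (Ideal.subset_span (Or.inl rfl))
    have h7 : 1 + (tt n i - 1) ^ p + (p : RR n) * 1 * (tt n i - 1) * r - 1 =
      (tt n i - 1) ^ p + (p : RR n) * ((tt n i - 1) * r) := by ring
    rw [h7]
    exact Ideal.add_mem _ h2 h6
  exact pow_aux (B := RR n ⧸ JJ n p) (uq n p) p h v

theorem exists_E_aux {n p : ℕ} (hp : p.Prime) (C : (Γ : Type) → [Group Γ] → Prop)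
    (hC : SecClosed C) (G : Type) [Group G] (hCG : C G) {Q A : Type} [CommGroup Q]
    [AddCommGroup A] (q : G →* Q) (ρ : Q →* AddMonoid.End A) (j : Multiplicative A →* G)
    (hj : Function.Injective j)
    (hjρ : ∀ (x : G) (a : A), x * j (Multiplicative.ofAdd a) * x⁻¹ =
      j (Multiplicative.ofAdd (ρ (q x) a)))
    (k m : ℕ) (hk : ∀ y : A, p ^ k • y = 0) (hm : ∀ x : G, x ^ (p ^ m) = 1)
    (g : Fin n → G) (a : A)
    (ha : Psi ρ (fun i => q (g i)) Finset.univ (∏ i, (1 - tt n i)) a ≠ 0) :
    ∃ (E : Type) (_ : Group E), C E ∧ Laws p E ∧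
      ∃ (x : E) (l : List E), l.length = n ∧ cm x l ≠ 1 := by
  classical
  set gq : Fin n → Q := fun i => q (g i) with hgq
  let u : FreeGroup (Fin n) →* (RR n)ˣ := (uab n).comp Abelianization.of
  let K := Multiplicative (RR n) ⋊[act u] FreeGroup (Fin n)
  let ev (S : Finset (Fin n)) : RR n →+ A :=
    (AddMonoidHom.eval a : AddMonoid.End A →+ A).comp (Psi ρ gq S : RR n →+ AddMonoid.End A)
  have hev : ∀ S f, ev S f = Psi ρ gq S f a := fun S f => rfl
  let f1 (S : Finset (Fin n)) : Multiplicative (RR n) →* G :=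
    j.comp (AddMonoidHom.toMultiplicative (ev S))
  have hf1 : ∀ S f, f1 S (Multiplicative.ofAdd f) =
    j (Multiplicative.ofAdd (Psi ρ gq S f a)) := fun S f => rfl
  have hcompat : ∀ (S : Finset (Fin n)) (w : FreeGroup (Fin n)),
      (f1 S).comp (act u w).toMonoidHom = (MulAut.conj (wS g S w)).toMonoidHom.comp (f1 S) := by
    intro S w
    apply MonoidHom.ext
    intro f
    change f1 S (Multiplicative.ofAdd ((u w : RR n) * Multiplicative.toAdd f)) =
      wS g S w * f1 S f * (wS g S w)⁻¹
    have h1 : (u w : RR n) = MonoidAlgebra.of ℤ (Fab n) (Abelianization.of w) := rfl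
    have h2 : f1 S f = j (Multiplicative.ofAdd (Psi ρ gq S (Multiplicative.toAdd f) a)) := rfl
    rw [hf1, h2, hjρ, ← q_wS, map_mul, h1, Psi_of]
    rfl
  let Θ1 (S : Finset (Fin n)) : K →* G := SemidirectProduct.lift (f1 S) (wS g S) (hcompat S)
  let Θ2 (S : Finset (Fin n)) : K →* G := (wS g S).comp SemidirectProduct.rightHom
  let Θ : K →* (Finset (Fin n) × Bool → G) :=
    MonoidHom.pi (fun s => if s.2 then Θ1 s.1 else Θ2 s.1)
  let mkJ : RR n →+* RR n ⧸ JJ n p := Ideal.Quotient.mk (JJ n p)
  let K' := Multiplicative (RR n ⧸ JJ n p) ⋊[act (uq n p)] Fab n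
  let π : K →* K' := SemidirectProduct.map
    (AddMonoidHom.toMultiplicative (mkJ : RR n →+ RR n ⧸ JJ n p)) Abelianization.of (by
      intro w
      apply MonoidHom.ext
      intro f
      change Multiplicative.ofAdd (mkJ ((u w : RR n) * Multiplicative.toAdd f)) =
        Multiplicative.ofAdd (((uq n p (Abelianization.of w) : (RR n ⧸ JJ n p)ˣ) :
          RR n ⧸ JJ n p) * mkJ (Multiplicative.toAdd f))
      rw [map_mul]
      rfl)
  have hL : Laws p K' := by
    apply laws_semi
    · have : (p : RR n ⧸ JJ n p) = mkJ (p : RR n) := by rw [map_natCast]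
      rw [this]
      exact Ideal.Quotient.eq_zero_iff_mem.2 (Ideal.subset_span (Or.inl rfl))
    · exact uq_pow hp
  let N : Subgroup K := Θ.ker ⊔ π.ker
  refine ⟨K ⧸ N, inferInstance, ?_, laws_quot hL π N le_sup_right, ?_⟩
  · refine hC G (K ⧸ N) K (Finset (Fin n) × Bool) Θ (QuotientGroup.mk' N) hCG
      (QuotientGroup.mk'_surjective N) ?_
    rw [QuotientGroup.ker_mk']
    exact le_sup_left
  · refine ⟨QuotientGroup.mk' N (SemidirectProduct.inl (Multiplicative.ofAdd 1)),
      ((List.ofFn (fun i : Fin n => FreeGroup.of i)).map SemidirectProduct.inr).map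
        (QuotientGroup.mk' N), by simp, ?_⟩
    rw [← map_cm, semi_cm, mul_one]
    have hprod : ((List.ofFn (fun i : Fin n => FreeGroup.of i)).map
        (fun h => 1 - (u h : RR n))).prod = ∏ i, (1 - tt n i) := by
      rw [List.map_ofFn, List.prod_ofFn]
      rfl
    rw [hprod]
    intro hmem
    rw [← MonoidHom.mem_ker, QuotientGroup.ker_mk'] at hmem
    obtain ⟨y, hy, z, hz, hyz⟩ := Subgroup.mem_sup_of_normal_right.1 hmem
    have hy' : y = SemidirectProduct.inl (Multiplicative.ofAdd (∏ i, (1 - tt n i))) * z⁻¹ := by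
      rw [← hyz, mul_inv_cancel_right]
    have hzr : Abelianization.of z.right = 1 := by
      have := congrArg SemidirectProduct.right (MonoidHom.mem_ker.1 hz)
      exact this
    have hzl : Multiplicative.toAdd z.left ∈ JJ n p := by
      have := congrArg SemidirectProduct.left (MonoidHom.mem_ker.1 hz)
      exact Ideal.Quotient.eq_zero_iff_mem.1 this
    have hu1 : u z.right⁻¹ = 1 := by
      change uab n (Abelianization.of z.right⁻¹) = 1
      rw [map_inv, hzr, inv_one, map_one]
    have hyr : y.right = z.right⁻¹ := by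
      rw [hy']
      change 1 * z.right⁻¹ = _
      rw [one_mul]
    have hyl : y.left = Multiplicative.ofAdd (∏ i, (1 - tt n i) - Multiplicative.toAdd z.left) := by
      rw [hy']
      change Multiplicative.ofAdd ((∏ i, (1 - tt n i)) + ((u 1 : (RR n)ˣ) : RR n) *
        (((u z.right⁻¹ : (RR n)ˣ) : RR n) * (- Multiplicative.toAdd z.left))) = _
      rw [hu1, map_one]
      congr 1
      simp [sub_eq_add_neg]
    have hS : ∀ S : Finset (Fin n),
        Psi ρ gq S (∏ i, (1 - tt n i) - Multiplicative.toAdd z.left) a = 0 := by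
      intro S
      have h1 : Θ1 S y = 1 := by
        have := congrFun (MonoidHom.mem_ker.1 hy) (S, true)
        simpa [Θ] using this
      have h2 : Θ2 S y = 1 := by
        have := congrFun (MonoidHom.mem_ker.1 hy) (S, false)
        simpa [Θ] using this
      have h3 : f1 S y.left * wS g S y.right = 1 := h1
      have h4 : wS g S y.right = 1 := h2
      rw [h4, mul_one, hyl, hf1] at h3
      have h5 := hj (h3.trans (map_one j).symm)
      exact h5
    apply ha
    refine ring_part (tt n) (eps n) (eps_self n) (eps_ne n) (eps_e3 n) (Psi ρ gq)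
      (Psi_eps ρ gq) a hp k m hk ?_ (Multiplicative.toAdd z.left) hzl hS
    intro i
    rw [tt, Psi_of, sS, Abelianization.lift_apply_of, FreeGroup.lift_apply_of,
      if_pos (Finset.mem_univ i), ← map_pow, hgq]
    simp only
    rw [← map_pow, hm, map_one, map_one]

end Pool.Agent.Helper730.LNV
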