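import Pool.Agent.Helper730.LNV3

set_option autoImplicit false

open scoped commutatorElement

namespace Pool.Agent.Helper730.LNV

theorem cm_Psi {n : ℕ} {G Q A : Type} [Group G] [CommGroup Q]
    [AddCommGroup A] (q : G →* Q) (ρ : Q →* AddMonoid.End A) (j : Multiplicative A →* G)
    (hjρ : ∀ (x : G) (a : A), x * j (Multiplicative.ofAdd a) * x⁻¹ =
      j (Multiplicative.ofAdd (ρ (q x) a)))
    (g : Fin n → G) (li : List (Fin n)) (a : A) :
    cm (j (Multiplicative.ofAdd a)) (li.map g) = j (Multiplicative.ofAdd
      (Psi ρ (fun i => q (g i)) Finset.univ ((li.map (fun i => 1 - tt n i)).prod) a)) := by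
  induction li generalizing a with
  | nil =>
    simp [cm]
  | cons i li ih =>
    have h1 : ⁅j (Multiplicative.ofAdd a), g i⁆ =
        j (Multiplicative.ofAdd (Psi ρ (fun i => q (g i)) Finset.univ (1 - tt n i) a)) := by
      have h2 : ⁅j (Multiplicative.ofAdd a), g i⁆ =
          j (Multiplicative.ofAdd a) * (g i * j (Multiplicative.ofAdd (-a)) * (g i)⁻¹) := by
        rw [commutatorElement_def, ofAdd_neg, map_inv]
        group
      rw [h2, hjρ, ← map_mul, ← ofAdd_add, map_sub, map_one, tt, Psi_of, sS,
        Abelianization.lift_apply_of, FreeGroup.lift_apply_of, if_pos (Finset.mem_univ i), map_neg,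
        ← sub_eq_add_neg]
      rfl
    change cm ⁅j (Multiplicative.ofAdd a), g i⁆ (li.map g) = _
    rw [h1, ih, List.map_cons, List.prod_cons, mul_comm (1 - tt n i), map_mul]
    rfl

theorem exists_E {p : ℕ} (hp : p.Prime) (C : (Γ : Type) → [Group Γ] → Prop)
    (hC : SecClosed C) (G : Type) [Group G] [Finite G] (hG : IsPGroup p G) (hCG : C G)
    (hmet : ∀ a b c d : G, ⁅⁅a, b⁆, ⁅c, d⁆⁆ = 1) (n : ℕ) (x : G) (l : List G)
    (hl : l.length = n + 1) (hx : cm x l ≠ 1) :
    ∃ (E : Type) (_ : Group E), C E ∧ Laws p E ∧
      ∃ (x : E) (l : List E), l.length = n ∧ cm x l ≠ 1 := by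
  have hcl : commutator G = Subgroup.closure (commutatorSet G) := commutator_eq_closure G
  have hA1 : ∀ z : G, (∀ x y : G, ⁅x, y⁆ * z = z * ⁅x, y⁆) → ∀ a ∈ commutator G, a * z = z * a := by
    intro z hz a ha
    have : commutator G ≤ Subgroup.centralizer {z} := by
      rw [hcl, Subgroup.closure_le]
      rintro _ ⟨x, y, rfl⟩
      rw [SetLike.mem_coe, Subgroup.mem_centralizer_iff]
      intro w hw
      rw [Set.mem_singleton_iff] at hw
      rw [hw]
      exact (hz x y).symm
    have h4 := Subgroup.mem_centralizer_iff.1 (this ha) z rfl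
    exact h4.symm
  have hA2 : ∀ a ∈ commutator G, ∀ b ∈ commutator G, a * b = b * a := by
    intro a ha b hb
    refine (hA1 a (fun x y => ?_) b hb).symm
    refine (hA1 ⁅x, y⁆ (fun u v => ?_) a ha).symm
    exact commutatorElement_eq_one_iff_mul_comm.1 (hmet u v x y)
  letI : CommGroup (commutator G) :=
    { (inferInstance : Group (commutator G)) with
      mul_comm := fun a b => Subtype.ext (hA2 a a.2 b b.2) }
  let r : G →* AddMonoid.End (Additive (commutator G)) :=
    { toFun := fun x => MonoidHom.toAdditive
        ((MulAut.conjNormal x : MulAut (commutator G)).toMonoidHom)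
      map_one' := by
        ext a
        simp
        rfl
      map_mul' := by
        intro x y
        ext a
        simp
        rfl }
  have hr : ∀ (x : G) (a : commutator G),
      (((r x (Additive.ofMul a)).toMul : commutator G) : G) = x * a * x⁻¹ := by
    intro x a
    exact MulAut.conjNormal_apply x a
  have hr1 : ∀ x : G, (∀ a ∈ commutator G, a * x = x * a) → r x = 1 := by
    intro x hx
    apply AddMonoidHom.ext
    intro a
    apply Additive.toMul.injective
    apply Subtype.ext
    have := hr x a.toMul
    refine this.trans ?_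
    have h5 := hx a.toMul a.toMul.2
    rw [← h5, mul_inv_cancel_right]
    rfl
  let ρ : Abelianization G →* AddMonoid.End (Additive (commutator G)) :=
    QuotientGroup.lift (commutator G) r (fun x hx => hr1 x (fun a ha => hA2 a ha x hx))
  let j : Multiplicative (Additive (commutator G)) →* G := (commutator G).subtype
  have hj : Function.Injective j := Subtype.val_injective
  have hjρ : ∀ (x : G) (a : Additive (commutator G)), x * j (Multiplicative.ofAdd a) * x⁻¹ =
      j (Multiplicative.ofAdd (ρ (Abelianization.of x) a)) := by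
    intro x a
    exact (hr x a.toMul).symm
  haveI : Fact p.Prime := ⟨hp⟩
  obtain ⟨m, hm⟩ := IsPGroup.iff_card.1 hG
  have hpow : ∀ x : G, x ^ (p ^ m) = 1 := by
    intro x
    rw [← hm]
    exact pow_card_eq_one'
  match l, hl, hx with
  | g0 :: l', hl, hx =>
    have hl' : l'.length = n := by simpa using hl
    subst hl'
    have hxg : ⁅x, g0⁆ ∈ commutator G := Subgroup.commutator_mem_commutator trivial trivial
    refine exists_E_aux hp C hC G hCG Abelianization.of ρ j hj hjρ m m ?_ hpow l'.get
      (Additive.ofMul ⟨⁅x, g0⁆, hxg⟩) ?_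
    · intro y
      apply Additive.toMul.injective
      apply Subtype.ext
      exact hpow _
    · intro h0
      apply hx
      have h1 := cm_Psi Abelianization.of ρ j hjρ l'.get (List.finRange l'.length)
        (Additive.ofMul ⟨⁅x, g0⁆, hxg⟩)
      have h2 : (List.finRange l'.length).map l'.get = l' := by
        rw [← List.ofFn_eq_map]
        exact List.ofFn_get l'
      have h3 : ((List.finRange l'.length).map (fun i => 1 - tt l'.length i)).prod =
          ∏ i, (1 - tt l'.length i) := by
        rw [← List.ofFn_eq_map, List.prod_ofFn]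
      rw [h2, h3, h0, ofAdd_zero, map_one] at h1
      exact h1

end Pool.Agent.Helper730.LNV
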