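import Pool.Agent.Helper730.LNV4

set_option autoImplicit false

open scoped commutatorElement

namespace Pool.Agent.Helper730.LNV

theorem laws_derived {p : ℕ} {G : Type*} [Group G] (h : Laws p G) : derivedSeries G 2 = ⊥ := by
  have h0 : derivedSeries G 0 = ⊤ := derivedSeries_zero G
  have h1 : derivedSeries G 1 = commutator G := by
    rw [derivedSeries_succ, h0]
    rfl
  have h2 : derivedSeries G 2 = ⁅commutator G, commutator G⁆ := by
    rw [derivedSeries_succ, h1]
  have hcl : commutator G = Subgroup.closure (commutatorSet G) := commutator_eq_closure G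
  have hA1 : ∀ z : G, (∀ x y : G, ⁅x, y⁆ * z = z * ⁅x, y⁆) → ∀ a ∈ commutator G, a * z = z * a := by
    intro z hz a ha
    have : commutator G ≤ Subgroup.centralizer {z} := by
      rw [hcl, Subgroup.closure_le]
      rintro _ ⟨x, y, rfl⟩
      rw [SetLike.mem_coe, Subgroup.mem_centralizer_iff]
      intro w hw
      rw [Set.mem_singleton_iff] at hw
      rw [hw]
      exact (hz x y).symm
    have h4 := Subgroup.mem_centralizer_iff.1 (this ha) z rfl
    exact h4.symm
  have hA2 : ∀ a ∈ commutator G, ∀ b ∈ commutator G, a * b = b * a := by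
    intro a ha b hb
    refine (hA1 a (fun x y => ?_) b hb).symm
    refine (hA1 ⁅x, y⁆ (fun u v => ?_) a ha).symm
    exact commutatorElement_eq_one_iff_mul_comm.1 (h.metab u v x y)
  rw [h2, Subgroup.commutator_eq_bot_iff_le_centralizer]
  intro a ha
  rw [Subgroup.mem_centralizer_iff]
  intro b hb
  exact (hA2 a ha b hb).symm

theorem metab_of_derived {G : Type*} [Group G] (h : derivedSeries G 2 = ⊥) (a b c d : G) :
    ⁅⁅a, b⁆, ⁅c, d⁆⁆ = 1 := by
  have h1 : ∀ x y : G, ⁅x, y⁆ ∈ derivedSeries G 1 := by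
    intro x y
    rw [derivedSeries_succ, derivedSeries_zero]
    exact Subgroup.commutator_mem_commutator trivial trivial
  have h2 : ⁅⁅a, b⁆, ⁅c, d⁆⁆ ∈ derivedSeries G 2 := by
    rw [derivedSeries_succ]
    exact Subgroup.commutator_mem_commutator (h1 a b) (h1 c d)
  rw [h] at h2
  exact h2

theorem SecClosed.sub {C : (Γ : Type) → [Group Γ] → Prop} (hC : SecClosed C) (Γ : Type) [Group Γ]
    (H : Subgroup Γ) (h : C Γ) : C H := by
  refine hC Γ H H Unit (MonoidHom.pi (fun _ => H.subtype)) (MonoidHom.id H) h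
    (fun x => ⟨x, rfl⟩) ?_
  intro x hx
  have := congrFun (MonoidHom.mem_ker.1 hx) ()
  exact Subtype.ext this

theorem SecClosed.quot {C : (Γ : Type) → [Group Γ] → Prop} (hC : SecClosed C) (Γ Δ : Type)
    [Group Γ] [Group Δ] (f : Γ →* Δ) (hf : Function.Surjective f) (h : C Γ) : C Δ := by
  refine hC Γ Δ Γ Unit (MonoidHom.pi (fun _ => MonoidHom.id Γ)) f h hf ?_
  intro x hx
  have h1 : x = 1 := congrFun (MonoidHom.mem_ker.1 hx) ()
  rw [h1, MonoidHom.mem_ker, map_one]

theorem main {p : ℕ} (hp : p.Prime)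
    {V : (G : Type) → [TopologicalSpace G] → [Group G] → [IsTopologicalGroup G] → Prop}
    (hV : IsVar p V) (d : ℕ)
    (h : ¬ ∃ c : ℕ, ∀ (G : Type) [TopologicalSpace G] [Group G] [IsTopologicalGroup G],
      V G → derivedSeries G d = ⊥ → Subgroup.upperCentralSeries G c = ⊤) :
    ∃ W : (G : Type) → [TopologicalSpace G] → [Group G] → [IsTopologicalGroup G] → Prop,
      IsVar p W ∧
      (∀ (G : Type) [TopologicalSpace G] [Group G] [IsTopologicalGroup G], W G →
        V G ∧ derivedSeries G 2 = ⊥) ∧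
      (¬ ∃ c : ℕ, ∀ (G : Type) [TopologicalSpace G] [Group G] [IsTopologicalGroup G],
          W G → Subgroup.upperCentralSeries G c = ⊤) ∧
      (∀ (G : Type) [TopologicalSpace G] [Group G] [IsTopologicalGroup G], W G →
          ∀ S : Finset G, closure ((Subgroup.closure (S : Set G) : Subgroup G) : Set G) = Set.univ →
          Group.IsNilpotent G) := by
  have hsec : SecClosed (fun Γ [Group Γ] => VF V Γ) := secClosed_VF hV
  have hmet : ∀ c : ℕ, ∃ (Γ : Type) (_ : Group Γ), VF V Γ ∧ derivedSeries Γ 2 = ⊥ ∧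
      Subgroup.upperCentralSeries Γ c ≠ ⊤ := by
    by_contra hcon
    push Not at hcon
    obtain ⟨c, hc⟩ := hcon
    obtain ⟨m, hm⟩ := hall_ind (fun Γ [Group Γ] => VF V Γ)
      (fun Γ _ H hΓ => SecClosed.sub hsec Γ H hΓ)
      (fun Γ Δ _ _ f hf hΓ => SecClosed.quot hsec Γ Δ f hf hΓ) c
      (fun Γ _ h1 h2 => hc Γ _ h1 h2) d
    apply h
    refine ⟨m, fun G _ _ _ hG hd => ?_⟩
    rw [Subgroup.eq_top_iff']
    intro x
    rw [mem_ucs_iff]
    intro l hl
    by_contra hne
    obtain ⟨Γ, _, _, _, hVF, f, hf, hfy⟩ := exists_finite_quot hp hV G hG (cm x l) hne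
    have hdΓ : derivedSeries Γ d = ⊥ := by
      rw [← map_derivedSeries_eq hf, hd, Subgroup.map_bot]
    have h1 := hm Γ hVF hdΓ
    apply hfy
    rw [map_cm]
    refine (mem_ucs_iff m (f x)).1 ?_ (l.map f) (by rw [List.length_map, hl])
    rw [h1]
    trivial
  refine ⟨fun G [TopologicalSpace G] [Group G] [IsTopologicalGroup G] => V G ∧ Laws p G,
    isVar_laws hV, fun G _ _ _ hG => ⟨hG.1, laws_derived hG.2⟩, ?_, ?_⟩
  · rintro ⟨n, hn⟩
    obtain ⟨Γ, _, hVF, hd, hucs⟩ := hmet (n + 1)
    obtain ⟨hfin, hpg⟩ := VF_fin hV Γ hVF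
    have h1 : ∃ (x : Γ) (l : List Γ), l.length = n + 1 ∧ cm x l ≠ 1 := by
      by_contra hcon
      push Not at hcon
      apply hucs
      rw [Subgroup.eq_top_iff']
      intro x
      rw [mem_ucs_iff]
      exact hcon x
    obtain ⟨x, l, hl, hx⟩ := h1
    obtain ⟨E, _, hCE, hLE, y, l', hl', hy⟩ := exists_E hp (fun Γ [Group Γ] => VF V Γ) hsec Γ hpg
      hVF (metab_of_derived hd) n x l hl hx
    obtain ⟨_, _, _, hVE⟩ := hCE
    have h2 := hn E ⟨hVE, hLE⟩
    apply hy
    refine (mem_ucs_iff n y).1 ?_ l' hl'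
    rw [h2]
    trivial
  · intro G _ _ _ hG S hS
    have hprop := hV.proP G hG.1
    haveI : T2Space G := hprop.2.1
    let D : Subgroup G := Subgroup.closure (S : Set G)
    have hdense : Dense (D : Set G) := by
      rw [dense_iff_closure_eq]
      exact hS
    have hD1 : ∀ a b c d : D, ⁅⁅a, b⁆, ⁅c, d⁆⁆ = 1 := fun a b c d =>
      Subtype.ext (hG.2.metab a b c d)
    have hD2 : ∀ x y : D, ⁅x, y⁆ ^ p = 1 := fun x y => Subtype.ext (hG.2.exp x y)
    have hD3 : ∀ x y z : D, ⁅⁅x, y⁆, z ^ p⁆ = 1 := fun x y z => Subtype.ext (hG.2.cent x y z)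
    classical
    let S' : Finset D := S.attach.image (fun s => ⟨s.1, Subgroup.subset_closure s.2⟩)
    have hS' : Subgroup.closure (S' : Set D) = ⊤ := by
      apply Subgroup.map_injective D.subtype_injective
      rw [MonoidHom.map_closure, ← MonoidHom.range_eq_map, Subgroup.range_subtype]
      change Subgroup.closure _ = Subgroup.closure _
      congr 1
      ext s
      constructor
      · rintro ⟨⟨s, hs⟩, h1, rfl⟩
        have h2 := Finset.mem_coe.1 h1
        obtain ⟨t, _, ht⟩ := Finset.mem_image.1 h2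
        have : t.1 = s := congrArg Subtype.val ht
        change s ∈ (S : Set G)
        rw [← this]
        exact t.2
      · intro hs
        refine ⟨⟨s, Subgroup.subset_closure hs⟩, ?_, rfl⟩
        exact Finset.mem_coe.2 (Finset.mem_image.2 ⟨⟨s, hs⟩, Finset.mem_attach _ _, rfl⟩)
    obtain ⟨N, hN⟩ := fg_laws_nilp hp hD1 hD2 hD3 S' hS'
    have hfin := dense_nilp D hdense N (by
      intro x hx l hl hlen
      have h1 : ∃ l' : List D, l'.map D.subtype = l := by
        clear hlen
        induction l with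
        | nil => exact ⟨[], rfl⟩
        | cons y l ih =>
          obtain ⟨l', hl'⟩ := ih (fun z hz => hl z (List.mem_cons_of_mem _ hz))
          refine ⟨⟨y, hl y List.mem_cons_self⟩ :: l', ?_⟩
          rw [List.map_cons, hl']
          rfl
      obtain ⟨l', rfl⟩ := h1
      have h2 := hN ⟨x, hx⟩ l' (by rw [List.length_map] at hlen; exact hlen)
      have h3 := congrArg D.subtype h2
      rw [map_cm, map_one] at h3
      exact h3)
    exact ⟨⟨N, hfin⟩⟩

end Pool.Agent.Helper730.LNV
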