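import Pool.Agent.Helper730.SMDefs

set_option autoImplicit false

open scoped commutatorElement

namespace Pool.Agent.Helper730.SM

theorem big_of_indep {A ι : Type} [AddCommGroup A] (v : ι → A)
    (h : ∀ (S : Set ι) (i : ι), i ∉ S → v i ∉ AddSubgroup.closure (v '' S)) (hι : Infinite ι) :
    Big (AddSubgroup A) := by
  classical
  obtain ⟨e, he⟩ : ∃ e : ℕ → ι, Function.Injective e :=
    ⟨Infinite.natEmbedding ι, (Infinite.natEmbedding ι).injective⟩
  have key : ∀ S S' : Set ℕ, AddSubgroup.closure (v '' (e '' S)) = AddSubgroup.closure (v '' (e '' S')) →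
      S ⊆ S' := by
    intro S S' hSS n hn
    have h1 : v (e n) ∈ AddSubgroup.closure (v '' (e '' S)) :=
      AddSubgroup.subset_closure ⟨e n, ⟨n, hn, rfl⟩, rfl⟩
    rw [hSS] at h1
    by_contra hcon
    apply h (e '' S') (e n) _ h1
    rintro ⟨m, hm, hme⟩
    exact hcon (he hme ▸ hm)
  exact ⟨fun S => AddSubgroup.closure (v '' (e '' S)), fun S S' hSS =>
    Set.Subset.antisymm (key S S' hSS) (key S' S hSS.symm)⟩

theorem exists_fg_torsion {A : Type} [AddCommGroup A] (h : ¬ Big (AddSubgroup A)) :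
    ∃ F : AddSubgroup A, F.FG ∧ ∀ a : A, ∃ n : ℕ, n ≠ 0 ∧ n • a ∈ F := by
  obtain ⟨s, hs, hs2⟩ := exists_maximal_linearIndepOn ℤ (id : A → A)
  have hs' : LinearIndependent ℤ (fun x : s => (x : A)) := hs
  have hcl : ∀ t : Set A, ∀ a : A, a ∈ AddSubgroup.closure t ↔ a ∈ Submodule.span ℤ t := by
    intro t a
    rw [← Submodule.span_int_eq_addSubgroupClosure]
    rfl
  have hfin : s.Finite := by
    by_contra hinf
    have hi : Infinite s := Set.infinite_coe_iff.2 hinf
    refine h (big_of_indep (fun x : s => (x : A)) ?_ hi)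
    intro S i hi' hmem
    rw [hcl] at hmem
    exact hs'.notMem_span_image hi' hmem
  refine ⟨AddSubgroup.closure s, ⟨hfin.toFinset, by rw [hfin.coe_toFinset]⟩, fun a => ?_⟩
  by_cases ha : a ∈ s
  · exact ⟨1, one_ne_zero, by rw [one_smul]; exact AddSubgroup.subset_closure ha⟩
  · obtain ⟨z, hz, hz2⟩ := hs2 a ha
    rw [Set.image_id, id] at hz2
    rw [← hcl] at hz2
    refine ⟨z.natAbs, Int.natAbs_ne_zero.2 hz, ?_⟩
    rw [← natCast_zsmul]
    rcases Int.natAbs_eq z with h1 | h1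
    · rw [← h1]; exact hz2
    · have h2 : ((z.natAbs : ℤ)) = -z := by omega
      rw [h2, neg_smul]
      exact AddSubgroup.neg_mem _ hz2

theorem finite_primes {T : Type} [AddCommGroup T] (h : ¬ Big (AddSubgroup T)) :
    {p : ℕ | p.Prime ∧ ∃ t : T, t ≠ 0 ∧ p • t = 0}.Finite := by
  by_contra hcon
  have hinf : Infinite {p : ℕ | p.Prime ∧ ∃ t : T, t ≠ 0 ∧ p • t = 0} :=
    Set.infinite_coe_iff.2 hcon
  apply h
  choose t ht0 htp using fun p : {p : ℕ | p.Prime ∧ ∃ t : T, t ≠ 0 ∧ p • t = 0} => p.2.2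
  refine big_of_indep t (fun S p hpS hmem => ?_) hinf
  have key : ∀ x ∈ AddSubgroup.closure (t '' S), ∃ n : ℕ, Nat.Coprime n p.1 ∧ n • x = 0 := by
    intro x hx
    induction hx using AddSubgroup.closure_induction with
    | mem x hx =>
      obtain ⟨q, hq, rfl⟩ := hx
      refine ⟨q.1, ?_, htp q⟩
      refine (Nat.coprime_primes q.2.1 p.2.1).2 fun hqp => ?_
      have : q = p := Subtype.ext hqp
      rw [this] at hq
      exact hpS hq
    | zero => exact ⟨1, Nat.coprime_one_left _, by simp⟩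
    | add x y _ _ ihx ihy =>
      obtain ⟨n, hn, hnx⟩ := ihx
      obtain ⟨m, hm, hmy⟩ := ihy
      refine ⟨n * m, Nat.Coprime.mul_left hn hm, ?_⟩
      rw [smul_add, mul_comm n m, mul_smul, hnx, smul_zero, mul_comm m n, mul_smul, hmy, smul_zero,
        add_zero]
    | neg x _ ihx =>
      obtain ⟨n, hn, hnx⟩ := ihx
      exact ⟨n, hn, by rw [smul_neg, hnx, neg_zero]⟩
  obtain ⟨n, hn, hnt⟩ := key _ hmem
  have h1 : addOrderOf (t p) ∣ n := addOrderOf_dvd_of_nsmul_eq_zero hnt
  have h2 : addOrderOf (t p) ∣ p.1 := addOrderOf_dvd_of_nsmul_eq_zero (htp p)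
  have h3 : addOrderOf (t p) = 1 := Nat.eq_one_of_dvd_coprimes hn h1 h2
  exact ht0 p (AddMonoid.addOrderOf_eq_one_iff.1 h3)
 -- PROVE THIS

theorem gen_mod_p {B : Type} [AddCommGroup B] (p : ℕ) [Fact p.Prime] [Module (ZMod p) B]
    (hB : ¬ Big (AddSubgroup B)) : ∃ (ι : Type) (_ : Finite ι) (v : ι → B),
      Submodule.span (ZMod p) (Set.range v) = ⊤ := by
  obtain ⟨ι, ⟨b⟩⟩ : ∃ ι : Type, Nonempty (Module.Basis ι (ZMod p) B) :=
    ⟨_, ⟨Module.Basis.ofVectorSpace (ZMod p) B⟩⟩
  refine ⟨ι, ?_, fun i => b i, b.span_eq⟩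
  by_contra hinf
  rw [not_finite_iff_infinite] at hinf
  refine hB (big_of_indep (fun i => b i) ?_ hinf)
  intro S i hi hmem
  have h1 : AddSubgroup.closure ((fun i => b i) '' S) ≤
      (Submodule.span (ZMod p) ((fun i => b i) '' S)).toAddSubgroup := by
    rw [AddSubgroup.closure_le]
    exact Submodule.subset_span
  exact b.linearIndependent.notMem_span_image hi (h1 hmem)

theorem lift_span {T B : Type} [AddCommGroup T] [AddCommGroup B] (p : ℕ) [Fact p.Prime]
    [Module (ZMod p) B] (f : T →+ B) {ι : Type} (b : ι → B) (t : ι → T) (ht : ∀ i, f (t i) = b i)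
    (y : B) (hy : y ∈ Submodule.span (ZMod p) (Set.range b)) :
    ∃ x ∈ AddSubgroup.closure (Set.range t), f x = y := by
  induction hy using Submodule.span_induction with
  | mem y hy =>
    obtain ⟨i, rfl⟩ := hy
    exact ⟨t i, AddSubgroup.subset_closure ⟨i, rfl⟩, ht i⟩
  | zero => exact ⟨0, zero_mem _, map_zero _⟩
  | add y z _ _ hy hz =>
    obtain ⟨x1, h1, h2⟩ := hy
    obtain ⟨x3, h3, h4⟩ := hz
    exact ⟨x1 + x3, add_mem h1 h3, by rw [map_add, h2, h4]⟩
  | smul a y _ hy =>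
    obtain ⟨x1, h1, h2⟩ := hy
    refine ⟨a.val • x1, AddSubgroup.nsmul_mem _ h1 _, ?_⟩
    rw [map_nsmul, h2, ← Nat.cast_smul_eq_nsmul (ZMod p), ZMod.natCast_zmod_val]

theorem lift_fg {T B : Type} [AddCommGroup T] [AddCommGroup B] (p : ℕ) [Fact p.Prime]
    [Module (ZMod p) B] (f : T →+ B) (hf : Function.Surjective f) (hB : ¬ Big (AddSubgroup B)) :
    ∃ X : AddSubgroup T, X.FG ∧ ∀ u : T, ∃ x ∈ X, f x = f u := by
  obtain ⟨ι, hfin, b, hb⟩ := gen_mod_p (B := B) p hB
  choose t ht using fun i => hf (b i)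
  refine ⟨AddSubgroup.closure (Set.range t), ?_, ?_⟩
  · rw [AddSubgroup.fg_iff]
    exact ⟨Set.range t, rfl, Set.finite_range t⟩
  · intro u
    exact lift_span p f b t ht (f u) (by rw [hb]; exact Submodule.mem_top)

theorem finite_mod_p {T : Type} [AddCommGroup T] (h : ¬ Big (AddSubgroup T)) (p : ℕ)
    (hp : p.Prime) : ∃ X : AddSubgroup T, X.FG ∧ ∀ t : T, ∃ x ∈ X, ∃ s : T, t = x + p • s := by
  have hfact : Fact p.Prime := ⟨hp⟩
  let P : AddSubgroup T := (nsmulAddMonoidHom (α := T) p).range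
  have hB : ¬ Big (AddSubgroup (T ⧸ P)) := fun hb =>
    h (big_of_surj (QuotientAddGroup.mk' P) (QuotientAddGroup.mk'_surjective P) hb)
  have hpB : ∀ y : T ⧸ P, p • y = 0 := by
    intro y
    obtain ⟨t, rfl⟩ := QuotientAddGroup.mk'_surjective P y
    rw [← map_nsmul]
    rw [QuotientAddGroup.mk'_apply, QuotientAddGroup.eq_zero_iff]
    exact ⟨t, rfl⟩
  let _ : Module (ZMod p) (T ⧸ P) := AddCommGroup.zmodModule hpB
  obtain ⟨X, hX, hX2⟩ := lift_fg p (QuotientAddGroup.mk' P) (QuotientAddGroup.mk'_surjective P) hB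
  refine ⟨X, hX, fun u => ?_⟩
  obtain ⟨x, hx, hxu⟩ := hX2 u
  refine ⟨x, hx, ?_⟩
  rw [QuotientAddGroup.mk'_apply, QuotientAddGroup.mk'_apply, QuotientAddGroup.eq] at hxu
  obtain ⟨s, hs⟩ := hxu
  refine ⟨s, ?_⟩
  have hs' : p • s = -x + u := hs
  rw [hs']
  abel

theorem big_of_divisible {D : Type} [AddCommGroup D] (p : ℕ) (hp : p.Prime)
    (hdiv : ∀ d : D, ∃ e : D, p • e = d) (d : D) (hd : d ≠ 0) (hpd : p • d = 0) :
    Big (AddSubgroup (D × D)) := by
  classical
  choose nxt hnxt using hdiv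
  obtain ⟨e, he0, hes⟩ : ∃ e : ℕ → D, e 0 = d ∧ ∀ n, p • e (n+1) = e n :=
    ⟨fun n => nxt^[n] d, rfl, fun n => by
      simp only [Function.iterate_succ_apply']
      exact hnxt _⟩
  have h1 : ∀ n, p ^ n • e n = d := by
    intro n
    induction n with
    | zero => simpa using he0
    | succ n ih => rw [pow_succ, mul_smul, hes, ih]
  have h2 : ∀ n, p ^ (n+1) • e n = 0 := by
    intro n
    rw [pow_succ', mul_smul, h1, hpd]
  have h2' : ∀ n m, n ≤ m → p ^ (m+1) • e n = 0 := by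
    intro n m hnm
    obtain ⟨k, rfl⟩ := Nat.exists_eq_add_of_le hnm
    have : p ^ (n + k + 1) = p ^ k * p ^ (n+1) := by rw [← pow_add]; congr 1; omega
    rw [this, mul_smul, h2, smul_zero]
  obtain ⟨u, hu⟩ : ∃ u : Set ℕ → ℕ → ℕ, ∀ S n, u S n =
    ∑ i ∈ Finset.range (n+1), if i ∈ S then p ^ i else 0 := ⟨_, fun _ _ => rfl⟩
  have hus : ∀ S n, u S (n+1) = u S n + if (n+1) ∈ S then p ^ (n+1) else 0 := by
    intro S n
    rw [hu, hu, Finset.sum_range_succ _ (n+1)]
  have hue : ∀ S n m, n ≤ m → u S m • e n = u S n • e n := by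
    intro S n m hnm
    induction m, hnm using Nat.le_induction with
    | base => rfl
    | succ m hm ih =>
      rw [hus, add_smul, ih]
      split_ifs
      · rw [h2' n m hm, add_zero]
      · rw [zero_smul, add_zero]
  obtain ⟨g, hg⟩ : ∃ g : Set ℕ → ℕ → D × D, ∀ S n, g S n = (e n, u S n • e n) :=
    ⟨_, fun _ _ => rfl⟩
  have hgs : ∀ S n, p • g S (n+1) = g S n := by
    intro S n
    rw [hg, hg]
    refine Prod.ext ?_ ?_
    · exact hes n
    · show p • (u S (n+1) • e (n+1)) = u S n • e n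
      rw [smul_comm, hes, hue S n (n+1) (Nat.le_succ n)]
  have hgk : ∀ S n k, p ^ k • g S (n+k) = g S n := by
    intro S n k
    induction k with
    | zero => simp
    | succ k ih => rw [pow_succ, mul_smul, ← add_assoc, hgs, ih]
  have hB : ∀ S, ∀ x ∈ AddSubgroup.closure (Set.range (g S)), ∀ N : ℕ, ∃ m, N ≤ m ∧
      ∃ k : ℤ, x = k • g S m := by
    intro S x hx
    induction hx using AddSubgroup.closure_induction with
    | mem x hx =>
      intro N
      obtain ⟨n, rfl⟩ := hx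
      refine ⟨n + N, by omega, ((p ^ N : ℕ) : ℤ), ?_⟩
      rw [natCast_zsmul, hgk]
    | zero => intro N; exact ⟨N, le_refl _, 0, by simp⟩
    | add x y _ _ hx hy =>
      intro N
      obtain ⟨m, hm, k, hk⟩ := hx N
      obtain ⟨m', hm', l, hl⟩ := hy m
      obtain ⟨j, rfl⟩ := Nat.exists_eq_add_of_le hm'
      refine ⟨m + j, by omega, k * ((p ^ j : ℕ) : ℤ) + l, ?_⟩
      rw [add_smul, mul_smul, natCast_zsmul, hgk, ← hk, ← hl]
    | neg x _ hx =>
      intro N
      obtain ⟨m, hm, k, hk⟩ := hx N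
      exact ⟨m, hm, -k, by rw [neg_smul, ← hk]⟩
  have hkey : ∀ S n y, (e n, y) ∈ AddSubgroup.closure (Set.range (g S)) → y = u S n • e n := by
    intro S n y hy
    obtain ⟨m, hm, k, hk⟩ := hB S _ hy n
    rw [hg] at hk
    have ha : e n = k • e m := congrArg Prod.fst hk
    have hb : y = k • (u S m • e m) := congrArg Prod.snd hk
    rw [hb, smul_comm, ← ha, hue S n m hm]
  refine ⟨fun S => AddSubgroup.closure (Set.range (g S)), ?_⟩
  intro S S' hSS
  have hSS' : AddSubgroup.closure (Set.range (g S)) = AddSubgroup.closure (Set.range (g S')) := hSS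
  have heq : ∀ n, u S n • e n = u S' n • e n := by
    intro n
    apply hkey S' n
    rw [← hSS', ← hg]
    exact AddSubgroup.subset_closure ⟨n, rfl⟩
  ext n
  induction n using Nat.strong_induction_on with
  | _ n ih =>
    have hA : ∑ i ∈ Finset.range n, (if i ∈ S then p ^ i else 0) =
        ∑ i ∈ Finset.range n, (if i ∈ S' then p ^ i else 0) := by
      apply Finset.sum_congr rfl
      intro i hi
      simp only [ih i (Finset.mem_range.1 hi)]
    have h := heq n
    rw [hu, hu, Finset.sum_range_succ, Finset.sum_range_succ, hA, add_smul, add_smul] at h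
    have h' := add_left_cancel h
    by_cases a : n ∈ S <;> by_cases b : n ∈ S'
    · simp [a, b]
    · exfalso
      simp only [a, b, if_true, if_false, h1, zero_smul] at h'
      exact hd h'
    · exfalso
      simp only [a, b, if_true, if_false, h1, zero_smul] at h'
      exact hd h'.symm
    · simp [a, b]

theorem fgbot730 {B : Type} [AddCommGroup B] : (⊥ : AddSubgroup B).FG :=
  ⟨∅, by simp⟩

theorem lemmaL {A : Type} [AddCommGroup A] (h : ¬ Big (AddSubgroup (A × A))) :
    AddGroup.FG A := by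
  classical
  have hA : ¬ Big (AddSubgroup A) := fun hb => h (big_of_surj (AddMonoidHom.fst A A)
    Prod.fst_surjective hb)
  obtain ⟨F, hF, htor⟩ := exists_fg_torsion hA
  have hmk : Function.Surjective (QuotientAddGroup.mk' F) := QuotientAddGroup.mk'_surjective F
  have hT : ¬ Big (AddSubgroup (A ⧸ F)) := fun hb => hA (big_of_surj (QuotientAddGroup.mk' F) hmk hb)
  have hfin := finite_primes hT
  have hX : ∀ p : ℕ, ∃ X : AddSubgroup (A ⧸ F), X.FG ∧ (p.Prime → ∀ t : A ⧸ F, ∃ x ∈ X,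
      ∃ s : A ⧸ F, t = x + p • s) := by
    intro p
    by_cases hp : p.Prime
    · obtain ⟨X, h1, h2⟩ := finite_mod_p hT p hp
      exact ⟨X, h1, fun _ => h2⟩
    · exact ⟨⊥, fgbot730, fun h => absurd h hp⟩
  choose X hXfg hXd using hX
  set P : Finset ℕ := hfin.toFinset with hP
  have hXX : ∀ P : Finset ℕ, (P.sup X).FG := by
    intro P
    induction P using Finset.induction_on with
    | empty => rw [Finset.sup_empty]; exact fgbot730
    | insert p P _ ih => rw [Finset.sup_insert]; exact (hXfg p).sup ih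
  obtain ⟨S, hS⟩ := hXX P
  -- lift to `A`
  set Y : AddSubgroup A := AddSubgroup.closure ((S.image Quotient.out : Finset A) : Set A) with hY
  have hYmap : Y.map (QuotientAddGroup.mk' F) = P.sup X := by
    rw [hY, AddMonoidHom.map_closure, ← hS]
    congr 1
    ext t
    simp only [Finset.coe_image, Set.mem_image, Finset.mem_coe, exists_exists_and_eq_and]
    constructor
    · rintro ⟨u, hu, rfl⟩
      have : (QuotientAddGroup.mk' F) (Quotient.out u) = u := Quotient.out_eq u
      rwa [this]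
    · intro ht
      exact ⟨t, ht, Quotient.out_eq t⟩
  have hYfg : Y.FG := ⟨_, rfl⟩
  set F' : AddSubgroup A := F ⊔ Y with hF'
  have hF'fg : F'.FG := hF.sup hYfg
  by_cases htop : F' = ⊤
  · rw [AddGroup.fg_def, ← htop]
    exact hF'fg
  exfalso
  obtain ⟨a, ha⟩ : ∃ a, a ∉ F' := by
    by_contra hcon
    push Not at hcon
    exact htop ((AddSubgroup.eq_top_iff' F').2 hcon)
  have hmk' : Function.Surjective (QuotientAddGroup.mk' F') := QuotientAddGroup.mk'_surjective F'
  -- divisibility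
  have hdiv : ∀ p ∈ P, ∀ d : A ⧸ F', ∃ e : A ⧸ F', p • e = d := by
    intro p hp d
    have hpp : p.Prime := ((Set.Finite.mem_toFinset _).1 hp).1
    obtain ⟨b, rfl⟩ := hmk' d
    obtain ⟨x, hx, s, hxs⟩ := hXd p hpp (QuotientAddGroup.mk' F b)
    have hx' : x ∈ P.sup X := (Finset.le_sup (f := X) hp) hx
    rw [← hYmap, AddSubgroup.mem_map] at hx'
    obtain ⟨y, hy, rfl⟩ := hx'
    obtain ⟨a', rfl⟩ := hmk s
    have h1 : QuotientAddGroup.mk' F (b - y - p • a') = 0 := by
      rw [map_sub, map_sub, map_nsmul, hxs]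
      abel
    have h2 : b - y - p • a' ∈ F := by
      rwa [QuotientAddGroup.mk'_apply, QuotientAddGroup.eq_zero_iff] at h1
    refine ⟨QuotientAddGroup.mk' F' a', ?_⟩
    have h3 : b - p • a' ∈ F' := by
      have : b - p • a' = (b - y - p • a') + y := by abel
      rw [this]
      exact AddSubgroup.add_mem _ (AddSubgroup.mem_sup_left h2) (AddSubgroup.mem_sup_right hy)
    have h4 : QuotientAddGroup.mk' F' (b - p • a') = 0 := by
      rwa [QuotientAddGroup.mk'_apply, QuotientAddGroup.eq_zero_iff]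
    rw [map_sub, map_nsmul, sub_eq_zero] at h4
    exact h4.symm
  -- torsion
  obtain ⟨n, hn0, hna⟩ := htor a
  set t0 : A ⧸ F := QuotientAddGroup.mk' F a with ht0
  set d0 : A ⧸ F' := QuotientAddGroup.mk' F' a with hd0
  have hnt : n • t0 = 0 := by
    rw [ht0, ← map_nsmul, QuotientAddGroup.mk'_apply, QuotientAddGroup.eq_zero_iff]
    exact hna
  have hd0ne : d0 ≠ 0 := by
    rw [hd0]
    intro h0
    rw [QuotientAddGroup.mk'_apply, QuotientAddGroup.eq_zero_iff] at h0
    exact ha h0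
  have hm_pos : 0 < addOrderOf t0 :=
    addOrderOf_pos_iff.2 (isOfFinAddOrder_iff_nsmul_eq_zero.2 ⟨n, Nat.pos_of_ne_zero hn0, hnt⟩)
  have hmd : addOrderOf t0 • d0 = 0 := by
    have h1 : addOrderOf t0 • t0 = 0 := addOrderOf_nsmul_eq_zero t0
    rw [ht0, ← map_nsmul, QuotientAddGroup.mk'_apply, QuotientAddGroup.eq_zero_iff] at h1
    rw [hd0, ← map_nsmul, QuotientAddGroup.mk'_apply, QuotientAddGroup.eq_zero_iff]
    exact AddSubgroup.mem_sup_left h1
  have hdvd : addOrderOf d0 ∣ addOrderOf t0 := addOrderOf_dvd_of_nsmul_eq_zero hmd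
  have hdpos : 0 < addOrderOf d0 := Nat.pos_of_dvd_of_pos hdvd hm_pos
  have hd1 : addOrderOf d0 ≠ 1 := by
    rw [Ne, AddMonoid.addOrderOf_eq_one_iff]
    exact hd0ne
  set q := (addOrderOf d0).minFac with hq
  have hqp : q.Prime := Nat.minFac_prime hd1
  have hqd : q ∣ addOrderOf d0 := Nat.minFac_dvd _
  have hqt : q ∣ addOrderOf t0 := hqd.trans hdvd
  have aux : ∀ {B : Type} [AddCommGroup B] (z : B), 0 < addOrderOf z → q ∣ addOrderOf z →
      (addOrderOf z / q) • z ≠ 0 ∧ q • ((addOrderOf z / q) • z) = 0 := by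
    intro B _ z hz hqz
    constructor
    · intro h0
      have h1 := addOrderOf_dvd_of_nsmul_eq_zero h0
      have h2 : 0 < addOrderOf z / q := Nat.div_pos (Nat.le_of_dvd hz hqz) hqp.pos
      have h3 := Nat.le_of_dvd h2 h1
      have h4 : addOrderOf z / q < addOrderOf z := Nat.div_lt_self hz hqp.one_lt
      omega
    · rw [← mul_nsmul', Nat.mul_div_cancel' hqz]
      exact addOrderOf_nsmul_eq_zero z
  obtain ⟨ht1, ht2⟩ := aux t0 hm_pos hqt
  obtain ⟨hd2, hd3⟩ := aux d0 hdpos hqd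
  have hqP : q ∈ P := (Set.Finite.mem_toFinset _).2 ⟨hqp, _, ht1, ht2⟩
  have hbig := big_of_divisible q hqp (hdiv q hqP) _ hd2 hd3
  refine h (big_of_surj (AddMonoidHom.prodMap (QuotientAddGroup.mk' F') (QuotientAddGroup.mk' F')) ?_ hbig)
  exact Function.Surjective.prodMap hmk' hmk'

end Pool.Agent.Helper730.SM
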