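import Pool.Agent.Helper730.SMA

set_option autoImplicit false

open scoped commutatorElement

namespace Pool.Agent.Helper730.SM

theorem countable_hom {H K : Type} [Group H] [Group K] (hfg : Group.FG H) [Countable K] :
    Countable (H →* K) := by
  obtain ⟨S, hS, hfin⟩ := Group.fg_iff.1 hfg
  have : Finite S := hfin
  have hinj : Function.Injective (fun (φ : H →* K) (x : S) => φ x.1) := by
    intro φ ψ h
    apply MonoidHom.eq_of_eqOn_dense hS
    intro x hx
    exact congrFun h ⟨x, hx⟩
  exact hinj.countable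

theorem countable_of_fg {H : Type} [Group H] (hfg : Group.FG H) : Countable H := by
  obtain ⟨α, hα, φ, hφ⟩ := Group.fg_iff_exists_freeGroup_hom_surjective_finite.1 hfg
  exact hφ.countable

theorem nb_of_small {G : Type} [Group G] (hs : SmallVar G) : NB G := by
  obtain ⟨T, hT, hsm⟩ := hs
  intro H _ hfg hvar
  have hH : Countable H := countable_of_fg hfg
  have key : ∀ N : {N : Subgroup H // N.Normal}, ∃ (n : ℕ) (φ : H →* T n),
      Function.Surjective φ ∧ φ.ker = N.1 := by
    intro N
    have hN : N.1.Normal := N.2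
    have h1 : Group.FG (H ⧸ N.1) := QuotientGroup.fg N.1
    obtain ⟨n, ⟨e⟩⟩ := hsm (H ⧸ N.1) h1 (inVar_of_surjective hvar (QuotientGroup.mk' N.1)
      (QuotientGroup.mk'_surjective N.1))
    refine ⟨n, e.toMonoidHom.comp (QuotientGroup.mk' N.1), ?_, ?_⟩
    · exact e.surjective.comp (QuotientGroup.mk'_surjective N.1)
    · ext x
      rw [MonoidHom.mem_ker, MonoidHom.comp_apply]
      have : e.toMonoidHom ((QuotientGroup.mk' N.1) x) = 1 ↔ (QuotientGroup.mk' N.1) x = 1 :=
        e.map_eq_one_iff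
      rw [this, ← MonoidHom.mem_ker, QuotientGroup.ker_mk']
  choose n φ hsur hker using key
  have hc : ∀ m : {m : ℕ // Countable (T m)}, Countable (H →* T m.1) := fun m =>
    haveI := m.2
    countable_hom hfg
  have hinj : Function.Injective (fun N : {N : Subgroup H // N.Normal} =>
      (⟨⟨n N, (hsur N).countable⟩, φ N⟩ : Σ m : {m : ℕ // Countable (T m)}, (H →* T m.1))) := by
    intro N M h
    have h1 : ∀ a b : (Σ m : {m : ℕ // Countable (T m)}, (H →* T m.1)), a = b →
        a.2.ker = b.2.ker := by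
      rintro a b rfl; rfl
    have h2 := h1 _ _ h
    apply Subtype.ext
    rw [← hker N, ← hker M]
    exact h2
  have : Countable {N : Subgroup H // N.Normal} := hinj.countable
  exact not_big_of_countable

/-- the embedding of the square of the centre -/
def cEmb (H : Type) [Group H] (b : Additive (Subgroup.center H) × Additive (Subgroup.center H)) :
    H × H := ((Additive.toMul b.1 : Subgroup.center H).1, (Additive.toMul b.2 : Subgroup.center H).1)

theorem cEmb_inj (H : Type) [Group H] : Function.Injective (cEmb H) := by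
  intro a b hab
  have h1 := congrArg Prod.fst hab
  have h2 := congrArg Prod.snd hab
  apply Prod.ext
  · exact Additive.toMul.injective (Subtype.ext h1)
  · exact Additive.toMul.injective (Subtype.ext h2)

/-- the normal subgroup attached to a subgroup of the square of the centre -/
def cSub (H : Type) [Group H]
    (B : AddSubgroup (Additive (Subgroup.center H) × Additive (Subgroup.center H))) :
    Subgroup (H × H) where
  carrier := {x | ∃ b ∈ B, x = cEmb H b}
  mul_mem' := by
    rintro _ _ ⟨b, hb, rfl⟩ ⟨c, hc, rfl⟩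
    exact ⟨b + c, B.add_mem hb hc, rfl⟩
  one_mem' := ⟨0, B.zero_mem, rfl⟩
  inv_mem' := by
    rintro _ ⟨b, hb, rfl⟩
    exact ⟨-b, B.neg_mem hb, rfl⟩

theorem cSub_normal (H : Type) [Group H]
    (B : AddSubgroup (Additive (Subgroup.center H) × Additive (Subgroup.center H))) :
    (cSub H B).Normal := by
  constructor
  rintro _ ⟨b, hb, rfl⟩ g
  have h1 := Subgroup.mem_center_iff.mp (Additive.toMul b.1 : Subgroup.center H).2 g.1
  have h2 := Subgroup.mem_center_iff.mp (Additive.toMul b.2 : Subgroup.center H).2 g.2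
  have h3 : g * cEmb H b * g⁻¹ = cEmb H b := by
    apply Prod.ext
    · show g.1 * (Additive.toMul b.1 : Subgroup.center H).1 * g.1⁻¹ =
        (Additive.toMul b.1 : Subgroup.center H).1
      rw [h1, mul_inv_cancel_right]
    · show g.2 * (Additive.toMul b.2 : Subgroup.center H).1 * g.2⁻¹ =
        (Additive.toMul b.2 : Subgroup.center H).1
      rw [h2, mul_inv_cancel_right]
  rw [h3]
  exact ⟨b, hb, rfl⟩

theorem mem_cSub (H : Type) [Group H]
    (B : AddSubgroup (Additive (Subgroup.center H) × Additive (Subgroup.center H)))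
    (b : Additive (Subgroup.center H) × Additive (Subgroup.center H)) :
    cEmb H b ∈ cSub H B ↔ b ∈ B := by
  constructor
  · rintro ⟨c, hc, h⟩
    rw [cEmb_inj H h]; exact hc
  · intro hb
    exact ⟨b, hb, rfl⟩

theorem center_fg {H : Type} [Group H] (h : ¬ Big {N : Subgroup (H × H) // N.Normal}) :
    Group.FG (Subgroup.center H) := by
  rw [GroupFG.iff_add_fg]
  let inst : AddCommGroup (Additive (Subgroup.center H)) :=
    { (inferInstance : AddGroup (Additive (Subgroup.center H))) with
      add_comm := fun a b => by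
        apply Additive.toMul.injective
        apply Subtype.ext
        exact Subgroup.mem_center_iff.mp (Additive.toMul b : Subgroup.center H).2
          (Additive.toMul a : Subgroup.center H).1 }
  have hL : ¬ Big (AddSubgroup (Additive (Subgroup.center H) × Additive (Subgroup.center H))) →
      AddGroup.FG (Additive (Subgroup.center H)) := lemmaL (A := Additive (Subgroup.center H))
  refine hL ?_
  intro hB
  apply h
  refine big_of_injective (fun B => ⟨cSub H B, cSub_normal H B⟩) ?_ hB
  intro B C hBC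
  have h1 : cSub H B = cSub H C := congrArg Subtype.val hBC
  ext b
  rw [← mem_cSub H B b, ← mem_cSub H C b, h1]

theorem fg_of_finiteIndex_inf {Q : Type} [Group Q] (K L : Subgroup Q) (hKL : (K ⊓ L).FG)
    (hL : L.FiniteIndex) : K.FG := by
  classical
  obtain ⟨S, hS, hSf⟩ := (Subgroup.fg_iff _).mp hKL
  have hfi : (L.subgroupOf K).FiniteIndex := inferInstance
  have hfin : Finite (K ⧸ (L.subgroupOf K)) := Subgroup.finite_quotient_of_finiteIndex
  refine (Subgroup.fg_iff _).mpr ⟨S ∪ Set.range (fun q : K ⧸ (L.subgroupOf K) => ((q.out : K) : Q)), ?_,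
    hSf.union (Set.finite_range _)⟩
  apply le_antisymm
  · rw [Subgroup.closure_le]
    rintro x (hx | ⟨q, rfl⟩)
    · have : x ∈ K ⊓ L := by rw [← hS]; exact Subgroup.subset_closure hx
      exact this.1
    · exact (q.out : K).2
  · intro x hx
    set q : K ⧸ (L.subgroupOf K) := QuotientGroup.mk ⟨x, hx⟩ with hq
    have h1 : (q.out : K)⁻¹ * ⟨x, hx⟩ ∈ L.subgroupOf K := by
      rw [← QuotientGroup.eq, QuotientGroup.out_eq']
    rw [Subgroup.mem_subgroupOf] at h1
    have h2 : ((q.out : K) : Q)⁻¹ * x ∈ K ⊓ L := by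
      refine ⟨K.mul_mem (K.inv_mem (q.out : K).2) hx, ?_⟩
      simpa using h1
    rw [← hS] at h2
    have h3 : x = ((q.out : K) : Q) * (((q.out : K) : Q)⁻¹ * x) := by group
    rw [h3]
    refine Subgroup.mul_mem _ (Subgroup.subset_closure (Or.inr ⟨q, rfl⟩)) ?_
    exact Subgroup.closure_mono Set.subset_union_left h2

theorem fg_of_le_fg_central {H : Type} [Group H] (h : Group.FG (Subgroup.center H))
    (K : Subgroup H) (hK : K ≤ Subgroup.center H) : K.FG := by
  let _ : CommGroup (Subgroup.center H) :=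
    { (inferInstance : Group (Subgroup.center H)) with
      mul_comm := fun a b => Subtype.ext (Subgroup.mem_center_iff.mp b.2 a.1) }
  have h1 : AddGroup.FG (Additive (Subgroup.center H)) := GroupFG.iff_add_fg.mp h
  have h2 : Module.Finite ℤ (Additive (Subgroup.center H)) := Module.Finite.iff_addGroup_fg.mpr h1
  have h3 : IsNoetherian ℤ (Additive (Subgroup.center H)) := inferInstance
  have h4 : (K.subgroupOf (Subgroup.center H)).FG := by
    rw [Subgroup.fg_iff_add_fg]
    have h5 := h3.noetherian (AddSubgroup.toIntSubmodule (Subgroup.toAddSubgroup (K.subgroupOf (Subgroup.center H))))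
    rw [Submodule.fg_iff_addSubgroup_fg] at h5
    simpa using h5
  classical
  obtain ⟨S, hS⟩ := h4
  refine ⟨S.image (Subgroup.center H).subtype, ?_⟩
  have h6 := congrArg (Subgroup.map (Subgroup.center H).subtype) hS
  rw [MonoidHom.map_closure, Subgroup.subgroupOf_map_subtype, inf_eq_left.mpr hK] at h6
  rw [Finset.coe_image]
  exact h6

theorem factor_fg {G Q : Type} [Group G] [Group Q] (hNB : NB G) (hfg : Group.FG Q)
    (hQ : InVar G Q) (N H : Subgroup Q) (hH : H.FiniteIndex)
    (hc : ∀ n ∈ N, ∀ h ∈ H, n * h = h * n) (K : Subgroup Q) (hK : K ≤ N) : K.FG := by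
  classical
  haveI := hfg
  haveI := hH
  have hHfg : Group.FG H := Subgroup.fg_of_index_ne_zero H
  have hHvar : InVar G H := inVar_of_injective hQ H.subtype H.subtype_injective
  have hHH : InVar G (H × H) := inVar_prod hHvar hHvar
  have hHHfg : Group.FG (H × H) := inferInstance
  have hcfg : Group.FG (Subgroup.center H) := center_fg (hNB (H × H) hHHfg hHH)
  have hle : (K ⊓ H).subgroupOf H ≤ Subgroup.center H := by
    intro x hx
    rw [Subgroup.mem_subgroupOf] at hx
    rw [Subgroup.mem_center_iff]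
    intro g
    exact Subtype.ext (hc x.1 (hK hx.1) g.1 g.2).symm
  have h1 : ((K ⊓ H).subgroupOf H).FG := fg_of_le_fg_central hcfg _ hle
  have h2 : (K ⊓ H).FG := by
    have h3 : ((K ⊓ H).subgroupOf H).map H.subtype = K ⊓ H := by
      rw [Subgroup.subgroupOf_map_subtype, inf_assoc, inf_idem]
    rw [← h3]
    obtain ⟨S, hS⟩ := h1
    exact ⟨S.image H.subtype, by rw [Finset.coe_image, ← MonoidHom.map_closure, hS]⟩
  exact fg_of_finiteIndex_inf K H h2 hH

theorem chain_factor {G : Type} [Group G] (hNB : NB G) (hfg : Group.FG G)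
    (M N H : Subgroup G) (hM : M.Normal) (hH : H.FiniteIndex)
    (hc : ∀ n ∈ N, ∀ h ∈ H, ⁅n, h⁆ ∈ M) (K : ℕ → Subgroup G) (hK : Monotone K)
    (h1 : ∀ j, M ≤ K j) (h2 : ∀ j, K j ≤ N) : ∃ k, ∀ m, k ≤ m → K m = K k := by
  classical
  have hqs : Function.Surjective (QuotientGroup.mk' M) := QuotientGroup.mk'_surjective M
  have hfg' : Group.FG (G ⧸ M) := Group.fg_of_surjective hqs
  have hQ : InVar G (G ⧸ M) := inVar_of_surjective (inVar_self G) (QuotientGroup.mk' M) hqs
  have hH' : (H.map (QuotientGroup.mk' M)).FiniteIndex := ⟨fun h0 => hH.index_ne_zero (by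
    have h3 := Subgroup.index_map_dvd H hqs
    rw [h0] at h3
    exact Nat.eq_zero_of_zero_dvd h3)⟩
  have hcomm : ∀ n ∈ N.map (QuotientGroup.mk' M), ∀ h ∈ H.map (QuotientGroup.mk' M),
      n * h = h * n := by
    rintro _ ⟨n, hn, rfl⟩ _ ⟨h, hh, rfl⟩
    have h4 := hc n hn h hh
    have h3 : (QuotientGroup.mk' M) ⁅n,h⁆ = 1 := (QuotientGroup.eq_one_iff _).2 h4
    rw [map_commutatorElement, commutatorElement_eq_one_iff_mul_comm] at h3
    exact h3
  have hU : (⨆ j, K j) ≤ N := iSup_le h2
  have hFG := factor_fg hNB hfg' hQ (N.map (QuotientGroup.mk' M)) (H.map (QuotientGroup.mk' M)) hH'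
    hcomm ((⨆ j, K j).map (QuotientGroup.mk' M)) (Subgroup.map_mono hU)
  obtain ⟨S, hS⟩ := hFG
  have hdir : Directed (· ≤ ·) K := hK.directed_le
  have hlift : ∀ s ∈ S, ∃ j, s ∈ (K j).map (QuotientGroup.mk' M) := by
    intro s hs
    have h5 : s ∈ (⨆ j, K j).map (QuotientGroup.mk' M) := by
      rw [← hS]; exact Subgroup.subset_closure hs
    obtain ⟨u, hu, rfl⟩ := h5
    obtain ⟨j, hj⟩ := (Subgroup.mem_iSup_of_directed hdir).1 hu
    exact ⟨j, u, hj, rfl⟩
  choose! j hj using hlift
  have hk : ∀ s ∈ S, s ∈ (K (S.sup j)).map (QuotientGroup.mk' M) := fun s hs =>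
    Subgroup.map_mono (hK (Finset.le_sup hs)) (hj s hs)
  have hle : ∀ m, K m ≤ K (S.sup j) := by
    intro m g hg
    have h1' : (QuotientGroup.mk' M) g ∈ (⨆ j, K j).map (QuotientGroup.mk' M) :=
      ⟨g, Subgroup.mem_iSup_of_mem m hg, rfl⟩
    rw [← hS] at h1'
    have h2' : Subgroup.closure (S : Set (G ⧸ M)) ≤ (K (S.sup j)).map (QuotientGroup.mk' M) :=
      (Subgroup.closure_le _).2 hk
    obtain ⟨y, hy, hyq⟩ := h2' h1'
    have h6 : y⁻¹ * g ∈ M := QuotientGroup.eq.1 hyq
    have h7 := h1 (S.sup j) h6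
    simpa using (K (S.sup j)).mul_mem hy h7
  exact ⟨S.sup j, fun m hm => le_antisymm (hle m) (hK hm)⟩

theorem chain_main_modular {G : Type} [Group G] (A B P : Subgroup G) (hP : P.Normal) (hAB : A ≤ B)
    (hinf : A ⊓ P = B ⊓ P) (hsup : A ⊔ P = B ⊔ P) : A = B := by
  apply le_antisymm hAB
  intro b hb
  have h1 : b ∈ A ⊔ P := by
    rw [hsup]
    exact Subgroup.mem_sup_left hb
  obtain ⟨y, hy, z, hz, hyz⟩ := Subgroup.mem_sup_of_normal_right.1 h1
  have hzB : z ∈ B := by
    have : z = y⁻¹ * b := by rw [← hyz]; group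
    rw [this]
    exact B.mul_mem (B.inv_mem (hAB hy)) hb
  have hzA : z ∈ A ⊓ P := by
    rw [hinf]
    exact ⟨hzB, hz⟩
  rw [← hyz]
  exact A.mul_mem hy hzA.1

theorem chain_main_stab {G : Type} [Group G] (A : ℕ → Subgroup G) (hA : Monotone A)
    (P : Subgroup G) (hP : P.Normal) (hinf : ∃ m, ∀ j, m ≤ j → A j ⊓ P = A m ⊓ P)
    (hsup : ∃ m, ∀ j, m ≤ j → A j ⊔ P = A m ⊔ P) : ∃ m, ∀ j, m ≤ j → A j = A m := by
  obtain ⟨m1, h1⟩ := hinf
  obtain ⟨m2, h2⟩ := hsup
  refine ⟨max m1 m2, fun j hj => ?_⟩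
  symm
  apply chain_main_modular (A (max m1 m2)) (A j) P hP (hA hj)
  · rw [h1 _ (le_max_left _ _), h1 j ((le_max_left _ _).trans hj)]
  · rw [h2 _ (le_max_right _ _), h2 j ((le_max_right _ _).trans hj)]

theorem chain_main {G : Type} [Group G] (hNB : NB G) (hfg : Group.FG G) (k : ℕ)
    (N : ℕ → Subgroup G) (hN : ∀ i, (N i).Normal) (h0 : N 0 = ⊥)
    (hc : ∀ i < k, N i ≤ N (i + 1) ∧ ∃ H : Subgroup G, H.FiniteIndex ∧
      ∀ n ∈ N (i + 1), ∀ h ∈ H, ⁅n, h⁆ ∈ N i)
    (hmax : ∀ K : ℕ → Subgroup G, (∀ j, (K j).Normal) → Monotone K → (∀ j, N k ≤ K j) →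
      ∃ m, ∀ j, m ≤ j → K j = K m) :
    ∀ K : ℕ → Subgroup G, (∀ j, (K j).Normal) → Monotone K → ∃ m, ∀ j, m ≤ j → K j = K m := by
  intro K hKn hK
  have claim : ∀ i, i ≤ k → ∃ m, ∀ j, m ≤ j → K j ⊓ N i = K m ⊓ N i := by
    intro i
    induction i with
    | zero =>
      intro _
      exact ⟨0, fun j _ => by rw [h0, inf_bot_eq, inf_bot_eq]⟩
    | succ i ih =>
      intro hi
      obtain ⟨hle, H, hH, hcomm⟩ := hc i (by omega)
      have hmono : Monotone (fun j => K j ⊓ N (i + 1)) :=
        fun a b hab => inf_le_inf_right _ (hK hab)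
      refine chain_main_stab (fun j => K j ⊓ N (i + 1)) hmono (N i) (hN i) ?_ ?_
      · obtain ⟨m, hm⟩ := ih (by omega)
        refine ⟨m, fun j hj => ?_⟩
        simp only [inf_assoc, inf_eq_right.2 hle]
        exact hm j hj
      · exact chain_factor hNB hfg (N i) (N (i + 1)) H (hN i) hH hcomm
          (fun j => K j ⊓ N (i + 1) ⊔ N i) (fun a b hab => sup_le_sup_right (hmono hab) _)
          (fun j => le_sup_right) (fun j => sup_le inf_le_right hle)
  refine chain_main_stab K hK (N k) (hN k) (claim k le_rfl) ?_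
  refine hmax (fun j => K j ⊔ N k) (fun j => ?_) (fun a b hab => sup_le_sup_right (hK hab) _)
    (fun j => le_sup_right)
  haveI := hKn j
  haveI := hN k
  exact Subgroup.sup_normal (K j) (N k)

theorem small_big {H : Type} [Group H] (hfg : Group.FG H)
    (hbig : Big {N : Subgroup H // N.Normal}) :
    ∃ (s : Set ℕ → Subgroup H) (_ : ∀ a, (s a).Normal),
      ∀ a b, Nonempty ((H ⧸ s a) ≃* (H ⧸ s b)) → a = b := by
  classical
  obtain ⟨f, hf⟩ := hbig
  obtain ⟨α, hα, φ, hφ⟩ := Group.fg_iff_exists_freeGroup_hom_surjective_finite.mp hfg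
  haveI : Countable H := hφ.countable
  haveI hn : ∀ a, (f a).1.Normal := fun a => (f a).2
  have hcls : ∀ t : Set ℕ, Countable {s : Set ℕ // Nonempty ((H ⧸ (f s).1) ≃* (H ⧸ (f t).1))} := by
    intro t
    haveI : Countable (H ⧸ (f t).1) := (QuotientGroup.mk'_surjective (f t).1).countable
    haveI hc : Countable (H →* (H ⧸ (f t).1)) := by
      refine Function.Injective.countable
        (f := fun (ψ : H →* (H ⧸ (f t).1)) (a : α) => ψ (φ (FreeGroup.of a))) ?_
      intro ψ ψ' h
      have h2 : ψ.comp φ = ψ'.comp φ := by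
        apply FreeGroup.ext_hom
        intro a; exact congrFun h a
      apply MonoidHom.ext
      intro x
      obtain ⟨y, rfl⟩ := hφ x
      exact DFunLike.congr_fun h2 y
    refine Function.Injective.countable
      (f := fun s : {s : Set ℕ // Nonempty ((H ⧸ (f s).1) ≃* (H ⧸ (f t).1))} =>
        ((Classical.choice s.2).toMonoidHom).comp (QuotientGroup.mk' (f s.1).1)) ?_
    have key : ∀ s : {s : Set ℕ // Nonempty ((H ⧸ (f s).1) ≃* (H ⧸ (f t).1))},
        ((Classical.choice s.2).toMonoidHom.comp (QuotientGroup.mk' (f s.1).1)).ker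
          = (f s.1).1 := by
      intro s; ext x
      simp [MonoidHom.mem_ker]
    intro s s' h
    have : (f s.1).1 = (f s'.1).1 := by
      rw [← key s, ← key s']; exact congrArg MonoidHom.ker h
    exact Subtype.ext (hf (Subtype.ext this))
  let r : Setoid (Set ℕ) :=
    { r := fun a b => Nonempty ((H ⧸ (f a).1) ≃* (H ⧸ (f b).1))
      iseqv := ⟨fun a => ⟨MulEquiv.refl _⟩, fun ⟨e⟩ => ⟨e.symm⟩,
        fun ⟨e⟩ ⟨e'⟩ => ⟨e.trans e'⟩⟩ }
  have hq : ∀ q : Quotient r, Countable {s : Set ℕ // Quotient.mk r s = q} := by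
    intro q
    induction q using Quotient.inductionOn with
    | h t =>
      haveI := hcls t
      refine Function.Injective.countable
        (f := fun s : {s : Set ℕ // Quotient.mk r s = Quotient.mk r t} =>
          (⟨s.1, Quotient.exact s.2⟩ :
            {s : Set ℕ // Nonempty ((H ⧸ (f s).1) ≃* (H ⧸ (f t).1))})) ?_
      intro s s' h
      have := congrArg Subtype.val h
      exact Subtype.ext this
  have hinj : ∀ q : Quotient r, ∃ g : {s : Set ℕ // Quotient.mk r s = q} → ℕ,
      Function.Injective g := fun q => by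
    haveI := hq q
    exact exists_injective_nat _
  choose g hg using hinj
  have hcard : Cardinal.mk (Set ℕ) ≤ Cardinal.mk (Quotient r × ℕ) := by
    refine Cardinal.mk_le_of_injective (f := fun s => (Quotient.mk r s, g _ ⟨s, rfl⟩)) ?_
    intro s s' h
    have h1 := congrArg Prod.fst h
    have h2 := congrArg Prod.snd h
    have aux : ∀ (q q' : Quotient r) (x : {s : Set ℕ // Quotient.mk r s = q})
        (x' : {s : Set ℕ // Quotient.mk r s = q'}), q = q' → g q x = g q' x' → x.1 = x'.1 := by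
      rintro q q' x x' rfl h
      exact congrArg Subtype.val (hg q h)
    exact aux _ _ ⟨s, rfl⟩ ⟨s', rfl⟩ h1 h2
  have hset : Cardinal.aleph0 < Cardinal.mk (Set ℕ) := by
    rw [Cardinal.mk_set, Cardinal.mk_nat]
    exact Cardinal.cantor _
  have hbigq : Cardinal.mk (Set ℕ) ≤ Cardinal.mk (Quotient r) := by
    by_contra hlt
    push Not at hlt
    have : Cardinal.mk (Quotient r × ℕ) < Cardinal.mk (Set ℕ) := by
      rw [Cardinal.mk_prod, Cardinal.lift_id, Cardinal.lift_id, Cardinal.mk_nat]
      exact Cardinal.mul_lt_of_lt hset.le hlt hset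
    exact absurd hcard (not_le.mpr this)
  obtain ⟨j⟩ := (Cardinal.le_def _ _).mp hbigq
  refine ⟨fun a => (f (j a).out).1, fun a => (f _).2, ?_⟩
  rintro a b ⟨e⟩
  apply j.injective
  have h1 : Quotient.mk r (j a).out = Quotient.mk r (j b).out :=
    Quotient.sound (s := r) ⟨e⟩
  rwa [Quotient.out_eq, Quotient.out_eq] at h1

end Pool.Agent.Helper730.SM
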