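import Pool.Agent.Helper730.SMB

set_option autoImplicit false

namespace Pool.Agent.Helper730.SM

/-- a group with the maximal condition on normal subgroups is Hopfian -/
theorem hopf_of_maxn {G : Type} [Group G]
    (hmaxn : ∀ K : ℕ → Subgroup G, (∀ j, (K j).Normal) → Monotone K →
      ∃ m, ∀ j, m ≤ j → K j = K m) (φ : G →* G) (hφ : Function.Surjective φ) :
    Function.Injective φ := by
  let p : ℕ → (G →* G) := fun n => Nat.rec (MonoidHom.id G) (fun _ q => q.comp φ) n
  have hp' : ∀ n x, p (n + 1) x = φ (p n x) := by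
    intro n
    induction n with
    | zero => intro x; rfl
    | succ n ih =>
      intro x
      change p (n + 1) (φ x) = φ (p (n + 1) x)
      rw [ih (φ x)]
      rfl
  have hsurj : ∀ n, Function.Surjective (p n) := by
    intro n
    induction n with
    | zero => exact Function.surjective_id
    | succ n ih =>
      intro y
      obtain ⟨x, rfl⟩ := ih y
      obtain ⟨z, rfl⟩ := hφ x
      exact ⟨z, rfl⟩
  obtain ⟨m, hm⟩ := hmaxn (fun n => (p n).ker) (fun n => MonoidHom.normal_ker _)
    (monotone_nat_of_le_succ fun n x hx => by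
      rw [MonoidHom.mem_ker] at hx ⊢
      rw [hp', hx, map_one])
  rw [injective_iff_map_eq_one]
  intro a ha
  obtain ⟨b, rfl⟩ := hsurj m a
  have h1 : b ∈ (p (m + 1)).ker := by
    rw [MonoidHom.mem_ker, hp', ha]
  have h2 : (p (m + 1)).ker = (p m).ker := hm (m + 1) (Nat.le_succ m)
  rw [h2] at h1
  exact h1

theorem smallVar_of_laws {S : Set (FreeGroup ℕ)}
    (hsmall : ∃ (T : ℕ → Type) (_ : ∀ n, Group (T n)), ∀ (H : Type) [Group H], Group.FG H →
      (∀ w ∈ S, ∀ f : FreeGroup ℕ →* H, f w = 1) → ∃ n, Nonempty (H ≃* T n))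
    {G : Type} [Group G] (hG : ∀ w ∈ S, ∀ f : FreeGroup ℕ →* G, f w = 1) : SmallVar G := by
  obtain ⟨T, inst, hT⟩ := hsmall
  refine ⟨T, inst, ?_⟩
  intro H _ hfg hH
  exact hT H hfg fun w hw f => hH w (hG w hw) f

end Pool.Agent.Helper730.SM
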