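import Mathlib

set_option autoImplicit false

open scoped commutatorElement

namespace Pool.Agent.Helper730.SM

/-- there are at least continuum many elements -/
def Big (X : Type*) : Prop := ∃ f : Set ℕ → X, Function.Injective f

/-- `H` satisfies all laws of `G` -/
def InVar (G H : Type) [Group G] [Group H] : Prop :=
  ∀ w : FreeGroup ℕ, (∀ f : FreeGroup ℕ →* G, f w = 1) → ∀ f : FreeGroup ℕ →* H, f w = 1

/-- the variety generated by `G` is small -/
def SmallVar (G : Type) [Group G] : Prop :=
  ∃ (T : ℕ → Type) (_ : ∀ n, Group (T n)),
    ∀ (H : Type) [Group H], Group.FG H → InVar G H → ∃ n, Nonempty (H ≃* T n)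

/-- no finitely generated group satisfying the laws of `G` has continuum many normal subgroups -/
def NB (G : Type) [Group G] : Prop :=
  ∀ (H : Type) [Group H], Group.FG H → InVar G H → ¬ Big {N : Subgroup H // N.Normal}

theorem inVar_self (G : Type) [Group G] : InVar G G := fun _ h => h

theorem inVar_of_injective {G H K : Type} [Group G] [Group H] [Group K] (hH : InVar G H)
    (i : K →* H) (hi : Function.Injective i) : InVar G K := by
  intro w hw f
  apply hi
  rw [map_one]
  exact hH w hw (i.comp f)

theorem inVar_of_surjective {G H K : Type} [Group G] [Group H] [Group K] (hH : InVar G H)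
    (q : H →* K) (hq : Function.Surjective q) : InVar G K := by
  intro w hw f
  have hl : ∀ i : ℕ, ∃ y : H, q y = f (FreeGroup.of i) := fun i => hq _
  choose y hy using hl
  have hf : f = q.comp (FreeGroup.lift y) := by
    ext i
    simp [hy]
  rw [hf, MonoidHom.comp_apply, hH w hw, map_one]

theorem inVar_prod {G H K : Type} [Group G] [Group H] [Group K] (hH : InVar G H)
    (hK : InVar G K) : InVar G (H × K) := by
  intro w hw f
  apply Prod.ext
  · exact hH w hw ((MonoidHom.fst H K).comp f)
  · exact hK w hw ((MonoidHom.snd H K).comp f)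

theorem big_of_injective {X Y : Type*} (g : X → Y) (hg : Function.Injective g) (h : Big X) :
    Big Y := by
  obtain ⟨f, hf⟩ := h
  exact ⟨g ∘ f, hg.comp hf⟩

theorem not_big_of_countable {X : Type*} [Countable X] : ¬ Big X := by
  rintro ⟨f, hf⟩
  obtain ⟨g, hg⟩ := exists_injective_nat X
  exact Function.cantor_injective (g ∘ f) (hg.comp hf)

theorem big_of_surj {A B : Type} [AddCommGroup A] [AddCommGroup B] (f : A →+ B)
    (hf : Function.Surjective f) (h : Big (AddSubgroup B)) : Big (AddSubgroup A) :=
  big_of_injective (fun K => K.comap f) (AddSubgroup.comap_injective hf) h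

end Pool.Agent.Helper730.SM
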