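import Pool.Agent.Helper730.SNDefs

set_option autoImplicit false

open scoped commutatorElement

namespace Pool.Agent.Helper730.SM

theorem big_of_indep_mod {R M ι : Type} [CommRing R] [AddCommGroup M] [Module R M] (v : ι → M)
    (h : ∀ (S : Set ι) (i : ι), i ∉ S → v i ∉ Submodule.span R (v '' S)) (hι : Infinite ι) :
    Big (Submodule R M) := by
  classical
  let e : ℕ ↪ ι := Infinite.natEmbedding ι
  refine ⟨fun S : Set ℕ => Submodule.span R (v '' (e '' S)), ?_⟩
  have key : ∀ S S' : Set ℕ, Submodule.span R (v '' (e '' S)) = Submodule.span R (v '' (e '' S')) →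
      S ⊆ S' := by
    intro S S' heq n hn
    by_contra hn'
    have h1 : v (e n) ∈ Submodule.span R (v '' (e '' S)) :=
      Submodule.subset_span ⟨e n, ⟨n, hn, rfl⟩, rfl⟩
    rw [heq] at h1
    refine h (e '' S') (e n) ?_ h1
    rintro ⟨m, hm, hme⟩
    exact hn' (e.injective hme ▸ hm)
  intro S S' hSS
  exact Set.Subset.antisymm (key S S' hSS) (key S' S hSS.symm)

theorem exists_torsion_quot {R M : Type} [CommRing R] [AddCommGroup M] [Module R M]
    (I : Ideal R) (hI : I.IsPrime) (hIM : ∀ i ∈ I, ∀ m : M, i • m = 0)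
    (h : ¬ Big (Submodule R M)) :
    ∃ F : Submodule R M, F.FG ∧ ∀ m : M, ∃ s : R, s ∉ I ∧ s • m ∈ F := by
  classical
  by_contra hcon
  push Not at hcon
  apply h
  have hc : ∀ T : Finset M, ∃ m : M, ∀ s : R, s ∉ I → s • m ∉ Submodule.span R (T : Set M) :=
    fun T => hcon _ ⟨T, rfl⟩
  choose c hc using hc
  let T : ℕ → Finset M := fun n => Nat.rec ∅ (fun _ t => insert (c t) t) n
  have hT : ∀ n, T (n + 1) = insert (c (T n)) (T n) := fun n => rfl
  have hmono : Monotone T := monotone_nat_of_le_succ (fun n => by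
    rw [hT]; exact Finset.subset_insert _ _)
  let v : ℕ → M := fun n => c (T n)
  have hv : ∀ (n : ℕ) (s : R), s ∉ I → s • v n ∉ Submodule.span R (v '' {j | j < n}) := by
    intro n s hs hmem
    apply hc (T n) s hs
    refine Submodule.span_mono ?_ hmem
    rintro _ ⟨j, hj, rfl⟩
    have h1 : c (T j) ∈ T (j + 1) := by rw [hT]; exact Finset.mem_insert_self _ _
    have h2 : T (j + 1) ⊆ T n := hmono (Nat.succ_le_of_lt hj)
    exact h2 h1
  have indep : ∀ l : ℕ →₀ R, (∑ j ∈ l.support, l j • v j) = 0 → ∀ j, l j ∈ I := by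
    intro l hl
    by_contra hne
    push Not at hne
    have hJ : (l.support.filter (fun j => l j ∉ I)).Nonempty := by
      obtain ⟨j, hj⟩ := hne
      exact ⟨j, Finset.mem_filter.2 ⟨Finsupp.mem_support_iff.2 (fun h0 => hj (by
        rw [h0]; exact I.zero_mem)), hj⟩⟩
    set J := l.support.filter (fun j => l j ∉ I) with hJdef
    set j0 := J.max' hJ with hj0def
    have hj0 := Finset.mem_filter.1 (J.max'_mem hJ)
    apply hv j0 (l j0) hj0.2
    have e : l j0 • v j0 = -∑ j ∈ l.support.erase j0, l j • v j := by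
      have h3 := Finset.add_sum_erase l.support (fun j => l j • v j) hj0.1
      rw [hl] at h3
      exact eq_neg_of_add_eq_zero_left h3
    rw [e]
    apply Submodule.neg_mem
    apply Submodule.sum_mem
    intro j hj
    by_cases hjI : l j ∈ I
    · rw [hIM _ hjI]; exact Submodule.zero_mem _
    · apply Submodule.smul_mem
      apply Submodule.subset_span
      refine ⟨j, ?_, rfl⟩
      have h1 := Finset.mem_erase.1 hj
      have h2 : j ∈ J := Finset.mem_filter.2 ⟨h1.2, hjI⟩
      exact lt_of_le_of_ne (J.le_max' j h2) h1.1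
  refine big_of_indep_mod v ?_ inferInstance
  intro S i hi hmem
  rw [Finsupp.mem_span_image_iff_linearCombination] at hmem
  obtain ⟨l, hl, hsum⟩ := hmem
  have hli : l i = 0 := by
    by_contra hne
    exact hi ((Finsupp.mem_supported R l).1 hl (Finsupp.mem_support_iff.2 hne))
  obtain ⟨l', hl'⟩ : ∃ l' : ℕ →₀ R, l' = l - Finsupp.single i 1 := ⟨_, rfl⟩
  have h0 : (∑ j ∈ l'.support, l' j • v j) = 0 := by
    have h4 : Finsupp.linearCombination R v l' = 0 := by
      rw [hl', map_sub, hsum, Finsupp.linearCombination_single, one_smul, sub_self]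
    rw [Finsupp.linearCombination_apply, Finsupp.sum] at h4
    exact h4
  have h5 := indep l' h0 i
  rw [hl', Finsupp.sub_apply, hli, Finsupp.single_eq_same, zero_sub] at h5
  exact hI.ne_top ((Ideal.eq_top_iff_one I).2 (by simpa using I.neg_mem h5))

open Classical in
/-- partial formal series -/
noncomputable def cser {R T : Type} [CommRing R] [AddCommGroup T] [Module R T]
    (s : ℕ → R) (S : Set ℕ) (n : ℕ) (t : T) : T :=
  ∑ i ∈ Finset.range n, (if i ∈ S then s i • t else 0)

theorem cser_add {R T : Type} [CommRing R] [AddCommGroup T] [Module R T]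
    (s : ℕ → R) (S : Set ℕ) (n : ℕ) (t u : T) :
    cser s S n (t + u) = cser s S n t + cser s S n u := by
  classical
  unfold cser
  rw [← Finset.sum_add_distrib]
  refine Finset.sum_congr rfl fun i _ => ?_
  by_cases h : i ∈ S
  · rw [if_pos h, if_pos h, if_pos h, smul_add]
  · rw [if_neg h, if_neg h, if_neg h, add_zero]

theorem cser_smul {R T : Type} [CommRing R] [AddCommGroup T] [Module R T]
    (s : ℕ → R) (S : Set ℕ) (n : ℕ) (r : R) (t : T) :
    cser s S n (r • t) = r • cser s S n t := by
  classical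
  unfold cser
  rw [Finset.smul_sum]
  refine Finset.sum_congr rfl fun i _ => ?_
  by_cases h : i ∈ S
  · rw [if_pos h, if_pos h, smul_comm]
  · rw [if_neg h, if_neg h, smul_zero]

theorem cser_stable {R T : Type} [CommRing R] [AddCommGroup T] [Module R T]
    (s : ℕ → R) (hs : ∀ n, s n ∣ s (n + 1)) (S : Set ℕ) (n m : ℕ) (hnm : n ≤ m) (t : T)
    (h : s n • t = 0) : s m • t = 0 ∧ cser s S m t = cser s S n t := by
  classical
  induction m, hnm using Nat.le_induction with
  | base => exact ⟨h, rfl⟩
  | succ m hm ih =>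
    refine ⟨?_, ?_⟩
    · obtain ⟨r, hr⟩ := hs m
      rw [hr, mul_comm, mul_smul, ih.1, smul_zero]
    · rw [← ih.2]
      unfold cser
      rw [Finset.sum_range_succ, ih.1]
      simp

/-- the graph -/
noncomputable def gser {R T : Type} [CommRing R] [AddCommGroup T] [Module R T]
    (s : ℕ → R) (hs : ∀ n, s n ∣ s (n + 1)) (S : Set ℕ) : Submodule R (T × T) where
  carrier := {x | ∃ n, s n • x.1 = 0 ∧ x.2 = cser s S n x.1}
  add_mem' := by
    rintro a b ⟨n, h1, h2⟩ ⟨m, h3, h4⟩
    have ha := cser_stable s hs S n (max n m) (le_max_left _ _) a.1 h1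
    have hb := cser_stable s hs S m (max n m) (le_max_right _ _) b.1 h3
    refine ⟨max n m, ?_, ?_⟩
    · rw [Prod.fst_add, smul_add, ha.1, hb.1, add_zero]
    · rw [Prod.snd_add, Prod.fst_add, cser_add, ha.2, hb.2, h2, h4]
  zero_mem' := ⟨0, by simp, by simp [cser]⟩
  smul_mem' := by
    rintro r a ⟨n, h1, h2⟩
    refine ⟨n, ?_, ?_⟩
    · rw [Prod.smul_fst, smul_comm, h1, smul_zero]
    · rw [Prod.smul_snd, Prod.smul_fst, cser_smul, h2]

theorem gser_fun {R T : Type} [CommRing R] [AddCommGroup T] [Module R T]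
    (s : ℕ → R) (hs : ∀ n, s n ∣ s (n + 1)) (S : Set ℕ) (x y : T) (n : ℕ) (hn : s n • x = 0)
    (h : (x, y) ∈ gser s hs S) : y = cser s S n x := by
  obtain ⟨m, h1, h2⟩ := h
  have ha := cser_stable s hs S n (max n m) (le_max_left _ _) x hn
  have hb := cser_stable s hs S m (max n m) (le_max_right _ _) x h1
  rw [← ha.2, hb.2]
  exact h2

theorem big_of_sequence {R T : Type} [CommRing R] [AddCommGroup T] [Module R T]
    (s : ℕ → R) (t : ℕ → T) (hs : ∀ n, s n ∣ s (n + 1)) (h1 : ∀ n, s n • t n ≠ 0)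
    (h2 : ∀ n, s (n + 1) • t n = 0) : Big (Submodule R (T × T)) := by
  classical
  refine ⟨gser s hs, fun S S' hSS => ?_⟩
  by_contra hne
  have hex : ∃ i, ¬ (i ∈ S ↔ i ∈ S') := by
    by_contra hcon
    push Not at hcon
    exact hne (Set.ext hcon)
  obtain ⟨i, hi, hmin⟩ : ∃ i, ¬ (i ∈ S ↔ i ∈ S') ∧ ∀ j < i, (j ∈ S ↔ j ∈ S') :=
    ⟨Nat.find hex, Nat.find_spec hex, fun j hj => not_not.1 (Nat.find_min hex hj)⟩
  have hm : (t i, cser s S (i + 1) (t i)) ∈ gser s hs S := ⟨i + 1, h2 i, rfl⟩
  rw [hSS] at hm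
  have he := gser_fun s hs S' (t i) _ (i + 1) (h2 i) hm
  unfold cser at he
  rw [Finset.sum_range_succ, Finset.sum_range_succ] at he
  have hsum : ∑ j ∈ Finset.range i, (if j ∈ S then s j • t i else 0) =
      ∑ j ∈ Finset.range i, (if j ∈ S' then s j • t i else 0) := by
    refine Finset.sum_congr rfl fun j hj => ?_
    have := hmin j (Finset.mem_range.1 hj)
    by_cases hjS : j ∈ S
    · rw [if_pos hjS, if_pos (this.1 hjS)]
    · rw [if_neg hjS, if_neg (fun h => hjS (this.2 h))]
  rw [hsum] at he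
  have he2 := add_left_cancel he
  by_cases ha : i ∈ S
  · have hb : i ∉ S' := fun hb => hi ⟨fun _ => hb, fun _ => ha⟩
    rw [if_pos ha, if_neg hb] at he2
    exact h1 i he2
  · have hb : i ∈ S' := by
      by_contra hb
      exact hi ⟨fun h => absurd h ha, fun h => absurd h hb⟩
    rw [if_neg ha, if_pos hb] at he2
    exact h1 i he2.symm

theorem big_of_torsion {R T : Type} [CommRing R] [AddCommGroup T] [Module R T]
    (I : Ideal R) (hI : I.IsPrime) (htors : ∀ t : T, ∃ s : R, s ∉ I ∧ s • t = 0)
    (hnot : ∀ s : R, s ∉ I → ∃ t : T, s • t ≠ 0) : Big (Submodule R (T × T)) := by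
  choose U hU1 hU2 using htors
  choose T' hT using hnot
  let S : ℕ → {s : R // s ∉ I} := fun n => Nat.rec
    ⟨1, fun h => hI.ne_top ((Ideal.eq_top_iff_one I).mpr h)⟩
    (fun _ s => ⟨s.1 * U (T' s.1 s.2), fun h => (hI.mem_or_mem h).elim s.2 (hU1 _)⟩) n
  have hS : ∀ n, (S (n + 1)).1 = (S n).1 * U (T' (S n).1 (S n).2) := fun n => rfl
  apply big_of_sequence (fun n => (S n).1) (fun n => T' (S n).1 (S n).2)
  · intro n
    show (S n).1 ∣ (S (n + 1)).1
    rw [hS]
    exact Dvd.intro _ rfl
  · intro n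
    exact hT _ _
  · intro n
    show (S (n + 1)).1 • T' (S n).1 (S n).2 = 0
    rw [hS, mul_smul, hU2, smul_zero]

theorem ml_sub {R M : Type} [CommRing R] [AddCommGroup M] [Module R M]
    (h : ¬ Big (Submodule R (M × M))) (N : Submodule R M) : ¬ Big (Submodule R (N × N)) := by
  intro hb
  apply h
  refine big_of_injective (Submodule.map (LinearMap.prodMap N.subtype N.subtype)) ?_ hb
  apply Submodule.map_injective_of_injective
  rintro ⟨x1, x2⟩ ⟨y1, y2⟩ hxy
  simp only [LinearMap.prodMap_apply, Submodule.subtype_apply, Prod.mk.injEq] at hxy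
  exact Prod.ext (Subtype.ext hxy.1) (Subtype.ext hxy.2)

theorem ml_quot {R M : Type} [CommRing R] [AddCommGroup M] [Module R M]
    (h : ¬ Big (Submodule R (M × M))) (N : Submodule R M) :
    ¬ Big (Submodule R ((M ⧸ N) × (M ⧸ N))) := by
  intro hb
  apply h
  refine big_of_injective (Submodule.comap (LinearMap.prodMap N.mkQ N.mkQ)) ?_ hb
  apply Submodule.comap_injective_of_surjective
  rintro ⟨y1, y2⟩
  obtain ⟨x1, rfl⟩ := N.mkQ_surjective y1
  obtain ⟨x2, rfl⟩ := N.mkQ_surjective y2
  exact ⟨(x1, x2), rfl⟩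

theorem ml_self {R M : Type} [CommRing R] [AddCommGroup M] [Module R M]
    (h : ¬ Big (Submodule R (M × M))) : ¬ Big (Submodule R M) := by
  intro hb
  apply h
  refine big_of_injective (Submodule.comap (LinearMap.fst R M M)) ?_ hb
  apply Submodule.comap_injective_of_surjective
  intro x
  exact ⟨(x, 0), rfl⟩

theorem ml_kill {R M : Type} [CommRing R] [AddCommGroup M] [Module R M] (I : Ideal R) (s : R)
    (h1 : ∀ i ∈ I, ∀ m : M, i • m = 0) (h2 : ∀ m : M, s • m = 0) :
    ∀ i ∈ I ⊔ Ideal.span {s}, ∀ m : M, i • m = 0 := by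
  have h3 : I ⊔ Ideal.span {s} ≤ Module.annihilator R M := by
    apply sup_le
    · intro i hi
      rw [Module.mem_annihilator]
      exact h1 i hi
    · rw [Ideal.span_le]
      intro x hx
      rw [Set.mem_singleton_iff] at hx
      subst hx
      exact Module.mem_annihilator.2 h2
  intro i hi
  exact Module.mem_annihilator.1 (h3 hi)

theorem ml_lt {R : Type} [CommRing R] (I : Ideal R) (s : R) (hs : s ∉ I) :
    I < I ⊔ Ideal.span {s} := by
  refine lt_of_le_of_ne le_sup_left ?_
  intro h
  apply hs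
  rw [h]
  exact Ideal.mem_sup_right (Ideal.mem_span_singleton_self s)

theorem ml_aux {R : Type} [CommRing R] [IsNoetherianRing R] (I : Ideal R) :
    ∀ (M : Type) [AddCommGroup M] [Module R M], (∀ i ∈ I, ∀ m : M, i • m = 0) →
      ¬ Big (Submodule R (M × M)) → Module.Finite R M := by
  induction I using WellFoundedGT.induction with
  | _ I ih =>
    intro M _ _ hIM h
    by_cases hT : I = ⊤
    · have hs : Subsingleton M := ⟨fun x y => by
        rw [← one_smul R x, ← one_smul R y, hIM 1 (by rw [hT]; trivial),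
          hIM 1 (by rw [hT]; trivial)]⟩
      infer_instance
    by_cases hP : I.IsPrime
    · obtain ⟨F, hF, hFs⟩ := exists_torsion_quot I hP hIM (ml_self h)
      have hbT := ml_quot h F
      by_cases hs : ∀ s : R, s ∉ I → ∃ t : M ⧸ F, s • t ≠ 0
      · exfalso
        apply hbT
        refine big_of_torsion I hP ?_ hs
        intro t
        obtain ⟨m, rfl⟩ := F.mkQ_surjective t
        obtain ⟨s, hs1, hs2⟩ := hFs m
        refine ⟨s, hs1, ?_⟩
        rw [← map_smul, Submodule.mkQ_apply, Submodule.Quotient.mk_eq_zero]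
        exact hs2
      · push Not at hs
        obtain ⟨s, hs1, hs2⟩ := hs
        have hkill : ∀ i ∈ I, ∀ t : M ⧸ F, i • t = 0 := by
          intro i hi t
          obtain ⟨m, rfl⟩ := F.mkQ_surjective t
          rw [← map_smul, hIM i hi, map_zero]
        have hfin : Module.Finite R (M ⧸ F) :=
          ih _ (ml_lt I s hs1) (M ⧸ F) (ml_kill I s hkill hs2) hbT
        have hfF : Module.Finite R F := Module.Finite.iff_fg.2 hF
        exact Module.Finite.of_submodule_quotient F
    · rw [Ideal.isPrime_iff] at hP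
      push Not at hP
      obtain ⟨a, b, hab, ha, hb⟩ := hP hT
      have hk : Module.Finite R (LinearMap.ker (LinearMap.lsmul R M a)) := by
        refine ih _ (ml_lt I a ha) _ (ml_kill I a ?_ ?_) (ml_sub h _)
        · intro i hi m
          exact Subtype.ext (hIM i hi m)
        · rintro ⟨m, hm⟩
          apply Subtype.ext
          rw [LinearMap.mem_ker, LinearMap.lsmul_apply] at hm
          exact hm
      have hr : Module.Finite R (LinearMap.range (LinearMap.lsmul R M a)) := by
        refine ih _ (ml_lt I b hb) _ (ml_kill I b ?_ ?_) (ml_sub h _)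
        · intro i hi m
          exact Subtype.ext (hIM i hi m)
        · rintro ⟨_, m, rfl⟩
          apply Subtype.ext
          show b • (a • m) = 0
          rw [smul_smul, mul_comm]
          exact hIM _ hab m
      rw [Module.finite_def]
      refine Submodule.fg_of_fg_map_of_fg_inf_ker (LinearMap.lsmul R M a) ?_ ?_
      · rw [Submodule.map_top]
        exact Module.Finite.iff_fg.1 hr
      · rw [top_inf_eq]
        exact Module.Finite.iff_fg.1 hk

theorem ml_main {R M : Type} [CommRing R] [IsNoetherianRing R] [AddCommGroup M] [Module R M]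
    (h : ¬ Big (Submodule R (M × M))) : Module.Finite R M := by
  exact ml_aux ⊥ M (fun i hi m => by rw [Ideal.mem_bot.1 hi, zero_smul]) h

end Pool.Agent.Helper730.SM
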