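import Pool.Agent.Helper730.SNA

set_option autoImplicit false

open scoped commutatorElement

namespace Pool.Agent.Helper730.SM

theorem h396_comm_le {G : Type} [Group G] (D : Subgroup G) [D.Normal] (X : Set G)
    (hX : Subgroup.closure X = ⊤) (h : ∀ x ∈ X, ∀ y ∈ X, ⁅x, y⁆ ∈ D) : commutator G ≤ D := by
  have h1 : ∀ x ∈ X, ∀ g : G, Commute (QuotientGroup.mk' D x) (QuotientGroup.mk' D g) := by
    intro x hx g
    have hg : g ∈ Subgroup.closure X := by rw [hX]; exact Subgroup.mem_top g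
    induction hg using Subgroup.closure_induction with
    | mem y hy =>
      have h2 : QuotientGroup.mk' D ⁅x, y⁆ = 1 := (QuotientGroup.eq_one_iff _).2 (h x hx y hy)
      rw [map_commutatorElement] at h2
      exact commutatorElement_eq_one_iff_commute.1 h2
    | one => rw [map_one]; exact Commute.one_right _
    | mul a b _ _ ha hb => rw [map_mul]; exact ha.mul_right hb
    | inv a _ ha => rw [map_inv]; exact ha.inv_right
  have h2 : ∀ g k : G, Commute (QuotientGroup.mk' D g) (QuotientGroup.mk' D k) := by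
    intro g k
    have hg : g ∈ Subgroup.closure X := by rw [hX]; exact Subgroup.mem_top g
    induction hg using Subgroup.closure_induction with
    | mem y hy => exact h1 y hy k
    | one => rw [map_one]; exact Commute.one_left _
    | mul a b _ _ ha hb => rw [map_mul]; exact ha.mul_left hb
    | inv a _ ha => rw [map_inv]; exact ha.inv_left
  rw [commutator_def, Subgroup.commutator_le]
  intro g _ k _
  have h3 : QuotientGroup.mk' D ⁅g, k⁆ = 1 := by
    rw [map_commutatorElement]
    exact commutatorElement_eq_one_iff_commute.2 (h2 g k)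
  exact (QuotientGroup.eq_one_iff _).1 h3

theorem h396_sub_fg {A : Type} [CommGroup A] (hA : Group.FG A) (S : Subgroup A) : S.FG := by
  have h1 : AddGroup.FG (Additive A) := GroupFG.iff_add_fg.1 hA
  have h2 : Module.Finite ℤ (Additive A) := Module.Finite.iff_addGroup_fg.2 h1
  have h3 : IsNoetherian ℤ (Additive A) := isNoetherian_of_isNoetherianRing_of_finite ℤ (Additive A)
  have h4 : (AddSubgroup.toIntSubmodule (Subgroup.toAddSubgroup S)).FG :=
    IsNoetherian.noetherian _
  rw [Submodule.fg_iff_addSubgroup_fg, AddSubgroup.toIntSubmodule_toAddSubgroup] at h4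
  exact (Subgroup.fg_iff_add_fg S).2 h4

theorem h396_gen {G : Type} [Group G] (hfg : Group.FG G) (C : Subgroup G) :
    ∃ T : Set G, T.Finite ∧ T ⊆ C ∧ ∀ D : Subgroup G, T ⊆ D → commutator G ≤ D → C ≤ D := by
  have hA : Group.FG (Abelianization G) :=
    Group.fg_of_surjective (f := Abelianization.of) (QuotientGroup.mk_surjective)
  obtain ⟨S0, hS0, hfin⟩ := (Subgroup.fg_iff _).1 (h396_sub_fg hA (C.map Abelianization.of))
  have hch : ∀ s : Abelianization G, ∃ c : G, s ∈ S0 → c ∈ C ∧ Abelianization.of c = s := by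
    intro s
    by_cases hs : s ∈ S0
    · have h1 : s ∈ C.map Abelianization.of := by
        rw [← hS0]
        exact Subgroup.subset_closure hs
      obtain ⟨c, hc, hcs⟩ := h1
      exact ⟨c, fun _ => ⟨hc, hcs⟩⟩
    · exact ⟨1, fun h => absurd h hs⟩
  choose f hf using hch
  refine ⟨f '' S0, hfin.image f, ?_, ?_⟩
  · rintro _ ⟨s, hs, rfl⟩
    exact (hf s hs).1
  · intro D hTD hD c hc
    have key : ∀ a ∈ Subgroup.closure S0, ∃ t ∈ D, Abelianization.of t = a := by
      intro a ha
      induction ha using Subgroup.closure_induction with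
      | mem y hy => exact ⟨f y, hTD ⟨y, hy, rfl⟩, (hf y hy).2⟩
      | one => exact ⟨1, D.one_mem, map_one _⟩
      | mul a b _ _ ha hb =>
        obtain ⟨t, ht, hta⟩ := ha
        obtain ⟨u, hu, hub⟩ := hb
        exact ⟨t * u, D.mul_mem ht hu, by rw [map_mul, hta, hub]⟩
      | inv a _ ha =>
        obtain ⟨t, ht, hta⟩ := ha
        exact ⟨t⁻¹, D.inv_mem ht, by rw [map_inv, hta]⟩
    have h1 : Abelianization.of c ∈ Subgroup.closure S0 := by
      rw [hS0]
      exact ⟨c, hc, rfl⟩
    obtain ⟨t, ht, htc⟩ := key _ h1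
    have h2 : t⁻¹ * c ∈ commutator G := by
      rw [← Abelianization.ker_of G, MonoidHom.mem_ker, map_mul, map_inv, htc, inv_mul_cancel]
    have h3 : c = t * (t⁻¹ * c) := by group
    rw [h3]
    exact D.mul_mem ht (hD h2)

theorem fibre_fg {G : Type} [Group G] (hfg : Group.FG G) (C : Subgroup G) (hC : C.Normal)
    (hcomm : commutator G ≤ C) : (fibre C hC).FG := by
  obtain ⟨X, hX, hXfin⟩ := Group.fg_iff.1 hfg
  obtain ⟨T, hTfin, hTC, hT⟩ := h396_gen hfg C
  obtain ⟨Z, hZ⟩ : ∃ Z : Set (G × G), Z = (fun x : G => (x, x)) '' X ∪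
      ((fun y : G => (y, (1 : G))) '' T ∪
        (fun p : G × G => (⁅p.1, p.2⁆, (1 : G))) '' (X ×ˢ X)) := ⟨_, rfl⟩
  have hZfin : Z.Finite := by
    rw [hZ]
    exact (hXfin.image _).union ((hTfin.image _).union ((hXfin.prod hXfin).image _))
  have hdiag : ∀ g : G, (g, g) ∈ Subgroup.closure Z := by
    intro g
    have hg : g ∈ Subgroup.closure X := by rw [hX]; exact Subgroup.mem_top g
    induction hg using Subgroup.closure_induction with
    | mem y hy =>
      refine Subgroup.subset_closure ?_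
      rw [hZ]
      exact Or.inl ⟨y, hy, rfl⟩
    | one => exact Subgroup.one_mem _
    | mul a b _ _ ha hb => exact Subgroup.mul_mem _ ha hb
    | inv a _ ha => exact Subgroup.inv_mem _ ha
  obtain ⟨D, hD⟩ : ∃ D : Subgroup G, D = (Subgroup.closure Z).comap (MonoidHom.inl G G) :=
    ⟨_, rfl⟩
  have hDmem : ∀ c : G, c ∈ D ↔ (c, (1 : G)) ∈ Subgroup.closure Z := by
    intro c
    rw [hD]
    exact Iff.rfl
  have hDn : D.Normal := by
    refine ⟨fun c hc g => ?_⟩
    rw [hDmem] at hc ⊢
    have h1 := Subgroup.mul_mem _ (Subgroup.mul_mem _ (hdiag g) hc)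
      (Subgroup.inv_mem _ (hdiag g))
    have h2 : ((g, g) : G × G) * (c, 1) * (g, g)⁻¹ = (g * c * g⁻¹, 1) := by
      apply Prod.ext
      · rfl
      · show g * 1 * g⁻¹ = 1
        rw [mul_one, mul_inv_cancel]
    rwa [h2] at h1
  have hTD : T ⊆ D := by
    intro y hy
    rw [SetLike.mem_coe, hDmem]
    refine Subgroup.subset_closure ?_
    rw [hZ]
    exact Or.inr (Or.inl ⟨y, hy, rfl⟩)
  have hcD : commutator G ≤ D := by
    refine h396_comm_le D X hX fun x hx y hy => ?_
    rw [hDmem]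
    refine Subgroup.subset_closure ?_
    rw [hZ]
    exact Or.inr (Or.inr ⟨(x, y), ⟨hx, hy⟩, rfl⟩)
  have hCD : C ≤ D := hT D hTD hcD
  refine (Subgroup.fg_iff _).2 ⟨Z, le_antisymm ?_ ?_, hZfin⟩
  · rw [Subgroup.closure_le]
    intro p hp
    rw [hZ] at hp
    show p.1 * p.2⁻¹ ∈ C
    rcases hp with ⟨x, _, rfl⟩ | ⟨y, hy, rfl⟩ | ⟨q, _, rfl⟩
    · show x * x⁻¹ ∈ C
      rw [mul_inv_cancel]
      exact C.one_mem
    · show y * (1 : G)⁻¹ ∈ C
      rw [inv_one, mul_one]
      exact hTC hy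
    · show ⁅q.1, q.2⁆ * (1 : G)⁻¹ ∈ C
      rw [inv_one, mul_one]
      refine hcomm ?_
      rw [commutator_def]
      exact Subgroup.commutator_mem_commutator (Subgroup.mem_top _) (Subgroup.mem_top _)
  · intro p hp
    have hp' : p.1 * p.2⁻¹ ∈ C := hp
    have h1 := Subgroup.mul_mem _ ((hDmem _).1 (hCD hp')) (hdiag p.2)
    have h2 : ((p.1 * p.2⁻¹, (1 : G)) : G × G) * (p.2, p.2) = p := by
      apply Prod.ext
      · show p.1 * p.2⁻¹ * p.2 = p.1
        group
      · show 1 * p.2 = p.2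
        rw [one_mul]
    rwa [h2] at h1

theorem exists_module {G : Type} [Group G] (hfg : Group.FG G) (A : Subgroup G) (hA : A.Normal)
    (hab : ∀ a ∈ A, ∀ b ∈ A, a * b = b * a)
    (hc : ∀ a ∈ A, ∀ c ∈ commutator G, a * c = c * a) :
    ∃ (R : Type) (_ : CommRing R) (_ : IsNoetherianRing R) (M : Type) (_ : AddCommGroup M)
      (_ : Module R M) (e : M → G), Function.Injective e ∧ (∀ x y, e (x + y) = e x * e y) ∧
      Set.range e = (A : Set G) ∧ (∀ g : G, ∃ r : R, ∀ m, e (r • m) = g * e m * g⁻¹) ∧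
      ∀ B : AddSubgroup M, (∀ m ∈ B, ∀ (g : G) (m' : M), e m' = g * e m * g⁻¹ → m' ∈ B) →
        ∀ (r : R), ∀ m ∈ B, r • m ∈ B := by
  classical
  haveI := hfg
  haveI := hA
  letI cg : CommGroup A := { (inferInstance : Group A) with
    mul_comm := fun a b => Subtype.ext (hab a.1 a.2 b.1 b.2) }
  let ρ : G →* Module.End ℤ (Additive A) :=
    { toFun := fun g => (MonoidHom.toAdditive ((MulAut.conjNormal g : A ≃* A).toMonoidHom)).toIntLinearMap
      map_one' := by
        ext m
        simp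
      map_mul' := fun g h => by
        ext m
        simp }
  have hρ : ∀ (g : G) (m : Additive A), ((Additive.toMul (ρ g m) : A) : G) =
      g * ((Additive.toMul m : A) : G) * g⁻¹ := by
    intro g m
    exact MulAut.conjNormal_apply g (Additive.toMul m)
  have hker : commutator G ≤ ρ.ker := by
    intro c hcc
    rw [MonoidHom.mem_ker]
    ext m
    have h1 := hρ c m
    have h2 := hc _ (Additive.toMul m : A).2 c hcc
    have h3 : ((Additive.toMul (ρ c m) : A) : G) = ((Additive.toMul m : A) : G) := by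
      rw [h1, ← h2, mul_inv_cancel_right]
    exact h3
  let ρ' : Abelianization G →* Module.End ℤ (Additive A) := QuotientGroup.lift (commutator G) ρ hker
  have hρ' : ∀ g : G, ρ' (Abelianization.of g) = ρ g := fun g => rfl
  let Φ : MonoidAlgebra ℤ (Abelianization G) →ₐ[ℤ] Module.End ℤ (Additive A) :=
    MonoidAlgebra.lift ℤ _ (Abelianization G) ρ'
  have hΦ : ∀ q : Abelianization G, Φ (MonoidAlgebra.of ℤ (Abelianization G) q) = ρ' q := by
    intro q
    exact MonoidAlgebra.lift_of _ _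
  haveI hQ : Group.FG (Abelianization G) :=
    Group.fg_of_surjective (f := (Abelianization.of : G →* Abelianization G))
      (QuotientGroup.mk'_surjective _)
  haveI hQm : Monoid.FG (Abelianization G) := Group.fg_iff_monoid_fg.1 hQ
  haveI hNoeth : IsNoetherianRing (MonoidAlgebra ℤ (Abelianization G)) :=
    Algebra.FiniteType.isNoetherianRing ℤ _
  letI mod : Module (MonoidAlgebra ℤ (Abelianization G)) (Additive A) :=
    Module.compHom (Additive A) Φ.toRingHom
  have hsm : ∀ (r : MonoidAlgebra ℤ (Abelianization G)) (m : Additive A), r • m = Φ r m :=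
    fun r m => rfl
  refine ⟨MonoidAlgebra ℤ (Abelianization G), inferInstance, hNoeth, Additive A, inferInstance,
    mod, fun m => ((Additive.toMul m : A) : G), ?_, ?_, ?_, ?_, ?_⟩
  · intro x y hxy
    exact Subtype.ext hxy
  · intro x y
    rfl
  · ext g
    constructor
    · rintro ⟨m, rfl⟩
      exact (Additive.toMul m : A).2
    · intro hg
      exact ⟨Additive.ofMul (⟨g, hg⟩ : A), rfl⟩
  · intro g
    refine ⟨MonoidAlgebra.of ℤ (Abelianization G) (Abelianization.of g), fun m => ?_⟩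
    show ((Additive.toMul ((MonoidAlgebra.of ℤ (Abelianization G) (Abelianization.of g)) • m) : A) : G) = _
    rw [hsm, hΦ, hρ', hρ]
  · intro B hB r
    induction r using MonoidAlgebra.induction_on with
    | of q =>
      intro m hm
      obtain ⟨g, hg⟩ : ∃ g : G, Abelianization.of g = q :=
        QuotientGroup.mk'_surjective (commutator G) q
      rw [hsm, hΦ, ← hg]
      refine hB m hm g _ ?_
      exact hρ g m
    | add a b ha hb =>
      intro m hm
      rw [add_smul]
      exact B.add_mem (ha m hm) (hb m hm)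
    | smul n a ha =>
      intro m hm
      rw [hsm, map_zsmul]
      exact B.zsmul_mem (ha m hm) n

theorem abelian_chain {G : Type} [Group G] (hfg : Group.FG G)
    (hsq : ∀ P : Subgroup (G × G), P.FG → ¬ Big {N : Subgroup P // N.Normal})
    (A : Subgroup G) (hA : A.Normal) (hab : ∀ a ∈ A, ∀ b ∈ A, a * b = b * a)
    (hc : ∀ a ∈ A, ∀ c ∈ commutator G, a * c = c * a)
    (K : ℕ → Subgroup G) (hK : ∀ j, (K j).Normal) (hmono : Monotone K) (hle : ∀ j, K j ≤ A) :
    ∃ k, ∀ m, k ≤ m → K m = K k := by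
  have hCn : (Subgroup.centralizer (A : Set G)).Normal := by
    constructor
    intro n hn g
    rw [Subgroup.mem_centralizer_iff] at hn ⊢
    intro a ha
    have h1 : g⁻¹ * a * g⁻¹⁻¹ ∈ A := hA.conj_mem a ha g⁻¹
    have h2 := hn _ h1
    rw [inv_inv] at h2
    calc a * (g * n * g⁻¹) = g * ((g⁻¹ * a * g) * n) * g⁻¹ := by group
      _ = g * (n * (g⁻¹ * a * g)) * g⁻¹ := by rw [h2]
      _ = g * n * g⁻¹ * a := by group
  obtain ⟨C, hCdef⟩ : ∃ C : Subgroup G, C = Subgroup.centralizer (A : Set G) := ⟨_, rfl⟩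
  rw [← hCdef] at hCn
  have hCmem : ∀ c : G, c ∈ C ↔ ∀ a ∈ A, a * c = c * a := by
    intro c
    rw [hCdef, Subgroup.mem_centralizer_iff]
    rfl
  have hcomm : commutator G ≤ C := by
    intro c hc'
    rw [hCmem]
    intro a ha
    exact hc a ha c hc'
  have hP := fibre_fg hfg C hCn hcomm
  have hnb := hsq (fibre C hCn) hP
  obtain ⟨R, iR, iN, M, iA, iM, e, einj, eadd, erange, eact, eB⟩ := exists_module hfg A hA hab hc
  have e0 : e 0 = 1 := by
    have h := eadd 0 0
    rw [add_zero] at h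
    exact mul_eq_left.mp h.symm
  have eneg : ∀ x, e (-x) = (e x)⁻¹ := by
    intro x
    have h := eadd (-x) x
    rw [neg_add_cancel, e0] at h
    exact eq_inv_of_mul_eq_one_left h.symm
  have eA : ∀ m, e m ∈ A := by
    intro m
    have : e m ∈ Set.range e := ⟨m, rfl⟩
    rw [erange] at this
    exact this
  have hAC : A ≤ C := by
    intro x hx
    rw [hCmem]
    intro a ha
    exact hab a ha x hx
  have hbig : ¬ Big (Submodule R (M × M)) := by
    intro hb
    apply hnb
    let S : Submodule R (M × M) → Subgroup (fibre C hCn) := fun B =>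
      { carrier := {x | ∃ b ∈ B, (x : G × G) = (e b.1, e b.2)}
        mul_mem' := by
          rintro x y ⟨b, hb, hx⟩ ⟨b', hb', hy⟩
          refine ⟨b + b', B.add_mem hb hb', ?_⟩
          rw [Subgroup.coe_mul, hx, hy, Prod.mk_mul_mk, Prod.fst_add, Prod.snd_add, eadd, eadd]
        one_mem' := by
          refine ⟨0, B.zero_mem, ?_⟩
          rw [Subgroup.coe_one, Prod.fst_zero, Prod.snd_zero, e0]
          rfl
        inv_mem' := by
          rintro x ⟨b, hb, hx⟩
          refine ⟨-b, B.neg_mem hb, ?_⟩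
          rw [Subgroup.coe_inv, hx, Prod.fst_neg, Prod.snd_neg, eneg, eneg]
          rfl }
    have hSn : ∀ B, (S B).Normal := by
      intro B
      constructor
      rintro x ⟨b, hb, hx⟩ ⟨⟨g, h⟩, hgh⟩
      have hgh' : g * h⁻¹ ∈ C := hgh
      obtain ⟨r, hr⟩ := eact g
      refine ⟨r • b, B.smul_mem r hb, ?_⟩
      rw [Subgroup.coe_mul, Subgroup.coe_mul, Subgroup.coe_inv, hx]
      have h1 : g * e b.2 * g⁻¹ ∈ A := hA.conj_mem _ (eA b.2) g
      have h2 := (hCmem _).mp hgh' _ h1
      have h3 : h * e b.2 * h⁻¹ = g * e b.2 * g⁻¹ := by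
        calc h * e b.2 * h⁻¹ = (g * h⁻¹)⁻¹ * ((g * e b.2 * g⁻¹) * (g * h⁻¹)) := by group
          _ = (g * h⁻¹)⁻¹ * ((g * h⁻¹) * (g * e b.2 * g⁻¹)) := by rw [h2]
          _ = g * e b.2 * g⁻¹ := by group
      apply Prod.ext
      · show g * e b.1 * g⁻¹ = e (r • b.1)
        rw [hr]
      · show h * e b.2 * h⁻¹ = e (r • b.2)
        rw [hr, h3]
    have hinj : Function.Injective (fun B => (⟨S B, hSn B⟩ : {N : Subgroup (fibre C hCn) // N.Normal})) := by
      have hsub : ∀ B B' : Submodule R (M × M), S B = S B' → B ≤ B' := by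
        intro B B' hBB b hb
        have hm : (e b.1, e b.2) ∈ fibre C hCn := by
          show e b.1 * (e b.2)⁻¹ ∈ C
          exact hAC (A.mul_mem (eA _) (A.inv_mem (eA _)))
        have h1 : (⟨(e b.1, e b.2), hm⟩ : fibre C hCn) ∈ S B := ⟨b, hb, rfl⟩
        rw [hBB] at h1
        obtain ⟨b', hb', h2⟩ := h1
        have h3 := congrArg Prod.fst h2
        have h4 := congrArg Prod.snd h2
        have h5 : b = b' := Prod.ext (einj h3) (einj h4)
        rw [h5]
        exact hb'
      intro B B' h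
      have h' : S B = S B' := congrArg Subtype.val h
      exact le_antisymm (hsub B B' h') (hsub B' B h'.symm)
    exact big_of_injective _ hinj hb
  have hfin : Module.Finite R M := ml_main hbig
  have hnoeth : IsNoetherian R M := isNoetherian_of_isNoetherianRing_of_finite R M
  let K' : ℕ → AddSubgroup M := fun j =>
    { carrier := {m | e m ∈ K j}
      add_mem' := by
        intro a b ha hb
        show e (a + b) ∈ K j
        rw [eadd]
        exact (K j).mul_mem ha hb
      zero_mem' := by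
        show e 0 ∈ K j
        rw [e0]
        exact (K j).one_mem
      neg_mem' := by
        intro a ha
        show e (-a) ∈ K j
        rw [eneg]
        exact (K j).inv_mem ha }
  let KS : ℕ →o Submodule R M :=
    { toFun := fun j =>
        { carrier := {m | e m ∈ K j}
          add_mem' := fun {a b} ha hb => (K' j).add_mem ha hb
          zero_mem' := (K' j).zero_mem
          smul_mem' := fun r m hm => eB (K' j) (fun m hm g m' hm' => by
            show e m' ∈ K j
            rw [hm']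
            exact (hK j).conj_mem _ hm g) r m hm }
      monotone' := by
        intro a b hab' m hm
        exact hmono hab' hm }
  obtain ⟨k, hk⟩ := (monotone_stabilizes_iff_noetherian.mpr hnoeth) KS
  refine ⟨k, fun m hm => le_antisymm ?_ (hmono hm)⟩
  intro x hx
  have hxA : x ∈ (A : Set G) := hle m hx
  rw [← erange] at hxA
  obtain ⟨y, rfl⟩ := hxA
  have hy : y ∈ KS m := hx
  rw [← hk m hm] at hy
  exact hy

theorem chain_finite_index {G : Type} [Group G] (H : Subgroup G) (hH : H.FiniteIndex)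
    (K : ℕ → Subgroup G) (hK : Monotone K) (k0 : ℕ)
    (h : ∀ m, k0 ≤ m → K m ⊓ H = K k0 ⊓ H) : ∃ k, ∀ m, k ≤ m → K m = K k := by
  have := hH
  have : Finite (G ⧸ H) := Subgroup.finite_quotient_of_finiteIndex
  let c : ℕ →o Set (G ⧸ H) := ⟨fun j => (fun x : G => (x : G ⧸ H)) '' (K j : Set G), by
    intro a b hab
    exact Set.image_mono (fun x hx => hK hab hx)⟩
  obtain ⟨k1, hk1⟩ := WellFoundedGT.monotone_chain_condition c
  refine ⟨max k0 k1, fun m hm => le_antisymm ?_ (hK hm)⟩
  intro x hx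
  have h1 : ((x : G) : G ⧸ H) ∈ c m := ⟨x, hx, rfl⟩
  have h2 : c (max k0 k1) = c m := by
    rw [← hk1 _ (le_max_right k0 k1), ← hk1 m ((le_max_right k0 k1).trans hm)]
  rw [← h2] at h1
  obtain ⟨y, hy, hyx⟩ := h1
  have h3 : y⁻¹ * x ∈ H := QuotientGroup.eq.mp hyx
  have h4 : y⁻¹ * x ∈ K m := (K m).mul_mem ((K m).inv_mem (hK hm hy)) hx
  have h5 : y⁻¹ * x ∈ K m ⊓ H := ⟨h4, h3⟩
  rw [h m ((le_max_left k0 k1).trans hm), ← h _ (le_max_left k0 k1)] at h5
  have h6 : y * (y⁻¹ * x) ∈ K (max k0 k1) := (K _).mul_mem hy h5.1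
  simpa using h6

theorem chain_factor2 {G : Type} [Group G] (hNB : NB G) (hfg : Group.FG G)
    (M N H : Subgroup G) (hM : M.Normal) (hN : N.Normal) (hMN : M ≤ N) (hH : H.FiniteIndex)
    (hab : ∀ a ∈ N ⊓ H, ∀ b ∈ N ⊓ H, ⁅a, b⁆ ∈ M)
    (hc : ∀ a ∈ N ⊓ H, ∀ c ∈ ⁅H, H⁆, ⁅a, c⁆ ∈ M)
    (K : ℕ → Subgroup G) (hKn : ∀ j, (K j).Normal) (hK : Monotone K)
    (h1 : ∀ j, M ≤ K j) (h2 : ∀ j, K j ≤ N) : ∃ k, ∀ m, k ≤ m → K m = K k := by
  haveI := hH
  haveI := hfg
  haveI := hM
  haveI := hN
  have hHfg : Group.FG H := Subgroup.fg_of_index_ne_zero H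
  haveI := hHfg
  let M0 : Subgroup H := M.subgroupOf H
  haveI hM0 : M0.Normal := hM.subgroupOf H
  have hQfg : Group.FG (H ⧸ M0) := QuotientGroup.fg M0
  have hVH : InVar G H := inVar_of_injective (inVar_self G) H.subtype H.subtype_injective
  have hVQ : InVar G (H ⧸ M0) :=
    inVar_of_surjective hVH (QuotientGroup.mk' M0) (QuotientGroup.mk'_surjective M0)
  have hsq : ∀ P : Subgroup ((H ⧸ M0) × (H ⧸ M0)), P.FG → ¬ Big {N : Subgroup P // N.Normal} := by
    intro P hP
    exact hNB P ((Group.fg_iff_subgroup_fg P).2 hP)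
      (inVar_of_injective (inVar_prod hVQ hVQ) P.subtype P.subtype_injective)
  have hsurj := QuotientGroup.mk'_surjective M0
  have hcomm : ∀ x y : H, ⁅(x : G), (y : G)⁆ ∈ M →
      QuotientGroup.mk' M0 x⁻¹ * QuotientGroup.mk' M0 y⁻¹ =
        QuotientGroup.mk' M0 y⁻¹ * QuotientGroup.mk' M0 x⁻¹ := by
    intro x y h
    rw [← map_mul, ← map_mul]
    show (QuotientGroup.mk (x⁻¹ * y⁻¹) : H ⧸ M0) = QuotientGroup.mk (y⁻¹ * x⁻¹)
    rw [QuotientGroup.eq]
    show ((x⁻¹ * y⁻¹)⁻¹ * (y⁻¹ * x⁻¹) : H) ∈ M.subgroupOf H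
    rw [Subgroup.mem_subgroupOf]
    have h2 : (((x⁻¹ * y⁻¹)⁻¹ * (y⁻¹ * x⁻¹) : H) : G) = ⁅(x : G), (y : G)⁆⁻¹ := by
      rw [commutatorElement_inv, commutatorElement_def]
      push_cast
      group
    rw [h2]
    exact M.inv_mem h
  obtain ⟨k0, hk0⟩ := abelian_chain hQfg hsq ((N.subgroupOf H).map (QuotientGroup.mk' M0))
    ((hN.subgroupOf H).map _ hsurj)
    (by
      rintro _ ⟨x, hx, rfl⟩ _ ⟨y, hy, rfl⟩
      have h1 := hcomm x⁻¹ y⁻¹ (hab _ ⟨N.inv_mem hx, H.inv_mem x.2⟩ _
        ⟨N.inv_mem hy, H.inv_mem y.2⟩)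
      rwa [inv_inv, inv_inv] at h1)
    (by
      rintro _ ⟨x, hx, rfl⟩ c hc'
      have h0 : commutator (H ⧸ M0) = (commutator H).map (QuotientGroup.mk' M0) := by
        rw [commutator_def, commutator_def, Subgroup.map_commutator,
          Subgroup.map_top_of_surjective _ hsurj]
      rw [h0] at hc'
      obtain ⟨z, hz, rfl⟩ := hc'
      have hz2 : (z : G) ∈ ⁅H, H⁆ := by
        rw [← Subgroup.map_subtype_commutator]
        exact ⟨z, hz, rfl⟩
      have h1 := hcomm x⁻¹ z⁻¹ (hc _ ⟨N.inv_mem hx, H.inv_mem x.2⟩ _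
        (Subgroup.inv_mem _ hz2))
      rwa [inv_inv, inv_inv] at h1)
    (fun j => ((K j).subgroupOf H).map (QuotientGroup.mk' M0))
    (fun j => ((hKn j).subgroupOf H).map _ hsurj)
    (fun a b hab' => Subgroup.map_mono (Subgroup.comap_mono (hK hab')))
    (fun j => Subgroup.map_mono (Subgroup.comap_mono (h2 j)))
  refine chain_finite_index H hH K hK k0 (fun m hm => ?_)
  have h3 := hk0 m hm
  have h4 : ∀ j, Subgroup.comap (QuotientGroup.mk' M0)
      (((K j).subgroupOf H).map (QuotientGroup.mk' M0)) = (K j).subgroupOf H := by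
    intro j
    apply Subgroup.comap_map_eq_self
    rw [QuotientGroup.ker_mk']
    exact Subgroup.comap_mono (h1 j)
  have h5 : (K m).subgroupOf H = (K k0).subgroupOf H := by
    rw [← h4 m, ← h4 k0]
    exact congrArg _ h3
  exact Subgroup.subgroupOf_inj.1 h5

theorem glue_mod {G : Type} [Group G] (A B P : Subgroup G) (hP : P.Normal) (hAB : A ≤ B)
    (h1 : A ⊓ P = B ⊓ P) (h2 : A ⊔ P = B ⊔ P) : A = B := by
  apply le_antisymm hAB
  intro b hb
  have hb2 : b ∈ A ⊔ P := by
    rw [h2]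
    exact Subgroup.mem_sup_left hb
  rw [Subgroup.mem_sup_of_normal_right] at hb2
  obtain ⟨a, ha, p, hp, rfl⟩ := hb2
  have hp2 : p ∈ B := by
    have := B.mul_mem (B.inv_mem (hAB ha)) hb
    simpa using this
  have hp3 : p ∈ B ⊓ P := ⟨hp2, hp⟩
  rw [← h1] at hp3
  exact A.mul_mem ha hp3.1

theorem chain_glue {G : Type} [Group G] (k : ℕ) (N : ℕ → Subgroup G)
    (hN : ∀ i, (N i).Normal) (h0 : N 0 = ⊥) (hle : ∀ i < k, N i ≤ N (i + 1))
    (hf : ∀ i < k, ∀ K : ℕ → Subgroup G, (∀ j, (K j).Normal) → Monotone K →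
      (∀ j, N i ≤ K j) → (∀ j, K j ≤ N (i + 1)) → ∃ m, ∀ j, m ≤ j → K j = K m)
    (hmax : ∀ K : ℕ → Subgroup G, (∀ j, (K j).Normal) → Monotone K → (∀ j, N k ≤ K j) →
      ∃ m, ∀ j, m ≤ j → K j = K m) :
    ∀ K : ℕ → Subgroup G, (∀ j, (K j).Normal) → Monotone K → ∃ m, ∀ j, m ≤ j → K j = K m := by
  intro K hK hmono
  have claim : ∀ i ≤ k, ∃ m, ∀ j, m ≤ j → K j ⊓ N i = K m ⊓ N i := by
    intro i
    induction i with
    | zero =>
      intro _
      exact ⟨0, fun j _ => by rw [h0, inf_bot_eq, inf_bot_eq]⟩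
    | succ i ih =>
      intro hi
      obtain ⟨m1, hm1⟩ := ih (by omega)
      have hNle := hle i (by omega)
      obtain ⟨m2, hm2⟩ := hf i (by omega) (fun j => (K j ⊓ N (i + 1)) ⊔ N i)
        (fun j => by
          haveI := hK j
          haveI := hN i
          haveI := hN (i + 1)
          infer_instance)
        (fun a b hab => sup_le_sup_right (inf_le_inf_right _ (hmono hab)) _)
        (fun j => le_sup_right)
        (fun j => sup_le inf_le_right hNle)
      have hm2' : ∀ j, m2 ≤ j → (K j ⊓ N (i + 1)) ⊔ N i = (K m2 ⊓ N (i + 1)) ⊔ N i := hm2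
      refine ⟨max m1 m2, fun j hj => ?_⟩
      symm
      have e1 : ∀ j, (K j ⊓ N (i + 1)) ⊓ N i = K j ⊓ N i := by
        intro j
        rw [inf_assoc, inf_eq_right.mpr hNle]
      apply glue_mod _ _ (N i) (hN i) (inf_le_inf_right _ (hmono hj))
      · rw [e1, e1, hm1 _ (le_max_left m1 m2), hm1 j (le_trans (le_max_left m1 m2) hj)]
      · rw [hm2' _ (le_max_right m1 m2), hm2' j (le_trans (le_max_right m1 m2) hj)]
  obtain ⟨m1, hm1⟩ := claim k le_rfl
  obtain ⟨m2, hm2⟩ := hmax (fun j => K j ⊔ N k)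
    (fun j => by
      haveI := hK j
      haveI := hN k
      infer_instance)
    (fun a b hab => sup_le_sup_right (hmono hab) _)
    (fun j => le_sup_right)
  have hm2' : ∀ j, m2 ≤ j → K j ⊔ N k = K m2 ⊔ N k := hm2
  refine ⟨max m1 m2, fun j hj => ?_⟩
  symm
  apply glue_mod _ _ (N k) (hN k) (hmono hj)
  · rw [hm1 _ (le_max_left m1 m2), hm1 j (le_trans (le_max_left m1 m2) hj)]
  · rw [hm2' _ (le_max_right m1 m2), hm2' j (le_trans (le_max_right m1 m2) hj)]

theorem nab_series {G : Type} [Group G] (H : Subgroup G) (hHn : H.Normal)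
    (hnil : Group.IsNilpotent (⁅H, H⁆ : Subgroup G)) :
    ∃ (k : ℕ) (N : ℕ → Subgroup G), (∀ i, (N i).Normal) ∧ N 0 = ⊥ ∧ N k = ⊤ ∧
      ∀ i < k, N i ≤ N (i + 1) ∧ (∀ a ∈ N (i + 1) ⊓ H, ∀ b ∈ N (i + 1) ⊓ H, ⁅a, b⁆ ∈ N i) ∧
        ∀ a ∈ N (i + 1) ⊓ H, ∀ c ∈ ⁅H, H⁆, ⁅a, c⁆ ∈ N i := by
  classical
  set L : Subgroup G := ⁅H, H⁆ with hL
  have hLn : L.Normal := by
    rw [hL]; exact Subgroup.commutator_normal H H
  have hLH : L ≤ H := by
    rw [hL]; exact Subgroup.commutator_le_left H H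
  have hnorm : ∀ n, (L.lowerCentralSeries n).Normal := by
    intro n
    induction n with
    | zero => exact hLn
    | succ n ih =>
      rw [Subgroup.lowerCentralSeries_succ]
      exact Subgroup.commutator_normal _ _
  obtain ⟨c, hc⟩ := (Subgroup.isNilpotent_iff_lowerCentralSeries L).1 hnil
  refine ⟨c + 1, fun i => if i ≤ c then L.lowerCentralSeries (c - i) else ⊤, ?_, ?_, ?_, ?_⟩
  · intro i
    by_cases h : i ≤ c
    · simp only [h, if_true]; exact hnorm _
    · simp only [h, if_false]; infer_instance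
  · simp [hc]
  · simp
  · intro i hi
    have hi' : i ≤ c := by omega
    have hle : ∀ n, L.lowerCentralSeries n ≤ L := fun n =>
      (Subgroup.lowerCentralSeries_antitone L (Nat.zero_le n)).trans (le_of_eq rfl)
    by_cases h2 : i + 1 ≤ c
    · simp only [hi', h2, if_true]
      have he : c - i = (c - (i + 1)) + 1 := by omega
      refine ⟨?_, ?_, ?_⟩
      · exact Subgroup.lowerCentralSeries_antitone L (by omega)
      · intro a ha b hb
        rw [he, Subgroup.lowerCentralSeries_succ]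
        exact Subgroup.commutator_mem_commutator ha.1 (hle _ hb.1)
      · intro a ha d hd
        rw [he, Subgroup.lowerCentralSeries_succ]
        exact Subgroup.commutator_mem_commutator ha.1 hd
    · have hic : i = c := by omega
      subst hic
      simp only [le_refl, h2, if_true, if_false, Nat.sub_self, Subgroup.lowerCentralSeries_zero]
      refine ⟨le_top, ?_, ?_⟩
      · intro a ha b hb
        exact Subgroup.commutator_mem_commutator ha.2 hb.2
      · intro a ha d hd
        exact Subgroup.commutator_mem_commutator ha.2 (hLH hd)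

theorem nab_main {G : Type} [Group G] (hNB : NB G) (hfg : Group.FG G) (H : Subgroup G)
    (hH : H.FiniteIndex) (hnil : Group.IsNilpotent (⁅H, H⁆ : Subgroup G)) :
    ∀ K : ℕ → Subgroup G, (∀ j, (K j).Normal) → Monotone K → ∃ m, ∀ j, m ≤ j → K j = K m := by
  have hle : H.normalCore ≤ H := Subgroup.normalCore_le H
  have hfin : H.normalCore.FiniteIndex := inferInstance
  have hcomm : ⁅H.normalCore, H.normalCore⁆ ≤ ⁅H, H⁆ := Subgroup.commutator_mono hle hle
  have hnil' : Group.IsNilpotent (⁅H.normalCore, H.normalCore⁆ : Subgroup G) :=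
    by
      haveI := hnil
      have e := (Subgroup.subgroupOfEquivOfLe hcomm)
      exact Group.nilpotent_of_mulEquiv e
  obtain ⟨k, N, hN, h0, hk, hs⟩ := nab_series H.normalCore inferInstance hnil'
  refine chain_glue k N hN h0 (fun i hi => (hs i hi).1) ?_ ?_
  · intro i hi K hKn hK h1 h2
    exact chain_factor2 hNB hfg (N i) (N (i + 1)) H.normalCore (hN i) (hN (i + 1)) (hs i hi).1 hfin
      (hs i hi).2.1 (hs i hi).2.2 K hKn hK h1 h2
  · intro K hKn hK h1
    refine ⟨0, fun j _ => ?_⟩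
    have a1 := h1 j
    have a2 := h1 0
    rw [hk] at a1 a2
    rw [top_le_iff.mp a1, top_le_iff.mp a2]

end Pool.Agent.Helper730.SM
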