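import Pool.Agent.Helper730.SMB

set_option autoImplicit false

namespace Pool.Agent.Helper730.SM

/-- the fibre square of `G` over `G / C` -/
def fibre {G : Type} [Group G] (C : Subgroup G) (hC : C.Normal) : Subgroup (G × G) where
  carrier := {x | x.1 * x.2⁻¹ ∈ C}
  mul_mem' := by
    intro a b ha hb
    have h1 : a.1 * (b.1 * b.2⁻¹) * a.1⁻¹ ∈ C := hC.conj_mem _ hb a.1
    have h2 : (a * b).1 * (a * b).2⁻¹ = (a.1 * (b.1 * b.2⁻¹) * a.1⁻¹) * (a.1 * a.2⁻¹) := by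
      simp only [Prod.fst_mul, Prod.snd_mul]
      group
    change (a * b).1 * (a * b).2⁻¹ ∈ C
    rw [h2]
    exact C.mul_mem h1 ha
  one_mem' := by
    change (1 : G) * (1 : G)⁻¹ ∈ C
    simp
  inv_mem' := by
    intro a ha
    have h1 : a.1⁻¹ * (a.1 * a.2⁻¹)⁻¹ * (a.1⁻¹)⁻¹ ∈ C := hC.conj_mem _ (C.inv_mem ha) a.1⁻¹
    change (a⁻¹).1 * (a⁻¹).2⁻¹ ∈ C
    have h2 : (a⁻¹).1 * (a⁻¹).2⁻¹ = a.1⁻¹ * (a.1 * a.2⁻¹)⁻¹ * (a.1⁻¹)⁻¹ := by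
      simp only [Prod.fst_inv, Prod.snd_inv]
      group
    rw [h2]
    exact h1

end Pool.Agent.Helper730.SM
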