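import Pool.Agent.Helper730.VNDefs

set_option autoImplicit false

open scoped commutatorElement

namespace Pool.Agent.Helper730.VM

theorem gam_FI (n : ℕ) : FI (gam n) := by
  induction n with
  | zero => intro φ x _; exact Subgroup.mem_top _
  | succ n ih =>
    intro φ x hx
    have h1 : (⁅gam n, (⊤ : Subgroup (FreeGroup ℕ))⁆ : Subgroup (FreeGroup ℕ)) ≤
        (⁅gam n, (⊤ : Subgroup (FreeGroup ℕ))⁆ : Subgroup (FreeGroup ℕ)).comap φ := by
      rw [Subgroup.commutator_le]
      intro a ha b _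
      rw [Subgroup.mem_comap, map_commutatorElement]
      exact Subgroup.commutator_mem_commutator (ih φ a ha) (Subgroup.mem_top _)
    exact h1 hx

theorem gam_anti (n : ℕ) : gam (n + 1) ≤ gam n := by
  have : (gam n).Normal := FI.normal (gam_FI n)
  show (⁅gam n, (⊤ : Subgroup (FreeGroup ℕ))⁆ : Subgroup (FreeGroup ℕ)) ≤ gam n
  exact Subgroup.commutator_le_left _ _

theorem lnc_mem (n : ℕ) (j : Fin (n + 1) → ℕ) : lnc n j ∈ gam n := by
  induction n with
  | zero => exact Subgroup.mem_top _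
  | succ n ih =>
    exact Subgroup.commutator_mem_commutator (ih _) (Subgroup.mem_top _)

theorem sbst_of_some (ρ : ℕ → Option ℕ) (i k : ℕ) (h : ρ i = some k) :
    sbst ρ (FreeGroup.of i) = FreeGroup.of k := by
  unfold sbst
  rw [FreeGroup.lift_apply_of, h]

theorem sbst_of_none (ρ : ℕ → Option ℕ) (i : ℕ) (h : ρ i = none) :
    sbst ρ (FreeGroup.of i) = 1 := by
  unfold sbst
  rw [FreeGroup.lift_apply_of, h]

theorem sbst_lnc (n : ℕ) (ρ : ℕ → Option ℕ) (j k : Fin (n + 1) → ℕ)
    (h : ∀ t, ρ (j t) = some (k t)) : sbst ρ (lnc n j) = lnc n k := by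
  induction n with
  | zero => exact sbst_of_some ρ _ _ (h 0)
  | succ n ih =>
    unfold lnc
    rw [map_commutatorElement, ih _ (fun t => k t.castSucc) (fun t => h t.castSucc),
      sbst_of_some ρ _ _ (h (Fin.last (n + 1)))]

theorem sbst_lnc_none (n : ℕ) (ρ : ℕ → Option ℕ) (j : Fin (n + 1) → ℕ)
    (h : ∃ t, ρ (j t) = none) : sbst ρ (lnc n j) = 1 := by
  induction n with
  | zero =>
    obtain ⟨t, ht⟩ := h
    have : t = 0 := by ext; simp
    subst this
    exact sbst_of_none ρ _ ht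
  | succ n ih =>
    unfold lnc
    rw [map_commutatorElement]
    obtain ⟨t, ht⟩ := h
    induction t using Fin.lastCases with
    | last => rw [sbst_of_none ρ _ ht]; simp
    | cast t => rw [ih (fun t => j t.castSucc) ⟨t, ht⟩]; simp

theorem cr_753 {G : Type} [Group G] (W : Subgroup G) (hW : W.Normal) (u : G) :
    ∃ S : Subgroup G, ∀ x, x ∈ S ↔ ⁅u, x⁆ ∈ W := by
  refine ⟨{ carrier := {x | ⁅u, x⁆ ∈ W}, one_mem' := ?_, mul_mem' := ?_, inv_mem' := ?_ },
    fun x => Iff.rfl⟩
  · intro a b ha hb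
    have h1 : ⁅u, a * b⁆ = ⁅u, a⁆ * (a * ⁅u, b⁆ * a⁻¹) := by
      simp only [commutatorElement_def]; group
    show ⁅u, a * b⁆ ∈ W
    rw [h1]
    exact W.mul_mem ha (hW.conj_mem _ hb a)
  · show ⁅u, (1 : G)⁆ ∈ W
    rw [commutatorElement_one_right]
    exact W.one_mem
  · intro a ha
    have h1 : ⁅u, a⁻¹⁆ = a⁻¹ * ⁅u, a⁆⁻¹ * a⁻¹⁻¹ := by
      simp only [commutatorElement_def]; group
    show ⁅u, a⁻¹⁆ ∈ W
    rw [h1]
    exact hW.conj_mem _ (W.inv_mem ha) _

theorem cl_753 {G : Type} [Group G] (W : Subgroup G) (hW : W.Normal) (x : G) :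
    ∃ S : Subgroup G, ∀ u, u ∈ S ↔ ⁅u, x⁆ ∈ W := by
  refine ⟨{ carrier := {u | ⁅u, x⁆ ∈ W}, one_mem' := ?_, mul_mem' := ?_, inv_mem' := ?_ },
    fun x => Iff.rfl⟩
  · intro a b ha hb
    have h1 : ⁅a * b, x⁆ = (a * ⁅b, x⁆ * a⁻¹) * ⁅a, x⁆ := by
      simp only [commutatorElement_def]; group
    show ⁅a * b, x⁆ ∈ W
    rw [h1]
    exact W.mul_mem (hW.conj_mem _ hb a) ha
  · show ⁅(1 : G), x⁆ ∈ W
    rw [commutatorElement_one_left]
    exact W.one_mem
  · intro a ha
    have h1 : ⁅a⁻¹, x⁆ = a⁻¹ * ⁅a, x⁆⁻¹ * a⁻¹⁻¹ := by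
      simp only [commutatorElement_def]; group
    show ⁅a⁻¹, x⁆ ∈ W
    rw [h1]
    exact hW.conj_mem _ (W.inv_mem ha) _

theorem gam_comm_753 (n : ℕ) (u x : FreeGroup ℕ) (hu : u ∈ gam n) : ⁅u, x⁆ ∈ gam (n + 1) :=
  Subgroup.commutator_mem_commutator hu (Subgroup.mem_top x)

theorem gam_gen (n : ℕ) : gam n ≤ Subgroup.closure (Set.range (lnc n)) ⊔ gam (n + 1) := by
  induction n with
  | zero =>
    have h1 : (⊤ : Subgroup (FreeGroup ℕ)) ≤ Subgroup.closure (Set.range (lnc 0)) := by
      rw [← FreeGroup.closure_range_of ℕ]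
      apply Subgroup.closure_mono
      rintro _ ⟨i, rfl⟩
      exact ⟨fun _ => i, rfl⟩
    exact le_sup_of_le_left (le_trans le_top h1)
  | succ n ih =>
    have hle : Subgroup.closure (Set.range (lnc (n + 1))) ⊔ gam (n + 1 + 1) ≤ gam (n + 1) := by
      apply sup_le
      · rw [Subgroup.closure_le]
        rintro _ ⟨j, rfl⟩
        exact lnc_mem (n + 1) j
      · exact gam_anti (n + 1)
    have hW : (Subgroup.closure (Set.range (lnc (n + 1))) ⊔ gam (n + 1 + 1)).Normal := by
      constructor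
      intro w hw g
      have h1 : g * w * g⁻¹ = ⁅w, g⁆⁻¹ * w := by
        simp only [commutatorElement_def]; group
      rw [h1]
      apply Subgroup.mul_mem _ _ hw
      apply Subgroup.inv_mem
      exact Subgroup.mem_sup_right (gam_comm_753 (n + 1) w g (hle hw))
    have hA : ∀ (j : Fin (n + 1) → ℕ) (x : FreeGroup ℕ),
        ⁅lnc n j, x⁆ ∈ Subgroup.closure (Set.range (lnc (n + 1))) ⊔ gam (n + 1 + 1) := by
      intro j x
      obtain ⟨S, hS⟩ := cr_753 _ hW (lnc n j)
      have h1 : (⊤ : Subgroup (FreeGroup ℕ)) ≤ S := by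
        rw [← FreeGroup.closure_range_of ℕ, Subgroup.closure_le]
        rintro _ ⟨i, rfl⟩
        refine (hS _).2 ?_
        apply Subgroup.mem_sup_left
        apply Subgroup.subset_closure
        refine ⟨Fin.snoc j i, ?_⟩
        rw [lnc]
        congr 1
        · congr 1
          funext t
          simp
        · simp
      exact (hS x).1 (h1 (Subgroup.mem_top x))
    change ⁅gam n, (⊤ : Subgroup (FreeGroup ℕ))⁆ ≤ _
    rw [Subgroup.commutator_le]
    intro u hu x _
    obtain ⟨S, hS⟩ := cl_753 _ hW x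
    have h2 : Subgroup.closure (Set.range (lnc n)) ⊔ gam (n + 1) ≤ S := by
      apply sup_le
      · rw [Subgroup.closure_le]
        rintro _ ⟨j, rfl⟩
        exact (hS _).2 (hA j x)
      · intro v hv
        exact (hS _).2 (Subgroup.mem_sup_right (gam_comm_753 (n + 1) v x hv))
    exact (hS u).1 (h2 (ih hu)) -- PROVE THIS

/-- the subgroup of the elements in the variables `V` -/
def AV {A : Type} [AddCommGroup A] {i : ℕ} (b : (Fin i → ℕ) → A) (V : Finset ℕ) : AddSubgroup A :=
  AddSubgroup.closure {x | ∃ j : Fin i → ℕ, (∀ t, j t ∈ V) ∧ b j = x}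

theorem AV_mono {A : Type} [AddCommGroup A] {i : ℕ} (b : (Fin i → ℕ) → A) {V W : Finset ℕ}
    (h : V ⊆ W) : AV b V ≤ AV b W := by
  apply AddSubgroup.closure_mono
  rintro x ⟨j, hj, rfl⟩
  exact ⟨j, fun t => h (hj t), rfl⟩

theorem AV_exists {A : Type} [AddCommGroup A] {i : ℕ} (b : (Fin i → ℕ) → A)
    (hspan : AddSubgroup.closure (Set.range b) = ⊤) (a : A) : ∃ V, a ∈ AV b V := by
  classical
  have ha : a ∈ AddSubgroup.closure (Set.range b) := by rw [hspan]; trivial
  induction ha using AddSubgroup.closure_induction with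
  | mem x hx =>
    obtain ⟨j, rfl⟩ := hx
    exact ⟨Finset.univ.image j, AddSubgroup.subset_closure
      ⟨j, fun t => Finset.mem_image_of_mem j (Finset.mem_univ t), rfl⟩⟩
  | zero => exact ⟨∅, AddSubgroup.zero_mem _⟩
  | add x y _ _ hx hy =>
    obtain ⟨V, hV⟩ := hx
    obtain ⟨W, hW⟩ := hy
    exact ⟨V ∪ W, AddSubgroup.add_mem _ (AV_mono b Finset.subset_union_left hV)
      (AV_mono b Finset.subset_union_right hW)⟩
  | neg x _ hx =>
    obtain ⟨V, hV⟩ := hx
    exact ⟨V, AddSubgroup.neg_mem _ hV⟩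

theorem acc_key {A : Type} [AddCommGroup A] (i : ℕ) (b : (Fin i → ℕ) → A)
    (σ : (ℕ → Option ℕ) → (A →+ A))
    (h1 : ∀ (ρ : ℕ → Option ℕ) (j k : Fin i → ℕ), (∀ t, ρ (j t) = some (k t)) →
      σ ρ (b j) = b k)
    (h2 : ∀ (ρ : ℕ → Option ℕ) (j : Fin i → ℕ), (∃ t, ρ (j t) = none) → σ ρ (b j) = 0)
    (L L' : AddSubgroup A) (hL : ∀ ρ, ∀ a ∈ L, σ ρ a ∈ L) (hL' : ∀ ρ, ∀ a ∈ L', σ ρ a ∈ L')
    (hC : L ⊓ AddSubgroup.closure (b '' {j | ∀ t, j t ∈ {m : ℕ | m < i}}) ≤ L') (V : Finset ℕ) :
    L ⊓ AV b V ≤ L' := by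
  classical
  induction V using Finset.strongInduction with
  | H V ih =>
    rintro a ⟨haL, haV⟩
    by_cases hV : V.card ≤ i
    · let ρ : ℕ → Option ℕ := fun k =>
        if h : k ∈ V then some ((V.equivFin ⟨k, h⟩ : Fin V.card) : ℕ) else none
      let ρ' : ℕ → Option ℕ := fun m =>
        if h : m < V.card then some ((V.equivFin.symm ⟨m, h⟩ : V) : ℕ) else none
      have hb : ∀ j : Fin i → ℕ, ∀ hj : ∀ t, j t ∈ V,
          σ ρ (b j) = b (fun t => ((V.equivFin ⟨j t, hj t⟩ : Fin V.card) : ℕ)) := by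
        intro j hj
        apply h1
        intro t
        simp only [ρ]
        rw [dif_pos (hj t)]
      have hb' : ∀ j : Fin i → ℕ, ∀ hj : ∀ t, j t ∈ V, σ ρ' (σ ρ (b j)) = b j := by
        intro j hj
        rw [hb j hj]
        apply h1
        intro t
        simp only [ρ']
        rw [dif_pos (V.equivFin ⟨j t, hj t⟩).2]
        simp
      have hmem : σ ρ a ∈ AddSubgroup.closure (b '' {j | ∀ t, j t ∈ {m : ℕ | m < i}}) := by
        have hle : AV b V ≤ (AddSubgroup.closure
            (b '' {j | ∀ t, j t ∈ {m : ℕ | m < i}})).comap (σ ρ) := by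
          unfold AV
          rw [AddSubgroup.closure_le]
          rintro x ⟨j, hj, rfl⟩
          rw [SetLike.mem_coe, AddSubgroup.mem_comap]
          rw [hb j hj]
          refine AddSubgroup.subset_closure ⟨_, ?_, rfl⟩
          intro t
          exact lt_of_lt_of_le (V.equivFin ⟨j t, hj t⟩).2 hV
        exact hle haV
      have hid : σ ρ' (σ ρ a) = a := by
        have hle : AV b V ≤ AddMonoidHom.eqLocus ((σ ρ').comp (σ ρ)) (AddMonoidHom.id A) := by
          unfold AV
          rw [AddSubgroup.closure_le]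
          rintro x ⟨j, hj, rfl⟩
          exact hb' j hj
        exact hle haV
      rw [← hid]
      exact hL' ρ' _ (hC ⟨hL ρ a haL, hmem⟩)
    · push Not at hV
      let D : ℕ → (A →+ A) := fun v => σ (fun k => if k ∈ V ∧ k ≠ v then some k else none)
      have hD1 : ∀ v, ∀ j : Fin i → ℕ, (∀ t, j t ∈ V) → (∀ t, j t ≠ v) → D v (b j) = b j := by
        intro v j hj hv
        apply h1
        intro t
        rw [if_pos ⟨hj t, hv t⟩]
      have hD2 : ∀ v, ∀ j : Fin i → ℕ, (∃ t, j t = v) → D v (b j) = 0 := by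
        rintro v j ⟨t, ht⟩
        apply h2
        refine ⟨t, ?_⟩
        rw [if_neg]
        rintro ⟨_, h⟩
        exact h ht
      have hDV : ∀ v, ∀ x ∈ AV b V, D v x ∈ AV b (V.erase v) := by
        intro v x hx
        have hle : AV b V ≤ (AV b (V.erase v)).comap (D v) := by
          rw [AV, AddSubgroup.closure_le]
          rintro x ⟨j, hj, rfl⟩
          rw [SetLike.mem_coe, AddSubgroup.mem_comap]
          by_cases hv : ∃ t, j t = v
          · rw [hD2 v j hv]
            exact AddSubgroup.zero_mem _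
          · push Not at hv
            rw [hD1 v j hj hv]
            exact AddSubgroup.subset_closure
              ⟨j, fun t => Finset.mem_erase.2 ⟨hv t, hj t⟩, rfl⟩
        exact hle hx
      -- iterated operators
      let P : List ℕ → (A →+ A) := fun l =>
        l.foldr (fun v f => f.comp (AddMonoidHom.id A - D v)) (AddMonoidHom.id A)
      have hP0 : ∀ x, P [] x = x := fun x => rfl
      have hPc : ∀ v l x, P (v :: l) x = P l (x - D v x) := fun v l x => rfl
      have hPb : ∀ l : List ℕ, ∀ j : Fin i → ℕ, (∀ t, j t ∈ V) → (∃ v ∈ l, ∀ t, j t ≠ v) →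
          P l (b j) = 0 := by
        intro l
        induction l with
        | nil =>
          rintro j _ ⟨v, hv, _⟩
          simp at hv
        | cons v l ihl =>
          rintro j hj ⟨u, hu, hju⟩
          rw [hPc]
          by_cases hv : ∃ t, j t = v
          · rw [hD2 v j hv, sub_zero]
            apply ihl j hj
            rcases List.mem_cons.1 hu with h | h
            · obtain ⟨t, ht⟩ := hv
              exact absurd (ht.trans h.symm) (hju t)
            · exact ⟨u, h, hju⟩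
          · push Not at hv
            rw [hD1 v j hj hv, sub_self, map_zero]
      have hPL : ∀ l : List ℕ, (∀ v ∈ l, v ∈ V) → ∀ x ∈ L ⊓ AV b V, x - P l x ∈ L' := by
        intro l
        induction l with
        | nil =>
          intro _ x _
          rw [hP0, sub_self]
          exact AddSubgroup.zero_mem _
        | cons v l ihl =>
          rintro hl x ⟨hxL, hxV⟩
          have hvV : v ∈ V := hl v List.mem_cons_self
          have hDL : D v x ∈ L := hL _ x hxL
          have hDA : D v x ∈ AV b (V.erase v) := hDV v x hxV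
          have e1 : D v x ∈ L' := ih (V.erase v) (Finset.erase_ssubset hvV) ⟨hDL, hDA⟩
          have hxL2 : x - D v x ∈ L := AddSubgroup.sub_mem _ hxL hDL
          have hxV2 : x - D v x ∈ AV b V :=
            AddSubgroup.sub_mem _ hxV (AV_mono b (Finset.erase_subset _ _) hDA)
          have e2 := ihl (fun u hu => hl u (List.mem_cons_of_mem _ hu)) (x - D v x) ⟨hxL2, hxV2⟩
          rw [hPc]
          have e3 : x - P l (x - D v x) = (x - D v x - P l (x - D v x)) + D v x := by abel
          rw [e3]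
          exact AddSubgroup.add_mem _ e2 e1
      have hP : P V.toList a = 0 := by
        have hle : AV b V ≤ (P V.toList).ker := by
          rw [AV, AddSubgroup.closure_le]
          rintro x ⟨j, hj, rfl⟩
          show P V.toList (b j) = 0
          apply hPb _ j hj
          have hcard : (Finset.univ.image j).card < V.card := by
            refine lt_of_le_of_lt Finset.card_image_le ?_
            rw [Finset.card_univ, Fintype.card_fin]
            exact hV
          obtain ⟨v, hv, hv'⟩ := Finset.exists_mem_notMem_of_card_lt_card hcard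
          refine ⟨v, Finset.mem_toList.2 hv, fun t ht => hv' ?_⟩
          rw [← ht]
          exact Finset.mem_image_of_mem j (Finset.mem_univ t)
        exact hle haV
      have h3 := hPL V.toList (fun v hv => Finset.mem_toList.1 hv) a ⟨haL, haV⟩
      rw [hP, sub_zero] at h3
      exact h3

theorem acc_functor {A : Type} [AddCommGroup A] (i : ℕ) (b : (Fin i → ℕ) → A)
    (hspan : AddSubgroup.closure (Set.range b) = ⊤) (σ : (ℕ → Option ℕ) → (A →+ A))
    (h1 : ∀ (ρ : ℕ → Option ℕ) (j k : Fin i → ℕ), (∀ t, ρ (j t) = some (k t)) →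
      σ ρ (b j) = b k)
    (h2 : ∀ (ρ : ℕ → Option ℕ) (j : Fin i → ℕ), (∃ t, ρ (j t) = none) → σ ρ (b j) = 0)
    (K : ℕ → AddSubgroup A) (hmono : Monotone K) (hK : ∀ n ρ, ∀ a ∈ K n, σ ρ a ∈ K n) :
    ∃ m, ∀ n, m ≤ n → K n = K m := by
  classical
  set C : AddSubgroup A := AddSubgroup.closure (b '' {j | ∀ t, j t ∈ {m : ℕ | m < i}}) with hCdef
  have hfin : (b '' {j : Fin i → ℕ | ∀ t, j t ∈ {m : ℕ | m < i}}).Finite :=
    (Set.Finite.pi' fun _ => Set.finite_lt_nat i).image b
  have hfg : C.FG := (AddSubgroup.fg_iff C).2 ⟨_, rfl, hfin⟩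
  have hfg2 : AddGroup.FG C := (AddGroup.fg_iff_addSubgroup_fg C).2 hfg
  have hmf : Module.Finite ℤ C := Module.Finite.iff_addGroup_fg.2 hfg2
  have hnoe : IsNoetherian ℤ C := inferInstance
  let f : ℕ →o Submodule ℤ C :=
    ⟨fun n => AddSubgroup.toIntSubmodule ((K n).comap C.subtype), by
      intro m n hmn x hx
      exact hmono hmn hx⟩
  obtain ⟨m, hm⟩ := monotone_stabilizes_iff_noetherian.2 hnoe f
  refine ⟨m, fun n hn => le_antisymm ?_ (hmono hn)⟩
  have hCle : K n ⊓ C ≤ K m := by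
    rintro x ⟨hx, hxC⟩
    have h3 : (⟨x, hxC⟩ : C) ∈ f n := hx
    rw [← hm n hn] at h3
    exact h3
  intro a ha
  obtain ⟨V, hV⟩ := AV_exists b hspan a
  exact acc_key i b σ h1 h2 (K n) (K m) (hK n) (hK m) hCle V ⟨ha, hV⟩

end Pool.Agent.Helper730.VM
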