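import Pool.Agent.Helper730.VNA

set_option autoImplicit false

open scoped commutatorElement

namespace Pool.Agent.Helper730.VM

theorem layer_abs (n : ℕ) (K : ℕ → Subgroup (FreeGroup ℕ)) (hK : ∀ j, FI (K j))
    (hmono : Monotone K) (h1 : ∀ j, gam (n + 1) ≤ K j) (h2 : ∀ j, K j ≤ gam n)
    {A : Type} [CommGroup A] (π : ↥(gam n) →* A) (hsurj : Function.Surjective π)
    (hker : ∀ x : ↥(gam n), π x = 1 ↔ (x : FreeGroup ℕ) ∈ gam (n + 1)) :
    ∃ m, ∀ j, m ≤ j → K j = K m := by
  classical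
  let φ : (ℕ → Option ℕ) → (↥(gam n) →* ↥(gam n)) := fun ρ =>
    ((sbst ρ).comp (gam n).subtype).codRestrict (gam n) (fun x => gam_FI n (sbst ρ) x x.2)
  have hφ : ∀ ρ x, ((φ ρ x : ↥(gam n)) : FreeGroup ℕ) = sbst ρ (x : FreeGroup ℕ) := fun ρ x => rfl
  have hσ : ∀ ρ, ∃ σ : A →* A, ∀ x, σ (π x) = π (φ ρ x) := by
    intro ρ
    have hle : π.ker ≤ (π.comp (φ ρ)).ker := by
      intro x hx
      rw [MonoidHom.mem_ker] at hx ⊢
      rw [MonoidHom.comp_apply, hker, hφ]
      exact gam_FI (n + 1) (sbst ρ) _ ((hker x).1 hx)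
    refine ⟨π.liftOfSurjective hsurj ⟨π.comp (φ ρ), hle⟩, fun x => ?_⟩
    exact MonoidHom.liftOfRightInverse_comp_apply _ _ _ _ _
  choose σ hσ using hσ
  -- generation
  let bb : (Fin (n + 1) → ℕ) → A := fun j => π ⟨lnc n j, lnc_mem n j⟩
  have hspan' : Subgroup.closure (Set.range bb) = ⊤ := by
    rw [eq_top_iff]
    intro a _
    obtain ⟨x, rfl⟩ := hsurj a
    have hT : gam n ≤ ((Subgroup.closure (Set.range bb)).comap π).map (gam n).subtype := by
      refine (gam_gen n).trans (sup_le ?_ ?_)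
      · rw [Subgroup.closure_le]
        rintro _ ⟨j, rfl⟩
        exact ⟨⟨lnc n j, lnc_mem n j⟩, Subgroup.subset_closure ⟨j, rfl⟩, rfl⟩
      · intro y hy
        refine ⟨⟨y, gam_anti n hy⟩, ?_, rfl⟩
        show π _ ∈ Subgroup.closure (Set.range bb)
        rw [(hker ⟨y, gam_anti n hy⟩).2 hy]
        exact one_mem _
    obtain ⟨y, hy, hyx⟩ := hT x.2
    have : y = x := Subtype.ext hyx
    rw [← this]
    exact hy
  have hspan : AddSubgroup.closure (Set.range (fun j => Additive.ofMul (bb j))) =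
      (⊤ : AddSubgroup (Additive A)) := by
    have h3 := Subgroup.toAddSubgroup_closure (Set.range bb)
    rw [hspan'] at h3
    have h4 : (Additive.toMul ⁻¹' Set.range bb : Set (Additive A)) =
        Set.range (fun j => Additive.ofMul (bb j)) := by
      ext a
      constructor
      · rintro ⟨j, hj⟩
        exact ⟨j, congrArg Additive.ofMul hj⟩
      · rintro ⟨j, hj⟩
        exact ⟨j, congrArg Additive.toMul hj⟩
    rw [h4] at h3
    rw [← h3]
    rfl
  obtain ⟨m, hm⟩ := acc_functor (A := Additive A) (n + 1) (fun j => Additive.ofMul (bb j)) hspan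
    (fun ρ => MonoidHom.toAdditive (σ ρ))
    (by
      intro ρ j k hjk
      show Additive.ofMul (σ ρ (bb j)) = Additive.ofMul (bb k)
      congr 1
      show σ ρ (π _) = π _
      rw [hσ]
      congr 1
      apply Subtype.ext
      rw [hφ]
      exact sbst_lnc n ρ j k hjk)
    (by
      intro ρ j hj
      show Additive.ofMul (σ ρ (bb j)) = Additive.ofMul (1 : A)
      congr 1
      show σ ρ (π _) = 1
      rw [hσ, hker, hφ]
      have : sbst ρ (lnc n j) = 1 := sbst_lnc_none n ρ j hj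
      show sbst ρ (lnc n j) ∈ _
      rw [this]
      exact one_mem _)
    (fun j => Subgroup.toAddSubgroup (((K j).subgroupOf (gam n)).map π))
    (by
      intro i j hij
      apply Subgroup.toAddSubgroup.monotone
      apply Subgroup.map_mono
      intro x hx
      exact hmono hij hx)
    (by
      rintro j ρ a ⟨x, hx, hxa⟩
      refine ⟨φ ρ x, ?_, ?_⟩
      · exact hK j (sbst ρ) _ hx
      · have : π x = Additive.toMul a := hxa
        show π (φ ρ x) = σ ρ (Additive.toMul a)
        rw [← this, hσ])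
  refine ⟨m, fun j hj => le_antisymm ?_ (hmono hj)⟩
  have h5 := hm j hj
  have h6 : ((K j).subgroupOf (gam n)).map π = ((K m).subgroupOf (gam n)).map π :=
    Subgroup.toAddSubgroup.injective h5
  intro x hx
  have h7 : π ⟨x, h2 j hx⟩ ∈ ((K j).subgroupOf (gam n)).map π := ⟨⟨x, h2 j hx⟩, hx, rfl⟩
  rw [h6] at h7
  obtain ⟨y, hy, hyx⟩ := h7
  have h8 : π (y⁻¹ * ⟨x, h2 j hx⟩) = 1 := by
    rw [map_mul, map_inv, hyx, inv_mul_cancel]
  have h9 := (hker _).1 h8
  have h10 := h1 m h9
  have h11 : (x : FreeGroup ℕ) = (y : FreeGroup ℕ) * ((y⁻¹ * ⟨x, h2 j hx⟩ : ↥(gam n)) : FreeGroup ℕ) := by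
    show x = (y : FreeGroup ℕ) * ((y : FreeGroup ℕ)⁻¹ * x)
    group
  rw [h11]
  exact (K m).mul_mem hy h10

theorem layer_chain (n : ℕ) (K : ℕ → Subgroup (FreeGroup ℕ)) (hK : ∀ j, FI (K j))
    (hmono : Monotone K) (h1 : ∀ j, gam (n + 1) ≤ K j) (h2 : ∀ j, K j ≤ gam n) :
    ∃ m, ∀ j, m ≤ j → K j = K m := by
  have hn : (gam (n + 1)).Normal := (gam_FI (n + 1)).normal
  let N : Subgroup ↥(gam n) := (gam (n + 1)).subgroupOf (gam n)
  have hcomm : ∀ a b : ↥(gam n) ⧸ N, a * b = b * a := by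
    intro a b
    induction a using QuotientGroup.induction_on with
    | H x =>
      induction b using QuotientGroup.induction_on with
      | H y =>
        rw [← QuotientGroup.mk_mul, ← QuotientGroup.mk_mul, QuotientGroup.eq]
        show ((x * y)⁻¹ * (y * x) : ↥(gam n)) ∈ (gam (n + 1)).subgroupOf (gam n)
        rw [Subgroup.mem_subgroupOf]
        have : (((x * y)⁻¹ * (y * x) : ↥(gam n)) : FreeGroup ℕ) =
            ⁅(y : FreeGroup ℕ)⁻¹, (x : FreeGroup ℕ)⁻¹⁆ := by
          rw [commutatorElement_def]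
          push_cast
          group
        rw [this]
        exact Subgroup.commutator_mem_commutator ((gam n).inv_mem y.2) (Subgroup.mem_top _)
  let inst : CommGroup (↥(gam n) ⧸ N) :=
    { (inferInstance : Group (↥(gam n) ⧸ N)) with mul_comm := hcomm }
  refine layer_abs n K hK hmono h1 h2 (A := ↥(gam n) ⧸ N) (QuotientGroup.mk' N)
    (QuotientGroup.mk'_surjective N) ?_
  intro x
  have : (QuotientGroup.mk' N) x = 1 ↔ x ∈ N := QuotientGroup.eq_one_iff x
  rw [← Subgroup.mem_subgroupOf]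
  exact this

theorem min_nilpotent (c : ℕ) (N : Subgroup (FreeGroup ℕ)) (hc : gam c ≤ N) : MinFI N := by
  rintro ⟨f, hf, hF⟩
  have hmono : Monotone f := hf.monotone
  have key : ∀ k, k ≤ c → ∃ m, ∀ j, m ≤ j → f j ⊓ gam (c - k) = f m ⊓ gam (c - k) := by
    intro k
    induction k with
    | zero =>
      intro _
      refine ⟨0, fun j _ => ?_⟩
      rw [Nat.sub_zero, inf_eq_right.mpr (le_trans hc (hF j).1),
        inf_eq_right.mpr (le_trans hc (hF 0).1)]
    | succ k ih =>
      intro hk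
      obtain ⟨m1, hm1⟩ := ih (by omega)
      obtain ⟨i, hi⟩ : ∃ i, i = c - (k + 1) := ⟨_, rfl⟩
      have hi1 : c - k = i + 1 := by omega
      rw [hi1] at hm1
      rw [← hi]
      obtain ⟨m2, hm2⟩ := layer_chain i (fun j => (f j ⊓ gam i) ⊔ gam (i + 1))
        (fun j => FI.sup (fun φ x hx => ⟨(hF j).2 φ x hx.1, gam_FI i φ x hx.2⟩) (gam_FI (i + 1)))
        (fun a b hab => sup_le_sup_right (inf_le_inf_right _ (hmono hab)) _)
        (fun j => le_sup_right) (fun j => sup_le inf_le_right (gam_anti i))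
      refine ⟨max m1 m2, fun j hj => ?_⟩
      apply le_antisymm _ (inf_le_inf_right _ (hmono hj))
      intro b hb
      have hK : (f j ⊓ gam i) ⊔ gam (i + 1) = (f (max m1 m2) ⊓ gam i) ⊔ gam (i + 1) := by
        have e1 := hm2 j (le_trans (le_max_right _ _) hj)
        have e2 := hm2 (max m1 m2) (le_max_right _ _)
        exact e1.trans e2.symm
      have hI : f j ⊓ gam (i + 1) = f (max m1 m2) ⊓ gam (i + 1) := by
        have e1 := hm1 j (le_trans (le_max_left _ _) hj)
        have e2 := hm1 (max m1 m2) (le_max_left _ _)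
        exact e1.trans e2.symm
      have hb2 : b ∈ (f (max m1 m2) ⊓ gam i) ⊔ gam (i + 1) := by
        rw [← hK]; exact Subgroup.mem_sup_left hb
      haveI : (gam (i + 1)).Normal := FI.normal (gam_FI (i + 1))
      obtain ⟨a, ha, p, hp, hap⟩ := Subgroup.mem_sup_of_normal_right.mp hb2
      have hpj : p ∈ f j := by
        have : p = a⁻¹ * b := by rw [← hap]; group
        rw [this]
        exact (f j).mul_mem ((f j).inv_mem (hmono hj ha.1)) hb.1
      have hpm : p ∈ f (max m1 m2) ⊓ gam (i + 1) := by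
        rw [← hI]; exact ⟨hpj, hp⟩
      rw [← hap]
      exact ⟨(f (max m1 m2)).mul_mem ha.1 hpm.1, (gam i).mul_mem ha.2 (gam_anti i hp)⟩
  obtain ⟨m, hm⟩ := key c le_rfl
  have h := hm (m + 1) (Nat.le_succ m)
  rw [Nat.sub_self] at h
  have h0 : gam 0 = ⊤ := rfl
  rw [h0, inf_top_eq, inf_top_eq] at h
  exact absurd h (ne_of_gt (hf (Nat.lt_succ_self m)))

theorem gam_law {G : Type} [Group G] (hG : Group.IsNilpotent G) :
    ∃ c, ∀ w ∈ gam c, ∀ φ : FreeGroup ℕ →* G, φ w = 1 := by
  have key : ∀ n, ∀ φ : FreeGroup ℕ →* G,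
      (gam n).map φ ≤ Subgroup.lowerCentralSeries (⊤ : Subgroup G) n := by
    intro n
    induction n with
    | zero => intro φ; simp
    | succ n ih =>
      intro φ
      show (⁅gam n, (⊤ : Subgroup (FreeGroup ℕ))⁆).map φ ≤ _
      rw [Subgroup.map_commutator, Subgroup.lowerCentralSeries_succ]
      exact Subgroup.commutator_mono (ih φ) le_top
  obtain ⟨c, hc⟩ := Subgroup.nilpotent_iff_lowerCentralSeries.1 hG
  refine ⟨c, fun w hw φ => ?_⟩
  have := key c φ (Subgroup.mem_map_of_mem φ hw)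
  rw [hc, Subgroup.mem_bot] at this
  exact this

end Pool.Agent.Helper730.VM
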