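import Pool.Agent.Helper730.VarMin

set_option autoImplicit false

open scoped commutatorElement

namespace Pool.Agent.Helper730.VM

/-- lower central series of the free group: `gam 0 = ⊤` -/
def gam : ℕ → Subgroup (FreeGroup ℕ)
  | 0 => ⊤
  | n + 1 => ⁅gam n, (⊤ : Subgroup (FreeGroup ℕ))⁆

/-- left-normed commutators in the free generators -/
def lnc : (n : ℕ) → (Fin (n + 1) → ℕ) → FreeGroup ℕ
  | 0, j => FreeGroup.of (j 0)
  | n + 1, j => ⁅lnc n (fun t => j t.castSucc), FreeGroup.of (j (Fin.last (n + 1)))⁆

/-- substitution of variables by variables or by `1` -/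
def sbst (ρ : ℕ → Option ℕ) : FreeGroup ℕ →* FreeGroup ℕ :=
  FreeGroup.lift fun i => match ρ i with
    | some k => FreeGroup.of k
    | none => 1

end Pool.Agent.Helper730.VM
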