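import Mathlib

set_option autoImplicit false

/-!
Fully invariant subgroups of the free group of countable rank: minimum condition on subvarieties,
countability of the set of subvarieties, infinite independent sets of laws.
-/

namespace Pool.Agent.Helper730.VM

/-- fully invariant subgroups of the free group of countably infinite rank -/
abbrev FI (H : Subgroup (FreeGroup ℕ)) : Prop :=
  ∀ φ : FreeGroup ℕ →* FreeGroup ℕ, ∀ x ∈ H, φ x ∈ H

/-- fully invariant closure -/
def fiC (S : Set (FreeGroup ℕ)) : Subgroup (FreeGroup ℕ) :=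
  sInf {M | FI M ∧ S ⊆ (M : Set (FreeGroup ℕ))}

theorem fiC_FI (S : Set (FreeGroup ℕ)) : FI (fiC S) := by
  intro φ x hx
  rw [fiC, Subgroup.mem_sInf] at hx ⊢
  intro M hM
  exact hM.1 φ x (hx M hM)

theorem subset_fiC (S : Set (FreeGroup ℕ)) : S ⊆ (fiC S : Set (FreeGroup ℕ)) := by
  intro x hx
  change x ∈ fiC S
  rw [fiC, Subgroup.mem_sInf]
  intro M hM
  exact hM.2 hx

theorem fiC_le {S : Set (FreeGroup ℕ)} {M : Subgroup (FreeGroup ℕ)} (hM : FI M)
    (h : S ⊆ (M : Set (FreeGroup ℕ))) : fiC S ≤ M :=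
  sInf_le ⟨hM, h⟩

theorem fiC_mono {S T : Set (FreeGroup ℕ)} (h : S ⊆ T) : fiC S ≤ fiC T :=
  fiC_le (fiC_FI T) (h.trans (subset_fiC T))

theorem FI.normal {H : Subgroup (FreeGroup ℕ)} (hH : FI H) : H.Normal := by
  constructor
  intro n hn g
  have := hH (MulAut.conj g).toMonoidHom n hn
  simpa [MulAut.conj_apply] using this

theorem FI.sup {A B : Subgroup (FreeGroup ℕ)} (hA : FI A) (hB : FI B) : FI (A ⊔ B) := by
  intro φ x hx
  have h : A ⊔ B ≤ (A ⊔ B).comap φ := by
    apply sup_le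
    · intro a ha
      exact Subgroup.mem_sup_left (hA φ a ha)
    · intro b hb
      exact Subgroup.mem_sup_right (hB φ b hb)
  exact h hx

/-- the minimum condition on subvarieties, in terms of fully invariant subgroups -/
def MinFI (N : Subgroup (FreeGroup ℕ)) : Prop :=
  ¬ ∃ f : ℕ → Subgroup (FreeGroup ℕ), StrictMono f ∧ ∀ n, N ≤ f n ∧ FI (f n)

theorem MinFI.wf {N : Subgroup (FreeGroup ℕ)} (h : MinFI N) :
    WellFoundedGT {M : Subgroup (FreeGroup ℕ) // FI M ∧ N ≤ M} := by
  rw [wellFoundedGT_iff_monotone_chain_condition]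
  intro a
  by_contra hcon
  push Not at hcon
  apply h
  choose g hg1 hg2 using hcon
  let u : ℕ → ℕ := fun n => Nat.rec 0 (fun _ k => g k) n
  have hu : ∀ n, u (n + 1) = g (u n) := fun n => rfl
  refine ⟨fun n => (a (u n)).1, strictMono_nat_of_lt_succ ?_, fun n => ⟨(a (u n)).2.2, (a (u n)).2.1⟩⟩
  intro n
  have h1 : a (u n) ≤ a (u (n + 1)) := a.monotone (by rw [hu]; exact hg1 _)
  have h2 : a (u n) ≠ a (u (n + 1)) := by rw [hu]; exact hg2 _
  exact lt_of_le_of_ne (show (a (u n)).1 ≤ (a (u (n + 1))).1 from h1) fun h => h2 (Subtype.ext h)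

/-- the inclusion of the free group on the first `m` variables -/
def emb (m : ℕ) : FreeGroup (Fin m) →* FreeGroup ℕ := FreeGroup.map Fin.val

/-- the retraction on the free group on the first `m` variables -/
def ret (m : ℕ) : FreeGroup ℕ →* FreeGroup (Fin m) :=
  FreeGroup.lift fun i => if h : i < m then FreeGroup.of ⟨i, h⟩ else 1

theorem ret_emb (m : ℕ) (v : FreeGroup (Fin m)) : ret m (emb m v) = v := by
  have : (ret m).comp (emb m) = MonoidHom.id _ := by
    ext i
    simp [ret, emb]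
  exact DFunLike.congr_fun this v

/-- the laws of the relatively free group of rank `m` -/
def U (N : Subgroup (FreeGroup ℕ)) (m : ℕ) : Subgroup (FreeGroup ℕ) where
  carrier := {w | ∀ ψ : FreeGroup ℕ →* FreeGroup (Fin m), emb m (ψ w) ∈ N}
  mul_mem' := by
    intro a b ha hb ψ
    rw [map_mul, map_mul]
    exact N.mul_mem (ha ψ) (hb ψ)
  one_mem' := by
    intro ψ
    rw [map_one, map_one]
    exact N.one_mem
  inv_mem' := by
    intro a ha ψ
    rw [map_inv, map_inv]
    exact N.inv_mem (ha ψ)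

theorem mem_U {N : Subgroup (FreeGroup ℕ)} {m : ℕ} {w : FreeGroup ℕ} :
    w ∈ U N m ↔ ∀ ψ : FreeGroup ℕ →* FreeGroup (Fin m), emb m (ψ w) ∈ N := Iff.rfl

theorem U_FI (N : Subgroup (FreeGroup ℕ)) (m : ℕ) : FI (U N m) := by
  intro φ x hx ψ
  exact hx (ψ.comp φ)

theorem le_U {N : Subgroup (FreeGroup ℕ)} (hN : FI N) (m : ℕ) : N ≤ U N m := by
  intro x hx ψ
  exact hN ((emb m).comp ψ) x hx

theorem U_anti (N : Subgroup (FreeGroup ℕ)) {m n : ℕ} (h : m ≤ n) : U N n ≤ U N m := by
  intro x hx ψ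
  have h1 := hx ((FreeGroup.map (Fin.castLE h)).comp ψ)
  have h2 : ∀ v : FreeGroup (Fin m), emb n (FreeGroup.map (Fin.castLE h) v) = emb m v := by
    intro v
    have : (emb n).comp (FreeGroup.map (Fin.castLE h)) = emb m := by
      ext i
      simp [emb]
    exact DFunLike.congr_fun this v
  rw [MonoidHom.comp_apply, h2] at h1
  exact h1

theorem exists_vars (w : FreeGroup ℕ) : ∃ m, w ∈ (emb m).range := by
  induction w using FreeGroup.induction_on with
  | C1 => exact ⟨0, Subgroup.one_mem _⟩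
  | of i =>
    refine ⟨i + 1, FreeGroup.of ⟨i, Nat.lt_succ_self i⟩, ?_⟩
    simp [emb]
  | inv_of i h =>
    obtain ⟨m, hm⟩ := h
    exact ⟨m, Subgroup.inv_mem _ hm⟩
  | mul x y hx hy =>
    obtain ⟨m, hm⟩ := hx
    obtain ⟨n, hn⟩ := hy
    have hmono : ∀ {a b : ℕ}, a ≤ b → (emb a).range ≤ (emb b).range := by
      intro a b hab
      rintro _ ⟨v, rfl⟩
      refine ⟨FreeGroup.map (Fin.castLE hab) v, ?_⟩
      have : (emb b).comp (FreeGroup.map (Fin.castLE hab)) = emb a := by
        ext i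
        simp [emb]
      exact DFunLike.congr_fun this v
    exact ⟨max m n, Subgroup.mul_mem _ (hmono (le_max_left m n) hm) (hmono (le_max_right m n) hn)⟩

/-- number of variables -/
noncomputable def vars (w : FreeGroup ℕ) : ℕ := (exists_vars w).choose

theorem vars_spec (w : FreeGroup ℕ) : w ∈ (emb (vars w)).range := (exists_vars w).choose_spec

theorem mem_of_mem_sup_U {N A : Subgroup (FreeGroup ℕ)} (hA : FI A) (hNA : N ≤ A)
    {m : ℕ} {w : FreeGroup ℕ} (hw : w ∈ (emb m).range) (h : w ∈ A ⊔ U N m) : w ∈ A := by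
  have := (U_FI N m).normal
  rw [Subgroup.mem_sup_of_normal_right] at h
  obtain ⟨a, ha, u, hu, rfl⟩ := h
  obtain ⟨v, hv⟩ := hw
  have h1 : emb m (ret m (a * u)) = a * u := by rw [← hv, ret_emb]
  rw [← h1, map_mul, map_mul]
  exact A.mul_mem (hA ((emb m).comp (ret m)) a ha) (hNA (hu (ret m)))

theorem exists_new {N : Subgroup (FreeGroup ℕ)}
    (hloc : ∀ m, MinFI (U N m)) {f : ℕ → Subgroup (FreeGroup ℕ)} (hf : StrictMono f)
    (hf2 : ∀ n, N ≤ f n ∧ FI (f n)) {A : Subgroup (FreeGroup ℕ)} {n : ℕ} (hA : A ≤ f n) (m : ℕ) :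
    ∃ w, (∃ k, w ∈ f k) ∧ w ∈ U N m ∧ w ∉ A := by
  by_contra hcon
  push Not at hcon
  have := (hloc m).wf
  let g : ℕ →o {M : Subgroup (FreeGroup ℕ) // FI M ∧ U N m ≤ M} :=
    ⟨fun j => ⟨f j ⊔ U N m, (hf2 j).2.sup (U_FI N m), le_sup_right⟩, fun i j hij =>
      sup_le_sup_right (hf.monotone hij) _⟩
  obtain ⟨J, hJ⟩ := WellFoundedGT.monotone_chain_condition g
  have h1 := hJ (max J n + 1) (by omega)
  have h2 : f J ⊔ U N m = f (max J n + 1) ⊔ U N m := congrArg Subtype.val h1
  have h3 : f (max J n + 1) ≤ f (max J n) := by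
    intro x hx
    have hx2 : x ∈ f J ⊔ U N m := by
      rw [h2]
      exact Subgroup.mem_sup_left hx
    have := (U_FI N m).normal
    rw [Subgroup.mem_sup_of_normal_right] at hx2
    obtain ⟨a, ha, u, hu, rfl⟩ := hx2
    have ha' : a ∈ f (max J n) := hf.monotone (le_max_left J n) ha
    have hu' : u ∈ f (max J n + 1) := by
      have : u = a⁻¹ * (a * u) := by group
      rw [this]
      exact Subgroup.mul_mem _ (Subgroup.inv_mem _ (hf.monotone (Nat.le_succ _) ha')) hx
    have hu2 : u ∈ A := hcon u ⟨_, hu'⟩ hu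
    exact Subgroup.mul_mem _ ha' (hf.monotone (le_max_right J n) (hA hu2))
  exact absurd (hf (Nat.lt_succ_self (max J n))) (not_lt_of_ge h3)

/-- no infinite independent set of laws -/
def NoIndFI (N : Subgroup (FreeGroup ℕ)) : Prop :=
  ∀ S : Set (FreeGroup ℕ), (∀ σ ∈ S, σ ∉ fiC ((N : Set (FreeGroup ℕ)) ∪ (S \ {σ}))) → S.Finite

theorem finset_le {f : ℕ → Subgroup (FreeGroup ℕ)} (hf : Monotone f) (s : Finset (FreeGroup ℕ))
    (h : ∀ w ∈ s, ∃ k, w ∈ f k) : ∃ n, ∀ w ∈ s, w ∈ f n := by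
  classical
  induction s using Finset.induction_on with
  | empty => exact ⟨0, by simp⟩
  | insert a s ha ih =>
    obtain ⟨n, hn⟩ := ih (fun w hw => h w (Finset.mem_insert_of_mem hw))
    obtain ⟨k, hk⟩ := h a (Finset.mem_insert_self a s)
    refine ⟨max n k, fun w hw => ?_⟩
    rcases Finset.mem_insert.1 hw with rfl | hw
    · exact hf (le_max_right n k) hk
    · exact hf (le_max_left n k) (hn w hw)

theorem min_of_local {N : Subgroup (FreeGroup ℕ)}
    (hloc : ∀ m, MinFI (U N m)) (h3 : NoIndFI N) : MinFI N := by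
  classical
  rintro ⟨f, hf, hf2⟩
  let P : Finset (FreeGroup ℕ) × FreeGroup ℕ → Prop := fun y =>
    (∀ x ∈ y.1, ∃ k, x ∈ f k) ∧ (∃ k, y.2 ∈ f k) ∧
      y.2 ∉ fiC ((N : Set (FreeGroup ℕ)) ∪ (y.1 : Set (FreeGroup ℕ)))
  let r : Finset (FreeGroup ℕ) × FreeGroup ℕ → Finset (FreeGroup ℕ) × FreeGroup ℕ → Prop :=
    fun y z => y.2 ∈ z.1 ∧ z.2 ∈ U N (vars y.2)
  have key := exists_seq_of_forall_finset_exists P r (by
    intro S hS
    let s : Finset (FreeGroup ℕ) := S.image Prod.snd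
    have hs : ∀ x ∈ s, ∃ k, x ∈ f k := by
      intro x hx
      obtain ⟨y, hy, rfl⟩ := Finset.mem_image.1 hx
      exact (hS y hy).2.1
    obtain ⟨n, hn⟩ := finset_le hf.monotone s hs
    have hA : fiC ((N : Set (FreeGroup ℕ)) ∪ (s : Set (FreeGroup ℕ))) ≤ f n := by
      apply fiC_le (hf2 n).2
      rintro x (hx | hx)
      · exact (hf2 n).1 hx
      · exact hn x (by simpa using hx)
    obtain ⟨w, hw1, hw2, hw3⟩ := exists_new hloc hf hf2 hA (s.sup vars)
    refine ⟨(s, w), ⟨hs, hw1, hw3⟩, fun y hy => ?_⟩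
    have hys : y.2 ∈ s := Finset.mem_image_of_mem _ hy
    exact ⟨hys, U_anti N (Finset.le_sup (f := vars) hys) hw2⟩)
  obtain ⟨g, hg1, hg2⟩ := key
  have hinj : Function.Injective fun n => (g n).2 := by
    intro i j hij
    by_contra hne
    rcases Nat.lt_or_gt_of_ne hne with h | h
    · have := (hg2 i j h).1
      apply (hg1 j).2.2
      change (g i).2 = (g j).2 at hij
      rw [← hij]
      exact subset_fiC _ (Or.inr this)
    · have := (hg2 j i h).1
      apply (hg1 i).2.2
      change (g i).2 = (g j).2 at hij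
      rw [hij]
      exact subset_fiC _ (Or.inr this)
  have hfin := h3 (Set.range fun n => (g n).2) (by
    rintro _ ⟨k, rfl⟩ hmem
    apply (hg1 k).2.2
    have hle : fiC ((N : Set (FreeGroup ℕ)) ∪ ((Set.range fun n => (g n).2) \ {(g k).2})) ≤
        fiC ((N : Set (FreeGroup ℕ)) ∪ ((g k).1 : Set (FreeGroup ℕ))) ⊔ U N (vars (g k).2) := by
      apply fiC_le ((fiC_FI _).sup (U_FI N _))
      rintro x (hx | ⟨⟨j, rfl⟩, hj⟩)
      · exact Subgroup.mem_sup_left (subset_fiC _ (Or.inl hx))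
      · rcases Nat.lt_trichotomy j k with h | h | h
        · exact Subgroup.mem_sup_left (subset_fiC _ (Or.inr (hg2 j k h).1))
        · subst h
          exact absurd rfl hj
        · exact Subgroup.mem_sup_right (hg2 k j h).2
    exact mem_of_mem_sup_U (fiC_FI _)
      (fun x hx => subset_fiC _ (Or.inl hx)) (vars_spec _) (hle hmem))
  exact Set.infinite_range_of_injective hinj hfin

/-- the set of subvarieties is countable -/
def CountFI (N : Subgroup (FreeGroup ℕ)) : Prop :=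
  {M : Subgroup (FreeGroup ℕ) | FI M ∧ N ≤ M}.Countable

theorem count_of_min {N : Subgroup (FreeGroup ℕ)} (h : MinFI N) : CountFI N := by
  classical
  have := h.wf
  have hc : (Set.range fun s : Finset (FreeGroup ℕ) =>
      fiC ((N : Set (FreeGroup ℕ)) ∪ (s : Set (FreeGroup ℕ)))).Countable :=
    Set.countable_range _
  apply hc.mono
  rintro M ⟨hM, hNM⟩
  let T : Set {M : Subgroup (FreeGroup ℕ) // FI M ∧ N ≤ M} :=
    {K | ∃ s : Finset (FreeGroup ℕ), (s : Set (FreeGroup ℕ)) ⊆ M ∧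
      K.1 = fiC ((N : Set (FreeGroup ℕ)) ∪ (s : Set (FreeGroup ℕ)))}
  have hT : T.Nonempty :=
    ⟨⟨fiC ((N : Set (FreeGroup ℕ)) ∪ ((∅ : Finset (FreeGroup ℕ)) : Set (FreeGroup ℕ))), fiC_FI _,
      fun x hx => subset_fiC _ (Or.inl hx)⟩, ∅, by simp, rfl⟩
  obtain ⟨K, ⟨s, hs, hK⟩, hmax⟩ := WellFounded.has_min (wellFounded_gt (α :=
    {M : Subgroup (FreeGroup ℕ) // FI M ∧ N ≤ M})) T hT
  refine ⟨s, le_antisymm (fiC_le hM (Set.union_subset hNM hs)) ?_⟩
  intro x hx
  by_contra hxs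
  let K' : {M : Subgroup (FreeGroup ℕ) // FI M ∧ N ≤ M} :=
    ⟨fiC ((N : Set (FreeGroup ℕ)) ∪ ((insert x s : Finset (FreeGroup ℕ)) : Set (FreeGroup ℕ))),
      fiC_FI _, fun x hx => subset_fiC _ (Or.inl hx)⟩
  apply hmax K' ⟨insert x s, by
    intro y hy
    rcases Finset.mem_insert.1 (Finset.mem_coe.1 hy) with rfl | hy
    · exact hx
    · exact hs hy, rfl⟩
  change K < K'
  refine lt_of_le_of_ne ?_ ?_
  · change K.1 ≤ K'.1
    rw [hK]
    apply fiC_mono
    apply Set.union_subset_union_right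
    intro y hy
    simp only [Finset.coe_insert]
    exact Or.inr hy
  · intro he
    apply hxs
    change x ∈ fiC _
    rw [← hK, he]
    exact subset_fiC _ (Or.inr (by simp))

theorem noInd_of_count {N : Subgroup (FreeGroup ℕ)} (h : CountFI N) : NoIndFI N := by
  intro S hS
  by_contra hinf
  have hinf' : S.Infinite := hinf
  have : Infinite S := hinf'.to_subtype
  have hcc : Countable {M : Subgroup (FreeGroup ℕ) // FI M ∧ N ≤ M} := h.to_subtype
  let F : Set S → {M : Subgroup (FreeGroup ℕ) // FI M ∧ N ≤ M} := fun T =>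
    ⟨fiC ((N : Set (FreeGroup ℕ)) ∪ (Subtype.val '' T)), fiC_FI _,
      fun x hx => subset_fiC _ (Or.inl hx)⟩
  have hF : Function.Injective F := by
    have aux : ∀ T T' : Set S, F T = F T' → T ⊆ T' := by
      intro T T' hTT x hx
      by_contra hx'
      apply hS x.1 x.2
      have h1 : x.1 ∈ (F T).1 := subset_fiC _ (Or.inr ⟨x, hx, rfl⟩)
      rw [hTT] at h1
      refine fiC_mono ?_ h1
      apply Set.union_subset_union_right
      rintro _ ⟨y, hy, rfl⟩
      refine ⟨y.2, ?_⟩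
      intro hyx
      apply hx'
      have : y = x := Subtype.ext hyx
      rwa [← this]
    intro T T' hTT
    exact Set.Subset.antisymm (aux T T' hTT) (aux T' T hTT.symm)
  have : Countable (Set S) := hF.countable
  have e : ℕ ↪ S := Infinite.natEmbedding S
  have h2 : Function.Injective (fun T : Set ℕ => e '' T) := Set.image_injective.2 e.injective
  have hcn : Countable (Set ℕ) := h2.countable
  obtain ⟨c, hc⟩ := exists_injective_nat (Set ℕ)
  exact Function.cantor_injective c hc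

end Pool.Agent.Helper730.VM
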