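import Pool.Agent.Helper730.VarMin

set_option autoImplicit false

/-!
Varieties of groups as classes of groups; translation to fully invariant subgroups.
-/

namespace Pool.Agent.Helper730.VM

/-- `w` is a law of the group `G`. -/
def Law (G : Type) [Group G] (w : FreeGroup ℕ) : Prop := ∀ φ : FreeGroup ℕ →* G, φ w = 1

/-- A variety of groups: the class of all groups satisfying a given set of laws. -/
def IsVariety (V : (G : Type) → [Group G] → Prop) : Prop :=
  ∃ L : Set (FreeGroup ℕ), ∀ (G : Type) [Group G], V G ↔ ∀ w ∈ L, Law G w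

/-- Inclusion of classes of groups. -/
def Incl (W V : (G : Type) → [Group G] → Prop) : Prop := ∀ (G : Type) [Group G], W G → V G

/-- Condition (1): every strictly descending chain of subvarieties of `V` is finite. -/
def MinCond (V : (G : Type) → [Group G] → Prop) : Prop :=
  ¬ ∃ W : ℕ → ((G : Type) → [Group G] → Prop),
    (∀ n, IsVariety (W n) ∧ Incl (W n) V) ∧ ∀ n, Incl (W (n + 1)) (W n) ∧ ¬ Incl (W n) (W (n + 1))

/-- Condition (2): `V` has at most countably many subvarieties. -/
def CountablyMany (V : (G : Type) → [Group G] → Prop) : Prop :=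
  {W : (G : Type) → [Group G] → Prop | IsVariety W ∧ Incl W V}.Countable

/-- `σ` is a consequence of the laws of `V` together with `S`. -/
def Consequence (V : (G : Type) → [Group G] → Prop) (S : Set (FreeGroup ℕ)) (σ : FreeGroup ℕ) :
    Prop :=
  ∀ (G : Type) [Group G], V G → (∀ w ∈ S, Law G w) → Law G σ

/-- Condition (3): there is no infinite set of identities independent in `V`. -/
def NoInfIndep (V : (G : Type) → [Group G] → Prop) : Prop :=
  ¬ ∃ S : Set (FreeGroup ℕ), S.Infinite ∧ ∀ σ ∈ S, ¬ Consequence V (S \ {σ}) σ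

/-- The variety generated by the group `G`: all groups satisfying every law of `G`. -/
def varOf (G : Type) [Group G] : (H : Type) → [Group H] → Prop :=
  fun H _ => ∀ w : FreeGroup ℕ, Law G w → Law H w

/-- The laws of a class. -/
def lawsOf (V : (G : Type) → [Group G] → Prop) : Subgroup (FreeGroup ℕ) where
  carrier := {w | ∀ (G : Type) [Group G], V G → Law G w}
  mul_mem' := by
    intro a b ha hb G _ hG φ
    rw [map_mul, ha G hG φ, hb G hG φ, one_mul]
  one_mem' := by
    intro G _ _ φ
    rw [map_one]
  inv_mem' := by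
    intro a ha G _ hG φ
    rw [map_inv, ha G hG φ, inv_one]

theorem lawsOf_FI (V : (G : Type) → [Group G] → Prop) : FI (lawsOf V) := by
  intro φ x hx G _ hG ψ
  exact hx G hG (ψ.comp φ)

/-- The class defined by a set of laws. -/
def classOf (M : Subgroup (FreeGroup ℕ)) : (G : Type) → [Group G] → Prop :=
  fun G _ => ∀ w ∈ M, Law G w

theorem classOf_isVariety (M : Subgroup (FreeGroup ℕ)) : IsVariety (classOf M) :=
  ⟨(M : Set (FreeGroup ℕ)), fun _ _ => Iff.rfl⟩

theorem incl_antisymm {V W : (G : Type) → [Group G] → Prop} (h1 : Incl V W) (h2 : Incl W V) :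
    V = W := by
  funext G inst
  exact propext ⟨h1 G, h2 G⟩

theorem classOf_lawsOf {V : (G : Type) → [Group G] → Prop} (hV : IsVariety V) :
    classOf (lawsOf V) = V := by
  obtain ⟨L, hL⟩ := hV
  apply incl_antisymm
  · intro G _ hG
    rw [hL G]
    intro w hw
    apply hG w
    intro H _ hH
    exact (hL H).1 hH w hw
  · intro G _ hG w hw
    exact hw G hG

theorem mem_of_laws {V : (G : Type) → [Group G] → Prop} (hV : IsVariety V) (G : Type) [Group G]
    (h : ∀ w ∈ lawsOf V, Law G w) : V G := by
  have h1 : Incl (classOf (lawsOf V)) V := by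
    rw [classOf_lawsOf hV]
    exact fun _ _ hH => hH
  exact h1 G h

theorem law_quotient {M : Subgroup (FreeGroup ℕ)} (hM : FI M) [M.Normal] (w : FreeGroup ℕ) :
    Law (FreeGroup ℕ ⧸ M) w ↔ w ∈ M := by
  constructor
  · intro h
    have := h (QuotientGroup.mk' M)
    rwa [QuotientGroup.mk'_apply, QuotientGroup.eq_one_iff] at this
  · intro h φ
    have hlift : ∀ i : ℕ, ∃ y : FreeGroup ℕ, (QuotientGroup.mk' M) y = φ (FreeGroup.of i) :=
      fun i => QuotientGroup.mk'_surjective M _
    choose y hy using hlift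
    have hφ : φ = (QuotientGroup.mk' M).comp (FreeGroup.lift y) := by
      ext i
      simp [← hy]
    rw [hφ, MonoidHom.comp_apply, QuotientGroup.mk'_apply, QuotientGroup.eq_one_iff]
    exact hM _ w h

theorem lawsOf_classOf {M : Subgroup (FreeGroup ℕ)} (hM : FI M) : lawsOf (classOf M) = M := by
  have := hM.normal
  apply le_antisymm
  · intro w hw
    have h1 : classOf M (FreeGroup ℕ ⧸ M) := fun u hu => (law_quotient hM u).2 hu
    exact (law_quotient hM w).1 (hw _ h1)
  · intro w hw G _ hG
    exact hG w hw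

theorem lawsOf_anti {V W : (G : Type) → [Group G] → Prop} (h : Incl W V) :
    lawsOf V ≤ lawsOf W := by
  intro w hw G _ hG
  exact hw G (h G hG)

theorem classOf_anti {M N : Subgroup (FreeGroup ℕ)} (h : M ≤ N) :
    Incl (classOf N) (classOf M) := by
  intro G _ hG w hw
  exact hG w (h hw)

theorem incl_iff {V W : (G : Type) → [Group G] → Prop} (hV : IsVariety V) (hW : IsVariety W) :
    Incl W V ↔ lawsOf V ≤ lawsOf W := by
  constructor
  · exact lawsOf_anti
  · intro h
    rw [← classOf_lawsOf hV, ← classOf_lawsOf hW]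
    exact classOf_anti h

theorem minCond_iff {V : (G : Type) → [Group G] → Prop} (hV : IsVariety V) :
    MinCond V ↔ MinFI (lawsOf V) := by
  unfold MinCond MinFI
  apply not_congr
  constructor
  · rintro ⟨W, h1, h2⟩
    refine ⟨fun n => lawsOf (W n), strictMono_nat_of_lt_succ ?_, fun n =>
      ⟨lawsOf_anti (h1 n).2, lawsOf_FI _⟩⟩
    intro n
    refine lt_of_le_not_ge (lawsOf_anti (h2 n).1) ?_
    intro h
    exact (h2 n).2 ((incl_iff (h1 (n + 1)).1 (h1 n).1).2 h)
  · rintro ⟨f, hf, hf2⟩
    refine ⟨fun n => classOf (f n), fun n => ⟨classOf_isVariety _, ?_⟩, fun n =>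
      ⟨classOf_anti (hf (Nat.lt_succ_self n)).le, ?_⟩⟩
    · have h := classOf_anti (hf2 n).1
      rwa [classOf_lawsOf hV] at h
    · intro h
      have h1 := lawsOf_anti h
      rw [lawsOf_classOf (hf2 (n + 1)).2, lawsOf_classOf (hf2 n).2] at h1
      exact absurd (hf (Nat.lt_succ_self n)) (not_lt_of_ge h1)

theorem countablyMany_iff {V : (G : Type) → [Group G] → Prop} (hV : IsVariety V) :
    CountablyMany V ↔ CountFI (lawsOf V) := by
  constructor
  · intro h
    have hinj : Set.InjOn classOf {M : Subgroup (FreeGroup ℕ) | FI M ∧ lawsOf V ≤ M} := by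
      intro M hM M' hM' he
      have h1 : lawsOf (classOf M) = lawsOf (classOf M') := congrArg lawsOf he
      rwa [lawsOf_classOf hM.1, lawsOf_classOf hM'.1] at h1
    refine Set.MapsTo.countable_of_injOn (t := {W | IsVariety W ∧ Incl W V}) ?_ hinj h
    intro M hM
    refine ⟨classOf_isVariety M, ?_⟩
    have h1 := classOf_anti hM.2
    rwa [classOf_lawsOf hV] at h1
  · intro h
    have hinj : Set.InjOn lawsOf {W : (G : Type) → [Group G] → Prop | IsVariety W ∧ Incl W V} := by
      intro W hW W' hW' he
      have h1 : @classOf (lawsOf W) = @classOf (lawsOf W') := congrArg (fun M => @classOf M) he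
      rwa [classOf_lawsOf hW.1, classOf_lawsOf hW'.1] at h1
    refine Set.MapsTo.countable_of_injOn (t := {M | FI M ∧ lawsOf V ≤ M}) ?_ hinj h
    intro W hW
    exact ⟨lawsOf_FI W, lawsOf_anti hW.2⟩

theorem consequence_iff {V : (G : Type) → [Group G] → Prop} (hV : IsVariety V)
    (S : Set (FreeGroup ℕ)) (σ : FreeGroup ℕ) :
    Consequence V S σ ↔ σ ∈ fiC ((lawsOf V : Set (FreeGroup ℕ)) ∪ S) := by
  constructor
  · intro h
    have hFI := fiC_FI ((lawsOf V : Set (FreeGroup ℕ)) ∪ S)
    have := hFI.normal
    refine (law_quotient hFI σ).1 (h _ ?_ ?_)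
    · apply mem_of_laws hV
      intro w hw
      exact (law_quotient hFI w).2 (subset_fiC _ (Or.inl hw))
    · intro w hw
      exact (law_quotient hFI w).2 (subset_fiC _ (Or.inr hw))
  · intro h G _ hG hS
    have hle : fiC ((lawsOf V : Set (FreeGroup ℕ)) ∪ S) ≤ lawsOf (fun H _ => varOf G H) := by
      apply fiC_le (lawsOf_FI _)
      rintro w (hw | hw)
      · intro H _ hH
        exact hH w (hw G hG)
      · intro H _ hH
        exact hH w (hS w hw)
    exact hle h G (fun w hw => hw)

theorem noInfIndep_iff {V : (G : Type) → [Group G] → Prop} (hV : IsVariety V) :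
    NoInfIndep V ↔ NoIndFI (lawsOf V) := by
  constructor
  · intro h S hS
    by_contra hinf
    exact h ⟨S, hinf, fun σ hσ hc => hS σ hσ ((consequence_iff hV _ _).1 hc)⟩
  · rintro h ⟨S, hinf, hS⟩
    exact hinf (h S fun σ hσ hc => hS σ hσ ((consequence_iff hV _ _).2 hc))

theorem varOf_isVariety (G : Type) [Group G] : IsVariety (varOf G) :=
  ⟨{w | Law G w}, fun _ _ => Iff.rfl⟩

theorem lawsOf_varOf (G : Type) [Group G] (w : FreeGroup ℕ) : w ∈ lawsOf (varOf G) ↔ Law G w :=
  ⟨fun h => h G (fun _ hu => hu), fun h _ _ hH => hH w h⟩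

/-- the relatively free group of rank `m` -/
abbrev Rel (N : Subgroup (FreeGroup ℕ)) (m : ℕ) : Type :=
  FreeGroup (Fin m) ⧸ (N.comap (emb m))

theorem exists_rel {V : (G : Type) → [Group G] → Prop} (hV : IsVariety V) (m : ℕ) :
    ∃ (G : Type) (_ : Group G), Group.FG G ∧ V G ∧ lawsOf (varOf G) = U (lawsOf V) m := by
  have hN := (lawsOf_FI V).normal
  have hN' : ((lawsOf V).comap (emb m)).Normal := inferInstance
  refine ⟨Rel (lawsOf V) m, inferInstance, inferInstance, ?_, ?_⟩
  · apply mem_of_laws hV
    intro w hw φ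
    have hlift : ∀ i : ℕ, ∃ y : FreeGroup (Fin m),
        (QuotientGroup.mk' ((lawsOf V).comap (emb m))) y = φ (FreeGroup.of i) :=
      fun i => QuotientGroup.mk'_surjective _ _
    choose y hy using hlift
    have hφ : φ = (QuotientGroup.mk' ((lawsOf V).comap (emb m))).comp (FreeGroup.lift y) := by
      ext i
      simp [← hy]
    rw [hφ, MonoidHom.comp_apply, QuotientGroup.mk'_apply, QuotientGroup.eq_one_iff,
      Subgroup.mem_comap]
    exact lawsOf_FI V ((emb m).comp (FreeGroup.lift y)) w hw
  · ext w
    rw [lawsOf_varOf, mem_U]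
    constructor
    · intro h ψ
      have h1 := h ((QuotientGroup.mk' ((lawsOf V).comap (emb m))).comp ψ)
      rwa [MonoidHom.comp_apply, QuotientGroup.mk'_apply, QuotientGroup.eq_one_iff,
        Subgroup.mem_comap] at h1
    · intro h φ
      have hlift : ∀ i : ℕ, ∃ y : FreeGroup (Fin m),
          (QuotientGroup.mk' ((lawsOf V).comap (emb m))) y = φ (FreeGroup.of i) :=
        fun i => QuotientGroup.mk'_surjective _ _
      choose y hy using hlift
      have hφ : φ = (QuotientGroup.mk' ((lawsOf V).comap (emb m))).comp (FreeGroup.lift y) := by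
        ext i
        simp [← hy]
      rw [hφ, MonoidHom.comp_apply, QuotientGroup.mk'_apply, QuotientGroup.eq_one_iff,
        Subgroup.mem_comap]
      exact h _

theorem varOf_incl {V : (G : Type) → [Group G] → Prop} (hV : IsVariety V) {G : Type} [Group G]
    (hG : V G) : Incl (varOf G) V := by
  rw [incl_iff hV (varOf_isVariety G)]
  intro w hw
  rw [lawsOf_varOf]
  exact hw G hG

theorem noInfIndep_mono {V W : (G : Type) → [Group G] → Prop} (h : Incl W V)
    (hV : NoInfIndep V) : NoInfIndep W := by
  rintro ⟨S, hS, hind⟩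
  exact hV ⟨S, hS, fun σ hσ hc => hind σ hσ fun G _ hG hw => hc G (h G hG) hw⟩

theorem countablyMany_mono {V W : (G : Type) → [Group G] → Prop} (h : Incl W V)
    (hV : CountablyMany V) : CountablyMany W := by
  refine Set.Countable.mono ?_ hV
  rintro X ⟨h1, h2⟩
  refine ⟨h1, ?_⟩
  intro G inst hG
  exact h G (h2 G hG)

theorem countable_of_min {V : (G : Type) → [Group G] → Prop} (hV : IsVariety V)
    (h : MinCond V) : CountablyMany V :=
  (countablyMany_iff hV).2 (count_of_min ((minCond_iff hV).1 h))

theorem noInfIndep_of_countable {V : (G : Type) → [Group G] → Prop} (hV : IsVariety V)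
    (h : CountablyMany V) : NoInfIndep V :=
  (noInfIndep_iff hV).2 (noInd_of_count ((countablyMany_iff hV).1 h))

/-- (3) together with (1) for all subvarieties generated by finitely generated groups
implies (1). -/
theorem min_of_noInfIndep {V : (G : Type) → [Group G] → Prop} (hV : IsVariety V)
    (hloc : ∀ (G : Type) [Group G], Group.FG G → V G → MinCond (varOf G))
    (h : NoInfIndep V) : MinCond V := by
  rw [minCond_iff hV]
  apply min_of_local _ ((noInfIndep_iff hV).1 h)
  intro m
  obtain ⟨G, _, hfg, hG, hl⟩ := exists_rel hV m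
  have h1 := (minCond_iff (varOf_isVariety G)).1 (hloc G hfg hG)
  rwa [hl] at h1

end Pool.Agent.Helper730.VM
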