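import Pool.Agent.Helper730.VNB
import Pool.Agent.Helper730.VarMinSem

set_option autoImplicit false

namespace Pool.Agent.Helper730.VM

/-- the variety generated by a nilpotent group satisfies the minimum condition on subvarieties -/
theorem minCond_varOf_nilpotent {G : Type} [Group G] (hG : Group.IsNilpotent G) :
    MinCond (varOf G) := by
  rw [minCond_iff (varOf_isVariety G)]
  obtain ⟨c, hc⟩ := gam_law hG
  apply min_nilpotent c
  intro w hw
  rw [lawsOf_varOf]
  exact hc w hw

end Pool.Agent.Helper730.VM
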