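import Mathlib

set_option autoImplicit false

namespace Pool.Agent.Helper730.WMN

theorem zsmul_tf {S : Type*} [AddCommGroup S] (htf : ∀ m : ℕ, 0 < m → ∀ s : S, m • s = 0 → s = 0)
    (z : ℤ) (hz : z ≠ 0) (s : S) (h : z • s = 0) : s = 0 := by
  apply htf z.natAbs (Int.natAbs_pos.2 hz)
  rcases Int.natAbs_eq z with h1 | h1
  · rw [h1, natCast_zsmul] at h
    exact h
  · rw [h1, neg_zsmul, natCast_zsmul, neg_eq_zero] at h
    exact h

/-- a nonzero torsion-free divisible abelian group has no finite series whose factors satisfy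
the maximal or the minimal condition -/
theorem no_series {S : Type*} [AddCommGroup S] (hne : ∃ s : S, s ≠ 0)
    (hdiv : ∀ m : ℕ, 0 < m → ∀ s : S, ∃ s' : S, m • s' = s)
    (htf : ∀ m : ℕ, 0 < m → ∀ s : S, m • s = 0 → s = 0)
    (n : ℕ) (E : ℕ → AddSubgroup S) (h0 : E 0 = ⊥) (hn : E n = ⊤)
    (hle : ∀ i, i < n → E i ≤ E (i + 1))
    (hst : ∀ i, i < n →
      ((∀ C : ℕ → AddSubgroup S, (∀ k, E i ≤ C k ∧ C k ≤ E (i + 1)) → Monotone C →
          ∃ m : ℕ, ∀ k : ℕ, m ≤ k → C k = C m) ∨
       (∀ C : ℕ → AddSubgroup S, (∀ k, E i ≤ C k ∧ C k ≤ E (i + 1)) → Antitone C →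
          ∃ m : ℕ, ∀ k : ℕ, m ≤ k → C k = C m))) : False := by
  have hB : ∀ i, i < n → {l : ℕ | l.Prime ∧ ∃ x ∈ E (i + 1), x ∉ E i ∧ l • x ∈ E i}.Finite := by
    intro i hi
    by_contra hinf
    have hinf' : {l : ℕ | l.Prime ∧ ∃ x ∈ E (i + 1), x ∉ E i ∧ l • x ∈ E i}.Infinite := hinf
    let e := hinf'.natEmbedding
    have hprime : ∀ k, (e k : ℕ).Prime := fun k => (e k).2.1
    have hex : ∀ k, ∃ x ∈ E (i + 1), x ∉ E i ∧ (e k : ℕ) • x ∈ E i := fun k => (e k).2.2
    choose x hx1 hx2 hx3 using hex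
    have hcop : ∀ j k, j ≠ k → Nat.Coprime (e j : ℕ) (e k : ℕ) := by
      intro j k hjk
      rw [Nat.coprime_primes (hprime j) (hprime k)]
      intro h
      exact hjk (e.injective (Subtype.ext h))
    let T : ℕ → AddSubgroup S := fun k =>
      { carrier := {y | ∃ N : ℕ, N.Coprime (e k : ℕ) ∧ N • y ∈ E i}
        add_mem' := by
          rintro y y' ⟨N, hN, hy⟩ ⟨N', hN', hy'⟩
          refine ⟨N * N', hN.mul_left hN', ?_⟩
          rw [smul_add]
          refine (E i).add_mem ?_ ?_
          · rw [mul_comm, mul_smul]; exact (E i).nsmul_mem hy N'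
          · rw [mul_smul]; exact (E i).nsmul_mem hy' N
        zero_mem' := ⟨1, Nat.coprime_one_left _, by rw [smul_zero]; exact (E i).zero_mem⟩
        neg_mem' := by
          rintro y ⟨N, hN, hy⟩
          exact ⟨N, hN, by rw [smul_neg]; exact (E i).neg_mem hy⟩ }
    have hET : ∀ k, E i ≤ T k := fun k y hy =>
      ⟨1, Nat.coprime_one_left _, by rw [one_smul]; exact hy⟩
    have hxT : ∀ j k, j ≠ k → x j ∈ T k := fun j k hjk => ⟨(e j : ℕ), hcop j k hjk, hx3 j⟩
    have hnT : ∀ k, x k ∉ T k := by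
      rintro k ⟨N, hN, hy⟩
      apply hx2 k
      have hb := Nat.isCoprime_iff_coprime.2 hN
      obtain ⟨u, w, huw⟩ := hb
      have : x k = u • (N • x k) + w • ((e k : ℕ) • x k) := by
        have h1 : x k = (u * (N : ℤ) + w * ((e k : ℕ) : ℤ)) • x k := by rw [huw, one_smul]
        rw [add_smul, mul_smul, mul_smul, natCast_zsmul, natCast_zsmul] at h1
        exact h1
      rw [this]
      exact (E i).add_mem ((E i).zsmul_mem hy u) ((E i).zsmul_mem (hx3 k) w)
    rcases hst i hi with hmax | hmin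
    · obtain ⟨m, hm⟩ := hmax (fun k => E i ⊔ AddSubgroup.closure (x '' {j | j < k}))
        (fun k => ⟨le_sup_left, sup_le (hle i hi) (by
          rw [AddSubgroup.closure_le]
          rintro _ ⟨j, _, rfl⟩
          exact hx1 j)⟩)
        (fun a b hab => sup_le_sup_left (AddSubgroup.closure_mono
          (Set.image_mono fun j hj => lt_of_lt_of_le hj hab)) _)
      have h1 := hm (m + 1) (Nat.le_succ m)
      have h2 : x m ∈ E i ⊔ AddSubgroup.closure (x '' {j | j < m + 1}) :=
        (le_sup_right : _ ≤ E i ⊔ AddSubgroup.closure (x '' {j | j < m + 1}))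
          (AddSubgroup.subset_closure ⟨m, Nat.lt_succ_self m, rfl⟩)
      have h3 : x m ∈ E i ⊔ AddSubgroup.closure (x '' {j | j < m}) := by
        rw [← h1]; exact h2
      have h4 : E i ⊔ AddSubgroup.closure (x '' {j | j < m}) ≤ T m := by
        refine sup_le (hET m) ?_
        rw [AddSubgroup.closure_le]
        rintro _ ⟨j, hj, rfl⟩
        exact hxT j m (ne_of_lt hj)
      exact hnT m (h4 h3)
    · obtain ⟨m, hm⟩ := hmin (fun k => E i ⊔ AddSubgroup.closure (x '' {j | k ≤ j}))
        (fun k => ⟨le_sup_left, sup_le (hle i hi) (by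
          rw [AddSubgroup.closure_le]
          rintro _ ⟨j, _, rfl⟩
          exact hx1 j)⟩)
        (fun a b hab => sup_le_sup_left (AddSubgroup.closure_mono
          (Set.image_mono fun j hj => le_trans hab hj)) _)
      have h1 := hm (m + 1) (Nat.le_succ m)
      have h2 : x m ∈ E i ⊔ AddSubgroup.closure (x '' {j | m ≤ j}) :=
        (le_sup_right : _ ≤ E i ⊔ AddSubgroup.closure (x '' {j | m ≤ j}))
          (AddSubgroup.subset_closure ⟨m, le_refl m, rfl⟩)
      have h3 : x m ∈ E i ⊔ AddSubgroup.closure (x '' {j | m + 1 ≤ j}) := by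
        rw [h1]; exact h2
      have h4 : E i ⊔ AddSubgroup.closure (x '' {j | m + 1 ≤ j}) ≤ T m := by
        refine sup_le (hET m) ?_
        rw [AddSubgroup.closure_le]
        rintro _ ⟨j, hj, rfl⟩
        exact hxT j m (ne_of_gt (Nat.lt_of_succ_le hj))
      exact hnT m (h4 h3)
  have hP : ∀ d, d ≤ n →
      {l : ℕ | l.Prime ∧ ¬ ∀ x ∈ E (n - d), ∃ y ∈ E (n - d), l • y = x}.Finite := by
    intro d
    induction d with
    | zero =>
      intro _
      have : {l : ℕ | l.Prime ∧ ¬ ∀ x ∈ E (n - 0), ∃ y ∈ E (n - 0), l • y = x} = ∅ := by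
        rw [Set.eq_empty_iff_forall_notMem]
        rintro l ⟨hl, hx⟩
        apply hx
        intro x _
        obtain ⟨y, hy⟩ := hdiv l hl.pos x
        refine ⟨y, ?_, hy⟩
        rw [Nat.sub_zero, hn]
        exact AddSubgroup.mem_top y
      rw [this]
      exact Set.finite_empty
    | succ d ih =>
      intro hd
      have ih' := ih (by omega)
      have hi : n - (d + 1) < n := by omega
      have hi1 : n - (d + 1) + 1 = n - d := by omega
      refine (ih'.union (hB (n - (d + 1)) hi)).subset ?_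
      rintro l ⟨hl, hx⟩
      by_contra hcon
      rw [Set.mem_union, not_or] at hcon
      obtain ⟨hc1, hc2⟩ := hcon
      apply hx
      intro x hxE
      have hc1' : ∀ x ∈ E (n - d), ∃ y ∈ E (n - d), l • y = x := by
        by_contra hno
        exact hc1 ⟨hl, hno⟩
      have hxE' : x ∈ E (n - d) := by rw [← hi1]; exact hle _ hi hxE
      obtain ⟨y, hy, hyx⟩ := hc1' x hxE'
      refine ⟨y, ?_, hyx⟩
      by_contra hyn
      exact hc2 ⟨hl, y, by rw [hi1]; exact hy, hyn, by rw [hyx]; exact hxE⟩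
  have hPi : ∀ i, i ≤ n → {l : ℕ | l.Prime ∧ ¬ ∀ x ∈ E i, ∃ y ∈ E i, l • y = x}.Finite := by
    intro i hi
    have := hP (n - i) (by omega)
    have e : n - (n - i) = i := by omega
    rw [e] at this
    exact this
  -- first nonzero term
  have hnz : ∃ i, E i ≠ ⊥ := by
    refine ⟨n, ?_⟩
    rw [hn]
    intro h
    obtain ⟨s, hs⟩ := hne
    have : s ∈ (⊤ : AddSubgroup S) := AddSubgroup.mem_top s
    rw [h, AddSubgroup.mem_bot] at this
    exact hs this
  classical
  obtain ⟨i, hi⟩ : ∃ i, i = Nat.find hnz := ⟨_, rfl⟩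
  have hi1 : E i ≠ ⊥ := by rw [hi]; exact Nat.find_spec hnz
  have hi0 : i ≠ 0 := by
    rintro rfl
    exact hi1 h0
  obtain ⟨j, rfl⟩ := Nat.exists_eq_succ_of_ne_zero hi0
  have hj : E j = ⊥ := by
    by_contra hcon
    have := Nat.find_min' hnz hcon
    omega
  have hjn : j < n := by
    by_contra hcon
    push Not at hcon
    have hEn : E n ≠ ⊥ := by
      intro h
      rw [hn] at h
      obtain ⟨s, hs⟩ := hne
      have : s ∈ (⊤ : AddSubgroup S) := AddSubgroup.mem_top s
      rw [h, AddSubgroup.mem_bot] at this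
      exact hs this
    have := Nat.find_min' hnz hEn
    omega
  obtain ⟨l, hl, hlP⟩ := (Nat.infinite_setOfPred_prime.sdiff (hPi (j + 1) (by omega))).nonempty
  have hl' : l.Prime := hl
  have hdivE : ∀ x ∈ E (j + 1), ∃ y ∈ E (j + 1), l • y = x := by
    by_contra hno
    exact hlP ⟨hl', hno⟩
  obtain ⟨x0, hx0, hx0n⟩ : ∃ x ∈ E (j + 1), x ≠ 0 := by
    by_contra hcon
    push Not at hcon
    exact hi1 ((AddSubgroup.eq_bot_iff_forall _).2 hcon)
  have hl2 : (2 : ℤ) ≤ l := by exact_mod_cast hl'.two_le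
  have hstrict : ∀ y : S, y ≠ 0 → y ∉ AddSubgroup.zmultiples (l • y) := by
    intro y hy hmem
    rw [AddSubgroup.mem_zmultiples_iff] at hmem
    obtain ⟨z, hz⟩ := hmem
    have h1 : (z * (l : ℤ) - 1) • y = 0 := by
      rw [sub_smul, mul_smul, natCast_zsmul, hz, one_smul, sub_self]
    have h2 : z * (l : ℤ) - 1 ≠ 0 := by
      intro h
      have h3 : (l : ℤ) ∣ 1 := ⟨z, by linarith⟩
      have := Int.le_of_dvd one_pos h3
      omega
    exact hy (zsmul_tf htf _ h2 y h1)
  rcases hst j hjn with hmax | hmin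
  · choose! g hg1 hg2 using hdivE
    let y : ℕ → S := fun k => g^[k] x0
    have hy0 : y 0 = x0 := rfl
    have hys : ∀ k, y (k + 1) = g (y k) := fun k => Function.iterate_succ_apply' g k x0
    have hyE : ∀ k, y k ∈ E (j + 1) := by
      intro k
      induction k with
      | zero => exact hx0
      | succ k ih => rw [hys]; exact hg1 _ ih
    have hyl : ∀ k, l • y (k + 1) = y k := by
      intro k
      rw [hys]; exact hg2 _ (hyE k)
    have hyn : ∀ k, y k ≠ 0 := by
      intro k
      induction k with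
      | zero => exact hx0n
      | succ k ih =>
        intro h
        apply ih
        rw [← hyl, h, smul_zero]
    obtain ⟨m, hm⟩ := hmax (fun k => AddSubgroup.zmultiples (y k))
      (fun k => ⟨by rw [hj]; exact bot_le, by
        rw [AddSubgroup.zmultiples_le]; exact hyE k⟩)
      (monotone_nat_of_le_succ fun k => by
        rw [AddSubgroup.zmultiples_le, ← hyl k]
        exact AddSubgroup.nsmul_mem _ (AddSubgroup.mem_zmultiples (y (k + 1))) l)
    have h1 : AddSubgroup.zmultiples (y (m + 1)) = AddSubgroup.zmultiples (y m) :=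
      hm (m + 1) (Nat.le_succ m)
    have h2 : y (m + 1) ∈ AddSubgroup.zmultiples (y m) := by
      rw [← h1]; exact AddSubgroup.mem_zmultiples (y (m + 1))
    rw [← hyl m] at h2
    exact hstrict _ (hyn (m + 1)) h2
  · have hpn : ∀ k, l ^ k • x0 ≠ 0 := by
      intro k h
      exact hx0n (htf (l ^ k) (pow_pos hl'.pos k) x0 h)
    obtain ⟨m, hm⟩ := hmin (fun k => AddSubgroup.zmultiples (l ^ k • x0))
      (fun k => ⟨by rw [hj]; exact bot_le, by
        rw [AddSubgroup.zmultiples_le]; exact (E (j + 1)).nsmul_mem hx0 _⟩)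
      (antitone_nat_of_succ_le fun k => by
        rw [AddSubgroup.zmultiples_le, pow_succ, mul_comm, mul_smul]
        exact AddSubgroup.nsmul_mem _ (AddSubgroup.mem_zmultiples (l ^ k • x0)) l)
    have h1 := hm (m + 1) (Nat.le_succ m)
    have h2 : l ^ m • x0 ∈ AddSubgroup.zmultiples (l ^ (m + 1) • x0) := by
      rw [h1]; exact AddSubgroup.mem_zmultiples (l ^ m • x0)
    rw [pow_succ, mul_comm, mul_smul] at h2
    exact hstrict _ (hpn m) h2

end Pool.Agent.Helper730.WMN
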