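import Pool.Agent.Helper730.WmnModule
import Pool.Agent.Helper730.WmnMinimax

set_option autoImplicit false

namespace Pool.Agent.Helper730.WMN

/-- the semidirect product of `S` and `QQ` -/
@[ext]
structure GG (S : Type) where
  s : S
  q : QQ

namespace GG

variable {S : Type} [AddCommGroup S] [DistribMulAction QQ S]

instance : Mul (GG S) := ⟨fun x y => ⟨x.s + x.q • y.s, x.q * y.q⟩⟩
instance : One (GG S) := ⟨⟨0, 1⟩⟩
instance : Inv (GG S) := ⟨fun x => ⟨-(x.q⁻¹ • x.s), x.q⁻¹⟩⟩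

theorem mul_s (x y : GG S) : (x * y).s = x.s + x.q • y.s := rfl
theorem mul_q (x y : GG S) : (x * y).q = x.q * y.q := rfl
theorem one_s : (1 : GG S).s = 0 := rfl
theorem one_q : (1 : GG S).q = 1 := rfl
theorem inv_s (x : GG S) : (x⁻¹).s = -(x.q⁻¹ • x.s) := rfl
theorem inv_q (x : GG S) : (x⁻¹).q = x.q⁻¹ := rfl

instance : Group (GG S) :=
  Group.ofLeftAxioms
    (by
      intro x y z
      apply GG.ext
      · simp only [mul_s, mul_q, smul_add, mul_smul, add_assoc]
      · simp only [mul_q, mul_assoc])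
    (by
      intro x
      apply GG.ext
      · rw [mul_s, one_s, one_q, one_smul, zero_add]
      · rw [mul_q, one_q, one_mul])
    (by
      intro x
      apply GG.ext
      · rw [mul_s, inv_s, inv_q, one_s, neg_add_cancel]
      · rw [mul_q, inv_q, one_q, inv_mul_cancel])

/-- projection -/
def proj : GG S →* QQ where
  toFun := GG.q
  map_one' := rfl
  map_mul' _ _ := rfl

/-- inclusion -/
def inl (s : S) : GG S := ⟨s, 1⟩

theorem inl_add (s t : S) : inl (s + t) = inl s * inl t := by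
  apply GG.ext
  · rw [mul_s]; simp [inl]
  · rw [mul_q]; simp [inl]

theorem inl_zero : inl (0 : S) = 1 := rfl

theorem inl_neg (s : S) : inl (-s) = (inl s)⁻¹ := by
  rw [eq_inv_iff_mul_eq_one, ← inl_add, neg_add_cancel, inl_zero]

theorem inl_nsmul (m : ℕ) (s : S) : inl (m • s) = inl s ^ m := by
  induction m with
  | zero => rw [zero_smul, pow_zero, inl_zero]
  | succ m ih => rw [succ_nsmul, inl_add, ih, pow_succ]

theorem eq_inl (x : GG S) (h : x.q = 1) : x = inl x.s := by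
  apply GG.ext
  · rfl
  · exact h

theorem inl_inj (s t : S) (h : inl s = inl t) : s = t := congrArg GG.s h

theorem torsion_free (htf : ∀ m : ℕ, 0 < m → ∀ s : S, m • s = 0 → s = 0)
    (x : GG S) (m : ℕ) (hm : 0 < m) (h : x ^ m = 1) : x = 1 := by
  have h1 : x.q ^ m = 1 := by
    have := congrArg proj h
    rw [map_pow, map_one] at this
    exact this
  have h2 : x.q = 1 := QQ.torsion_free x.q m hm h1
  rw [eq_inl x h2] at h ⊢
  rw [← inl_nsmul] at h
  have h3 : m • x.s = 0 := inl_inj _ _ h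
  rw [htf m hm _ h3, inl_zero]

theorem solvable : ∃ k, derivedSeries (GG S) k = ⊥ := by
  obtain ⟨k, hk⟩ := QQ.solvable
  refine ⟨k + 1, ?_⟩
  have h1 : derivedSeries (GG S) k ≤ (proj : GG S →* QQ).ker := by
    have := map_derivedSeries_le_derivedSeries (proj : GG S →* QQ) k
    rw [hk] at this
    intro x hx
    have h2 := this ⟨x, hx, rfl⟩
    rw [Subgroup.mem_bot] at h2
    exact h2
  rw [derivedSeries_succ, eq_bot_iff]
  refine (Subgroup.commutator_mono h1 h1).trans ?_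
  rw [Subgroup.commutator_le]
  intro x hx y hy
  have hx' : x.q = 1 := hx
  have hy' : y.q = 1 := hy
  rw [Subgroup.mem_bot, commutatorElement_eq_one_iff_mul_comm, eq_inl x hx', eq_inl y hy',
    ← inl_add, ← inl_add, add_comm]

theorem wmn (hsimple : ∀ P : AddSubgroup S, (∀ q : QQ, ∀ s ∈ P, q • s ∈ P) → P = ⊥ ∨ P = ⊤)
    (N : ℕ → Subgroup (GG S)) (hN : ∀ k, (N k).Normal) (hA : Antitone N) :
    ∃ m, ∀ k, m ≤ k → FI (N (k + 1)) (N k) := by
  have hf : ∀ x ∈ (⊤ : Subgroup (GG S)), ∀ y ∈ (⊤ : Subgroup (GG S)),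
      (proj : GG S → QQ) (x * y) = proj x * proj y := fun x _ y _ => map_mul proj x y
  obtain ⟨m2, hm2⟩ := QQ.wm_top (fun k => img (proj : GG S → QQ) ⊤ hf (N k) le_top)
    (fun k => le_top) (fun i j hij => img_mono _ _ hf _ _ _ _ (hA hij))
  let P : ℕ → AddSubgroup S := fun k =>
    { carrier := {s | inl s ∈ N k}
      add_mem' := by
        intro s t hs ht
        change inl (s + t) ∈ N k
        rw [inl_add]
        exact (N k).mul_mem hs ht
      zero_mem' := by
        change inl (0 : S) ∈ N k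
        rw [inl_zero]
        exact (N k).one_mem
      neg_mem' := by
        intro s hs
        change inl (-s) ∈ N k
        rw [inl_neg]
        exact (N k).inv_mem hs }
  have hP : ∀ k, P k = ⊥ ∨ P k = ⊤ := by
    intro k
    apply hsimple
    intro q s hs
    have h1 := (hN k).conj_mem (inl s) hs ⟨0, q⟩
    have h2 : (⟨0, q⟩ : GG S) * inl s * (⟨0, q⟩ : GG S)⁻¹ = inl (q • s) := by
      apply GG.ext
      · rw [mul_s, mul_s, mul_q, inv_s]
        simp [inl]
      · rw [mul_q, mul_q, inv_q]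
        simp [inl]
    rw [h2] at h1
    exact h1
  have hm1 : ∃ m, ∀ k, m ≤ k →
      FI (N (k + 1) ⊓ (proj : GG S →* QQ).ker) (N k ⊓ (proj : GG S →* QQ).ker) := by
    by_cases hbot : ∃ k0, P k0 = ⊥
    · obtain ⟨k0, hk0⟩ := hbot
      have hz : ∀ k, k0 ≤ k → N k ⊓ (proj : GG S →* QQ).ker = ⊥ := by
        intro k hk
        rw [eq_bot_iff]
        rintro x ⟨hx1, hx2⟩
        have hx2' : x.q = 1 := hx2
        have h1 : inl x.s ∈ N k := by rw [← eq_inl x hx2']; exact hx1
        have h2 : x.s ∈ P k0 := hA hk h1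
        rw [hk0, AddSubgroup.mem_bot] at h2
        rw [Subgroup.mem_bot, eq_inl x hx2', h2, inl_zero]
      refine ⟨k0, fun k hk => ?_⟩
      rw [hz k hk, hz (k + 1) (by omega)]
      exact FI_refl ⊥
    · push Not at hbot
      have htop : ∀ k, N k ⊓ (proj : GG S →* QQ).ker = (proj : GG S →* QQ).ker := by
        intro k
        rw [inf_eq_right]
        intro x hx
        have hx' : x.q = 1 := hx
        have h1 : x.s ∈ P k := by
          rw [(hP k).resolve_left (hbot k)]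
          exact AddSubgroup.mem_top _
        rw [eq_inl x hx']
        exact h1
      refine ⟨0, fun k _ => ?_⟩
      rw [htop k, htop (k + 1)]
      exact FI_refl _
  obtain ⟨m1, hm1⟩ := hm1
  refine ⟨max m1 m2, fun k hk => ?_⟩
  exact FI_ext (proj : GG S → QQ) ⊤ (proj : GG S →* QQ).ker hf (fun x _ hx => hx)
    (N (k + 1)) (N k) (hA (Nat.le_succ k)) le_top
    (hm1 k ((le_max_left _ _).trans hk)) (hm2 k ((le_max_right _ _).trans hk))

/-- the subgroup `A * inl(C)` -/
def push (A B : Subgroup (GG S)) (hn : ∀ b ∈ B, ∀ a ∈ A, b * a * b⁻¹ ∈ A) (C : AddSubgroup S)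
    (hC : ∀ s ∈ C, inl s ∈ B) : Subgroup (GG S) where
  carrier := {g | ∃ a ∈ A, ∃ s ∈ C, g = a * inl s}
  mul_mem' := by
    rintro _ _ ⟨a, ha, s, hs, rfl⟩ ⟨a', ha', s', hs', rfl⟩
    refine ⟨a * (inl s * a' * (inl s)⁻¹), A.mul_mem ha (hn _ (hC s hs) _ ha'), s + s',
      C.add_mem hs hs', ?_⟩
    rw [inl_add]
    group
  one_mem' := ⟨1, A.one_mem, 0, C.zero_mem, by rw [inl_zero, one_mul]⟩
  inv_mem' := by
    rintro _ ⟨a, ha, s, hs, rfl⟩
    refine ⟨inl (-s) * a⁻¹ * (inl (-s))⁻¹, hn _ (hC _ (C.neg_mem hs)) _ (A.inv_mem ha), -s,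
      C.neg_mem hs, ?_⟩
    rw [inl_neg]
    group

theorem push_mono (A B : Subgroup (GG S)) (hn : ∀ b ∈ B, ∀ a ∈ A, b * a * b⁻¹ ∈ A)
    (C C' : AddSubgroup S) (hC : ∀ s ∈ C, inl s ∈ B) (hC' : ∀ s ∈ C', inl s ∈ B) (h : C ≤ C') :
    push A B hn C hC ≤ push A B hn C' hC' := by
  rintro _ ⟨a, ha, s, hs, rfl⟩
  exact ⟨a, ha, s, h hs, rfl⟩

theorem push_rec (A B : Subgroup (GG S)) (hn : ∀ b ∈ B, ∀ a ∈ A, b * a * b⁻¹ ∈ A)
    (C C' : AddSubgroup S) (hC : ∀ s ∈ C, inl s ∈ B) (hC' : ∀ s ∈ C', inl s ∈ B)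
    (hAC : ∀ s : S, inl s ∈ A → s ∈ C') (h : push A B hn C hC ≤ push A B hn C' hC') : C ≤ C' := by
  intro s hs
  have h1 : inl s ∈ push A B hn C hC := ⟨1, A.one_mem, s, hs, by rw [one_mul]⟩
  obtain ⟨a, ha, t, ht, he⟩ := h h1
  have h2 : a = inl (s - t) := by
    rw [sub_eq_add_neg, inl_add, inl_neg, he]
    group
  rw [h2] at ha
  have h3 := C'.add_mem (hAC _ ha) ht
  rw [sub_add_cancel] at h3
  exact h3

theorem not_minimax (hne : ∃ s : S, s ≠ 0)
    (hdiv : ∀ m : ℕ, 0 < m → ∀ s : S, ∃ s' : S, m • s' = s)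
    (htf : ∀ m : ℕ, 0 < m → ∀ s : S, m • s = 0 → s = 0)
    (n : ℕ) (H : ℕ → Subgroup (GG S)) (h0 : H 0 = ⊥) (hn : H n = ⊤)
    (hst : ∀ i : ℕ, i < n →
          (H i ≤ H (i + 1) ∧ ((H i).subgroupOf (H (i + 1))).Normal ∧
            ((∀ f : ℕ → Subgroup (GG S), (∀ k, H i ≤ f k ∧ f k ≤ H (i + 1)) → Monotone f →
                ∃ m : ℕ, ∀ k : ℕ, m ≤ k → f k = f m) ∨
             (∀ f : ℕ → Subgroup (GG S), (∀ k, H i ≤ f k ∧ f k ≤ H (i + 1)) → Antitone f →
                ∃ m : ℕ, ∀ k : ℕ, m ≤ k → f k = f m)))) : False := by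
  let E : ℕ → AddSubgroup S := fun k =>
    { carrier := {s | inl s ∈ H k}
      add_mem' := by
        intro s t hs ht
        change inl (s + t) ∈ H k
        rw [inl_add]
        exact (H k).mul_mem hs ht
      zero_mem' := by
        change inl (0 : S) ∈ H k
        rw [inl_zero]
        exact (H k).one_mem
      neg_mem' := by
        intro s hs
        change inl (-s) ∈ H k
        rw [inl_neg]
        exact (H k).inv_mem hs }
  refine no_series hne hdiv htf n E ?_ ?_ ?_ ?_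
  · rw [AddSubgroup.eq_bot_iff_forall]
    intro s hs
    have h1 : inl s ∈ H 0 := hs
    rw [h0, Subgroup.mem_bot] at h1
    exact inl_inj s 0 h1
  · rw [eq_top_iff]
    intro s _
    change inl s ∈ H n
    rw [hn]
    exact Subgroup.mem_top _
  · intro i hi s hs
    exact (hst i hi).1 hs
  · intro i hi
    obtain ⟨hle, hnor, hmm⟩ := hst i hi
    have hconj : ∀ b ∈ H (i + 1), ∀ a ∈ H i, b * a * b⁻¹ ∈ H i := by
      intro b hb a ha
      have := hnor.conj_mem ⟨a, hle ha⟩ ha ⟨b, hb⟩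
      exact this
    have hbtw : ∀ (C : AddSubgroup S) (hC1 : E i ≤ C) (hC2 : ∀ s ∈ C, inl s ∈ H (i + 1)),
        H i ≤ push (H i) (H (i + 1)) hconj C hC2 ∧
          push (H i) (H (i + 1)) hconj C hC2 ≤ H (i + 1) := by
      intro C _ hC2
      constructor
      · intro a ha
        exact ⟨a, ha, 0, C.zero_mem, by rw [inl_zero, mul_one]⟩
      · rintro _ ⟨a, ha, s, hs, rfl⟩
        exact (H (i + 1)).mul_mem (hle ha) (hC2 s hs)
    rcases hmm with hmax | hmin
    · left
      intro C hC hCm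
      obtain ⟨m, hm⟩ := hmax
        (fun k => push (H i) (H (i + 1)) hconj (C k) (fun s hs => (hC k).2 hs))
        (fun k => hbtw (C k) (hC k).1 (fun s hs => (hC k).2 hs))
        (fun a b hab => push_mono _ _ _ _ _ _ _ (hCm hab))
      refine ⟨m, fun k hk => le_antisymm ?_ ?_⟩
      · exact push_rec (H i) (H (i + 1)) hconj (C k) (C m) _ _ (fun s hs => (hC m).1 hs)
          (hm k hk).le
      · exact push_rec (H i) (H (i + 1)) hconj (C m) (C k) _ _ (fun s hs => (hC k).1 hs)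
          (hm k hk).ge
    · right
      intro C hC hCm
      obtain ⟨m, hm⟩ := hmin
        (fun k => push (H i) (H (i + 1)) hconj (C k) (fun s hs => (hC k).2 hs))
        (fun k => hbtw (C k) (hC k).1 (fun s hs => (hC k).2 hs))
        (fun a b hab => push_mono _ _ _ _ _ _ _ (hCm hab))
      refine ⟨m, fun k hk => le_antisymm ?_ ?_⟩
      · exact push_rec (H i) (H (i + 1)) hconj (C k) (C m) _ _ (fun s hs => (hC m).1 hs)
          (hm k hk).le
      · exact push_rec (H i) (H (i + 1)) hconj (C m) (C k) _ _ (fun s hs => (hC k).1 hs)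
          (hm k hk).ge

end GG

/-- A torsion-free soluble group with the weak minimal condition on normal subgroups that is
not minimax. -/
theorem main :
    ¬ (∀ (G : Type) [Group G], IsSolvable G →
      (∀ g : G, ∀ n : ℕ, 0 < n → g ^ n = 1 → g = 1) →
      (∀ N : ℕ → Subgroup G, (∀ k, (N k).Normal) → Antitone N →
          ∃ m : ℕ, ∀ k : ℕ, m ≤ k → ((N (k + 1)).subgroupOf (N k)).index ≠ 0) →
      ∃ (n : ℕ) (H : ℕ → Subgroup G), H 0 = ⊥ ∧ H n = ⊤ ∧
        ∀ i : ℕ, i < n →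
          (H i ≤ H (i + 1) ∧ ((H i).subgroupOf (H (i + 1))).Normal ∧
            ((∀ f : ℕ → Subgroup G, (∀ k, H i ≤ f k ∧ f k ≤ H (i + 1)) → Monotone f →
                ∃ m : ℕ, ∀ k : ℕ, m ≤ k → f k = f m) ∨
             (∀ f : ℕ → Subgroup G, (∀ k, H i ≤ f k ∧ f k ≤ H (i + 1)) → Antitone f →
                ∃ m : ℕ, ∀ k : ℕ, m ≤ k → f k = f m)))) := by
  intro h
  obtain ⟨S, instA, instD, hne, hsimple, hdiv, htf⟩ := exists_simple
  obtain ⟨n, H, h0, hn, hst⟩ := h (GG S) ((Group.isSolvable_def (GG S)).2 GG.solvable)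
    (fun g n hn hg => GG.torsion_free htf g n hn hg)
    (fun N hN hA => by
      obtain ⟨m, hm⟩ := GG.wmn hsimple N hN hA
      exact ⟨m, fun k hk => index_ne_zero_of_FI (hm k hk)⟩)
  exact GG.not_minimax hne hdiv htf n H h0 hn hst

end Pool.Agent.Helper730.WMN
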