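import Pool.Agent.Helper730.WmnIndex

set_option autoImplicit false

namespace Pool.Agent.Helper730.WMN

/-- The group of the maps `f ↦ (t ↦ e(c + a t) f((t - b) / 2 ^ n))`: a Heisenberg group over
`ℤ[1/2]` extended by a dilation. -/
@[ext]
structure QQ where
  a : ℚ
  b : ℚ
  c : ℚ
  n : ℤ
  ha : a ∈ B2
  hb : b ∈ B2
  hc : c ∈ B2

namespace QQ

instance : Mul QQ where
  mul g h :=
    { a := g.a + 2 ^ (-g.n) * h.a
      b := g.b + 2 ^ g.n * h.b
      c := g.c + h.c - 2 ^ (-g.n) * h.a * g.b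
      n := g.n + h.n
      ha := B2.add_mem g.ha (B2.mul_mem (zpow_mem_B2 _) h.ha)
      hb := B2.add_mem g.hb (B2.mul_mem (zpow_mem_B2 _) h.hb)
      hc := B2.sub_mem (B2.add_mem g.hc h.hc)
        (B2.mul_mem (B2.mul_mem (zpow_mem_B2 _) h.ha) g.hb) }

instance : One QQ where
  one := ⟨0, 0, 0, 0, B2.zero_mem, B2.zero_mem, B2.zero_mem⟩

instance : Inv QQ where
  inv g :=
    { a := -(2 ^ g.n * g.a)
      b := -(2 ^ (-g.n) * g.b)
      c := -g.c - g.a * g.b
      n := -g.n
      ha := B2.neg_mem (B2.mul_mem (zpow_mem_B2 _) g.ha)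
      hb := B2.neg_mem (B2.mul_mem (zpow_mem_B2 _) g.hb)
      hc := B2.sub_mem (B2.neg_mem g.hc) (B2.mul_mem g.ha g.hb) }

@[simp] theorem mul_a (g h : QQ) : (g * h).a = g.a + 2 ^ (-g.n) * h.a := rfl
@[simp] theorem mul_b (g h : QQ) : (g * h).b = g.b + 2 ^ g.n * h.b := rfl
@[simp] theorem mul_c (g h : QQ) : (g * h).c = g.c + h.c - 2 ^ (-g.n) * h.a * g.b := rfl
@[simp] theorem mul_n (g h : QQ) : (g * h).n = g.n + h.n := rfl
@[simp] theorem one_a : (1 : QQ).a = 0 := rfl
@[simp] theorem one_b : (1 : QQ).b = 0 := rfl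
@[simp] theorem one_c : (1 : QQ).c = 0 := rfl
@[simp] theorem one_n : (1 : QQ).n = 0 := rfl
@[simp] theorem inv_a (g : QQ) : (g⁻¹).a = -(2 ^ g.n * g.a) := rfl
@[simp] theorem inv_b (g : QQ) : (g⁻¹).b = -(2 ^ (-g.n) * g.b) := rfl
@[simp] theorem inv_c (g : QQ) : (g⁻¹).c = -g.c - g.a * g.b := rfl
@[simp] theorem inv_n (g : QQ) : (g⁻¹).n = -g.n := rfl

theorem two_zpow_ne (n : ℤ) : (2 : ℚ) ^ n ≠ 0 := zpow_ne_zero n two_ne_zero

theorem zadd (m n : ℤ) : (2 : ℚ) ^ (m + n) = 2 ^ m * 2 ^ n := zpow_add₀ two_ne_zero m n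

theorem zneg_mul (n : ℤ) : (2 : ℚ) ^ (-n) * 2 ^ n = 1 := by
  rw [← zadd, neg_add_cancel, zpow_zero]

instance : Group QQ :=
  Group.ofLeftAxioms
    (by
      intro g h k
      ext
      · simp only [mul_a, mul_n, neg_add, zadd]; ring
      · simp only [mul_b, mul_n, zadd]; ring
      · simp only [mul_c, mul_a, mul_b, mul_n, neg_add, zadd]
        have h1 := zneg_mul g.n
        linear_combination (- k.a * h.b * 2 ^ (-h.n)) * h1
      · simp only [mul_n]; ring)
    (by
      intro g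
      ext <;> simp)
    (by
      intro g
      ext
      · simp
      · simp
      · have h1 := zneg_mul g.n
        simp only [mul_c, inv_c, inv_b, inv_n, neg_neg, one_c]
        linear_combination (g.a * g.b) * h1
      · simp)

theorem pow_n (g : QQ) (k : ℕ) : (g ^ k).n = k * g.n := by
  induction k with
  | zero => simp
  | succ k ih => rw [pow_succ, mul_n, ih]; push_cast; ring

theorem pow_b (g : QQ) (hg : g.n = 0) (k : ℕ) : (g ^ k).b = k * g.b := by
  induction k with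
  | zero => simp
  | succ k ih => rw [pow_succ, mul_b, ih, pow_n, hg]; push_cast; simp; ring

theorem pow_a (g : QQ) (hg : g.n = 0) (k : ℕ) : (g ^ k).a = k * g.a := by
  induction k with
  | zero => simp
  | succ k ih => rw [pow_succ, mul_a, ih, pow_n, hg]; push_cast; simp; ring

theorem pow_c (g : QQ) (hg : g.n = 0) (hga : g.a = 0) (k : ℕ) : (g ^ k).c = k * g.c := by
  induction k with
  | zero => simp
  | succ k ih => rw [pow_succ, mul_c, ih, hga]; push_cast; simp; ring

theorem torsion_free (g : QQ) (k : ℕ) (hk : 0 < k) (h : g ^ k = 1) : g = 1 := by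
  have hk' : (k : ℚ) ≠ 0 := by exact_mod_cast hk.ne'
  have hn : g.n = 0 := by
    have := pow_n g k
    rw [h, one_n] at this
    rcases mul_eq_zero.1 this.symm with h1 | h1
    · exact absurd h1 (by exact_mod_cast hk.ne')
    · exact h1
  have hb : g.b = 0 := by
    have := pow_b g hn k
    rw [h, one_b] at this
    exact (mul_eq_zero.1 this.symm).resolve_left hk'
  have ha : g.a = 0 := by
    have := pow_a g hn k
    rw [h, one_a] at this
    exact (mul_eq_zero.1 this.symm).resolve_left hk'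
  have hc : g.c = 0 := by
    have := pow_c g hn ha k
    rw [h, one_c] at this
    exact (mul_eq_zero.1 this.symm).resolve_left hk'
  ext <;> simp [hn, hb, ha, hc]

/-- elements with `n = 0` -/
def K1 : Subgroup QQ where
  carrier := {g | g.n = 0}
  mul_mem' := by
    intro g h hg hh
    simp only [Set.mem_ofPred_eq] at hg hh ⊢
    simp [hg, hh]
  one_mem' := rfl
  inv_mem' := by
    intro g hg
    simp only [Set.mem_ofPred_eq] at hg ⊢
    simp [hg]

/-- elements with `n = 0`, `b = 0` -/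
def K2 : Subgroup QQ where
  carrier := {g | g.n = 0 ∧ g.b = 0}
  mul_mem' := by
    intro g h hg hh
    simp only [Set.mem_ofPred_eq] at hg hh ⊢
    simp [hg, hh]
  one_mem' := ⟨rfl, rfl⟩
  inv_mem' := by
    intro g hg
    simp only [Set.mem_ofPred_eq] at hg ⊢
    simp [hg]

/-- elements with `n = 0`, `b = 0`, `a = 0` -/
def K3 : Subgroup QQ where
  carrier := {g | g.n = 0 ∧ g.b = 0 ∧ g.a = 0}
  mul_mem' := by
    intro g h hg hh
    simp only [Set.mem_ofPred_eq] at hg hh ⊢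
    simp [hg, hh]
  one_mem' := ⟨rfl, rfl, rfl⟩
  inv_mem' := by
    intro g hg
    simp only [Set.mem_ofPred_eq] at hg ⊢
    simp [hg]

theorem mem_K1 (g : QQ) : g ∈ K1 ↔ g.n = 0 := Iff.rfl
theorem mem_K2 (g : QQ) : g ∈ K2 ↔ g.n = 0 ∧ g.b = 0 := Iff.rfl
theorem mem_K3 (g : QQ) : g ∈ K3 ↔ g.n = 0 ∧ g.b = 0 ∧ g.a = 0 := Iff.rfl

theorem wm_K3 : WMon K3 := by
  refine WMon_ext (fun g : QQ => Multiplicative.ofAdd g.c) K3 ⊥ ?_ ?_ B2m ?_ WMon_B2m WMon_bot
  · intro x hx y hy
    rw [mem_K3] at hx hy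
    rw [← ofAdd_add]
    congr 1
    simp [hx.2.1]
  · intro x hx hx1
    rw [mem_K3] at hx
    have : x.c = 0 := hx1
    rw [Subgroup.mem_bot]
    ext <;> simp [hx.1, hx.2.1, hx.2.2, this]
  · intro x _
    exact x.hc

theorem wm_K2 : WMon K2 := by
  refine WMon_ext (fun g : QQ => Multiplicative.ofAdd g.a) K2 K3 ?_ ?_ B2m ?_ WMon_B2m wm_K3
  · intro x hx y hy
    rw [mem_K2] at hx hy
    rw [← ofAdd_add]
    congr 1
    simp [hx.1]
  · intro x hx hx1
    rw [mem_K2] at hx
    exact ⟨hx.1, hx.2, hx1⟩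
  · intro x _
    exact x.ha

theorem wm_K1 : WMon K1 := by
  refine WMon_ext (fun g : QQ => Multiplicative.ofAdd g.b) K1 K2 ?_ ?_ B2m ?_ WMon_B2m wm_K2
  · intro x hx y hy
    rw [mem_K1] at hx hy
    rw [← ofAdd_add]
    congr 1
    simp [hx]
  · intro x hx hx1
    rw [mem_K1] at hx
    exact ⟨hx, hx1⟩
  · intro x _
    exact x.hb

theorem wm_top : WMon (⊤ : Subgroup QQ) := by
  refine WMon_ext (fun g : QQ => Multiplicative.ofAdd ((g.n : ℤ) : ℚ)) ⊤ K1 ?_ ?_ B2m ?_
    WMon_B2m wm_K1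
  · intro x _ y _
    rw [← ofAdd_add]
    congr 1
    push_cast [mul_n]
    rfl
  · intro x _ hx1
    have : ((x.n : ℤ) : ℚ) = 0 := hx1
    rw [mem_K1]
    exact_mod_cast this
  · intro x _
    exact int_mem_B2 _

theorem solvable : ∃ k, derivedSeries QQ k = ⊥ := by
  refine ⟨3, ?_⟩
  have h1 : derivedSeries QQ 1 ≤ K1 := by
    rw [derivedSeries_succ, derivedSeries_zero, Subgroup.commutator_le]
    intro g _ h _
    rw [mem_K1, commutatorElement_def]
    simp only [mul_n, inv_n]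
    ring
  have h2 : derivedSeries QQ 2 ≤ K2 := by
    rw [derivedSeries_succ]
    refine (Subgroup.commutator_mono h1 h1).trans ?_
    rw [Subgroup.commutator_le]
    intro g hg h hh
    rw [mem_K1] at hg hh
    rw [mem_K2, commutatorElement_def]
    constructor
    · simp only [mul_n, inv_n]; ring
    · simp only [mul_n, mul_b, inv_b, inv_n, hg, hh]; simp
  rw [derivedSeries_succ, eq_bot_iff]
  refine (Subgroup.commutator_mono h2 h2).trans ?_
  rw [Subgroup.commutator_le]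
  intro g hg h hh
  rw [mem_K2] at hg hh
  rw [Subgroup.mem_bot, commutatorElement_eq_one_iff_mul_comm]
  ext
  · simp [hg.1, hh.1, add_comm]
  · simp [hg.1, hh.1, hg.2, hh.2]
  · simp [hg.1, hh.1, hg.2, hh.2, add_comm]
  · simp [hg.1, hh.1]

end QQ

end Pool.Agent.Helper730.WMN
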