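import Mathlib

set_option autoImplicit false

namespace Pool.Agent.Helper730.WMN

/-- finitely many left cosets of `H` cover `K` -/
def FI {G : Type*} [Group G] (H K : Subgroup G) : Prop :=
  ∃ s : Set G, s.Finite ∧ ∀ x ∈ K, ∃ y ∈ s, y⁻¹ * x ∈ H

theorem index_ne_zero_of_FI {G : Type*} [Group G] {H K : Subgroup G} (h : FI H K) :
    (H.subgroupOf K).index ≠ 0 := by
  obtain ⟨s, hs, h⟩ := h
  choose! y hy hyH using h
  have : Finite s := hs
  have hfin : Finite (K ⧸ H.subgroupOf K) := by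
    refine Finite.of_injective
      (fun q : K ⧸ H.subgroupOf K => (⟨y (q.out : K), hy _ (q.out : K).2⟩ : s)) ?_
    intro q q' hqq
    have he : y (q.out : K) = y (q'.out : K) := congrArg Subtype.val hqq
    have h1 := hyH _ (q.out : K).2
    have h2 := hyH _ (q'.out : K).2
    rw [he] at h1
    have h3 : ((q.out : K) : G)⁻¹ * ((q'.out : K) : G) ∈ H := by
      have := H.mul_mem (H.inv_mem h1) h2
      simpa [mul_assoc] using this
    rw [← QuotientGroup.out_eq' q, ← QuotientGroup.out_eq' q', QuotientGroup.eq]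
    exact h3
  exact Subgroup.index_ne_zero_of_finite

theorem FI_refl {G : Type*} [Group G] (H : Subgroup G) : FI H H :=
  ⟨{1}, Set.finite_singleton 1, fun x hx => ⟨1, rfl, by simpa using hx⟩⟩

/-- image of a subgroup of `K` under a map that is multiplicative on `K` -/
def img {G L : Type*} [Group G] [Group L] (f : G → L) (K : Subgroup G)
    (hf : ∀ x ∈ K, ∀ y ∈ K, f (x * y) = f x * f y) (N : Subgroup G) (hN : N ≤ K) :
    Subgroup L where
  carrier := f '' N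
  mul_mem' := by
    rintro _ _ ⟨x, hx, rfl⟩ ⟨y, hy, rfl⟩
    exact ⟨x * y, N.mul_mem hx hy, hf x (hN hx) y (hN hy)⟩
  one_mem' := by
    refine ⟨1, N.one_mem, ?_⟩
    have h := hf 1 K.one_mem 1 K.one_mem
    rw [mul_one] at h
    exact left_eq_mul.1 h
  inv_mem' := by
    rintro _ ⟨x, hx, rfl⟩
    refine ⟨x⁻¹, N.inv_mem hx, ?_⟩
    have h1 := hf 1 K.one_mem 1 K.one_mem
    rw [mul_one] at h1
    have h1' := left_eq_mul.1 h1
    have h := hf x⁻¹ (K.inv_mem (hN hx)) x (hN hx)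
    rw [inv_mul_cancel, h1'] at h
    exact eq_inv_of_mul_eq_one_left h.symm

theorem FI_ext {G L : Type*} [Group G] [Group L] (f : G → L) (K0 K1 : Subgroup G)
    (hf : ∀ x ∈ K0, ∀ y ∈ K0, f (x * y) = f x * f y)
    (hker : ∀ x ∈ K0, f x = 1 → x ∈ K1) (H K : Subgroup G) (hHK : H ≤ K) (hK : K ≤ K0)
    (h1 : FI (H ⊓ K1) (K ⊓ K1))
    (h2 : FI (img f K0 hf H (hHK.trans hK)) (img f K0 hf K hK)) : FI H K := by
  classical
  obtain ⟨s1, hs1, h1⟩ := h1
  obtain ⟨s2, hs2, h2⟩ := h2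
  have hsel : ∀ l : L, ∃ k : G, k ∈ K ∧
      ((∃ k' ∈ K, l⁻¹ * f k' ∈ img f K0 hf H (hHK.trans hK)) →
        l⁻¹ * f k ∈ img f K0 hf H (hHK.trans hK)) := by
    intro l
    by_cases h : ∃ k' ∈ K, l⁻¹ * f k' ∈ img f K0 hf H (hHK.trans hK)
    · obtain ⟨k', hk', hl⟩ := h
      exact ⟨k', hk', fun _ => hl⟩
    · exact ⟨1, K.one_mem, fun h' => absurd h' h⟩
  choose κ hκ hκ' using hsel
  refine ⟨(fun z : L × G => κ z.1 * z.2) '' (s2 ×ˢ s1), (hs2.prod hs1).image _, ?_⟩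
  intro x hx
  obtain ⟨l, hl, hlx⟩ := h2 (f x) ⟨x, hx, rfl⟩
  have hk := hκ' l ⟨x, hx, hlx⟩
  have hkK := hκ l
  set k := κ l with hkdef
  have h3 : (f k)⁻¹ * f x ∈ img f K0 hf H (hHK.trans hK) := by
    have := Subgroup.mul_mem _ (Subgroup.inv_mem _ hk) hlx
    simpa [mul_assoc] using this
  obtain ⟨h, hh, hfh⟩ := h3
  have hh0 : h ∈ K0 := hK (hHK hh)
  have hk0 : k ∈ K0 := hK hkK
  have hx0 : x ∈ K0 := hK hx
  have e1 : f (k * (k⁻¹ * x * h⁻¹)) = f k * f (k⁻¹ * x * h⁻¹) :=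
    hf k hk0 _ (K0.mul_mem (K0.mul_mem (K0.inv_mem hk0) hx0) (K0.inv_mem hh0))
  have e2 : f (k * (k⁻¹ * x * h⁻¹) * h) = f (k * (k⁻¹ * x * h⁻¹)) * f h := by
    refine hf _ ?_ h hh0
    exact K0.mul_mem hk0 (K0.mul_mem (K0.mul_mem (K0.inv_mem hk0) hx0) (K0.inv_mem hh0))
  have e3 : k * (k⁻¹ * x * h⁻¹) * h = x := by group
  rw [e3, e1, hfh] at e2
  have e4 : f (k⁻¹ * x * h⁻¹) = 1 := by
    have e5 : f k * f (k⁻¹ * x * h⁻¹) * ((f k)⁻¹ * f x) = f x := e2.symm
    have e6 : f (k⁻¹ * x * h⁻¹) * ((f k)⁻¹ * f x) = (f k)⁻¹ * f x := by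
      calc f (k⁻¹ * x * h⁻¹) * ((f k)⁻¹ * f x)
          = (f k)⁻¹ * (f k * f (k⁻¹ * x * h⁻¹) * ((f k)⁻¹ * f x)) := by group
        _ = (f k)⁻¹ * f x := by rw [e5]
    exact mul_eq_right.1 e6
  have hz : k⁻¹ * x * h⁻¹ ∈ K ⊓ K1 :=
    ⟨K.mul_mem (K.mul_mem (K.inv_mem hkK) hx) (K.inv_mem (hHK hh)),
      hker _ (K0.mul_mem (K0.mul_mem (K0.inv_mem hk0) hx0) (K0.inv_mem hh0)) e4⟩
  obtain ⟨y, hy, hyz⟩ := h1 _ hz
  refine ⟨k * y, ⟨(l, y), ⟨hl, hy⟩, rfl⟩, ?_⟩
  have := H.mul_mem hyz.1 hh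
  have e7 : y⁻¹ * (k⁻¹ * x * h⁻¹) * h = (k * y)⁻¹ * x := by group
  rw [e7] at this
  exact this

/-- weak minimal condition for descending chains of subgroups of `K` -/
def WMon {G : Type*} [Group G] (K : Subgroup G) : Prop :=
  ∀ N : ℕ → Subgroup G, (∀ k, N k ≤ K) → Antitone N → ∃ m, ∀ k, m ≤ k → FI (N (k + 1)) (N k)

theorem img_mono {G L : Type*} [Group G] [Group L] (f : G → L) (K : Subgroup G)
    (hf : ∀ x ∈ K, ∀ y ∈ K, f (x * y) = f x * f y) (N N' : Subgroup G) (hN : N ≤ K) (hN' : N' ≤ K)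
    (h : N ≤ N') : img f K hf N hN ≤ img f K hf N' hN' := by
  rintro _ ⟨x, hx, rfl⟩
  exact ⟨x, h hx, rfl⟩

theorem WMon_ext {G L : Type*} [Group G] [Group L] (f : G → L) (K0 K1 : Subgroup G)
    (hf : ∀ x ∈ K0, ∀ y ∈ K0, f (x * y) = f x * f y)
    (hker : ∀ x ∈ K0, f x = 1 → x ∈ K1) (L0 : Subgroup L) (hL0 : ∀ x ∈ K0, f x ∈ L0)
    (hL : WMon L0) (hK1 : WMon K1) : WMon K0 := by
  intro N hN hA
  obtain ⟨m1, hm1⟩ := hK1 (fun k => N k ⊓ K1) (fun k => inf_le_right)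
    (fun i j hij => inf_le_inf_right _ (hA hij))
  obtain ⟨m2, hm2⟩ := hL (fun k => img f K0 hf (N k) (hN k))
    (by
      rintro k _ ⟨x, hx, rfl⟩
      exact hL0 x (hN k hx))
    (fun i j hij => img_mono f K0 hf _ _ _ _ (hA hij))
  refine ⟨max m1 m2, fun k hk => ?_⟩
  exact FI_ext f K0 K1 hf hker (N (k + 1)) (N k) (hA (Nat.le_succ k)) (hN k)
    (hm1 k ((le_max_left _ _).trans hk)) (hm2 k ((le_max_right _ _).trans hk))

theorem WMon_bot {G : Type*} [Group G] : WMon (⊥ : Subgroup G) := by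
  intro N hN _
  refine ⟨0, fun k _ => ?_⟩
  have h1 : N k = ⊥ := le_bot_iff.1 (hN k)
  have h2 : N (k + 1) = ⊥ := le_bot_iff.1 (hN (k + 1))
  rw [h1, h2]
  exact FI_refl ⊥

/-- the ring `ℤ[1/2]` -/
def B2 : Subring ℚ where
  carrier := {q | ∃ (k : ℕ) (m : ℤ), q * 2 ^ k = m}
  mul_mem' := by
    rintro x y ⟨k, m, h⟩ ⟨k', m', h'⟩
    refine ⟨k + k', m * m', ?_⟩
    push_cast
    rw [← h, ← h', pow_add]; ring
  one_mem' := ⟨0, 1, by simp⟩
  add_mem' := by
    rintro x y ⟨k, m, h⟩ ⟨k', m', h'⟩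
    refine ⟨k + k', m * 2 ^ k' + m' * 2 ^ k, ?_⟩
    push_cast
    rw [← h, ← h', pow_add]; ring
  zero_mem' := ⟨0, 0, by simp⟩
  neg_mem' := by
    rintro x ⟨k, m, h⟩
    exact ⟨k, -m, by push_cast; rw [← h]; ring⟩

theorem mem_B2 (q : ℚ) : q ∈ B2 ↔ ∃ (k : ℕ) (m : ℤ), q * 2 ^ k = m := Iff.rfl

theorem zpow_mem_B2 (n : ℤ) : (2 : ℚ) ^ n ∈ B2 := by
  obtain ⟨k, rfl | rfl⟩ := n.eq_nat_or_neg
  · exact ⟨0, 2 ^ k, by push_cast; rw [zpow_natCast]; ring⟩
  · refine ⟨k, 1, ?_⟩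
    rw [zpow_neg, zpow_natCast]
    push_cast
    exact inv_mul_cancel₀ (by positivity)

theorem int_mem_B2 (n : ℤ) : (n : ℚ) ∈ B2 := ⟨0, n, by simp⟩

/-- Bezout step -/
theorem half_mem (N : AddSubgroup ℚ) (c : ℤ) (hc : (c : ℚ) ∈ N) (j : ℕ) (y : ℚ) (hy : y ∈ N)
    (d : ℤ) (t : ℕ) (hyt : y * 2 ^ t = d) (hd : Odd d) (hjt : j ≤ t) : (c : ℚ) / 2 ^ j ∈ N := by
  have hcop : IsCoprime ((2 : ℤ) ^ j) d := by
    apply IsCoprime.pow_left
    rw [Int.isCoprime_iff_gcd_eq_one]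
    have : (2 : ℤ).gcd d = 1 := by
      rw [Int.gcd_comm]
      exact Int.isCoprime_iff_gcd_eq_one.1 (Int.isCoprime_two_right.2 hd)
    exact this
  obtain ⟨u, w, huw⟩ := hcop
  obtain ⟨i, rfl⟩ := Nat.exists_eq_add_of_le hjt
  have hy2 : y = d / 2 ^ (j + i) := by
    rw [eq_div_iff (by positivity)]; exact hyt
  have e : (c : ℚ) / 2 ^ j = (u : ℚ) * c + ((c * 2 ^ i * w : ℤ) : ℚ) * y := by
    have huw' : (u : ℚ) * 2 ^ j + w * d = 1 := by exact_mod_cast huw
    rw [hy2]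
    push_cast
    have hwd : (w : ℚ) * d = 1 - u * 2 ^ j := by linarith
    have : (c : ℚ) * 2 ^ i * w * (d / 2 ^ (j + i)) = c * (w * d) / 2 ^ j := by
      rw [pow_add]; field_simp
    rw [this, hwd]
    field_simp
    ring
  rw [e]
  refine N.add_mem ?_ ?_
  · have := N.zsmul_mem hc u
    simpa [zsmul_eq_mul] using this
  · have := N.zsmul_mem hy (c * 2 ^ i * w)
    rw [zsmul_eq_mul] at this
    exact this

theorem wm_B2 (N : ℕ → AddSubgroup ℚ) (hN : ∀ k, ∀ x ∈ N k, x ∈ B2) (hA : Antitone N) :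
    ∃ m, ∀ k, m ≤ k → ∃ s : Set ℚ, s.Finite ∧ ∀ x ∈ N k, ∃ y ∈ s, x - y ∈ N (k + 1) := by
  by_cases h0 : ∃ k0, N k0 = ⊥
  · obtain ⟨k0, hk0⟩ := h0
    refine ⟨k0, fun k hk => ⟨{0}, Set.finite_singleton 0, fun x hx => ⟨0, rfl, ?_⟩⟩⟩
    have h1 : x ∈ N k0 := hA hk hx
    rw [hk0, AddSubgroup.mem_bot] at h1
    rw [h1, sub_zero]
    exact zero_mem _
  push Not at h0
  have hne : ∀ k, ∃ x ∈ N k, x ≠ 0 := by
    intro k
    by_contra hcon
    push Not at hcon
    exact h0 k ((AddSubgroup.eq_bot_iff_forall _).2 hcon)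
  by_cases hb : ∃ (k0 e : ℕ), ∀ x ∈ N k0, ∃ m : ℤ, x * 2 ^ e = m
  · obtain ⟨k0, e, hb⟩ := hb
    refine ⟨k0, fun k hk => ?_⟩
    obtain ⟨y, hy, hy0⟩ := hne (k + 1)
    obtain ⟨c, hc⟩ := hb y (hA (by omega) hy)
    have hc0 : c ≠ 0 := by
      rintro rfl
      apply hy0
      have : y * 2 ^ e = 0 := by rw [hc]; simp
      rcases mul_eq_zero.1 this with h | h
      · exact h
      · exact absurd h (by positivity)
    refine ⟨(fun i : ℕ => (i : ℚ) / 2 ^ e) '' Set.Iio c.natAbs, (Set.finite_Iio _).image _,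
      fun x hx => ?_⟩
    obtain ⟨d, hd⟩ := hb x (hA hk hx)
    have hr0 : 0 ≤ d % c := Int.emod_nonneg d hc0
    have hr1 : d % c < |c| := Int.emod_lt_abs d hc0
    refine ⟨((d % c).toNat : ℚ) / 2 ^ e, ⟨(d % c).toNat, ?_, rfl⟩, ?_⟩
    · rw [Set.mem_Iio]
      zify
      rw [Int.toNat_of_nonneg hr0]
      exact hr1
    · have h1 : x = d / 2 ^ e := by rw [eq_div_iff (by positivity)]; exact hd
      have h2 : y = c / 2 ^ e := by rw [eq_div_iff (by positivity)]; exact hc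
      have h3 : (((d % c).toNat : ℕ) : ℚ) = ((d % c : ℤ) : ℚ) := by
        have : (((d % c).toNat : ℤ) : ℚ) = ((d % c : ℤ) : ℚ) := by
          rw [Int.toNat_of_nonneg hr0]
        exact_mod_cast this
      have h4 : ((d % c : ℤ) : ℚ) = d - c * (d / c : ℤ) := by
        have := Int.emod_add_mul_ediv d c
        have h5 : ((d % c + c * (d / c) : ℤ) : ℚ) = d := by rw [this]
        push_cast at h5 ⊢
        linarith
      have h6 : x - (((d % c).toNat : ℕ) : ℚ) / 2 ^ e = ((d / c : ℤ) : ℚ) * y := by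
        rw [h3, h4, h1, h2]; ring
      rw [h6]
      have := (N (k + 1)).zsmul_mem hy (d / c)
      rw [zsmul_eq_mul] at this
      exact this
  · push Not at hb
    have key : ∀ k, ∃ c : ℤ, Odd c ∧ ∀ j : ℕ, (c : ℚ) / 2 ^ j ∈ N k := by
      intro k
      obtain ⟨x, hx, hx0⟩ := hne k
      obtain ⟨a, c, hac⟩ := hN k x hx
      have hc0 : c ≠ 0 := by
        rintro rfl
        apply hx0
        have : x * 2 ^ a = 0 := by rw [hac]; simp
        rcases mul_eq_zero.1 this with h | h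
        · exact h
        · exact absurd h (by positivity)
      have hcN : (c : ℚ) ∈ N k := by
        rw [← hac, mul_comm]
        have := (N k).nsmul_mem hx (2 ^ a)
        rw [nsmul_eq_mul] at this
        push_cast at this
        exact this
      have hall : ∀ j : ℕ, (c : ℚ) / 2 ^ j ∈ N k := by
        intro j
        obtain ⟨y, hy, hyn⟩ := hb k j
        obtain ⟨t, d, hd⟩ := hN k y hy
        have hd0 : d ≠ 0 := by
          rintro rfl
          have : y * 2 ^ t = 0 := by rw [hd]; simp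
          rcases mul_eq_zero.1 this with h | h
          · exact hyn 0 (by rw [h]; simp)
          · exact absurd h (by positivity)
        obtain ⟨r, d', hd', hdd⟩ : ∃ (r : ℕ) (d' : ℤ), Odd d' ∧ d = 2 ^ r * d' := by
          obtain ⟨r, d', hnd, he⟩ := (Int.finiteMultiplicity_iff.2
            ⟨by norm_num, hd0⟩ : FiniteMultiplicity (2 : ℤ) d).exists_eq_pow_mul_and_not_dvd
            |> fun h => (⟨multiplicity (2 : ℤ) d, h.choose, h.choose_spec.2, h.choose_spec.1⟩ :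
              ∃ (r : ℕ) (d' : ℤ), ¬ (2 : ℤ) ∣ d' ∧ d = 2 ^ r * d')
          exact ⟨r, d', by rwa [← Int.not_even_iff_odd, even_iff_two_dvd], he⟩
        by_cases hrt : r ≤ t
        · obtain ⟨t', rfl⟩ := Nat.exists_eq_add_of_le hrt
          have hy' : y * 2 ^ t' = d' := by
            rw [hdd, pow_add] at hd
            push_cast at hd
            have h2r : (2 : ℚ) ^ r ≠ 0 := by positivity
            apply mul_left_cancel₀ h2r
            rw [← hd]; ring
          have hjt : j ≤ t' := by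
            by_contra hlt
            push Not at hlt
            obtain ⟨i, rfl⟩ := Nat.exists_eq_add_of_le hlt.le
            exact hyn (d' * 2 ^ i) (by push_cast; rw [pow_add, ← mul_assoc, hy'])
          exact half_mem (N k) c hcN j y hy d' t' hy' hd' hjt
        · exfalso
          push Not at hrt
          obtain ⟨i, rfl⟩ := Nat.exists_eq_add_of_le hrt.le
          have hy' : y = 2 ^ i * d' := by
            rw [hdd, pow_add] at hd
            push_cast at hd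
            have h2r : (2 : ℚ) ^ t ≠ 0 := by positivity
            apply mul_right_cancel₀ h2r
            rw [hd]; ring
          exact hyn (2 ^ i * d' * 2 ^ j) (by push_cast; rw [hy'])
      obtain ⟨r, c', hnd, he⟩ : ∃ (r : ℕ) (d' : ℤ), ¬ (2 : ℤ) ∣ d' ∧ c = 2 ^ r * d' := by
        have h := (Int.finiteMultiplicity_iff.2
            ⟨by norm_num, hc0⟩ : FiniteMultiplicity (2 : ℤ) c).exists_eq_pow_mul_and_not_dvd
        exact ⟨multiplicity (2 : ℤ) c, h.choose, h.choose_spec.2, h.choose_spec.1⟩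
      refine ⟨c', by rwa [← Int.not_even_iff_odd, even_iff_two_dvd], fun j => ?_⟩
      have h5 := hall (r + j)
      have h6 : (c : ℚ) / 2 ^ (r + j) = c' / 2 ^ j := by
        rw [he, pow_add]; push_cast; field_simp
      rw [h6] at h5
      exact h5
    refine ⟨0, fun k _ => ?_⟩
    obtain ⟨c, hcodd, hc⟩ := key (k + 1)
    have hc0 : c ≠ 0 := by
      rintro rfl
      exact absurd hcodd (by decide)
    refine ⟨(fun i : ℕ => (i : ℚ)) '' Set.Iio c.natAbs, (Set.finite_Iio _).image _,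
      fun x hx => ?_⟩
    obtain ⟨t, d, hd⟩ := hN k x hx
    have hcop : IsCoprime ((2 : ℤ) ^ t) c := by
      apply IsCoprime.pow_left
      exact (Int.isCoprime_two_left.2 hcodd)
    obtain ⟨u, w, huw⟩ := hcop
    set i := (d * u) % c with hi
    have hr0 : 0 ≤ i := Int.emod_nonneg _ hc0
    have hr1 : i < |c| := Int.emod_lt_abs _ hc0
    refine ⟨(i.toNat : ℚ), ⟨i.toNat, ?_, rfl⟩, ?_⟩
    · rw [Set.mem_Iio]
      zify
      rw [Int.toNat_of_nonneg hr0]
      exact hr1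
    · have hi2 : i = d * u - c * (d * u / c) := by
        have := Int.emod_add_mul_ediv (d * u) c
        omega
      have hdvd : d - i * 2 ^ t = c * (d * w + (d * u / c) * 2 ^ t) := by
        rw [hi2]
        have : d = d * (u * 2 ^ t + w * c) := by rw [huw, mul_one]
        linear_combination this
      have h1 : x = d / 2 ^ t := by rw [eq_div_iff (by positivity)]; exact hd
      have h3 : ((i.toNat : ℕ) : ℚ) = (i : ℚ) := by
        have : ((i.toNat : ℤ) : ℚ) = (i : ℚ) := by rw [Int.toNat_of_nonneg hr0]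
        exact_mod_cast this
      have h4 : x - ((i.toNat : ℕ) : ℚ) = ((d * w + (d * u / c) * 2 ^ t : ℤ) : ℚ) *
          ((c : ℚ) / 2 ^ t) := by
        rw [h3, h1]
        have h5 : ((d - i * 2 ^ t : ℤ) : ℚ) = ((c * (d * w + (d * u / c) * 2 ^ t) : ℤ) : ℚ) := by
          rw [hdvd]
        push_cast at h5
        push_cast
        have h2t : (2 : ℚ) ^ t ≠ 0 := by positivity
        field_simp
        linarith
      rw [h4]
      have := (N (k + 1)).zsmul_mem (hc t) (d * w + (d * u / c) * 2 ^ t)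
      rw [zsmul_eq_mul] at this
      exact this

/-- `ℤ[1/2]` written multiplicatively -/
def B2m : Subgroup (Multiplicative ℚ) where
  carrier := {x | x.toAdd ∈ B2}
  mul_mem' := fun ha hb => B2.add_mem ha hb
  one_mem' := B2.zero_mem
  inv_mem' := fun ha => B2.neg_mem ha

theorem WMon_B2m : WMon B2m := by
  intro N hN hA
  let N' : ℕ → AddSubgroup ℚ := fun k =>
    { carrier := {x | Multiplicative.ofAdd x ∈ N k}
      add_mem' := fun ha hb => (N k).mul_mem ha hb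
      zero_mem' := (N k).one_mem
      neg_mem' := fun ha => (N k).inv_mem ha }
  obtain ⟨m, hm⟩ := wm_B2 N' (fun k x hx => hN k hx) (fun i j hij x hx => hA hij hx)
  refine ⟨m, fun k hk => ?_⟩
  obtain ⟨s, hs, h⟩ := hm k hk
  refine ⟨Multiplicative.ofAdd '' s, hs.image _, fun x hx => ?_⟩
  obtain ⟨y, hy, hxy⟩ := h x.toAdd hx
  refine ⟨Multiplicative.ofAdd y, ⟨y, hy, rfl⟩, ?_⟩
  have h2 : (Multiplicative.ofAdd y)⁻¹ * x = Multiplicative.ofAdd (x.toAdd - y) := by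
    rw [mul_comm, ofAdd_sub, ofAdd_toAdd, div_eq_mul_inv]
  rw [h2]
  exact hxy

end Pool.Agent.Helper730.WMN
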