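import Pool.Agent.Helper730.WmnGroup

set_option autoImplicit false

namespace Pool.Agent.Helper730.WMN

/-- `e(x) = exp(2πi x)` -/
noncomputable def ee (x : ℚ) : ℂ := Complex.exp (2 * Real.pi * Complex.I * (x : ℂ))

theorem ee_add (x y : ℚ) : ee (x + y) = ee x * ee y := by
  unfold ee
  rw [← Complex.exp_add]
  congr 1
  push_cast
  ring

theorem ee_zero : ee 0 = 1 := by
  unfold ee
  simp

theorem ee_nat_mul (k : ℕ) (x : ℚ) : ee (k * x) = ee x ^ k := by
  unfold ee
  rw [← Complex.exp_nat_mul]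
  congr 1
  push_cast
  ring

theorem ee_eq_one_iff (x : ℚ) : ee x = 1 ↔ ∃ n : ℤ, x = n := by
  unfold ee
  rw [Complex.exp_eq_one_iff]
  constructor
  · rintro ⟨n, hn⟩
    refine ⟨n, ?_⟩
    have h2 : (2 * (Real.pi : ℂ) * Complex.I) ≠ 0 := Complex.two_pi_I_ne_zero
    have h3 : (x : ℂ) = n := by
      apply mul_left_cancel₀ h2
      rw [hn]; ring
    exact_mod_cast h3
  · rintro ⟨n, hn⟩
    refine ⟨n, ?_⟩
    rw [hn]
    push_cast
    ring

theorem ee_half : ee (1 / 2) = -1 := by
  unfold ee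
  have : (2 * (Real.pi : ℂ) * Complex.I * ((1 / 2 : ℚ) : ℂ)) = Real.pi * Complex.I := by
    push_cast; ring
  rw [this, Complex.exp_pi_mul_I]

/-- the representation of `QQ` on functions -/
noncomputable def rho : QQ →* Module.End ℤ (ℚ → ℂ) where
  toFun g :=
    { toFun := fun f t => ee (g.c + g.a * t) * f (2 ^ (-g.n) * (t - g.b))
      map_add' := by
        intro f h
        funext t
        simp only [Pi.add_apply]
        ring
      map_smul' := by
        intro m f
        funext t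
        simp only [Pi.smul_apply, zsmul_eq_mul, eq_intCast, Int.cast_id]
        ring }
  map_one' := by
    ext f t
    simp [ee_zero]
  map_mul' g h := by
    refine LinearMap.ext fun f => funext fun t => ?_
    change ee ((g * h).c + (g * h).a * t) * f (2 ^ (-(g * h).n) * (t - (g * h).b)) =
      ee (g.c + g.a * t) * (ee (h.c + h.a * (2 ^ (-g.n) * (t - g.b))) *
        f (2 ^ (-h.n) * (2 ^ (-g.n) * (t - g.b) - h.b)))
    rw [← mul_assoc, ← ee_add]
    congr 1
    · congr 1
      simp only [QQ.mul_c, QQ.mul_a]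
      ring
    · congr 1
      simp only [QQ.mul_n, QQ.mul_b, neg_add, QQ.zadd]
      have h1 := QQ.zneg_mul g.n
      linear_combination (-(2 ^ (-h.n)) * h.b) * h1

theorem rho_apply (g : QQ) (f : ℚ → ℂ) (t : ℚ) :
    rho g f t = ee (g.c + g.a * t) * f (2 ^ (-g.n) * (t - g.b)) := rfl

/-- the weights -/
noncomputable def kap : ℕ → ℂ
  | 0 => 1
  | (n + 1) => kap ((n + 1) / 2 ^ (padicValNat 2 (n + 1) + 1)) /
      (2 ^ (padicValNat 2 (n + 1) + 1) * ((padicValNat 2 (n + 1) : ℂ) + 1))
decreasing_by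
  exact Nat.div_lt_self (Nat.succ_pos n) (Nat.one_lt_two_pow (Nat.succ_ne_zero _))

theorem kap_eq (j m : ℕ) : kap (2 ^ j * (2 * m + 1)) = kap m / (2 ^ (j + 1) * ((j : ℂ) + 1)) := by
  have hv : padicValNat 2 (2 ^ j * (2 * m + 1)) = j := by
    rw [padicValNat.mul (by positivity) (by omega), padicValNat.prime_pow,
      padicValNat.eq_zero_of_not_dvd (by omega), add_zero]
  have hd : (2 ^ j * (2 * m + 1)) / 2 ^ (j + 1) = m := by
    rw [pow_succ, ← Nat.div_div_eq_div_mul, Nat.mul_div_cancel_left _ (by positivity)]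
    omega
  obtain ⟨n, hn⟩ : ∃ n, 2 ^ j * (2 * m + 1) = n + 1 :=
    Nat.exists_eq_succ_of_ne_zero (by positivity)
  rw [hn] at hv hd ⊢
  rw [kap, hv, hd]

open Classical in
/-- the cyclic vector -/
noncomputable def FF (t : ℚ) : ℂ := if ∃ n : ℕ, t = n then kap ⌊t⌋₊ else 0

theorem FF_nat (n : ℕ) : FF n = kap n := by
  unfold FF
  rw [if_pos ⟨n, rfl⟩, Nat.floor_natCast]

theorem FF_zero : FF 0 = 1 := by
  have := FF_nat 0
  rw [Nat.cast_zero] at this
  rw [this, kap]

theorem FF_of_not (t : ℚ) (h : ¬ ∃ n : ℕ, t = n) : FF t = 0 := by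
  unfold FF
  rw [if_neg h]

theorem geom (w : ℂ) (M : ℕ) (h : w ^ M = 1) (hw : w ≠ 1) :
    ∑ i ∈ Finset.range M, w ^ i = 0 := by
  have h1 : (w - 1) * ∑ i ∈ Finset.range M, w ^ i = 0 := by
    rw [mul_geom_sum, h, sub_self]
  exact (mul_eq_zero.1 h1).resolve_left (sub_ne_zero.2 hw)

/-- the key identity -/
theorem key (j : ℕ) (t : ℚ) :
    ((j : ℂ) + 1) * ∑ i ∈ Finset.range (2 ^ (j + 1)),
      (-1 : ℂ) ^ i * (ee ((i / 2 ^ (j + 1) : ℚ) * t) * FF t) =
      FF (2 ^ (-((j : ℤ) + 1)) * (t - 2 ^ j)) := by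
  have hinv : (2 : ℚ) ^ (-((j : ℤ) + 1)) = 1 / 2 ^ (j + 1) := by
    rw [zpow_neg, one_div]
    congr 1
  rw [hinv]
  by_cases ht : ∃ n : ℕ, t = n
  · obtain ⟨n, rfl⟩ := ht
    have hw : ∀ i : ℕ, (-1 : ℂ) ^ i * (ee ((i / 2 ^ (j + 1) : ℚ) * n) * FF n) =
        (ee (1 / 2 + n / 2 ^ (j + 1))) ^ i * FF n := by
      intro i
      have h1 : ee ((i / 2 ^ (j + 1) : ℚ) * n) = ee (n / 2 ^ (j + 1)) ^ i := by
        rw [← ee_nat_mul]; congr 1; ring
      rw [h1, ee_add, ee_half, mul_pow]
      ring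
    simp_rw [hw]
    rw [← Finset.sum_mul]
    have hpow : (ee (1 / 2 + n / 2 ^ (j + 1))) ^ (2 ^ (j + 1)) = 1 := by
      rw [← ee_nat_mul, ee_eq_one_iff]
      refine ⟨2 ^ j + n, ?_⟩
      push_cast
      have h2 : (2 : ℚ) ^ (j + 1) ≠ 0 := by positivity
      field_simp
      ring
    by_cases hone : ee (1 / 2 + n / 2 ^ (j + 1)) = 1
    · rw [hone]
      obtain ⟨z, hz⟩ := (ee_eq_one_iff _).1 hone
      have hz2 : (n : ℤ) = 2 ^ j * (2 * (z - 1) + 1) := by
        have h2 : (2 : ℚ) ^ (j + 1) ≠ 0 := by positivity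
        have h3 : (n : ℚ) = 2 ^ j * (2 * (z - 1) + 1) := by
          have h4 : (n : ℚ) / 2 ^ (j + 1) = z - 1 / 2 := by linarith
          rw [div_eq_iff h2] at h4
          rw [h4, pow_succ]
          ring
        exact_mod_cast h3
      have hz3 : 0 ≤ z - 1 := by
        by_contra hneg
        push Not at hneg
        have h5 : 2 * (z - 1) + 1 < 0 := by omega
        have h6 : (2 : ℤ) ^ j * (2 * (z - 1) + 1) < 0 := mul_neg_of_pos_of_neg (by positivity) h5
        have h7 : (0 : ℤ) ≤ n := Int.natCast_nonneg n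
        omega
      obtain ⟨m, hm⟩ := Int.eq_ofNat_of_zero_le hz3
      rw [hm] at hz2
      have hn : n = 2 ^ j * (2 * m + 1) := by exact_mod_cast hz2
      have harg : (1 : ℚ) / 2 ^ (j + 1) * ((n : ℚ) - 2 ^ j) = m := by
        rw [hn]
        push_cast
        rw [pow_succ]
        field_simp
        ring
      rw [harg, FF_nat, FF_nat, hn, kap_eq]
      simp only [one_pow, Finset.sum_const, Finset.card_range, nsmul_eq_mul, mul_one]
      push_cast
      have h8 : ((j : ℂ) + 1) ≠ 0 := Nat.cast_add_one_ne_zero j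
      field_simp
    · rw [geom _ _ hpow hone, zero_mul, mul_zero]
      symm
      apply FF_of_not
      rintro ⟨m, hm⟩
      apply hone
      rw [ee_eq_one_iff]
      refine ⟨m + 1, ?_⟩
      have h2 : (2 : ℚ) ^ (j + 1) ≠ 0 := by positivity
      have h9 : (n : ℚ) = m * 2 ^ (j + 1) + 2 ^ j := by
        field_simp at hm
        linarith
      rw [h9, pow_succ]
      push_cast
      field_simp
      ring
  · rw [FF_of_not t ht]
    simp only [mul_zero, Finset.sum_const_zero]
    symm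
    apply FF_of_not
    rintro ⟨m, hm⟩
    apply ht
    refine ⟨2 ^ j * (2 * m + 1), ?_⟩
    push_cast
    have h2 : (2 : ℚ) ^ (j + 1) ≠ 0 := by positivity
    field_simp at hm
    rw [pow_succ] at hm
    linarith

/-- the group ring -/
abbrev AA := MonoidAlgebra ℤ QQ

/-- the ring homomorphism from the group ring to the endomorphisms -/
noncomputable def Phi : AA →ₐ[ℤ] Module.End ℤ (ℚ → ℂ) := MonoidAlgebra.lift ℤ _ QQ rho

/-- the dilation-translation -/
def gj (j : ℕ) : QQ :=
  { a := 0, b := 2 ^ j, c := 0, n := (j : ℤ) + 1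
    ha := B2.zero_mem
    hb := B2.pow_mem (B2.add_mem B2.one_mem B2.one_mem |> fun h => by
      have e : (1 : ℚ) + 1 = 2 := by norm_num
      rwa [e] at h) j
    hc := B2.zero_mem }

theorem inv_pow_mem (i j : ℕ) : (i / 2 ^ (j + 1) : ℚ) ∈ B2 :=
  ⟨j + 1, i, by push_cast; field_simp⟩

/-- the modulations -/
def xij (j i : ℕ) : QQ :=
  { a := i / 2 ^ (j + 1), b := 0, c := 0, n := 0
    ha := inv_pow_mem i j, hb := B2.zero_mem, hc := B2.zero_mem }

/-- the element of the group ring -/
noncomputable def rj (j : ℕ) : AA :=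
  MonoidAlgebra.single (gj j)⁻¹ (1 : ℤ) *
    ∑ i ∈ Finset.range (2 ^ (j + 1)), MonoidAlgebra.single (xij j i) ((-1 : ℤ) ^ i)

theorem Phi_rj (j : ℕ) : ((j + 1 : ℕ) : ℤ) • Phi (rj j) FF = FF := by
  have h1 : ((j + 1 : ℕ) : ℤ) • (Phi (∑ i ∈ Finset.range (2 ^ (j + 1)),
      MonoidAlgebra.single (xij j i) ((-1 : ℤ) ^ i)) FF) = rho (gj j) FF := by
    funext t
    rw [rho_apply]
    have h2 := key j t
    simp only [gj, zero_mul, add_zero, ee_zero, one_mul]
    rw [← h2, map_sum, LinearMap.sum_apply, Pi.smul_apply, Finset.sum_apply, zsmul_eq_mul]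
    push_cast
    congr 1
    refine Finset.sum_congr rfl fun i _ => ?_
    unfold Phi
    rw [MonoidAlgebra.lift_single, LinearMap.smul_apply, Pi.smul_apply, rho_apply, zsmul_eq_mul]
    push_cast
    simp [xij]
  unfold rj
  rw [map_mul, Module.End.mul_apply, ← map_zsmul, h1]
  unfold Phi
  rw [MonoidAlgebra.lift_single, one_smul, ← Module.End.mul_apply, ← map_mul, inv_mul_cancel,
    map_one, Module.End.one_apply]

/-- annihilator of the cyclic vector -/
noncomputable def JJ : Ideal AA where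
  carrier := {r | Phi r FF = 0}
  add_mem' := by
    intro r s hr hs
    change Phi (r + s) FF = 0
    rw [map_add, LinearMap.add_apply]
    rw [show Phi r FF = 0 from hr, show Phi s FF = 0 from hs, add_zero]
  zero_mem' := by
    change Phi 0 FF = 0
    rw [map_zero, LinearMap.zero_apply]
  smul_mem' := by
    intro c r hr
    change Phi (c * r) FF = 0
    rw [map_mul, Module.End.mul_apply, show Phi r FF = 0 from hr, map_zero]

theorem JJ_ne_top : JJ ≠ ⊤ := by
  intro h
  have h1 : (1 : AA) ∈ JJ := by rw [h]; exact Submodule.mem_top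
  have h2 : Phi 1 FF = 0 := h1
  rw [map_one, Module.End.one_apply] at h2
  have h3 := congrFun h2 0
  rw [FF_zero] at h3
  exact one_ne_zero h3

theorem one_sub_mem (j : ℕ) : (1 : AA) - ((j + 1 : ℕ) : ℤ) • rj j ∈ JJ := by
  change Phi (1 - ((j + 1 : ℕ) : ℤ) • rj j) FF = 0
  rw [map_sub, map_one, LinearMap.sub_apply, Module.End.one_apply, map_zsmul, LinearMap.smul_apply,
    Phi_rj, sub_self]

/-- a simple module over `ℤ[QQ]` of characteristic zero -/
theorem exists_simple : ∃ (S : Type) (_ : AddCommGroup S) (_ : DistribMulAction QQ S),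
    (∃ s : S, s ≠ 0) ∧
    (∀ P : AddSubgroup S, (∀ q : QQ, ∀ s ∈ P, q • s ∈ P) → P = ⊥ ∨ P = ⊤) ∧
    (∀ m : ℕ, 0 < m → ∀ s : S, ∃ s' : S, m • s' = s) ∧
    (∀ m : ℕ, 0 < m → ∀ s : S, m • s = 0 → s = 0) := by
  obtain ⟨𝔪, h𝔪, hJ⟩ := Ideal.exists_le_maximal JJ JJ_ne_top
  have hco : IsCoatom 𝔪 := Ideal.isMaximal_def.1 h𝔪
  let S := AA ⧸ (𝔪 : Submodule AA AA)
  have hsimple : ∀ P : Submodule AA S, P = ⊥ ∨ P = ⊤ := by
    have : IsSimpleModule AA S := isSimpleModule_iff_isCoatom.2 hco
    intro P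
    exact eq_bot_or_eq_top P
  have hne : ∃ s : S, s ≠ 0 := by
    refine ⟨Submodule.Quotient.mk 1, ?_⟩
    intro h
    rw [Submodule.Quotient.mk_eq_zero] at h
    exact hco.1 ((Ideal.eq_top_iff_one 𝔪).2 h)
  have hdiv : ∀ m : ℕ, 0 < m → ∀ s : S, ∃ s' : S, m • s' = s := by
    intro m hm s
    obtain ⟨r, rfl⟩ := Submodule.Quotient.mk_surjective _ s
    obtain ⟨j, rfl⟩ : ∃ j, m = j + 1 := Nat.exists_eq_succ_of_ne_zero hm.ne'
    refine ⟨Submodule.Quotient.mk (r * rj j), ?_⟩
    rw [← Submodule.Quotient.mk_smul, Submodule.Quotient.eq]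
    have h1 := 𝔪.mul_mem_left r (hJ (one_sub_mem j))
    have h2 : (j + 1) • (r * rj j) - r = -(r * (1 - ((j + 1 : ℕ) : ℤ) • rj j)) := by
      rw [mul_sub, mul_one, mul_smul_comm, natCast_zsmul]
      abel
    rw [h2]
    exact Submodule.neg_mem _ h1
  have htf : ∀ m : ℕ, 0 < m → ∀ s : S, m • s = 0 → s = 0 := by
    intro m hm
    let T : Submodule AA S :=
      { carrier := {s | m • s = 0}
        add_mem' := by
          intro a b ha hb
          change m • (a + b) = 0
          rw [smul_add, show m • a = 0 from ha, show m • b = 0 from hb, add_zero]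
        zero_mem' := smul_zero m
        smul_mem' := by
          intro c a ha
          change m • (c • a) = 0
          rw [smul_comm, show m • a = 0 from ha, smul_zero] }
    rcases hsimple T with h | h
    · intro s hs
      have : s ∈ T := hs
      rw [h] at this
      exact (Submodule.mem_bot AA).1 this
    · exfalso
      obtain ⟨s, hs⟩ := hne
      obtain ⟨s', hs'⟩ := hdiv m hm s
      have : s' ∈ T := by rw [h]; exact Submodule.mem_top
      exact hs (hs'.symm.trans this)
  refine ⟨S, inferInstance, DistribMulAction.compHom S (MonoidAlgebra.of ℤ QQ), hne, ?_, hdiv, htf⟩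
  intro P hP
  let P' : Submodule AA S :=
    { carrier := P
      add_mem' := fun ha hb => P.add_mem ha hb
      zero_mem' := P.zero_mem
      smul_mem' := by
        intro c s hs
        induction c using MonoidAlgebra.induction_on with
        | of g => exact hP g s hs
        | add x y hx hy => rw [add_smul]; exact P.add_mem hx hy
        | smul r x hx => rw [smul_assoc]; exact P.zsmul_mem hx r }
  rcases hsimple P' with h | h
  · left
    rw [AddSubgroup.eq_bot_iff_forall]
    intro s hs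
    have : s ∈ P' := hs
    rw [h] at this
    exact (Submodule.mem_bot AA).1 this
  · right
    rw [eq_top_iff]
    intro s _
    have : s ∈ P' := by rw [h]; exact Submodule.mem_top
    exact this

end Pool.Agent.Helper730.WMN
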