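import Pool.Agent.Helper730.WmnFinal

set_option autoImplicit false

namespace Pool.Agent.Helper730.WMN

/-- finitely generated subgroups of `K` are generated by at most `r` elements -/
def RKon {G : Type*} [Group G] (r : ℕ) (K : Subgroup G) : Prop :=
  ∀ s : Finset G, (∀ x ∈ s, x ∈ K) → ∃ t : Finset G, t.card ≤ r ∧
    Subgroup.closure (t : Set G) = Subgroup.closure (s : Set G)

theorem RKon_bot {G : Type*} [Group G] : RKon 0 (⊥ : Subgroup G) := by
  intro s hs
  refine ⟨∅, by simp, ?_⟩
  rw [Finset.coe_empty, Subgroup.closure_empty, eq_comm, eq_bot_iff, Subgroup.closure_le]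
  intro x hx
  exact hs x hx

theorem RKon_ext {G L : Type*} [Group G] [Group L] (f : G → L) (K0 K1 : Subgroup G)
    (hf : ∀ x ∈ K0, ∀ y ∈ K0, f (x * y) = f x * f y)
    (hker : ∀ x ∈ K0, f x = 1 → x ∈ K1) (r1 r2 : ℕ) (L0 : Subgroup L)
    (hL0 : ∀ x ∈ K0, f x ∈ L0) (hL : RKon r1 L0) (hK1 : RKon r2 K1) :
    RKon (r1 + r2) K0 := by
  classical
  intro s hs
  have hH : Subgroup.closure (s : Set G) ≤ K0 := by
    rw [Subgroup.closure_le]
    intro x hx
    exact hs x hx
  obtain ⟨t1, ht1, hc1⟩ := hL (s.image f) (by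
    intro y hy
    obtain ⟨x, hx, rfl⟩ := Finset.mem_image.1 hy
    exact hL0 x (hs x hx))
  -- the image subgroup of the closure
  have himg : Subgroup.closure ((s.image f : Finset L) : Set L) ≤
      img f K0 hf (Subgroup.closure (s : Set G)) hH := by
    rw [Subgroup.closure_le]
    intro y hy
    rw [Finset.coe_image] at hy
    obtain ⟨x, hx, rfl⟩ := hy
    exact ⟨x, Subgroup.subset_closure hx, rfl⟩
  have hlift : ∀ y ∈ t1, ∃ x ∈ Subgroup.closure (s : Set G), f x = y := by
    intro y hy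
    have h1 : y ∈ Subgroup.closure (t1 : Set L) := Subgroup.subset_closure hy
    rw [hc1] at h1
    obtain ⟨x, hx, hxy⟩ := himg h1
    exact ⟨x, hx, hxy⟩
  choose! g hg1 hg2 using hlift
  let T1 : Finset G := t1.image g
  have hT1 : Subgroup.closure (T1 : Set G) ≤ Subgroup.closure (s : Set G) := by
    rw [Subgroup.closure_le]
    intro x hx
    have hx' : x ∈ T1 := hx
    obtain ⟨y, hy, rfl⟩ := Finset.mem_image.1 hx'
    exact hg1 y hy
  have hT1K : Subgroup.closure (T1 : Set G) ≤ K0 := hT1.trans hH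
  -- every element of `s` is a product
  have hfT : ∀ x ∈ s, ∃ w ∈ Subgroup.closure (T1 : Set G), f w = f x := by
    intro x hx
    have h1 : f x ∈ Subgroup.closure (t1 : Set L) := by
      rw [hc1]
      apply Subgroup.subset_closure
      rw [Finset.coe_image]
      exact ⟨x, hx, rfl⟩
    have h2 : Subgroup.closure (t1 : Set L) ≤
        img f K0 hf (Subgroup.closure (T1 : Set G)) hT1K := by
      rw [Subgroup.closure_le]
      intro y hy
      exact ⟨g y, Subgroup.subset_closure (Finset.mem_image_of_mem g hy), hg2 y hy⟩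
    obtain ⟨w, hw, hwx⟩ := h2 h1
    exact ⟨w, hw, hwx⟩
  choose! w hw1 hw2 using hfT
  obtain ⟨t2, ht2, hc2⟩ := hK1 (s.image (fun x => (w x)⁻¹ * x)) (by
    intro y hy
    obtain ⟨x, hx, rfl⟩ := Finset.mem_image.1 hy
    have hwK : w x ∈ K0 := hT1K (hw1 x hx)
    have hxK : x ∈ K0 := hs x hx
    apply hker _ (K0.mul_mem (K0.inv_mem hwK) hxK)
    have h3 : f (w x * ((w x)⁻¹ * x)) = f (w x) * f ((w x)⁻¹ * x) :=
      hf _ hwK _ (K0.mul_mem (K0.inv_mem hwK) hxK)
    rw [mul_inv_cancel_left, hw2 x hx] at h3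
    exact (left_eq_mul.1 h3))
  refine ⟨T1 ∪ t2, ?_, ?_⟩
  · refine (Finset.card_union_le _ _).trans ?_
    exact Nat.add_le_add (Finset.card_image_le.trans ht1) ht2
  · apply le_antisymm
    · rw [Subgroup.closure_le]
      intro x hx
      rw [Finset.coe_union] at hx
      rcases hx with hx | hx
      · exact hT1 (Subgroup.subset_closure hx)
      · have h4 : x ∈ Subgroup.closure (t2 : Set G) := Subgroup.subset_closure hx
        rw [hc2] at h4
        have h5 : Subgroup.closure ((s.image (fun x => (w x)⁻¹ * x) : Finset G) : Set G) ≤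
            Subgroup.closure (s : Set G) := by
          rw [Subgroup.closure_le]
          intro y hy
          rw [Finset.coe_image] at hy
          obtain ⟨z, hz, rfl⟩ := hy
          exact Subgroup.mul_mem _ (Subgroup.inv_mem _ (hT1 (hw1 z hz)))
            (Subgroup.subset_closure hz)
        exact h5 h4
    · rw [Subgroup.closure_le]
      intro x hx
      have h6 : w x ∈ Subgroup.closure ((T1 ∪ t2 : Finset G) : Set G) := by
        refine Subgroup.closure_mono ?_ (hw1 x hx)
        rw [Finset.coe_union]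
        exact Set.subset_union_left
      have h7 : (w x)⁻¹ * x ∈ Subgroup.closure ((T1 ∪ t2 : Finset G) : Set G) := by
        have h8 : (w x)⁻¹ * x ∈ Subgroup.closure (t2 : Set G) := by
          rw [hc2]
          apply Subgroup.subset_closure
          rw [Finset.coe_image]
          exact ⟨x, hx, rfl⟩
        refine Subgroup.closure_mono ?_ h8
        rw [Finset.coe_union]
        exact Set.subset_union_right
      have h9 := Subgroup.mul_mem _ h6 h7
      rw [mul_inv_cancel_left] at h9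
      exact h9

/-- finitely generated subgroups of the rationals are cyclic -/
theorem rat_cyclic (s : Finset ℚ) : ∃ q : ℚ, AddSubgroup.closure {q} =
    AddSubgroup.closure (s : Set ℚ) := by
  obtain ⟨N, hN, hNs⟩ : ∃ N : ℕ, N ≠ 0 ∧ ∀ q ∈ s, ∃ z : ℤ, q = z / N := by
    refine ⟨∏ q ∈ s, q.den, Finset.prod_ne_zero_iff.2 fun q _ => q.den_nz, ?_⟩
    intro q hq
    refine ⟨q.num * ∏ r ∈ s.erase q, (r.den : ℤ), ?_⟩
    have h1 : (∏ r ∈ s, r.den) = q.den * ∏ r ∈ s.erase q, r.den :=
      (Finset.mul_prod_erase s _ hq).symm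
    have h2 : (∏ r ∈ s.erase q, r.den) ≠ 0 := Finset.prod_ne_zero_iff.2 fun q _ => q.den_nz
    have h3 : ((∏ r ∈ s.erase q, r.den : ℕ) : ℚ) ≠ 0 := by exact_mod_cast h2
    have h4 : (q.den : ℚ) ≠ 0 := by exact_mod_cast q.den_nz
    rw [h1]
    push_cast at h3 ⊢
    rw [eq_div_iff (mul_ne_zero h4 h3)]
    nth_rewrite 1 [← Rat.num_div_den q]
    field_simp
  have hN' : (N : ℚ) ≠ 0 := by exact_mod_cast hN
  let φ : ℤ →+ ℚ :=
    { toFun := fun z => (z : ℚ) / N
      map_zero' := by simp
      map_add' := by intro a b; push_cast; ring }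
  obtain ⟨g, hg⟩ := Int.subgroup_cyclic ((AddSubgroup.closure (s : Set ℚ)).comap φ)
  refine ⟨φ g, ?_⟩
  have hle : AddSubgroup.closure (s : Set ℚ) ≤ φ.range := by
    rw [AddSubgroup.closure_le]
    intro q hq
    obtain ⟨z, hz⟩ := hNs q hq
    exact ⟨z, hz.symm⟩
  have h5 : ((AddSubgroup.closure (s : Set ℚ)).comap φ).map φ = AddSubgroup.closure (s : Set ℚ) := by
    rw [AddSubgroup.map_comap_eq, inf_eq_right]
    exact hle
  rw [← h5, hg, AddMonoidHom.map_closure, Set.image_singleton]

theorem RKon_top_rat : RKon 1 (⊤ : Subgroup (Multiplicative ℚ)) := by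
  classical
  intro s _
  obtain ⟨q, hq⟩ := rat_cyclic (s.image Multiplicative.toAdd)
  refine ⟨{Multiplicative.ofAdd q}, by simp, ?_⟩
  rw [Finset.coe_image] at hq
  have key : ∀ (T T' : Set ℚ), AddSubgroup.closure T ≤ AddSubgroup.closure T' →
      Subgroup.closure (Multiplicative.toAdd ⁻¹' T) ≤
        Subgroup.closure (Multiplicative.toAdd ⁻¹' T') := by
    intro T T' h
    rw [Subgroup.closure_le]
    intro x hx
    have h1 : x.toAdd ∈ AddSubgroup.closure T' := h (AddSubgroup.subset_closure hx)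
    let K' : AddSubgroup ℚ :=
      { carrier := {y | Multiplicative.ofAdd y ∈ Subgroup.closure (Multiplicative.toAdd ⁻¹' T')}
        add_mem' := by
          intro y z hy hz
          change Multiplicative.ofAdd (y + z) ∈ Subgroup.closure (Multiplicative.toAdd ⁻¹' T')
          rw [ofAdd_add]
          exact Subgroup.mul_mem _ hy hz
        zero_mem' := by
          change Multiplicative.ofAdd (0 : ℚ) ∈ Subgroup.closure (Multiplicative.toAdd ⁻¹' T')
          rw [ofAdd_zero]
          exact Subgroup.one_mem _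
        neg_mem' := by
          intro y hy
          change Multiplicative.ofAdd (-y) ∈ Subgroup.closure (Multiplicative.toAdd ⁻¹' T')
          rw [ofAdd_neg]
          exact Subgroup.inv_mem _ hy }
    have h2 : AddSubgroup.closure T' ≤ K' := by
      rw [AddSubgroup.closure_le]
      intro y hy
      change Multiplicative.ofAdd y ∈ Subgroup.closure (Multiplicative.toAdd ⁻¹' T')
      exact Subgroup.subset_closure (k := Multiplicative.toAdd ⁻¹' T') hy
    exact h2 h1
  have e1 : Multiplicative.toAdd ⁻¹' ({q} : Set ℚ) =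
      (({Multiplicative.ofAdd q} : Finset (Multiplicative ℚ)) : Set (Multiplicative ℚ)) := by
    ext x
    simp only [Set.mem_preimage, Set.mem_singleton_iff, Finset.coe_singleton]
    exact Iff.rfl
  have e2 : Multiplicative.toAdd ⁻¹' (Multiplicative.toAdd '' (s : Set (Multiplicative ℚ))) =
      (s : Set (Multiplicative ℚ)) :=
    Set.preimage_image_eq _ Multiplicative.toAdd.injective
  rw [← e1, ← e2]
  exact le_antisymm (key {q} (Multiplicative.toAdd '' (s : Set (Multiplicative ℚ))) hq.le)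
    (key (Multiplicative.toAdd '' (s : Set (Multiplicative ℚ))) {q} hq.ge)

theorem RKon_mono {G : Type*} [Group G] {r : ℕ} {K K' : Subgroup G} (h : K ≤ K')
    (hK : RKon r K') : RKon r K := fun s hs => hK s fun x hx => h (hs x hx)

namespace QQ

theorem rk_K3 : RKon (1 + 0) K3 := by
  refine RKon_ext (fun g : QQ => Multiplicative.ofAdd g.c) K3 ⊥ ?_ ?_ 1 0 ⊤
    (fun _ _ => Subgroup.mem_top _) RKon_top_rat RKon_bot
  · intro x hx y hy
    rw [mem_K3] at hx hy
    rw [← ofAdd_add]
    congr 1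
    simp [hx.2.1]
  · intro x hx hx1
    rw [mem_K3] at hx
    have : x.c = 0 := hx1
    rw [Subgroup.mem_bot]
    ext <;> simp [hx.1, hx.2.1, hx.2.2, this]

theorem rk_K2 : RKon (1 + (1 + 0)) K2 := by
  refine RKon_ext (fun g : QQ => Multiplicative.ofAdd g.a) K2 K3 ?_ ?_ 1 (1 + 0) ⊤
    (fun _ _ => Subgroup.mem_top _) RKon_top_rat rk_K3
  · intro x hx y hy
    rw [mem_K2] at hx hy
    rw [← ofAdd_add]
    congr 1
    simp [hx.1]
  · intro x hx hx1
    rw [mem_K2] at hx
    exact ⟨hx.1, hx.2, hx1⟩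

theorem rk_K1 : RKon (1 + (1 + (1 + 0))) K1 := by
  refine RKon_ext (fun g : QQ => Multiplicative.ofAdd g.b) K1 K2 ?_ ?_ 1 (1 + (1 + 0)) ⊤
    (fun _ _ => Subgroup.mem_top _) RKon_top_rat rk_K2
  · intro x hx y hy
    rw [mem_K1] at hx hy
    rw [← ofAdd_add]
    congr 1
    simp [hx]
  · intro x hx hx1
    rw [mem_K1] at hx
    exact ⟨hx, hx1⟩

theorem rk_top : RKon 4 (⊤ : Subgroup QQ) := by
  refine RKon_ext (fun g : QQ => Multiplicative.ofAdd ((g.n : ℤ) : ℚ)) ⊤ K1 ?_ ?_
    1 (1 + (1 + (1 + 0))) ⊤ (fun _ _ => Subgroup.mem_top _) RKon_top_rat rk_K1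
  · intro x _ y _
    rw [← ofAdd_add]
    congr 1
    push_cast [mul_n]
    rfl
  · intro x _ hx1
    have : ((x.n : ℤ) : ℚ) = 0 := hx1
    rw [mem_K1]
    exact_mod_cast this

end QQ

/-- a torsion-free abelian minimal normal subgroup with soluble quotient of finite rank -/
theorem main2 :
    ¬ (∀ (G : Type) [Group G] (A : Subgroup G) [A.Normal],
      A ≠ ⊥ →
      (∀ x ∈ A, ∀ y ∈ A, x * y = y * x) →
      (∀ N : Subgroup G, N.Normal → N ≤ A → N = ⊥ ∨ N = A) →
      Group.IsSolvable (G ⧸ A) →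
      (∃ r : ℕ, ∀ s : Finset (G ⧸ A), ∃ t : Finset (G ⧸ A),
          t.card ≤ r ∧ Subgroup.closure (t : Set (G ⧸ A)) = Subgroup.closure (s : Set (G ⧸ A))) →
      ∃ p : ℕ, p.Prime ∧ ∀ a ∈ A, a ^ p = 1) := by
  classical
  intro h
  obtain ⟨S, instA, instD, hne, hsimple, hdiv, htf⟩ := exists_simple
  let A : Subgroup (GG S) := (GG.proj : GG S →* QQ).ker
  have hmem : ∀ x : GG S, x ∈ A ↔ x.q = 1 := fun x => Iff.rfl
  have hsurj : Function.Surjective (GG.proj : GG S →* QQ) := fun q => ⟨⟨0, q⟩, rfl⟩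
  let e : GG S ⧸ A ≃* QQ := QuotientGroup.quotientKerEquivOfSurjective _ hsurj
  obtain ⟨s0, hs0⟩ := hne
  have h1 : A ≠ ⊥ := by
    intro hA
    have h2 : GG.inl s0 ∈ A := rfl
    rw [hA, Subgroup.mem_bot] at h2
    exact hs0 (GG.inl_inj s0 0 h2)
  have h2 : ∀ x ∈ A, ∀ y ∈ A, x * y = y * x := by
    intro x hx y hy
    rw [hmem] at hx hy
    rw [GG.eq_inl x hx, GG.eq_inl y hy, ← GG.inl_add, ← GG.inl_add, add_comm]
  have h3 : ∀ N : Subgroup (GG S), N.Normal → N ≤ A → N = ⊥ ∨ N = A := by
    intro N hN hNA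
    let P : AddSubgroup S :=
      { carrier := {s | GG.inl s ∈ N}
        add_mem' := by
          intro s t hs ht
          change GG.inl (s + t) ∈ N
          rw [GG.inl_add]
          exact N.mul_mem hs ht
        zero_mem' := by
          change GG.inl (0 : S) ∈ N
          rw [GG.inl_zero]
          exact N.one_mem
        neg_mem' := by
          intro s hs
          change GG.inl (-s) ∈ N
          rw [GG.inl_neg]
          exact N.inv_mem hs }
    have hP : P = ⊥ ∨ P = ⊤ := by
      apply hsimple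
      intro q s hs
      have h1 := hN.conj_mem (GG.inl s) hs ⟨0, q⟩
      have h2 : (⟨0, q⟩ : GG S) * GG.inl s * (⟨0, q⟩ : GG S)⁻¹ = GG.inl (q • s) := by
        apply GG.ext
        · rw [GG.mul_s, GG.mul_s, GG.mul_q, GG.inv_s]
          simp [GG.inl]
        · rw [GG.mul_q, GG.mul_q, GG.inv_q]
          simp [GG.inl]
      rw [h2] at h1
      exact h1
    rcases hP with hP | hP
    · left
      rw [eq_bot_iff]
      intro x hx
      have hx' := (hmem x).1 (hNA hx)
      have h4 : x.s ∈ P := by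
        change GG.inl x.s ∈ N
        rw [← GG.eq_inl x hx']
        exact hx
      rw [hP, AddSubgroup.mem_bot] at h4
      rw [Subgroup.mem_bot, GG.eq_inl x hx', h4, GG.inl_zero]
    · right
      refine le_antisymm hNA ?_
      intro x hx
      have hx' := (hmem x).1 hx
      have h4 : x.s ∈ P := by rw [hP]; exact AddSubgroup.mem_top _
      rw [GG.eq_inl x hx']
      exact h4
  have h4 : Group.IsSolvable (GG S ⧸ A) := by
    rw [Group.isSolvable_def]
    obtain ⟨k, hk⟩ := QQ.solvable
    refine ⟨k, ?_⟩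
    have h5 := map_derivedSeries_le_derivedSeries (e : GG S ⧸ A →* QQ) k
    rw [hk, le_bot_iff, Subgroup.map_eq_bot_iff] at h5
    rw [eq_bot_iff]
    intro x hx
    have h6 := h5 hx
    rw [Subgroup.mem_bot]
    exact e.injective (by rw [map_one]; exact h6)
  have h5 : ∃ r : ℕ, ∀ s : Finset (GG S ⧸ A), ∃ t : Finset (GG S ⧸ A),
      t.card ≤ r ∧ Subgroup.closure (t : Set (GG S ⧸ A)) =
        Subgroup.closure (s : Set (GG S ⧸ A)) := by
    refine ⟨4, fun s => ?_⟩
    obtain ⟨t, ht, hc⟩ := QQ.rk_top (s.image e) (fun x _ => Subgroup.mem_top x)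
    refine ⟨t.image e.symm, Finset.card_image_le.trans ht, ?_⟩
    have h6 := congrArg (Subgroup.map (e.symm : QQ →* GG S ⧸ A)) hc
    rw [MonoidHom.map_closure, MonoidHom.map_closure, Finset.coe_image, Set.image_image] at h6
    rw [Finset.coe_image]
    have h7 : (fun x : GG S ⧸ A => (e.symm : QQ →* GG S ⧸ A) (e x)) '' (s : Set (GG S ⧸ A)) = s := by
      have : (fun x : GG S ⧸ A => (e.symm : QQ →* GG S ⧸ A) (e x)) = id := by
        funext x
        exact e.symm_apply_apply x
      rw [this, Set.image_id]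
    rw [h7] at h6
    exact h6
  obtain ⟨p, hp, hpA⟩ := h (GG S) A h1 h2 h3 h4 h5
  have h6 := hpA (GG.inl s0) rfl
  rw [← GG.inl_nsmul] at h6
  exact hs0 (htf p hp.pos s0 (GG.inl_inj _ 0 h6))

end Pool.Agent.Helper730.WMN
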